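import Pool.Agent.Lib.MP_dd84fd_nt.EM.Defs
import Pool.Agent.Lib.MP_dd84fd_nt.E2.RoughClass

/-!
# EM-RoC (0.8 h): the model in the classes of an arbitrary modulus

Copy of `E2.rough_class` (there all primes of the modulus are `≤ w`).  `w = wX D X`, `c_w = P/φ(P)`.  `RC_main w m c t`: `#{n ≤ t, n = c (m), (n, P) = 1} = t (1/m) Σ_{d | P, (d,m) = 1} μ(d)/d + error`, the error times `c_w` is `≤ X^(1-η)`
as in `rough_class`.  The main term: `c_w (1/m) Σ_{d | P, (d,m)=1} μ(d)/d = c_w (1/m) Π_{p ≤ w, p ∤ m} (1 - 1/p) = (1/m) Π_{p | m, p ≤ w} (1-1/p)⁻¹ = (1/φ(m)) Π_{p | m, p > w} (1 - 1/p)` and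
`1 ≥ Π ≥ 1 - ω(m)/L^D`, `ω(m) ≤ 2 L` (every `p > w` has `p > L^D`; `2^ω ≤ m ≤ X`).
(With `m = m₁ m₂`, `m₁` the part composed of primes `≤ w`, `RC_complete w m₁` can be used: `(d, m) = 1 ↔ (d, m₁) = 1` for `d | P`.)
-/

set_option autoImplicit false

namespace Pool.MP_dd84fd_nt.EM

open Finset Pool.MP_67663b_nt.Odd Pool.MP_dd84fd_nt.En Pool.MP_dd84fd_nt.E2
open Pool.MP_dd84fd_nt.HX Pool.MP_dd84fd_nt.IX
open Pool.MP_dd84fd_nt.JX (ZJ DecJ Str wP gP)
open Pool.MP_dd84fd_nt.L2G (fz VA VQ MajQ MinorHyp Tc Jc cv av gr Se)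
open Pool.MP_dd84fd_nt.T7 (Fz2)

private theorem roc_totient (n : ℕ) :
    (Nat.totient n : ℝ) = n * ∏ p ∈ n.primeFactors, (1 - 1 / (p : ℝ)) := by
  have h := Nat.totient_eq_mul_prod_factors n
  have h2 := congrArg (fun x : ℚ => (x : ℝ)) h
  push_cast at h2
  rw [h2]
  simp only [one_div]

private theorem roc_pos {p : ℕ} (hp : p.Prime) : 0 < 1 - 1 / (p : ℝ) := by
  have h1 : (1 : ℝ) < p := by exact_mod_cast hp.one_lt
  rw [sub_pos, div_lt_one (by linarith)]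
  exact h1

/-- the primes of `m` up to `w` -/
private noncomputable def rocS (w m : ℕ) : Finset ℕ := m.primeFactors.filter (fun p => p ≤ w)

/-- the primes of `m` beyond `w` -/
private noncomputable def rocB (w m : ℕ) : Finset ℕ := m.primeFactors.filter (fun p => ¬ p ≤ w)

private theorem roc_primeFactors (w m : ℕ) : (∏ p ∈ rocS w m, p).primeFactors = rocS w m :=
  Nat.primeFactors_prod fun _ hp => (Nat.mem_primeFactors.mp (mem_filter.mp hp).1).1

private theorem roc_cop (w m d : ℕ) (hm : 0 < m) (hd : d ∣ primorial w) :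
    Nat.Coprime d (∏ p ∈ rocS w m, p) ↔ Nat.Coprime d m := by
  constructor
  · intro h
    rw [Nat.coprime_iff_gcd_eq_one]
    by_contra hne
    obtain ⟨p, hp, hpg⟩ := Nat.exists_prime_and_dvd hne
    have hpd : p ∣ d := hpg.trans (Nat.gcd_dvd_left _ _)
    have hpm : p ∣ m := hpg.trans (Nat.gcd_dvd_right _ _)
    have hpw : p ≤ w := (hp.dvd_primorial_iff).mp (hpd.trans hd)
    have hps : p ∈ rocS w m :=
      mem_filter.mpr ⟨Nat.mem_primeFactors.mpr ⟨hp, hpm, hm.ne'⟩, hpw⟩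
    have h3 : p ∣ Nat.gcd d (∏ p ∈ rocS w m, p) := Nat.dvd_gcd hpd (Finset.dvd_prod_of_mem _ hps)
    rw [h] at h3
    exact hp.one_lt.ne' (Nat.dvd_one.mp h3)
  · intro h
    refine Nat.Coprime.prod_right fun p hp => ?_
    exact h.coprime_dvd_right (Nat.mem_primeFactors.mp (mem_filter.mp hp).1).2.1

/-- the main term -/
private theorem roc_main (w m : ℕ) (hm : 0 < m) :
    (primorial w : ℝ) / (Nat.totient (primorial w) : ℝ) *
      (1 / (m : ℝ) * ∑ d ∈ (primorial w).divisors with Nat.Coprime d m,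
        (ArithmeticFunction.moebius d : ℝ) * (1 / (d : ℝ))) =
      1 / (Nat.totient m : ℝ) * ∏ p ∈ rocB w m, (1 - 1 / (p : ℝ)) := by
  set r : ℕ := ∏ p ∈ rocS w m, p with hr
  have hr0 : 0 < r := Finset.prod_pos fun p hp =>
    (Nat.mem_primeFactors.mp (mem_filter.mp hp).1).1.pos
  have h1 := RC_complete w r hr0 (fun p hp hpr => by
    have h2 : p ∈ r.primeFactors := Nat.mem_primeFactors.mpr ⟨hp, hpr, hr0.ne'⟩
    rw [hr, roc_primeFactors] at h2
    exact (mem_filter.mp h2).2)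
  have h2 : ∑ d ∈ (primorial w).divisors with Nat.Coprime d m,
        (ArithmeticFunction.moebius d : ℝ) * (1 / (d : ℝ)) =
      ∑ d ∈ (primorial w).divisors with Nat.Coprime d r,
        (ArithmeticFunction.moebius d : ℝ) * (1 / (d : ℝ)) := by
    refine Finset.sum_congr (Finset.filter_congr fun d hd => ?_) fun _ _ => rfl
    exact (roc_cop w m d hm (Nat.dvd_of_mem_divisors hd)).symm
  have hA : 0 < ∏ p ∈ rocS w m, (1 - 1 / (p : ℝ)) :=
    Finset.prod_pos fun p hp => roc_pos (Nat.mem_primeFactors.mp (mem_filter.mp hp).1).1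
  have hB : 0 < ∏ p ∈ rocB w m, (1 - 1 / (p : ℝ)) :=
    Finset.prod_pos fun p hp => roc_pos (Nat.mem_primeFactors.mp (mem_filter.mp hp).1).1
  have h3 : (Nat.totient r : ℝ) = r * ∏ p ∈ rocS w m, (1 - 1 / (p : ℝ)) := by
    rw [roc_totient, hr, roc_primeFactors]
  have h4 : (Nat.totient m : ℝ) = m * ((∏ p ∈ rocS w m, (1 - 1 / (p : ℝ))) *
      ∏ p ∈ rocB w m, (1 - 1 / (p : ℝ))) := by
    rw [roc_totient]
    congr 1
    exact (Finset.prod_filter_mul_prod_filter_not _ _ _).symm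
  have hr1 : (0 : ℝ) < r := by exact_mod_cast hr0
  have hm1 : (0 : ℝ) < m := by exact_mod_cast hm
  rw [h2, h4]
  rw [h3] at h1
  generalize (∑ d ∈ (primorial w).divisors with Nat.Coprime d r,
        (ArithmeticFunction.moebius d : ℝ) * (1 / (d : ℝ))) = S at h1 ⊢
  generalize (primorial w : ℝ) / (Nat.totient (primorial w) : ℝ) = κ at h1 ⊢
  generalize (∏ p ∈ rocS w m, (1 - 1 / (p : ℝ))) = A at *
  generalize (∏ p ∈ rocB w m, (1 - 1 / (p : ℝ))) = B at *
  have h5 : κ * S = 1 / A := by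
    field_simp at h1 ⊢
    linarith
  calc κ * (1 / (m : ℝ) * S) = (κ * S) / m := by ring
    _ = 1 / A / m := by rw [h5]
    _ = 1 / ((m : ℝ) * (A * B)) * B := by field_simp

/-- the product over the large primes of `m` -/
private theorem roc_prod (s : Finset ℕ) (hs : ∀ p ∈ s, Nat.Prime p) :
    ∏ p ∈ s, (1 - 1 / (p : ℝ)) ≤ 1 ∧ 1 - ∑ p ∈ s, 1 / (p : ℝ) ≤ ∏ p ∈ s, (1 - 1 / (p : ℝ)) := by
  classical
  induction s using Finset.induction_on with
  | empty => simp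
  | insert a s ha ih =>
    obtain ⟨h1, h2⟩ := ih fun p hp => hs p (Finset.mem_insert_of_mem hp)
    have ha1 := roc_pos (hs a (Finset.mem_insert_self a s))
    have ha2 : 0 ≤ 1 / (a : ℝ) := by positivity
    have h3 : 0 ≤ ∏ p ∈ s, (1 - 1 / (p : ℝ)) :=
      Finset.prod_nonneg fun p hp => (roc_pos (hs p (Finset.mem_insert_of_mem hp))).le
    rw [Finset.prod_insert ha, Finset.sum_insert ha]
    constructor
    · nlinarith
    · nlinarith

private theorem roc_omega (m X : ℕ) (hm : 0 < m) (hmX : m ≤ X) :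
    (m.primeFactors.card : ℝ) ≤ 2 * Real.log X := by
  have h1 : 2 ^ m.primeFactors.card ≤ m := by
    calc 2 ^ m.primeFactors.card = ∏ _p ∈ m.primeFactors, 2 := by rw [Finset.prod_const]
      _ ≤ ∏ p ∈ m.primeFactors, p := Finset.prod_le_prod' fun p hp =>
        (Nat.mem_primeFactors.mp hp).1.two_le
      _ ≤ m := Nat.le_of_dvd hm (Nat.prod_primeFactors_dvd m)
  have h2 : (2 : ℝ) ^ m.primeFactors.card ≤ X := by exact_mod_cast h1.trans hmX
  have h3 := Real.log_le_log (by positivity) h2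
  rw [Real.log_pow] at h3
  have h4 := Real.log_two_gt_d9
  have h5 : (0 : ℝ) ≤ m.primeFactors.card := by positivity
  nlinarith

theorem rough_any (D : ℕ) (hD : 1 ≤ D) : ∃ η : ℝ, 0 < η ∧ η ≤ 1 / 4 ∧ ∃ X0 : ℕ,
    ∀ X : ℕ, X0 ≤ X → ∀ m : ℕ, 1 ≤ m → m ≤ X → ∀ c : ℕ, Nat.Coprime c m → ∀ t : ℕ, t ≤ X →
    |∑ n ∈ (Icc 1 t).filter (fun n => n ≡ c [MOD m]), f1 (wX D X) n -
      (t : ℝ) / (Nat.totient m : ℝ)| ≤
      (X : ℝ) ^ (1 - η) + (t : ℝ) / (Nat.totient m : ℝ) * (2 * Real.log X / Real.log X ^ D) := by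
  have hD0 : (0 : ℝ) < D := by exact_mod_cast hD
  have hD1 : (1 : ℝ) ≤ D := by exact_mod_cast hD
  set σ : ℝ := 1 / (2 * (D : ℝ)) with hσ
  have hσ0 : 0 < σ := by positivity
  have hσ1 : σ ≤ 1 / 2 := by
    rw [hσ, div_le_div_iff₀ (by positivity) (by norm_num)]
    linarith
  obtain ⟨X1, hX1⟩ := rankin D hD (ε := σ / 8) (by positivity)
  obtain ⟨X2, hX2⟩ := f1_le D
  obtain ⟨X3, hX3⟩ := RC_loglarge (κ := σ * 3 / 8) (by positivity) 2
  refine ⟨σ / 2, by positivity, by linarith, max (max X1 X2) (max X3 3), ?_⟩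
  intro X hX m hm hmX c hc t ht
  have hXX1 : X1 ≤ X := (le_max_left _ _).trans ((le_max_left _ _).trans hX)
  have hXX2 : X2 ≤ X := (le_max_right _ _).trans ((le_max_left _ _).trans hX)
  have hXX3 : X3 ≤ X := (le_max_left _ _).trans ((le_max_right _ _).trans hX)
  have hXX4 : 3 ≤ X := (le_max_right _ _).trans ((le_max_right _ _).trans hX)
  have hXr : (1 : ℝ) < X := by
    have : (3 : ℝ) ≤ X := by exact_mod_cast hXX4
    linarith
  have hX0' : (0 : ℝ) < X := by linarith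
  have hlog1 : 0 < Real.log X := Real.log_pos hXr
  have hlog0 : 0 ≤ Real.log X := hlog1.le
  have hφ : (0 : ℝ) < (Nat.totient m : ℝ) := by exact_mod_cast Nat.totient_pos.mpr hm
  rcases Nat.eq_zero_or_pos t with ht0 | ht0
  · subst ht0
    simp only [Nat.cast_zero, zero_div, sub_zero, zero_mul, add_zero]
    rw [Finset.Icc_eq_empty (by norm_num), Finset.filter_empty, Finset.sum_empty, abs_zero]
    positivity
  obtain ⟨w, hwd⟩ : ∃ w, w = wX D X := ⟨_, rfl⟩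
  rw [← hwd]
  have hw : (w : ℝ) ≤ (Real.log X) ^ D := by
    rw [hwd]
    exact Nat.floor_le (by positivity)
  have hw2 : (Real.log X) ^ D < (w : ℝ) + 1 := by
    rw [hwd]
    exact Nat.lt_floor_add_one _
  obtain ⟨hratio, -⟩ := hX2 X hXX2 w hw
  have hcomp := roc_main w m hm
  obtain ⟨κ, hκ⟩ : ∃ κ, κ = (primorial w : ℝ) / (Nat.totient (primorial w) : ℝ) := ⟨_, rfl⟩
  rw [← hκ] at hratio hcomp
  have hκ0 : 0 ≤ κ := by
    rw [hκ]
    positivity
  have hsum : ∑ n ∈ (Icc 1 t).filter (fun n => n ≡ c [MOD m]), f1 w n =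
      κ * (((Icc 1 t).filter
        (fun n => n ≡ c [MOD m] ∧ Nat.Coprime n (primorial w))).card : ℝ) := by
    rw [hκ]
    unfold f1
    rw [← Finset.sum_filter, Finset.filter_filter, Finset.sum_const, nsmul_eq_mul, mul_comm]
  have hmain := RC_main w m c t hm hc
  obtain ⟨S1, hS1⟩ : ∃ S1, S1 = 1 / (m : ℝ) * ∑ d ∈ (primorial w).divisors with Nat.Coprime d m,
        (ArithmeticFunction.moebius d : ℝ) * (1 / (d : ℝ)) := ⟨_, rfl⟩
  rw [← hS1] at hmain hcomp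
  obtain ⟨Cn, hCn⟩ : ∃ Cn, Cn = (((Icc 1 t).filter
        (fun n => n ≡ c [MOD m] ∧ Nat.Coprime n (primorial w))).card : ℝ) := ⟨_, rfl⟩
  rw [← hCn] at hmain hsum
  rw [hsum]
  have ht1 : (1 : ℝ) ≤ t := by exact_mod_cast ht0
  have htX : (t : ℝ) ≤ X := by exact_mod_cast ht
  have htpos : (0 : ℝ) < t := by linarith
  -- the second error term
  have hpr : ∀ p ∈ rocB w m, Nat.Prime p := fun p hp =>
    (Nat.mem_primeFactors.mp (mem_filter.mp hp).1).1
  obtain ⟨g1, g2⟩ := roc_prod (rocB w m) hpr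
  have g3 : ∑ p ∈ rocB w m, 1 / (p : ℝ) ≤ 2 * Real.log X / Real.log X ^ D := by
    have h1 : ∀ p ∈ rocB w m, 1 / (p : ℝ) ≤ 1 / Real.log X ^ D := by
      intro p hp
      have h2 : w + 1 ≤ p := by
        have := (mem_filter.mp hp).2
        omega
      have h3 : (w : ℝ) + 1 ≤ p := by exact_mod_cast h2
      exact one_div_le_one_div_of_le (by positivity) (by linarith)
    have h4 : ((rocB w m).card : ℝ) ≤ 2 * Real.log X := by
      refine le_trans ?_ (roc_omega m X hm hmX)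
      exact_mod_cast Finset.card_le_card (Finset.filter_subset _ _)
    calc ∑ p ∈ rocB w m, 1 / (p : ℝ) ≤ ∑ _p ∈ rocB w m, 1 / Real.log X ^ D :=
          Finset.sum_le_sum h1
      _ = (rocB w m).card * (1 / Real.log X ^ D) := by rw [Finset.sum_const, nsmul_eq_mul]
      _ ≤ (2 * Real.log X) * (1 / Real.log X ^ D) := by gcongr
      _ = 2 * Real.log X / Real.log X ^ D := by ring
  obtain ⟨Q, hQ⟩ : ∃ Q, Q = ∏ p ∈ rocB w m, (1 - 1 / (p : ℝ)) := ⟨_, rfl⟩
  rw [← hQ] at g1 g2 hcomp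
  have hsec : |κ * (t * S1) - (t : ℝ) / (Nat.totient m : ℝ)| ≤
      (t : ℝ) / (Nat.totient m : ℝ) * (2 * Real.log X / Real.log X ^ D) := by
    have e1 : κ * (t * S1) - (t : ℝ) / (Nat.totient m : ℝ) =
        - ((t : ℝ) / (Nat.totient m : ℝ) * (1 - Q)) := by
      have : κ * (t * S1) = t * (κ * S1) := by ring
      rw [this, hcomp]
      ring
    rw [e1, abs_neg, abs_of_nonneg (mul_nonneg (by positivity) (by linarith))]
    exact mul_le_mul_of_nonneg_left (by linarith) (by positivity)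
  -- the first error term
  obtain ⟨hr1, hr2⟩ := hX1 X hXX1 w hw t ht1
  have hbound : (((primorial w).divisors.filter (fun d : ℕ => (d : ℝ) ≤ t)).card : ℝ) +
        t * ∑ d ∈ (primorial w).divisors.filter (fun d : ℕ => (t : ℝ) < (d : ℝ)), 1 / (d : ℝ) ≤
      2 * ((X : ℝ) ^ (σ / 8) * (X : ℝ) ^ (1 - σ)) := by
    have h1 : (t : ℝ) * ((X : ℝ) ^ (σ / 8) * (t : ℝ) ^ (-σ)) =
        (X : ℝ) ^ (σ / 8) * (t : ℝ) ^ (1 - σ) := by
      rw [show (1 : ℝ) - σ = 1 + -σ by ring, Real.rpow_add htpos, Real.rpow_one]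
      ring
    have h2 : (t : ℝ) ^ (1 - σ) ≤ (X : ℝ) ^ (1 - σ) :=
      Real.rpow_le_rpow htpos.le htX (by linarith)
    have h3 : (t : ℝ) * ∑ d ∈ (primorial w).divisors.filter (fun d : ℕ => (t : ℝ) < (d : ℝ)),
        1 / (d : ℝ) ≤ (X : ℝ) ^ (σ / 8) * (t : ℝ) ^ (1 - σ) := by
      rw [← h1]
      exact mul_le_mul_of_nonneg_left hr1 htpos.le
    have h4 : (X : ℝ) ^ (σ / 8) * (t : ℝ) ^ (1 - σ) ≤ (X : ℝ) ^ (σ / 8) * (X : ℝ) ^ (1 - σ) :=
      mul_le_mul_of_nonneg_left h2 (by positivity)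
    linarith
  have hfin := hX3 X hXX3
  have hfirst : |κ * Cn - κ * (t * S1)| ≤ (X : ℝ) ^ (1 - σ / 2) := by
    rw [← mul_sub, abs_mul, abs_of_nonneg hκ0]
    calc κ * _ ≤ Real.log X * (2 * ((X : ℝ) ^ (σ / 8) * (X : ℝ) ^ (1 - σ))) :=
          mul_le_mul hratio (hmain.trans hbound) (abs_nonneg _) hlog0
      _ = (2 * Real.log X) * ((X : ℝ) ^ (σ / 8) * (X : ℝ) ^ (1 - σ)) := by ring
      _ ≤ (X : ℝ) ^ (σ * 3 / 8) * ((X : ℝ) ^ (σ / 8) * (X : ℝ) ^ (1 - σ)) :=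
          mul_le_mul_of_nonneg_right hfin (by positivity)
      _ = (X : ℝ) ^ (1 - σ / 2) := by
          rw [← Real.rpow_add hX0', ← Real.rpow_add hX0']
          congr 1
          ring
  calc |κ * Cn - (t : ℝ) / (Nat.totient m : ℝ)|
      = |(κ * Cn - κ * (t * S1)) + (κ * (t * S1) - (t : ℝ) / (Nat.totient m : ℝ))| := by
        congr 1; ring
    _ ≤ _ := (abs_add_le _ _).trans (add_le_add hfirst hsec)

end Pool.MP_dd84fd_nt.EM
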