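import Pool.Agent.Lib.MP_dd84fd_nt.EM.Defs2
import Pool.Agent.Lib.MP_dd84fd_nt.L2G.ArcQ

/-!
# EM-RepA (1 h): the parameters of a point of the major arcs

(1) `adp_ex` (compare `L2G.major_split` and its proof): `|q θ - a/m| ≤ q L^B/(m X)`, `(a,m) = 1`, `m ≤ L^B`.  Split `m = t r`, `t` the part of `m` composed of the primes
dividing `q`, `(r, q t) = 1`.  `θ = a/(q t r) + β`, `|β| ≤ L^B/(t r X)`.  As `(r, q t) = 1`: `a/(q t r) = c/(q t) + y/r` with `a = c r + y q t`; `(a, t) = 1` gives `(c, t) = 1`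
and `(a, r) = 1` gives `(y, r) = 1`.
(2) `adp_uniq`: `θ = c₁/(q t₁) + y₁/r₁ + β₁ = c₂/(q t₂) + y₂/r₂ + β₂`: `q θ = a₁/(t₁ r₁) + q β₁` with `a₁ = c₁ r₁ + q t₁ y₁` coprime to `t₁ r₁`, same for 2; `|q β₁ - q β₂| ≤ 2 q L^B/X <
1/(t₁ r₁ t₂ r₂)`, so `a₁/(t₁ r₁) = a₂/(t₂ r₂)`, `t₁ r₁ = t₂ r₂`; `t₁ | t₂ r₂` is coprime to `r₂` (its primes divide `q`), so `t₁ | t₂` and vice versa.
(3) `adp_class`: `(c - c') = Q (y'/r' - y/r) + Q (β' - β)`, `Q = q t`: `(c - c') - Q(y'/r' - y/r)` is a multiple of `1/(r r')` and `|Q (β' - β)| ≤ 2 q L^B/X < L^(-2B)`, so it is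
`0`; `Q (y' r - y r')/(r r')` is an integer and `(Q, r r') = 1`: `Q | c - c'`, so `t | c - c'`.
(4) `adp_maj`: `q θ = (c r + q t y)/(t r) + q β`, this is reduced: `θ ∈ MajQ`.
-/

set_option autoImplicit false

namespace Pool.MP_dd84fd_nt.EM

open Finset Pool.MP_67663b_nt.Odd Pool.MP_dd84fd_nt.En Pool.MP_dd84fd_nt.E2
open Pool.MP_dd84fd_nt.HX Pool.MP_dd84fd_nt.IX
open Pool.MP_dd84fd_nt.JX (ZJ DecJ Str wP gP)
open Pool.MP_dd84fd_nt.L2G (fz VA VQ MajQ MinorHyp Tc Jc cv av gr Se)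
open Pool.MP_dd84fd_nt.T7 (Fz2)

/-- splitting off the part of `n` composed of the primes of `q` -/
private theorem rep_split (q : ℕ) : ∀ n : ℕ, 1 ≤ n → ∃ t r : ℕ, t * r = n ∧
    (∀ p : ℕ, p.Prime → p ∣ t → p ∣ q) ∧ Nat.Coprime r q := by
  intro n
  induction n using Nat.strong_induction_on with
  | _ n ih =>
    intro hn
    by_cases h : Nat.gcd n q = 1
    · refine ⟨1, n, one_mul n, ?_, h⟩
      intro p hp h1
      exact absurd (Nat.dvd_one.1 h1) hp.one_lt.ne'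
    · have hg0 : 0 < Nat.gcd n q := Nat.gcd_pos_of_pos_left _ hn
      have hg : 1 < Nat.gcd n q := by omega
      obtain ⟨m, hm⟩ := Nat.gcd_dvd_left n q
      have hm0 : 1 ≤ m := by
        rcases Nat.eq_zero_or_pos m with h0 | h0
        · rw [h0, mul_zero] at hm
          omega
        · exact h0
      have hmn : m < n := by
        rw [hm]
        nlinarith
      obtain ⟨t, r, h1, h2, h3⟩ := ih m hmn hm0
      refine ⟨Nat.gcd n q * t, r, ?_, ?_, h3⟩
      · rw [mul_assoc, h1, ← hm]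
      · intro p hp hpt
        rcases (Nat.Prime.dvd_mul hp).1 hpt with h4 | h4
        · exact h4.trans (Nat.gcd_dvd_right n q)
        · exact h2 p hp h4

/-- `t` composed of primes of `q` is coprime to everything coprime to `q` -/
private theorem rep_cop {q t r : ℕ} (ht : ∀ p : ℕ, p.Prime → p ∣ t → p ∣ q)
    (hr : Nat.Coprime r q) : Nat.Coprime r t := by
  rw [Nat.coprime_iff_gcd_eq_one]
  by_contra hcon
  obtain ⟨p, hp, hpg⟩ := Nat.exists_prime_and_dvd hcon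
  have h1 : p ∣ r := hpg.trans (Nat.gcd_dvd_left _ _)
  have h2 : p ∣ t := hpg.trans (Nat.gcd_dvd_right _ _)
  have h3 := Nat.dvd_gcd h1 (ht p hp h2)
  rw [Nat.coprime_iff_gcd_eq_one.1 hr] at h3
  exact absurd (Nat.dvd_one.1 h3) hp.one_lt.ne'

theorem adp_ex (X q B : ℕ) (hX : 2 ≤ X) (hq : 1 ≤ q) (θ : ℝ) (h : θ ∈ MajQ X q B) :
    ∃ t : ℕ, AdP X q B t θ := by
  obtain ⟨r0, hr0, hr0L, c0, hc0, hθ⟩ := h
  obtain ⟨t, r, htr, ht, hrq⟩ := rep_split q r0 hr0
  have ht0 : 1 ≤ t := by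
    rcases Nat.eq_zero_or_pos t with h0 | h0
    · rw [h0, zero_mul] at htr
      omega
    · exact h0
  have hr1 : 1 ≤ r := by
    rcases Nat.eq_zero_or_pos r with h0 | h0
    · rw [h0, mul_zero] at htr
      omega
    · exact h0
  have hrt : Nat.Coprime r t := rep_cop ht hrq
  have hrqt : Nat.Coprime r (q * t) := Nat.Coprime.mul_right hrq hrt
  have hbez : IsCoprime (r : ℤ) ((q * t : ℕ) : ℤ) := Nat.isCoprime_iff_coprime.2 hrqt
  obtain ⟨u, v, huv⟩ := hbez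
  have hq0 : (0 : ℝ) < q := by exact_mod_cast hq
  have ht0' : (0 : ℝ) < t := by exact_mod_cast ht0
  have hr1' : (0 : ℝ) < r := by exact_mod_cast hr1
  have hX0 : (0 : ℝ) < X := by
    have : 0 < X := by omega
    exact_mod_cast this
  have hr0' : (1 : ℝ) ≤ r0 := by exact_mod_cast hr0
  have htr' : (t : ℝ) * r = r0 := by exact_mod_cast htr
  refine ⟨t, c0 * u, c0 * v / r + (θ - c0 / (q * r0)), ?_, ⟨ht0, ht, r, c0 * v,
    θ - c0 / (q * r0), hr1, ?_, hrqt, ?_, ?_, ?_⟩, ?_⟩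
  · refine IsCoprime.mul_left ?_ ?_
    · refine hc0.of_isCoprime_of_dvd_right ?_
      rw [← htr]
      push_cast
      exact Dvd.intro _ rfl
    · refine ⟨(r : ℤ), v * q, ?_⟩
      rw [← huv]
      push_cast
      ring
  · rw [htr']
    exact hr0L
  · refine IsCoprime.mul_left ?_ ?_
    · refine hc0.of_isCoprime_of_dvd_right ?_
      rw [← htr]
      push_cast
      exact Dvd.intro_left _ rfl
    · refine ⟨((q * t : ℕ) : ℤ), u, ?_⟩
      rw [← huv]
      ring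
  · have h1 : θ - c0 / (q * r0) = (q * θ - c0 / r0) / q := by
      field_simp
    rw [h1, abs_div, abs_of_pos hq0, div_le_iff₀ hq0, htr']
    refine hθ.trans (le_of_eq ?_)
    field_simp
  · push_cast
    rfl
  · have h2 : (u : ℝ) * r + v * (q * t) = 1 := by
      have := congrArg (fun z : ℤ => (z : ℝ)) huv
      push_cast at this
      exact this
    have h3 : (c0 : ℝ) / (q * r0) = ((c0 * u : ℤ) : ℝ) / ((q * t : ℕ) : ℝ) +
        c0 * v / r := by
      rw [← htr']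
      push_cast
      field_simp
      linear_combination (-(c0 : ℝ)) * h2
    linarith

/-- the fraction `a / (t r)` approximating `q θ` -/
private theorem rep_key (X q B : ℕ) (hq : 1 ≤ q) (θ : ℝ) (t : ℕ) (h : AdP X q B t θ) :
    ∃ (r : ℕ) (a : ℤ) (β : ℝ), 1 ≤ t ∧ 1 ≤ r ∧ (t : ℝ) * r ≤ Real.log X ^ B ∧
      (∀ p : ℕ, p.Prime → p ∣ t → p ∣ q) ∧ Nat.Coprime r q ∧ IsCoprime a ((t * r : ℕ) : ℤ) ∧
      |β| ≤ Real.log X ^ B / (t * r * X) ∧ q * θ = a / ((t * r : ℕ) : ℝ) + q * β := by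
  obtain ⟨c, φ, hc, ⟨ht, htp, r, y, β, hr, hrL, hrqt, hy, hβ, hφ⟩, hθ⟩ := h
  have hrq : Nat.Coprime r q := Nat.Coprime.coprime_mul_right_right hrqt
  have hrt : Nat.Coprime r t := Nat.Coprime.coprime_mul_left_right hrqt
  have hrqZ : IsCoprime (q : ℤ) (r : ℤ) := (Nat.isCoprime_iff_coprime.2 hrq).symm
  have hrtZ : IsCoprime (r : ℤ) (t : ℤ) := Nat.isCoprime_iff_coprime.2 hrt
  have hq0 : (0 : ℝ) < q := by exact_mod_cast hq
  have ht0 : (0 : ℝ) < t := by exact_mod_cast ht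
  have hr0 : (0 : ℝ) < r := by exact_mod_cast hr
  refine ⟨r, c * r + q * t * y, β, ht, hr, hrL, htp, hrq, ?_, hβ, ?_⟩
  · push_cast
    refine IsCoprime.mul_right ?_ ?_
    · have h1 : IsCoprime (c * (r : ℤ)) (t : ℤ) := IsCoprime.mul_left hc hrtZ
      have h2 : (c * (r : ℤ) + q * t * y) = c * r + (q * y) * t := by ring
      rw [h2]
      exact IsCoprime.add_mul_right_left h1 _
    · have h1 : IsCoprime ((q : ℤ) * t * y) (r : ℤ) :=
        IsCoprime.mul_left (IsCoprime.mul_left hrqZ hrtZ.symm) hy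
      have h2 : (c * (r : ℤ) + q * t * y) = q * t * y + c * r := by ring
      rw [h2]
      exact IsCoprime.add_mul_right_left h1 _
  · rw [hθ, hφ]
    push_cast
    field_simp
    ring

theorem adp_uniq (X q B : ℕ) (hX : 2 ≤ X) (hq : 1 ≤ q)
    (hqB : 4 * (q : ℝ) * Real.log X ^ (3 * B) ≤ X) (θ : ℝ) (t t' : ℕ)
    (h : AdP X q B t θ) (h' : AdP X q B t' θ) : t = t' := by
  obtain ⟨r1, a1, β1, ht1, hr1, hL1, hp1, hc1, ha1, hb1, he1⟩ := rep_key X q B hq θ t h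
  obtain ⟨r2, a2, β2, ht2, hr2, hL2, hp2, hc2, ha2, hb2, he2⟩ := rep_key X q B hq θ t' h'
  obtain ⟨P, hP⟩ : ∃ P : ℝ, P = Real.log X ^ B := ⟨_, rfl⟩
  have hP3 : Real.log X ^ (3 * B) = P ^ 3 := by rw [hP, ← pow_mul, mul_comm]
  rw [hP3] at hqB
  rw [← hP] at hL1 hL2 hb1 hb2
  have hX0 : (0 : ℝ) < X := by
    have : 0 < X := by omega
    exact_mod_cast this
  have hq1 : (1 : ℝ) ≤ q := by exact_mod_cast hq
  have hn1 : (1 : ℝ) ≤ (t : ℝ) * r1 := by
    have : 1 ≤ t * r1 := Nat.mul_pos ht1 hr1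
    exact_mod_cast this
  have hn2 : (1 : ℝ) ≤ (t' : ℝ) * r2 := by
    have : 1 ≤ t' * r2 := Nat.mul_pos ht2 hr2
    exact_mod_cast this
  have hP1 : 1 ≤ P := hn1.trans hL1
  have hn : t * r1 = t' * r2 := by
    have hkey : a1 * ((t' * r2 : ℕ) : ℤ) = a2 * ((t * r1 : ℕ) : ℤ) := by
      by_contra hne
      have h1 : (1 : ℝ) ≤ |(a1 : ℝ) * ((t' : ℝ) * r2) - a2 * ((t : ℝ) * r1)| := by
        have h2 : 1 ≤ |a1 * ((t' * r2 : ℕ) : ℤ) - a2 * ((t * r1 : ℕ) : ℤ)| :=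
          Int.one_le_abs (sub_ne_zero.2 hne)
        have h3 : ((|a1 * ((t' * r2 : ℕ) : ℤ) - a2 * ((t * r1 : ℕ) : ℤ)| : ℤ) : ℝ) =
            |(a1 : ℝ) * ((t' : ℝ) * r2) - a2 * ((t : ℝ) * r1)| := by
          push_cast
          rfl
        rw [← h3]
        exact_mod_cast h2
      push_cast at he1 he2
      have h4 : (a1 : ℝ) * ((t' : ℝ) * r2) - a2 * ((t : ℝ) * r1) =
          (q * β2 - q * β1) * (((t : ℝ) * r1) * ((t' : ℝ) * r2)) := by
        have h5 : (a1 : ℝ) / (t * r1) - a2 / (t' * r2) = q * β2 - q * β1 := by linarith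
        rw [← h5]
        field_simp
      have h6 : |q * β2 - q * β1| ≤ q * (P / (t' * r2 * X)) + q * (P / (t * r1 * X)) := by
        have h7 : |q * β2 - q * β1| ≤ |q * β2| + |q * β1| := abs_sub _ _
        rw [abs_mul, abs_mul, abs_of_nonneg (by linarith : (0 : ℝ) ≤ q)] at h7
        refine h7.trans (add_le_add ?_ ?_)
        · exact mul_le_mul_of_nonneg_left hb2 (by linarith)
        · exact mul_le_mul_of_nonneg_left hb1 (by linarith)
      rw [h4, abs_mul, abs_of_pos (by positivity :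
        0 < ((t : ℝ) * r1) * ((t' : ℝ) * r2))] at h1
      have h8 : (q * (P / (t' * r2 * X)) + q * (P / (t * r1 * X))) *
          (((t : ℝ) * r1) * ((t' : ℝ) * r2)) = q * P * ((t : ℝ) * r1 + t' * r2) / X := by
        field_simp
      have h9 : (1 : ℝ) ≤ q * P * ((t : ℝ) * r1 + t' * r2) / X := by
        rw [← h8]
        exact h1.trans (mul_le_mul_of_nonneg_right h6 (by positivity))
      rw [le_div_iff₀ hX0, one_mul] at h9
      have h10 : q * P * ((t : ℝ) * r1 + t' * r2) ≤ q * P * (P + P) :=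
        mul_le_mul_of_nonneg_left (add_le_add hL1 hL2) (by positivity)
      have h11 : q * P * (P + P) < 4 * q * P ^ 3 := by
        have h12 : P ^ 2 ≤ P ^ 3 := pow_le_pow_right₀ hP1 (by norm_num)
        have h13 : 0 < q * P ^ 2 := by positivity
        have h14 : q * P ^ 2 ≤ q * P ^ 3 := mul_le_mul_of_nonneg_left h12 (by linarith)
        have h15 : q * P * (P + P) = 2 * (q * P ^ 2) := by ring
        have h16 : 4 * q * P ^ 3 = 4 * (q * P ^ 3) := by ring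
        rw [h15, h16]
        linarith
      linarith
    apply Nat.dvd_antisymm
    · have h1 : ((t * r1 : ℕ) : ℤ) ∣ ((t' * r2 : ℕ) : ℤ) := by
        refine ha1.symm.dvd_of_dvd_mul_left ?_
        rw [hkey]
        exact Dvd.intro_left _ rfl
      exact_mod_cast h1
    · have h1 : ((t' * r2 : ℕ) : ℤ) ∣ ((t * r1 : ℕ) : ℤ) := by
        refine ha2.symm.dvd_of_dvd_mul_left ?_
        rw [← hkey]
        exact Dvd.intro_left _ rfl
      exact_mod_cast h1
  apply Nat.dvd_antisymm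
  · have h1 : t ∣ t' * r2 := ⟨r1, hn.symm⟩
    exact (Nat.Coprime.dvd_mul_right (rep_cop hp1 hc2).symm).1 h1
  · have h1 : t' ∣ t * r1 := ⟨r2, hn⟩
    exact (Nat.Coprime.dvd_mul_right (rep_cop hp2 hc1).symm).1 h1

theorem adp_class (X q B : ℕ) (hX : 2 ≤ X) (hq : 1 ≤ q)
    (hqB : 4 * (q : ℝ) * Real.log X ^ (3 * B) ≤ X) (t : ℕ) (φ φ' : ℝ) (c c' : ℤ)
    (h : PtT X q B t φ) (h' : PtT X q B t φ')
    (he : (c : ℝ) / (q * t : ℕ) + φ = (c' : ℝ) / (q * t : ℕ) + φ') :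
    IsCoprime c (t : ℤ) ↔ IsCoprime c' (t : ℤ) := by
  obtain ⟨ht, htp, r1, y1, β1, hr1, hL1, hc1, hy1, hb1, hφ1⟩ := h
  obtain ⟨-, -, r2, y2, β2, hr2, hL2, hc2, hy2, hb2, hφ2⟩ := h'
  obtain ⟨P, hP⟩ : ∃ P : ℝ, P = Real.log X ^ B := ⟨_, rfl⟩
  have hP3 : Real.log X ^ (3 * B) = P ^ 3 := by rw [hP, ← pow_mul, mul_comm]
  rw [hP3] at hqB
  rw [← hP] at hL1 hL2 hb1 hb2
  have hX0 : (0 : ℝ) < X := by
    have : 0 < X := by omega
    exact_mod_cast this
  have hq1 : (1 : ℝ) ≤ q := by exact_mod_cast hq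
  have ht1 : (1 : ℝ) ≤ t := by exact_mod_cast ht
  have hr1' : (1 : ℝ) ≤ r1 := by exact_mod_cast hr1
  have hr2' : (1 : ℝ) ≤ r2 := by exact_mod_cast hr2
  have hrP1 : (r1 : ℝ) ≤ P := by nlinarith
  have hrP2 : (r2 : ℝ) ≤ P := by nlinarith
  have hP1 : 1 ≤ P := hr1'.trans hrP1
  have hQ : (c - c') * (r1 * r2) = (q * t : ℕ) * (y2 * r1 - y1 * r2) := by
    by_contra hne
    have h1 : (1 : ℝ) ≤ |((c : ℝ) - c') * (r1 * r2) - (q * t) * (y2 * r1 - y1 * r2)| := by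
      have h2 : 1 ≤ |(c - c') * (r1 * r2) - (q * t : ℕ) * (y2 * r1 - y1 * r2)| :=
        Int.one_le_abs (sub_ne_zero.2 hne)
      have h3 : ((|(c - c') * (r1 * r2) - (q * t : ℕ) * (y2 * r1 - y1 * r2)| : ℤ) : ℝ) =
          |((c : ℝ) - c') * (r1 * r2) - (q * t) * (y2 * r1 - y1 * r2)| := by
        push_cast
        rfl
      rw [← h3]
      exact_mod_cast h2
    push_cast at he
    rw [hφ1, hφ2] at he
    have h4 : ((c : ℝ) - c') * (r1 * r2) - (q * t) * (y2 * r1 - y1 * r2) =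
        (β2 - β1) * (q * t * (r1 * r2)) := by
      have h5 : (c : ℝ) / (q * t) - c' / (q * t) - (y2 / r2 - y1 / r1) = β2 - β1 := by linarith
      rw [← h5]
      field_simp
    have h6 : |β2 - β1| ≤ P / (t * r2 * X) + P / (t * r1 * X) :=
      (abs_sub _ _).trans (add_le_add hb2 hb1)
    rw [h4, abs_mul, abs_of_pos (by positivity : 0 < (q : ℝ) * t * (r1 * r2))] at h1
    have h8 : (P / (t * r2 * X) + P / (t * r1 * X)) * (q * t * (r1 * r2)) =
        q * P * ((r1 : ℝ) + r2) / X := by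
      field_simp
    have h9 : (1 : ℝ) ≤ q * P * ((r1 : ℝ) + r2) / X := by
      rw [← h8]
      exact h1.trans (mul_le_mul_of_nonneg_right h6 (by positivity))
    rw [le_div_iff₀ hX0, one_mul] at h9
    have h10 : q * P * ((r1 : ℝ) + r2) ≤ q * P * (P + P) :=
      mul_le_mul_of_nonneg_left (add_le_add hrP1 hrP2) (by positivity)
    have h11 : q * P * (P + P) < 4 * q * P ^ 3 := by
      have h12 : P ^ 2 ≤ P ^ 3 := pow_le_pow_right₀ hP1 (by norm_num)
      have h13 : 0 < q * P ^ 2 := by positivity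
      have h14 : q * P ^ 2 ≤ q * P ^ 3 := mul_le_mul_of_nonneg_left h12 (by linarith)
      have h15 : q * P * (P + P) = 2 * (q * P ^ 2) := by ring
      have h16 : 4 * q * P ^ 3 = 4 * (q * P ^ 3) := by ring
      rw [h15, h16]
      linarith
    linarith
  have hdvd : (t : ℤ) ∣ c - c' := by
    have h1 : ((q * t : ℕ) : ℤ) ∣ (c - c') * (r1 * r2) := by
      rw [hQ]
      exact Dvd.intro _ rfl
    have h2 : IsCoprime ((q * t : ℕ) : ℤ) ((r1 : ℤ) * r2) :=
      IsCoprime.mul_right (Nat.isCoprime_iff_coprime.2 hc1).symm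
        (Nat.isCoprime_iff_coprime.2 hc2).symm
    have h3 : ((q * t : ℕ) : ℤ) ∣ c - c' := h2.dvd_of_dvd_mul_right h1
    refine dvd_trans ?_ h3
    push_cast
    exact Dvd.intro_left _ rfl
  obtain ⟨k, hk⟩ := hdvd
  have e1 : c = c' + k * t := by
    have : c - c' = k * t := by rw [hk]; ring
    linarith
  have e2 : c' = c + (-k) * t := by rw [e1]; ring
  constructor
  · intro hc
    rw [e2]
    exact IsCoprime.add_mul_right_left hc _
  · intro hc
    rw [e1]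
    exact IsCoprime.add_mul_right_left hc _

theorem adp_maj (X q B : ℕ) (hX : 2 ≤ X) (hq : 1 ≤ q) (θ : ℝ) (t : ℕ)
    (h : AdP X q B t θ) : θ ∈ MajQ X q B := by
  obtain ⟨r, a, β, ht, hr, hL, hp, hc, ha, hb, he⟩ := rep_key X q B hq θ t h
  refine ⟨t * r, Nat.mul_pos ht hr, ?_, a, ha, ?_⟩
  · push_cast
    exact hL
  · have hq0 : (0 : ℝ) < q := by exact_mod_cast hq
    rw [he, add_sub_cancel_left, abs_mul, abs_of_pos hq0, mul_div_assoc]
    push_cast
    exact mul_le_mul_of_nonneg_left hb hq0.le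

end Pool.MP_dd84fd_nt.EM
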