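import Pool.Agent.Lib.MP_dd84fd_nt.EM.TwB
import Pool.Agent.Lib.MP_dd84fd_nt.EM.RepA
import Pool.Agent.Lib.MP_dd84fd_nt.L2G.Avg
import Pool.Agent.Lib.MP_dd84fd_nt.L2G.ClassAlg

/-!
# EM-LL (1.3 h): the lossless average over the major arcs

`N = gr X`, points `θ_j = j/N`, `j < N`.  (1) For `θ_j ∈ MajQ` there is exactly one `t` with `AdP X q B t θ_j` (`adp_ex`, `adp_uniq`), `t ≤ L^B`, so the sum is `Σ_t Σ_{j : AdP t θ_j} F(θ_j)`.
(2) Fix `t`, `Q = q t ≤ X` divides `N`.  Write `j = j₀ + k N/Q`, `j₀ < N/Q`, `k < Q`: `θ_j = j₀/N + k/Q`.  Fix `j₀` for which some `k` has `AdP t`; choose one: `j₀/N + k₀/Q = c₀/Q + φ`,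
so `θ_j = c_k/Q + φ` with `c_k = c₀ - k₀ + k`, for all `k`, with this fixed `φ`, `PtT X q B t φ`.  `AdP t θ_j` iff `(c_k, t) = 1` (`⇐` by definition, `⇒` by `adp_class`).
By `hF`: `F(θ_j) ≤ nq (Tw q t (c_k/Q) (PG X Q f φ (𝓖 t φ)))`.  The sum over `k < Q`, `(c_k,t) = 1`, is the sum over `c < Q`, `(c,t) = 1` (`Tw q t (c/Q)` depends only on `c mod Q`), so by
`Tw_proj` it is `≤ Σ_k nq (Tw q t (c_k/Q) (fz X Q f φ)) = Σ_k VA X q f θ_j` (`Tw_fz`).
(3) Sum over `j₀`, `t`: `≤ Σ_j VA X q f θ_j = N Σ f²` (`L2G.av_VA`; `VA ≥ 0`; every `j` occurs for at most one `t`).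
-/

set_option autoImplicit false

namespace Pool.MP_dd84fd_nt.EM

open Finset Pool.MP_67663b_nt.Odd Pool.MP_dd84fd_nt.En Pool.MP_dd84fd_nt.E2
open Pool.MP_dd84fd_nt.HX Pool.MP_dd84fd_nt.IX
open Pool.MP_dd84fd_nt.JX (ZJ DecJ Str wP gP)
open Pool.MP_dd84fd_nt.L2G (fz VA VQ MajQ MinorHyp Tc Jc cv av gr Se)
open Pool.MP_dd84fd_nt.T7 (Fz2)

private theorem LL_split (m Q : ℕ) (g : ℕ → ℝ) :
    ∑ j ∈ range (m * Q), g j = ∑ j0 ∈ range m, ∑ k ∈ range Q, g (j0 + k * m) := by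
  rw [Finset.sum_comm]
  induction Q with
  | zero => simp
  | succ Q ih =>
    rw [Finset.sum_range_succ, ← ih, Nat.mul_succ, Finset.sum_range_add]
    congr 1
    refine Finset.sum_congr rfl fun j _ => ?_
    congr 1
    ring

private theorem LL_Tw_per (q t : ℕ) (hQ : (q * t : ℕ) ≠ 0) (g : ZMod (q * t) → ℂ) (z : ℤ)
    (b : ZMod q) :
    Tw q t (((z + (q * t : ℕ) : ℤ) : ℝ) / (q * t : ℕ)) g b =
      Tw q t ((z : ℝ) / (q * t : ℕ)) g b := by
  unfold Tw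
  refine Finset.sum_congr rfl fun j _ => ?_
  congr 1
  have hQ' : ((q * t : ℕ) : ℝ) ≠ 0 := by exact_mod_cast hQ
  have h1 : ((z + (q * t : ℕ) : ℤ) : ℝ) / (q * t : ℕ) * ((b.val + q * j : ℕ) : ℝ) =
      (z : ℝ) / (q * t : ℕ) * ((b.val + q * j : ℕ) : ℝ) + (((b.val + q * j : ℕ) : ℤ) : ℝ) := by
    rw [Int.cast_add, Int.cast_natCast, add_div, div_self hQ', add_mul, one_mul, Int.cast_natCast]
  rw [h1, ee_add_int]

private theorem LL_VA_per (X q : ℕ) [NeZero q] (f : ℕ → ℝ) (θ : ℝ) (z : ℤ) :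
    VA X q f (θ + z) = VA X q f θ := by
  unfold VA
  refine Finset.sum_congr rfl fun b _ => ?_
  congr 2
  unfold fz
  refine Finset.sum_congr rfl fun n _ => ?_
  congr 1
  have h1 : (n : ℝ) * (θ + z) = n * θ + (((n : ℤ) * z : ℤ) : ℝ) := by
    push_cast
    ring
  rw [h1, ee_add_int]

private theorem LL_cop_per (q t : ℕ) (z : ℤ) :
    IsCoprime (z + (q * t : ℕ)) (t : ℤ) ↔ IsCoprime z (t : ℤ) := by
  push_cast
  rw [mul_comm (q : ℤ) (t : ℤ)]
  exact IsCoprime.add_mul_left_left_iff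

private theorem LL_VA_Tw (X q t : ℕ) [NeZero q] [NeZero t] (f : ℕ → ℝ) (φ : ℝ) (c : ℤ) :
    nq (Tw q t ((c : ℝ) / (q * t : ℕ)) (fz X (q * t) f φ)) =
      VA X q f ((c : ℝ) / (q * t : ℕ) + φ) := by
  unfold nq VA
  exact Finset.sum_congr rfl fun b _ => by rw [Tw_fz]

open Classical in
private theorem LL_fiber (X q B : ℕ) [NeZero q] (hX : 3 ≤ X)
    (hqB : 4 * (q : ℝ) * Real.log X ^ (3 * B) ≤ X) (f : ℕ → ℝ)
    (𝓖 : (t : ℕ) → ℝ → Finset (DirichletCharacter ℂ (q * t))) (F : ℝ → ℝ)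
    (hF : ∀ (θ : ℝ) (t : ℕ) (c : ℤ) (φ : ℝ), PtT X q B t φ → IsCoprime c (t : ℤ) →
      θ = (c : ℝ) / (q * t : ℕ) + φ →
      F θ ≤ nq (Tw q t ((c : ℝ) / (q * t : ℕ)) (PG X (q * t) f φ (𝓖 t φ))))
    (t : ℕ) (x : ℝ) :
    ∑ k ∈ range (q * t), (if AdP X q B t (x + (k : ℝ) / (q * t : ℕ)) then
        F (x + (k : ℝ) / (q * t : ℕ)) else 0) ≤
      ∑ k ∈ range (q * t), (if AdP X q B t (x + (k : ℝ) / (q * t : ℕ)) then
        VA X q f (x + (k : ℝ) / (q * t : ℕ)) else 0) := by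
  by_cases hex : ∃ k ∈ range (q * t), AdP X q B t (x + (k : ℝ) / (q * t : ℕ))
  · obtain ⟨k0, hk0, c0, φ, hc0, hφ, he0⟩ := hex
    have ht1 : 1 ≤ t := hφ.1
    have htq : ∀ p : ℕ, p.Prime → p ∣ t → p ∣ q := hφ.2.1
    have : NeZero t := ⟨by omega⟩
    have hq1 : 1 ≤ q := Nat.one_le_iff_ne_zero.2 (NeZero.ne q)
    have hQ : (q * t : ℕ) ≠ 0 := Nat.mul_ne_zero (NeZero.ne q) (NeZero.ne t)
    have hQ' : ((q * t : ℕ) : ℝ) ≠ 0 := by exact_mod_cast hQ
    have hθ : ∀ k : ℕ, x + (k : ℝ) / (q * t : ℕ) =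
        (((k : ℤ) + (c0 - k0) : ℤ) : ℝ) / (q * t : ℕ) + φ := by
      intro k
      have h1 : x = (c0 : ℝ) / (q * t : ℕ) + φ - (k0 : ℝ) / (q * t : ℕ) := by linarith
      rw [h1, Int.cast_add, Int.cast_sub, Int.cast_natCast, Int.cast_natCast, add_div, sub_div]
      ring
    have hAd : ∀ k : ℕ, AdP X q B t (x + (k : ℝ) / (q * t : ℕ)) ↔
        IsCoprime ((k : ℤ) + (c0 - k0)) (t : ℤ) := by
      intro k
      constructor
      · rintro ⟨c', φ', hc', hφ', he'⟩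
        rw [hθ k] at he'
        exact (adp_class X q B (by omega) hq1 hqB t φ φ' _ c' hφ hφ' he').2 hc'
      · intro h
        exact ⟨_, φ, h, hφ, hθ k⟩
    have hperG : ∀ G : ℤ → ℝ, (∀ z : ℤ, G (z + (q * t : ℕ)) = G z) →
        ∑ k ∈ range (q * t), (if IsCoprime ((k : ℤ) + (c0 - k0)) (t : ℤ) then
          G ((k : ℤ) + (c0 - k0)) else 0) =
        ∑ c ∈ (range (q * t)).filter (fun c => Nat.Coprime c t), G (c : ℤ) := by
      intro G hG
      have h1 := Pool.MP_dd84fd_nt.L2G.avg_sum_shift (q * t)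
        (fun z : ℤ => if IsCoprime z (t : ℤ) then G z else 0) (fun z => by
          simp only [hG z, LL_cop_per]) (c0 - k0)
      rw [h1, Finset.sum_filter]
      refine Finset.sum_congr rfl fun c _ => ?_
      simp only [Nat.isCoprime_iff_coprime]
    calc ∑ k ∈ range (q * t), (if AdP X q B t (x + (k : ℝ) / (q * t : ℕ)) then
          F (x + (k : ℝ) / (q * t : ℕ)) else 0)
        ≤ ∑ k ∈ range (q * t), (if IsCoprime ((k : ℤ) + (c0 - k0)) (t : ℤ) then
          nq (Tw q t ((((k : ℤ) + (c0 - k0) : ℤ) : ℝ) / (q * t : ℕ))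
            (PG X (q * t) f φ (𝓖 t φ))) else 0) := by
          refine Finset.sum_le_sum fun k _ => ?_
          by_cases h : IsCoprime ((k : ℤ) + (c0 - k0)) (t : ℤ)
          · rw [if_pos ((hAd k).2 h), if_pos h]
            exact hF _ t _ φ hφ h (hθ k)
          · rw [if_neg (fun h' => h ((hAd k).1 h')), if_neg h]
      _ = ∑ c ∈ (range (q * t)).filter (fun c => Nat.Coprime c t),
          nq (Tw q t ((((c : ℕ) : ℤ) : ℝ) / (q * t : ℕ)) (PG X (q * t) f φ (𝓖 t φ))) :=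
          hperG (fun z => nq (Tw q t ((z : ℝ) / (q * t : ℕ)) (PG X (q * t) f φ (𝓖 t φ))))
            (fun z => by
              unfold nq
              exact Finset.sum_congr rfl fun b _ => by rw [LL_Tw_per q t hQ])
      _ ≤ ∑ c ∈ (range (q * t)).filter (fun c => Nat.Coprime c t),
          VA X q f ((((c : ℕ) : ℤ) : ℝ) / (q * t : ℕ) + φ) := by
          have h1 := Tw_proj X q t htq f φ (𝓖 t φ)
          refine le_trans (le_of_eq ?_) (h1.trans (le_of_eq ?_))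
          · refine Finset.sum_congr rfl fun c _ => ?_
            rw [Int.cast_natCast]
          · refine Finset.sum_congr rfl fun c _ => ?_
            rw [← LL_VA_Tw, Int.cast_natCast]
      _ = ∑ k ∈ range (q * t), (if IsCoprime ((k : ℤ) + (c0 - k0)) (t : ℤ) then
          VA X q f ((((k : ℤ) + (c0 - k0) : ℤ) : ℝ) / (q * t : ℕ) + φ) else 0) :=
          (hperG (fun z => VA X q f ((z : ℝ) / (q * t : ℕ) + φ)) (fun z => by
            have h1 : ((z + (q * t : ℕ) : ℤ) : ℝ) / (q * t : ℕ) + φ =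
                (z : ℝ) / (q * t : ℕ) + φ + ((1 : ℤ) : ℝ) := by
              rw [Int.cast_add, Int.cast_natCast, add_div, div_self hQ', Int.cast_one]
              ring
            simp only [h1]
            exact LL_VA_per X q f _ 1)).symm
      _ = ∑ k ∈ range (q * t), (if AdP X q B t (x + (k : ℝ) / (q * t : ℕ)) then
          VA X q f (x + (k : ℝ) / (q * t : ℕ)) else 0) := by
          refine Finset.sum_congr rfl fun k _ => ?_
          by_cases h : IsCoprime ((k : ℤ) + (c0 - k0)) (t : ℤ)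
          · rw [if_pos ((hAd k).2 h), if_pos h, hθ k]
          · rw [if_neg (fun h' => h ((hAd k).1 h')), if_neg h]
  · have h0 : ∀ k ∈ range (q * t), ¬ AdP X q B t (x + (k : ℝ) / (q * t : ℕ)) := by
      intro k hk h
      exact hex ⟨k, hk, h⟩
    rw [Finset.sum_eq_zero fun k hk => if_neg (h0 k hk),
      Finset.sum_eq_zero fun k hk => if_neg (h0 k hk)]

open Classical in
private theorem LL_t (X q B : ℕ) [NeZero q] (hX : 3 ≤ X)
    (hqB : 4 * (q : ℝ) * Real.log X ^ (3 * B) ≤ X) (f : ℕ → ℝ)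
    (𝓖 : (t : ℕ) → ℝ → Finset (DirichletCharacter ℂ (q * t))) (F : ℝ → ℝ)
    (hF : ∀ (θ : ℝ) (t : ℕ) (c : ℤ) (φ : ℝ), PtT X q B t φ → IsCoprime c (t : ℤ) →
      θ = (c : ℝ) / (q * t : ℕ) + φ →
      F θ ≤ nq (Tw q t ((c : ℝ) / (q * t : ℕ)) (PG X (q * t) f φ (𝓖 t φ))))
    (t : ℕ) :
    ∑ j ∈ range (gr X), (if AdP X q B t ((j : ℝ) / gr X) then F ((j : ℝ) / gr X) else 0) ≤
      ∑ j ∈ range (gr X), (if AdP X q B t ((j : ℝ) / gr X) then
        VA X q f ((j : ℝ) / gr X) else 0) := by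
  by_cases hex : ∃ j ∈ range (gr X), AdP X q B t ((j : ℝ) / gr X)
  · obtain ⟨j0, hj0, c0, φ, hc0, hφ, he0⟩ := hex
    have ht1 : 1 ≤ t := hφ.1
    have hq1 : 1 ≤ q := Nat.one_le_iff_ne_zero.2 (NeZero.ne q)
    have hL1 : 1 ≤ Real.log X := by
      have h3 : (3 : ℝ) ≤ X := by exact_mod_cast hX
      have h4 : Real.exp 1 ≤ 3 := by
        have := Real.exp_one_lt_d9
        linarith
      rw [← Real.log_exp 1]
      exact Real.log_le_log (Real.exp_pos 1) (h4.trans h3)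
    have htL : (t : ℝ) ≤ Real.log X ^ B := by
      obtain ⟨_, _, r, y, β, hr, htr, _⟩ := hφ
      have hr' : (1 : ℝ) ≤ r := by exact_mod_cast hr
      nlinarith [Nat.cast_nonneg (α := ℝ) t]
    have hL3 : Real.log X ^ B ≤ Real.log X ^ (3 * B) :=
      pow_le_pow_right₀ hL1 (by omega)
    have hqt : q * t ≤ X := by
      have h5 : ((q * t : ℕ) : ℝ) ≤ X := by
        push_cast
        have h6 : (q : ℝ) * t ≤ q * Real.log X ^ (3 * B) :=
          mul_le_mul_of_nonneg_left (htL.trans hL3) (by positivity)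
        have h7 : (0 : ℝ) ≤ q * Real.log X ^ (3 * B) := by positivity
        linarith
      exact_mod_cast h5
    have hQ1 : 1 ≤ q * t := Nat.mul_pos hq1 ht1
    obtain ⟨m, hm⟩ := Pool.MP_dd84fd_nt.L2G.dvd_gr (X := X) hQ1 (by omega)
    have hN0 : gr X ≠ 0 := by
      have := Pool.MP_dd84fd_nt.L2G.lt_gr X
      omega
    have hm0 : m ≠ 0 := by
      rintro rfl
      exact hN0 (by rw [hm, mul_zero])
    have hm' : (m : ℝ) ≠ 0 := by exact_mod_cast hm0
    have hQ' : ((q * t : ℕ) : ℝ) ≠ 0 := by exact_mod_cast (by omega : q * t ≠ 0)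
    have hNr : (gr X : ℝ) = ((q * t : ℕ) : ℝ) * m := by exact_mod_cast hm
    have hNm : gr X = m * (q * t) := by rw [hm, mul_comm]
    have hsp : ∀ G : ℝ → ℝ, ∑ j ∈ range (gr X), (if AdP X q B t ((j : ℝ) / gr X) then
          G ((j : ℝ) / gr X) else 0) =
        ∑ j0 ∈ range m, ∑ k ∈ range (q * t),
          (if AdP X q B t ((j0 : ℝ) / gr X + (k : ℝ) / (q * t : ℕ)) then
            G ((j0 : ℝ) / gr X + (k : ℝ) / (q * t : ℕ)) else 0) := by
      intro G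
      have h1 := LL_split m (q * t) (fun j => if AdP X q B t ((j : ℝ) / gr X) then
          G ((j : ℝ) / gr X) else 0)
      rw [← hNm] at h1
      rw [h1]
      refine Finset.sum_congr rfl fun j _ => Finset.sum_congr rfl fun k _ => ?_
      have h2 : (((j + k * m : ℕ) : ℝ)) / gr X = (j : ℝ) / gr X + (k : ℝ) / (q * t : ℕ) := by
        rw [Nat.cast_add, Nat.cast_mul, add_div]
        congr 1
        rw [hNr]
        field_simp
      simp only [h2]
    rw [hsp F, hsp (VA X q f)]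
    exact Finset.sum_le_sum fun j _ => LL_fiber X q B hX hqB f 𝓖 F hF t ((j : ℝ) / gr X)
  · have h0 : ∀ j ∈ range (gr X), ¬ AdP X q B t ((j : ℝ) / gr X) := by
      intro j hj h
      exact hex ⟨j, hj, h⟩
    rw [Finset.sum_eq_zero fun k hk => if_neg (h0 k hk),
      Finset.sum_eq_zero fun k hk => if_neg (h0 k hk)]

theorem lossless (X q B : ℕ) [NeZero q] (hX : 3 ≤ X)
    (hqB : 4 * (q : ℝ) * Real.log X ^ (3 * B) ≤ X) (f : ℕ → ℝ)
    (𝓖 : (t : ℕ) → ℝ → Finset (DirichletCharacter ℂ (q * t))) (F : ℝ → ℝ)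
    (hF : ∀ (θ : ℝ) (t : ℕ) (c : ℤ) (φ : ℝ), PtT X q B t φ → IsCoprime c (t : ℤ) →
      θ = (c : ℝ) / (q * t : ℕ) + φ →
      F θ ≤ nq (Tw q t ((c : ℝ) / (q * t : ℕ)) (PG X (q * t) f φ (𝓖 t φ)))) :
    av (gr X) ((MajQ X q B).indicator F) ≤ ∑ n ∈ Icc 1 X, f n ^ 2 := by
  classical
  have hq1 : 1 ≤ q := Nat.one_le_iff_ne_zero.2 (NeZero.ne q)
  have hVA : ∀ θ, 0 ≤ VA X q f θ := fun θ => Finset.sum_nonneg fun _ _ => by positivity
  rw [← Pool.MP_dd84fd_nt.L2G.av_VA X q f]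
  set M : ℕ := ⌊Real.log X ^ B⌋₊ + 1 with hM
  have htM : ∀ t θ, AdP X q B t θ → t ∈ range M := by
    rintro t θ ⟨c, φ, _, hφ, _⟩
    obtain ⟨h1, _, r, y, β, hr, htr, _⟩ := hφ
    have hr' : (1 : ℝ) ≤ r := by exact_mod_cast hr
    have h2 : (t : ℝ) ≤ Real.log X ^ B := by nlinarith [Nat.cast_nonneg (α := ℝ) t]
    rw [Finset.mem_range, hM]
    exact Nat.lt_succ_of_le (Nat.le_floor h2)
  have hone : ∀ (θ : ℝ) (G : ℝ → ℝ), (MajQ X q B).indicator G θ =
      ∑ t ∈ range M, (if AdP X q B t θ then G θ else 0) := by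
    intro θ G
    by_cases hθ : θ ∈ MajQ X q B
    · obtain ⟨t, ht⟩ := adp_ex X q B (by omega) hq1 θ hθ
      rw [Set.indicator_of_mem hθ, Finset.sum_eq_single_of_mem t (htM t θ ht), if_pos ht]
      intro t' _ hne
      rw [if_neg]
      intro ht'
      exact hne (adp_uniq X q B (by omega) hq1 hqB θ t' t ht' ht)
    · rw [Set.indicator_of_notMem hθ, Finset.sum_eq_zero]
      intro t _
      rw [if_neg]
      intro ht
      exact hθ (adp_maj X q B (by omega) hq1 θ t ht)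
  unfold av
  refine div_le_div_of_nonneg_right ?_ (Nat.cast_nonneg _)
  calc ∑ j ∈ range (gr X), (MajQ X q B).indicator F ((j : ℝ) / gr X)
      = ∑ t ∈ range M, ∑ j ∈ range (gr X),
          (if AdP X q B t ((j : ℝ) / gr X) then F ((j : ℝ) / gr X) else 0) := by
        rw [Finset.sum_comm]
        exact Finset.sum_congr rfl fun j _ => hone _ F
    _ ≤ ∑ t ∈ range M, ∑ j ∈ range (gr X),
          (if AdP X q B t ((j : ℝ) / gr X) then VA X q f ((j : ℝ) / gr X) else 0) :=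
        Finset.sum_le_sum fun t _ => LL_t X q B hX hqB f 𝓖 F hF t
    _ = ∑ j ∈ range (gr X), (MajQ X q B).indicator (VA X q f) ((j : ℝ) / gr X) := by
        rw [Finset.sum_comm]
        exact Finset.sum_congr rfl fun j _ => (hone _ (VA X q f)).symm
    _ ≤ ∑ j ∈ range (gr X), VA X q f ((j : ℝ) / gr X) :=
        Finset.sum_le_sum fun j _ => Set.indicator_le_self' (fun θ _ => hVA θ) _

end Pool.MP_dd84fd_nt.EM
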