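import Pool.Agent.Lib.MP_dd84fd_nt.EM.Defs
import Pool.Agent.Lib.MP_dd84fd_nt.L2G.AII
import Pool.Agent.Lib.MP_dd84fd_nt.L2G.BoxII

/-!
# EM-MiD (0.8 h): type II blocks on the minor arcs (reduced classes)

`fI2 K a c n = Σ_{m | n, n/m ≤ K} a(m) c(n/m)`; for `n ≤ X` every pair `m k = n` with `a m ≠ 0`, `k ≤ K` has `m ≤ 2M`, and conversely `m k ≤ m K ≤ X`, so the
inner sum of `VQ` is the double sum of `L2G.a_II` with `M := 2 M`, `K := K`, `α := a`, `β := c` (the divisor sum over `n ≤ X` = sum over pairs; `b ∈ range q`,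
`n % q = b`).  Hypothesis of `a_II`: `|qθ - c/r| ≤ 1/r²`: `q L^B/(r X) ≤ 1/r²` as `r ≤ X/(q L^B)`.  Result
`≤ C0 (2 M L^(2C)) (K L^(2C)) (K/(q r) + 1) (2 M + r (1 + log r))`.
With `M K ≤ X`, `M ≤ yB = X^(th-3e)`, `q ≤ X^(1-th+e)` (`M q ≤ X^(1-2e)`), `M ≥ X^τ/2`, `L^B < r ≤ X/(q L^B)`, `log r ≤ L`:
`M K · K M/(q r) ≤ X²/(q L^B)`, `M K · K (1 + log r)/q ≤ X · (X/M) 2L/q ≤ 4 X^(2-τ) L/q`, `M K · M ≤ X · X^(1-2e)/q`, `M K · r (1 + log r) ≤ X · 2 X L/(q L^B)`.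
(`K = 0` is trivial; `M ≥ 1`.)  `B0 = A + 4C + 4`.  Compare `L2G/BoxII.lean` (`boxII_arith`).
-/

set_option autoImplicit false

namespace Pool.MP_dd84fd_nt.EM

open Finset Pool.MP_67663b_nt.Odd Pool.MP_dd84fd_nt.En Pool.MP_dd84fd_nt.E2
open Pool.MP_dd84fd_nt.HX Pool.MP_dd84fd_nt.IX
open Pool.MP_dd84fd_nt.JX (ZJ DecJ Str wP gP)
open Pool.MP_dd84fd_nt.L2G (fz VA VQ MajQ MinorHyp Tc Jc cv av gr Se)
open Pool.MP_dd84fd_nt.T7 (Fz2)

private noncomputable def midF (a : ℕ → ℝ) : ArithmeticFunction ℝ :=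
  ⟨fun m => if m = 0 then 0 else a m, by simp⟩

private noncomputable def midG (K : ℕ) (c : ℕ → ℝ) : ArithmeticFunction ℝ :=
  ⟨fun k => if k = 0 then 0 else if k ≤ K then c k else 0, by simp⟩

private theorem mid_conv (K : ℕ) (a c : ℕ → ℝ) (n : ℕ) :
    fI2 K a c n = (midF a * midG K c) n := by
  rw [ArithmeticFunction.mul_apply, Nat.sum_divisorsAntidiagonal
    (fun i j => (midF a) i * (midG K c) j)]
  unfold fI2
  refine Finset.sum_congr rfl fun m hm => ?_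
  have hm1 := Nat.pos_of_mem_divisors hm
  have hn0 : n ≠ 0 := (Nat.mem_divisors.1 hm).2
  have hd : m ∣ n := (Nat.mem_divisors.1 hm).1
  have hk1 : 0 < n / m := Nat.div_pos (Nat.le_of_dvd (Nat.pos_of_ne_zero hn0) hd) hm1
  show _ = (if m = 0 then 0 else a m) * (if n / m = 0 then 0 else if n / m ≤ K then c (n / m) else 0)
  rw [if_neg hm1.ne', if_neg hk1.ne']
  by_cases h : n / m ≤ K
  · rw [if_pos h, if_pos h]
  · rw [if_neg h, if_neg h, mul_zero]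

private theorem mid_restrict (X M' K' : ℕ) (F : ℕ → ℕ → ℂ)
    (hF : ∀ m k, F m k ≠ 0 → m ≤ M' ∧ k ≤ K' ∧ m * k ≤ X) :
    ∑ m ∈ Icc 1 X, ∑ k ∈ Icc 1 X, F m k = ∑ m ∈ Icc 1 M', ∑ k ∈ Icc 1 K', F m k := by
  have key : ∀ N1 N2 : ℕ, (∀ m k, 1 ≤ m → 1 ≤ k → F m k ≠ 0 → m ≤ N1 ∧ k ≤ N2) →
      N1 ≤ max X M' → N2 ≤ max X K' →
      ∑ m ∈ Icc 1 N1, ∑ k ∈ Icc 1 N2, F m k =
        ∑ m ∈ Icc 1 (max X M'), ∑ k ∈ Icc 1 (max X K'), F m k := by
    intro N1 N2 h h1 h2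
    have e1 : ∀ m ∈ Icc 1 N1, ∑ k ∈ Icc 1 N2, F m k = ∑ k ∈ Icc 1 (max X K'), F m k := by
      intro m hm
      rw [mem_Icc] at hm
      refine Finset.sum_subset (Finset.Icc_subset_Icc_right h2) ?_
      intro k hk hk2
      rw [mem_Icc] at hk
      by_contra hne
      apply hk2
      rw [mem_Icc]
      exact ⟨hk.1, (h m k hm.1 hk.1 hne).2⟩
    rw [Finset.sum_congr rfl e1]
    refine Finset.sum_subset (Finset.Icc_subset_Icc_right h1) ?_
    intro m hm hm2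
    rw [mem_Icc] at hm
    refine Finset.sum_eq_zero fun k hk => ?_
    rw [mem_Icc] at hk
    by_contra hne
    apply hm2
    rw [mem_Icc]
    exact ⟨hm.1, (h m k hm.1 hk.1 hne).1⟩
  rw [key X X ?_ (le_max_left _ _) (le_max_left _ _),
    key M' K' ?_ (le_max_right _ _) (le_max_right _ _)]
  · intro m k _ _ hne
    exact ⟨(hF m k hne).1, (hF m k hne).2.1⟩
  · intro m k h1 h2 hne
    have h3 := (hF m k hne).2.2
    exact ⟨le_trans (Nat.le_mul_of_pos_right _ h2) h3, le_trans (Nat.le_mul_of_pos_left _ h1) h3⟩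

theorem mi_TII (A C : ℕ) : ∃ B0 : ℕ, ∀ B : ℕ, B0 ≤ B → ∀ th e τ : ℝ, AdE th e τ →
    ∃ X0 : ℕ, ∀ X : ℕ, X0 ≤ X → ∀ q : ℕ, 1 ≤ q → Qr th e X q → ∀ (θ : ℝ) (r : ℕ) (c : ℤ),
    MinorHyp X q B θ r c → ∀ (M K : ℕ) (a cc : ℕ → ℝ), TyII th e τ X C M K a cc →
    VQ X q (fI2 K a cc) θ ≤ X ^ 2 / (q * Real.log X ^ A) := by
  obtain ⟨C0, hC0, hII⟩ := L2G.a_II
  set D : ℝ := 4 * (64 ^ 2 * C0 * 2 ^ (2 * (2 * C))) with hD
  set E : ℕ := 2 * (2 * C) + 1 + A with hE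
  have hD0 : 0 < D := by rw [hD]; positivity
  refine ⟨E + 1, fun B hB th e τ hAd => ?_⟩
  obtain ⟨ha1, ha2, ha3, ha4, ha5⟩ := hAd
  have hτ : 0 < τ := by linarith
  obtain ⟨X1, hX1⟩ := L2G.boxII_ev_log (2 * D) E τ hτ
  obtain ⟨X2, hX2⟩ := L2G.boxII_ev_log D E (2 * e) (by positivity)
  obtain ⟨X4, hX4⟩ : ∃ X4 : ℕ, ∀ X : ℕ, X4 ≤ X → max 1 D ≤ Real.log X := by
    have h2 := (Real.tendsto_log_atTop.comp (tendsto_natCast_atTop_atTop (R := ℝ)))
      |>.eventually (Filter.eventually_ge_atTop (max 1 D))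
    exact Filter.eventually_atTop.mp h2
  refine ⟨max (max X1 X2) (max X4 3), ?_⟩
  intro X hX q hq hqX θ r c hmin M K a cc hty
  have hXX1 : X1 ≤ X := le_trans (le_trans (le_max_left _ _) (le_max_left _ _)) hX
  have hXX2 : X2 ≤ X := le_trans (le_trans (le_max_right _ _) (le_max_left _ _)) hX
  have hXX4 : X4 ≤ X := le_trans (le_trans (le_max_left _ _) (le_max_right _ _)) hX
  have hXX5 : 3 ≤ X := le_trans (le_trans (le_max_right _ _) (le_max_right _ _)) hX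
  have k1 := hX1 X hXX1
  have k2 := hX2 X hXX2
  have k4 := hX4 X hXX4
  have hL1 : 1 ≤ Real.log X := le_trans (le_max_left _ _) k4
  have hLD : D ≤ Real.log X := le_trans (le_max_right _ _) k4
  have hX0 : (0 : ℝ) < X := by
    have : 0 < X := by omega
    exact_mod_cast this
  set L : ℝ := Real.log X with hL
  have hL0 : 0 < L := by linarith
  obtain ⟨m1, m2, m3, m4⟩ := hmin
  obtain ⟨t1, ⟨t2, t3, t4⟩, t5⟩ := hty
  unfold Qr at hqX
  unfold yB at t3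
  have hLB : 0 < L ^ B := by positivity
  have hqR : (1 : ℝ) ≤ q := by exact_mod_cast hq
  have hq0 : (0 : ℝ) < q := by linarith
  have hr0 : (0 : ℝ) < r := lt_trans hLB m1
  have hr1 : 1 ≤ r := by
    have : 0 < r := by exact_mod_cast hr0
    omega
  have hM0 : (0 : ℝ) < M := by
    have : 0 < (X : ℝ) ^ τ / 2 := by positivity
    linarith
  have hM1 : 1 ≤ M := by
    have : 0 < M := by exact_mod_cast hM0
    omega
  have hLBE : D * L ^ E ≤ L ^ B := by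
    calc D * L ^ E ≤ L * L ^ E := mul_le_mul_of_nonneg_right hLD (by positivity)
      _ = L ^ (E + 1) := by ring
      _ ≤ L ^ B := pow_le_pow_right₀ hL1 hB
  have hrq : (r : ℝ) * (q * L ^ B) ≤ X := by
    rw [le_div_iff₀ (by positivity)] at m2
    exact m2
  have hrX : (r : ℝ) ≤ X := by
    have h1 : (1 : ℝ) ≤ q * L ^ B := by
      have : (1 : ℝ) ≤ L ^ B := one_le_pow₀ hL1
      nlinarith
    nlinarith
  have happ : |(q : ℝ) * θ - c / r| ≤ 1 / (r : ℝ) ^ 2 := by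
    refine le_trans m4 ?_
    rw [div_le_div_iff₀ (by positivity) (by positivity)]
    have : (q : ℝ) * L ^ B * (r : ℝ) ^ 2 = ((r : ℝ) * (q * L ^ B)) * r := by ring
    rw [this]
    nlinarith
  -- the inner sums
  have hVQ : VQ X q (fI2 K a cc) θ =
      ∑ b ∈ (range q).filter (Nat.Coprime q),
      ‖∑ m ∈ Icc 1 (2 * M), ∑ k ∈ Icc 1 K, if m * k ≤ X ∧ (m * k) % q = b then
        ((midF a m * midG K cc k : ℝ) : ℂ) * ee (((m * k : ℕ) : ℝ) * θ) else 0‖ ^ 2 := by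
    unfold VQ
    refine Finset.sum_congr rfl fun b _ => ?_
    have h1 : ∑ n ∈ (Icc 1 X).filter (fun n => n % q = b), (fI2 K a cc n : ℂ) * ee (n * θ) =
        ∑ n ∈ (Icc 1 X).filter (fun n => n % q = b),
          (((midF a * midG K cc) n : ℝ) : ℂ) * ee ((n : ℝ) * θ) := by
      refine Finset.sum_congr rfl fun n _ => ?_
      rw [mid_conv]
    rw [h1, L2G.conv_two (midF a) (midG K cc) X (fun n => n % q = b) (fun n => ee ((n : ℝ) * θ))]
    rw [mid_restrict X (2 * M) K]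
    intro m k hne
    rw [ne_eq, ite_eq_right_iff, not_forall] at hne
    obtain ⟨⟨h2, h3⟩, h4⟩ := hne
    have h5 : (midF a m * midG K cc k : ℝ) ≠ 0 := by
      intro h0
      apply h4
      rw [h0]
      simp
    have h6 : (if m = 0 then 0 else a m) ≠ 0 := left_ne_zero_of_mul h5
    have h7 : (if k = 0 then 0 else if k ≤ K then cc k else 0) ≠ 0 := right_ne_zero_of_mul h5
    refine ⟨?_, ?_, h2⟩
    · by_cases hm : m = 0
      · rw [if_pos hm] at h6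
        exact absurd rfl h6
      · rw [if_neg hm] at h6
        exact (t5 m h6).2.1
    · by_contra hk
      apply h7
      rw [if_neg (by omega : ¬ k = 0), if_neg hk]
  have hSa : ∑ n ∈ Icc 1 (2 * M), (midF a n) ^ 2 ≤ 64 * (M : ℝ) * (2 * L) ^ (2 * C) := by
    have h1 : ∀ n ∈ Icc 1 (2 * M), (midF a n) ^ 2 ≤ L ^ (2 * C) := by
      intro n hn
      rw [mem_Icc] at hn
      show (if n = 0 then 0 else a n) ^ 2 ≤ _
      rw [if_neg (by omega : ¬ n = 0), ← sq_abs, mul_comm 2 C, pow_mul]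
      exact pow_le_pow_left₀ (abs_nonneg _) (t1 n).1 2
    calc ∑ n ∈ Icc 1 (2 * M), (midF a n) ^ 2 ≤ ∑ n ∈ Icc 1 (2 * M), L ^ (2 * C) :=
          Finset.sum_le_sum h1
      _ = 2 * M * L ^ (2 * C) := by
          rw [Finset.sum_const, Nat.card_Icc, nsmul_eq_mul]
          push_cast
          simp
      _ ≤ 64 * (M : ℝ) * (2 * L) ^ (2 * C) := by
          apply mul_le_mul (by linarith) _ (by positivity) (by positivity)
          exact pow_le_pow_left₀ hL0.le (by linarith) _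
  have hSb : ∑ n ∈ Icc 1 K, (midG K cc n) ^ 2 ≤ (K : ℝ) * (2 * L) ^ (2 * C) := by
    have h1 : ∀ n ∈ Icc 1 K, (midG K cc n) ^ 2 ≤ (2 * L) ^ (2 * C) := by
      intro n hn
      rw [mem_Icc] at hn
      show (if n = 0 then 0 else if n ≤ K then cc n else 0) ^ 2 ≤ _
      rw [if_neg (by omega : ¬ n = 0), if_pos hn.2, ← sq_abs, mul_comm 2 C, pow_mul]
      refine pow_le_pow_left₀ (abs_nonneg _) ?_ 2
      exact le_trans (t1 n).2 (pow_le_pow_left₀ hL0.le (by linarith) _)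
    calc ∑ n ∈ Icc 1 K, (midG K cc n) ^ 2 ≤ ∑ n ∈ Icc 1 K, (2 * L) ^ (2 * C) :=
          Finset.sum_le_sum h1
      _ = (K : ℝ) * (2 * L) ^ (2 * C) := by
          rw [Finset.sum_const, Nat.card_Icc, nsmul_eq_mul]
          simp
  rw [hVQ]
  have hmain := hII q X (2 * M) K (midF a) (midG K cc) θ c r hq (by omega) hr1 m3 happ
  have hlogr := Real.log_natCast_nonneg r
  have hlogrL : Real.log r ≤ L := Real.log_le_log hr0 hrX
  have hPK : (M : ℝ) * (K : ℝ) ≤ X := by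
    have : M * K ≤ X := by rw [mul_comm]; exact t4
    exact_mod_cast this
  have g1 : (D * L ^ E) * ((M : ℝ) * q) ≤ X := by
    calc D * L ^ E * (M * q) ≤ (X : ℝ) ^ (2 * e) * ((X : ℝ) ^ (th - 3 * e) *
          (X : ℝ) ^ (1 - th + e)) := by
          gcongr
      _ = (X : ℝ) ^ (1 : ℝ) := by
          rw [← Real.rpow_add hX0, ← Real.rpow_add hX0]
          congr 1
          ring
      _ = X := Real.rpow_one _
  have g2 : (D * L ^ E) * ((r : ℝ) * q) ≤ X := by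
    calc D * L ^ E * (r * q) ≤ L ^ B * (r * q) := by gcongr
      _ = (r : ℝ) * (q * L ^ B) := by ring
      _ ≤ X := hrq
  have g3 : (D * L ^ E) ≤ (r : ℝ) := le_trans hLBE m1.le
  have g4 : (D * L ^ E) ≤ (M : ℝ) := by
    have : 2 * (D * L ^ E) ≤ (X : ℝ) ^ τ := by linarith
    linarith
  have g6 : (0 : ℝ) ≤ ∑ n ∈ Icc 1 (2 * M), (midF a n) ^ 2 :=
    Finset.sum_nonneg fun n _ => sq_nonneg _
  have g7 : (0 : ℝ) ≤ ∑ n ∈ Icc 1 K, (midG K cc n) ^ 2 :=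
    Finset.sum_nonneg fun n _ => sq_nonneg _
  have hmain2 : ∑ b ∈ (range q).filter (Nat.Coprime q),
      ‖∑ m ∈ Icc 1 (2 * M), ∑ k ∈ Icc 1 K, if m * k ≤ X ∧ (m * k) % q = b then
        ((midF a m * midG K cc k : ℝ) : ℂ) * ee (((m * k : ℕ) : ℝ) * θ) else 0‖ ^ 2 ≤
      C0 * (∑ n ∈ Icc 1 (2 * M), (midF a n) ^ 2) * (∑ n ∈ Icc 1 K, (midG K cc n) ^ 2) *
        ((K : ℝ) / (q * r) + 1) * (64 * M + r * (1 + Real.log r)) := by
    refine le_trans hmain ?_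
    have h1 : ((2 * M : ℕ) : ℝ) + r * (1 + Real.log r) ≤ 64 * M + r * (1 + Real.log r) := by
      push_cast
      linarith
    have h2 : (0 : ℝ) ≤ C0 * (∑ n ∈ Icc 1 (2 * M), (midF a n) ^ 2) *
        (∑ n ∈ Icc 1 K, (midG K cc n) ^ 2) * ((K : ℝ) / (q * r) + 1) := by positivity
    exact mul_le_mul_of_nonneg_left h1 h2
  exact L2G.boxII_arith C0 X q r M K L _ (∑ n ∈ Icc 1 (2 * M), (midF a n) ^ 2)
    (∑ n ∈ Icc 1 K, (midG K cc n) ^ 2) (D * L ^ E) (1 + Real.log r) (2 * C) A hC0 hX0 hqR hr0 hM0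
    (Nat.cast_nonneg _) hL1 g6 g7 hmain2 (by linarith) (by linarith) hSa hSb hPK
    (by rw [hD, hE]) g3 g4 g1 g2

end Pool.MP_dd84fd_nt.EM
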