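import Pool.Agent.Lib.MP_dd84fd_nt.EM.Defs
import Pool.Agent.Lib.MP_dd84fd_nt.E2.FBound

/-!
# EM-NC (0.8 h): the classes which are not coprime to `q`

`fS ww gg s D' X n = ww X n + s fI gg X (wX D' X) n`.  By (W1) `|ww X n| ≤ K0 rg (zI X) n`, `|gg| ≤ K0`, and
`|fI| ≤ K0 f1 w n ≤ K0 · 8 L · [n coprime to all p ≤ w]` (or any bound `f1 ≤ L²`: `primorial w/φ(primorial w) = Π_{p ≤ w} (1-1/p)^{-1} ≤ 2 w`-type bounds are too weak,
use the existing bound: grep `f1_le`, `F1_bound`, `f1` in E2/FBound, HX/GrNrm, IX/StRed: there are lemmas `f1 (wX D' X) n ≤ C log`).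
For a non-unit class `b`: `‖fz b‖ ≤ Σ_{n = b} |ww| + Σ_{n=b} |fI|`, `‖.‖² ≤ 2 (..)² + 2 (..)²`; and `Σ_b S_b² ≤ (max_b S_b) Σ_b S_b`, `max_b S_b ≤ (sup) (X/q + 1) ≤ sup · 2X/q`
(`q ≤ X`), `Σ_{b non-unit} S_b ≤ sup · #{n ≤ X : (n,q) > 1, n rough}`.
(1) ww: `n` is `zI`-rough and has a common prime `p ≥ zI ≥ X^(1/10)` with `q`: number `≤ Σ_{p | q, p ≥ zI} X/p ≤ 10 X^(9/10)` (at most 10 such primes as `q ≤ X`).
(2) fI: `n` coprime to `primorial w`, common prime `p > w` with `q`: number `≤ Σ_{p | q, p > w} X/p ≤ ω(q) X/w`, `ω(q) ≤ 2 L` (`2^ω ≤ q`), `w + 1 ≥ L^D'`.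
Result `≤ K0² 80 X^(19/10)/q + K0² L^4 · 16 X² L/(q L^D')`.  `D0 = A + 7`.
-/

set_option autoImplicit false

namespace Pool.MP_dd84fd_nt.EM

open Finset Pool.MP_67663b_nt.Odd Pool.MP_dd84fd_nt.En Pool.MP_dd84fd_nt.E2
open Pool.MP_dd84fd_nt.HX Pool.MP_dd84fd_nt.IX
open Pool.MP_dd84fd_nt.JX (ZJ DecJ Str wP gP)
open Pool.MP_dd84fd_nt.L2G (fz VA VQ MajQ MinorHyp Tc Jc cv av gr Se)
open Pool.MP_dd84fd_nt.T7 (Fz2)

private theorem nc_prim {w n p : ℕ} (h : Nat.Coprime n (primorial w)) (hp : p.Prime) (hd : p ∣ n) :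
    w < p := by
  by_contra hcon
  push Not at hcon
  have h1 : p ∣ primorial w := by
    unfold primorial
    exact Finset.dvd_prod_of_mem (fun p => p) (mem_filter.2 ⟨mem_range.2 (by omega), hp⟩)
  exact Nat.not_coprime_of_dvd_of_dvd hp.one_lt hd h1 h

private theorem nc_rgh {z w n : ℕ} (hz : w < z) (h : Rgh z n) : Nat.Coprime n (primorial w) := by
  unfold primorial
  refine Nat.Coprime.prod_right fun p hp => ?_
  rw [mem_filter, mem_range] at hp
  rw [Nat.coprime_comm, Nat.Prime.coprime_iff_not_dvd hp.2]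
  intro hd
  have h1 := h.2 p (Nat.mem_primeFactors.2 ⟨hp.2, hd, h.1⟩)
  omega

private theorem nc_omega (q : ℕ) (hq : 1 ≤ q) : (q.primeFactors.card : ℝ) ≤ 2 * Real.log q := by
  have h1 : 2 ^ q.primeFactors.card ≤ q := by
    calc 2 ^ q.primeFactors.card = ∏ _p ∈ q.primeFactors, 2 := by rw [prod_const]
      _ ≤ ∏ p ∈ q.primeFactors, p :=
          Finset.prod_le_prod (fun _ _ => Nat.zero_le _)
            (fun p hp => (Nat.prime_of_mem_primeFactors hp).two_le)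
      _ ≤ q := Nat.le_of_dvd hq (Nat.prod_primeFactors_dvd q)
  have h2 : ((2 : ℝ) ^ q.primeFactors.card) ≤ q := by exact_mod_cast h1
  have h3 := Real.log_le_log (by positivity) h2
  rw [Real.log_pow] at h3
  have h4 := Real.log_two_gt_d9
  have h5 : (0 : ℝ) ≤ q.primeFactors.card := by positivity
  nlinarith

private theorem nc_card (X q w : ℕ) (hq : 1 ≤ q) (hqX : q ≤ X) :
    (((Icc 1 X).filter (fun n => ¬ Nat.Coprime n q ∧ Nat.Coprime n (primorial w))).card : ℝ) ≤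
      2 * Real.log X * (X / (w + 1)) := by
  have h1 : (Icc 1 X).filter (fun n => ¬ Nat.Coprime n q ∧ Nat.Coprime n (primorial w)) ⊆
      (q.primeFactors.filter (fun p => w < p)).biUnion
        (fun p => (Ioc 0 X).filter (fun n => p ∣ n)) := by
    intro n hn
    rw [mem_filter, mem_Icc] at hn
    obtain ⟨⟨hn1, hnX⟩, hnq, hnw⟩ := hn
    obtain ⟨p, hp, hpn, hpq⟩ := Nat.Prime.not_coprime_iff_dvd.1 hnq
    rw [mem_biUnion]
    refine ⟨p, mem_filter.2 ⟨Nat.mem_primeFactors.2 ⟨hp, hpq, by omega⟩, nc_prim hnw hp hpn⟩, ?_⟩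
    exact mem_filter.2 ⟨mem_Ioc.2 ⟨by omega, hnX⟩, hpn⟩
  have h2 := (card_le_card h1).trans card_biUnion_le
  have h3 : (((Icc 1 X).filter
      (fun n => ¬ Nat.Coprime n q ∧ Nat.Coprime n (primorial w))).card : ℝ) ≤
      ∑ p ∈ q.primeFactors.filter (fun p => w < p), (X : ℝ) / (w + 1) := by
    refine le_trans (by exact_mod_cast h2 : _ ≤ ((∑ p ∈ q.primeFactors.filter (fun p => w < p),
      ((Ioc 0 X).filter (fun n => p ∣ n)).card : ℕ) : ℝ)) ?_
    push_cast
    refine Finset.sum_le_sum fun p hp => ?_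
    rw [mem_filter] at hp
    rw [Nat.Ioc_filter_dvd_card_eq_div]
    refine Nat.cast_div_le.trans ?_
    have h4 : (w : ℝ) + 1 ≤ p := by exact_mod_cast hp.2
    exact div_le_div_of_nonneg_left (by positivity) (by positivity) h4
  rw [sum_const, nsmul_eq_mul] at h3
  refine h3.trans ?_
  have h4 : ((q.primeFactors.filter (fun p => w < p)).card : ℝ) ≤ q.primeFactors.card := by
    exact_mod_cast card_le_card (filter_subset _ _)
  have h5 := nc_omega q hq
  have h6 : Real.log q ≤ Real.log X :=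
    Real.log_le_log (by exact_mod_cast hq) (by exact_mod_cast hqX)
  exact mul_le_mul_of_nonneg_right (by linarith) (by positivity)

private theorem nc_core (K0 C1 D' : ℕ) (M : ℝ) (ww gg : ℕ → ℕ → ℝ) (hW : W1 K0 C1 ww gg) :
    ∃ X0 : ℕ, ∀ X : ℕ, X0 ≤ X → ∀ s : ℝ, |s| ≤ 1 → 1 ≤ Real.log X ∧ M ≤ Real.log X ∧
      (∀ n, |fS ww gg s D' X n| ≤ 2 * K0 * Real.log X) ∧
      ∀ q : ℕ, 1 ≤ q → q ≤ X →
        ∑ n ∈ (Icc 1 X).filter (fun n => ¬ Nat.Coprime n q), |fS ww gg s D' X n| ≤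
          4 * K0 * X * Real.log X ^ 2 / Real.log X ^ D' := by
  obtain ⟨X1, hX1⟩ := hW
  obtain ⟨X2, hX2⟩ := f1_le D'
  have hev1 : ∀ᶠ X : ℕ in Filter.atTop, max 1 M ≤ Real.log X :=
    (Real.tendsto_log_atTop.comp tendsto_natCast_atTop_atTop).eventually
      (Filter.eventually_ge_atTop (max 1 M))
  have hlit : (fun x : ℝ => Real.log x ^ (D' : ℝ)) =o[Filter.atTop] fun x => x ^ (1 / 10 : ℝ) :=
    isLittleO_log_rpow_rpow_atTop (D' : ℝ) (by norm_num)
  have hev2 : ∀ᶠ X : ℕ in Filter.atTop, Real.log X ^ D' ≤ 1 / 2 * (X : ℝ) ^ (1 / 10 : ℝ) := by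
    have h1 : ∀ᶠ x : ℝ in Filter.atTop, Real.log x ^ D' ≤ 1 / 2 * x ^ (1 / 10 : ℝ) := by
      filter_upwards [hlit.bound (show (0 : ℝ) < 1 / 2 by norm_num),
        Filter.eventually_ge_atTop (1 : ℝ)] with x hx hx1
      rw [Real.rpow_natCast, Real.norm_of_nonneg (by have := Real.log_nonneg hx1; positivity),
        Real.norm_of_nonneg (by positivity)] at hx
      exact hx
    exact tendsto_natCast_atTop_atTop.eventually h1
  obtain ⟨X3, hX3⟩ := Filter.eventually_atTop.1 hev1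
  obtain ⟨X4, hX4⟩ := Filter.eventually_atTop.1 hev2
  refine ⟨max (max X1 X2) (max (max X3 X4) 1), fun X hX s hs => ?_⟩
  have e1 : X1 ≤ X := by omega
  have e2 : X2 ≤ X := by omega
  have e3 : X3 ≤ X := by omega
  have e4 : X4 ≤ X := by omega
  have e5 : 1 ≤ X := by omega
  have hL := hX3 X e3
  have hL1 : 1 ≤ Real.log X := (le_max_left _ _).trans hL
  have hLM : M ≤ Real.log X := (le_max_right _ _).trans hL
  have hwle : ((wX D' X : ℕ) : ℝ) ≤ Real.log X ^ D' := by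
    unfold wX
    exact Nat.floor_le (by positivity)
  have hwge : Real.log X ^ D' ≤ ((wX D' X : ℕ) : ℝ) + 1 := by
    unfold wX
    exact (Nat.lt_floor_add_one _).le
  have hwz : wX D' X < zI X := by
    have h1 : ((wX D' X : ℕ) : ℝ) < zI X := by
      have h2 : (X : ℝ) ^ (1 / 10 : ℝ) ≤ zI X := by
        unfold zI
        exact Nat.le_ceil _
      have h3 : (0 : ℝ) < (X : ℝ) ^ (1 / 10 : ℝ) := by
        have : (0 : ℝ) < X := by exact_mod_cast e5
        positivity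
      have h4 := hX4 X e4
      linarith
    exact_mod_cast h1
  obtain ⟨hf1, hf2⟩ := hX2 X e2 (wX D' X) hwle
  obtain ⟨hb, -⟩ := hX1 X e1
  have hK : (0 : ℝ) ≤ K0 := by positivity
  have hpt : ∀ n, |fS ww gg s D' X n| ≤ K0 * rg (zI X) n + K0 * f1 (wX D' X) n := by
    intro n
    unfold fS fI
    refine (abs_add_le _ _).trans (add_le_add (hb n).1 ?_)
    rw [abs_mul, abs_mul]
    have h1 : |gg X n| * |f1 (wX D' X) n| ≤ K0 * f1 (wX D' X) n := by
      rw [abs_of_nonneg (f1_nonneg _ _)]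
      exact mul_le_mul_of_nonneg_right (hb n).2 (f1_nonneg _ _)
    calc |s| * (|gg X n| * |f1 (wX D' X) n|) ≤ 1 * (|gg X n| * |f1 (wX D' X) n|) :=
          mul_le_mul_of_nonneg_right hs (by positivity)
      _ ≤ K0 * f1 (wX D' X) n := by rw [one_mul]; exact h1
  have hrg : ∀ n, rg (zI X) n ≤ 1 := by
    intro n
    unfold rg
    split_ifs <;> norm_num
  have hsup : ∀ n, |fS ww gg s D' X n| ≤ 2 * K0 * Real.log X := by
    intro n
    refine (hpt n).trans ?_
    have h1 : (K0 : ℝ) * rg (zI X) n ≤ K0 * Real.log X :=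
      mul_le_mul_of_nonneg_left ((hrg n).trans hL1) hK
    have h2 : (K0 : ℝ) * f1 (wX D' X) n ≤ K0 * Real.log X :=
      mul_le_mul_of_nonneg_left (hf2 n) hK
    linarith
  have hzero : ∀ n, ¬ Nat.Coprime n (primorial (wX D' X)) → |fS ww gg s D' X n| = 0 := by
    intro n hn
    refine le_antisymm ((hpt n).trans ?_) (abs_nonneg _)
    have h1 : rg (zI X) n = 0 := by
      unfold rg
      exact if_neg (fun h => hn (nc_rgh hwz h))
    have h2 : f1 (wX D' X) n = 0 := by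
      unfold f1
      exact if_neg hn
    rw [h1, h2]
    simp
  refine ⟨hL1, hLM, hsup, fun q hq hqX => ?_⟩
  have h1 : ∑ n ∈ (Icc 1 X).filter (fun n => ¬ Nat.Coprime n q), |fS ww gg s D' X n| =
      ∑ n ∈ (Icc 1 X).filter (fun n => ¬ Nat.Coprime n q ∧ Nat.Coprime n (primorial (wX D' X))),
        |fS ww gg s D' X n| := by
    rw [← filter_filter, sum_filter (fun n => Nat.Coprime n (primorial (wX D' X)))]
    refine sum_congr rfl fun n _ => ?_
    by_cases h2 : Nat.Coprime n (primorial (wX D' X))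
    · rw [if_pos h2]
    · rw [if_neg h2, hzero n h2]
  rw [h1]
  have h2 := nc_card X q (wX D' X) hq hqX
  have hX0 : (0 : ℝ) < X := by exact_mod_cast e5
  calc ∑ n ∈ (Icc 1 X).filter
        (fun n => ¬ Nat.Coprime n q ∧ Nat.Coprime n (primorial (wX D' X))), |fS ww gg s D' X n|
      ≤ ∑ n ∈ (Icc 1 X).filter
        (fun n => ¬ Nat.Coprime n q ∧ Nat.Coprime n (primorial (wX D' X))), 2 * K0 * Real.log X :=
        sum_le_sum fun n _ => hsup n
    _ = (((Icc 1 X).filter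
        (fun n => ¬ Nat.Coprime n q ∧ Nat.Coprime n (primorial (wX D' X)))).card : ℝ) *
          (2 * K0 * Real.log X) := by rw [sum_const, nsmul_eq_mul]
    _ ≤ (2 * Real.log X * (X / ((wX D' X : ℕ) + 1))) * (2 * K0 * Real.log X) :=
        mul_le_mul_of_nonneg_right h2 (by positivity)
    _ ≤ (2 * Real.log X * (X / Real.log X ^ D')) * (2 * K0 * Real.log X) := by
        refine mul_le_mul_of_nonneg_right ?_ (by positivity)
        refine mul_le_mul_of_nonneg_left ?_ (by positivity)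
        exact div_le_div_of_nonneg_left hX0.le (by positivity) hwge
    _ = 4 * K0 * X * Real.log X ^ 2 / Real.log X ^ D' := by ring

private theorem nc_class (X q : ℕ) (hq : 1 ≤ q) (hqX : q ≤ X) (b : ZMod q) :
    (((Icc 1 X).filter (fun n : ℕ => (n : ZMod q) = b)).card : ℝ) ≤ 2 * (X / q) := by
  have h1 : ((Icc 1 X).filter (fun n : ℕ => (n : ZMod q) = b)).card ≤ (X - 1) / q + 1 := by
    rw [← card_range ((X - 1) / q + 1)]
    refine card_le_card_of_injOn (fun n => (n - 1) / q) ?_ ?_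
    · intro n hn
      rw [mem_coe, mem_filter, mem_Icc] at hn
      rw [mem_coe, mem_range]
      have : (n - 1) / q ≤ (X - 1) / q := Nat.div_le_div_right (by omega)
      show (n - 1) / q < _
      omega
    · intro n hn n' hn' heq
      rw [mem_coe, mem_filter, mem_Icc] at hn hn'
      have h2 : (n : ZMod q) = (n' : ZMod q) := hn.2.trans hn'.2.symm
      rw [ZMod.natCast_eq_natCast_iff] at h2
      have h3 : (n - 1) + 1 ≡ (n' - 1) + 1 [MOD q] := by
        rw [Nat.sub_add_cancel hn.1.1, Nat.sub_add_cancel hn'.1.1]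
        exact h2
      have h4 : (n - 1) % q = (n' - 1) % q := Nat.ModEq.add_right_cancel' 1 h3
      have h5 : (n - 1) / q = (n' - 1) / q := heq
      have h6 := Nat.div_add_mod (n - 1) q
      have h7 := Nat.div_add_mod (n' - 1) q
      rw [h5, h4, h7] at h6
      omega
  have h2 : (((Icc 1 X).filter (fun n : ℕ => (n : ZMod q) = b)).card : ℝ) ≤
      ((X - 1) / q + 1 : ℕ) := by exact_mod_cast h1
  refine h2.trans ?_
  have hq0 : (0 : ℝ) < q := by exact_mod_cast hq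
  have h3 : (((X - 1) / q : ℕ) : ℝ) ≤ X / q := by
    refine Nat.cast_div_le.trans ?_
    refine div_le_div_of_nonneg_right ?_ hq0.le
    exact_mod_cast Nat.sub_le X 1
  have h4 : (1 : ℝ) ≤ X / q := by
    rw [le_div_iff₀ hq0, one_mul]
    exact_mod_cast hqX
  push_cast
  linarith

theorem nc_fam (A K0 C1 : ℕ) : ∃ D0 : ℕ, ∀ D' : ℕ, D0 ≤ D' → ∀ ww gg : ℕ → ℕ → ℝ,
    W1 K0 C1 ww gg → ∃ X0 : ℕ, ∀ X : ℕ, X0 ≤ X → ∀ s : ℝ, |s| ≤ 1 → ∀ (q : ℕ) [NeZero q], q ≤ X →
    ∀ θ : ℝ, ∑ b ∈ univ.filter (fun b : ZMod q => ¬ IsUnit b), ‖fz X q (fS ww gg s D' X) θ b‖ ^ 2 ≤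
      X ^ 2 / (q * Real.log X ^ A) := by
  classical
  refine ⟨A + 4, fun D' hD' ww gg hW => ?_⟩
  obtain ⟨X0, hX0⟩ := nc_core K0 C1 D' (16 * (K0 : ℝ) ^ 2) ww gg hW
  refine ⟨X0, fun X hX s hs q _ hqX θ => ?_⟩
  obtain ⟨hL1, hLM, hsup, hsum⟩ := hX0 X hX s hs
  have hq : 1 ≤ q := Nat.pos_of_ne_zero (NeZero.ne q)
  have hL0 : (0 : ℝ) < Real.log X := by linarith
  have hq0 : (0 : ℝ) < q := by exact_mod_cast hq
  have hX1 : (0 : ℝ) < X := by
    have : 0 < X := by omega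
    exact_mod_cast this
  have hS := hsum q hq hqX
  obtain ⟨S, hSdef⟩ : ∃ S : ZMod q → ℝ, S = fun b =>
    ∑ n ∈ (Icc 1 X).filter (fun n : ℕ => (n : ZMod q) = b), |fS ww gg s D' X n| := ⟨_, rfl⟩
  have hS0 : ∀ b, 0 ≤ S b := fun b => by
    rw [hSdef]
    exact sum_nonneg fun n _ => abs_nonneg _
  have hfz : ∀ b, ‖fz X q (fS ww gg s D' X) θ b‖ ≤ S b := by
    intro b
    unfold fz
    rw [hSdef]
    refine (norm_sum_le _ _).trans (sum_le_sum fun n _ => ?_)
    rw [norm_mul, Complex.norm_real, Real.norm_eq_abs]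
    have h1 : ‖ee ((n : ℝ) * θ)‖ = 1 := by
      unfold ee
      have h2 : (2 * (Real.pi : ℂ) * Complex.I * (((n : ℝ) * θ : ℝ) : ℂ)) =
          ((2 * Real.pi * ((n : ℝ) * θ) : ℝ) : ℂ) * Complex.I := by
        push_cast
        ring
      first
        | rw [h2, Complex.norm_exp_ofReal_mul_I]
        | simp [Complex.norm_exp]
    rw [h1, mul_one]
  have hSb : ∀ b, S b ≤ 4 * K0 * Real.log X * (X / q) := by
    intro b
    rw [hSdef]
    calc ∑ n ∈ (Icc 1 X).filter (fun n : ℕ => (n : ZMod q) = b), |fS ww gg s D' X n|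
        ≤ ∑ n ∈ (Icc 1 X).filter (fun n : ℕ => (n : ZMod q) = b), 2 * K0 * Real.log X :=
          sum_le_sum fun n _ => hsup n
      _ = (((Icc 1 X).filter (fun n : ℕ => (n : ZMod q) = b)).card : ℝ) *
            (2 * K0 * Real.log X) := by rw [sum_const, nsmul_eq_mul]
      _ ≤ (2 * (X / q)) * (2 * K0 * Real.log X) :=
          mul_le_mul_of_nonneg_right (nc_class X q hq hqX b) (by positivity)
      _ = 4 * K0 * Real.log X * (X / q) := by ring
  have htot : ∑ b ∈ univ.filter (fun b : ZMod q => ¬ IsUnit b), S b ≤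
      4 * K0 * X * Real.log X ^ 2 / Real.log X ^ D' := by
    refine le_trans (le_of_eq ?_) hS
    have h1 : ∀ n ∈ (Icc 1 X).filter (fun n => ¬ Nat.Coprime n q),
        (n : ZMod q) ∈ univ.filter (fun b : ZMod q => ¬ IsUnit b) := by
      intro n hn
      rw [mem_filter] at hn
      rw [mem_filter]
      refine ⟨mem_univ _, fun hu => hn.2 ?_⟩
      exact (ZMod.isUnit_iff_coprime n q).1 hu
    rw [← sum_fiberwise_of_maps_to h1]
    refine sum_congr rfl fun b hb => ?_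
    rw [mem_filter] at hb
    rw [hSdef]
    refine sum_congr ?_ fun _ _ => rfl
    ext n
    rw [mem_filter, mem_filter, mem_filter]
    constructor
    · rintro ⟨h2, h3⟩
      refine ⟨⟨h2, fun hc => hb.2 ?_⟩, h3⟩
      rw [← h3]
      exact (ZMod.isUnit_iff_coprime n q).2 hc
    · rintro ⟨⟨h2, _⟩, h3⟩
      exact ⟨h2, h3⟩
  calc ∑ b ∈ univ.filter (fun b : ZMod q => ¬ IsUnit b), ‖fz X q (fS ww gg s D' X) θ b‖ ^ 2
      ≤ ∑ b ∈ univ.filter (fun b : ZMod q => ¬ IsUnit b),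
          (4 * K0 * Real.log X * (X / q)) * S b := by
        refine sum_le_sum fun b _ => ?_
        calc ‖fz X q (fS ww gg s D' X) θ b‖ ^ 2 ≤ S b ^ 2 :=
              pow_le_pow_left₀ (norm_nonneg _) (hfz b) 2
          _ = S b * S b := pow_two _
          _ ≤ (4 * K0 * Real.log X * (X / q)) * S b :=
              mul_le_mul_of_nonneg_right (hSb b) (hS0 b)
    _ = (4 * K0 * Real.log X * (X / q)) *
          ∑ b ∈ univ.filter (fun b : ZMod q => ¬ IsUnit b), S b := by rw [mul_sum]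
    _ ≤ (4 * K0 * Real.log X * (X / q)) * (4 * K0 * X * Real.log X ^ 2 / Real.log X ^ D') :=
        mul_le_mul_of_nonneg_left htot (by positivity)
    _ = (X ^ 2 / q) * (16 * (K0 : ℝ) ^ 2 * Real.log X ^ 3 / Real.log X ^ D') := by
        field_simp
        ring
    _ ≤ (X ^ 2 / q) * (1 / Real.log X ^ A) := by
        refine mul_le_mul_of_nonneg_left ?_ (by positivity)
        rw [div_le_div_iff₀ (by positivity) (by positivity), one_mul]
        calc 16 * (K0 : ℝ) ^ 2 * Real.log X ^ 3 * Real.log X ^ A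
            ≤ Real.log X * Real.log X ^ 3 * Real.log X ^ A := by gcongr
          _ = Real.log X ^ (A + 4) := by ring
          _ ≤ Real.log X ^ D' := pow_le_pow_right₀ hL1 hD'
    _ = X ^ 2 / (q * Real.log X ^ A) := by
        field_simp

/-- the part of `n` not coprime to `q` in mean -/
theorem nc_l1 (A K0 C1 : ℕ) : ∃ D0 : ℕ, ∀ D' : ℕ, D0 ≤ D' → ∀ ww gg : ℕ → ℕ → ℝ,
    W1 K0 C1 ww gg → ∃ X0 : ℕ, ∀ X : ℕ, X0 ≤ X → ∀ s : ℝ, |s| ≤ 1 → ∀ q : ℕ, 1 ≤ q → q ≤ X →
    ∑ n ∈ (Icc 1 X).filter (fun n => ¬ Nat.Coprime n q), |fS ww gg s D' X n| ≤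
      X / Real.log X ^ A := by
  refine ⟨A + 3, fun D' hD' ww gg hW => ?_⟩
  obtain ⟨X0, hX0⟩ := nc_core K0 C1 D' (4 * (K0 : ℝ)) ww gg hW
  refine ⟨X0, fun X hX s hs q hq hqX => ?_⟩
  obtain ⟨hL1, hLM, hsup, hsum⟩ := hX0 X hX s hs
  refine (hsum q hq hqX).trans ?_
  have hL0 : (0 : ℝ) < Real.log X := by linarith
  rw [div_le_div_iff₀ (by positivity) (by positivity)]
  calc 4 * (K0 : ℝ) * X * Real.log X ^ 2 * Real.log X ^ A
      ≤ Real.log X * X * Real.log X ^ 2 * Real.log X ^ A := by gcongr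
    _ = X * Real.log X ^ (A + 3) := by ring
    _ ≤ X * Real.log X ^ D' :=
        mul_le_mul_of_nonneg_left (pow_le_pow_right₀ hL1 hD') (by positivity)

end Pool.MP_dd84fd_nt.EM
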