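import Pool.Agent.Lib.MP_dd84fd_nt.EM.MiC
import Pool.Agent.Lib.MP_dd84fd_nt.EM.MiD
import Pool.Agent.Lib.MP_dd84fd_nt.EM.NC
import Pool.Agent.Lib.MP_dd84fd_nt.L2G.ClassAlg

/-!
# EM-MiU (1 h): a family on the minor arcs

`A' = A + 4`.  `StrE A'` gives `Bd` and `C`.  On `Icc 1 X`: `fS = u + err`, `u = Σ_{i<I} fI1 (γ i) (α i) + Σ_{i<I} fI2 (K i) (a i) (c i)`, `I ≤ L^C`.
`VA = (unit classes) + (non-unit classes)`; non-unit classes: `nc_fam` (A + 2).  Unit classes of a sum of `2 I + 1` functions: Cauchy-Schwarz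
`≤ (2I + 1) Σ`, with `VQ ≤ VA` for the type I parts and for `err` (`VA_trivial`: `VA X q err θ ≤ (X/q + 1) Σ err² ≤ 2 X/q · X/L^(A')`; put `err` apart:
`‖x + y‖² ≤ 2‖x‖² + 2‖y‖²`, so `err` costs only `4 X²/(q L^A')`), and `mi_TI`, `mi_TII` with exponent `A + 3C + 4`.
`VQ` uses `(range q).filter (Nat.Coprime q)` and `n % q = b`; `VA` uses `b : ZMod q`, `(n : ZMod q) = b`: see `VA_la_le` in `L2G/ClassAlg` for the dictionary.
`B0` = max of the two `B0` (they depend on `A, C`), `D0` from `nc_fam`.  (The order: `B0` before `D'`.)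
`mi_B`: `mi_U` for the family `(0, gg)` with `s = 1` (`W1 K0 C1 0 gg` is clear, `DecJ Bd 0 th e τ 0` with `I = 0`, `M i = ⌈X^τ/2⌉₊`, `K i = 0`).
-/

set_option autoImplicit false

namespace Pool.MP_dd84fd_nt.EM

open Finset Pool.MP_67663b_nt.Odd Pool.MP_dd84fd_nt.En Pool.MP_dd84fd_nt.E2
open Pool.MP_dd84fd_nt.HX Pool.MP_dd84fd_nt.IX
open Pool.MP_dd84fd_nt.JX (ZJ DecJ Str wP gP)
open Pool.MP_dd84fd_nt.L2G (fz VA VQ MajQ MinorHyp Tc Jc cv av gr Se)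
open Pool.MP_dd84fd_nt.T7 (Fz2)

private theorem miu_unit (X q : ℕ) [NeZero q] (f : ℕ → ℝ) (θ : ℝ) :
    ∑ b ∈ univ.filter (fun b : ZMod q => IsUnit b), ‖fz X q f θ b‖ ^ 2 = VQ X q f θ := by
  classical
  unfold VQ
  refine Finset.sum_bij (fun b _ => ZMod.val b) ?_ ?_ ?_ ?_
  · intro b hb
    rw [Finset.mem_filter] at hb
    rw [Finset.mem_filter, Finset.mem_range]
    refine ⟨ZMod.val_lt b, ?_⟩
    have h1 := hb.2
    rw [← ZMod.natCast_zmod_val b, ZMod.isUnit_iff_coprime] at h1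
    exact h1.symm
  · intro b _ c _ h
    exact ZMod.val_injective q h
  · intro k hk
    rw [Finset.mem_filter, Finset.mem_range] at hk
    refine ⟨(k : ZMod q), ?_, ZMod.val_cast_of_lt hk.1⟩
    rw [Finset.mem_filter]
    exact ⟨Finset.mem_univ _, (ZMod.isUnit_iff_coprime k q).2 hk.2.symm⟩
  · intro b _
    unfold fz
    congr 2
    refine Finset.sum_congr ?_ fun _ _ => rfl
    ext n
    rw [Finset.mem_filter, Finset.mem_filter]
    refine and_congr_right fun _ => ?_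
    constructor
    · intro h
      rw [← h, ZMod.val_natCast]
    · intro h
      rw [← ZMod.natCast_zmod_val b, ← h, ZMod.natCast_mod]

private theorem miu_unit_le (X q : ℕ) [NeZero q] (f : ℕ → ℝ) (θ : ℝ) :
    ∑ b ∈ univ.filter (fun b : ZMod q => IsUnit b), ‖fz X q f θ b‖ ^ 2 ≤ VA X q f θ := by
  classical
  unfold VA
  exact Finset.sum_le_sum_of_subset_of_nonneg (Finset.filter_subset _ _) fun _ _ _ => sq_nonneg _

private theorem miu_fz (X q : ℕ) (f : ℕ → ℝ) (θ : ℝ) (b : ZMod q) (I : ℕ) (x y : ℕ → ℕ → ℝ)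
    (er : ℕ → ℝ)
    (h : ∀ n ∈ Icc 1 X, f n = ∑ i ∈ range I, x i n + ∑ i ∈ range I, y i n + er n) :
    fz X q f θ b = ∑ i ∈ range I, (fz X q (x i) θ b + fz X q (y i) θ b) + fz X q er θ b := by
  unfold fz
  have h1 : ∀ n ∈ (Icc 1 X).filter (fun n : ℕ => (n : ZMod q) = b), (f n : ℂ) * ee (n * θ) =
      ∑ i ∈ range I, ((x i n : ℂ) * ee (n * θ)) + ∑ i ∈ range I, ((y i n : ℂ) * ee (n * θ)) +
        (er n : ℂ) * ee (n * θ) := by
    intro n hn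
    rw [h n (Finset.mem_filter.1 hn).1]
    push_cast
    rw [add_mul, add_mul, Finset.sum_mul, Finset.sum_mul]
  rw [Finset.sum_congr rfl h1, Finset.sum_add_distrib, Finset.sum_add_distrib,
    Finset.sum_comm, Finset.sum_comm (s := (Icc 1 X).filter (fun n : ℕ => (n : ZMod q) = b)),
    ← Finset.sum_add_distrib]

private theorem miu_norm (I : ℕ) (x y : ℕ → ℂ) (z : ℂ) :
    ‖∑ i ∈ range I, (x i + y i) + z‖ ^ 2 ≤
      4 * I * ∑ i ∈ range I, (‖x i‖ ^ 2 + ‖y i‖ ^ 2) + 2 * ‖z‖ ^ 2 := by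
  have h0 : ∀ a c : ℂ, ‖a + c‖ ^ 2 ≤ 2 * ‖a‖ ^ 2 + 2 * ‖c‖ ^ 2 := by
    intro a c
    have h1 := norm_add_le a c
    have h2 := norm_nonneg (a + c)
    nlinarith [sq_nonneg (‖a‖ - ‖c‖), norm_nonneg a, norm_nonneg c]
  have h1 : ‖∑ i ∈ range I, (x i + y i)‖ ^ 2 ≤ I * ∑ i ∈ range I, ‖x i + y i‖ ^ 2 := by
    have h2 : ‖∑ i ∈ range I, (x i + y i)‖ ^ 2 ≤ (∑ i ∈ range I, ‖x i + y i‖) ^ 2 :=
      pow_le_pow_left₀ (norm_nonneg _) (norm_sum_le _ _) 2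
    have h3 := sq_sum_le_card_mul_sum_sq (s := range I) (f := fun i => ‖x i + y i‖)
    rw [Finset.card_range] at h3
    exact h2.trans h3
  have h2 : ∑ i ∈ range I, ‖x i + y i‖ ^ 2 ≤ 2 * ∑ i ∈ range I, (‖x i‖ ^ 2 + ‖y i‖ ^ 2) := by
    rw [Finset.mul_sum]
    refine Finset.sum_le_sum fun i _ => ?_
    have h3 := h0 (x i) (y i)
    linarith
  have h3 := h0 (∑ i ∈ range I, (x i + y i)) z
  have hI : (0 : ℝ) ≤ I := Nat.cast_nonneg I
  have h4 : (I : ℝ) * ∑ i ∈ range I, ‖x i + y i‖ ^ 2 ≤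
      I * (2 * ∑ i ∈ range I, (‖x i‖ ^ 2 + ‖y i‖ ^ 2)) := mul_le_mul_of_nonneg_left h2 hI
  linarith

private theorem miu_sum (X q : ℕ) [NeZero q] (f : ℕ → ℝ) (θ : ℝ) (I : ℕ) (x y : ℕ → ℕ → ℝ)
    (er : ℕ → ℝ) (T1 : ℝ)
    (h : ∀ n ∈ Icc 1 X, f n = ∑ i ∈ range I, x i n + ∑ i ∈ range I, y i n + er n)
    (hx : ∀ i, VA X q (x i) θ ≤ T1) (hy : ∀ i, VQ X q (y i) θ ≤ T1) :
    ∑ b ∈ univ.filter (fun b : ZMod q => IsUnit b), ‖fz X q f θ b‖ ^ 2 ≤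
      4 * I * (I * (2 * T1)) + 2 * VA X q er θ := by
  classical
  have h1 : ∀ b ∈ univ.filter (fun b : ZMod q => IsUnit b), ‖fz X q f θ b‖ ^ 2 ≤
      4 * I * ∑ i ∈ range I, (‖fz X q (x i) θ b‖ ^ 2 + ‖fz X q (y i) θ b‖ ^ 2) +
        2 * ‖fz X q er θ b‖ ^ 2 := by
    intro b _
    rw [miu_fz X q f θ b I x y er h]
    exact miu_norm I _ _ _
  refine (Finset.sum_le_sum h1).trans ?_
  rw [Finset.sum_add_distrib, ← Finset.mul_sum, ← Finset.mul_sum, Finset.sum_comm]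
  have h2 : ∑ i ∈ range I, ∑ b ∈ univ.filter (fun b : ZMod q => IsUnit b),
      (‖fz X q (x i) θ b‖ ^ 2 + ‖fz X q (y i) θ b‖ ^ 2) ≤ I * (2 * T1) := by
    have h3 : ∀ i ∈ range I, ∑ b ∈ univ.filter (fun b : ZMod q => IsUnit b),
        (‖fz X q (x i) θ b‖ ^ 2 + ‖fz X q (y i) θ b‖ ^ 2) ≤ 2 * T1 := by
      intro i _
      rw [Finset.sum_add_distrib, miu_unit X q (y i) θ]
      have h4 := (miu_unit_le X q (x i) θ).trans (hx i)
      have h5 := hy i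
      linarith
    have h6 := Finset.sum_le_card_nsmul (range I) _ _ h3
    rw [Finset.card_range, nsmul_eq_mul] at h6
    exact h6
  have hI : (0 : ℝ) ≤ 4 * I := by positivity
  have h7 := mul_le_mul_of_nonneg_left h2 hI
  have h8 := miu_unit_le X q er θ
  linarith

private theorem miu_log (c : ℝ) : ∃ X0 : ℕ, ∀ X : ℕ, X0 ≤ X → c ≤ Real.log X := by
  have h := (Real.tendsto_log_atTop.comp (tendsto_natCast_atTop_atTop (R := ℝ))).eventually_ge_atTop c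
  obtain ⟨N, hN⟩ := Filter.eventually_atTop.1 h
  exact ⟨N, fun X hX => hN X hX⟩

theorem mi_U (hS : StrE) (A : ℕ) : ∃ Bd : ℕ, ∀ K0 C1 C2 : ℕ, ∃ B0 : ℕ, ∀ B : ℕ, B0 ≤ B →
    ∃ D0 : ℕ, ∀ D' : ℕ, D0 ≤ D' → ∀ th e τ : ℝ, AdE th e τ → ∀ ww gg : ℕ → ℕ → ℝ,
    W1 K0 C1 ww gg → DecJ Bd C2 th e τ ww → ∃ X0 : ℕ, ∀ X : ℕ, X0 ≤ X → ∀ s : ℝ, |s| ≤ 1 →
    ∀ (q : ℕ) [NeZero q], Qr th e X q → ∀ (θ : ℝ) (r : ℕ) (c : ℤ), MinorHyp X q B θ r c →
    VA X q (fS ww gg s D' X) θ ≤ X ^ 2 / (q * Real.log X ^ A) := by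
  classical
  obtain ⟨Bd, hBd⟩ := hS (A + 4)
  refine ⟨Bd, fun K0 C1 C2 => ?_⟩
  obtain ⟨C, hC⟩ := hBd K0 C1 C2
  obtain ⟨B1, hB1⟩ := mi_TI (A + 3 * C + 4) C
  obtain ⟨B2, hB2⟩ := mi_TII (A + 3 * C + 4) C
  refine ⟨max B1 B2, fun B hB => ?_⟩
  obtain ⟨D0, hD0⟩ := nc_fam (A + 2) K0 C1
  refine ⟨max D0 1, fun D' hD' th e τ hAd ww gg hW hDec => ?_⟩
  obtain ⟨X1, hX1⟩ := hC th e τ hAd ww gg hW hDec D' ((le_max_right _ _).trans hD')
  obtain ⟨X2, hX2⟩ := hB1 B ((le_max_left _ _).trans hB) th e τ hAd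
  obtain ⟨X3, hX3⟩ := hB2 B ((le_max_right _ _).trans hB) th e τ hAd
  obtain ⟨X4, hX4⟩ := hD0 D' ((le_max_left _ _).trans hD') ww gg hW
  obtain ⟨X5, hX5⟩ := miu_log 4
  refine ⟨max (max X1 X2) (max (max X3 X4) (max X5 2)), fun X hX s hs q _ hq θ r c hM => ?_⟩
  have hXa : X1 ≤ X := by omega
  have hXb : X2 ≤ X := by omega
  have hXc : X3 ≤ X := by omega
  have hXd : X4 ≤ X := by omega
  have hXe : X5 ≤ X := by omega
  have hXf : 2 ≤ X := by omega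
  have hL : 4 ≤ Real.log X := hX5 X hXe
  set L : ℝ := Real.log X with hLdef
  have hq1 : 1 ≤ q := Nat.pos_of_ne_zero (NeZero.ne q)
  have hq0 : (0 : ℝ) < q := by exact_mod_cast hq1
  have hX0 : (1 : ℝ) ≤ X := by
    have : 1 ≤ X := by omega
    exact_mod_cast this
  have hqX : q ≤ X := by
    have h1 : (q : ℝ) ≤ X := by
      refine hq.trans ?_
      have h2 : (X : ℝ) ^ (1 - th + e) ≤ (X : ℝ) ^ (1 : ℝ) := by
        refine Real.rpow_le_rpow_of_exponent_le hX0 ?_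
        obtain ⟨h3, h4, h5, h6, h7⟩ := hAd
        linarith
      rwa [Real.rpow_one] at h2
    exact_mod_cast h1
  obtain ⟨u, er, hu, hsum, herr⟩ := hX1 X hXa s hs
  obtain ⟨I, γ, α, M, K, a, cc, hI, hγ, hα, hα2, hac, hMK, ham, huu⟩ := hu
  have hsplit : VA X q (fS ww gg s D' X) θ =
      ∑ b ∈ univ.filter (fun b : ZMod q => IsUnit b), ‖fz X q (fS ww gg s D' X) θ b‖ ^ 2 +
      ∑ b ∈ univ.filter (fun b : ZMod q => ¬ IsUnit b), ‖fz X q (fS ww gg s D' X) θ b‖ ^ 2 := by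
    unfold VA
    rw [Finset.sum_filter_add_sum_filter_not]
  have hnon := hX4 X hXd s hs q hqX θ
  have hx : ∀ i, VA X q (fI1 (γ i) (α i)) θ ≤ X ^ 2 / (q * L ^ (A + 3 * C + 4)) := fun i =>
    hX2 X hXb q hq θ r c hM (γ i) (α i) ⟨(hγ i).1, (hγ i).2, hα i, hα2 i⟩
  have hy : ∀ i, VQ X q (fI2 (K i) (a i) (cc i)) θ ≤ X ^ 2 / (q * L ^ (A + 3 * C + 4)) := fun i =>
    hX3 X hXc q hq1 hq θ r c hM (M i) (K i) (a i) (cc i) ⟨hac i, hMK i, ham i⟩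
  have hf : ∀ n ∈ Icc 1 X, fS ww gg s D' X n = ∑ i ∈ range I, fI1 (γ i) (α i) n +
      ∑ i ∈ range I, fI2 (K i) (a i) (cc i) n + er n := by
    intro n hn
    unfold fS
    rw [hsum n hn, huu n hn]
    rfl
  have hunit := miu_sum X q (fS ww gg s D' X) θ I (fun i => fI1 (γ i) (α i))
    (fun i => fI2 (K i) (a i) (cc i)) er _ hf hx hy
  have her : VA X q er θ ≤ (2 * X / q) * (X / L ^ (A + 4)) := by
    refine (L2G.VA_trivial X q er θ).trans ?_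
    have h1 : (X : ℝ) / q + 1 ≤ 2 * X / q := by
      rw [div_add_one hq0.ne', div_le_div_iff_of_pos_right hq0]
      have : (q : ℝ) ≤ X := by exact_mod_cast hqX
      linarith
    refine mul_le_mul h1 herr (Finset.sum_nonneg fun _ _ => sq_nonneg _) (by positivity)
  have hL0 : 0 < L := by linarith
  have hL1 : 1 ≤ L := by linarith
  have hT : 4 * (I : ℝ) * (I * (2 * (X ^ 2 / (q * L ^ (A + 3 * C + 4))))) ≤
      8 * (X ^ 2 / (q * L ^ (A + 4))) := by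
    have h1 : (I : ℝ) * I ≤ L ^ C * L ^ C := mul_le_mul hI hI (Nat.cast_nonneg I) (by positivity)
    have h2 : (I : ℝ) * I * (X ^ 2 / (q * L ^ (A + 3 * C + 4))) ≤ X ^ 2 / (q * L ^ (A + 4)) := by
      calc (I : ℝ) * I * (X ^ 2 / (q * L ^ (A + 3 * C + 4)))
          ≤ L ^ C * L ^ C * (X ^ 2 / (q * L ^ (A + 3 * C + 4))) :=
            mul_le_mul_of_nonneg_right h1 (by positivity)
        _ = X ^ 2 / (q * L ^ (A + C + 4)) := by
            rw [show A + 3 * C + 4 = C + C + (A + C + 4) by ring, pow_add, pow_add]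
            field_simp
        _ ≤ X ^ 2 / (q * L ^ (A + 4)) := by
            refine div_le_div_of_nonneg_left (by positivity) (by positivity) ?_
            refine mul_le_mul_of_nonneg_left ?_ hq0.le
            exact pow_le_pow_right₀ hL1 (by omega)
    linarith
  have hfin : X ^ 2 / (q * L ^ (A + 2)) + 8 * (X ^ 2 / (q * L ^ (A + 4))) +
      2 * ((2 * X / q) * (X / L ^ (A + 4))) ≤ X ^ 2 / (q * L ^ A) := by
    have e1 : (X : ℝ) ^ 2 / (q * L ^ (A + 2)) = X ^ 2 / (q * L ^ A) * (1 / L ^ 2) := by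
      rw [pow_add]
      field_simp
    have e2 : (X : ℝ) ^ 2 / (q * L ^ (A + 4)) = X ^ 2 / (q * L ^ A) * (1 / L ^ 4) := by
      rw [pow_add]
      field_simp
    have e3 : 2 * ((2 * (X : ℝ) / q) * (X / L ^ (A + 4))) =
        4 * (X ^ 2 / (q * L ^ A) * (1 / L ^ 4)) := by
      rw [← e2]
      field_simp
      ring
    rw [e1, e2, e3]
    have h0 : (0 : ℝ) ≤ X ^ 2 / (q * L ^ A) := by positivity
    have h1 : 1 / L ^ 2 ≤ 1 / 16 := by
      refine one_div_le_one_div_of_le (by norm_num) ?_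
      nlinarith
    have h2 : 1 / L ^ 4 ≤ 1 / 256 := by
      refine one_div_le_one_div_of_le (by norm_num) ?_
      have h3 : (16 : ℝ) ≤ L ^ 2 := by nlinarith
      have h4 : L ^ 4 = L ^ 2 * L ^ 2 := by ring
      rw [h4]
      nlinarith
    nlinarith
  rw [hsplit]
  linarith

/-- the model alone -/
theorem mi_B (hS : StrE) (A K0 C1 : ℕ) : ∃ B0 : ℕ, ∀ B : ℕ, B0 ≤ B →
    ∃ D0 : ℕ, ∀ D' : ℕ, D0 ≤ D' → ∀ th e τ : ℝ, AdE th e τ → ∀ ww gg : ℕ → ℕ → ℝ,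
    W1 K0 C1 ww gg → ∃ X0 : ℕ, ∀ X : ℕ, X0 ≤ X →
    ∀ (q : ℕ) [NeZero q], Qr th e X q → ∀ (θ : ℝ) (r : ℕ) (c : ℤ), MinorHyp X q B θ r c →
    VA X q (fI gg X (wX D' X)) θ ≤ X ^ 2 / (q * Real.log X ^ A) := by
  obtain ⟨Bd, hBd⟩ := mi_U hS A
  obtain ⟨B0, hB0⟩ := hBd K0 C1 0
  refine ⟨B0, fun B hB => ?_⟩
  obtain ⟨D0, hD0⟩ := hB0 B hB
  refine ⟨D0, fun D' hD' th e τ hAd ww gg hW => ?_⟩
  have hW0 : W1 K0 C1 (fun _ _ => 0) gg := by
    obtain ⟨X0, hX0⟩ := hW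
    refine ⟨X0, fun X hX => ⟨fun n => ⟨?_, ((hX0 X hX).1 n).2⟩, (hX0 X hX).2⟩⟩
    rw [abs_zero]
    exact (abs_nonneg _).trans ((hX0 X hX).1 n).1
  have hDec : DecJ Bd 0 th e τ (fun _ _ => 0) := by
    obtain ⟨h3, h4, h5, h6, h7⟩ := hAd
    obtain ⟨X5, hX5⟩ := miu_log 10
    refine ⟨max X5 2, fun X hX => ?_⟩
    have hL : 10 ≤ Real.log X := hX5 X (by omega)
    have hX1 : (1 : ℝ) ≤ X := by
      have : 1 ≤ X := by omega
      exact_mod_cast this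
    refine ⟨0, fun _ _ => 0, fun _ _ => 0, fun _ => ⌈(X : ℝ) ^ τ / 2⌉₊, fun _ => 0, fun _ _ => 0,
      fun _ _ => 0, fun _ => 0, ?_, ?_, ?_, ?_, ?_, ?_, ?_, ?_, ?_⟩
    · simp
    · intro i
      simp
    · intro i l
      simp
    · intro i l _
      rfl
    · intro i n
      simp
    · intro i
      refine ⟨Nat.le_ceil _, ?_, by simp⟩
      have h8 : (X : ℝ) ^ τ ≤ (X : ℝ) ^ (1 / 10 : ℝ) := Real.rpow_le_rpow_of_exponent_le hX1 h6
      have h9 : (2 : ℝ) ≤ (X : ℝ) ^ (1 / 10 : ℝ) := by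
        rw [Real.rpow_def_of_pos (by linarith)]
        have h10 := Real.add_one_le_exp (Real.log X * (1 / 10))
        linarith
      have h11 : (X : ℝ) ^ (1 / 10 : ℝ) ≤ yB th e X := by
        unfold yB
        refine Real.rpow_le_rpow_of_exponent_le hX1 ?_
        linarith
      have h12 := (Nat.ceil_lt_add_one (a := (X : ℝ) ^ τ / 2) (by positivity)).le
      linarith
    · intro i m h
      exact absurd rfl h
    · intro n _
      simp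
    · simp only [ne_eq, OfNat.ofNat_ne_zero, not_false_eq_true, zero_pow, sum_const_zero]
      positivity
  obtain ⟨X0, hX0⟩ := hD0 D' hD' th e τ hAd (fun _ _ => 0) gg hW0 hDec
  refine ⟨X0, fun X hX q _ hq θ r c hM => ?_⟩
  have h1 := hX0 X hX 1 (by norm_num) q hq θ r c hM
  have h2 : fS (fun _ _ => 0) gg 1 D' X = fI gg X (wX D' X) := by
    funext n
    unfold fS
    rw [one_mul, zero_add]
  rw [h2] at h1
  exact h1

end Pool.MP_dd84fd_nt.EM
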