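import Pool.Agent.Lib.MP_dd84fd_nt.EM.MjH
import Pool.Agent.Lib.MP_dd84fd_nt.EM.MiU
import Pool.Agent.Lib.MP_dd84fd_nt.EM.LL
import Pool.Agent.Lib.MP_dd84fd_nt.L2G.Avg
import Pool.Agent.Lib.MP_dd84fd_nt.L2G.ArcQ
import Pool.Agent.Lib.MP_dd84fd_nt.L2G.ClassAlg
import Pool.Agent.Lib.MP_dd84fd_nt.T7.Fz2Basic
import Pool.Agent.Lib.MP_dd84fd_nt.E2.FBound

/-!
# EM-AvH (1.2 h): the mean squares of `Fz2 h u` and `Fz2 u u`

`w = uI ww gg X (wX D' X) = fS ww gg (-1) D' X`.  `StrE (A + 8)` gives `Bd₁` and `mi_U (A + 6)` gives `Bd₂`; `Bd = max` (a decomposition with the larger `B` has the smaller error: `DecJ` is monotone in `B`: `X/L^B`; private lemma).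
`C` from `StrE`, `B` from `mi_U` (this is why `∃ B` comes before `th`).  Then `mj_H (A + 2B + 8) B K C`, `us, err` from `StrE` with `s = -1`, `Σ err² ≤ X/L^(A+8)`.
`θ ∉ MajQ X q B`: `minor_hyp`, `‖Fz2‖² ≤ VA h θ · VA w θ ≤ X²/(q L^(A+6)) VA h θ`, `av (VA h) = Σ h² ≤ X L⁴` (`av_VA`).
`θ ∈ MajQ`: `F θ := (inf or the difference)`: put `F θ = max 0 ((‖Fz2 h w θ a‖² - X⁴/(q² L^(A+2B+8))) q/(X² L⁵))`; `mj_H` gives the hypothesis `hF` of `lossless` (with `f = err`; `nq ≥ 0`), so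
`av (1_MajQ F) ≤ Σ err²`, and `‖Fz2‖² ≤ X⁴/(q² L^(A+2B+8)) + (X² L⁵/q) F θ` on `MajQ`; `major_measure`: `av 1_MajQ ≤ 16 q L^(2B)/X`.
Total `≤ X³ L⁴/(q L^(A+6)) + 16 X³/(q L^(A+8)) + X³ L⁵/(q L^(A+8)) ≤ X³/(q L^A)`.  (Compare `T7/T7L2Core.lean`.)
`l2_U` is the same with `h = w`, `mj_U`, `X² L⁶`.
-/

set_option autoImplicit false

namespace Pool.MP_dd84fd_nt.EM

open Finset Pool.MP_67663b_nt.Odd Pool.MP_dd84fd_nt.En Pool.MP_dd84fd_nt.E2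
open Pool.MP_dd84fd_nt.HX Pool.MP_dd84fd_nt.IX
open Pool.MP_dd84fd_nt.JX (ZJ DecJ Str wP gP)
open Pool.MP_dd84fd_nt.L2G (fz VA VQ MajQ MinorHyp Tc Jc cv av gr Se)
open Pool.MP_dd84fd_nt.T7 (Fz2)

private theorem avh_VA_nonneg (X q : ℕ) [NeZero q] (f : ℕ → ℝ) (θ : ℝ) : 0 ≤ VA X q f θ :=
  sum_nonneg fun b _ => by positivity

private theorem avh_core (X q B : ℕ) [NeZero q] (hX : 3 ≤ X)
    (hqB4 : 4 * (q : ℝ) * Real.log X ^ (3 * B) ≤ X) (hqB : (q : ℝ) * Real.log X ^ B ≤ X)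
    (f g : ℕ → ℝ) (a : ZMod q) (err : ℕ → ℝ)
    (𝓖 : (t : ℕ) → ℝ → Finset (DirichletCharacter ℂ (q * t))) (M1 M2 V : ℝ)
    (hM1 : 0 ≤ M1) (hM2 : 0 < M2) (hV : 0 ≤ V)
    (hmin : ∀ (θ : ℝ) (r : ℕ) (c : ℤ), MinorHyp X q B θ r c → VA X q g θ ≤ V)
    (hmaj : ∀ (θ : ℝ) (t : ℕ) (c : ℤ) (φ : ℝ), PtT X q B t φ → IsCoprime c (t : ℤ) →
      θ = (c : ℝ) / (q * t : ℕ) + φ → ‖Fz2 X q f g θ a‖ ^ 2 ≤ M1 +
        M2 * nq (Tw q t ((c : ℝ) / (q * t : ℕ)) (PG X (q * t) err φ (𝓖 t φ)))) :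
    av (gr X) (fun θ => ‖Fz2 X q f g θ a‖ ^ 2) ≤
      M1 * (16 * q * Real.log X ^ (2 * B) / X) + M2 * ∑ n ∈ Icc 1 X, err n ^ 2 +
        V * ∑ n ∈ Icc 1 X, f n ^ 2 := by
  classical
  have hq1 : 1 ≤ q := NeZero.one_le
  obtain ⟨F1, hF1⟩ : ∃ F1 : ℝ → ℝ, ∀ θ, F1 θ = max 0 ((‖Fz2 X q f g θ a‖ ^ 2 - M1) / M2) :=
    ⟨_, fun _ => rfl⟩
  have hF10 : ∀ θ, 0 ≤ F1 θ := fun θ => by
    rw [hF1]
    exact le_max_left _ _
  have hF11 : ∀ θ, ‖Fz2 X q f g θ a‖ ^ 2 ≤ M1 + M2 * F1 θ := fun θ => by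
    have h1 : (‖Fz2 X q f g θ a‖ ^ 2 - M1) / M2 ≤ F1 θ := by
      rw [hF1]
      exact le_max_right _ _
    rw [div_le_iff₀ hM2] at h1
    linarith
  have hll := lossless X q B hX hqB4 err 𝓖 F1 (fun θ t c φ h1 h2 h3 => by
    rw [hF1]
    refine max_le ?_ ?_
    · unfold nq
      exact sum_nonneg fun _ _ => sq_nonneg _
    · rw [div_le_iff₀ hM2]
      have h4 := hmaj θ t c φ h1 h2 h3
      linarith)
  have hmeas := L2G.major_measure X q B hX hq1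
  have hpt : ∀ θ : ℝ, ‖Fz2 X q f g θ a‖ ^ 2 ≤
      (M1 * (MajQ X q B).indicator (fun _ => 1) θ + M2 * (MajQ X q B).indicator F1 θ) +
        V * VA X q f θ := by
    intro θ
    have hv1 := avh_VA_nonneg X q f θ
    by_cases h : θ ∈ MajQ X q B
    · rw [Set.indicator_of_mem h, Set.indicator_of_mem h, mul_one]
      have h2 := hF11 θ
      have h3 : 0 ≤ V * VA X q f θ := mul_nonneg hV hv1
      linarith
    · rw [Set.indicator_of_notMem h, Set.indicator_of_notMem h, mul_zero, mul_zero, zero_add,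
        zero_add]
      obtain ⟨r, c, hrc⟩ := L2G.minor_hyp X q B hX hq1 hqB θ h
      have g1 : VA X q g θ ≤ V := hmin θ r c hrc
      have h3 := T7.Fz2_sq X q f g θ a
      have h5 : VA X q f θ * VA X q g θ ≤ VA X q f θ * V := mul_le_mul_of_nonneg_left g1 hv1
      linarith
  refine (L2G.av_mono hpt).trans ?_
  rw [L2G.av_add, L2G.av_add, L2G.av_mul_left, L2G.av_mul_left, L2G.av_mul_left, L2G.av_VA]
  have h1 := mul_le_mul_of_nonneg_left hmeas hM1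
  have h2 : M2 * av (gr X) (fun θ => (MajQ X q B).indicator F1 θ) ≤
      M2 * ∑ n ∈ Icc 1 X, err n ^ 2 := mul_le_mul_of_nonneg_left hll hM2.le
  have h3 : M1 * av (gr X) (fun θ => (MajQ X q B).indicator (fun _ => (1 : ℝ)) θ) ≤
      M1 * (16 * q * Real.log X ^ (2 * B) / X) := h1
  linarith

private theorem avh_log (c : ℝ) : ∃ X0 : ℕ, ∀ X : ℕ, X0 ≤ X → c ≤ Real.log X := by
  have h := (Real.tendsto_log_atTop.comp
    (tendsto_natCast_atTop_atTop (R := ℝ))).eventually_ge_atTop c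
  obtain ⟨N, hN⟩ := Filter.eventually_atTop.1 h
  exact ⟨N, fun X hX => hN X hX⟩

private theorem avh_pow (B : ℕ) : ∃ X0 : ℕ, ∀ X : ℕ, X0 ≤ X →
    4 * Real.log (X : ℝ) ^ (3 * B) ≤ (X : ℝ) ^ (1 / 8 : ℝ) := by
  have hlit : (fun x : ℝ => Real.log x ^ ((3 * B : ℕ) : ℝ)) =o[Filter.atTop]
      fun x => x ^ (1 / 8 : ℝ) := isLittleO_log_rpow_rpow_atTop _ (by norm_num)
  have h1 : ∀ᶠ x : ℝ in Filter.atTop, 4 * Real.log x ^ (3 * B) ≤ x ^ (1 / 8 : ℝ) := by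
    filter_upwards [hlit.bound (show (0 : ℝ) < 1 / 4 by norm_num),
      Filter.eventually_ge_atTop (1 : ℝ)] with x hx hx1
    rw [Real.rpow_natCast, Real.norm_of_nonneg (by have := Real.log_nonneg hx1; positivity),
      Real.norm_of_nonneg (by positivity)] at hx
    linarith
  have h2 : ∀ᶠ X : ℕ in Filter.atTop, 4 * Real.log (X : ℝ) ^ (3 * B) ≤ (X : ℝ) ^ (1 / 8 : ℝ) :=
    tendsto_natCast_atTop_atTop.eventually h1
  obtain ⟨N, hN⟩ := Filter.eventually_atTop.1 h2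
  exact ⟨N, fun X hX => hN X hX⟩

private theorem avh_wb (K0 C1 D' : ℕ) (ww gg : ℕ → ℕ → ℝ) (hW : W1 K0 C1 ww gg) :
    ∃ X0 : ℕ, ∀ X : ℕ, X0 ≤ X → ∀ n, |uI ww gg X (wX D' X) n| ≤ Real.log X ^ 2 := by
  obtain ⟨X1, hX1⟩ := hW
  obtain ⟨X2, hX2⟩ := f1_le D'
  obtain ⟨X3, hX3⟩ := avh_log (2 * K0 + 1)
  refine ⟨max (max X1 X2) X3, fun X hX n => ?_⟩
  have e1 : X1 ≤ X := by omega
  have e2 : X2 ≤ X := by omega
  have e3 : X3 ≤ X := by omega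
  have hL := hX3 X e3
  have hK : (0 : ℝ) ≤ K0 := by positivity
  have hL1 : 1 ≤ Real.log X := by linarith
  have hwle : ((wX D' X : ℕ) : ℝ) ≤ Real.log X ^ D' := by
    unfold wX
    exact Nat.floor_le (by positivity)
  obtain ⟨hf1, hf2⟩ := hX2 X e2 (wX D' X) hwle
  obtain ⟨hb, -⟩ := hX1 X e1
  have hrg : rg (zI X) n ≤ 1 := by
    unfold rg
    split_ifs <;> norm_num
  have h1 : |ww X n| ≤ K0 := by
    refine (hb n).1.trans ?_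
    calc (K0 : ℝ) * rg (zI X) n ≤ K0 * 1 := mul_le_mul_of_nonneg_left hrg hK
      _ = K0 := mul_one _
  have h2 : |fI gg X (wX D' X) n| ≤ K0 * Real.log X := by
    unfold fI
    rw [abs_mul, abs_of_nonneg (f1_nonneg _ _)]
    exact mul_le_mul (hb n).2 (hf2 n) (f1_nonneg _ _) hK
  have h3 : |uI ww gg X (wX D' X) n| ≤ K0 + K0 * Real.log X := by
    unfold uI
    exact (abs_sub _ _).trans (add_le_add h1 h2)
  nlinarith

private theorem avh_dec {B B' C2 : ℕ} {th e τ : ℝ} {ww : ℕ → ℕ → ℝ} (hB : B' ≤ B)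
    (h : DecJ B C2 th e τ ww) : DecJ B' C2 th e τ ww := by
  obtain ⟨X0, hX0⟩ := h
  obtain ⟨X1, hX1⟩ := avh_log 1
  refine ⟨max X0 X1, fun X hX => ?_⟩
  obtain ⟨I, γ, α, M, K, a, c, err, h1, h2, h3, h4, h5, h6, h7, h8, h9⟩ := hX0 X (by omega)
  refine ⟨I, γ, α, M, K, a, c, err, h1, h2, h3, h4, h5, h6, h7, h8, h9.trans ?_⟩
  have hL := hX1 X (by omega)
  have hX' : (0 : ℝ) ≤ X := by positivity
  exact div_le_div_of_nonneg_left hX' (by positivity) (pow_le_pow_right₀ hL hB)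

private theorem avh_range {X q B : ℕ} {th e : ℝ} (hX : 1 ≤ X) (hth : 1 / 8 < th) (he : 0 < e)
    (hL : 1 ≤ Real.log X) (hp : 4 * Real.log (X : ℝ) ^ (3 * B) ≤ (X : ℝ) ^ (1 / 8 : ℝ))
    (hq : (q : ℝ) ≤ (X : ℝ) ^ (1 - th)) :
    4 * (q : ℝ) * Real.log X ^ (3 * B) ≤ X ∧ (q : ℝ) * Real.log X ^ B ≤ X ∧ Qr th e X q := by
  have hX1 : (1 : ℝ) ≤ X := by exact_mod_cast hX
  have hX0 : (0 : ℝ) < X := by linarith
  have h1 : (q : ℝ) ≤ (X : ℝ) ^ (7 / 8 : ℝ) :=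
    hq.trans (Real.rpow_le_rpow_of_exponent_le hX1 (by linarith))
  have h2 : 4 * (q : ℝ) * Real.log X ^ (3 * B) ≤ X := by
    calc 4 * (q : ℝ) * Real.log X ^ (3 * B) = q * (4 * Real.log X ^ (3 * B)) := by ring
      _ ≤ (X : ℝ) ^ (7 / 8 : ℝ) * (X : ℝ) ^ (1 / 8 : ℝ) :=
          mul_le_mul h1 hp (by positivity) (by positivity)
      _ = X := by
          rw [← Real.rpow_add hX0]
          norm_num
  refine ⟨h2, ?_, ?_⟩
  · refine le_trans ?_ h2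
    have h3 : Real.log X ^ B ≤ Real.log X ^ (3 * B) := pow_le_pow_right₀ hL (by omega)
    have h4 : (0 : ℝ) ≤ q := by positivity
    have h5 := mul_le_mul_of_nonneg_left h3 h4
    have h6 : (0 : ℝ) ≤ q * Real.log X ^ (3 * B) := by positivity
    linarith
  · exact hq.trans (Real.rpow_le_rpow_of_exponent_le hX1 (by linarith))

private theorem avh_sq {X : ℕ} {h : ℕ → ℝ} (hh : ∀ n ∈ Icc 1 X, |h n| ≤ Real.log X ^ 2) :
    ∑ n ∈ Icc 1 X, h n ^ 2 ≤ X * Real.log X ^ 4 := by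
  have h1 : ∀ n ∈ Icc 1 X, h n ^ 2 ≤ Real.log X ^ 4 := by
    intro n hn
    have h2 := pow_le_pow_left₀ (abs_nonneg _) (hh n hn) 2
    rw [sq_abs] at h2
    calc h n ^ 2 ≤ (Real.log X ^ 2) ^ 2 := h2
      _ = Real.log X ^ 4 := by ring
  have h2 := Finset.sum_le_card_nsmul (Icc 1 X) _ _ h1
  rw [Nat.card_Icc, nsmul_eq_mul] at h2
  simpa using h2

private theorem avh_arith {L : ℝ} (hL : 4 ≤ L) (A B k : ℕ) (hk : k ≤ 6) {X q S1 S2 : ℝ}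
    (hX : 0 < X) (hq : 0 < q) (h1 : S1 ≤ X / L ^ (A + 8)) (h2 : S2 ≤ X * L ^ 4) :
    X ^ 4 / (q ^ 2 * L ^ (A + 2 * B + 8)) * (16 * q * L ^ (2 * B) / X) +
      X ^ 2 * L ^ k / q * S1 + X ^ 2 / (q * L ^ (A + 6)) * S2 ≤ X ^ 3 / (q * L ^ A) := by
  have hL0 : 0 < L := by linarith
  have hL1 : 1 ≤ L := by linarith
  have e1 : X ^ 4 / (q ^ 2 * L ^ (A + 2 * B + 8)) * (16 * q * L ^ (2 * B) / X) =
      X ^ 3 / (q * L ^ A) * (16 / L ^ 8) := by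
    have : L ^ (A + 2 * B + 8) = L ^ A * L ^ (2 * B) * L ^ 8 := by
      rw [← pow_add, ← pow_add]
    rw [this]
    field_simp
  have e2 : X ^ 2 * L ^ k / q * S1 ≤ X ^ 3 / (q * L ^ A) * (1 / L ^ 2) := by
    calc X ^ 2 * L ^ k / q * S1 ≤ X ^ 2 * L ^ 6 / q * (X / L ^ (A + 8)) := by
          refine (mul_le_mul_of_nonneg_left h1 (by positivity)).trans ?_
          refine mul_le_mul_of_nonneg_right ?_ (by positivity)
          refine div_le_div_of_nonneg_right ?_ hq.le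
          exact mul_le_mul_of_nonneg_left (pow_le_pow_right₀ hL1 hk) (by positivity)
      _ = X ^ 3 / (q * L ^ A) * (1 / L ^ 2) := by
          have : L ^ (A + 8) = L ^ A * L ^ 6 * L ^ 2 := by
            rw [← pow_add, ← pow_add]
          rw [this]
          field_simp
  have e3 : X ^ 2 / (q * L ^ (A + 6)) * S2 ≤ X ^ 3 / (q * L ^ A) * (1 / L ^ 2) := by
    calc X ^ 2 / (q * L ^ (A + 6)) * S2 ≤ X ^ 2 / (q * L ^ (A + 6)) * (X * L ^ 4) :=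
          mul_le_mul_of_nonneg_left h2 (by positivity)
      _ = X ^ 3 / (q * L ^ A) * (1 / L ^ 2) := by
          have : L ^ (A + 6) = L ^ A * L ^ 4 * L ^ 2 := by
            rw [← pow_add, ← pow_add]
          rw [this]
          field_simp
  rw [e1]
  have h0 : (0 : ℝ) ≤ X ^ 3 / (q * L ^ A) := by positivity
  have h3 : 1 / L ^ 2 ≤ 1 / 16 := by
    refine one_div_le_one_div_of_le (by norm_num) ?_
    nlinarith
  have h4 : 16 / L ^ 8 ≤ 1 / 2 := by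
    rw [div_le_iff₀ (by positivity)]
    have h5 : (4 : ℝ) ^ 8 ≤ L ^ 8 := pow_le_pow_left₀ (by norm_num) hL 8
    norm_num at h5
    linarith
  nlinarith

theorem l2_H (hS : StrE) (A : ℕ) : ∃ Bd : ℕ, ∀ K0 C1 C2 K : ℕ, ∃ B : ℕ, ∀ th e τ : ℝ,
    AdE th e τ → ∀ ww gg : ℕ → ℕ → ℝ, W1 K0 C1 ww gg → DecJ Bd C2 th e τ ww → MajI ww gg →
    ∃ A' : ℕ, ∀ D1 : ℕ, ∃ D0 : ℕ, ∀ D' : ℕ, D0 ≤ D' → ∃ X0 : ℕ, ∀ X : ℕ, X0 ≤ X →
    ∀ h : ℕ → ℝ, (∀ n ∈ Icc 1 X, |h n| ≤ Real.log X ^ 2) → H3 th e X A' B (K + B) D1 h →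
    ∀ (q : ℕ) [NeZero q], (q : ℝ) ≤ (X : ℝ) ^ (1 - th) → ∀ a : ZMod q,
    (Nat.gcd a.val q : ℝ) ≤ Real.log X ^ K →
    av (gr X) (fun θ => ‖Fz2 X q h (uI ww gg X (wX D' X)) θ a‖ ^ 2) ≤
      X ^ 3 / (q * Real.log X ^ A) := by
  classical
  obtain ⟨Bd1, hBd1⟩ := hS (A + 8)
  obtain ⟨Bd2, hBd2⟩ := mi_U hS (A + 6)
  refine ⟨max Bd1 Bd2, fun K0 C1 C2 K => ?_⟩
  obtain ⟨C, hC⟩ := hBd1 K0 C1 C2
  obtain ⟨B, hB⟩ := hBd2 K0 C1 C2
  refine ⟨B, fun th e τ hAd ww gg hW hDec hM => ?_⟩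
  obtain ⟨A', hA'⟩ := mj_H (A + 2 * B + 8) B K C K0 C1 th e τ hAd ww gg hW hM
  refine ⟨A', fun D1 => ?_⟩
  obtain ⟨Da, hDa⟩ := hA' D1
  obtain ⟨Db, hDb⟩ := hB B le_rfl
  refine ⟨max (max Da Db) 1, fun D' hD' => ?_⟩
  have hD1 : Da ≤ D' := by omega
  have hD2 : Db ≤ D' := by omega
  have hD3 : 1 ≤ D' := by omega
  obtain ⟨X1, hX1⟩ := hC th e τ hAd ww gg hW (avh_dec (le_max_left _ _) hDec) D' hD3
  obtain ⟨X2, hX2⟩ := hDb D' hD2 th e τ hAd ww gg hW (avh_dec (le_max_right _ _) hDec)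
  obtain ⟨X3, hX3⟩ := hDa D' hD1
  obtain ⟨X4, hX4⟩ := avh_log 4
  obtain ⟨X5, hX5⟩ := avh_pow B
  refine ⟨max (max (max X1 X2) (max X3 X4)) (max X5 3), fun X hX h hh hH3 q _ hq a ha => ?_⟩
  have f1 : X1 ≤ X := by omega
  have f2 : X2 ≤ X := by omega
  have f3 : X3 ≤ X := by omega
  have f4 : X4 ≤ X := by omega
  have f5 : X5 ≤ X := by omega
  have f6 : 3 ≤ X := by omega
  have hL := hX4 X f4
  obtain ⟨hth, -, he, -, -⟩ := id hAd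
  obtain ⟨hq4, hqB, hQr⟩ := avh_range (B := B) (by omega : 1 ≤ X) hth he (by linarith)
    (hX5 X f5) hq
  obtain ⟨u, er, hu, hsum, herr⟩ := hX1 X f1 (-1) (by norm_num)
  have hsum' : ∀ n ∈ Icc 1 X, uI ww gg X (wX D' X) n = u n + er n := by
    intro n hn
    rw [← hsum n hn]
    unfold uI
    ring
  obtain ⟨𝓖, h𝓖⟩ := hX3 X f3 u er hu hsum' h hh hH3 q hq
  have hq1 : 1 ≤ q := NeZero.one_le
  have hq0 : (0 : ℝ) < q := by exact_mod_cast hq1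
  have hX0 : (0 : ℝ) < X := by
    have : 0 < X := by omega
    exact_mod_cast this
  have hL0 : 0 < Real.log X := by linarith
  have hfS : fS ww gg (-1) D' X = uI ww gg X (wX D' X) := by
    funext n
    unfold fS uI
    ring
  have hcore := avh_core X q B f6 hq4 hqB h (uI ww gg X (wX D' X)) a er 𝓖
    (X ^ 4 / (q ^ 2 * Real.log X ^ (A + 2 * B + 8))) (X ^ 2 * Real.log X ^ 5 / q)
    (X ^ 2 / (q * Real.log X ^ (A + 6))) (by positivity) (by positivity) (by positivity)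
    (fun θ r c hrc => by
      rw [← hfS]
      exact hX2 X f2 (-1) (by norm_num) q hQr θ r c hrc)
    (fun θ t c φ g1 g2 g3 => h𝓖 θ t c φ g1 g2 g3 a ha)
  refine hcore.trans ?_
  exact avh_arith hL A B 5 (by norm_num) hX0 hq0 herr (avh_sq hh)

theorem l2_U (hS : StrE) (A : ℕ) : ∃ Bd : ℕ, ∀ K0 C1 C2 K : ℕ, ∀ th e τ : ℝ,
    AdE th e τ → ∀ ww gg : ℕ → ℕ → ℝ, W1 K0 C1 ww gg → DecJ Bd C2 th e τ ww → MajI ww gg →
    ∃ D0 : ℕ, ∀ D' : ℕ, D0 ≤ D' → ∃ X0 : ℕ, ∀ X : ℕ, X0 ≤ X →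
    ∀ (q : ℕ) [NeZero q], (q : ℝ) ≤ (X : ℝ) ^ (1 - th) → ∀ a : ZMod q,
    (Nat.gcd a.val q : ℝ) ≤ Real.log X ^ K →
    av (gr X) (fun θ => ‖Fz2 X q (uI ww gg X (wX D' X)) (uI ww gg X (wX D' X)) θ a‖ ^ 2) ≤
      X ^ 3 / (q * Real.log X ^ A) := by
  classical
  obtain ⟨Bd1, hBd1⟩ := hS (A + 8)
  obtain ⟨Bd2, hBd2⟩ := mi_U hS (A + 6)
  refine ⟨max Bd1 Bd2, fun K0 C1 C2 K th e τ hAd ww gg hW hDec hM => ?_⟩
  obtain ⟨C, hC⟩ := hBd1 K0 C1 C2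
  obtain ⟨B, hB⟩ := hBd2 K0 C1 C2
  obtain ⟨Da, hDa⟩ := mj_U (A + 2 * B + 8) B K C K0 C1 th e τ hAd ww gg hW hM
  obtain ⟨Db, hDb⟩ := hB B le_rfl
  refine ⟨max (max Da Db) 1, fun D' hD' => ?_⟩
  have hD1 : Da ≤ D' := by omega
  have hD2 : Db ≤ D' := by omega
  have hD3 : 1 ≤ D' := by omega
  obtain ⟨X1, hX1⟩ := hC th e τ hAd ww gg hW (avh_dec (le_max_left _ _) hDec) D' hD3
  obtain ⟨X2, hX2⟩ := hDb D' hD2 th e τ hAd ww gg hW (avh_dec (le_max_right _ _) hDec)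
  obtain ⟨X3, hX3⟩ := hDa D' hD1
  obtain ⟨X4, hX4⟩ := avh_log 4
  obtain ⟨X5, hX5⟩ := avh_pow B
  obtain ⟨X6, hX6⟩ := avh_wb K0 C1 D' ww gg hW
  refine ⟨max (max (max X1 X2) (max X3 X4)) (max (max X5 X6) 3), fun X hX q _ hq a ha => ?_⟩
  have f1 : X1 ≤ X := by omega
  have f2 : X2 ≤ X := by omega
  have f3 : X3 ≤ X := by omega
  have f4 : X4 ≤ X := by omega
  have f5 : X5 ≤ X := by omega
  have f7 : X6 ≤ X := by omega
  have f6 : 3 ≤ X := by omega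
  have hL := hX4 X f4
  obtain ⟨hth, -, he, -, -⟩ := id hAd
  obtain ⟨hq4, hqB, hQr⟩ := avh_range (B := B) (by omega : 1 ≤ X) hth he (by linarith)
    (hX5 X f5) hq
  obtain ⟨u, er, hu, hsum, herr⟩ := hX1 X f1 (-1) (by norm_num)
  have hsum' : ∀ n ∈ Icc 1 X, uI ww gg X (wX D' X) n = u n + er n := by
    intro n hn
    rw [← hsum n hn]
    unfold uI
    ring
  obtain ⟨𝓖, h𝓖⟩ := hX3 X f3 u er hu hsum' q hq
  have hq1 : 1 ≤ q := NeZero.one_le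
  have hq0 : (0 : ℝ) < q := by exact_mod_cast hq1
  have hX0 : (0 : ℝ) < X := by
    have : 0 < X := by omega
    exact_mod_cast this
  have hL0 : 0 < Real.log X := by linarith
  have hfS : fS ww gg (-1) D' X = uI ww gg X (wX D' X) := by
    funext n
    unfold fS uI
    ring
  have hcore := avh_core X q B f6 hq4 hqB (uI ww gg X (wX D' X)) (uI ww gg X (wX D' X)) a er 𝓖
    (X ^ 4 / (q ^ 2 * Real.log X ^ (A + 2 * B + 8))) (X ^ 2 * Real.log X ^ 6 / q)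
    (X ^ 2 / (q * Real.log X ^ (A + 6))) (by positivity) (by positivity) (by positivity)
    (fun θ r c hrc => by
      rw [← hfS]
      exact hX2 X f2 (-1) (by norm_num) q hQr θ r c hrc)
    (fun θ t c φ g1 g2 g3 => h𝓖 θ t c φ g1 g2 g3 a ha)
  refine hcore.trans ?_
  exact avh_arith hL A B 6 le_rfl hX0 hq0 herr (avh_sq fun n _ => hX6 X f7 n)

end Pool.MP_dd84fd_nt.EM
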