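import Pool.Agent.Lib.MP_dd84fd_nt.EM.BVa

/-!
# EM-BVM (1.2 h): `Σ_{(a - n, q) = 1} (wP - gP f1)(n) e(n θ)`

`u = uI wP gP`, `θ = y/r + β`.  `[(a - n, q) = 1] = Σ_{k | q, k | a - n} μ(k)`.  `D' ≥ K + 2, B`, and `bv_cls`.
(1) `k ≤ X^(1/3)`, `(a,k) = 1`: split in classes `c mod r`; if `(c, r) > 1` then `u n = 0` (a prime `p | r`, `p ≤ L^B ≤ w` and `< zI`, divides `n`: `f1 n = 0`, `wP n = 0`), otherwise partial summation for `e(n β)`:
`≤ (1 + 7 L^B) max_{t ≤ X} |S(k,t)|`; `bv_cls (A + 2B + 4) B` with `t k` = the argmax, for each `c`: total `≤ r · 8 L^B X/L^(A+2B+4)`.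
(2) `k ≤ X^(1/3)`, `(a,k) > 1`: `|u n| ≤ wP n + f1 n`.  `f1 n = 0` for all `n = a (k)`: a prime `p | (a,k)`, `p ≤ (a,q) ≤ L^K ≤ w`.  `wP n ≠ 0`, `p | n` implies `n = p ≤ L^K < zI`: impossible.  So the sum is `0`.
(3) `k > X^(1/3)`: trivially `≤ (sup |u|) (X/k + 1) ≤ L² 2 X^(2/3)` (`k ≤ q ≤ X`), number of `k`: `τ(q) ≤ X^(1/10)` (`DivBound`).
-/

set_option autoImplicit false

namespace Pool.MP_dd84fd_nt.EM

open Finset Pool.MP_67663b_nt.Odd Pool.MP_dd84fd_nt.En Pool.MP_dd84fd_nt.E2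
open Pool.MP_dd84fd_nt.HX Pool.MP_dd84fd_nt.IX
open Pool.MP_dd84fd_nt.JX (ZJ DecJ Str wP gP)
open Pool.MP_dd84fd_nt.L2G (fz VA VQ MajQ MinorHyp Tc Jc cv av gr Se)
open Pool.MP_dd84fd_nt.T7 (Fz2)

private lemma bvm_partial (a : ℕ → ℝ) (B : ℝ) (X : ℕ)
    (hB : ∀ t ≤ X, |∑ n ∈ Icc 1 t, a n| ≤ B) (β : ℝ) :
    ‖∑ n ∈ Icc 1 X, (a n : ℂ) * ee ((n : ℝ) * β)‖ ≤ B * (1 + 2 * Real.pi * |β| * X) := by
  have hid : ∀ X : ℕ, ∑ n ∈ Icc 1 X, (a n : ℂ) * ee ((n : ℝ) * β) =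
      ((∑ n ∈ Icc 1 X, a n : ℝ) : ℂ) * ee ((X : ℝ) * β) -
      ∑ t ∈ range X, ((∑ n ∈ Icc 1 t, a n : ℝ) : ℂ) *
        (ee (((t + 1 : ℕ) : ℝ) * β) - ee ((t : ℝ) * β)) := by
    intro X
    induction X with
    | zero => simp
    | succ X ih =>
      rw [Finset.sum_Icc_succ_top (by omega), ih, Finset.sum_range_succ,
        Finset.sum_Icc_succ_top (by omega)]
      push_cast
      ring
  rw [hid]
  have hB0 : 0 ≤ B := (abs_nonneg _).trans (hB 0 (Nat.zero_le _))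
  have h1 : ‖((∑ n ∈ Icc 1 X, a n : ℝ) : ℂ) * ee ((X : ℝ) * β)‖ ≤ B := by
    rw [norm_mul, norm_ee, mul_one, Complex.norm_real, Real.norm_eq_abs]
    exact hB X le_rfl
  have h2 : ‖∑ t ∈ range X, ((∑ n ∈ Icc 1 t, a n : ℝ) : ℂ) *
      (ee (((t + 1 : ℕ) : ℝ) * β) - ee ((t : ℝ) * β))‖ ≤ X * (B * (2 * Real.pi * |β|)) := by
    refine (norm_sum_le _ _).trans ?_
    calc ∑ t ∈ range X, ‖((∑ n ∈ Icc 1 t, a n : ℝ) : ℂ) *
          (ee (((t + 1 : ℕ) : ℝ) * β) - ee ((t : ℝ) * β))‖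
        ≤ ∑ _t ∈ range X, B * (2 * Real.pi * |β|) := by
          refine sum_le_sum fun t ht => ?_
          rw [norm_mul, Complex.norm_real, Real.norm_eq_abs]
          refine mul_le_mul (hB t (by rw [mem_range] at ht; omega)) ?_ (norm_nonneg _) hB0
          refine (norm_ee_sub_ee_le _ _).trans (le_of_eq ?_)
          congr 2
          push_cast
          ring
      _ = _ := by rw [sum_const, card_range, nsmul_eq_mul]
  refine (norm_sub_le _ _).trans ?_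
  nlinarith

private lemma bvm_ee {n c q : ℕ} (hq : 0 < q) (h : n ≡ c [MOD q]) (a : ℤ) (β : ℝ) :
    ee ((n : ℝ) * ((a : ℝ) / q + β)) = ee ((c : ℝ) * ((a : ℝ) / q)) * ee ((n : ℝ) * β) := by
  have hq0 : (q : ℝ) ≠ 0 := by exact_mod_cast hq.ne'
  have h1 : (q : ℤ) ∣ (n : ℤ) - c := (Nat.modEq_iff_dvd.mp h.symm)
  obtain ⟨k, hk⟩ := h1
  have h2 : (n : ℝ) = c + q * k := by
    have : (n : ℤ) = c + q * k := by linarith
    exact_mod_cast this
  have h3 : (n : ℝ) * ((a : ℝ) / q + β) = ((c : ℝ) * ((a : ℝ) / q) + (n : ℝ) * β) + ((k * a : ℤ) : ℝ) := by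
    have h4 : (n : ℝ) * ((a : ℝ) / q) = (c : ℝ) * ((a : ℝ) / q) + ((k * a : ℤ) : ℝ) := by
      rw [h2]
      push_cast
      field_simp
    rw [mul_add, h4]
    ring
  rw [h3, ee_add_int, ee_add]

private lemma bvm_split (q : ℕ) (hq : 0 < q) (S : Finset ℕ) (f : ℕ → ℂ) :
    ∑ n ∈ S, f n = ∑ c ∈ range q, ∑ n ∈ S.filter (fun n => n ≡ c [MOD q]), f n := by
  classical
  rw [← Finset.sum_fiberwise_of_maps_to (s := S) (t := range q) (g := fun n => n % q)
    (fun n _ => mem_range.mpr (Nat.mod_lt _ hq))]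
  refine sum_congr rfl fun c hc => ?_
  rw [mem_range] at hc
  refine sum_congr ?_ fun _ _ => rfl
  ext n
  simp only [mem_filter, Nat.ModEq, Nat.mod_eq_of_lt hc]

private theorem bvm_log (c : ℝ) : ∃ X0 : ℕ, ∀ X : ℕ, X0 ≤ X → c ≤ Real.log X := by
  have hev : ∀ᶠ X : ℕ in Filter.atTop, c ≤ Real.log X :=
    (Real.tendsto_log_atTop.comp tendsto_natCast_atTop_atTop).eventually_ge_atTop c
  exact Filter.eventually_atTop.1 hev

private theorem bvm_log_pow (C : ℝ) (K : ℕ) {ε : ℝ} (hε : 0 < ε) : ∃ X0 : ℕ, ∀ X : ℕ, X0 ≤ X →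
    C * (Real.log X) ^ K ≤ (X : ℝ) ^ ε := by
  have h1 := (isLittleO_log_rpow_rpow_atTop (K : ℝ) hε).bound
    (show (0 : ℝ) < 1 / (|C| + 1) by positivity)
  have h2 := tendsto_natCast_atTop_atTop (R := ℝ) |>.eventually h1
  obtain ⟨X0, hX0⟩ := Filter.eventually_atTop.mp h2
  refine ⟨max X0 1, fun X hX => ?_⟩
  have h3 := hX0 X ((le_max_left _ _).trans hX)
  have hX1 : (1 : ℝ) ≤ X := by exact_mod_cast (le_max_right _ _).trans hX
  have hl : 0 ≤ Real.log X := Real.log_nonneg hX1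
  rw [Real.norm_of_nonneg (by positivity), Real.norm_of_nonneg (by positivity),
    Real.rpow_natCast] at h3
  have h4 : C * (Real.log X) ^ K ≤ (|C| + 1) * (Real.log X) ^ K := by
    apply mul_le_mul_of_nonneg_right _ (by positivity)
    linarith [le_abs_self C]
  refine h4.trans ?_
  have h5 : (|C| + 1) * (Real.log X) ^ K ≤ (|C| + 1) * (1 / (|C| + 1) * (X : ℝ) ^ ε) :=
    mul_le_mul_of_nonneg_left h3 (by positivity)
  refine h5.trans (le_of_eq ?_)
  have : |C| + 1 ≠ 0 := by positivity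
  field_simp

/-- `|u n| ≤ L²` -/
private theorem bvm_u (D' : ℕ) : ∃ X0 : ℕ, ∀ X : ℕ, X0 ≤ X → ∀ n : ℕ,
    |uI wP gP X (wX D' X) n| ≤ Real.log X ^ 2 := by
  obtain ⟨X1, h1⟩ := f1_le D'
  obtain ⟨X2, h2⟩ := bvm_log 3
  refine ⟨max X1 X2, fun X hX n => ?_⟩
  have hL := h2 X ((le_max_right _ _).trans hX)
  have hw : ((wX D' X : ℕ) : ℝ) ≤ Real.log X ^ D' := by
    unfold wX
    exact Nat.floor_le (by positivity)
  have hf := (h1 X ((le_max_left _ _).trans hX) (wX D' X) hw).2 n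
  have hf0 := f1_nonneg (wX D' X) n
  have hg0 : 0 ≤ gP X n := by
    unfold Pool.MP_dd84fd_nt.JX.gP
    have := Real.log_natCast_nonneg n
    positivity
  have hg2 : gP X n ≤ 2 := by
    unfold Pool.MP_dd84fd_nt.JX.gP
    rcases Nat.lt_or_ge n 2 with h | h
    · interval_cases n <;> simp
    · have h3 : (1 : ℝ) / 2 ≤ Real.log n := by
        have h4 := Real.log_two_gt_d9
        have h5 : Real.log 2 ≤ Real.log n :=
          Real.log_le_log (by norm_num) (by exact_mod_cast h)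
        linarith
      rw [div_le_iff₀ (by linarith)]
      linarith
  have hwP : 0 ≤ wP X n ∧ wP X n ≤ 1 := by
    unfold Pool.MP_dd84fd_nt.JX.wP
    split_ifs <;> norm_num
  have h3 : gP X n * f1 (wX D' X) n ≤ 2 * Real.log X :=
    mul_le_mul hg2 hf hf0 (by norm_num)
  have h4 : 0 ≤ gP X n * f1 (wX D' X) n := mul_nonneg hg0 hf0
  unfold uI fI
  rw [abs_le]
  constructor <;> nlinarith [hwP.1, hwP.2]

/-- `u n = 0` if a small prime divides `n` -/
private theorem bvm_zero (X w n p : ℕ) (hp : p.Prime) (hd : p ∣ n) (hw : p ≤ w)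
    (hz : (p : ℝ) < (X : ℝ) ^ (1 / 10 : ℝ)) : uI wP gP X w n = 0 := by
  have h1 : f1 w n = 0 := by
    unfold f1
    rw [if_neg]
    intro hc
    have h1 : p ∣ primorial w := by
      unfold primorial
      exact Finset.dvd_prod_of_mem (fun p => p) (mem_filter.2 ⟨mem_range.2 (by omega), hp⟩)
    exact Nat.not_coprime_of_dvd_of_dvd hp.one_lt hd h1 hc
  have h2 : wP X n = 0 := by
    unfold Pool.MP_dd84fd_nt.JX.wP
    rw [if_neg]
    rintro ⟨hn, hz2⟩
    have h3 : p = n := (Nat.prime_dvd_prime_iff_eq hp hn).1 hd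
    have h4 : (X : ℝ) ^ (1 / 10 : ℝ) ≤ zI X := Nat.le_ceil _
    have h5 : ((zI X : ℕ) : ℝ) ≤ n := by exact_mod_cast hz2
    rw [← h3] at h5
    linarith
  unfold uI fI
  rw [h1, h2]
  simp

/-- the Möbius expansion of the indicator of the units -/
private theorem bvm_unit (q : ℕ) [NeZero q] (a : ZMod q) (n : ℕ) [Decidable (IsUnit (a - (n : ZMod q)))] :
    (if IsUnit (a - (n : ZMod q)) then (1 : ℂ) else 0) =
      ∑ k ∈ q.divisors, if n ≡ a.val [MOD k] then ((ArithmeticFunction.moebius k : ℤ) : ℂ) else 0 := by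
  have hq : q ≠ 0 := NeZero.ne q
  set m := (a - (n : ZMod q)).val with hm
  have hu : IsUnit (a - (n : ZMod q)) ↔ Nat.gcd m q = 1 := by
    have h1 : (a - (n : ZMod q)) = ((m : ℕ) : ZMod q) := by rw [hm, ZMod.natCast_zmod_val]
    rw [h1, ZMod.isUnit_iff_coprime]
  have hfil : q.divisors.filter (fun k => n ≡ a.val [MOD k]) = (Nat.gcd m q).divisors := by
    ext k
    rw [mem_filter, Nat.mem_divisors, Nat.mem_divisors, Nat.dvd_gcd_iff]
    have hg : Nat.gcd m q ≠ 0 := fun h => hq (Nat.eq_zero_of_gcd_eq_zero_right h)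
    have hkey : k ∣ q → (n ≡ a.val [MOD k] ↔ k ∣ m) := by
      intro hk
      have h1 : ((m : ℕ) : ZMod k) = (a.val : ZMod k) - (n : ZMod k) := by
        have h2 : ((m : ℕ) : ZMod k) = ZMod.castHom hk (ZMod k) (a - (n : ZMod q)) := by
          rw [hm, ZMod.castHom_apply, ZMod.natCast_val]
        rw [h2, map_sub, map_natCast, ZMod.castHom_apply, ZMod.natCast_val]
      rw [← ZMod.natCast_eq_zero_iff, h1, sub_eq_zero, ← ZMod.natCast_eq_natCast_iff]
      exact eq_comm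
    constructor
    · rintro ⟨⟨h1, _⟩, h2⟩
      exact ⟨⟨(hkey h1).1 h2, h1⟩, hg⟩
    · rintro ⟨⟨h1, h2⟩, _⟩
      exact ⟨⟨h2, hq⟩, (hkey h2).2 h1⟩
  rw [← Finset.sum_filter, hfil]
  have hmu : ∑ k ∈ (Nat.gcd m q).divisors, ArithmeticFunction.moebius k =
      if Nat.gcd m q = 1 then (1 : ℤ) else 0 := by
    have h1 := congrArg (fun f : ArithmeticFunction ℤ => f (Nat.gcd m q))
      ArithmeticFunction.moebius_mul_coe_zeta
    simp only [ArithmeticFunction.coe_mul_zeta_apply, ArithmeticFunction.one_apply] at h1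
    exact h1
  have hmu' : ∑ k ∈ (Nat.gcd m q).divisors, ((ArithmeticFunction.moebius k : ℤ) : ℂ) =
      if Nat.gcd m q = 1 then (1 : ℂ) else 0 := by
    rw [← Int.cast_sum, hmu]
    split_ifs <;> simp
  rw [hmu']
  by_cases h : IsUnit (a - (n : ZMod q))
  · rw [if_pos h, if_pos (hu.1 h)]
  · rw [if_neg h, if_neg (fun h' => h (hu.2 h'))]

private theorem bvm_class (X q : ℕ) (hq : 1 ≤ q) (hqX : q ≤ X) (b : ℕ) :
    (((Icc 1 X).filter (fun n : ℕ => n ≡ b [MOD q])).card : ℝ) ≤ 2 * (X / q) := by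
  have h1 : ((Icc 1 X).filter (fun n : ℕ => n ≡ b [MOD q])).card ≤ (X - 1) / q + 1 := by
    rw [← card_range ((X - 1) / q + 1)]
    refine card_le_card_of_injOn (fun n => (n - 1) / q) ?_ ?_
    · intro n hn
      rw [mem_coe, mem_filter, mem_Icc] at hn
      rw [mem_coe, mem_range]
      have : (n - 1) / q ≤ (X - 1) / q := Nat.div_le_div_right (by omega)
      show (n - 1) / q < _
      omega
    · intro n hn n' hn' heq
      rw [mem_coe, mem_filter, mem_Icc] at hn hn'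
      have h2 : n ≡ n' [MOD q] := hn.2.trans hn'.2.symm
      have h3 : (n - 1) + 1 ≡ (n' - 1) + 1 [MOD q] := by
        rw [Nat.sub_add_cancel hn.1.1, Nat.sub_add_cancel hn'.1.1]
        exact h2
      have h4 : (n - 1) % q = (n' - 1) % q := Nat.ModEq.add_right_cancel' 1 h3
      have h5 : (n - 1) / q = (n' - 1) / q := heq
      have h6 := Nat.div_add_mod (n - 1) q
      have h7 := Nat.div_add_mod (n' - 1) q
      rw [h5, h4, h7] at h6
      omega
  have h2 : (((Icc 1 X).filter (fun n : ℕ => n ≡ b [MOD q])).card : ℝ) ≤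
      ((X - 1) / q + 1 : ℕ) := by exact_mod_cast h1
  refine h2.trans ?_
  have hq0 : (0 : ℝ) < q := by exact_mod_cast hq
  have h3 : (((X - 1) / q : ℕ) : ℝ) ≤ X / q := by
    refine Nat.cast_div_le.trans ?_
    refine div_le_div_of_nonneg_right ?_ hq0.le
    exact_mod_cast Nat.sub_le X 1
  have h4 : (1 : ℝ) ≤ X / q := by
    rw [le_div_iff₀ hq0, one_mul]
    exact_mod_cast hqX
  push_cast
  linarith

private theorem bvm_tau : ∃ X0 : ℕ, ∀ X : ℕ, X0 ≤ X → ∀ q : ℕ, 1 ≤ q → q ≤ X →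
    (q.divisors.card : ℝ) ≤ (X : ℝ) ^ (1 / 10 : ℝ) := by
  obtain ⟨C, hC1, hC⟩ := Pool.Agent.Lib.MP_dd84fd_nt.DivBound.div_bound 20
  refine ⟨max C 1, fun X hX q hq hqX => ?_⟩
  have hCX : C ≤ X := (le_max_left _ _).trans hX
  have h1 : q.divisors.card ^ 20 ≤ X ^ 2 := by
    calc q.divisors.card ^ 20 ≤ C * q := hC q (by omega)
      _ ≤ X * X := Nat.mul_le_mul hCX hqX
      _ = X ^ 2 := by ring
  have h2 : (q.divisors.card : ℝ) ^ 20 ≤ ((X : ℝ) ^ (1 / 10 : ℝ)) ^ 20 := by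
    have h3 : ((X : ℝ) ^ (1 / 10 : ℝ)) ^ 20 = (X : ℝ) ^ 2 := by
      rw [← Real.rpow_natCast, ← Real.rpow_mul (by positivity)]
      norm_num
    rw [h3]
    exact_mod_cast h1
  exact (pow_le_pow_iff_left₀ (by positivity) (by positivity) (by norm_num)).1 h2

open Classical in
theorem bvm (A B K : ℕ) : ∃ D0 : ℕ, ∀ D' : ℕ, D0 ≤ D' → ∃ X0 : ℕ, ∀ X : ℕ, X0 ≤ X →
    ∀ (q : ℕ) [NeZero q], q ≤ X → ∀ (r : ℕ) (y : ℤ) (β : ℝ), Pt X q B r y β → ∀ a : ZMod q,
    (Nat.gcd a.val q : ℝ) ≤ Real.log X ^ K →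
    ‖∑ n ∈ (Icc 1 X).filter (fun n : ℕ => IsUnit (a - (n : ZMod q))),
      (uI wP gP X (wX D' X) n : ℂ) * ee (n * (y / r + β))‖ ≤
      X / Real.log X ^ A := by
  obtain ⟨D1, hD1⟩ := bv_cls (A + 2 * B + 4) B
  refine ⟨max D1 (max B K), fun D' hD' => ?_⟩
  have hDD : D1 ≤ D' := (le_max_left _ _).trans hD'
  have hDB : B ≤ D' := (le_max_left _ _).trans ((le_max_right _ _).trans hD')
  have hDK : K ≤ D' := (le_max_right _ _).trans ((le_max_right _ _).trans hD')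
  obtain ⟨X1, h1⟩ := hD1 D' hDD
  obtain ⟨X2, h2⟩ := bvm_u D'
  obtain ⟨X3, h3⟩ := bvm_log 8
  obtain ⟨X4, h4⟩ := bvm_log_pow 2 K (show (0 : ℝ) < 1 / 10 by norm_num)
  obtain ⟨X5, h5⟩ := bvm_log_pow 2 B (show (0 : ℝ) < 1 / 10 by norm_num)
  obtain ⟨X6, h6⟩ := bvm_log_pow 4 (A + 2) (show (0 : ℝ) < 1 / 10 by norm_num)
  obtain ⟨X7, h7⟩ := bvm_tau
  refine ⟨max (max (max X1 X2) (max X3 X4)) (max (max X5 X6) (max X7 1)),
    fun X hX q _ hqX r y β hPt a hgcd => ?_⟩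
  have g1 : X1 ≤ X := by omega
  have g2 : X2 ≤ X := by omega
  have g3 : X3 ≤ X := by omega
  have g4 : X4 ≤ X := by omega
  have g5 : X5 ≤ X := by omega
  have g6 : X6 ≤ X := by omega
  have g7 : X7 ≤ X := by omega
  have g8 : 1 ≤ X := by omega
  replace h1 := h1 X g1
  replace h2 := h2 X g2
  replace h3 := h3 X g3
  replace h4 := h4 X g4
  replace h5 := h5 X g5
  replace h6 := h6 X g6
  replace h7 := h7 X g7
  obtain ⟨hr1, hrB, hrq, _, hβ⟩ := hPt
  have hq1 : 1 ≤ q := Nat.one_le_iff_ne_zero.2 (NeZero.ne q)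
  set L := Real.log (X : ℝ) with hL
  have hL0 : 0 < L := by linarith
  have hL1 : 1 ≤ L := by linarith
  have hXR : (0 : ℝ) < X := by exact_mod_cast g8
  set w := wX D' X with hw
  set u : ℕ → ℝ := uI wP gP X w with hu
  set θ : ℝ := (y : ℝ) / r + β with hθ
  set F : ℕ → ℂ := fun n => (u n : ℂ) * ee ((n : ℝ) * θ) with hF
  -- primes of size at most a power of `L`
  have hzero : ∀ (M : ℕ), M ≤ D' → 2 * L ^ M ≤ (X : ℝ) ^ (1 / 10 : ℝ) → ∀ p : ℕ, p.Prime →
      (p : ℝ) ≤ L ^ M → ∀ n : ℕ, p ∣ n → u n = 0 := by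
    intro M hM hM2 p hp hpM n hpn
    refine bvm_zero X w n p hp hpn ?_ ?_
    · rw [hw]
      unfold wX
      refine Nat.le_floor (hpM.trans ?_)
      exact pow_le_pow_right₀ hL1 hM
    · have : 0 < L ^ M := by positivity
      linarith
  -- the expansion
  set G : ℕ → ℂ := fun k => ∑ n ∈ (Icc 1 X).filter (fun n => n ≡ a.val [MOD k]), F n with hG
  have hexp : ∑ n ∈ (Icc 1 X).filter (fun n : ℕ => IsUnit (a - (n : ZMod q))), F n =
      ∑ k ∈ q.divisors, ((ArithmeticFunction.moebius k : ℤ) : ℂ) * G k := by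
    rw [Finset.sum_filter]
    calc ∑ n ∈ Icc 1 X, (if IsUnit (a - (n : ZMod q)) then F n else 0) =
        ∑ n ∈ Icc 1 X, ∑ k ∈ q.divisors,
          (if n ≡ a.val [MOD k] then ((ArithmeticFunction.moebius k : ℤ) : ℂ) * F n else 0) := by
          refine sum_congr rfl fun n _ => ?_
          have e1 : (if IsUnit (a - (n : ZMod q)) then F n else 0) =
              (if IsUnit (a - (n : ZMod q)) then (1 : ℂ) else 0) * F n := by
            split_ifs <;> simp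
          rw [e1, bvm_unit, Finset.sum_mul]
          refine sum_congr rfl fun k _ => ?_
          split_ifs <;> simp
      _ = ∑ k ∈ q.divisors, ∑ n ∈ Icc 1 X,
          (if n ≡ a.val [MOD k] then ((ArithmeticFunction.moebius k : ℤ) : ℂ) * F n else 0) :=
          sum_comm
      _ = _ := by
          refine sum_congr rfl fun k _ => ?_
          rw [hG]
          simp only
          rw [Finset.mul_sum, Finset.sum_filter]
  have hgoal : ∑ n ∈ (Icc 1 X).filter (fun n : ℕ => IsUnit (a - (n : ZMod q))),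
      (uI wP gP X w n : ℂ) * ee (n * (y / r + β)) =
      ∑ n ∈ (Icc 1 X).filter (fun n : ℕ => IsUnit (a - (n : ZMod q))), F n := rfl
  rw [hgoal, hexp]
  have hmu : ∀ k : ℕ, ‖((ArithmeticFunction.moebius k : ℤ) : ℂ)‖ ≤ 1 := by
    intro k
    rw [Complex.norm_intCast]
    have := ArithmeticFunction.abs_moebius_le_one (n := k)
    exact_mod_cast this
  set K1 := q.divisors.filter
    (fun k : ℕ => (k : ℝ) ≤ (X : ℝ) ^ (1 / 3 : ℝ) ∧ Nat.Coprime a.val k) with hK1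
  -- the large divisors
  have hlarge : ∀ k ∈ q.divisors, (X : ℝ) ^ (1 / 3 : ℝ) < k → ‖G k‖ ≤
      2 * L ^ 2 * (X : ℝ) ^ (2 / 3 : ℝ) := by
    intro k hk hkX
    have hkq : k ∣ q := Nat.dvd_of_mem_divisors hk
    have hk1 : 1 ≤ k := Nat.pos_of_mem_divisors hk
    have hkX' : k ≤ X := (Nat.le_of_dvd hq1 hkq).trans hqX
    have e1 : ‖G k‖ ≤ ∑ n ∈ (Icc 1 X).filter (fun n => n ≡ a.val [MOD k]), L ^ 2 := by
      refine (norm_sum_le _ _).trans (sum_le_sum fun n _ => ?_)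
      rw [hF]
      simp only
      rw [norm_mul, norm_ee, mul_one, Complex.norm_real, Real.norm_eq_abs]
      exact h2 n
    rw [sum_const, nsmul_eq_mul] at e1
    refine e1.trans ?_
    have e2 := bvm_class X k hk1 hkX' a.val
    have e3 : (X : ℝ) / k ≤ (X : ℝ) ^ (2 / 3 : ℝ) := by
      rw [div_le_iff₀ (by exact_mod_cast hk1)]
      calc (X : ℝ) = (X : ℝ) ^ (2 / 3 : ℝ) * (X : ℝ) ^ (1 / 3 : ℝ) := by
            rw [← Real.rpow_add hXR]
            norm_num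
        _ ≤ (X : ℝ) ^ (2 / 3 : ℝ) * k :=
            mul_le_mul_of_nonneg_left hkX.le (by positivity)
    calc (((Icc 1 X).filter (fun n : ℕ => n ≡ a.val [MOD k])).card : ℝ) * L ^ 2
        ≤ 2 * (X / k) * L ^ 2 := mul_le_mul_of_nonneg_right e2 (by positivity)
      _ ≤ 2 * (X : ℝ) ^ (2 / 3 : ℝ) * L ^ 2 := by
          refine mul_le_mul_of_nonneg_right ?_ (by positivity)
          linarith
      _ = _ := by ring
  -- the divisors which are not coprime to `a`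
  have hnon : ∀ k ∈ q.divisors, ¬ Nat.Coprime a.val k → G k = 0 := by
    intro k hk hak
    have hkq : k ∣ q := Nat.dvd_of_mem_divisors hk
    obtain ⟨p, hp, hpa, hpk⟩ := Nat.Prime.not_coprime_iff_dvd.1 hak
    have hpg : p ∣ Nat.gcd a.val q := Nat.dvd_gcd hpa (hpk.trans hkq)
    have hple : (p : ℝ) ≤ L ^ K := by
      have : p ≤ Nat.gcd a.val q := Nat.le_of_dvd (Nat.gcd_pos_of_pos_right _ hq1) hpg
      exact le_trans (by exact_mod_cast this) hgcd
    refine Finset.sum_eq_zero fun n hn => ?_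
    rw [mem_filter] at hn
    have hpn : p ∣ n := by
      have : n ≡ a.val [MOD p] := hn.2.of_dvd hpk
      exact (this.dvd_iff dvd_rfl).2 hpa
    rw [hF]
    simp only
    rw [hzero K hDK h4 p hp hple n hpn]
    simp
  -- the classes modulo `r`
  set Gc : ℕ → ℕ → ℂ := fun k c =>
    ∑ n ∈ (Icc 1 X).filter (fun n => n ≡ a.val [MOD k] ∧ n ≡ c [MOD r]), F n with hGc
  have hsplit : ∀ k, G k = ∑ c ∈ range r, Gc k c := by
    intro k
    rw [hG]
    simp only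
    rw [bvm_split r hr1]
    refine sum_congr rfl fun c _ => ?_
    rw [hGc]
    simp only
    rw [Finset.filter_filter]
  have hGc0 : ∀ k c, ¬ Nat.Coprime c r → Gc k c = 0 := by
    intro k c hc
    obtain ⟨p, hp, hpc, hpr⟩ := Nat.Prime.not_coprime_iff_dvd.1 hc
    have hple : (p : ℝ) ≤ L ^ B := by
      have : p ≤ r := Nat.le_of_dvd hr1 hpr
      exact le_trans (by exact_mod_cast this) hrB
    refine Finset.sum_eq_zero fun n hn => ?_
    rw [mem_filter] at hn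
    have hpn : p ∣ n := by
      have : n ≡ c [MOD p] := hn.2.2.of_dvd hpr
      exact (this.dvd_iff dvd_rfl).2 hpc
    rw [hF]
    simp only
    rw [hzero B hDB h5 p hp hple n hpn]
    simp
  set S : ℕ → ℕ → ℕ → ℝ := fun k c t =>
    |∑ n ∈ (Icc 1 t).filter (fun n => n ≡ a.val [MOD k] ∧ n ≡ c [MOD r]), u n| with hS
  have hmax : ∀ k c : ℕ, ∃ t : ℕ, t ≤ X ∧ ∀ t' ≤ X, S k c t' ≤ S k c t := by
    intro k c
    obtain ⟨t, ht, hmx⟩ := Finset.exists_max_image (range (X + 1)) (S k c)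
      ⟨0, by simp⟩
    refine ⟨t, by rw [mem_range] at ht; omega, fun t' ht' => hmx t' ?_⟩
    rw [mem_range]
    omega
  choose T hT hTmax using hmax
  have hLB1 : 1 ≤ L ^ B := one_le_pow₀ hL1
  have hpi : 1 + 2 * Real.pi * |β| * X ≤ 8 * L ^ B := by
    have e1 : |β| * X ≤ L ^ B := by
      rwa [le_div_iff₀ hXR] at hβ
    have e2 := Real.pi_lt_d2
    have e3 := Real.pi_gt_three
    have e4 : 0 ≤ |β| * X := by positivity
    nlinarith
  have hGc1 : ∀ k c, ‖Gc k c‖ ≤ S k c (T k c) * (8 * L ^ B) := by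
    intro k c
    have e1 : Gc k c = ee ((c : ℝ) * ((y : ℝ) / r)) *
        ∑ n ∈ Icc 1 X, ((if n ≡ a.val [MOD k] ∧ n ≡ c [MOD r] then u n else 0 : ℝ) : ℂ) *
          ee ((n : ℝ) * β) := by
      rw [hGc]
      simp only
      rw [Finset.mul_sum, Finset.sum_filter]
      refine sum_congr rfl fun n _ => ?_
      split_ifs with h
      · rw [hF]
        simp only
        rw [hθ, bvm_ee hr1 h.2]
        ring
      · simp
    rw [e1, norm_mul, norm_ee, one_mul]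
    have hB : ∀ t' ≤ X, |∑ n ∈ Icc 1 t', (if n ≡ a.val [MOD k] ∧ n ≡ c [MOD r] then u n else 0)| ≤
        S k c (T k c) := by
      intro t' ht'
      rw [← Finset.sum_filter]
      exact hTmax k c t' ht'
    refine (bvm_partial _ _ X hB β).trans ?_
    exact mul_le_mul_of_nonneg_left hpi (abs_nonneg _)
  set Q : ℝ := X / L ^ (A + 2 * B + 4) with hQ
  have hQ0 : 0 ≤ Q := by positivity
  have hK1sum : ∑ k ∈ K1, ‖G k‖ ≤ L ^ B * (8 * L ^ B * Q) := by
    calc ∑ k ∈ K1, ‖G k‖ ≤ ∑ k ∈ K1, ∑ c ∈ range r, ‖Gc k c‖ := by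
          refine sum_le_sum fun k _ => ?_
          rw [hsplit k]
          exact norm_sum_le _ _
      _ = ∑ c ∈ range r, ∑ k ∈ K1, ‖Gc k c‖ := sum_comm
      _ ≤ ∑ c ∈ range r, 8 * L ^ B * Q := by
          refine sum_le_sum fun c _ => ?_
          by_cases hc : Nat.Coprime c r
          · calc ∑ k ∈ K1, ‖Gc k c‖ ≤ ∑ k ∈ K1, S k c (T k c) * (8 * L ^ B) :=
                  sum_le_sum fun k _ => hGc1 k c
              _ = (8 * L ^ B) * ∑ k ∈ K1, S k c (T k c) := by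
                  rw [← Finset.sum_mul, mul_comm]
              _ ≤ 8 * L ^ B * Q := by
                  refine mul_le_mul_of_nonneg_left ?_ (by positivity)
                  exact h1 q r a.val c hq1 hqX hr1 hrB hrq hc (fun k => T k c)
                    (fun k => hT k c)
          · rw [Finset.sum_eq_zero fun k _ => by rw [hGc0 k c hc, norm_zero]]
            positivity
      _ = r * (8 * L ^ B * Q) := by rw [sum_const, card_range, nsmul_eq_mul]
      _ ≤ L ^ B * (8 * L ^ B * Q) := mul_le_mul_of_nonneg_right hrB (by positivity)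
  have hrest : ∑ k ∈ q.divisors, ‖G k‖ ≤ L ^ B * (8 * L ^ B * Q) +
      (X : ℝ) ^ (1 / 10 : ℝ) * (2 * L ^ 2 * (X : ℝ) ^ (2 / 3 : ℝ)) := by
    have e1 : ∀ k ∈ q.divisors, ‖G k‖ ≤ (if (k : ℝ) ≤ (X : ℝ) ^ (1 / 3 : ℝ) ∧
        Nat.Coprime a.val k then ‖G k‖ else 0) + 2 * L ^ 2 * (X : ℝ) ^ (2 / 3 : ℝ) := by
      intro k hk
      have e2 : 0 ≤ 2 * L ^ 2 * (X : ℝ) ^ (2 / 3 : ℝ) := by positivity
      by_cases hc : Nat.Coprime a.val k
      · rcases le_or_gt (k : ℝ) ((X : ℝ) ^ (1 / 3 : ℝ)) with h | h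
        · rw [if_pos ⟨h, hc⟩]
          linarith
        · have e3 := hlarge k hk h
          split_ifs
          · linarith [norm_nonneg (G k)]
          · linarith
      · rw [hnon k hk hc, norm_zero]
        split_ifs <;> linarith
    refine (sum_le_sum e1).trans ?_
    rw [sum_add_distrib, ← Finset.sum_filter, sum_const, nsmul_eq_mul]
    refine add_le_add hK1sum ?_
    exact mul_le_mul_of_nonneg_right (h7 q hq1 hqX) (by positivity)
  have hnorm : ‖∑ k ∈ q.divisors, ((ArithmeticFunction.moebius k : ℤ) : ℂ) * G k‖ ≤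
      ∑ k ∈ q.divisors, ‖G k‖ := by
    refine (norm_sum_le _ _).trans (sum_le_sum fun k _ => ?_)
    rw [norm_mul]
    exact (mul_le_mul_of_nonneg_right (hmu k) (norm_nonneg _)).trans (by rw [one_mul])
  refine (hnorm.trans hrest).trans ?_
  have f1' : L ^ B * (8 * L ^ B * Q) ≤ X / L ^ A / 2 := by
    have e1 : L ^ B * (8 * L ^ B * Q) = 8 / L ^ 4 * (X / L ^ A) := by
      rw [hQ, pow_add, pow_add, pow_mul']
      field_simp
    rw [e1]
    have e2 : (16 : ℝ) ≤ L ^ 4 := by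
      calc (16 : ℝ) ≤ 8 ^ 4 := by norm_num
        _ ≤ L ^ 4 := pow_le_pow_left₀ (by norm_num) h3 4
    have e3 : 8 / L ^ 4 ≤ 1 / 2 := by
      rw [div_le_div_iff₀ (by positivity) (by norm_num)]
      linarith
    have e4 : 0 ≤ (X : ℝ) / L ^ A := by positivity
    nlinarith
  have f2' : (X : ℝ) ^ (1 / 10 : ℝ) * (2 * L ^ 2 * (X : ℝ) ^ (2 / 3 : ℝ)) ≤ X / L ^ A / 2 := by
    rw [div_div, le_div_iff₀ (by positivity)]
    have e1 : (X : ℝ) ^ (1 / 10 : ℝ) * (2 * L ^ 2 * (X : ℝ) ^ (2 / 3 : ℝ)) * (L ^ A * 2) =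
        (4 * L ^ (A + 2)) * ((X : ℝ) ^ (1 / 10 : ℝ) * (X : ℝ) ^ (2 / 3 : ℝ)) := by
      rw [pow_add]
      ring
    rw [e1]
    calc (4 * L ^ (A + 2)) * ((X : ℝ) ^ (1 / 10 : ℝ) * (X : ℝ) ^ (2 / 3 : ℝ)) ≤
        (X : ℝ) ^ (1 / 10 : ℝ) * ((X : ℝ) ^ (1 / 10 : ℝ) * (X : ℝ) ^ (2 / 3 : ℝ)) :=
          mul_le_mul_of_nonneg_right h6 (by positivity)
      _ = (X : ℝ) ^ (1 / 10 + (1 / 10 + 2 / 3) : ℝ) := by
          rw [← Real.rpow_add hXR, ← Real.rpow_add hXR]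
      _ ≤ (X : ℝ) ^ (1 : ℝ) :=
          Real.rpow_le_rpow_of_exponent_le (by exact_mod_cast g8) (by norm_num)
      _ = X := Real.rpow_one _
  linarith

end Pool.MP_dd84fd_nt.EM
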