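import Pool.Agent.Lib.MP_dd84fd_nt.EM.RoC
import Pool.Agent.Lib.BV.BVTheta
import Pool.Agent.Lib.MP_dd84fd_nt.SW.SWPsi
import Pool.Agent.Lib.MP_dd84fd_nt.DivBound

/-!
# EM-BVa (1.3 h): `wP - gP f1` in the classes mod `k r`, sum over the divisors `k` of `q`

`S(k, t) = Σ_{n ≤ t, n = a (k), n = c (r)} (wP n - gP n f1 n)`; `(a,k) = (c,r) = (k,r) = 1`: one class mod `k r` coprime to `k r`.
(1) primes: `Σ_{n ≤ t, class} wP n = π(t; kr, .) + O(zI)` and `Ep y m a = π(y;m,a) - π(y)/φ(m)`; `Pool.BV.bv_pi` for the moduli `m = k r ≤ X^(1/3) L^B`.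
(2) model: Abel summation with `1/log n` for the difference of `Σ f1` (`rough_any`) and `θ/φ(m)` (`Pool.BV.bv_theta` with `Q = 1`).
(3) sum over `k`: `tot_sum` and `DivBound`.
-/

set_option autoImplicit false

namespace Pool.MP_dd84fd_nt.EM

open Finset Pool.MP_67663b_nt.Odd Pool.MP_dd84fd_nt.En Pool.MP_dd84fd_nt.E2
open Pool.MP_dd84fd_nt.HX Pool.MP_dd84fd_nt.IX
open Pool.MP_dd84fd_nt.JX (ZJ DecJ Str wP gP)
open Pool.MP_dd84fd_nt.L2G (fz VA VQ MajQ MinorHyp Tc Jc cv av gr Se)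
open Pool.MP_dd84fd_nt.T7 (Fz2)

private theorem bva_abel0 (g d : ℕ → ℝ) (M : ℝ) (h1 : g 1 = 0)
    (hg : ∀ n, 2 ≤ n → g (n + 1) ≤ g n) (hg0 : ∀ n, 0 ≤ g n) (t : ℕ) (ht : 2 ≤ t)
    (hS : ∀ n ≤ t, |∑ i ∈ Icc 1 n, d i| ≤ M) :
    |∑ n ∈ Icc 1 t, g n * d n - g t * ∑ i ∈ Icc 1 t, d i| ≤ M * (2 * g 2 - g t) := by
  induction t, ht using Nat.le_induction with
  | base =>
    have e : Icc 1 2 = ({1, 2} : Finset ℕ) := by decide
    have h := hS 1 (by norm_num)
    rw [Icc_self, sum_singleton] at h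
    rw [e, sum_pair (by norm_num), sum_pair (by norm_num), h1]
    have h2 := hg0 2
    rw [abs_le] at *
    constructor <;> nlinarith
  | succ t ht ih =>
    have ih' := ih (fun n hn => hS n (by omega))
    have hSt := hS t (by omega)
    rw [sum_Icc_succ_top (by omega), sum_Icc_succ_top (by omega)]
    have h2 := hg t ht
    rw [abs_le] at *
    constructor <;> nlinarith

private theorem bva_abel (g d : ℕ → ℝ) (M : ℝ) (h1 : g 1 = 0)
    (hg : ∀ n, 2 ≤ n → g (n + 1) ≤ g n) (hg0 : ∀ n, 0 ≤ g n) (t : ℕ)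
    (hS : ∀ n ≤ t, |∑ i ∈ Icc 1 n, d i| ≤ M) :
    |∑ n ∈ Icc 1 t, g n * d n| ≤ 2 * g 2 * M := by
  have hM : 0 ≤ M := (abs_nonneg _).trans (hS 0 (by omega))
  have h2 := hg0 2
  rcases Nat.lt_or_ge t 2 with ht | ht
  · have h0 : ∑ n ∈ Icc 1 t, g n * d n = 0 := by
      refine Finset.sum_eq_zero fun n hn => ?_
      have : n = 1 := by
        rw [mem_Icc] at hn
        omega
      rw [this, h1, zero_mul]
    rw [h0, abs_zero]
    positivity
  · have h3 := bva_abel0 g d M h1 hg hg0 t ht hS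
    have h4 := hS t le_rfl
    have h5 := hg0 t
    rw [abs_le] at *
    constructor <;> nlinarith

/-- the model in a class mod `m`, compared with `π(t)/φ(m)` -/
private theorem bva_cls (D A : ℕ) (hD : 1 ≤ D) : ∃ η : ℝ, 0 < η ∧ η ≤ 1 / 4 ∧ ∃ X0 : ℕ,
    ∀ X : ℕ, X0 ≤ X → ∀ m : ℕ, 1 ≤ m → m ≤ X → ∀ c : ℕ, Nat.Coprime c m → ∀ t : ℕ, t ≤ X →
    |∑ n ∈ (Icc 1 t).filter (fun n => n ≡ c [MOD m]), fI gP X (wX D X) n -
      (((Icc 1 t).filter (fun n => n.Prime)).card : ℝ) / (Nat.totient m : ℝ)| ≤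
      4 * ((X : ℝ) ^ (1 - η) + 1 / (Nat.totient m : ℝ) *
        (X * (2 * Real.log X / Real.log X ^ D) + X / Real.log X ^ A)) := by
  classical
  obtain ⟨η, hη0, hη1, X1, h1⟩ := rough_any D hD
  obtain ⟨B', X2, h2⟩ := Pool.BV.bv_theta A
  have hev2 : ∀ᶠ X : ℕ in Filter.atTop, ‖Real.log X ^ (B' : ℝ)‖ ≤
      1 * ‖(X : ℝ) ^ (1 / 2 : ℝ)‖ :=
    tendsto_natCast_atTop_atTop.eventually
      ((isLittleO_log_rpow_rpow_atTop (B' : ℝ) (by norm_num : (0 : ℝ) < 1 / 2)).bound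
        (by norm_num))
  obtain ⟨X3, hX3⟩ := Filter.eventually_atTop.1 hev2
  refine ⟨η, hη0, hη1, max (max X1 X2) (max X3 3), ?_⟩
  intro X hX m hm hmX c hc t ht
  have hXX1 : X1 ≤ X := (le_max_left _ _).trans ((le_max_left _ _).trans hX)
  have hXX2 : X2 ≤ X := (le_max_right _ _).trans ((le_max_left _ _).trans hX)
  have hXX3 : X3 ≤ X := (le_max_left _ _).trans ((le_max_right _ _).trans hX)
  have hXX4 : 3 ≤ X := (le_max_right _ _).trans ((le_max_right _ _).trans hX)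
  have hXr : (1 : ℝ) < X := by
    have : (3 : ℝ) ≤ X := by exact_mod_cast hXX4
    linarith
  have hX0' : (0 : ℝ) < X := by linarith
  have hlog1 : 0 < Real.log X := Real.log_pos hXr
  have hφ : (0 : ℝ) < (Nat.totient m : ℝ) := by exact_mod_cast Nat.totient_pos.mpr hm
  -- the prime number theorem
  have hpnt : ∀ s : ℕ, s ≤ X →
      |∑ p ∈ (Icc 1 s).filter (fun n => n.Prime), Real.log p - (s : ℝ)| ≤ X / Real.log X ^ A := by
    intro s hs
    have h3 := hX3 X hXX3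
    rw [Real.rpow_natCast, one_mul, Real.norm_of_nonneg (by positivity),
      Real.norm_of_nonneg (by positivity), ← Real.sqrt_eq_rpow] at h3
    have h4 := h2 X 1 hXX2 (by
      rw [Nat.cast_one, le_div_iff₀ (by positivity), one_mul]
      exact h3) (fun _ => 1) (fun _ => s) (fun q => Nat.coprime_one_left q) (fun _ => hs)
    rw [Finset.Icc_self, Finset.sum_singleton] at h4
    unfold Pool.BV.Et at h4
    rw [Nat.totient_one, Nat.cast_one, div_one] at h4
    have e : (Icc 1 s).filter (fun n => n.Prime ∧ n ≡ 1 [MOD 1]) =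
        (Icc 1 s).filter (fun n => n.Prime) := by
      refine Finset.filter_congr fun n _ => ?_
      simp [Nat.modEq_one]
    rw [e] at h4
    exact h4
  obtain ⟨w, hw⟩ : ∃ w, w = wX D X := ⟨_, rfl⟩
  rw [← hw]
  set d : ℕ → ℝ := fun n => (if n ≡ c [MOD m] then f1 w n else 0) -
    (if n.Prime then Real.log n else 0) / (Nat.totient m : ℝ) with hd
  set M : ℝ := (X : ℝ) ^ (1 - η) + 1 / (Nat.totient m : ℝ) *
        (X * (2 * Real.log X / Real.log X ^ D) + X / Real.log X ^ A) with hM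
  have hS : ∀ n ≤ t, |∑ i ∈ Icc 1 n, d i| ≤ M := by
    intro s hs
    have hsX : s ≤ X := hs.trans ht
    have e1 : ∑ i ∈ Icc 1 s, d i =
        (∑ n ∈ (Icc 1 s).filter (fun n => n ≡ c [MOD m]), f1 w n -
          (s : ℝ) / (Nat.totient m : ℝ)) -
        (∑ p ∈ (Icc 1 s).filter (fun n => n.Prime), Real.log p - (s : ℝ)) /
          (Nat.totient m : ℝ) := by
      rw [hd, Finset.sum_sub_distrib, ← Finset.sum_div, Finset.sum_filter, Finset.sum_filter]
      ring
    have e2 := h1 X hXX1 m hm hmX c hc s hsX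
    rw [← hw] at e2
    have e3 := hpnt s hsX
    rw [e1]
    refine (abs_sub _ _).trans ?_
    rw [abs_div, abs_of_pos hφ]
    have e4 : |∑ p ∈ (Icc 1 s).filter (fun n => n.Prime), Real.log p - (s : ℝ)| /
        (Nat.totient m : ℝ) ≤ X / Real.log X ^ A / (Nat.totient m : ℝ) := by gcongr
    have hsr : (s : ℝ) ≤ X := by exact_mod_cast hsX
    have e5 : (s : ℝ) / (Nat.totient m : ℝ) * (2 * Real.log X / Real.log X ^ D) ≤
        (X : ℝ) / (Nat.totient m : ℝ) * (2 * Real.log X / Real.log X ^ D) := by gcongr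
    calc _ ≤ ((X : ℝ) ^ (1 - η) + (s : ℝ) / (Nat.totient m : ℝ) *
          (2 * Real.log X / Real.log X ^ D)) + X / Real.log X ^ A / (Nat.totient m : ℝ) :=
          add_le_add e2 e4
      _ ≤ ((X : ℝ) ^ (1 - η) + (X : ℝ) / (Nat.totient m : ℝ) *
          (2 * Real.log X / Real.log X ^ D)) + X / Real.log X ^ A / (Nat.totient m : ℝ) := by
          gcongr
      _ = M := by rw [hM]; ring
  have hgn : ∀ n : ℕ, 0 ≤ 1 / Real.log (n : ℝ) := fun n =>
    div_nonneg zero_le_one (Real.log_natCast_nonneg n)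
  have hab := bva_abel (fun n => 1 / Real.log (n : ℝ)) d M (by simp)
    (fun n hn => by
      have hn' : (2 : ℝ) ≤ n := by exact_mod_cast hn
      have h3 : 0 < Real.log (n : ℝ) := Real.log_pos (by linarith)
      apply one_div_le_one_div_of_le h3
      apply Real.log_le_log (by linarith)
      push_cast
      linarith) hgn t hS
  have e6 : ∑ n ∈ Icc 1 t, 1 / Real.log (n : ℝ) * d n =
      ∑ n ∈ (Icc 1 t).filter (fun n => n ≡ c [MOD m]), fI gP X w n -
      (((Icc 1 t).filter (fun n => n.Prime)).card : ℝ) / (Nat.totient m : ℝ) := by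
    rw [Finset.card_filter, Finset.sum_filter]
    push_cast
    rw [Finset.sum_div, ← Finset.sum_sub_distrib]
    refine Finset.sum_congr rfl fun n _ => ?_
    rw [hd]
    simp only [fI, gP]
    by_cases hp : n.Prime
    · have hlp : Real.log (n : ℝ) ≠ 0 := by
        have : (1 : ℝ) < n := by exact_mod_cast hp.one_lt
        exact (Real.log_pos this).ne'
      rw [if_pos hp, if_pos hp]
      split_ifs
      · field_simp
      · field_simp
        ring
    · rw [if_neg hp, if_neg hp]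
      split_ifs <;> simp
  rw [e6] at hab
  refine hab.trans ?_
  have hM0 : 0 ≤ M := (abs_nonneg _).trans (hS 0 (by omega))
  have hl2 : 1 / Real.log ((2 : ℕ) : ℝ) ≤ 2 := by
    have := Real.log_two_gt_d9
    rw [Nat.cast_ofNat, div_le_iff₀ (by linarith)]
    linarith
  nlinarith

private theorem bva_large (A C : ℕ) (η : ℝ) (hη : 0 < η) : ∃ X0 : ℕ, ∀ X : ℕ, X0 ≤ X →
    (C : ℝ) * Real.log X ^ A ≤ (X : ℝ) ^ η := by
  have hev2 : ∀ᶠ X : ℕ in Filter.atTop, ‖Real.log X ^ (A : ℝ)‖ ≤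
      1 / (C + 1) * ‖(X : ℝ) ^ η‖ :=
    tendsto_natCast_atTop_atTop.eventually
      ((isLittleO_log_rpow_rpow_atTop (A : ℝ) hη).bound (by positivity))
  obtain ⟨X3, hX3⟩ := Filter.eventually_atTop.1 hev2
  refine ⟨X3, fun X hX => ?_⟩
  have h := hX3 X hX
  have hl : 0 ≤ Real.log (X : ℝ) := Real.log_natCast_nonneg X
  rw [Real.rpow_natCast, Real.norm_of_nonneg (by positivity),
      Real.norm_of_nonneg (by positivity), one_div, ← div_eq_inv_mul,
      le_div_iff₀ (by positivity)] at h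
  have : 0 ≤ Real.log (X : ℝ) ^ A := by positivity
  nlinarith

/-- the number of divisors -/
private theorem bva_tau (η : ℝ) (hη : 0 < η) : ∃ C : ℕ, 1 ≤ C ∧ ∀ X q : ℕ, 1 ≤ q → q ≤ X →
    (q.divisors.card : ℝ) ≤ C * (X : ℝ) ^ η := by
  obtain ⟨k, hk⟩ := exists_nat_gt (1 / η)
  have hk0 : (0 : ℝ) < k := lt_trans (by positivity) hk
  have hk1 : 1 ≤ k := by
    have : 0 < k := by exact_mod_cast hk0
    omega
  obtain ⟨C, hC1, hC⟩ := Pool.Agent.Lib.MP_dd84fd_nt.DivBound.div_bound k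
  refine ⟨C, hC1, fun X q hq hqX => ?_⟩
  have h1 := hC q (by omega)
  have hX1 : (1 : ℝ) ≤ X := by
    have : 1 ≤ X := hq.trans hqX
    exact_mod_cast this
  have hC1' : (1 : ℝ) ≤ C := by exact_mod_cast hC1
  by_contra hcon
  push Not at hcon
  have h2 : ((C : ℝ) * (X : ℝ) ^ η) ^ k < (q.divisors.card : ℝ) ^ k :=
    pow_lt_pow_left₀ hcon (by positivity) (by omega)
  have h3 : (q.divisors.card : ℝ) ^ k ≤ C * q := by exact_mod_cast h1
  have h4 : (C : ℝ) * X ≤ ((C : ℝ) * (X : ℝ) ^ η) ^ k := by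
    rw [mul_pow]
    have h5 : (C : ℝ) ≤ (C : ℝ) ^ k := le_self_pow₀ hC1' (by omega)
    have h6 : (X : ℝ) ≤ ((X : ℝ) ^ η) ^ k := by
      rw [← Real.rpow_natCast, ← Real.rpow_mul (by positivity)]
      calc (X : ℝ) = (X : ℝ) ^ (1 : ℝ) := (Real.rpow_one _).symm
        _ ≤ (X : ℝ) ^ (η * k) := by
          apply Real.rpow_le_rpow_of_exponent_le hX1
          rw [div_lt_iff₀ hη] at hk
          linarith
    gcongr
  have h7 : (q : ℝ) ≤ X := by exact_mod_cast hqX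
  nlinarith

theorem bv_cls (A B : ℕ) : ∃ D0 : ℕ, ∀ D' : ℕ, D0 ≤ D' → ∃ X0 : ℕ, ∀ X : ℕ, X0 ≤ X →
    ∀ q r a c : ℕ, 1 ≤ q → q ≤ X → 1 ≤ r → (r : ℝ) ≤ Real.log X ^ B → Nat.Coprime r q →
    Nat.Coprime c r → ∀ t : ℕ → ℕ, (∀ k, t k ≤ X) →
    ∑ k ∈ q.divisors.filter (fun k : ℕ => (k : ℝ) ≤ (X : ℝ) ^ (1 / 3 : ℝ) ∧ Nat.Coprime a k),
      |∑ n ∈ (Icc 1 (t k)).filter (fun n => n ≡ a [MOD k] ∧ n ≡ c [MOD r]),
        uI wP gP X (wX D' X) n| ≤ X / Real.log X ^ A := by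
  classical
  refine ⟨A + 4, fun D' hD' => ?_⟩
  obtain ⟨η, hη0, hη1, X1, h1⟩ := bva_cls D' (A + 3) (by omega)
  obtain ⟨B', X2, h2⟩ := Pool.BV.bv_pi (A + 1)
  obtain ⟨C, hC1, hC⟩ := bva_tau (η / 2) (by positivity)
  obtain ⟨X3, hX3⟩ := bva_large (B + B') 1 (1 / 6) (by norm_num)
  obtain ⟨X4, hX4⟩ := bva_large B 1 (1 / 3) (by norm_num)
  obtain ⟨X5, hX5⟩ := bva_large A (24 * C) (η / 2) (by positivity)
  have hev : ∀ᶠ X : ℕ in Filter.atTop, 600 ≤ Real.log X :=
    (Real.tendsto_log_atTop.comp tendsto_natCast_atTop_atTop).eventually_ge_atTop _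
  obtain ⟨X6, hX6⟩ := Filter.eventually_atTop.1 hev
  refine ⟨max (max X1 X2) (max (max X3 X4) (max X5 X6)), ?_⟩
  intro X hX q r a c hq hqX hr hrL hrq hcr t ht
  have hXX1 : X1 ≤ X := (le_max_left _ _).trans ((le_max_left _ _).trans hX)
  have hXX2 : X2 ≤ X := (le_max_right _ _).trans ((le_max_left _ _).trans hX)
  have hXX3 : X3 ≤ X := (le_max_left _ _).trans ((le_max_left _ _).trans
    ((le_max_right _ _).trans hX))
  have hXX4 : X4 ≤ X := (le_max_right _ _).trans ((le_max_left _ _).trans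
    ((le_max_right _ _).trans hX))
  have hXX5 : X5 ≤ X := (le_max_left _ _).trans ((le_max_right _ _).trans
    ((le_max_right _ _).trans hX))
  have hXX6 : X6 ≤ X := (le_max_right _ _).trans ((le_max_right _ _).trans
    ((le_max_right _ _).trans hX))
  have hL600 : 600 ≤ Real.log X := hX6 X hXX6
  have hL0 : 0 < Real.log X := by linarith
  have hL1 : 1 ≤ Real.log X := by linarith
  have hXr : (1 : ℝ) < X := by
    by_contra hcon
    push Not at hcon
    have := Real.log_nonpos (Nat.cast_nonneg X) hcon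
    linarith
  have hXpos : (0 : ℝ) < X := by linarith
  have hXone : 1 ≤ X := by
    have : (1 : ℕ) < X := by exact_mod_cast hXr
    omega
  have h3 := hX3 X hXX3
  have h4 := hX4 X hXX4
  have h5 := hX5 X hXX5
  rw [Nat.cast_one, one_mul] at h3 h4
  obtain ⟨S, hS⟩ : ∃ S, S = q.divisors.filter
    (fun k : ℕ => (k : ℝ) ≤ (X : ℝ) ^ (1 / 3 : ℝ) ∧ Nat.Coprime a k) := ⟨_, rfl⟩
  rw [← hS]
  have hSm : ∀ k ∈ S, 1 ≤ k ∧ k ∣ q ∧ (k : ℝ) ≤ (X : ℝ) ^ (1 / 3 : ℝ) ∧ Nat.Coprime a k ∧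
      Nat.Coprime k r := by
    intro k hk
    rw [hS, mem_filter, Nat.mem_divisors] at hk
    obtain ⟨⟨hk1, hk2⟩, hk3, hk4⟩ := hk
    exact ⟨Nat.pos_of_dvd_of_pos hk1 (by omega), hk1, hk3, hk4,
      (Nat.Coprime.coprime_dvd_right hk1 hrq).symm⟩
  obtain ⟨Q, hQ⟩ : ∃ Q, Q = ⌊(X : ℝ) ^ (1 / 3 : ℝ) * Real.log X ^ B⌋₊ := ⟨_, rfl⟩
  have hQr : (Q : ℝ) ≤ (X : ℝ) ^ (1 / 3 : ℝ) * Real.log X ^ B := by
    rw [hQ]
    exact Nat.floor_le (by positivity)
  have hx13 : (0 : ℝ) < (X : ℝ) ^ (1 / 3 : ℝ) := Real.rpow_pos_of_pos hXpos _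
  have hkr : ∀ k ∈ S, k * r ≤ Q := by
    intro k hk
    obtain ⟨_, _, hk3, _, _⟩ := hSm k hk
    rw [hQ]
    apply Nat.le_floor
    push_cast
    exact mul_le_mul hk3 hrL (by positivity) hx13.le
  have hQX : Q ≤ X := by
    have : (Q : ℝ) ≤ X := by
      calc (Q : ℝ) ≤ (X : ℝ) ^ (1 / 3 : ℝ) * Real.log X ^ B := hQr
        _ ≤ (X : ℝ) ^ (1 / 3 : ℝ) * (X : ℝ) ^ (1 / 3 : ℝ) := by gcongr
        _ = (X : ℝ) ^ (2 / 3 : ℝ) := by
          rw [← Real.rpow_add hXpos]
          norm_num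
        _ ≤ (X : ℝ) ^ (1 : ℝ) := Real.rpow_le_rpow_of_exponent_le hXr.le (by norm_num)
        _ = X := Real.rpow_one _
    exact_mod_cast this
  have hQs : (Q : ℝ) ≤ Real.sqrt X / Real.log X ^ B' := by
    rw [le_div_iff₀ (by positivity)]
    calc (Q : ℝ) * Real.log X ^ B' ≤ (X : ℝ) ^ (1 / 3 : ℝ) * Real.log X ^ B * Real.log X ^ B' := by
          gcongr
      _ = (X : ℝ) ^ (1 / 3 : ℝ) * Real.log X ^ (B + B') := by rw [pow_add]; ring
      _ ≤ (X : ℝ) ^ (1 / 3 : ℝ) * (X : ℝ) ^ (1 / 6 : ℝ) := by gcongr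
      _ = Real.sqrt X := by
          rw [← Real.rpow_add hXpos, Real.sqrt_eq_rpow]
          norm_num
  -- the classes
  have hcls : ∀ q' : ℕ, ∃ C : ℕ, C.Coprime q' ∧ (q' / r ∈ S → q' / r * r = q' →
      ∀ n : ℕ, (n ≡ a [MOD q' / r] ∧ n ≡ c [MOD r]) ↔ n ≡ C [MOD q']) := by
    intro q'
    by_cases hk : q' / r ∈ S ∧ q' / r * r = q'
    · obtain ⟨hk1, hk2⟩ := hk
      obtain ⟨hk3, hk4, hk5, hk6, hk7⟩ := hSm _ hk1
      obtain ⟨C, hCa, hCc⟩ := Nat.chineseRemainder hk7 a c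
      refine ⟨C, ?_, fun _ _ n => ?_⟩
      · rw [← hk2]
        refine Nat.Coprime.mul_right ?_ ?_
        · rw [Nat.coprime_iff_gcd_eq_one, Nat.ModEq.gcd_eq hCa]
          exact hk6
        · rw [Nat.coprime_iff_gcd_eq_one, Nat.ModEq.gcd_eq hCc]
          exact hcr
      · conv_rhs => rw [← hk2]
        rw [← Nat.modEq_and_modEq_iff_modEq_mul hk7]
        constructor
        · rintro ⟨e1, e2⟩
          exact ⟨e1.trans hCa.symm, e2.trans hCc.symm⟩
        · rintro ⟨e1, e2⟩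
          exact ⟨e1.trans hCa, e2.trans hCc⟩
    · exact ⟨1, Nat.coprime_one_left _, fun e1 e2 => absurd ⟨e1, e2⟩ hk⟩
  choose cl hcl1 hcl2 using hcls
  have hbv := h2 X Q hXX2 hQs cl (fun q' => t (q' / r)) hcl1 (fun q' => ht _)
  have hzI : (zI X : ℝ) ≤ 2 * (X : ℝ) ^ (1 - η) := by
    have e1 : (zI X : ℝ) < (X : ℝ) ^ (1 / 10 : ℝ) + 1 := Nat.ceil_lt_add_one (by positivity)
    have e2 : (X : ℝ) ^ (1 / 10 : ℝ) ≤ (X : ℝ) ^ (1 - η) :=
      Real.rpow_le_rpow_of_exponent_le hXr.le (by linarith)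
    have e3 : (1 : ℝ) ≤ (X : ℝ) ^ (1 - η) := Real.one_le_rpow hXr.le (by linarith)
    linarith
  -- one class
  have hone : ∀ k ∈ S, |∑ n ∈ (Icc 1 (t k)).filter (fun n => n ≡ a [MOD k] ∧ n ≡ c [MOD r]),
        uI wP gP X (wX D' X) n| ≤ |Pool.BV.Ep (t k) (k * r) (cl (k * r))| +
      (6 * (X : ℝ) ^ (1 - η) + 1 / (Nat.totient k : ℝ) *
        (4 * (X * (2 * Real.log X / Real.log X ^ D') + X / Real.log X ^ (A + 3)))) := by
    intro k hk
    obtain ⟨hk3, hk4, hk5, hk6, hk7⟩ := hSm _ hk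
    have hdiv : k * r / r = k := Nat.mul_div_cancel k (by omega)
    have e1 : (Icc 1 (t k)).filter (fun n => n ≡ a [MOD k] ∧ n ≡ c [MOD r]) =
        (Icc 1 (t k)).filter (fun n => n ≡ cl (k * r) [MOD k * r]) := by
      refine Finset.filter_congr fun n _ => ?_
      have := hcl2 (k * r) (by rwa [hdiv]) (by rw [hdiv]) n
      rwa [hdiv] at this
    rw [e1]
    have hkr1 : 1 ≤ k * r := Nat.one_le_iff_ne_zero.2 (by positivity)
    have e2 := h1 X hXX1 (k * r) hkr1 ((hkr k hk).trans hQX) (cl (k * r)) (hcl1 _) (t k) (ht k)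
    have e3 : ∑ n ∈ (Icc 1 (t k)).filter (fun n => n ≡ cl (k * r) [MOD k * r]),
        uI wP gP X (wX D' X) n =
        Pool.BV.Ep (t k) (k * r) (cl (k * r)) -
        (∑ n ∈ (Icc 1 (t k)).filter (fun n => n ≡ cl (k * r) [MOD k * r]),
          fI gP X (wX D' X) n - (((Icc 1 (t k)).filter (fun n => n.Prime)).card : ℝ) /
            (Nat.totient (k * r) : ℝ)) -
        ((((Icc 1 (t k)).filter (fun n => n.Prime ∧ n ≡ cl (k * r) [MOD k * r])).card : ℝ) -
          ∑ n ∈ (Icc 1 (t k)).filter (fun n => n ≡ cl (k * r) [MOD k * r]), wP X n) := by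
      unfold uI Pool.BV.Ep
      rw [Finset.sum_sub_distrib]
      ring
    have e4 : |((((Icc 1 (t k)).filter (fun n => n.Prime ∧ n ≡ cl (k * r) [MOD k * r])).card : ℝ) -
          ∑ n ∈ (Icc 1 (t k)).filter (fun n => n ≡ cl (k * r) [MOD k * r]), wP X n)| ≤ zI X := by
      have f1' : ((((Icc 1 (t k)).filter
          (fun n => n.Prime ∧ n ≡ cl (k * r) [MOD k * r])).card : ℝ) -
          ∑ n ∈ (Icc 1 (t k)).filter (fun n => n ≡ cl (k * r) [MOD k * r]), wP X n) =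
          ((((Icc 1 (t k)).filter (fun n => n ≡ cl (k * r) [MOD k * r])).filter
            (fun n => n.Prime ∧ ¬ zI X ≤ n)).card : ℝ) := by
        rw [Finset.filter_filter, Finset.card_filter, Finset.card_filter, Finset.sum_filter]
        push_cast
        rw [← Finset.sum_sub_distrib]
        refine Finset.sum_congr rfl fun n _ => ?_
        unfold wP
        by_cases g1 : n.Prime <;> by_cases g2 : n ≡ cl (k * r) [MOD k * r] <;>
          by_cases g3 : zI X ≤ n <;> simp [g1, g2, g3]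
      rw [f1', abs_of_nonneg (by positivity)]
      have f2 : (((Icc 1 (t k)).filter (fun n => n ≡ cl (k * r) [MOD k * r])).filter
            (fun n => n.Prime ∧ ¬ zI X ≤ n)) ⊆ range (zI X) := by
        intro n hn
        rw [mem_filter] at hn
        rw [mem_range]
        omega
      have f3 := Finset.card_le_card f2
      rw [card_range] at f3
      exact_mod_cast f3
    rw [e3]
    have e5 : (1 : ℝ) / (Nat.totient (k * r) : ℝ) ≤ 1 / (Nat.totient k : ℝ) := by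
      have f1' : 0 < Nat.totient k := Nat.totient_pos.2 hk3
      have f2 : 0 < Nat.totient r := Nat.totient_pos.2 hr
      rw [Nat.totient_mul hk7]
      apply one_div_le_one_div_of_le
      · exact_mod_cast f1'
      · push_cast
        have g1 : (1 : ℝ) ≤ Nat.totient r := by exact_mod_cast f2
        have g2 : (0 : ℝ) < Nat.totient k := by exact_mod_cast f1'
        nlinarith
    have e6 : 0 ≤ (X * (2 * Real.log X / Real.log X ^ D') + X / Real.log X ^ (A + 3)) := by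
      positivity
    have e7 : 1 / (Nat.totient (k * r) : ℝ) *
        (X * (2 * Real.log X / Real.log X ^ D') + X / Real.log X ^ (A + 3)) ≤
        1 / (Nat.totient k : ℝ) *
        (X * (2 * Real.log X / Real.log X ^ D') + X / Real.log X ^ (A + 3)) :=
      mul_le_mul_of_nonneg_right e5 e6
    have e8 : ∀ x y z : ℝ, |x - y - z| ≤ |x| + |y| + |z| := by
      intro x y z
      have g1 := abs_sub (x - y) z
      have g2 := abs_sub x y
      linarith
    refine (e8 _ _ _).trans ?_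
    linarith
  have hsum1 : ∑ k ∈ S, |Pool.BV.Ep (t k) (k * r) (cl (k * r))| ≤ X / Real.log X ^ (A + 1) := by
    refine le_trans ?_ hbv
    have e1 : ∑ k ∈ S, |Pool.BV.Ep (t k) (k * r) (cl (k * r))| =
        ∑ q' ∈ S.image (fun k => k * r), |Pool.BV.Ep (t (q' / r)) q' (cl q')| := by
      rw [Finset.sum_image]
      · refine Finset.sum_congr rfl fun k _ => ?_
        rw [Nat.mul_div_cancel k (by omega)]
      · intro k _ k' _ h
        exact Nat.eq_of_mul_eq_mul_right (by omega) h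
    rw [e1]
    refine Finset.sum_le_sum_of_subset_of_nonneg ?_ fun _ _ _ => abs_nonneg _
    intro q' hq'
    rw [mem_image] at hq'
    obtain ⟨k, hk, rfl⟩ := hq'
    rw [mem_Icc]
    exact ⟨Nat.one_le_iff_ne_zero.2 (by have := (hSm k hk).1; positivity), hkr k hk⟩
  have hcard : (S.card : ℝ) ≤ C * (X : ℝ) ^ (η / 2) := by
    refine le_trans ?_ (hC X q hq hqX)
    rw [hS]
    exact_mod_cast Finset.card_filter_le _ _
  have htot : ∑ k ∈ S, 1 / (Nat.totient k : ℝ) ≤ 12 * Real.log X ^ 2 := by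
    have e1 : ∑ k ∈ S, 1 / (Nat.totient k : ℝ) ≤ ∑ k ∈ Icc 1 X, 1 / (Nat.totient k : ℝ) := by
      refine Finset.sum_le_sum_of_subset_of_nonneg ?_ fun _ _ _ => by positivity
      intro k hk
      obtain ⟨hk3, hk4, _⟩ := hSm k hk
      rw [mem_Icc]
      exact ⟨hk3, (Nat.le_of_dvd (by omega) hk4).trans hqX⟩
    have e2 := Pool.BV.tot_sum X hXone
    have e3 : (1 + Real.log X) ^ 2 ≤ (2 * Real.log X) ^ 2 :=
      pow_le_pow_left₀ (by linarith) (by linarith) _
    nlinarith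
  -- the sum
  have hfin : ∑ k ∈ S, |∑ n ∈ (Icc 1 (t k)).filter (fun n => n ≡ a [MOD k] ∧ n ≡ c [MOD r]),
        uI wP gP X (wX D' X) n| ≤ X / Real.log X ^ (A + 1) +
      (C * (X : ℝ) ^ (η / 2) * (6 * (X : ℝ) ^ (1 - η)) + 12 * Real.log X ^ 2 *
        (4 * (X * (2 * Real.log X / Real.log X ^ D') + X / Real.log X ^ (A + 3)))) := by
    refine (Finset.sum_le_sum hone).trans ?_
    rw [Finset.sum_add_distrib, Finset.sum_add_distrib, Finset.sum_const, nsmul_eq_mul,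
      ← Finset.sum_mul]
    gcongr
  refine hfin.trans ?_
  have hLA : 0 < Real.log X ^ A := by positivity
  have hT0 : 0 < (X : ℝ) / Real.log X ^ A := by positivity
  have g1 : X / Real.log X ^ (A + 1) ≤ 1 / 600 * (X / Real.log X ^ A) := by
    rw [pow_succ, ← div_div, div_le_iff₀ hL0]
    nlinarith
  have g2 : C * (X : ℝ) ^ (η / 2) * (6 * (X : ℝ) ^ (1 - η)) ≤ 1 / 4 * (X / Real.log X ^ A) := by
    rw [← mul_div_assoc, le_div_iff₀ hLA]
    have e1 : (X : ℝ) ^ (η / 2) * (X : ℝ) ^ (1 - η) * (X : ℝ) ^ (η / 2) = X := by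
      rw [← Real.rpow_add hXpos, ← Real.rpow_add hXpos]
      have : η / 2 + (1 - η) + η / 2 = 1 := by ring
      rw [this, Real.rpow_one]
    push_cast at h5
    calc C * (X : ℝ) ^ (η / 2) * (6 * (X : ℝ) ^ (1 - η)) * Real.log X ^ A =
        1 / 4 * ((X : ℝ) ^ (η / 2) * (X : ℝ) ^ (1 - η)) * (24 * C * Real.log X ^ A) := by ring
      _ ≤ 1 / 4 * ((X : ℝ) ^ (η / 2) * (X : ℝ) ^ (1 - η)) * (X : ℝ) ^ (η / 2) := by gcongr
      _ = 1 / 4 * X := by rw [mul_assoc, e1]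
  have g3 : Real.log X ^ 2 * (X * (2 * Real.log X / Real.log X ^ D')) ≤
      2 / 600 * (X / Real.log X ^ A) := by
    have e1 : Real.log X ^ (A + 4) ≤ Real.log X ^ D' := pow_le_pow_right₀ hL1 hD'
    calc Real.log X ^ 2 * (X * (2 * Real.log X / Real.log X ^ D')) ≤
        Real.log X ^ 2 * (X * (2 * Real.log X / Real.log X ^ (A + 4))) := by gcongr
      _ = 2 * (X / Real.log X ^ (A + 1)) := by
        have hne : Real.log X ≠ 0 := hL0.ne'
        rw [pow_succ, pow_succ (Real.log X) (A + 3), pow_succ (Real.log X) (A + 2),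
          pow_succ (Real.log X) (A + 1), pow_succ (Real.log X) A]
        field_simp
      _ ≤ 2 / 600 * (X / Real.log X ^ A) := by linarith
  have g4 : Real.log X ^ 2 * (X / Real.log X ^ (A + 3)) ≤ 1 / 600 * (X / Real.log X ^ A) := by
    calc Real.log X ^ 2 * (X / Real.log X ^ (A + 3)) = X / Real.log X ^ (A + 1) := by
          have hne : Real.log X ≠ 0 := hL0.ne'
          rw [pow_succ (Real.log X) (A + 2),
            pow_succ (Real.log X) (A + 1), pow_succ (Real.log X) A]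
          field_simp
      _ ≤ _ := g1
  have g5 : 12 * Real.log X ^ 2 *
        (4 * (X * (2 * Real.log X / Real.log X ^ D') + X / Real.log X ^ (A + 3))) =
      48 * (Real.log X ^ 2 * (X * (2 * Real.log X / Real.log X ^ D')) +
        Real.log X ^ 2 * (X / Real.log X ^ (A + 3))) := by ring
  rw [g5]
  nlinarith

end Pool.MP_dd84fd_nt.EM
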