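import Pool.Agent.Lib.MP_dd84fd_nt.EM.Defs
import Pool.Agent.Lib.MP_dd84fd_nt.T7.Fz2Basic
import Pool.Agent.Lib.MP_dd84fd_nt.LS.SpecBound
import Pool.Agent.Lib.MP_dd84fd_nt.LS.Four
import Pool.Agent.Lib.MP_dd84fd_nt.L2G.ClassAlg
import Pool.Agent.Lib.MP_dd84fd_nt.L2G.CvBasic
import Pool.Agent.Lib.MP_dd84fd_nt.L2G.Avg

/-!
# EM-ScG (0.7 h): from the mean square to the law `ξ`, one scale

Verbatim the proof of `T7.t7_scale_core` (`T7/T7ScaleCore.lean`, copy its private lemmas) for arbitrary `f, g, f', g'`: there `f = Sv`, `g = la`, `f' = snu`, `g' = nu`.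
`‖r_j‖ ≤ (VA f + VA g)/2 + (VA f' + VA g')/2`, averages: `≤ (Σ f² + Σ g² + Σ f'² + Σ g'²)/2 ≤ S`.
-/

set_option autoImplicit false

namespace Pool.MP_dd84fd_nt.EM

open Finset Pool.MP_67663b_nt.Odd Pool.MP_dd84fd_nt.En Pool.MP_dd84fd_nt.E2
open Pool.MP_dd84fd_nt.HX Pool.MP_dd84fd_nt.IX
open Pool.MP_dd84fd_nt.JX (ZJ DecJ Str wP gP)
open Pool.MP_dd84fd_nt.L2G (fz VA VQ MajQ MinorHyp Tc Jc cv av gr Se)
open Pool.MP_dd84fd_nt.T7 (Fz2)

private theorem ScG_av (N : ℕ) [NeZero N] (f : ℝ → ℝ) :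
    (1 / (N : ℝ)) * ∑ j : ZMod N, f ((j.val : ℝ) / N) = av N f := by
  have h : ∑ j : ZMod N, f ((j.val : ℝ) / N) = ∑ j ∈ range N, f ((j : ℝ) / N) := by
    refine Finset.sum_nbij' (i := fun j : ZMod N => j.val) (j := fun k : ℕ => (k : ZMod N))
      ?_ ?_ ?_ ?_ ?_
    · intro j _
      exact mem_range.mpr (ZMod.val_lt j)
    · intro k _
      exact mem_univ _
    · intro j _
      exact ZMod.natCast_zmod_val j
    · intro k hk
      exact ZMod.val_natCast_of_lt (mem_range.mp hk)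
    · intro j _
      rfl
  rw [h, av]
  ring

private theorem ScG_VA (N X q : ℕ) [NeZero q] (hN : X < N) (f : ℕ → ℝ) :
    av N (fun θ => VA X q f θ) = ∑ n ∈ Icc 1 X, f n ^ 2 := by
  unfold VA
  rw [Pool.MP_dd84fd_nt.L2G.av_sum, ← Finset.sum_fiberwise (Icc 1 X) (fun n : ℕ => (n : ZMod q)) (fun n => f n ^ 2)]
  refine Finset.sum_congr rfl fun b _ => ?_
  have h := Pool.MP_dd84fd_nt.L2G.parseval (N := N) ((Icc 1 X).filter (fun n : ℕ => (n : ZMod q) = b)) (fun n hn => by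
    have h1 := (Finset.mem_Icc.1 (Finset.mem_filter.1 hn).1).2
    omega) (fun n => (f n : ℂ))
  unfold fz
  rw [h]
  refine Finset.sum_congr rfl fun n _ => ?_
  rw [Complex.norm_real, Real.norm_eq_abs, sq_abs]

private theorem ScG_co (N : ℕ) [NeZero N] (s : Finset ℕ) (hs : ∀ m ∈ s, m < N) (u : ℕ → ℝ)
    (n : ℕ) (hn : n ∈ s) :
    Pool.MP_dd84fd_nt.LS.co N (fun j => ∑ m ∈ s, (u m : ℂ) * ZMod.stdAddChar ((m : ZMod N) * j)) n = (u n : ℂ) := by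
  have hN0 : (N : ℂ) ≠ 0 := by exact_mod_cast NeZero.ne N
  unfold Pool.MP_dd84fd_nt.LS.co
  have h1 : ∀ j ∈ (univ : Finset (ZMod N)),
      (∑ m ∈ s, (u m : ℂ) * ZMod.stdAddChar ((m : ZMod N) * j)) *
        ZMod.stdAddChar (-((n : ZMod N) * j)) =
      ∑ m ∈ s, (u m : ℂ) * ZMod.stdAddChar (((m : ZMod N) - (n : ZMod N)) * j) := by
    intro j _
    rw [Finset.sum_mul]
    refine Finset.sum_congr rfl (fun m _ => ?_)
    have : ((m : ZMod N) - (n : ZMod N)) * j = (m : ZMod N) * j + (-((n : ZMod N) * j)) := by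
      ring
    rw [this, AddChar.map_add_eq_mul]
    ring
  rw [Finset.sum_congr rfl h1, Finset.sum_comm, Finset.sum_eq_single n]
  · rw [← Finset.mul_sum, Pool.MP_dd84fd_nt.LS.sum_chi, if_pos (sub_self _)]
    field_simp
  · intro m hm hne
    rw [← Finset.mul_sum, Pool.MP_dd84fd_nt.LS.sum_chi, if_neg, mul_zero]
    intro h0
    exact hne (Pool.MP_dd84fd_nt.LS.cast_eq_small (hs m hm) (hs n hn) (sub_eq_zero.1 h0))
  · intro h
    exact absurd hn h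

private theorem ScG_VA_nonneg (X q : ℕ) [NeZero q] (f : ℕ → ℝ) (θ : ℝ) : 0 ≤ VA X q f θ := by
  unfold VA
  exact Finset.sum_nonneg fun b _ => sq_nonneg _

private theorem ScG_Fz2_le (X q : ℕ) [NeZero q] (f g : ℕ → ℝ) (θ : ℝ) (a : ZMod q) :
    ‖Fz2 X q f g θ a‖ ≤ (VA X q f θ + VA X q g θ) / 2 := by
  have h1 := Pool.MP_dd84fd_nt.T7.Fz2_sq X q f g θ a
  have h2 := ScG_VA_nonneg X q f θ
  have h3 := ScG_VA_nonneg X q g θ
  refine abs_le_of_sq_le_sq' ?_ (by linarith) |>.2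
  nlinarith [sq_nonneg (VA X q f θ - VA X q g θ)]

theorem scale_gen (Y q X N : ℕ) [NeZero q] [NeZero N] (hYX : Y ≤ X) (hXN : X < N)
    (hYN : 2 * Y < N) (f g f' g' : ℕ → ℝ) (S E : ℝ) (a : ZMod q)
    (hS : ∑ n ∈ Icc 1 Y, f n ^ 2 + ∑ n ∈ Icc 1 Y, g n ^ 2 + ∑ n ∈ Icc 1 Y, f' n ^ 2 +
      ∑ n ∈ Icc 1 Y, g' n ^ 2 ≤ 2 * S)
    (hE : ∑ n ∈ (range (2 * Y + 1)).filter (fun n : ℕ => (n : ZMod q) = a),
      (cv Y f g n - cv Y f' g' n) ^ 2 ≤ E)
    (ξ : ℕ → ℝ) (hξ : ∀ n, 0 ≤ ξ n) (hsum : ∑ n ∈ Icc 1 X, ξ n ≤ 1) (δ : ℝ) (hδ : 0 ≤ δ) :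
    ∑ n ∈ (Icc 1 Y).filter (fun n : ℕ => (n : ZMod q) = a),
      ξ n * (cv Y f g n - cv Y f' g' n) ^ 2 ≤
      δ * S ^ 2 + ((Pool.MP_dd84fd_nt.LS.spec N X ξ δ).card : ℝ) / N * E := by
  have hNr : (0 : ℝ) < N := by exact_mod_cast Nat.pos_of_ne_zero (NeZero.ne N)
  set u : ℕ → ℝ := fun n => cv Y f g n - cv Y f' g' n with hu
  set s : Finset ℕ := (range (2 * Y + 1)).filter (fun n : ℕ => (n : ZMod q) = a) with hs
  have hsN : ∀ m ∈ s, m < N := by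
    intro m hm
    have h1 := mem_range.1 (mem_filter.1 hm).1
    omega
  set r : ZMod N → ℂ := fun j => ∑ m ∈ s, (u m : ℂ) * ZMod.stdAddChar ((m : ZMod N) * j) with hr
  have hrF : ∀ j : ZMod N, r j =
      Fz2 Y q f g ((j.val : ℝ) / N) a - Fz2 Y q f' g' ((j.val : ℝ) / N) a := by
    intro j
    rw [hr]
    unfold Fz2
    rw [← sum_sub_distrib]
    refine sum_congr rfl fun n _ => ?_
    rw [Pool.MP_dd84fd_nt.LS.chi_ee, hu]
    push_cast
    ring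
  have hrS : ∀ j : ZMod N, r j = ∑ m ∈ s, (u m : ℂ) * ee (m * ((j.val : ℝ) / N)) := by
    intro j
    rw [hr]
    exact sum_congr rfl fun n _ => by rw [Pool.MP_dd84fd_nt.LS.chi_ee]
  -- L2
  have hr2 : (1 / (N : ℝ)) * ∑ j, ‖r j‖ ^ 2 ≤ E := by
    have h1 : ∀ j : ZMod N, ‖r j‖ ^ 2 =
        (fun θ : ℝ => ‖∑ m ∈ s, (u m : ℂ) * ee (m * θ)‖ ^ 2) ((j.val : ℝ) / N) := by
      intro j
      rw [hrS]
    have h2 := ScG_av N (fun θ : ℝ => ‖∑ m ∈ s, (u m : ℂ) * ee (m * θ)‖ ^ 2)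
    rw [sum_congr rfl fun j _ => h1 j, h2,
      Pool.MP_dd84fd_nt.L2G.parseval s hsN (fun m => (u m : ℂ))]
    refine le_trans (le_of_eq ?_) hE
    refine sum_congr rfl fun n _ => ?_
    rw [Complex.norm_real, Real.norm_eq_abs, sq_abs]
  -- L1
  have hr1 : (1 / (N : ℝ)) * ∑ j, ‖r j‖ ≤ S := by
    have h1 : ∑ j, ‖r j‖ ≤ ∑ j : ZMod N,
        (fun θ : ℝ => (VA Y q f θ + VA Y q g θ) * (1 / 2) +
          (VA Y q f' θ + VA Y q g' θ) * (1 / 2)) ((j.val : ℝ) / N) := by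
      refine sum_le_sum fun j _ => ?_
      rw [hrF]
      refine (norm_sub_le _ _).trans (add_le_add ?_ ?_)
      · exact (ScG_Fz2_le _ _ _ _ _ _).trans (le_of_eq (by ring))
      · exact (ScG_Fz2_le _ _ _ _ _ _).trans (le_of_eq (by ring))
    refine (mul_le_mul_of_nonneg_left h1 (by positivity)).trans ?_
    have e1 : (1 / (N : ℝ)) * ∑ j : ZMod N,
        (fun θ : ℝ => (VA Y q f θ + VA Y q g θ) * (1 / 2) +
          (VA Y q f' θ + VA Y q g' θ) * (1 / 2)) ((j.val : ℝ) / N) =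
        ((∑ n ∈ Icc 1 Y, f n ^ 2 + ∑ n ∈ Icc 1 Y, g n ^ 2) +
          (∑ n ∈ Icc 1 Y, f' n ^ 2 + ∑ n ∈ Icc 1 Y, g' n ^ 2)) * (1 / 2) := by
      rw [← ScG_VA N Y q (by omega) f, ← ScG_VA N Y q (by omega) g,
        ← ScG_VA N Y q (by omega) f', ← ScG_VA N Y q (by omega) g',
        ← ScG_av N (fun θ : ℝ => VA Y q f θ), ← ScG_av N (fun θ : ℝ => VA Y q g θ),
        ← ScG_av N (fun θ : ℝ => VA Y q f' θ), ← ScG_av N (fun θ : ℝ => VA Y q g' θ)]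
      rw [← mul_add, ← mul_add, ← mul_add, ← Finset.sum_add_distrib, ← Finset.sum_add_distrib,
        ← Finset.sum_add_distrib, mul_assoc, Finset.sum_mul]
      congr 1
      refine Finset.sum_congr rfl fun j _ => ?_
      ring
    rw [e1]
    linarith
  have hsb := Pool.MP_dd84fd_nt.LS.spec_bound N X ξ hξ hsum r δ hδ
  have hlow : ∑ n ∈ (Icc 1 Y).filter (fun n : ℕ => (n : ZMod q) = a), ξ n * u n ^ 2 ≤
      ∑ n ∈ Icc 1 X, ξ n * ‖Pool.MP_dd84fd_nt.LS.co N r n‖ ^ 2 := by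
    refine le_trans (Finset.sum_le_sum (g := fun n => ξ n * ‖Pool.MP_dd84fd_nt.LS.co N r n‖ ^ 2) ?_)
      (Finset.sum_le_sum_of_subset_of_nonneg ?_
        (fun n _ _ => mul_nonneg (hξ n) (sq_nonneg _)))
    · intro n hn
      rw [mem_filter, mem_Icc] at hn
      have hns : n ∈ s := by
        rw [hs, mem_filter, mem_range]
        exact ⟨by omega, hn.2⟩
      rw [hr, ScG_co N s hsN u n hns, Complex.norm_real, Real.norm_eq_abs, sq_abs]
    · intro n hn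
      rw [mem_filter, mem_Icc] at hn
      rw [mem_Icc]
      omega
  refine hlow.trans (hsb.trans ?_)
  refine add_le_add ?_ ?_
  · refine mul_le_mul_of_nonneg_left ?_ hδ
    exact pow_le_pow_left₀ (mul_nonneg (by positivity)
      (Finset.sum_nonneg fun j _ => norm_nonneg _)) hr1 2
  · exact mul_le_mul_of_nonneg_left hr2 (by positivity)

end Pool.MP_dd84fd_nt.EM
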