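import Pool.Agent.Lib.MP_dd84fd_nt.EM.L2B
import Pool.Agent.Lib.MP_dd84fd_nt.EM.ScG
import Pool.Agent.Lib.MP_dd84fd_nt.MX.MScale

/-!
# EM-Blk (1.2 h): one dyadic block

`hM : MajSet lo hi (fun _ => c) (fun _ => C) Ad bm` (MX/MScale).  Given `th ∈ (lo, hi)`: `hM.num th` gives `τ0, b, (b-1)² < 1 - c, b < C`; `hM.ex` gives `e, τ` with `Ad th e τ`, `τ ≤ τ0`; `AdE` from `hAE`.
`Bd` = max of the `Bd` of `l2_BB A`, `l2_PB A`; `B'` from `hM.dec Bd` (`B' ≥ 1`), `C2`; family `ww X = wty (kp B' X) X (bm th e τ B' X)`, `gg X = gty ...`: `W1 (2^24) (B'+3)` and `MajI` exactly as in the private lemmas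
`w1_ev`, `majI_ev` of `MX/MScale.lean` (copy); `D'` = max of the `D0`'s of `l2_BB`, `l2_PB`, `final_mb B' _ b δ` with `δ > 0`, `c ≤ 1 - (b-1)² - δ`, `b + δ ≤ C`.
For `Y` large and `n` even, `Y < 2 n`, `n ≤ Y`, `BadM c C n`: `final_mb` (its hypotheses: `hM.ty`, `hM.bd`, `NumMB`) shows `¬ (ClP ∧ Cl2)`, i.e. `(Y/L⁵)² < (cvv wP ww n - cvv p b n)²` or the same for `cvv ww ww - cvv b b`
(`SS n JJ n ≥ 0`).  `cvv f h n = cv Y f h n` for `n ≤ Y` (both are `Σ_{1 ≤ m < n} f m h(n-m)`; private lemma, see `T7Final_inner`).  So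
`Σ_{n ≤ Y, Y < 2n, even, Bad, n = a} ξ n ≤ (L⁵/Y)² (Σ ξ (..)² + Σ ξ (..)²)` and `scale_gen` twice with `S = Y L⁵` (`|wP| ≤ 1`, `|ww| ≤ 2^24`, `|p|, |b| ≤ L²/2`: all sums of squares `≤ Y L⁴/…`), `E = Y³/(q L^A)`.
(`L = log Y`.)  `fI gg X w n = gty .. n * f1 w n`: the functions in `ClP`, `Cl2` are definitionally these.
-/

set_option autoImplicit false

namespace Pool.MP_dd84fd_nt.EM

open Finset Pool.MP_67663b_nt.Odd Pool.MP_dd84fd_nt.En Pool.MP_dd84fd_nt.E2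
open Pool.MP_dd84fd_nt.HX Pool.MP_dd84fd_nt.IX
open Pool.MP_dd84fd_nt.JX (ZJ DecJ Str wP gP)
open Pool.MP_dd84fd_nt.L2G (fz VA VQ MajQ MinorHyp Tc Jc cv av gr Se)
open Pool.MP_dd84fd_nt.T7 (Fz2)

open Pool.MP_dd84fd_nt.MX (MajSet BadM)

open Pool.MP_dd84fd_nt.MX (NumMB TyMB final_mb)
open Pool.MP_dd84fd_nt.LX (ClP Cl2)

private theorem w1_ev (B' K0 : ℕ) (hK : 1 ≤ K0) (W : ℕ → Finset ℕ → ℝ) (X1 : ℕ)
    (hW : ∀ X, X1 ≤ X → ∀ T, |W X T| ≤ K0) :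
    W1 K0 (B' + 3) (fun X => IY.wty (IY.kp B' X) X (W X))
      (fun X => IY.gty (IY.kp B' X) X (W X)) := by
  obtain ⟨X0, h⟩ := IY.w1_i B' K0 hK (fun X => if X1 ≤ X then W X else fun _ => 0) (by
    intro X T
    by_cases hX : X1 ≤ X
    · simp only [hX, if_true]
      exact hW X hX T
    · simp only [hX, if_false, abs_zero]
      exact Nat.cast_nonneg _)
  refine ⟨max X0 X1, fun X hX => ?_⟩
  have h1 := h X ((le_max_left _ _).trans hX)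
  have h2 : X1 ≤ X := (le_max_right _ _).trans hX
  simp only [h2, if_true] at h1
  exact h1

private theorem majI_ev (B' K0 : ℕ) (W : ℕ → Finset ℕ → ℝ) (X1 : ℕ)
    (hW : ∀ X, X1 ≤ X → ∀ T, |W X T| ≤ K0) :
    MajI (fun X => IY.wty (IY.kp B' X) X (W X))
      (fun X => IY.gty (IY.kp B' X) X (W X)) := by
  have h0 := IY.majI_i B' K0 (fun X => if X1 ≤ X then W X else fun _ => 0) (by
    intro X T
    by_cases hX : X1 ≤ X
    · simp only [hX, if_true]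
      exact hW X hX T
    · simp only [hX, if_false, abs_zero]
      exact Nat.cast_nonneg _)
  intro A B
  obtain ⟨D0, h⟩ := h0 A B
  refine ⟨D0, fun D' hD' => ?_⟩
  obtain ⟨X0, h⟩ := h D' hD'
  refine ⟨max X0 X1, fun X hX θ hθ => ?_⟩
  have h1 := h X ((le_max_left _ _).trans hX) θ hθ
  have h2 : X1 ≤ X := (le_max_right _ _).trans hX
  unfold WI fI at h1 ⊢
  simp only [h2, if_true] at h1
  exact h1

private theorem ls_JJ (n : ℕ) : 0 ≤ JJ n := by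
  unfold JJ
  refine Finset.sum_nonneg fun m _ => ?_
  exact div_nonneg zero_le_one (mul_nonneg (Real.log_natCast_nonneg _) (Real.log_natCast_nonneg _))

private theorem ls_SJ (n : ℕ) : 0 ≤ SS n * JJ n := by
  have s1 : 2 * Pool.MP_dd84fd_nt.En.C2 ≤ SS n := SS_ge n
  have s2 : 0 < Pool.MP_dd84fd_nt.En.C2 := C2_pos
  exact mul_nonneg (by linarith) (ls_JJ n)

private theorem em_inner (X n : ℕ) (c : ℕ → ℝ) (m : ℕ) :
    (∑ k ∈ Icc 1 X, if m + k = n then c k else 0) =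
      if m ≤ n ∧ n - m ∈ Icc 1 X then c (n - m) else 0 := by
  by_cases h : m ≤ n ∧ n - m ∈ Icc 1 X
  · rw [if_pos h, sum_eq_single (n - m)]
    · rw [if_pos (by omega)]
    · intro k _ hk
      rw [if_neg (by omega)]
    · intro hk
      exact absurd h.2 hk
  · rw [if_neg h]
    refine sum_eq_zero fun k hk => ?_
    rw [if_neg]
    intro hmk
    apply h
    refine ⟨by omega, ?_⟩
    have : n - m = k := by omega
    rw [this]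
    exact hk

private theorem cv_cvv (Y n : ℕ) (hn : n ≤ Y) (f h : ℕ → ℝ) : cv Y f h n = cvv f h n := by
  unfold cv cvv
  have h1 : ∀ m ∈ Icc 1 Y, (∑ k ∈ Icc 1 Y, if m + k = n then f m * h k else 0) =
      if m ∈ Icc 1 (n - 1) then f m * h (n - m) else 0 := by
    intro m hm
    rw [em_inner Y n (fun k => f m * h k) m]
    have hm1 := (mem_Icc.1 hm).1
    have hiff : (m ≤ n ∧ n - m ∈ Icc 1 Y) ↔ m ∈ Icc 1 (n - 1) := by
      rw [mem_Icc, mem_Icc]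
      constructor
      · rintro ⟨a1, a2, a3⟩
        omega
      · rintro ⟨a1, a2⟩
        omega
    by_cases hc : m ∈ Icc 1 (n - 1)
    · rw [if_pos (hiff.2 hc), if_pos hc]
    · rw [if_neg (fun h' => hc (hiff.1 h')), if_neg hc]
  rw [Finset.sum_congr rfl h1, Finset.sum_ite_mem]
  refine Finset.sum_congr ?_ fun _ _ => rfl
  ext m
  rw [mem_inter, mem_Icc, mem_Icc]
  omega

private theorem em_sq (Y : ℕ) (f : ℕ → ℝ) (M : ℝ) (h : ∀ n, |f n| ≤ M) :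
    ∑ n ∈ Icc 1 Y, f n ^ 2 ≤ Y * M ^ 2 := by
  have h1 : ∀ n ∈ Icc 1 Y, f n ^ 2 ≤ M ^ 2 := by
    intro n _
    rw [← sq_abs]
    exact pow_le_pow_left₀ (abs_nonneg _) (h n) 2
  refine (Finset.sum_le_sum h1).trans (le_of_eq ?_)
  rw [Finset.sum_const, Nat.card_Icc, nsmul_eq_mul]
  simp

theorem em_blk (hS : StrE) (lo hi c C : ℝ) (Ad : ℝ → ℝ → ℝ → Prop)
    (bm : ℝ → ℝ → ℝ → ℕ → ℕ → Finset ℕ → ℝ)
    (hM : MajSet lo hi (fun _ => c) (fun _ => C) Ad bm)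
    (hAE : ∀ th e τ : ℝ, Ad th e τ → AdE th e τ) (th : ℝ) (h1 : lo < th) (h2 : th < hi)
    (A K : ℕ) : ∃ Y0 : ℕ, ∀ Y : ℕ, Y0 ≤ Y → ∀ (X N : ℕ) [NeZero N], Y ≤ X → X < N → 2 * Y < N →
    ∀ ξ : ℕ → ℝ, (∀ n, 0 ≤ ξ n) → ∑ n ∈ Icc 1 X, ξ n ≤ 1 → ∀ δ : ℝ, 0 ≤ δ →
    ∀ (q : ℕ) [NeZero q], (q : ℝ) ≤ (Y : ℝ) ^ (1 - th) → ∀ a : ZMod q,
    (Nat.gcd a.val q : ℝ) ≤ Real.log Y ^ K → ∀ P : ℕ → Prop, ∀ _ : DecidablePred P,
    (∀ n, P n → Even n ∧ BadM c C n ∧ Y < 2 * n ∧ (n : ZMod q) = a) →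
    ∑ n ∈ (Icc 1 Y).filter P, ξ n ≤ 2 * (Real.log Y ^ 10 / (Y : ℝ) ^ 2) *
      (δ * (Y * Real.log Y ^ 5) ^ 2 +
        ((Pool.MP_dd84fd_nt.LS.spec N X ξ δ).card : ℝ) / N * (Y ^ 3 / (q * Real.log Y ^ A))) := by
  classical
  obtain ⟨Bd1, hB1⟩ := l2_BB hS A
  obtain ⟨Bd2, hB2⟩ := l2_PB hS A
  obtain ⟨B01, hd1⟩ := hM.dec Bd1
  obtain ⟨B02, hd2⟩ := hM.dec Bd2
  obtain ⟨B', hb1', hb2', hB'1⟩ : ∃ B' : ℕ, B01 ≤ B' ∧ B02 ≤ B' ∧ 1 ≤ B' :=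
    ⟨max (max B01 B02) 1, by omega, by omega, by omega⟩
  obtain ⟨Cs1, hCs1⟩ := hd1 B' hb1'
  obtain ⟨Cs2, hCs2⟩ := hd2 B' hb2'
  obtain ⟨τ0, b, hτ0, hb1, hu, hu2, hnum⟩ := hM.num th h1 h2
  obtain ⟨e, τ, hAK, t1⟩ := hM.ex th h1 h2 τ0 hτ0
  have hE : AdE th e τ := hAE th e τ hAK
  have dec1 := hCs1 th e τ hAK
  have dec2 := hCs2 th e τ hAK
  obtain ⟨Xb, hXb⟩ := hM.bd th e τ hAK B'
  have bB : ∀ X : ℕ, Xb ≤ X → ∀ T : Finset ℕ, |bm th e τ B' X T| ≤ ((2 ^ 24 : ℕ) : ℝ) :=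
    fun X hX T => (hXb X hX T).trans (by norm_num)
  have hwB := w1_ev B' (2 ^ 24) (by norm_num) (fun X => bm th e τ B' X) Xb bB
  have hmB := majI_ev B' (2 ^ 24) (fun X => bm th e τ B' X) Xb bB
  obtain ⟨D1, hD1⟩ := hB1 (2 ^ 24) (B' + 3) Cs1 K th e τ hE _ _ hwB dec1 hmB
  obtain ⟨D2, hD2⟩ := hB2 (2 ^ 24) (B' + 3) Cs2 K th e τ hE _ _ hwB dec2 hmB
  obtain ⟨δ0, hδ0, hab, hab2⟩ : ∃ δ0 : ℝ, 0 < δ0 ∧ (b - 1) ^ 2 + δ0 ≤ 1 - c ∧ b + δ0 ≤ C := by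
    refine ⟨min (1 - c - (b - 1) ^ 2) (C - b), lt_min (by linarith) (by linarith), ?_, ?_⟩
    · have := min_le_left (1 - c - (b - 1) ^ 2) (C - b)
      linarith
    · have := min_le_right (1 - c - (b - 1) ^ 2) (C - b)
      linarith
  obtain ⟨D5, hD5⟩ := final_mb B' hB'1 b δ0 hδ0 hb1
  obtain ⟨D', hD'⟩ : ∃ D' : ℕ, D' = max D1 (max D2 D5) := ⟨_, rfl⟩
  obtain ⟨Y1, y1⟩ := hD1 D' (by rw [hD']; omega)
  obtain ⟨Y2, y2⟩ := hD2 D' (by rw [hD']; omega)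
  obtain ⟨Y5, y5⟩ := hD5 D' (by rw [hD']; omega)
  obtain ⟨Y6, y6⟩ := hnum e τ hAK t1 B' hB'1
  obtain ⟨Y7, y7⟩ := hM.ty th e τ hAK B' hB'1
  obtain ⟨Y8, y8⟩ := MP_log_large (2 ^ 20)
  obtain ⟨Y9, y9⟩ := f1_le D'
  obtain ⟨Y10, y10⟩ := hwB
  obtain ⟨Y11, y11⟩ := JX.w1P
  refine ⟨max (max Y1 Y2) (max (max Y5 Y6) (max (max Y7 Y8) (max (max Y9 Xb)
    (max (max Y10 Y11) 1)))), fun Y hY X N _ hYX hXN hYN ξ hξ hsum δ hδ q _ hq a hgcd P _ hP => ?_⟩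
  simp only [max_le_iff] at hY
  obtain ⟨⟨r1, r2⟩, ⟨r5, r6⟩, ⟨r7, r8⟩, ⟨r9, rb⟩, ⟨r10, r11⟩, r0⟩ := hY
  have hL : (2 ^ 20 : ℝ) ≤ Real.log (Y : ℝ) := y8 Y r8
  have hL0 : 0 < Real.log (Y : ℝ) := lt_of_lt_of_le (by norm_num) hL
  have hY0 : (0 : ℝ) < Y := by exact_mod_cast (by omega : 0 < Y)
  have hw : ((wX D' Y : ℕ) : ℝ) ≤ Real.log Y ^ D' := by
    unfold wX
    exact Nat.floor_le (by positivity)
  have hf1 : ∀ n, |f1 (wX D' Y) n| ≤ Real.log Y := by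
    intro n
    rw [abs_of_nonneg (f1_nonneg _ _)]
    exact (y9 Y r9 _ hw).2 n
  set ww : ℕ → ℕ → ℝ := fun X => IY.wty (IY.kp B' X) X (bm th e τ B' X) with hww
  set gg : ℕ → ℕ → ℝ := fun X => IY.gty (IY.kp B' X) X (bm th e τ B' X) with hgg
  have hw1 := (y10 Y r10).1
  have hp1 := (y11 Y r11).1
  have bww : ∀ n, |ww Y n| ≤ 2 ^ 24 * Real.log Y := by
    intro n
    have k1 := (hw1 n).1
    have k2 := (rg_nonneg (zI Y) n).2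
    have k3 := (rg_nonneg (zI Y) n).1
    have k4 : (1 : ℝ) ≤ Real.log Y := by linarith
    calc |ww Y n| ≤ ((2 ^ 24 : ℕ) : ℝ) * rg (zI Y) n := k1
      _ ≤ ((2 ^ 24 : ℕ) : ℝ) * 1 := mul_le_mul_of_nonneg_left k2 (Nat.cast_nonneg _)
      _ ≤ 2 ^ 24 * Real.log Y := by
        push_cast
        nlinarith
  have bwp : ∀ n, |wP Y n| ≤ 2 ^ 24 * Real.log Y := by
    intro n
    have k1 := (hp1 n).1
    have k2 := (rg_nonneg (zI Y) n).2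
    have k3 := (rg_nonneg (zI Y) n).1
    have k4 : (1 : ℝ) ≤ Real.log Y := by linarith
    calc |wP Y n| ≤ ((2 : ℕ) : ℝ) * rg (zI Y) n := k1
      _ ≤ ((2 : ℕ) : ℝ) * 1 := mul_le_mul_of_nonneg_left k2 (Nat.cast_nonneg _)
      _ ≤ 2 ^ 24 * Real.log Y := by
        push_cast
        nlinarith
  have bfg : ∀ n, |fI gg Y (wX D' Y) n| ≤ 2 ^ 24 * Real.log Y := by
    intro n
    unfold fI
    rw [abs_mul]
    have k1 : |gg Y n| ≤ 2 ^ 24 := (hw1 n).2.trans (le_of_eq (by norm_num))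
    exact mul_le_mul k1 (hf1 n) (abs_nonneg _) (by norm_num)
  have bfp : ∀ n, |fI gP Y (wX D' Y) n| ≤ 2 ^ 24 * Real.log Y := by
    intro n
    unfold fI
    rw [abs_mul]
    have k1 : |gP Y n| ≤ ((2 : ℕ) : ℝ) := (hp1 n).2
    push_cast at k1
    exact mul_le_mul (k1.trans (by norm_num)) (hf1 n) (abs_nonneg _) (by norm_num)
  have hSS : ∀ f g f' g' : ℕ → ℝ, (∀ n, |f n| ≤ 2 ^ 24 * Real.log Y) →
      (∀ n, |g n| ≤ 2 ^ 24 * Real.log Y) → (∀ n, |f' n| ≤ 2 ^ 24 * Real.log Y) →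
      (∀ n, |g' n| ≤ 2 ^ 24 * Real.log Y) →
      ∑ n ∈ Icc 1 Y, f n ^ 2 + ∑ n ∈ Icc 1 Y, g n ^ 2 + ∑ n ∈ Icc 1 Y, f' n ^ 2 +
      ∑ n ∈ Icc 1 Y, g' n ^ 2 ≤ 2 * (Y * Real.log Y ^ 5) := by
    intro f g f' g' u1 u2 u3 u4
    have v1 := em_sq Y f _ u1
    have v2 := em_sq Y g _ u2
    have v3 := em_sq Y f' _ u3
    have v4 := em_sq Y g' _ u4
    have v5 : 4 * ((Y : ℝ) * (2 ^ 24 * Real.log Y) ^ 2) ≤ 2 * (Y * Real.log Y ^ 5) := by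
      have v6 : (2 : ℝ) ^ 49 ≤ Real.log Y ^ 3 := by
        have v7 : ((2 : ℝ) ^ 20) ^ 3 ≤ Real.log Y ^ 3 := pow_le_pow_left₀ (by positivity) hL 3
        refine le_trans ?_ v7
        norm_num
      have v8 : 0 ≤ (Y : ℝ) * Real.log Y ^ 2 := by positivity
      have v9 := mul_le_mul_of_nonneg_left v6 v8
      have v10 : 4 * ((Y : ℝ) * (2 ^ 24 * Real.log Y) ^ 2) =
          2 * (Y * Real.log Y ^ 2 * 2 ^ 49) := by ring
      rw [v10]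
      have v11 : 2 * ((Y : ℝ) * Real.log Y ^ 5) = 2 * (Y * Real.log Y ^ 2 * Real.log Y ^ 3) := by
        ring
      rw [v11]
      linarith
    linarith
  have sB := scale_gen Y q X N hYX hXN hYN (ww Y) (ww Y) (fI gg Y (wX D' Y)) (fI gg Y (wX D' Y))
    (Y * Real.log Y ^ 5) (Y ^ 3 / (q * Real.log Y ^ A)) a (hSS _ _ _ _ bww bww bfg bfg)
    (y1 Y r1 q hq a hgcd) ξ hξ hsum δ hδ
  have sP := scale_gen Y q X N hYX hXN hYN (wP Y) (ww Y) (fI gP Y (wX D' Y)) (fI gg Y (wX D' Y))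
    (Y * Real.log Y ^ 5) (Y ^ 3 / (q * Real.log Y ^ A)) a (hSS _ _ _ _ bwp bww bfp bfg)
    (y2 Y r2 q hq a hgcd) ξ hξ hsum δ hδ
  have hpt : ∀ n ∈ (Icc 1 Y).filter P, ξ n ≤ Real.log Y ^ 10 / (Y : ℝ) ^ 2 *
      (ξ n * (cv Y (wP Y) (ww Y) n - cv Y (fI gP Y (wX D' Y)) (fI gg Y (wX D' Y)) n) ^ 2 +
       ξ n * (cv Y (ww Y) (ww Y) n - cv Y (fI gg Y (wX D' Y)) (fI gg Y (wX D' Y)) n) ^ 2) := by
    intro n hn
    rw [mem_filter, mem_Icc] at hn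
    obtain ⟨⟨n1, n2⟩, hPn⟩ := hn
    obtain ⟨n3, n4, n5, _⟩ := hP n hPn
    rw [cv_cvv Y n n2, cv_cvv Y n n2, cv_cvv Y n n2, cv_cvv Y n n2]
    set DP : ℝ := cvv (wP Y) (ww Y) n - cvv (fI gP Y (wX D' Y)) (fI gg Y (wX D' Y)) n with hDP
    set DB : ℝ := cvv (ww Y) (ww Y) n - cvv (fI gg Y (wX D' Y)) (fI gg Y (wX D' Y)) n with hDB
    have hbig : ((Y : ℝ) / Real.log Y ^ 5) ^ 2 ≤ DP ^ 2 + DB ^ 2 := by
      by_contra hcon
      have hcon := not_le.1 hcon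
      have hq0 : 0 ≤ (Y : ℝ) / Real.log Y ^ 5 := by positivity
      have qP : ClP B' D' Y (bm th e τ B' Y) n := by
        have : |DP| ≤ (Y : ℝ) / Real.log Y ^ 5 := by
          refine abs_le_of_sq_le_sq ?_ hq0
          have := sq_nonneg DB
          linarith
        exact this
      have qB : Cl2 B' D' Y (bm th e τ B' Y) (bm th e τ B' Y) n := by
        have : |DB| ≤ (Y : ℝ) / Real.log Y ^ 5 := by
          refine abs_le_of_sq_le_sq ?_ hq0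
          have := sq_nonneg DP
          linarith
        exact this
      obtain ⟨g1, g2⟩ := y5 Y r5 (bm th e τ B' Y) (y7 Y r7) (fun T => hXb Y rb T)
        (fun m hm hmX => y6 Y r6 m hm hmX) n n5 n2 n3 qP qB
      have hSJ := ls_SJ n
      have g3 : c * (SS n * JJ n) ≤ g n :=
        (mul_le_mul_of_nonneg_right (by linarith) hSJ).trans g1
      have g4 : (g n : ℝ) ≤ C * (SS n * JJ n) :=
        g2.trans (mul_le_mul_of_nonneg_right (by linarith) hSJ)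
      rcases n4 with n4 | n4
      · exact absurd n4 (not_lt.2 g3)
      · exact absurd n4 (not_lt.2 g4)
    have h5 : (1 : ℝ) ≤ Real.log Y ^ 10 / (Y : ℝ) ^ 2 * (DP ^ 2 + DB ^ 2) := by
      have h6 : (1 : ℝ) = Real.log Y ^ 10 / (Y : ℝ) ^ 2 * ((Y : ℝ) / Real.log Y ^ 5) ^ 2 := by
        field_simp
      rw [h6]
      exact mul_le_mul_of_nonneg_left hbig (by positivity)
    have h7 := mul_le_mul_of_nonneg_left h5 (hξ n)
    have h8 : ξ n * (Real.log Y ^ 10 / (Y : ℝ) ^ 2 * (DP ^ 2 + DB ^ 2)) =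
        Real.log Y ^ 10 / (Y : ℝ) ^ 2 * (ξ n * DP ^ 2 + ξ n * DB ^ 2) := by ring
    linarith
  refine (Finset.sum_le_sum hpt).trans ?_
  rw [← Finset.mul_sum, Finset.sum_add_distrib]
  have hsub : (Icc 1 Y).filter P ⊆ (Icc 1 Y).filter (fun n : ℕ => (n : ZMod q) = a) := by
    intro n hn
    rw [mem_filter] at hn ⊢
    exact ⟨hn.1, (hP n hn.2).2.2.2⟩
  have w1 : ∑ n ∈ (Icc 1 Y).filter P, ξ n *
      (cv Y (wP Y) (ww Y) n - cv Y (fI gP Y (wX D' Y)) (fI gg Y (wX D' Y)) n) ^ 2 ≤ _ :=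
    (Finset.sum_le_sum_of_subset_of_nonneg hsub
      (fun n _ _ => mul_nonneg (hξ n) (sq_nonneg _))).trans sP
  have w2 : ∑ n ∈ (Icc 1 Y).filter P, ξ n *
      (cv Y (ww Y) (ww Y) n - cv Y (fI gg Y (wX D' Y)) (fI gg Y (wX D' Y)) n) ^ 2 ≤ _ :=
    (Finset.sum_le_sum_of_subset_of_nonneg hsub
      (fun n _ _ => mul_nonneg (hξ n) (sq_nonneg _))).trans sB
  have w3 : 0 ≤ Real.log Y ^ 10 / (Y : ℝ) ^ 2 := by positivity
  refine (mul_le_mul_of_nonneg_left (add_le_add w1 w2) w3).trans (le_of_eq ?_)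
  ring

end Pool.MP_dd84fd_nt.EM
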