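import Pool.Agent.Lib.MP_dd84fd_nt.EM.L2B
import Pool.Agent.Lib.MP_dd84fd_nt.EM.ScG
import Pool.Agent.Lib.MP_dd84fd_nt.LX.LScale

/-!
# EM-BlkL (1.4 h): one dyadic block for the sieve of Theorem L

The twin of EM-Blk (read its header) with the minorant and the majorant of Theorem L.  `1/5 ≤ θ < th < 1/3`: `NumL k` at `th` gives `τ0, a, b` with `(1-a)² < k (1-3th)³`, `(1-a)(b-1) < k (1-3th)³` and `NumLA th e τ a b` for `AdmX th e τ`,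
`τ ≤ τ0`; choose `e, τ` with `AdmX th e τ`, `τ ≤ τ0` as in `LX.scaleL` (`LX/LScale.lean`; the whole proof is the template: `decL`, `bdL`, `tyL`, the private lemmas for `W1`, `MajI`).  Families: `A = amL`, `B = bmL` and `A + B`
(third part of `decL`; `wty (A + B) = wty A + wty B`, `gty` likewise).  `B'` with `decL Bd`; constants `2^24` as there.
`l2_PB` for `A` and `B`; `l2_BB` for `A`, `B`, `A + B`; `cv` is bilinear: `2 (cv A B - cv a b) = (cv (A+B)(A+B) - cv (a+b)(a+b)) - (cv A A - cv a a) - (cv B B - cv b b)`, so its mean square is at most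
`(3/4) (sum of the three)` and `scale_gen` can be applied to the three separately.
For `n` even, `Y < 2n ≤ 2Y`, `BadL k θ n` (hence `BadL k th n`: `(1-3th)³ ≤ (1-3θ)³`, `SS n * JJ n ≥ 0`): `LX.final_l B' _ a b δ` shows that one of `ClP A`, `ClP B`, `Cl2 A A`, `Cl2 A B` fails; `Cl2 A B` failing means that one of the three
differences above is `> Y/(2 L⁵)` (`2/3 > 1/2`).  So every such `n` has `1 ≤ (4 L^10/Y²) (sum of the five squares)`, and the total is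
`≤ (4 L^10/Y²) 5 (δ (Y L⁵)² + ...) ≤ (L^11/Y²) (...)`.
-/

set_option autoImplicit false

namespace Pool.MP_dd84fd_nt.EM

open Finset Pool.MP_67663b_nt.Odd Pool.MP_dd84fd_nt.En Pool.MP_dd84fd_nt.E2
open Pool.MP_dd84fd_nt.HX Pool.MP_dd84fd_nt.IX
open Pool.MP_dd84fd_nt.JX (ZJ DecJ Str wP gP)
open Pool.MP_dd84fd_nt.L2G (fz VA VQ MajQ MinorHyp Tc Jc cv av gr Se)
open Pool.MP_dd84fd_nt.T7 (Fz2)

open Pool.MP_dd84fd_nt.LX (BadL NumL)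

/-! ### private helpers -/

private theorem bkl_w1 (B' K0 : ℕ) (hK : 1 ≤ K0) (W : ℕ → Finset ℕ → ℝ) (X1 : ℕ)
    (hW : ∀ X, X1 ≤ X → ∀ T, |W X T| ≤ K0) :
    W1 K0 (B' + 3) (fun X => IY.wty (IY.kp B' X) X (W X))
      (fun X => IY.gty (IY.kp B' X) X (W X)) := by
  classical
  obtain ⟨X0, h⟩ := IY.w1_i B' K0 hK (fun X => if X1 ≤ X then W X else fun _ => 0) (by
    intro X T
    by_cases hX : X1 ≤ X
    · simp only [hX, if_true]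
      exact hW X hX T
    · simp only [hX, if_false, abs_zero]
      exact Nat.cast_nonneg _)
  refine ⟨max X0 X1, fun X hX => ?_⟩
  have h1 := h X ((le_max_left _ _).trans hX)
  have h2 : X1 ≤ X := (le_max_right _ _).trans hX
  simp only [h2, if_true] at h1
  exact h1

private theorem bkl_maj (B' K0 : ℕ) (W : ℕ → Finset ℕ → ℝ) (X1 : ℕ)
    (hW : ∀ X, X1 ≤ X → ∀ T, |W X T| ≤ K0) :
    MajI (fun X => IY.wty (IY.kp B' X) X (W X))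
      (fun X => IY.gty (IY.kp B' X) X (W X)) := by
  classical
  have h0 := IY.majI_i B' K0 (fun X => if X1 ≤ X then W X else fun _ => 0) (by
    intro X T
    by_cases hX : X1 ≤ X
    · simp only [hX, if_true]
      exact hW X hX T
    · simp only [hX, if_false, abs_zero]
      exact Nat.cast_nonneg _)
  intro A B
  obtain ⟨D0, h⟩ := h0 A B
  refine ⟨D0, fun D' hD' => ?_⟩
  obtain ⟨X0, h⟩ := h D' hD'
  refine ⟨max X0 X1, fun X hX θ hθ => ?_⟩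
  have h1 := h X ((le_max_left _ _).trans hX) θ hθ
  have h2 : X1 ≤ X := (le_max_right _ _).trans hX
  unfold WI fI at h1 ⊢
  simp only [h2, if_true] at h1
  exact h1

private theorem bkl_SJ (n : ℕ) : 0 ≤ SS n * JJ n := by
  have s1 : 2 * Pool.MP_dd84fd_nt.En.C2 ≤ SS n := SS_ge n
  have s2 : 0 < Pool.MP_dd84fd_nt.En.C2 := C2_pos
  refine mul_nonneg (by linarith) ?_
  unfold JJ
  refine Finset.sum_nonneg fun m _ => ?_
  exact div_nonneg zero_le_one (mul_nonneg (Real.log_natCast_nonneg _) (Real.log_natCast_nonneg _))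

private theorem bkl_cv (Y n : ℕ) (hn : n ≤ Y) (f h : ℕ → ℝ) : cvv f h n = cv Y f h n := by
  unfold cvv cv
  have h1 : ∀ m ∈ Icc 1 Y, (∑ k ∈ Icc 1 Y, if m + k = n then f m * h k else 0) =
      if m ∈ Icc 1 (n - 1) then f m * h (n - m) else 0 := by
    intro m hm
    rw [mem_Icc] at hm
    by_cases hc : m ∈ Icc 1 (n - 1)
    · rw [if_pos hc]
      rw [mem_Icc] at hc
      rw [sum_eq_single (n - m)]
      · rw [if_pos (by omega)]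
      · intro k _ hk
        rw [if_neg (by omega)]
      · intro hk
        exfalso
        apply hk
        rw [mem_Icc]
        omega
    · rw [if_neg hc]
      rw [mem_Icc] at hc
      refine sum_eq_zero fun k hk => ?_
      rw [mem_Icc] at hk
      rw [if_neg]
      intro hmk
      apply hc
      omega
  rw [sum_congr rfl h1, ← sum_filter]
  refine sum_congr ?_ fun _ _ => rfl
  ext m
  rw [mem_filter, mem_Icc, mem_Icc]
  omega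

private theorem bkl_wty (κ : ℝ) (X : ℕ) (V W : Finset ℕ → ℝ) (n : ℕ) :
    IY.wty κ X (fun T => V T + W T) n = IY.wty κ X V n + IY.wty κ X W n := by
  unfold IY.wty
  split_ifs
  · rfl
  · rw [add_zero]

private theorem bkl_gty (κ : ℝ) (X : ℕ) (V W : Finset ℕ → ℝ) (n : ℕ) :
    IY.gty κ X (fun T => V T + W T) n = IY.gty κ X V n + IY.gty κ X W n := by
  unfold IY.gty
  split_ifs
  · rw [← sum_add_distrib]
    refine sum_congr rfl fun k _ => ?_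
    unfold IY.vty
    split_ifs
    · rw [add_div]
    · rw [zero_div, add_zero]
  · rw [add_zero]

/-- expansion of the square -/
private theorem bkl_sq (f h : ℕ → ℝ) (n : ℕ) :
    cvv (fun m => f m + h m) (fun m => f m + h m) n = cvv f f n + 2 * cvv f h n + cvv h h n := by
  have h1 : cvv (fun m => f m + h m) (fun m => f m + h m) n =
      cvv f f n + cvv f h n + cvv h f n + cvv h h n := by
    unfold cvv
    rw [← sum_add_distrib, ← sum_add_distrib, ← sum_add_distrib]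
    exact sum_congr rfl fun m _ => by ring
  rw [h1, Pool.MP_dd84fd_nt.LX.cvv_comm h f]
  ring

/-- sums of squares of a family and its model -/
private theorem bkl_l2 (K0 C1 : ℕ) (ww gg : ℕ → ℕ → ℝ) (hW : W1 K0 C1 ww gg) (D' : ℕ) :
    ∃ X0 : ℕ, ∀ X : ℕ, X0 ≤ X → ∑ n ∈ Icc 1 X, ww X n ^ 2 ≤ X * Real.log X ^ 5 / 2 ∧
      ∑ n ∈ Icc 1 X, fI gg X (wX D' X) n ^ 2 ≤ X * Real.log X ^ 5 / 2 := by
  obtain ⟨X1, hX1⟩ := hW
  obtain ⟨X2, hX2⟩ := f1_le D'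
  obtain ⟨X3, hX3⟩ := MP_log_large (2 * (K0 : ℝ) ^ 2 + 2)
  refine ⟨max X1 (max X2 X3), fun X hX => ?_⟩
  simp only [max_le_iff] at hX
  obtain ⟨p1, -⟩ := hX1 X hX.1
  have hL := hX3 X hX.2.2
  have hL1 : 1 ≤ Real.log X := by nlinarith [sq_nonneg (K0 : ℝ)]
  have hw : ((wX D' X : ℕ) : ℝ) ≤ (Real.log X) ^ D' := by
    unfold wX
    exact Nat.floor_le (pow_nonneg (by linarith) D')
  obtain ⟨-, q2⟩ := hX2 X hX.2.1 _ hw
  have hK0 : (0 : ℝ) ≤ K0 := Nat.cast_nonneg _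
  have e1 : ∀ n, ww X n ^ 2 ≤ (K0 : ℝ) ^ 2 := by
    intro n
    rw [← sq_abs]
    refine pow_le_pow_left₀ (abs_nonneg _) ((p1 n).1.trans ?_) 2
    have : rg (zI X) n ≤ 1 := by
      unfold rg
      split_ifs <;> norm_num
    calc (K0 : ℝ) * rg (zI X) n ≤ K0 * 1 := mul_le_mul_of_nonneg_left this hK0
      _ = K0 := mul_one _
  have e2 : ∀ n, fI gg X (wX D' X) n ^ 2 ≤ (K0 : ℝ) ^ 2 * Real.log X ^ 2 := by
    intro n
    have f0 : 0 ≤ f1 (wX D' X) n := by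
      unfold f1
      split_ifs
      · positivity
      · exact le_rfl
    unfold fI
    rw [mul_pow, ← sq_abs (gg X n)]
    exact mul_le_mul (pow_le_pow_left₀ (abs_nonneg _) (p1 n).2 2)
      (pow_le_pow_left₀ f0 (q2 n) 2) (sq_nonneg _) (sq_nonneg _)
  have hXn : (0 : ℝ) ≤ X := Nat.cast_nonneg _
  have hc : ∀ c : ℝ, ∑ _n ∈ Icc 1 X, c = X * c := fun c => by
    rw [sum_const, Nat.card_Icc, nsmul_eq_mul, Nat.add_sub_cancel]
  have g1 : (K0 : ℝ) ^ 2 ≤ Real.log X / 2 := by linarith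
  have g2 : Real.log X ^ 3 ≤ Real.log X ^ 5 := pow_le_pow_right₀ hL1 (by norm_num)
  have g3 : Real.log X ≤ Real.log X ^ 3 := by
    calc Real.log X = Real.log X ^ 1 := (pow_one _).symm
      _ ≤ Real.log X ^ 3 := pow_le_pow_right₀ hL1 (by norm_num)
  constructor
  · refine (sum_le_sum fun n _ => e1 n).trans ?_
    rw [hc, mul_div_assoc]
    exact mul_le_mul_of_nonneg_left (by linarith) hXn
  · refine (sum_le_sum fun n _ => e2 n).trans ?_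
    rw [hc, mul_div_assoc]
    refine mul_le_mul_of_nonneg_left ?_ hXn
    calc (K0 : ℝ) ^ 2 * Real.log X ^ 2 ≤ Real.log X / 2 * Real.log X ^ 2 :=
          mul_le_mul_of_nonneg_right g1 (sq_nonneg _)
      _ = Real.log X ^ 3 / 2 := by ring
      _ ≤ Real.log X ^ 5 / 2 := by linarith

/-- the five squares -/
private theorem bkl_five (s1 s2 s3 s4 s5 d x : ℝ) (hx : 0 < x)
    (h5 : s5 = s3 + 2 * d + s4) (h : ¬ (1 ≤ 4 / x ^ 2 * (s1 ^ 2 + s2 ^ 2 + s3 ^ 2 + s4 ^ 2 + s5 ^ 2))) :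
    |s1| ≤ x ∧ |s2| ≤ x ∧ |s3| ≤ x ∧ |d| ≤ x := by
  have h' : s1 ^ 2 + s2 ^ 2 + s3 ^ 2 + s4 ^ 2 + s5 ^ 2 < (x / 2) ^ 2 := by
    rw [not_le] at h
    have h2 : 4 / x ^ 2 * (s1 ^ 2 + s2 ^ 2 + s3 ^ 2 + s4 ^ 2 + s5 ^ 2) * (x ^ 2 / 4) <
        1 * (x ^ 2 / 4) := mul_lt_mul_of_pos_right h (by positivity)
    have h3 : 4 / x ^ 2 * (s1 ^ 2 + s2 ^ 2 + s3 ^ 2 + s4 ^ 2 + s5 ^ 2) * (x ^ 2 / 4) =
        s1 ^ 2 + s2 ^ 2 + s3 ^ 2 + s4 ^ 2 + s5 ^ 2 := by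
      field_simp
    rw [h3] at h2
    linarith
  have key : ∀ t : ℝ, t ^ 2 ≤ s1 ^ 2 + s2 ^ 2 + s3 ^ 2 + s4 ^ 2 + s5 ^ 2 → |t| ≤ x / 2 := by
    intro t ht
    have h4 : t ^ 2 ≤ (x / 2) ^ 2 := by linarith
    exact abs_le_of_sq_le_sq h4 (by positivity)
  have q1 := sq_nonneg s1
  have q2 := sq_nonneg s2
  have q3 := sq_nonneg s3
  have q4 := sq_nonneg s4
  have q5 := sq_nonneg s5
  have k1 := key s1 (by linarith)
  have k2 := key s2 (by linarith)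
  have k3 := key s3 (by linarith)
  have k4 := key s4 (by linarith)
  have k5 := key s5 (by linarith)
  refine ⟨by linarith, by linarith, by linarith, ?_⟩
  rw [abs_le] at k3 k4 k5 ⊢
  constructor <;> linarith [k3.1, k3.2, k4.1, k4.2, k5.1, k5.2]

theorem em_blkL (hS : StrE) (k : ℝ) (hk : 0 ≤ k) (hN : NumL k) (θ th : ℝ) (h0 : 1 / 5 ≤ θ)
    (h1 : θ < th) (h2 : th < 1 / 3)
    (A K : ℕ) : ∃ Y0 : ℕ, ∀ Y : ℕ, Y0 ≤ Y → ∀ (X N : ℕ) [NeZero N], Y ≤ X → X < N → 2 * Y < N →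
    ∀ ξ : ℕ → ℝ, (∀ n, 0 ≤ ξ n) → ∑ n ∈ Icc 1 X, ξ n ≤ 1 → ∀ δ : ℝ, 0 ≤ δ →
    ∀ (q : ℕ) [NeZero q], (q : ℝ) ≤ (Y : ℝ) ^ (1 - th) → ∀ a : ZMod q,
    (Nat.gcd a.val q : ℝ) ≤ Real.log Y ^ K → ∀ P : ℕ → Prop, ∀ _ : DecidablePred P,
    (∀ n, P n → Even n ∧ BadL k θ n ∧ Y < 2 * n ∧ (n : ZMod q) = a) →
    ∑ n ∈ (Icc 1 Y).filter P, ξ n ≤ (Real.log Y ^ 11 / (Y : ℝ) ^ 2) *
      (δ * (Y * Real.log Y ^ 5) ^ 2 +
        ((Pool.MP_dd84fd_nt.LS.spec N X ξ δ).card : ℝ) / N * (Y ^ 3 / (q * Real.log Y ^ A))) := by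
  classical
  obtain ⟨Bd1, hBB⟩ := l2_BB hS A
  obtain ⟨Bd2, hPB⟩ := l2_PB hS A
  obtain ⟨B01, h01⟩ := Pool.MP_dd84fd_nt.LX.decL Bd1
  obtain ⟨B02, h02⟩ := Pool.MP_dd84fd_nt.LX.decL Bd2
  obtain ⟨B', hB1, hB2, hB3⟩ : ∃ B' : ℕ, B01 ≤ B' ∧ B02 ≤ B' ∧ 1 ≤ B' :=
    ⟨max (max B01 B02) 1, (le_max_left _ _).trans (le_max_left _ _),
      (le_max_right _ _).trans (le_max_left _ _), le_max_right _ _⟩
  obtain ⟨C21, hC21⟩ := h01 B' hB1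
  obtain ⟨C22, hC22⟩ := h02 B' hB2
  obtain ⟨τ0, ca, cb, hτ0, ha, ha1, hb1, hl, hu, hnum⟩ := hN th (by linarith) h2
  obtain ⟨τ, hτ⟩ : ∃ τ : ℝ, τ = min τ0 (min ((th - 1 / 5) / 16) ((1 / 3 - th) / 16)) := ⟨_, rfl⟩
  have t0 : 0 < τ := by
    rw [hτ]
    exact lt_min hτ0 (lt_min (by linarith) (by linarith))
  have t1 : τ ≤ τ0 := by rw [hτ]; exact min_le_left _ _
  have t2 : τ ≤ (th - 1 / 5) / 16 := by
    rw [hτ]; exact (min_le_right _ _).trans (min_le_left _ _)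
  have t3 : τ ≤ (1 / 3 - th) / 16 := by
    rw [hτ]; exact (min_le_right _ _).trans (min_le_right _ _)
  obtain ⟨e, he⟩ : ∃ e : ℝ, e = τ / 1000 := ⟨_, rfl⟩
  have he0 : 0 < e := by rw [he]; positivity
  have hAK : Pool.MP_dd84fd_nt.LX.AdmX th e τ :=
    ⟨by linarith, h2, he0, by rw [he]; linarith, by linarith, by linarith⟩
  have hAE : AdE th e τ := ⟨by linarith, by linarith, he0, by linarith, by rw [he]; linarith⟩
  obtain ⟨dA1, dB1, dC1⟩ := hC21 th e τ hAK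
  obtain ⟨dA2, dB2, -⟩ := hC22 th e τ hAK
  obtain ⟨Xb, hXb⟩ := Pool.MP_dd84fd_nt.LX.bdL hAK B'
  obtain ⟨WA, hWA⟩ : ∃ WA : ℕ → Finset ℕ → ℝ, WA = fun X =>
    Pool.MP_dd84fd_nt.LX.amL τ (IY.bI th e) (KX.lK th τ) (IY.kp B' X) X := ⟨_, rfl⟩
  obtain ⟨WB, hWB⟩ : ∃ WB : ℕ → Finset ℕ → ℝ, WB = fun X =>
    Pool.MP_dd84fd_nt.LX.bmL τ (IY.bI th e) (KX.lK th τ) (IY.kp B' X) X := ⟨_, rfl⟩
  replace dA1 : DecJ Bd1 C21 th e τ (fun X => IY.wty (IY.kp B' X) X (WA X)) := by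
    rw [hWA]; exact dA1
  replace dB1 : DecJ Bd1 C21 th e τ (fun X => IY.wty (IY.kp B' X) X (WB X)) := by
    rw [hWB]; exact dB1
  replace dC1 : DecJ Bd1 C21 th e τ (fun X => IY.wty (IY.kp B' X) X
      (fun T => WA X T + WB X T)) := by
    rw [hWA, hWB]; exact dC1
  replace dA2 : DecJ Bd2 C22 th e τ (fun X => IY.wty (IY.kp B' X) X (WA X)) := by
    rw [hWA]; exact dA2
  replace dB2 : DecJ Bd2 C22 th e τ (fun X => IY.wty (IY.kp B' X) X (WB X)) := by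
    rw [hWB]; exact dB2
  have bAB : ∀ X : ℕ, Xb ≤ X → ∀ T : Finset ℕ, |WA X T| ≤ 2 ^ 23 ∧ |WB X T| ≤ 2 ^ 23 := by
    intro X hX T
    rw [hWA, hWB]
    exact hXb X hX T
  have bA : ∀ X : ℕ, Xb ≤ X → ∀ T : Finset ℕ, |WA X T| ≤ ((2 ^ 24 : ℕ) : ℝ) :=
    fun X hX T => (bAB X hX T).1.trans (by norm_num)
  have bB : ∀ X : ℕ, Xb ≤ X → ∀ T : Finset ℕ, |WB X T| ≤ ((2 ^ 24 : ℕ) : ℝ) :=
    fun X hX T => (bAB X hX T).2.trans (by norm_num)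
  have bC : ∀ X : ℕ, Xb ≤ X → ∀ T : Finset ℕ, |WA X T + WB X T| ≤ ((2 ^ 24 : ℕ) : ℝ) := by
    intro X hX T
    obtain ⟨q1, q2⟩ := bAB X hX T
    refine (abs_add_le _ _).trans ((add_le_add q1 q2).trans ?_)
    norm_num
  have hwA := bkl_w1 B' (2 ^ 24) (by norm_num) WA Xb bA
  have hwB := bkl_w1 B' (2 ^ 24) (by norm_num) WB Xb bB
  have hwC := bkl_w1 B' (2 ^ 24) (by norm_num) (fun X T => WA X T + WB X T) Xb bC
  have hmA := bkl_maj B' (2 ^ 24) WA Xb bA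
  have hmB := bkl_maj B' (2 ^ 24) WB Xb bB
  have hmC := bkl_maj B' (2 ^ 24) (fun X T => WA X T + WB X T) Xb bC
  obtain ⟨D1, hD1⟩ := hPB (2 ^ 24) (B' + 3) C22 K th e τ hAE _ _ hwA dA2 hmA
  obtain ⟨D2, hD2⟩ := hPB (2 ^ 24) (B' + 3) C22 K th e τ hAE _ _ hwB dB2 hmB
  obtain ⟨D3, hD3⟩ := hBB (2 ^ 24) (B' + 3) C21 K th e τ hAE _ _ hwA dA1 hmA
  obtain ⟨D4, hD4⟩ := hBB (2 ^ 24) (B' + 3) C21 K th e τ hAE _ _ hwB dB1 hmB
  obtain ⟨D5, hD5⟩ := hBB (2 ^ 24) (B' + 3) C21 K th e τ hAE _ _ hwC dC1 hmC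
  obtain ⟨δ0, hδ0, hab, hc⟩ : ∃ δ0 : ℝ, 0 < δ0 ∧
      (1 - ca) ^ 2 + δ0 ≤ k * (1 - 3 * th) ^ 3 ∧
      (cb - 1) * (1 - ca) + δ0 ≤ k * (1 - 3 * th) ^ 3 := by
    refine ⟨min (k * (1 - 3 * th) ^ 3 - (1 - ca) * (1 - ca))
      (k * (1 - 3 * th) ^ 3 - (1 - ca) * (cb - 1)), lt_min (by linarith) (by linarith), ?_, ?_⟩
    · have := min_le_left (k * (1 - 3 * th) ^ 3 - (1 - ca) * (1 - ca))
        (k * (1 - 3 * th) ^ 3 - (1 - ca) * (cb - 1))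
      rw [sq]
      linarith
    · have := min_le_right (k * (1 - 3 * th) ^ 3 - (1 - ca) * (1 - ca))
        (k * (1 - 3 * th) ^ 3 - (1 - ca) * (cb - 1))
      rw [mul_comm (cb - 1)]
      linarith
  obtain ⟨D6, hD6⟩ := Pool.MP_dd84fd_nt.LX.final_l B' hB3 ca cb δ0 hδ0 ha ha1 hb1
  obtain ⟨D', hD'⟩ : ∃ D' : ℕ, D' = max (max D1 D2) (max (max D3 D4) (max D5 D6)) := ⟨_, rfl⟩
  obtain ⟨X1, g1⟩ := hD1 D' (by rw [hD']; omega)
  obtain ⟨X2, g2⟩ := hD2 D' (by rw [hD']; omega)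
  obtain ⟨X3, g3⟩ := hD3 D' (by rw [hD']; omega)
  obtain ⟨X4, g4⟩ := hD4 D' (by rw [hD']; omega)
  obtain ⟨X5', g5⟩ := hD5 D' (by rw [hD']; omega)
  obtain ⟨X6, g6⟩ := hD6 D' (by rw [hD']; omega)
  obtain ⟨X7, g7⟩ := hnum e τ hAK t1 B' hB3
  obtain ⟨X8, g8⟩ := Pool.MP_dd84fd_nt.LX.tyL hAK B' hB3
  obtain ⟨X9, g9⟩ := MP_log_large 20
  obtain ⟨Y1, j1⟩ := bkl_l2 2 1 wP gP JX.w1P D'
  obtain ⟨Y2, j2⟩ := bkl_l2 _ _ _ _ hwA D'
  obtain ⟨Y3, j3⟩ := bkl_l2 _ _ _ _ hwB D'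
  obtain ⟨Y4, j4⟩ := bkl_l2 _ _ _ _ hwC D'
  refine ⟨max (max (max X1 X2) (max X3 X4)) (max (max (max X5' X6) (max X7 X8))
    (max (max X9 Xb) (max (max Y1 Y2) (max (max Y3 Y4) 1)))), ?_⟩
  intro Y hY X N _ hYX hXN hYN ξ hξ hsum δ hδ q _ hq a hgcd P _ hP
  simp only [max_le_iff] at hY
  obtain ⟨⟨⟨x1, x2⟩, x3, x4⟩, ⟨⟨x5, x6⟩, x7, x8⟩, ⟨x9, xb⟩, ⟨y1, y2⟩, ⟨y3, y4⟩, xone⟩ := hY
  have hL : 20 ≤ Real.log Y := g9 Y x9
  have hY0 : (0 : ℝ) < Y := by exact_mod_cast xone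
  obtain ⟨L, hLd⟩ : ∃ L, Real.log Y = L := ⟨_, rfl⟩
  have hL0 : 0 < L := by linarith
  -- the five mean squares
  have m1 := g1 Y x1 q hq a hgcd
  have m2 := g2 Y x2 q hq a hgcd
  have m3 := g3 Y x3 q hq a hgcd
  have m4 := g4 Y x4 q hq a hgcd
  have m5 := g5 Y x5 q hq a hgcd
  obtain ⟨r1, r1'⟩ := j1 Y y1
  obtain ⟨r2, r2'⟩ := j2 Y y2
  obtain ⟨r3, r3'⟩ := j3 Y y3
  obtain ⟨r4, r4'⟩ := j4 Y y4
  rw [hLd] at m1 m2 m3 m4 m5 r1 r1' r2 r2' r3 r3' r4 r4' ⊢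
  have n1 := scale_gen Y q X N hYX hXN hYN _ _ _ _ (Y * L ^ 5) _ a (by linarith) m1 ξ hξ hsum δ hδ
  have n2 := scale_gen Y q X N hYX hXN hYN _ _ _ _ (Y * L ^ 5) _ a (by linarith) m2 ξ hξ hsum δ hδ
  have n3 := scale_gen Y q X N hYX hXN hYN _ _ _ _ (Y * L ^ 5) _ a (by linarith) m3 ξ hξ hsum δ hδ
  have n4 := scale_gen Y q X N hYX hXN hYN _ _ _ _ (Y * L ^ 5) _ a (by linarith) m4 ξ hξ hsum δ hδ
  have n5 := scale_gen Y q X N hYX hXN hYN _ _ _ _ (Y * L ^ 5) _ a (by linarith) m5 ξ hξ hsum δ hδ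
  obtain ⟨R, hR⟩ : ∃ R : ℝ, R = δ * (Y * L ^ 5) ^ 2 +
    ((Pool.MP_dd84fd_nt.LS.spec N X ξ δ).card : ℝ) / N * (Y ^ 3 / (q * L ^ A)) := ⟨_, rfl⟩
  rw [← hR] at n1 n2 n3 n4 n5 ⊢
  -- the pointwise inequality
  have hpt : ∀ n ∈ (Icc 1 Y).filter P, ξ n ≤ 4 / (Y / L ^ 5) ^ 2 *
      (ξ n * (cv Y (wP Y) (IY.wty (IY.kp B' Y) Y (WA Y)) n -
          cv Y (fI gP Y (wX D' Y)) (fI (fun X => IY.gty (IY.kp B' X) X (WA X)) Y (wX D' Y)) n) ^ 2 +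
        ξ n * (cv Y (wP Y) (IY.wty (IY.kp B' Y) Y (WB Y)) n -
          cv Y (fI gP Y (wX D' Y)) (fI (fun X => IY.gty (IY.kp B' X) X (WB X)) Y (wX D' Y)) n) ^ 2 +
        ξ n * (cv Y (IY.wty (IY.kp B' Y) Y (WA Y)) (IY.wty (IY.kp B' Y) Y (WA Y)) n -
          cv Y (fI (fun X => IY.gty (IY.kp B' X) X (WA X)) Y (wX D' Y))
            (fI (fun X => IY.gty (IY.kp B' X) X (WA X)) Y (wX D' Y)) n) ^ 2 +
        ξ n * (cv Y (IY.wty (IY.kp B' Y) Y (WB Y)) (IY.wty (IY.kp B' Y) Y (WB Y)) n -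
          cv Y (fI (fun X => IY.gty (IY.kp B' X) X (WB X)) Y (wX D' Y))
            (fI (fun X => IY.gty (IY.kp B' X) X (WB X)) Y (wX D' Y)) n) ^ 2 +
        ξ n * (cv Y (IY.wty (IY.kp B' Y) Y (fun T => WA Y T + WB Y T))
            (IY.wty (IY.kp B' Y) Y (fun T => WA Y T + WB Y T)) n -
          cv Y (fI (fun X => IY.gty (IY.kp B' X) X (fun T => WA X T + WB X T)) Y (wX D' Y))
            (fI (fun X => IY.gty (IY.kp B' X) X (fun T => WA X T + WB X T)) Y (wX D' Y)) n) ^ 2) := by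
    intro n hn
    rw [mem_filter, mem_Icc] at hn
    obtain ⟨⟨hn1, hn2⟩, hPn⟩ := hn
    obtain ⟨p1, p2, p3, -⟩ := hP n hPn
    rw [← bkl_cv Y n hn2, ← bkl_cv Y n hn2, ← bkl_cv Y n hn2, ← bkl_cv Y n hn2, ← bkl_cv Y n hn2,
      ← bkl_cv Y n hn2, ← bkl_cv Y n hn2, ← bkl_cv Y n hn2, ← bkl_cv Y n hn2, ← bkl_cv Y n hn2]
    obtain ⟨s1, hs1⟩ : ∃ s, s = cvv (wP Y) (IY.wty (IY.kp B' Y) Y (WA Y)) n -
      cvv (fI gP Y (wX D' Y)) (fI (fun X => IY.gty (IY.kp B' X) X (WA X)) Y (wX D' Y)) n := ⟨_, rfl⟩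
    obtain ⟨s2, hs2⟩ : ∃ s, s = cvv (wP Y) (IY.wty (IY.kp B' Y) Y (WB Y)) n -
      cvv (fI gP Y (wX D' Y)) (fI (fun X => IY.gty (IY.kp B' X) X (WB X)) Y (wX D' Y)) n := ⟨_, rfl⟩
    obtain ⟨s3, hs3⟩ : ∃ s, s = cvv (IY.wty (IY.kp B' Y) Y (WA Y)) (IY.wty (IY.kp B' Y) Y (WA Y)) n -
      cvv (fI (fun X => IY.gty (IY.kp B' X) X (WA X)) Y (wX D' Y))
        (fI (fun X => IY.gty (IY.kp B' X) X (WA X)) Y (wX D' Y)) n := ⟨_, rfl⟩
    obtain ⟨s4, hs4⟩ : ∃ s, s = cvv (IY.wty (IY.kp B' Y) Y (WB Y)) (IY.wty (IY.kp B' Y) Y (WB Y)) n -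
      cvv (fI (fun X => IY.gty (IY.kp B' X) X (WB X)) Y (wX D' Y))
        (fI (fun X => IY.gty (IY.kp B' X) X (WB X)) Y (wX D' Y)) n := ⟨_, rfl⟩
    obtain ⟨s5, hs5⟩ : ∃ s, s = cvv (IY.wty (IY.kp B' Y) Y (fun T => WA Y T + WB Y T))
        (IY.wty (IY.kp B' Y) Y (fun T => WA Y T + WB Y T)) n -
      cvv (fI (fun X => IY.gty (IY.kp B' X) X (fun T => WA X T + WB X T)) Y (wX D' Y))
        (fI (fun X => IY.gty (IY.kp B' X) X (fun T => WA X T + WB X T)) Y (wX D' Y)) n := ⟨_, rfl⟩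
    obtain ⟨d, hd⟩ : ∃ d, d = cvv (IY.wty (IY.kp B' Y) Y (WA Y)) (IY.wty (IY.kp B' Y) Y (WB Y)) n -
      cvv (fI (fun X => IY.gty (IY.kp B' X) X (WA X)) Y (wX D' Y))
        (fI (fun X => IY.gty (IY.kp B' X) X (WB X)) Y (wX D' Y)) n := ⟨_, rfl⟩
    rw [← hs1, ← hs2, ← hs3, ← hs4, ← hs5]
    have h5 : s5 = s3 + 2 * d + s4 := by
      have z1 : IY.wty (IY.kp B' Y) Y (fun T => WA Y T + WB Y T) = fun m =>
          IY.wty (IY.kp B' Y) Y (WA Y) m + IY.wty (IY.kp B' Y) Y (WB Y) m := by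
        funext m
        exact bkl_wty _ _ _ _ _
      have z2 : fI (fun X => IY.gty (IY.kp B' X) X (fun T => WA X T + WB X T)) Y (wX D' Y) =
          fun m => fI (fun X => IY.gty (IY.kp B' X) X (WA X)) Y (wX D' Y) m +
            fI (fun X => IY.gty (IY.kp B' X) X (WB X)) Y (wX D' Y) m := by
        funext m
        unfold fI
        simp only [bkl_gty]
        ring
      rw [hs5, z1, z2, bkl_sq, bkl_sq, hs3, hs4, hd]
      ring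
    have hx : 0 < (Y : ℝ) / L ^ 5 := by positivity
    have hone : 1 ≤ 4 / ((Y : ℝ) / L ^ 5) ^ 2 * (s1 ^ 2 + s2 ^ 2 + s3 ^ 2 + s4 ^ 2 + s5 ^ 2) := by
      by_contra hcon
      obtain ⟨c1, c2, c3, c4⟩ := bkl_five s1 s2 s3 s4 s5 d _ hx h5 hcon
      have hty : Pool.MP_dd84fd_nt.LX.TyML (IY.kp B' Y) Y (WA Y) (WB Y) := by
        rw [hWA, hWB]
        exact g8 Y x8
      have hbd : ∀ T, |WA Y T| ≤ 2 ^ 24 ∧ |WB Y T| ≤ 2 ^ 24 := fun T =>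
        ⟨(bAB Y xb T).1.trans (by norm_num), (bAB Y xb T).2.trans (by norm_num)⟩
      have hnm : ∀ m : ℕ, IY.X5 Y < m → m ≤ Y →
          ca ≤ Real.log m * IY.gty (IY.kp B' Y) Y (WA Y) m ∧
            Real.log m * IY.gty (IY.kp B' Y) Y (WB Y) m ≤ cb := by
        intro m hm1 hm2
        rw [hWA, hWB]
        exact g7 Y x7 m hm1 hm2
      have w1 : Pool.MP_dd84fd_nt.LX.ClP B' D' Y (WA Y) n := by
        unfold Pool.MP_dd84fd_nt.LX.ClP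
        rw [hLd]
        rw [hs1] at c1
        exact c1
      have w2 : Pool.MP_dd84fd_nt.LX.ClP B' D' Y (WB Y) n := by
        unfold Pool.MP_dd84fd_nt.LX.ClP
        rw [hLd]
        rw [hs2] at c2
        exact c2
      have w3 : Pool.MP_dd84fd_nt.LX.Cl2 B' D' Y (WA Y) (WA Y) n := by
        unfold Pool.MP_dd84fd_nt.LX.Cl2
        rw [hLd]
        rw [hs3] at c3
        exact c3
      have w4 : Pool.MP_dd84fd_nt.LX.Cl2 B' D' Y (WA Y) (WB Y) n := by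
        unfold Pool.MP_dd84fd_nt.LX.Cl2
        rw [hLd]
        rw [hd] at c4
        exact c4
      obtain ⟨u1, u2⟩ := g6 Y x6 (WA Y) (WB Y) hty hbd hnm n p3 hn2 p1 w1 w2 w3 w4
      have hSJ := bkl_SJ n
      have hkk : k * (1 - 3 * th) ^ 3 ≤ k * (1 - 3 * θ) ^ 3 :=
        mul_le_mul_of_nonneg_left (pow_le_pow_left₀ (by linarith) (by linarith) 3) hk
      have v1 : (1 - k * (1 - 3 * θ) ^ 3) * (SS n * JJ n) ≤ g n :=
        (mul_le_mul_of_nonneg_right (by linarith) hSJ).trans u1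
      have v2 : (g n : ℝ) ≤ (1 + k * (1 - 3 * θ) ^ 3) * (SS n * JJ n) :=
        u2.trans (mul_le_mul_of_nonneg_right (by linarith) hSJ)
      unfold BadL at p2
      have v3 : |(g n : ℝ) - SS n * JJ n| ≤ k * (1 - 3 * θ) ^ 3 * (SS n * JJ n) := by
        rw [abs_le]
        constructor
        · linarith
        · linarith
      exact absurd p2 (not_lt.2 v3)
    calc ξ n = ξ n * 1 := (mul_one _).symm
      _ ≤ ξ n * (4 / ((Y : ℝ) / L ^ 5) ^ 2 * (s1 ^ 2 + s2 ^ 2 + s3 ^ 2 + s4 ^ 2 + s5 ^ 2)) :=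
          mul_le_mul_of_nonneg_left hone (hξ n)
      _ = _ := by ring
  have hsub : (Icc 1 Y).filter P ⊆ (Icc 1 Y).filter (fun n : ℕ => (n : ZMod q) = a) := by
    intro n hn
    rw [mem_filter] at hn ⊢
    exact ⟨hn.1, (hP n hn.2).2.2.2⟩
  have hc0 : 0 ≤ 4 / ((Y : ℝ) / L ^ 5) ^ 2 := by positivity
  have hmono : ∀ F : ℕ → ℝ, (∑ n ∈ (Icc 1 Y).filter P, ξ n * F n ^ 2) ≤
      ∑ n ∈ (Icc 1 Y).filter (fun n : ℕ => (n : ZMod q) = a), ξ n * F n ^ 2 := fun F =>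
    sum_le_sum_of_subset_of_nonneg hsub fun n _ _ => mul_nonneg (hξ n) (sq_nonneg _)
  refine (sum_le_sum hpt).trans ?_
  rw [← mul_sum, sum_add_distrib, sum_add_distrib, sum_add_distrib, sum_add_distrib]
  have hR0 : 0 ≤ R := by rw [hR]; positivity
  refine (mul_le_mul_of_nonneg_left (add_le_add (add_le_add (add_le_add (add_le_add
    ((hmono _).trans n1) ((hmono _).trans n2)) ((hmono _).trans n3)) ((hmono _).trans n4))
    ((hmono _).trans n5)) hc0).trans ?_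
  have e1 : 4 / ((Y : ℝ) / L ^ 5) ^ 2 * (R + R + R + R + R) = 20 * (L ^ 10 / Y ^ 2) * R := by
    field_simp
    ring
  rw [e1]
  refine mul_le_mul_of_nonneg_right ?_ hR0
  have e2 : L ^ 11 / (Y : ℝ) ^ 2 = L * (L ^ 10 / Y ^ 2) := by ring
  rw [e2]
  exact mul_le_mul_of_nonneg_right (by linarith) (by positivity)

end Pool.MP_dd84fd_nt.EM
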