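import Pool.Agent.Lib.MP_dd84fd_nt.EM.Defs
import Pool.Agent.Lib.MP_dd84fd_nt.L2G.ModelAux

/-!
# EM-CA (0.8 h): sums of a function of bounded variation in classes

`class_avg`: cut `[1, X]` into `⌊X/m⌋` blocks of length `m` and a rest.  Each block contains exactly one `n = c (m)`, and `|g(n) - (1/m) Σ_{block} g| ≤` variation of `g` in the block.  The rest: at most one
`n` and at most `m` terms with weight `1/m`: `≤ 2 G`.
`cb_cls`: `g n = gg X n e(n β)`, `G = K0`, `V ≤ L^C1 + K0 2π |β| X ≤ L^C1 + 7 K0 L^B` (`‖ee x - ee y‖ ≤ 2π |x - y|`, grep for the existing lemma).  Split into the classes `c mod r`: the conditions `n = b (q)`,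
`d | n`, `n = c (r)` are empty unless `gcd(d,r) | c`, and then they are one class mod `q lcm(d,r)` (`(q, d r) = 1`); `e(n y/r) = e(c y/r)`.  The main terms: `(1/(q lcm(d,r))) Σ g · Σ_{c mod r, gcd(d,r) | c} e(c y/r)`,
and with `g₀ = gcd(d,r)` the last sum is `Σ_{c' < r/g₀} e(c' y/(r/g₀)) = 0` unless `r = g₀` (i.e. `r | d`), then it is `1` and `lcm(d,r) = d`.  Errors: `≤ r (2 G + V)`.
-/

set_option autoImplicit false

namespace Pool.MP_dd84fd_nt.EM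

open Finset Pool.MP_67663b_nt.Odd Pool.MP_dd84fd_nt.En Pool.MP_dd84fd_nt.E2
open Pool.MP_dd84fd_nt.HX Pool.MP_dd84fd_nt.IX
open Pool.MP_dd84fd_nt.JX (ZJ DecJ Str wP gP)
open Pool.MP_dd84fd_nt.L2G (fz VA VQ MajQ MinorHyp Tc Jc cv av gr Se)
open Pool.MP_dd84fd_nt.T7 (Fz2)

private theorem CA_count (m c t : ℕ) (hm : 1 ≤ m) :
    |(((Icc 1 t).filter (fun n => n ≡ c [MOD m])).card : ℝ) - (t : ℝ) / m| ≤ 1 := by
  have h1 : Icc 1 t = Ioc 0 t := by
    ext x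
    simp only [mem_Icc, mem_Ioc]
    omega
  have h2 := Nat.Ioc_filter_modEq_card 0 t (r := m) (by omega) c
  rw [← h1] at h2
  obtain ⟨N, hN⟩ : ∃ N, N = ((Icc 1 t).filter (fun n => n ≡ c [MOD m])).card := ⟨_, rfl⟩
  rw [← hN] at h2 ⊢
  have hmq : (0 : ℚ) < (m : ℚ) := by exact_mod_cast hm
  obtain ⟨A, hA⟩ : ∃ A : ℤ, A = ⌊((t : ℚ) - (c : ℚ)) / (m : ℚ)⌋ := ⟨_, rfl⟩
  obtain ⟨B, hB⟩ : ∃ B : ℤ, B = ⌊(((0 : ℕ) : ℚ) - (c : ℚ)) / (m : ℚ)⌋ := ⟨_, rfl⟩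
  rw [← hA, ← hB] at h2
  have hAle : (A : ℚ) ≤ ((t : ℚ) - (c : ℚ)) / (m : ℚ) := by rw [hA]; exact Int.floor_le _
  have hAlt : ((t : ℚ) - (c : ℚ)) / (m : ℚ) < A + 1 := by rw [hA]; exact Int.lt_floor_add_one _
  have hBle : (B : ℚ) ≤ (((0 : ℕ) : ℚ) - (c : ℚ)) / (m : ℚ) := by rw [hB]; exact Int.floor_le _
  have hBlt : (((0 : ℕ) : ℚ) - (c : ℚ)) / (m : ℚ) < B + 1 := by rw [hB]; exact Int.lt_floor_add_one _
  have hsub : ((t : ℚ) - (c : ℚ)) / (m : ℚ) - (((0 : ℕ) : ℚ) - (c : ℚ)) / (m : ℚ) = (t : ℚ) / m := by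
    push_cast
    ring
  have hBA : B ≤ A := by
    rw [hA, hB]
    apply Int.floor_le_floor
    have h3 : (0 : ℚ) ≤ (t : ℚ) / m := by positivity
    linarith
  have h4 : (N : ℤ) = A - B := by
    rw [h2]
    exact max_eq_left (by omega)
  have h5 : (N : ℚ) = (A : ℚ) - (B : ℚ) := by exact_mod_cast h4
  have h6 : |(N : ℚ) - (t : ℚ) / m| ≤ 1 := by
    rw [h5, abs_le]
    constructor <;> linarith
  have h7 : |(((N : ℚ) : ℝ)) - (((t : ℚ) / (m : ℚ) : ℚ) : ℝ)| ≤ 1 := by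
    exact_mod_cast h6
  push_cast at h7
  exact h7

private theorem CA_abel (a g : ℕ → ℂ) (X : ℕ) :
    ∑ n ∈ Icc 1 (X + 1), a n * g n = (∑ n ∈ Icc 1 (X + 1), a n) * g (X + 1) -
      ∑ n ∈ Ico 1 (X + 1), (∑ k ∈ Icc 1 n, a k) * (g (n + 1) - g n) := by
  induction X with
  | zero => simp
  | succ X ih =>
    have e1 : ∑ n ∈ Icc 1 (X + 1 + 1), a n * g n = ∑ n ∈ Icc 1 (X + 1), a n * g n +
        a (X + 1 + 1) * g (X + 1 + 1) := Finset.sum_Icc_succ_top (by omega) _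
    have e2 : ∑ n ∈ Icc 1 (X + 1 + 1), a n = ∑ n ∈ Icc 1 (X + 1), a n + a (X + 1 + 1) :=
      Finset.sum_Icc_succ_top (by omega) _
    have e3 : ∑ n ∈ Ico 1 (X + 1 + 1), (∑ k ∈ Icc 1 n, a k) * (g (n + 1) - g n) =
        ∑ n ∈ Ico 1 (X + 1), (∑ k ∈ Icc 1 n, a k) * (g (n + 1) - g n) +
          (∑ k ∈ Icc 1 (X + 1), a k) * (g (X + 1 + 1) - g (X + 1)) :=
      Finset.sum_Ico_succ_top (by omega) _
    rw [e1, e2, e3, ih]
    ring

private theorem CA_abel_bd (a g : ℕ → ℂ) (X : ℕ) (G V : ℝ) (hG0 : 0 ≤ G)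
    (ha : ∀ t, ‖∑ k ∈ Icc 1 t, a k‖ ≤ 1)
    (hG : ∀ n ∈ Icc 1 X, ‖g n‖ ≤ G) (hV : ∑ n ∈ Ico 1 X, ‖g (n + 1) - g n‖ ≤ V) :
    ‖∑ n ∈ Icc 1 X, a n * g n‖ ≤ G + V := by
  rcases X with _ | X
  · have h0 : (0 : ℝ) ≤ V := by simpa using hV
    simp only [Icc_eq_empty_of_lt Nat.zero_lt_one, sum_empty, norm_zero]
    linarith
  rw [CA_abel]
  refine (norm_sub_le _ _).trans ?_
  refine add_le_add ?_ ?_
  · rw [norm_mul]
    calc ‖∑ n ∈ Icc 1 (X + 1), a n‖ * ‖g (X + 1)‖ ≤ 1 * G :=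
          mul_le_mul (ha _) (hG _ (mem_Icc.2 ⟨by omega, le_rfl⟩)) (norm_nonneg _) (by norm_num)
      _ = G := one_mul G
  · refine le_trans ?_ hV
    refine (norm_sum_le _ _).trans (sum_le_sum fun n _ => ?_)
    rw [norm_mul]
    calc ‖∑ k ∈ Icc 1 n, a k‖ * ‖g (n + 1) - g n‖ ≤ 1 * ‖g (n + 1) - g n‖ :=
          mul_le_mul_of_nonneg_right (ha _) (norm_nonneg _)
      _ = ‖g (n + 1) - g n‖ := one_mul _

theorem class_avg (X m c : ℕ) (hm : 1 ≤ m) (g : ℕ → ℂ) (G V : ℝ) (hG0 : 0 ≤ G)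
    (hG : ∀ n ∈ Icc 1 X, ‖g n‖ ≤ G) (hV : ∑ n ∈ Ico 1 X, ‖g (n + 1) - g n‖ ≤ V) :
    ‖∑ n ∈ (Icc 1 X).filter (fun n => n ≡ c [MOD m]), g n -
      (1 / (m : ℂ)) * ∑ n ∈ Icc 1 X, g n‖ ≤ 2 * G + V := by
  obtain ⟨a, ha⟩ : ∃ a : ℕ → ℂ, a = fun n => (if n ≡ c [MOD m] then (1 : ℂ) else 0) - 1 / (m : ℂ) := ⟨_, rfl⟩
  have h1 : ∑ n ∈ (Icc 1 X).filter (fun n => n ≡ c [MOD m]), g n - (1 / (m : ℂ)) * ∑ n ∈ Icc 1 X, g n =
      ∑ n ∈ Icc 1 X, a n * g n := by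
    rw [ha, Finset.sum_filter, Finset.mul_sum, ← Finset.sum_sub_distrib]
    refine sum_congr rfl fun n _ => ?_
    show (if n ≡ c [MOD m] then g n else 0) - 1 / (m : ℂ) * g n =
      ((if n ≡ c [MOD m] then (1 : ℂ) else 0) - 1 / (m : ℂ)) * g n
    split_ifs <;> ring
  rw [h1]
  have h2 : ∀ t, ‖∑ k ∈ Icc 1 t, a k‖ ≤ 1 := by
    intro t
    have h3 : ∑ k ∈ Icc 1 t, a k =
        (((((Icc 1 t).filter (fun n => n ≡ c [MOD m])).card : ℝ) - (t : ℝ) / m : ℝ) : ℂ) := by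
      rw [ha, Finset.sum_sub_distrib, ← Finset.sum_filter, sum_const, sum_const, Nat.card_Icc]
      push_cast
      simp only [nsmul_eq_mul, mul_one]
      ring
    rw [h3, Complex.norm_real]
    exact CA_count m c t hm
  have h3 := CA_abel_bd a g X G V hG0 h2 hG hV
  linarith

private theorem CA_split (X M r c : ℕ) (hM : 1 ≤ M) (hr : 1 ≤ r) (hc : c < M) (f : ℕ → ℂ) :
    ∑ n ∈ (Icc 1 X).filter (fun n => n ≡ c [MOD M]), f n =
      ∑ k ∈ range r, ∑ n ∈ (Icc 1 X).filter (fun n => n ≡ c + M * k [MOD (M * r)]), f n := by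
  rw [← Finset.sum_fiberwise_of_maps_to (s := (Icc 1 X).filter (fun n => n ≡ c [MOD M])) (t := range r)
    (g := fun n => n / M % r) (fun n _ => mem_range.2 (Nat.mod_lt _ hr))]
  refine sum_congr rfl fun k hk => ?_
  have hk' := mem_range.1 hk
  refine sum_congr ?_ fun _ _ => rfl
  ext n
  simp only [mem_filter]
  have hlt : c + M * k < M * r := by
    calc c + M * k < M + M * k := by omega
      _ = M * (k + 1) := by ring
      _ ≤ M * r := Nat.mul_le_mul_left _ hk'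
  constructor
  · rintro ⟨⟨h1, h2⟩, h3⟩
    refine ⟨h1, ?_⟩
    show n % (M * r) = (c + M * k) % (M * r)
    have h2' : n % M = c % M := h2
    rw [Nat.mod_mul, h3, h2', Nat.mod_eq_of_lt hc, Nat.mod_eq_of_lt hlt]
  · rintro ⟨h1, h2⟩
    have h2' : n % (M * r) = (c + M * k) % (M * r) := h2
    rw [Nat.mod_eq_of_lt hlt, Nat.mod_mul] at h2'
    have h3 : n % M = c := by
      have h4 := congrArg (fun z => z % M) h2'
      simpa [Nat.add_mul_mod_self_left, Nat.mod_eq_of_lt hc] using h4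
    refine ⟨⟨h1, ?_⟩, ?_⟩
    · show n % M = c % M
      rw [h3, Nat.mod_eq_of_lt hc]
    · rw [h3] at h2'
      exact Nat.eq_of_mul_eq_mul_left hM (Nat.add_left_cancel h2')

private theorem CA_ee_periodic (n c r : ℕ) (y : ℤ) (hr : 1 ≤ r) (h : n ≡ c [MOD r]) :
    ee (n * ((y : ℝ) / r)) = ee (c * ((y : ℝ) / r)) := by
  have h1 : (r : ℤ) ∣ (n : ℤ) - c := by
    have := (Nat.modEq_iff_dvd.1 h.symm)
    exact this
  obtain ⟨k, hk⟩ := h1
  have hr' : (r : ℝ) ≠ 0 := by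
    have : (1 : ℝ) ≤ r := by exact_mod_cast hr
    linarith
  have h2 : (n : ℝ) = c + r * k := by
    have h3 : (n : ℤ) = c + r * k := by linarith
    exact_mod_cast h3
  have h4 : (n : ℝ) * ((y : ℝ) / r) = (c : ℝ) * ((y : ℝ) / r) + ((k * y : ℤ) : ℝ) := by
    rw [h2]
    push_cast
    field_simp
  rw [h4, ee_add_int]

private theorem CA_geom (d q r c : ℕ) (y : ℤ) (hr : 1 ≤ r) (hqr : Nat.Coprime r q)
    (hy : IsCoprime y (r : ℤ)) (hc : d ∣ c) :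
    ∑ k ∈ range r, ee (((c + d * q * k : ℕ) : ℝ) * ((y : ℝ) / r)) = if r ∣ d then (r : ℂ) else 0 := by
  have hr' : (r : ℝ) ≠ 0 := by
    have : (1 : ℝ) ≤ r := by exact_mod_cast hr
    linarith
  split_ifs with hrd
  · have h1 : ∀ k ∈ range r, ee (((c + d * q * k : ℕ) : ℝ) * ((y : ℝ) / r)) = 1 := by
      intro k _
      obtain ⟨e, he⟩ := hrd
      obtain ⟨f, hf⟩ := hc
      have h2 : ((c + d * q * k : ℕ) : ℝ) * ((y : ℝ) / r) = (((e * f + e * q * k) * y : ℤ) : ℝ) := by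
        rw [hf, he]
        push_cast
        field_simp
      rw [h2, ee_int]
    rw [sum_congr rfl h1]
    simp
  · obtain ⟨z, hz⟩ : ∃ z : ℂ, z = ee ((d * q : ℕ) * ((y : ℝ) / r)) := ⟨_, rfl⟩
    have hpow : ∀ k : ℕ, ee (((c + d * q * k : ℕ) : ℝ) * ((y : ℝ) / r)) = ee (c * ((y : ℝ) / r)) * z ^ k := by
      intro k
      induction k with
      | zero => simp
      | succ k ih =>
        have h2 : ((c + d * q * (k + 1) : ℕ) : ℝ) * ((y : ℝ) / r) =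
            ((c + d * q * k : ℕ) : ℝ) * ((y : ℝ) / r) + (d * q : ℕ) * ((y : ℝ) / r) := by
          push_cast
          ring
        rw [h2, ee_add, ih, hz]
        ring
    have hzr : z ^ r = 1 := by
      have h2 := hpow r
      have h3 : ee (((c + d * q * r : ℕ) : ℝ) * ((y : ℝ) / r)) = ee (c * ((y : ℝ) / r)) := by
        apply CA_ee_periodic _ _ _ _ hr
        exact (Nat.modEq_iff_dvd' (by omega)).2 (by
          have : c + d * q * r - c = r * (d * q) := by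
            rw [Nat.add_sub_cancel_left]
            ring
          rw [this]
          exact Dvd.intro _ rfl) |>.symm
      rw [h3] at h2
      have h4 : ee (c * ((y : ℝ) / r)) ≠ 0 := by
        intro h0
        have := norm_ee (c * ((y : ℝ) / r))
        rw [h0, norm_zero] at this
        norm_num at this
      have h5 : ee (c * ((y : ℝ) / r)) * 1 = ee (c * ((y : ℝ) / r)) * z ^ r := by rw [mul_one]; exact h2
      exact (mul_left_cancel₀ h4 h5).symm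
    have hz1 : z ≠ 1 := by
      intro h0
      rw [hz] at h0
      have h2 : ∃ k : ℤ, ((d * q : ℕ) : ℝ) * ((y : ℝ) / r) = k := by
        unfold ee at h0
        rw [Complex.exp_eq_one_iff] at h0
        obtain ⟨k, hk⟩ := h0
        refine ⟨k, ?_⟩
        have hpi : (2 * Real.pi * Complex.I : ℂ) ≠ 0 := Complex.two_pi_I_ne_zero
        have h3 : ((((d * q : ℕ) : ℝ) * ((y : ℝ) / r) : ℝ) : ℂ) * (2 * Real.pi * Complex.I) =
            (k : ℂ) * (2 * Real.pi * Complex.I) := by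
          rw [← hk]
          ring
        have h4 := mul_right_cancel₀ hpi h3
        exact_mod_cast h4
      obtain ⟨k, hk⟩ := h2
      have h3 : ((d * q : ℕ) : ℝ) * y = k * r := by
        field_simp at hk
        linarith
      have h4 : ((d * q : ℕ) : ℤ) * y = k * r := by exact_mod_cast h3
      have h5 : (r : ℤ) ∣ ((d * q : ℕ) : ℤ) * y := ⟨k, by rw [h4]; ring⟩
      have h6 : (r : ℤ) ∣ ((d * q : ℕ) : ℤ) := hy.symm.dvd_of_dvd_mul_right h5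
      have h7 : r ∣ d * q := Int.natCast_dvd_natCast.1 h6
      exact hrd (hqr.dvd_of_dvd_mul_right h7)
    have h8 : ∑ k ∈ range r, ee (((c + d * q * k : ℕ) : ℝ) * ((y : ℝ) / r)) =
        ee (c * ((y : ℝ) / r)) * ∑ k ∈ range r, z ^ k := by
      rw [mul_sum]
      exact sum_congr rfl fun k _ => hpow k
    rw [h8]
    have h9 : (∑ k ∈ range r, z ^ k) * (z - 1) = 0 := by rw [geom_sum_mul, hzr, sub_self]
    have h10 : ∑ k ∈ range r, z ^ k = 0 := by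
      rcases mul_eq_zero.1 h9 with h | h
      · exact h
      · exact absurd (sub_eq_zero.1 h) hz1
    rw [h10, mul_zero]

theorem cb_cls (B K0 C1 : ℕ) : ∃ C X0 : ℕ, ∀ X : ℕ, X0 ≤ X → ∀ gg : ℕ → ℝ,
    (∀ n, |gg n| ≤ K0) → ∑ n ∈ Ico 1 X, |gg (n + 1) - gg n| ≤ (Real.log X) ^ C1 →
    ∀ (q : ℕ) [NeZero q] (r : ℕ) (y : ℤ) (β : ℝ), Pt X q B r y β → ∀ b : ZMod q, ∀ d : ℕ,
    1 ≤ d → Nat.Coprime d q →
    ‖∑ n ∈ (Icc 1 X).filter (fun n : ℕ => (n : ZMod q) = b ∧ d ∣ n),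
        (gg n : ℂ) * ee (n * (y / r + β)) -
      (if r ∣ d then (1 / ((q : ℂ) * d)) * Se X gg β else 0)‖ ≤ Real.log X ^ C := by
  refine ⟨2 * B + C1 + 1, ⌈Real.exp (9 * K0 + 1)⌉₊ + 1, ?_⟩
  intro X hX gg hgg hvar q _ r y β hPt b d hd hdq
  obtain ⟨hr1, hrL, hrq, hyr, hβ⟩ := hPt
  obtain ⟨L, hL⟩ : ∃ L, L = Real.log X := ⟨_, rfl⟩
  rw [← hL] at hvar hrL hβ ⊢
  have hX1 : 1 ≤ X := by omega
  have hX0 : (0 : ℝ) < X := by exact_mod_cast hX1
  have hLge : 9 * (K0 : ℝ) + 1 ≤ L := by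
    rw [hL, Real.le_log_iff_exp_le hX0]
    have h1 : Real.exp (9 * K0 + 1) ≤ (⌈Real.exp (9 * K0 + 1)⌉₊ : ℝ) := Nat.le_ceil _
    have h2 : ((⌈Real.exp (9 * K0 + 1)⌉₊ : ℝ)) + 1 ≤ X := by exact_mod_cast hX
    linarith
  have hK00 : (0 : ℝ) ≤ K0 := Nat.cast_nonneg _
  have hL1 : 1 ≤ L := by linarith
  have hq1 : 1 ≤ q := Nat.one_le_iff_ne_zero.2 (NeZero.ne q)
  -- the class
  obtain ⟨⟨c0, hc0d, hc0q⟩⟩ : Nonempty {k // k ≡ 0 [MOD d] ∧ k ≡ b.val [MOD q]} :=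
    ⟨Nat.chineseRemainder hdq 0 b.val⟩
  obtain ⟨c, hc⟩ : ∃ c, c = c0 % (d * q) := ⟨_, rfl⟩
  have hdq1 : 1 ≤ d * q := Nat.mul_pos hd hq1
  have hclt : c < d * q := by rw [hc]; exact Nat.mod_lt _ hdq1
  have hcc0 : c ≡ c0 [MOD (d * q)] := by rw [hc]; exact Nat.mod_modEq _ _
  have hcd : c ≡ 0 [MOD d] := (hcc0.of_dvd (Dvd.intro _ rfl)).trans hc0d
  have hcq : c ≡ b.val [MOD q] := (hcc0.of_dvd (Dvd.intro_left _ rfl)).trans hc0q
  have hdc : d ∣ c := (Nat.modEq_zero_iff_dvd).1 hcd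
  have hset : (Icc 1 X).filter (fun n : ℕ => (n : ZMod q) = b ∧ d ∣ n) =
      (Icc 1 X).filter (fun n => n ≡ c [MOD (d * q)]) := by
    refine filter_congr fun n _ => ?_
    have hb : (n : ZMod q) = b ↔ n ≡ b.val [MOD q] := by
      rw [← ZMod.natCast_eq_natCast_iff, ZMod.natCast_zmod_val]
    rw [hb, ← Nat.modEq_and_modEq_iff_modEq_mul hdq]
    constructor
    · rintro ⟨h1, h2⟩
      exact ⟨((Nat.modEq_zero_iff_dvd).2 h2).trans hcd.symm, h1.trans hcq.symm⟩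
    · rintro ⟨h1, h2⟩
      exact ⟨h2.trans hcq, (Nat.modEq_zero_iff_dvd).1 (h1.trans hcd)⟩
  rw [hset, CA_split X (d * q) r c hdq1 hr1 hclt]
  obtain ⟨g, hg⟩ : ∃ g : ℕ → ℂ, g = fun n => (gg n : ℂ) * ee (n * β) := ⟨_, rfl⟩
  have hSe : Se X gg β = ∑ n ∈ Icc 1 X, g n := by rw [hg]; rfl
  have hinner : ∀ k ∈ range r, ∑ n ∈ (Icc 1 X).filter (fun n => n ≡ c + d * q * k [MOD (d * q * r)]),
      (gg n : ℂ) * ee (n * (y / r + β)) = ee (((c + d * q * k : ℕ) : ℝ) * ((y : ℝ) / r)) *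
        ∑ n ∈ (Icc 1 X).filter (fun n => n ≡ c + d * q * k [MOD (d * q * r)]), g n := by
    intro k _
    rw [mul_sum]
    refine sum_congr rfl fun n hn => ?_
    have h1 := (mem_filter.1 hn).2
    have h2 : n ≡ c + d * q * k [MOD r] := h1.of_dvd (Dvd.intro_left _ rfl)
    rw [← CA_ee_periodic n (c + d * q * k) r y hr1 h2, hg]
    have h3 : (n : ℝ) * ((y : ℝ) / r + β) = n * ((y : ℝ) / r) + n * β := by ring
    rw [h3, ee_add]
    ring
  rw [sum_congr rfl hinner]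
  have hgeom := CA_geom d q r c y hr1 hrq hyr hdc
  have hmain : (if r ∣ d then (1 / ((q : ℂ) * d)) * Se X gg β else 0) =
      ∑ k ∈ range r, ee (((c + d * q * k : ℕ) : ℝ) * ((y : ℝ) / r)) *
        ((1 / ((d * q * r : ℕ) : ℂ)) * ∑ n ∈ Icc 1 X, g n) := by
    rw [← sum_mul, hgeom, hSe]
    have hr0 : (r : ℂ) ≠ 0 := by exact_mod_cast (by omega : r ≠ 0)
    have hd0 : (d : ℂ) ≠ 0 := by exact_mod_cast (by omega : d ≠ 0)
    have hq0 : (q : ℂ) ≠ 0 := by exact_mod_cast (by omega : q ≠ 0)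
    split_ifs
    · push_cast
      field_simp
    · rw [zero_mul]
  rw [hmain, ← sum_sub_distrib]
  -- bounds of g
  have hG : ∀ n ∈ Icc 1 X, ‖g n‖ ≤ (K0 : ℝ) := by
    intro n _
    rw [hg]
    show ‖(gg n : ℂ) * ee (n * β)‖ ≤ _
    rw [norm_mul, norm_ee, mul_one, Complex.norm_real]
    exact hgg n
  have hpi : 2 * Real.pi ≤ 7 := by
    have := Real.pi_lt_d2
    linarith
  have hV : ∑ n ∈ Ico 1 X, ‖g (n + 1) - g n‖ ≤ L ^ C1 + 7 * K0 * L ^ B := by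
    have h1 : ∀ n ∈ Ico 1 X, ‖g (n + 1) - g n‖ ≤ |gg (n + 1) - gg n| + K0 * (2 * Real.pi * |β|) := by
      intro n _
      have h2 : g (n + 1) - g n = ((gg (n + 1) - gg n : ℝ) : ℂ) * ee (((n + 1 : ℕ) : ℝ) * β) +
          (gg n : ℂ) * (ee (((n + 1 : ℕ) : ℝ) * β) - ee (n * β)) := by
        rw [hg]
        push_cast
        ring
      rw [h2]
      refine (norm_add_le _ _).trans (add_le_add ?_ ?_)
      · rw [norm_mul, norm_ee, mul_one, Complex.norm_real]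
        exact le_rfl
      · rw [norm_mul, Complex.norm_real]
        refine mul_le_mul (hgg n) ?_ (norm_nonneg _) hK00
        refine (norm_ee_sub_ee_le _ _).trans (le_of_eq ?_)
        congr 2
        push_cast
        ring
    refine (sum_le_sum h1).trans ?_
    rw [sum_add_distrib, sum_const, Nat.card_Ico, nsmul_eq_mul]
    refine add_le_add hvar ?_
    have h3 : ((X - 1 : ℕ) : ℝ) ≤ X := by exact_mod_cast Nat.sub_le _ _
    have h4 : |β| * X ≤ L ^ B := by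
      rw [le_div_iff₀ hX0] at hβ
      exact hβ
    have h5 : 0 ≤ |β| := abs_nonneg β
    have h6 : 0 ≤ Real.pi := Real.pi_pos.le
    calc ((X - 1 : ℕ) : ℝ) * (K0 * (2 * Real.pi * |β|)) ≤ X * (K0 * (2 * Real.pi * |β|)) :=
          mul_le_mul_of_nonneg_right h3 (by positivity)
      _ = (2 * Real.pi) * (K0 * (|β| * X)) := by ring
      _ ≤ 7 * (K0 * L ^ B) := mul_le_mul hpi (mul_le_mul_of_nonneg_left h4 hK00) (by positivity) (by norm_num)
      _ = 7 * K0 * L ^ B := by ring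
  have hterm : ∀ k ∈ range r, ‖ee (((c + d * q * k : ℕ) : ℝ) * ((y : ℝ) / r)) *
        ∑ n ∈ (Icc 1 X).filter (fun n => n ≡ c + d * q * k [MOD (d * q * r)]), g n -
      ee (((c + d * q * k : ℕ) : ℝ) * ((y : ℝ) / r)) *
        ((1 / ((d * q * r : ℕ) : ℂ)) * ∑ n ∈ Icc 1 X, g n)‖ ≤
      2 * K0 + (L ^ C1 + 7 * K0 * L ^ B) := by
    intro k _
    rw [← mul_sub, norm_mul, norm_ee, one_mul]
    exact class_avg X (d * q * r) (c + d * q * k) (Nat.mul_pos hdq1 hr1) g K0 _ hK00 hG hV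
  refine (norm_sum_le _ _).trans ((sum_le_sum hterm).trans ?_)
  rw [sum_const, card_range, nsmul_eq_mul]
  have hLB : 1 ≤ L ^ B := one_le_pow₀ hL1
  have hLC : 1 ≤ L ^ C1 := one_le_pow₀ hL1
  have hLBC : L ^ B ≤ L ^ B * L ^ C1 := le_mul_of_one_le_right (by positivity) hLC
  have hLCB : L ^ C1 ≤ L ^ B * L ^ C1 := le_mul_of_one_le_left (by positivity) hLB
  have h1B : 1 ≤ L ^ B * L ^ C1 := hLB.trans hLBC
  calc (r : ℝ) * (2 * K0 + (L ^ C1 + 7 * K0 * L ^ B))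
      ≤ L ^ B * (2 * K0 + (L ^ C1 + 7 * K0 * L ^ B)) :=
        mul_le_mul_of_nonneg_right hrL (by positivity)
    _ ≤ L ^ B * ((9 * K0 + 1) * (L ^ B * L ^ C1)) := by
        refine mul_le_mul_of_nonneg_left ?_ (by positivity)
        nlinarith
    _ ≤ L ^ B * (L * (L ^ B * L ^ C1)) := by
        refine mul_le_mul_of_nonneg_left ?_ (by positivity)
        exact mul_le_mul_of_nonneg_right hLge (by positivity)
    _ = L ^ (2 * B + C1 + 1) := by ring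

end Pool.MP_dd84fd_nt.EM
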