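import Pool.Agent.Lib.MP_dd84fd_nt.EM.CBs
import Pool.Agent.Lib.MP_dd84fd_nt.EM.CA
import Pool.Agent.Lib.MP_dd84fd_nt.EM.NC
import Pool.Agent.Lib.MP_dd84fd_nt.L2G.ClassAlg

/-!
# EM-CB (1.2 h): the class sums of the model

`w = wX D' X`, `fI gg X w n = gg X n f1 w n`, `δ = th/8`, `θ = y/r + β`.
Non-units `b`: `nc_fam (A + 1)` for the family `(0, gg)`, `s = 1` (`fS 0 gg 1 D' X = fI gg X w`; `W1 K0 C1 0 gg` from `W1 K0 C1 ww gg`).
Units `b`: `f1 w n = Σ_{d | n} vM d + e n`, `Σ e² ≤ X^(1-η)` (`vM_approx`).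
(1) `Σ_b |Σ_{n = b} gg(n) e(n) ee(n θ)|² ≤ (X/q + 1) K0² X^(1-η)` (`L2G.VA_trivial`).
(2) `Σ_{n = b} gg(n) Σ_{d | n} vM d ee(n θ) = Σ_{d | P, d ≤ X^δ} vM d Σ_{n = b, d | n} gg(n) ee(n θ)`; for `(d, q) > 1` the inner sum is empty (`b` unit); for `(d,q) = 1` `cb_cls`: it is
`[r | d]/(q d) Se X gg β + O(L^C)`.  Number of `d`: `≤ X^δ`, `|vM| ≤ L`: error `≤ X^δ L^(C+1)` for every `b`, in mean square `q X^(2δ) L^(2C+2) ≤ X²/(q L^(A+2))` since `q X^δ ≤ X^(1 - th + e + th/8)`.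
(3) main term `(1/q) Se Σ_{(d,q)=1, r | d} vM d/d = E1 + O(K0 X/(q L^(A+2)))` by `cb_ser (A + 2)` (`|Se| ≤ K0 X`); in mean square `q (K0 X/(q L^(A+2)))²`.
`‖x + y + z‖² ≤ 3 (...)`.
-/

set_option autoImplicit false

namespace Pool.MP_dd84fd_nt.EM

open Finset Pool.MP_67663b_nt.Odd Pool.MP_dd84fd_nt.En Pool.MP_dd84fd_nt.E2
open Pool.MP_dd84fd_nt.HX Pool.MP_dd84fd_nt.IX
open Pool.MP_dd84fd_nt.JX (ZJ DecJ Str wP gP)
open Pool.MP_dd84fd_nt.L2G (fz VA VQ MajQ MinorHyp Tc Jc cv av gr Se)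
open Pool.MP_dd84fd_nt.T7 (Fz2)

private theorem cb_exch (X q : ℕ) (g v : ℕ → ℝ) (θ : ℝ) (b : ZMod q) :
    fz X q (fun n => g n * ∑ d ∈ n.divisors, v d) θ b =
      ∑ d ∈ Icc 1 X, (v d : ℂ) *
        ∑ n ∈ (Icc 1 X).filter (fun n : ℕ => (n : ZMod q) = b ∧ d ∣ n),
          (g n : ℂ) * ee (n * θ) := by
  classical
  unfold fz
  have h1 : ∀ n ∈ (Icc 1 X).filter (fun n : ℕ => (n : ZMod q) = b),
      ((g n * ∑ d ∈ n.divisors, v d : ℝ) : ℂ) * ee (n * θ) =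
      ∑ d ∈ Icc 1 X, if d ∣ n then (v d : ℂ) * ((g n : ℂ) * ee (n * θ)) else 0 := by
    intro n hn
    rw [mem_filter, mem_Icc] at hn
    have h2 : n.divisors = (Icc 1 X).filter (fun d => d ∣ n) := by
      ext d
      rw [Nat.mem_divisors, mem_filter, mem_Icc]
      constructor
      · rintro ⟨h3, -⟩
        have h4 : d ≤ n := Nat.le_of_dvd (by omega) h3
        have h5 : 1 ≤ d := Nat.pos_of_dvd_of_pos h3 (by omega)
        exact ⟨⟨h5, by omega⟩, h3⟩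
      · rintro ⟨-, h3⟩
        exact ⟨h3, by omega⟩
    rw [h2, ← sum_filter]
    push_cast
    rw [mul_sum, sum_mul]
    refine sum_congr rfl fun d _ => ?_
    ring
  rw [sum_congr rfl h1, sum_comm]
  refine sum_congr rfl fun d _ => ?_
  rw [← sum_filter, filter_filter, mul_sum]

private theorem cb_vM (δ : ℝ) (w X d : ℕ) (R : ℝ)
    (hR : (primorial w : ℝ) / (Nat.totient (primorial w) : ℝ) ≤ R) :
    |vM δ w X d| ≤ if (d : ℝ) ≤ (X : ℝ) ^ δ then R else 0 := by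
  have h0 : (0 : ℝ) ≤ (primorial w : ℝ) / (Nat.totient (primorial w) : ℝ) := by positivity
  unfold vM
  by_cases h1 : (d : ℝ) ≤ (X : ℝ) ^ δ
  · rw [if_pos h1]
    split_ifs with h2
    · rw [abs_mul, abs_of_nonneg h0]
      have hμ : |((ArithmeticFunction.moebius d : ℤ) : ℝ)| ≤ 1 := by
        exact_mod_cast ArithmeticFunction.abs_moebius_le_one (n := d)
      calc _ ≤ R * 1 := mul_le_mul hR hμ (abs_nonneg _) (h0.trans hR)
        _ = R := mul_one R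
    · rw [abs_zero]
      exact h0.trans hR
  · rw [if_neg h1, if_neg (fun h => h1 h.2), abs_zero]

private theorem cb_main (X q r : ℕ) (δ : ℝ) (hδ1 : δ ≤ 1) (w : ℕ) (S : ℂ) (hX : 1 ≤ X) :
    (1 / (q : ℂ)) * S * ((∑ d ∈ (primorial w).divisors.filter
        (fun d => Nat.Coprime d q ∧ r ∣ d), vM δ w X d / d : ℝ) : ℂ) =
      ∑ d ∈ Icc 1 X, (if Nat.Coprime d q ∧ r ∣ d then
        (vM δ w X d : ℂ) * ((1 / ((q : ℂ) * d)) * S) else 0) := by
  classical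
  have hP : 0 < primorial w := primorial_pos w
  have hXr : (1 : ℝ) ≤ X := by exact_mod_cast hX
  have hv : ∀ d : ℕ, vM δ w X d ≠ 0 → d ∣ primorial w ∧ d ≤ X := by
    intro d hd
    unfold vM at hd
    split_ifs at hd with h
    · refine ⟨h.1, ?_⟩
      have h1 : (X : ℝ) ^ δ ≤ X := by
        calc (X : ℝ) ^ δ ≤ (X : ℝ) ^ (1 : ℝ) := Real.rpow_le_rpow_of_exponent_le hXr hδ1
          _ = X := Real.rpow_one _
      exact_mod_cast h.2.trans h1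
    · exact absurd rfl hd
  rw [← sum_filter]
  push_cast
  rw [mul_sum]
  have h1 : ∑ d ∈ (primorial w).divisors.filter (fun d => Nat.Coprime d q ∧ r ∣ d),
      1 / (q : ℂ) * S * ((vM δ w X d : ℂ) / d) =
      ∑ d ∈ (primorial w).divisors.filter (fun d => Nat.Coprime d q ∧ r ∣ d),
        (vM δ w X d : ℂ) * ((1 / ((q : ℂ) * d)) * S) := by
    refine sum_congr rfl fun d _ => ?_
    rw [one_div, one_div, mul_inv, div_eq_mul_inv]
    ring
  rw [h1]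
  have h2 : ∑ d ∈ (primorial w).divisors.filter (fun d => Nat.Coprime d q ∧ r ∣ d),
        (vM δ w X d : ℂ) * ((1 / ((q : ℂ) * d)) * S) =
      ∑ d ∈ ((Icc 1 X).filter (fun d => Nat.Coprime d q ∧ r ∣ d)).filter
        (fun d => d ∣ primorial w), (vM δ w X d : ℂ) * ((1 / ((q : ℂ) * d)) * S) := by
    symm
    refine sum_subset ?_ ?_
    · intro d hd
      rw [mem_filter, mem_filter, mem_Icc] at hd
      rw [mem_filter, Nat.mem_divisors]
      exact ⟨⟨hd.2, hP.ne'⟩, hd.1.2⟩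
    · intro d hd hd2
      rw [mem_filter, Nat.mem_divisors] at hd
      have h3 : vM δ w X d = 0 := by
        by_contra h4
        apply hd2
        rw [mem_filter, mem_filter, mem_Icc]
        exact ⟨⟨⟨Nat.pos_of_dvd_of_pos hd.1.1 hP, (hv d h4).2⟩, hd.2⟩, hd.1.1⟩
      rw [h3]
      simp
  rw [h2]
  refine sum_subset (filter_subset _ _) ?_
  intro d hd hd2
  have h3 : vM δ w X d = 0 := by
    by_contra h4
    exact hd2 (mem_filter.2 ⟨hd, (hv d h4).1⟩)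
  rw [h3]
  simp

private theorem cb_unit (X q r : ℕ) [NeZero q] (δ : ℝ) (hδ1 : δ ≤ 1) (w : ℕ)
    (g : ℕ → ℝ) (y : ℤ) (β : ℝ) (E R : ℝ) (hE : 0 ≤ E)
    (hR : (primorial w : ℝ) / (Nat.totient (primorial w) : ℝ) ≤ R) (hX : 1 ≤ X)
    (b : ZMod q) (hb : IsUnit b)
    (hcls : ∀ d : ℕ, 1 ≤ d → Nat.Coprime d q →
      ‖∑ n ∈ (Icc 1 X).filter (fun n : ℕ => (n : ZMod q) = b ∧ d ∣ n),
        (g n : ℂ) * ee (n * (y / r + β)) -
      (if r ∣ d then (1 / ((q : ℂ) * d)) * Se X g β else 0)‖ ≤ E) :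
    ‖fz X q (fun n => g n * ∑ d ∈ n.divisors, vM δ w X d) (y / r + β) b -
      (1 / (q : ℂ)) * Se X g β * ((∑ d ∈ (primorial w).divisors.filter
        (fun d => Nat.Coprime d q ∧ r ∣ d), vM δ w X d / d : ℝ) : ℂ)‖ ≤
      (X : ℝ) ^ δ * (R * E) := by
  classical
  have h0 : (0 : ℝ) ≤ (primorial w : ℝ) / (Nat.totient (primorial w) : ℝ) := by positivity
  have hR0 : 0 ≤ R := h0.trans hR
  rw [cb_exch, cb_main X q r δ hδ1 w (Se X g β) hX, ← sum_sub_distrib]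
  refine (norm_sum_le _ _).trans ?_
  have hterm : ∀ d ∈ Icc 1 X, ‖(vM δ w X d : ℂ) *
        ∑ n ∈ (Icc 1 X).filter (fun n : ℕ => (n : ZMod q) = b ∧ d ∣ n),
          (g n : ℂ) * ee (n * (y / r + β)) -
      (if Nat.Coprime d q ∧ r ∣ d then
        (vM δ w X d : ℂ) * ((1 / ((q : ℂ) * d)) * Se X g β) else 0)‖ ≤
      if (d : ℝ) ≤ (X : ℝ) ^ δ then R * E else 0 := by
    intro d hd
    rw [mem_Icc] at hd
    have hv := cb_vM δ w X d R hR
    by_cases hdq : Nat.Coprime d q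
    · have h1 := hcls d hd.1 hdq
      have h2 : (if Nat.Coprime d q ∧ r ∣ d then
          (vM δ w X d : ℂ) * ((1 / ((q : ℂ) * d)) * Se X g β) else 0) =
          (vM δ w X d : ℂ) * (if r ∣ d then (1 / ((q : ℂ) * d)) * Se X g β else 0) := by
        by_cases h3 : r ∣ d
        · rw [if_pos ⟨hdq, h3⟩, if_pos h3]
        · rw [if_neg (fun h => h3 h.2), if_neg h3, mul_zero]
      rw [h2, ← mul_sub, norm_mul, Complex.norm_real, Real.norm_eq_abs]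
      calc _ ≤ (if (d : ℝ) ≤ (X : ℝ) ^ δ then R else 0) * E :=
            mul_le_mul hv h1 (norm_nonneg _) ((abs_nonneg _).trans hv)
        _ = _ := by split_ifs <;> simp
    · have h1 : (Icc 1 X).filter (fun n : ℕ => (n : ZMod q) = b ∧ d ∣ n) = ∅ := by
        rw [filter_eq_empty_iff]
        rintro n - ⟨hn1, hn2⟩
        apply hdq
        rw [← hn1] at hb
        exact Nat.Coprime.coprime_dvd_left hn2 ((ZMod.isUnit_iff_coprime n q).1 hb)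
      rw [h1, if_neg (fun h => hdq h.1), sum_empty, mul_zero, sub_zero, norm_zero]
      split_ifs
      · positivity
      · exact le_rfl
  refine (sum_le_sum hterm).trans ?_
  rw [← sum_filter, sum_const, nsmul_eq_mul]
  refine mul_le_mul_of_nonneg_right ?_ (by positivity)
  have hXd : (0 : ℝ) ≤ (X : ℝ) ^ δ := by positivity
  have h1 : (Icc 1 X).filter (fun d : ℕ => (d : ℝ) ≤ (X : ℝ) ^ δ) ⊆ Icc 1 ⌊(X : ℝ) ^ δ⌋₊ := by
    intro d hd
    rw [mem_filter, mem_Icc] at hd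
    rw [mem_Icc]
    exact ⟨hd.1.1, Nat.le_floor hd.2⟩
  have h2 := card_le_card h1
  rw [Nat.card_Icc, Nat.add_sub_cancel] at h2
  calc (((Icc 1 X).filter (fun d : ℕ => (d : ℝ) ≤ (X : ℝ) ^ δ)).card : ℝ)
      ≤ (⌊(X : ℝ) ^ δ⌋₊ : ℝ) := by exact_mod_cast h2
    _ ≤ (X : ℝ) ^ δ := Nat.floor_le hXd

private theorem cb_Se (X : ℕ) (K : ℝ) (g : ℕ → ℝ) (β : ℝ) (hg : ∀ n, |g n| ≤ K) :
    ‖Se X g β‖ ≤ K * X := by
  unfold Se
  refine (norm_sum_le _ _).trans ?_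
  calc ∑ n ∈ Icc 1 X, ‖(g n : ℂ) * ee (n * β)‖ ≤ ∑ n ∈ Icc 1 X, K := by
        refine sum_le_sum fun n _ => ?_
        rw [norm_mul, norm_ee, mul_one, Complex.norm_real, Real.norm_eq_abs]
        exact hg n
    _ = K * X := by
        rw [sum_const, Nat.card_Icc, nsmul_eq_mul, Nat.add_sub_cancel, mul_comm]

private theorem cb_E1 (gg : ℕ → ℕ → ℝ) (X q r : ℕ) (hq : 1 ≤ q) (β K ε s : ℝ)
    (hg : ∀ n, |gg X n| ≤ K)
    (hs : |s - ((ArithmeticFunction.moebius r : ℤ) : ℝ) / (Nat.totient r : ℝ) *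
        ((q : ℝ) / (Nat.totient q : ℝ))| ≤ ε) :
    ‖(1 / (q : ℂ)) * Se X (gg X) β * ((s : ℝ) : ℂ) - E1 gg X q r β‖ ≤ K * X * ε / q := by
  have hq0 : (0 : ℝ) < q := by exact_mod_cast hq
  have hqc : (q : ℂ) ≠ 0 := by exact_mod_cast hq0.ne'
  have h1 : (1 / (q : ℂ)) * Se X (gg X) β * ((s : ℝ) : ℂ) - E1 gg X q r β =
      (1 / (q : ℂ)) * Se X (gg X) β *
        ((s - ((ArithmeticFunction.moebius r : ℤ) : ℝ) / (Nat.totient r : ℝ) *
          ((q : ℝ) / (Nat.totient q : ℝ)) : ℝ) : ℂ) := by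
    unfold E1
    rw [Complex.ofReal_sub, mul_sub]
    congr 1
    have h2 : (((((ArithmeticFunction.moebius r : ℤ) : ℝ) /
        ((Nat.totient r : ℝ) * (Nat.totient q : ℝ)) : ℝ)) : ℂ) =
        (1 / (q : ℂ)) * ((((ArithmeticFunction.moebius r : ℤ) : ℝ) / (Nat.totient r : ℝ) *
          ((q : ℝ) / (Nat.totient q : ℝ)) : ℝ) : ℂ) := by
      have h3 : (1 / (q : ℂ)) = ((1 / (q : ℝ) : ℝ) : ℂ) := by push_cast; rfl
      rw [h3, ← Complex.ofReal_mul]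
      congr 1
      by_cases h4 : (Nat.totient r : ℝ) = 0
      · rw [h4]; simp
      · by_cases h5 : (Nat.totient q : ℝ) = 0
        · rw [h5]; simp
        · field_simp
    rw [h2]
    ring
  rw [h1, norm_mul, norm_mul, Complex.norm_real, Real.norm_eq_abs, norm_div, norm_one,
    Complex.norm_natCast]
  have h2 := cb_Se X K (gg X) β hg
  have h3 : 0 ≤ K * X := (norm_nonneg _).trans h2
  calc 1 / (q : ℝ) * ‖Se X (gg X) β‖ * |s - _| ≤ 1 / (q : ℝ) * (K * X) * ε :=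
        mul_le_mul (mul_le_mul_of_nonneg_left h2 (by positivity)) hs (abs_nonneg _)
          (by positivity)
    _ = K * X * ε / q := by ring

private theorem cb_sq3 (x y z : ℂ) :
    ‖x + y + z‖ ^ 2 ≤ 3 * (‖x‖ ^ 2 + ‖y‖ ^ 2 + ‖z‖ ^ 2) := by
  have h1 : ‖x + y + z‖ ≤ ‖x‖ + ‖y‖ + ‖z‖ :=
    (norm_add_le _ _).trans (add_le_add (norm_add_le _ _) le_rfl)
  have h2 : ‖x + y + z‖ ^ 2 ≤ (‖x‖ + ‖y‖ + ‖z‖) ^ 2 := pow_le_pow_left₀ (norm_nonneg _) h1 2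
  nlinarith [sq_nonneg (‖x‖ - ‖y‖), sq_nonneg (‖y‖ - ‖z‖), sq_nonneg (‖x‖ - ‖z‖)]

private theorem cb_log (A : ℕ) (M η : ℝ) (hη : 0 < η) : ∃ X0 : ℕ, ∀ X : ℕ, X0 ≤ X →
    M * Real.log X ^ A ≤ (X : ℝ) ^ η := by
  have h := (isLittleO_log_rpow_rpow_atTop (A : ℝ) hη).bound
    (by positivity : (0 : ℝ) < 1 / (|M| + 1))
  have h2 := tendsto_natCast_atTop_atTop (R := ℝ) |>.eventually h
  obtain ⟨X0, hX0⟩ := Filter.eventually_atTop.mp h2
  refine ⟨max X0 1, fun X hX => ?_⟩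
  have h3 := hX0 X (le_trans (le_max_left _ _) hX)
  rw [Real.rpow_natCast, Real.norm_eq_abs, Real.norm_eq_abs] at h3
  have h4 : 0 ≤ Real.log X := Real.log_natCast_nonneg X
  have h4b : (0 : ℝ) ≤ (X : ℝ) ^ η := Real.rpow_nonneg (Nat.cast_nonneg X) η
  rw [abs_of_nonneg (pow_nonneg h4 A), abs_of_nonneg h4b] at h3
  have h5 : 0 < |M| + 1 := by positivity
  have h6 : (|M| + 1) * Real.log X ^ A ≤ (X : ℝ) ^ η := by
    rw [one_div, ← div_eq_inv_mul, le_div_iff₀ h5] at h3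
    linarith
  have h7 : M * Real.log X ^ A ≤ (|M| + 1) * Real.log X ^ A := by
    refine mul_le_mul_of_nonneg_right ?_ (pow_nonneg h4 A)
    linarith [le_abs_self M]
  exact h7.trans h6

/-- the numerical part -/
private theorem cb_num (X q L K0 R E W V S1 : ℝ) (A C : ℕ) (hX : 1 ≤ X) (hq : 1 ≤ q) (hqX : q ≤ X)
    (hL : 4 ≤ L) (hK : 12 * K0 ^ 2 ≤ L)
    (hR0 : 0 ≤ R) (hR : R ≤ L) (hE0 : 0 ≤ E) (hE : E ≤ L ^ C)
    (hV0 : 0 ≤ V)
    (hV : (q * V) ^ 2 * (12 * L ^ (2 + 2 * C + A)) ≤ X ^ 2)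
    (hW0 : 0 ≤ W) (hW : W * (24 * K0 ^ 2 * L ^ A) ≤ X)
    (hS1 : S1 ≤ X ^ 2 / (q * L ^ (A + 1))) :
    S1 + 3 * ((X / q + 1) * (K0 ^ 2 * W) + q * (V * (R * E)) ^ 2 +
      q * (K0 * X * (1 / L ^ (A + 2)) / q) ^ 2) ≤ X ^ 2 / (q * L ^ A) := by
  have hL0 : 0 < L := by linarith
  have hq0 : 0 < q := by linarith
  have hX0 : 0 < X := by linarith
  obtain ⟨T, hT⟩ : ∃ T, T = X ^ 2 / (q * L ^ A) := ⟨_, rfl⟩
  have hT0 : 0 < T := by rw [hT]; positivity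
  rw [← hT]
  have e1 : S1 ≤ T / 4 := by
    refine hS1.trans ?_
    have h1 : X ^ 2 / (q * L ^ (A + 1)) = T / L := by
      rw [hT, div_div, pow_succ L A, mul_assoc]
    rw [h1]
    exact div_le_div_of_nonneg_left hT0.le (by norm_num) hL
  have e2 : 3 * ((X / q + 1) * (K0 ^ 2 * W)) ≤ T / 4 := by
    have h1 : X / q + 1 ≤ 2 * (X / q) := by
      have h2 : 1 ≤ X / q := by rw [le_div_iff₀ hq0]; linarith
      linarith
    have h3 : (X / q + 1) * (K0 ^ 2 * W) ≤ 2 * (X / q) * (K0 ^ 2 * W) :=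
      mul_le_mul_of_nonneg_right h1 (by positivity)
    have h4 : 2 * (X / q) * (K0 ^ 2 * W) * 3 ≤ T / 4 := by
      rw [hT, div_div, le_div_iff₀ (by positivity)]
      have h5 : 2 * (X / q) * (K0 ^ 2 * W) * 3 * (q * L ^ A * 4) =
          X * (W * (24 * K0 ^ 2 * L ^ A)) := by
        field_simp
        ring
      rw [h5]
      calc X * (W * (24 * K0 ^ 2 * L ^ A)) ≤ X * X := mul_le_mul_of_nonneg_left hW hX0.le
        _ = X ^ 2 := by ring
    linarith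
  have e3 : 3 * (q * (V * (R * E)) ^ 2) ≤ T / 4 := by
    have h1 : R * E ≤ L ^ (1 + C) := by
      rw [pow_add, pow_one]
      exact mul_le_mul hR hE hE0 hL0.le
    have h2 : (V * (R * E)) ^ 2 ≤ (V * L ^ (1 + C)) ^ 2 :=
      pow_le_pow_left₀ (by positivity) (mul_le_mul_of_nonneg_left h1 hV0) 2
    have h3 : 3 * (q * (V * L ^ (1 + C)) ^ 2) ≤ T / 4 := by
      rw [hT, div_div, le_div_iff₀ (by positivity)]
      have h5 : 3 * (q * (V * L ^ (1 + C)) ^ 2) * (q * L ^ A * 4) =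
          (q * V) ^ 2 * (12 * L ^ (2 + 2 * C + A)) := by
        have h6 : L ^ (2 + 2 * C + A) = (L ^ (1 + C)) ^ 2 * L ^ A := by
          rw [← pow_mul, ← pow_add]
          congr 1
          ring
        rw [h6]
        ring
      rw [h5]
      exact hV
    have h4 : q * (V * (R * E)) ^ 2 ≤ q * (V * L ^ (1 + C)) ^ 2 :=
      mul_le_mul_of_nonneg_left h2 hq0.le
    linarith
  have e4 : 3 * (q * (K0 * X * (1 / L ^ (A + 2)) / q) ^ 2) ≤ T / 4 := by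
    have h1 : 3 * (q * (K0 * X * (1 / L ^ (A + 2)) / q) ^ 2) =
        T * (3 * K0 ^ 2 / L ^ (A + 4)) := by
      rw [hT]
      have h6 : q * L ^ A * L ^ (A + 4) = q * (L ^ (A + 2)) ^ 2 := by
        rw [mul_assoc, ← pow_mul, ← pow_add]
        congr 2
        ring
      rw [div_mul_div_comm, h6]
      field_simp
    rw [h1]
    have h2 : 3 * K0 ^ 2 / L ^ (A + 4) ≤ 1 / 4 := by
      rw [div_le_div_iff₀ (by positivity) (by norm_num)]
      have h3 : L ≤ L ^ (A + 4) := le_self_pow₀ (by linarith) (by omega)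
      linarith
    calc T * (3 * K0 ^ 2 / L ^ (A + 4)) ≤ T * (1 / 4) := mul_le_mul_of_nonneg_left h2 hT0.le
      _ = T / 4 := by ring
  linarith

open Classical in
theorem cb (A B K0 C1 : ℕ) : ∃ D0 : ℕ, ∀ D' : ℕ, D0 ≤ D' → ∀ th e τ : ℝ, AdE th e τ →
    ∀ ww gg : ℕ → ℕ → ℝ, W1 K0 C1 ww gg → ∃ X0 : ℕ, ∀ X : ℕ, X0 ≤ X →
    ∀ (q : ℕ) [NeZero q], Qr th e X q → ∀ (r : ℕ) (y : ℤ) (β : ℝ), Pt X q B r y β →
    ∑ b : ZMod q, ‖fz X q (fI gg X (wX D' X)) (y / r + β) b -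
      (if IsUnit b then E1 gg X q r β else 0)‖ ^ 2 ≤ X ^ 2 / (q * Real.log X ^ A) := by
  obtain ⟨D1, h1⟩ := nc_fam (A + 1) K0 C1
  obtain ⟨D2, h2⟩ := cb_ser (A + 2) B
  obtain ⟨C, X3, h3⟩ := cb_cls B K0 C1
  refine ⟨D1 + D2 + 1, fun D' hD' th e τ had ww gg hW => ?_⟩
  have hW0 : W1 K0 C1 (fun _ _ => 0) gg := by
    obtain ⟨X0, hX0⟩ := hW
    refine ⟨X0, fun X hX => ⟨fun n => ⟨?_, ((hX0 X hX).1 n).2⟩, (hX0 X hX).2⟩⟩
    rw [abs_zero]
    refine mul_nonneg (Nat.cast_nonneg _) ?_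
    unfold HX.rg
    split_ifs <;> norm_num
  obtain ⟨X1, h1⟩ := h1 D' (by omega) _ gg hW0
  obtain ⟨X2, h2⟩ := h2 D' (by omega) (1 / 64) (by norm_num)
  obtain ⟨η, hη, X4, h4⟩ := vM_approx D' (by omega) (1 / 64) (by norm_num)
  obtain ⟨X5, h5⟩ := f1_le D'
  obtain ⟨X6, h6⟩ := hW
  obtain ⟨X7, h7⟩ := cb_log A (24 * (K0 : ℝ) ^ 2) η hη
  obtain ⟨X8, h8⟩ := cb_log (2 + 2 * C + A) 12 (1 / 8) (by norm_num)
  have hlog : ∀ᶠ X : ℕ in Filter.atTop, (12 * (K0 : ℝ) ^ 2 + 4) ≤ Real.log X :=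
    (Real.tendsto_log_atTop.comp tendsto_natCast_atTop_atTop).eventually_ge_atTop _
  obtain ⟨X9, h9⟩ := Filter.eventually_atTop.mp hlog
  refine ⟨X1 + X2 + X3 + X4 + X5 + X6 + X7 + X8 + X9 + 2, fun X hX => ?_⟩
  intro q _ hq r y β hpt
  have k1 := h1 X (by omega) 1 (by norm_num) q
  have k2 := h2 X (by omega) q r
  have k3 := h3 X (by omega) (gg X) (fun n => ((h6 X (by omega)).1 n).2) (h6 X (by omega)).2
    q r y β hpt
  have k4 := (h4 X (by omega)).1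
  have k7 := h7 X (by omega)
  have k8 := h8 X (by omega)
  have k9 := h9 X (by omega)
  have hgg : ∀ n, |gg X n| ≤ K0 := fun n => ((h6 X (by omega)).1 n).2
  have hK0 : (0 : ℝ) ≤ K0 := Nat.cast_nonneg _
  have hL4 : 4 ≤ Real.log X := by nlinarith [sq_nonneg (K0 : ℝ)]
  have hLK : 12 * (K0 : ℝ) ^ 2 ≤ Real.log X := by linarith
  have hL0 : 0 < Real.log X := by linarith
  have hwX : (wX D' X : ℝ) ≤ Real.log X ^ D' := by
    unfold wX
    exact Nat.floor_le (by positivity)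
  have k5 := (h5 X (by omega) (wX D' X) hwX).1
  obtain ⟨hr1, hrB, hrq, -, -⟩ := hpt
  obtain ⟨hth, hth2, he, hτ, heτ⟩ := had
  have hXn : 2 ≤ X := by omega
  have hXR : (2 : ℝ) ≤ X := by exact_mod_cast hXn
  have hXp : (0 : ℝ) < X := by linarith
  have hq1 : 1 ≤ q := Nat.one_le_iff_ne_zero.2 (NeZero.ne q)
  have hqp : (0 : ℝ) < q := by exact_mod_cast hq1
  have hqX : (q : ℝ) ≤ X := by
    refine hq.trans ?_
    calc (X : ℝ) ^ (1 - th + e) ≤ (X : ℝ) ^ (1 : ℝ) :=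
          Real.rpow_le_rpow_of_exponent_le (by linarith) (by linarith)
      _ = X := Real.rpow_one _
  have hqXn : q ≤ X := by exact_mod_cast hqX
  have k1 := k1 hqXn (y / r + β)
  have k2 := k2 hq1 hqXn hr1 hrB hrq
  obtain ⟨w, hw⟩ : ∃ w, w = wX D' X := ⟨_, rfl⟩
  obtain ⟨L, hL⟩ : ∃ L, L = Real.log X := ⟨_, rfl⟩
  obtain ⟨θ, hθ⟩ : ∃ θ : ℝ, θ = y / r + β := ⟨_, rfl⟩
  obtain ⟨T, hT⟩ : ∃ T : ℕ → ℝ, T = fun n => ∑ d ∈ n.divisors, vM (1 / 64) w X d := ⟨_, rfl⟩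
  obtain ⟨s, hs⟩ : ∃ s : ℝ, s = ∑ d ∈ (primorial w).divisors.filter
      (fun d => Nat.Coprime d q ∧ r ∣ d), vM (1 / 64) w X d / d := ⟨_, rfl⟩
  rw [← hw, ← hs] at k2
  rw [← hw] at k4 k5
  have hfS : fS (fun _ _ => 0) gg 1 D' X = fI gg X w := by
    funext n
    unfold fS
    rw [hw]
    ring
  rw [hfS, ← hθ] at k1
  rw [← hw, ← hθ]
  -- the units
  have hu : ∀ b : ZMod q, IsUnit b → ‖fz X q (fI gg X w) θ b - E1 gg X q r β‖ ^ 2 ≤
      3 * (‖fz X q (fun n => gg X n * (f1 w n - T n)) θ b‖ ^ 2 +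
        ((X : ℝ) ^ (1 / 64 : ℝ) * (L * L ^ C)) ^ 2 + (K0 * X * (1 / L ^ (A + 2)) / q) ^ 2) := by
    intro b hb
    have u1 := cb_unit X q r (1 / 64) (by norm_num) w (gg X) y β (L ^ C) L
      (by rw [hL]; positivity) (by rw [hL]; exact k5) (by omega) b hb
      (fun d hd hdq => by rw [hL]; exact k3 b d hd hdq)
    rw [← hs, ← hθ] at u1
    have u2 := cb_E1 gg X q r hq1 β K0 (1 / L ^ (A + 2)) s hgg (by rw [hL]; exact k2)
    have u3 : fz X q (fI gg X w) θ b - E1 gg X q r β =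
        fz X q (fun n => gg X n * (f1 w n - T n)) θ b +
        (fz X q (fun n => gg X n * ∑ d ∈ n.divisors, vM (1 / 64) w X d) θ b -
          (1 / (q : ℂ)) * Se X (gg X) β * ((s : ℝ) : ℂ)) +
        ((1 / (q : ℂ)) * Se X (gg X) β * ((s : ℝ) : ℂ) - E1 gg X q r β) := by
      have u4 : fz X q (fI gg X w) θ b = fz X q (fun n => gg X n * (f1 w n - T n)) θ b +
          fz X q (fun n => gg X n * ∑ d ∈ n.divisors, vM (1 / 64) w X d) θ b := by
        unfold fz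
        rw [← sum_add_distrib]
        refine sum_congr rfl fun n _ => ?_
        rw [← add_mul, ← Complex.ofReal_add]
        congr 2
        rw [hT]
        unfold fI
        ring
      rw [u4]
      ring
    rw [u3]
    refine (cb_sq3 _ _ _).trans ?_
    refine mul_le_mul_of_nonneg_left ?_ (by norm_num)
    refine add_le_add (add_le_add le_rfl ?_) ?_
    · exact pow_le_pow_left₀ (norm_nonneg _) u1 2
    · exact pow_le_pow_left₀ (norm_nonneg _) u2 2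
  -- the mean square of the error of the model
  have hva : ∑ b : ZMod q, ‖fz X q (fun n => gg X n * (f1 w n - T n)) θ b‖ ^ 2 ≤
      ((X : ℝ) / q + 1) * ((K0 : ℝ) ^ 2 * (X : ℝ) ^ (1 - η)) := by
    refine (L2G.VA_trivial X q (fun n => gg X n * (f1 w n - T n)) θ).trans ?_
    refine mul_le_mul_of_nonneg_left ?_ (by positivity)
    calc ∑ n ∈ Icc 1 X, (gg X n * (f1 w n - T n)) ^ 2
        ≤ ∑ n ∈ Icc 1 X, (K0 : ℝ) ^ 2 * (f1 w n - T n) ^ 2 := by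
          refine sum_le_sum fun n _ => ?_
          rw [mul_pow]
          refine mul_le_mul_of_nonneg_right ?_ (sq_nonneg _)
          exact sq_le_sq' (abs_le.1 (hgg n)).1 (abs_le.1 (hgg n)).2
      _ = (K0 : ℝ) ^ 2 * ∑ n ∈ Icc 1 X, (f1 w n - T n) ^ 2 := by rw [mul_sum]
      _ ≤ (K0 : ℝ) ^ 2 * (X : ℝ) ^ (1 - η) := by
          refine mul_le_mul_of_nonneg_left ?_ (sq_nonneg _)
          rw [hT]
          exact k4
  -- the sum
  rw [← sum_filter_add_sum_filter_not univ (fun b : ZMod q => IsUnit b)]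
  have g1 : ∑ b ∈ univ.filter (fun b : ZMod q => ¬ IsUnit b), ‖fz X q (fI gg X w) θ b -
      (if IsUnit b then E1 gg X q r β else 0)‖ ^ 2 ≤ X ^ 2 / (q * L ^ (A + 1)) := by
    rw [hL]
    refine le_trans (le_of_eq ?_) k1
    refine sum_congr ?_ fun b hb => ?_
    · ext b
      simp only [mem_filter, mem_univ, true_and]
    · have hb2 : ¬ IsUnit b := (mem_filter.1 hb).2
      rw [if_neg hb2, sub_zero]
  have g2 : ∑ b ∈ univ.filter (fun b : ZMod q => IsUnit b), ‖fz X q (fI gg X w) θ b -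
      (if IsUnit b then E1 gg X q r β else 0)‖ ^ 2 ≤
      3 * (((X : ℝ) / q + 1) * ((K0 : ℝ) ^ 2 * (X : ℝ) ^ (1 - η)) +
        q * ((X : ℝ) ^ (1 / 64 : ℝ) * (L * L ^ C)) ^ 2 +
        q * (K0 * X * (1 / L ^ (A + 2)) / q) ^ 2) := by
    calc _ ≤ ∑ b ∈ univ.filter (fun b : ZMod q => IsUnit b),
          3 * (‖fz X q (fun n => gg X n * (f1 w n - T n)) θ b‖ ^ 2 +
            ((X : ℝ) ^ (1 / 64 : ℝ) * (L * L ^ C)) ^ 2 +
            (K0 * X * (1 / L ^ (A + 2)) / q) ^ 2) := by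
          refine sum_le_sum fun b hb => ?_
          have hb2 : IsUnit b := (mem_filter.1 hb).2
          rw [if_pos hb2]
          exact hu b hb2
      _ ≤ ∑ b : ZMod q,
          3 * (‖fz X q (fun n => gg X n * (f1 w n - T n)) θ b‖ ^ 2 +
            ((X : ℝ) ^ (1 / 64 : ℝ) * (L * L ^ C)) ^ 2 +
            (K0 * X * (1 / L ^ (A + 2)) / q) ^ 2) :=
          sum_le_sum_of_subset_of_nonneg (filter_subset _ _) fun b _ _ => by positivity
      _ = 3 * (∑ b : ZMod q, ‖fz X q (fun n => gg X n * (f1 w n - T n)) θ b‖ ^ 2 +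
            q * ((X : ℝ) ^ (1 / 64 : ℝ) * (L * L ^ C)) ^ 2 +
            q * (K0 * X * (1 / L ^ (A + 2)) / q) ^ 2) := by
          rw [← mul_sum, sum_add_distrib, sum_add_distrib, sum_const, sum_const, card_univ,
            ZMod.card, nsmul_eq_mul, nsmul_eq_mul]
      _ ≤ _ := by
          refine mul_le_mul_of_nonneg_left ?_ (by norm_num)
          exact add_le_add (add_le_add hva le_rfl) le_rfl
  have hXrp : ∀ u v : ℝ, (X : ℝ) ^ u * (X : ℝ) ^ v = (X : ℝ) ^ (u + v) :=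
    fun u v => (Real.rpow_add hXp u v).symm
  have g3 : (X : ℝ) ^ (1 - η) * (24 * (K0 : ℝ) ^ 2 * L ^ A) ≤ X := by
    rw [hL]
    calc (X : ℝ) ^ (1 - η) * (24 * (K0 : ℝ) ^ 2 * Real.log X ^ A)
        ≤ (X : ℝ) ^ (1 - η) * (X : ℝ) ^ η := mul_le_mul_of_nonneg_left k7 (by positivity)
      _ = X := by
          rw [hXrp, show (1 : ℝ) - η + η = 1 by ring, Real.rpow_one]
  have g4 : ((q : ℝ) * (X : ℝ) ^ (1 / 64 : ℝ)) ^ 2 * (12 * L ^ (2 + 2 * C + A)) ≤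
      (X : ℝ) ^ 2 := by
    have r1 : (q : ℝ) * (X : ℝ) ^ (1 / 64 : ℝ) ≤ (X : ℝ) ^ (15 / 16 : ℝ) := by
      calc (q : ℝ) * (X : ℝ) ^ (1 / 64 : ℝ) ≤ (X : ℝ) ^ (1 - th + e) * (X : ℝ) ^ (1 / 64 : ℝ) :=
            mul_le_mul_of_nonneg_right hq (by positivity)
        _ = (X : ℝ) ^ (1 - th + e + 1 / 64) := hXrp _ _
        _ ≤ (X : ℝ) ^ (15 / 16 : ℝ) :=
            Real.rpow_le_rpow_of_exponent_le (by linarith) (by linarith)
    have r2 : ((q : ℝ) * (X : ℝ) ^ (1 / 64 : ℝ)) ^ 2 ≤ ((X : ℝ) ^ (15 / 16 : ℝ)) ^ 2 :=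
      pow_le_pow_left₀ (by positivity) r1 2
    have r3 : 12 * L ^ (2 + 2 * C + A) ≤ (X : ℝ) ^ (1 / 8 : ℝ) := by rw [hL]; exact k8
    calc _ ≤ ((X : ℝ) ^ (15 / 16 : ℝ)) ^ 2 * (X : ℝ) ^ (1 / 8 : ℝ) :=
          mul_le_mul r2 r3 (by rw [hL]; positivity) (by positivity)
      _ = (X : ℝ) ^ 2 := by
          rw [pow_two ((X : ℝ) ^ (15 / 16 : ℝ)), hXrp, hXrp]
          norm_num
  rw [hL] at g1 g2 g3 g4
  have g5 := cb_num (X : ℝ) (q : ℝ) (Real.log X) K0 (Real.log X) (Real.log X ^ C)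
    ((X : ℝ) ^ (1 - η)) ((X : ℝ) ^ (1 / 64 : ℝ)) _ A C (by linarith) (by exact_mod_cast hq1) hqX
    hL4 hLK hL0.le le_rfl (by positivity) le_rfl (by positivity) g4 (by positivity) g3 g1
  linarith

end Pool.MP_dd84fd_nt.EM
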