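import Pool.Agent.Lib.MP_dd84fd_nt.EM.Mod
import Pool.Agent.Lib.MP_dd84fd_nt.E2.RoughClass
import Pool.Agent.Lib.MP_dd84fd_nt.L2G.ModelArith

/-!
# EM-CBs (1 h): the singular series of the model

`w = wX D' X`, `P = primorial w`, `c_w = P/φ(P)`, `D' ≥ B`, so all primes of `r ≤ L^B` are `≤ w` (`wX = ⌊L^D'⌋`).  Remove the truncation with `vM_approx` (second part; the terms are `≤ c_w/d`): error `X^(-η)`.
`c_w Σ_{d | P, (d,q) = 1, r | d} μ(d)/d`: if `r` is not squarefree there is no such `d` and `μ(r) = 0`.  Otherwise `d = r d'`, `(d', q r) = 1`, `d' | P`: `= μ(r)/r c_w Σ_{d' | P, (d', q r) = 1} μ(d')/d'`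
`= μ(r)/r c_w Π_{p ≤ w, p ∤ q r} (1 - 1/p) = μ(r)/r Π_{p ≤ w, p | q r} (1 - 1/p)⁻¹ = μ(r)/φ(r) Π_{p ≤ w, p | q} (1 - 1/p)⁻¹` (compare `E2.RC_complete` with `r := q r` for the product formula; there
all primes of `r` are `≤ w`; use it for the `w`-smooth part: `RC_complete w (r q_w)`, where `q_w = Π_{p | q, p ≤ w} p`, `gcd(d, q) = 1 ↔ gcd(d, q_w) = 1` for `d | P`: the value is `1/φ(r q_w) = 1/(φ(r) φ(q_w))`, times
`q_w`: `q_w/φ(q_w) = Π_{p ≤ w, p | q} (1-1/p)⁻¹`).
`q/φ(q) = (q_w/φ(q_w)) Π_{p | q, p > w} (1 - 1/p)⁻¹` and `1 ≤ Π_{p | q, p > w} (1 - 1/p)⁻¹ ≤ 1 + 2 ω(q)/L^D'·(...)` (`Π (1-1/p) ≥ 1 - Σ 1/p ≥ 1 - ω(q)/L^D' ≥ 1/2`, `ω(q) ≤ 2 L` from `2^ω ≤ q ≤ X`), `q/φ(q) ≤ 2 + 2 log q`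
(`L2G.totient_lower`): the difference is `≤ (2 + 2 L) 4 L/L^D' ≤ 1/(2 L^A)` for `D' ≥ A + 4`.
-/

set_option autoImplicit false

namespace Pool.MP_dd84fd_nt.EM

open Finset Pool.MP_67663b_nt.Odd Pool.MP_dd84fd_nt.En Pool.MP_dd84fd_nt.E2
open Pool.MP_dd84fd_nt.HX Pool.MP_dd84fd_nt.IX
open Pool.MP_dd84fd_nt.JX (ZJ DecJ Str wP gP)
open Pool.MP_dd84fd_nt.L2G (fz VA VQ MajQ MinorHyp Tc Jc cv av gr Se)
open Pool.MP_dd84fd_nt.T7 (Fz2)

private theorem cbs_dvd (w r : ℕ) (hr : Squarefree r)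
    (hrw : ∀ p : ℕ, p.Prime → p ∣ r → p ≤ w) : r ∣ primorial w := by
  have hP : 0 < primorial w := primorial_pos w
  have h1 := Nat.prod_primeFactors_of_squarefree hr
  have h2 := Nat.prod_primeFactors_of_squarefree (squarefree_primorial w)
  rw [← h1, ← h2]
  apply Finset.prod_dvd_prod_of_subset
  intro p hp
  have hp' := Nat.mem_primeFactors.mp hp
  rw [primeFactors_primorial, Nat.mem_primesLE]
  exact ⟨hrw p hp'.1 hp'.2.1, hp'.1⟩

private theorem cbs_full (w q r : ℕ) (hq : 1 ≤ q) (hr : 1 ≤ r)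
    (hrw : ∀ p : ℕ, p.Prime → p ∣ r → p ≤ w) (hrq : Nat.Coprime r q) :
    ∑ d ∈ (primorial w).divisors.filter (fun d => Nat.Coprime d q ∧ r ∣ d),
      (primorial w : ℝ) / (Nat.totient (primorial w) : ℝ) *
        ((ArithmeticFunction.moebius d : ℤ) : ℝ) / d =
    ((ArithmeticFunction.moebius r : ℤ) : ℝ) / (Nat.totient r : ℝ) *
      ((Nat.gcd q (primorial w) : ℝ) / (Nat.totient (Nat.gcd q (primorial w)) : ℝ)) := by
  have hP : 0 < primorial w := primorial_pos w
  have hsqP : Squarefree (primorial w) := squarefree_primorial w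
  by_cases hsq : Squarefree r
  · have hrP : r ∣ primorial w := cbs_dvd w r hsq hrw
    set g := Nat.gcd q (primorial w) with hg
    have hg0 : 0 < g := Nat.gcd_pos_of_pos_left _ hq
    have hgq : g ∣ q := Nat.gcd_dvd_left _ _
    have hgP : g ∣ primorial w := Nat.gcd_dvd_right _ _
    have hrg : Nat.Coprime r g := Nat.Coprime.coprime_dvd_right hgq hrq
    have hreidx : ∑ d ∈ (primorial w).divisors.filter (fun d => Nat.Coprime d q ∧ r ∣ d),
        (primorial w : ℝ) / (Nat.totient (primorial w) : ℝ) *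
          ((ArithmeticFunction.moebius d : ℤ) : ℝ) / d =
        ∑ d ∈ (primorial w).divisors.filter (fun d => Nat.Coprime d (r * g)),
          (primorial w : ℝ) / (Nat.totient (primorial w) : ℝ) *
            (((ArithmeticFunction.moebius r : ℤ) : ℝ) *
              ((ArithmeticFunction.moebius d : ℤ) : ℝ)) / ((r : ℝ) * d) := by
      symm
      refine Finset.sum_bij (fun d _ => r * d) ?_ ?_ ?_ ?_
      · intro d hd
        rw [Finset.mem_filter, Nat.mem_divisors] at hd ⊢
        obtain ⟨⟨hdP, -⟩, hdc⟩ := hd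
        have hdr : Nat.Coprime d r := Nat.Coprime.coprime_mul_right_right hdc
        have hdg : Nat.Coprime d g := Nat.Coprime.coprime_mul_left_right hdc
        have hdq : Nat.Coprime d q := by
          have h1 : Nat.gcd d q ∣ g :=
            Nat.dvd_gcd (Nat.gcd_dvd_right _ _) ((Nat.gcd_dvd_left _ _).trans hdP)
          have h2 : Nat.gcd d q ∣ Nat.gcd d g := Nat.dvd_gcd (Nat.gcd_dvd_left _ _) h1
          rw [hdg] at h2
          exact Nat.dvd_one.mp h2
        exact ⟨⟨Nat.Coprime.mul_dvd_of_dvd_of_dvd hdr.symm hrP hdP, hP.ne'⟩,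
          Nat.Coprime.mul_left hrq hdq, dvd_mul_right r d⟩
      · intro d1 _ d2 _ h12
        exact Nat.eq_of_mul_eq_mul_left (by omega) h12
      · intro d hd
        rw [Finset.mem_filter, Nat.mem_divisors] at hd
        obtain ⟨⟨hdP, -⟩, hdq, d', rfl⟩ := hd
        have hsqd : Squarefree (r * d') := hsqP.squarefree_of_dvd hdP
        have hcop : Nat.Coprime r d' := (Nat.squarefree_mul_iff.mp hsqd).1
        refine ⟨d', ?_, rfl⟩
        rw [Finset.mem_filter, Nat.mem_divisors]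
        refine ⟨⟨(dvd_mul_left d' r).trans hdP, hP.ne'⟩, ?_⟩
        refine Nat.Coprime.mul_right hcop.symm ?_
        exact Nat.Coprime.coprime_dvd_right hgq (Nat.Coprime.coprime_mul_left hdq)
      · intro d hd
        rw [Finset.mem_filter, Nat.mem_divisors] at hd
        obtain ⟨⟨hdP, -⟩, hdc⟩ := hd
        have hdr : Nat.Coprime d r := Nat.Coprime.coprime_mul_right_right hdc
        rw [ArithmeticFunction.isMultiplicative_moebius.map_mul_of_coprime hdr.symm]
        push_cast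
        rfl
    rw [hreidx]
    have hpw : ∀ p : ℕ, p.Prime → p ∣ r * g → p ≤ w := by
      intro p hp hpd
      rcases (Nat.Prime.dvd_mul hp).mp hpd with h | h
      · exact hrw p hp h
      · have h1 : p ∈ (primorial w).primeFactors :=
          Nat.mem_primeFactors.mpr ⟨hp, h.trans hgP, hP.ne'⟩
        rw [primeFactors_primorial, Nat.mem_primesLE] at h1
        exact h1.1
    have hrc := RC_complete w (r * g) (Nat.mul_pos (by omega) hg0) hpw
    rw [Nat.totient_mul hrg] at hrc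
    push_cast at hrc
    have hr' : (0 : ℝ) < r := by exact_mod_cast hr
    have hg' : (0 : ℝ) < g := by exact_mod_cast hg0
    have hφr : (0 : ℝ) < Nat.totient r := by exact_mod_cast Nat.totient_pos.2 hr
    have hφg : (0 : ℝ) < Nat.totient g := by exact_mod_cast Nat.totient_pos.2 hg0
    have h1 : ∀ d ∈ (primorial w).divisors.filter (fun d => Nat.Coprime d (r * g)),
        (primorial w : ℝ) / (Nat.totient (primorial w) : ℝ) *
            (((ArithmeticFunction.moebius r : ℤ) : ℝ) *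
              ((ArithmeticFunction.moebius d : ℤ) : ℝ)) / ((r : ℝ) * d) =
        (((ArithmeticFunction.moebius r : ℤ) : ℝ) * g) *
          ((primorial w : ℝ) / (Nat.totient (primorial w) : ℝ) * (1 / ((r : ℝ) * g) *
            (((ArithmeticFunction.moebius d : ℤ) : ℝ) * (1 / (d : ℝ))))) := by
      intro d hd
      rw [Finset.mem_filter, Nat.mem_divisors] at hd
      have hd0 : (0 : ℝ) < d := by exact_mod_cast Nat.pos_of_dvd_of_pos hd.1.1 hP
      field_simp
    rw [Finset.sum_congr rfl h1, ← Finset.mul_sum, ← Finset.mul_sum, ← Finset.mul_sum, hrc]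
    field_simp
  · rw [ArithmeticFunction.moebius_eq_zero_of_not_squarefree hsq]
    rw [Finset.sum_eq_zero]
    · simp
    · intro d hd
      rw [Finset.mem_filter, Nat.mem_divisors] at hd
      exact absurd (hsqP.squarefree_of_dvd (hd.2.2.trans hd.1.1)) hsq

private theorem cbs_totient (n : ℕ) :
    (Nat.totient n : ℝ) = n * ∏ p ∈ n.primeFactors, (1 - 1 / (p : ℝ)) := by
  have h := Nat.totient_eq_mul_prod_factors n
  have h2 := congrArg (fun x : ℚ => (x : ℝ)) h
  push_cast at h2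
  rw [h2]
  simp only [one_div]

private theorem cbs_prod (s : Finset ℕ) (a : ℕ → ℝ) (ha : ∀ i ∈ s, 0 ≤ a i ∧ a i ≤ 1) :
    1 - ∑ i ∈ s, a i ≤ ∏ i ∈ s, (1 - a i) ∧ ∏ i ∈ s, (1 - a i) ≤ 1 ∧
      0 ≤ ∏ i ∈ s, (1 - a i) := by
  classical
  induction s using Finset.induction_on with
  | empty => simp
  | insert i s hi ih =>
    have h1 := ih (fun j hj => ha j (Finset.mem_insert_of_mem hj))
    have h2 := ha i (Finset.mem_insert_self i s)
    rw [Finset.sum_insert hi, Finset.prod_insert hi]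
    obtain ⟨h3, h4, h5⟩ := h1
    refine ⟨?_, ?_, ?_⟩
    · nlinarith
    · nlinarith
    · exact mul_nonneg (by linarith) h5

private theorem cbs_tail (q w : ℕ) (hq : 1 ≤ q) (T : ℝ) (hT : 0 < T)
    (hw : ∀ p : ℕ, w < p → T ≤ p) :
    |(Nat.gcd q (primorial w) : ℝ) / (Nat.totient (Nat.gcd q (primorial w)) : ℝ) -
      (q : ℝ) / (Nat.totient q : ℝ)| ≤
      ((q : ℝ) / (Nat.totient q : ℝ)) * ((q.primeFactors.card : ℝ) / T) := by
  have hP : 0 < primorial w := primorial_pos w
  set g := Nat.gcd q (primorial w) with hg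
  have hg0 : 0 < g := Nat.gcd_pos_of_pos_left _ hq
  have hgf : g.primeFactors = q.primeFactors ∩ (primorial w).primeFactors :=
    Nat.primeFactors_gcd (by omega) hP.ne'
  have hsub : g.primeFactors ⊆ q.primeFactors := by
    rw [hgf]
    exact Finset.inter_subset_left
  set a : ℝ := ∏ p ∈ g.primeFactors, (1 - 1 / (p : ℝ)) with ha
  set b : ℝ := ∏ p ∈ q.primeFactors \ g.primeFactors, (1 - 1 / (p : ℝ)) with hb
  have hpos : ∀ p : ℕ, p.Prime → 0 < 1 - 1 / (p : ℝ) := by
    intro p hp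
    have h1 : (1 : ℝ) < p := by exact_mod_cast hp.one_lt
    rw [sub_pos, div_lt_one (by linarith)]
    exact h1
  have ha0 : 0 < a := Finset.prod_pos fun p hp => hpos p (Nat.prime_of_mem_primeFactors hp)
  have hb0 : 0 < b := Finset.prod_pos fun p hp =>
    hpos p (Nat.prime_of_mem_primeFactors (Finset.mem_sdiff.mp hp).1)
  have hφg : (Nat.totient g : ℝ) = g * a := cbs_totient g
  have hφq : (Nat.totient q : ℝ) = q * (b * a) := by
    rw [cbs_totient q, hb, ha, Finset.prod_sdiff hsub]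
  have hb1 := cbs_prod (q.primeFactors \ g.primeFactors) (fun p => 1 / (p : ℝ)) (by
    intro p hp
    have hp' : p.Prime := Nat.prime_of_mem_primeFactors (Finset.mem_sdiff.mp hp).1
    have h1 : (1 : ℝ) ≤ p := by exact_mod_cast hp'.one_lt.le
    refine ⟨by positivity, ?_⟩
    rw [div_le_one (by linarith)]
    exact h1)
  obtain ⟨hb2, hb3, -⟩ := hb1
  have hsum : ∑ p ∈ q.primeFactors \ g.primeFactors, 1 / (p : ℝ) ≤
      (q.primeFactors.card : ℝ) / T := by
    have h1 : ∀ p ∈ q.primeFactors \ g.primeFactors, 1 / (p : ℝ) ≤ 1 / T := by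
      intro p hp
      rw [Finset.mem_sdiff] at hp
      have hp' : p.Prime := Nat.prime_of_mem_primeFactors hp.1
      have h2 : w < p := by
        by_contra h3
        apply hp.2
        rw [hgf, Finset.mem_inter, primeFactors_primorial, Nat.mem_primesLE]
        exact ⟨hp.1, by omega, hp'⟩
      exact one_div_le_one_div_of_le hT (hw p h2)
    refine (Finset.sum_le_sum h1).trans ?_
    rw [Finset.sum_const, nsmul_eq_mul, mul_one_div]
    refine div_le_div_of_nonneg_right ?_ hT.le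
    exact_mod_cast Finset.card_le_card Finset.sdiff_subset
  have hq' : (0 : ℝ) < q := by exact_mod_cast hq
  have hg' : (0 : ℝ) < g := by exact_mod_cast hg0
  have e1 : (g : ℝ) / (Nat.totient g : ℝ) = 1 / a := by
    rw [hφg]; field_simp
  have e2 : (q : ℝ) / (Nat.totient q : ℝ) = 1 / (b * a) := by
    rw [hφq]; field_simp
  rw [e1, e2]
  have e3 : 1 / a - 1 / (b * a) = -(1 / (b * a) * (1 - b)) := by
    field_simp
    ring
  have hb3' : b ≤ 1 := hb3
  have hb2' : 1 - ∑ p ∈ q.primeFactors \ g.primeFactors, 1 / (p : ℝ) ≤ b := hb2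
  rw [e3, abs_neg, abs_of_nonneg (mul_nonneg (by positivity) (by linarith))]
  refine mul_le_mul_of_nonneg_left ?_ (by positivity)
  linarith

private theorem cbs_card_le (n : ℕ) (hn : 0 < n) :
    (n.primeFactors.card : ℝ) ≤ 2 * Real.log n := by
  have h1 : 2 ^ n.primeFactors.card ≤ n := by
    calc 2 ^ n.primeFactors.card = ∏ _p ∈ n.primeFactors, 2 := by rw [prod_const]
      _ ≤ ∏ p ∈ n.primeFactors, p :=
          Finset.prod_le_prod' fun p hp => (Nat.prime_of_mem_primeFactors hp).two_le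
      _ ≤ n := Nat.le_of_dvd hn (Nat.prod_primeFactors_dvd n)
  have h2 : ((2 : ℝ)) ^ n.primeFactors.card ≤ n := by exact_mod_cast h1
  have h3 := Real.log_le_log (by positivity) h2
  rw [Real.log_pow] at h3
  have h4 := Real.log_two_gt_d9
  have h5 : (0 : ℝ) ≤ n.primeFactors.card := Nat.cast_nonneg _
  nlinarith

private theorem cbs_trunc (δ : ℝ) (w X q r : ℕ) :
    |∑ d ∈ (primorial w).divisors.filter (fun d => Nat.Coprime d q ∧ r ∣ d),
        vM δ w X d / d -
      ∑ d ∈ (primorial w).divisors.filter (fun d => Nat.Coprime d q ∧ r ∣ d),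
        (primorial w : ℝ) / (Nat.totient (primorial w) : ℝ) *
          ((ArithmeticFunction.moebius d : ℤ) : ℝ) / d| ≤
      (primorial w : ℝ) / (Nat.totient (primorial w) : ℝ) *
        ∑ d ∈ (primorial w).divisors.filter (fun d : ℕ => (X : ℝ) ^ δ < (d : ℝ)),
          1 / (d : ℝ) := by
  have hc : 0 ≤ (primorial w : ℝ) / (Nat.totient (primorial w) : ℝ) := by positivity
  set cw : ℝ := (primorial w : ℝ) / (Nat.totient (primorial w) : ℝ) with hcw
  rw [← Finset.sum_sub_distrib]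
  refine (Finset.abs_sum_le_sum_abs _ _).trans ?_
  rw [Finset.mul_sum, Finset.sum_filter, Finset.sum_filter]
  refine Finset.sum_le_sum fun d hd => ?_
  have hdP : d ∣ primorial w := (Nat.mem_divisors.mp hd).1
  have hμ : |((ArithmeticFunction.moebius d : ℤ) : ℝ)| ≤ 1 := by
    exact_mod_cast ArithmeticFunction.abs_moebius_le_one (n := d)
  by_cases h1 : (X : ℝ) ^ δ < (d : ℝ)
  · rw [if_pos h1]
    split_ifs with h2
    · have h3 : vM δ w X d = 0 := by
        unfold vM
        rw [if_neg]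
        exact fun h => absurd h.2 (not_le.mpr h1)
      rw [h3, zero_div, zero_sub, abs_neg, abs_div, abs_mul, abs_of_nonneg hc,
        abs_of_nonneg (Nat.cast_nonneg d : (0 : ℝ) ≤ d)]
      rw [mul_div_assoc]
      refine mul_le_mul_of_nonneg_left ?_ hc
      exact div_le_div_of_nonneg_right hμ (Nat.cast_nonneg d)
    · positivity
  · rw [if_neg h1]
    split_ifs with h2
    · have h3 : vM δ w X d = cw * ((ArithmeticFunction.moebius d : ℤ) : ℝ) := by
        unfold vM
        rw [if_pos ⟨hdP, not_lt.mp h1⟩]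
      rw [h3, sub_self, abs_zero]
    · exact le_rfl

private theorem cbs_log (A : ℕ) (η : ℝ) (hη : 0 < η) : ∃ X0 : ℕ, ∀ X : ℕ, X0 ≤ X →
    2 * Real.log X ^ A ≤ (X : ℝ) ^ η := by
  have h := (isLittleO_log_rpow_rpow_atTop (A : ℝ) hη).bound (by norm_num : (0 : ℝ) < 1 / 2)
  have h2 := tendsto_natCast_atTop_atTop (R := ℝ) |>.eventually h
  obtain ⟨X0, hX0⟩ := Filter.eventually_atTop.mp h2
  refine ⟨max X0 1, fun X hX => ?_⟩
  have h3 := hX0 X (le_trans (le_max_left _ _) hX)
  rw [Real.rpow_natCast, Real.norm_eq_abs, Real.norm_eq_abs] at h3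
  have h4 : 0 ≤ Real.log X := Real.log_natCast_nonneg X
  rw [abs_of_nonneg (pow_nonneg h4 A), abs_of_nonneg (by positivity)] at h3
  linarith

theorem cb_ser (A B : ℕ) : ∃ D0 : ℕ, ∀ D' : ℕ, D0 ≤ D' → ∀ δ : ℝ, 0 < δ → ∃ X0 : ℕ, ∀ X : ℕ,
    X0 ≤ X → ∀ q r : ℕ, 1 ≤ q → q ≤ X → 1 ≤ r → (r : ℝ) ≤ Real.log X ^ B → Nat.Coprime r q →
    |∑ d ∈ (primorial (wX D' X)).divisors.filter (fun d => Nat.Coprime d q ∧ r ∣ d),
        vM δ (wX D' X) X d / d -
      ((ArithmeticFunction.moebius r : ℤ) : ℝ) / (Nat.totient r : ℝ) *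
        ((q : ℝ) / (Nat.totient q : ℝ))| ≤ 1 / Real.log X ^ A := by
  refine ⟨A + B + 6, ?_⟩
  intro D' hD' δ hδ
  obtain ⟨η, hη, X1, hX1⟩ := vM_approx D' (by omega) δ hδ
  obtain ⟨X2, hX2⟩ := cbs_log A η hη
  refine ⟨max 8 (max X1 X2), ?_⟩
  intro X hX q r hq hqX hr hrL hrq
  have hX8 : 8 ≤ X := le_trans (le_max_left _ _) hX
  have hXa : X1 ≤ X := le_trans (le_trans (le_max_left _ _) (le_max_right _ _)) hX
  have hXb : X2 ≤ X := le_trans (le_trans (le_max_right _ _) (le_max_right _ _)) hX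
  have hL2 : 2 ≤ Real.log X := by
    have h1 : (8 : ℝ) ≤ X := by exact_mod_cast hX8
    have h2 : Real.log (8 : ℝ) ≤ Real.log X := Real.log_le_log (by norm_num) h1
    have h3 : Real.log (8 : ℝ) = 3 * Real.log 2 := by
      rw [show (8 : ℝ) = 2 ^ 3 by norm_num, Real.log_pow]
      norm_num
    have h4 := Real.log_two_gt_d9
    linarith
  set L : ℝ := Real.log X with hLdef
  have hL0 : 0 < L := by linarith
  have hL1 : 1 ≤ L := by linarith
  have hXr : (0 : ℝ) < X := by
    have : 0 < X := by omega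
    exact_mod_cast this
  have hrw : ∀ p : ℕ, p.Prime → p ∣ r → p ≤ wX D' X := by
    intro p hp hpr
    unfold wX
    apply Nat.le_floor
    have h1 : (p : ℝ) ≤ r := by exact_mod_cast Nat.le_of_dvd (by omega) hpr
    have h2 : L ^ B ≤ L ^ D' := pow_le_pow_right₀ hL1 (by omega)
    linarith
  have hwp : ∀ p : ℕ, wX D' X < p → L ^ D' ≤ p := by
    intro p hp
    unfold wX at hp
    exact (Nat.lt_of_floor_lt hp).le
  have hT0 : 0 < L ^ D' := by positivity
  -- part 1: the truncation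
  have hp1 := cbs_trunc δ (wX D' X) X q r
  have hp1' := (hX1 X hXa).2
  have hp1'' : (X : ℝ) ^ (-η) ≤ 1 / (2 * L ^ A) := by
    rw [Real.rpow_neg hXr.le, ← one_div]
    exact one_div_le_one_div_of_le (by positivity) (hX2 X hXb)
  -- part 2: the complete sum
  have hp2 := cbs_full (wX D' X) q r hq hr hrw hrq
  -- part 3: large primes
  have hp3 := cbs_tail q (wX D' X) hq (L ^ D') hT0 hwp
  have hq' : (0 : ℝ) < q := by exact_mod_cast hq
  have hlogq : Real.log q ≤ L := Real.log_le_log hq' (by exact_mod_cast hqX)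
  have hφq : (0 : ℝ) < Nat.totient q := by exact_mod_cast Nat.totient_pos.2 hq
  have hφr : (1 : ℝ) ≤ Nat.totient r := by exact_mod_cast Nat.totient_pos.2 hr
  have h4 : (q : ℝ) / (Nat.totient q : ℝ) ≤ 2 + 2 * L := by
    rw [div_le_iff₀ hφq]
    have h5 := L2G.totient_lower q hq
    nlinarith
  have h5 : (q.primeFactors.card : ℝ) ≤ 2 * L := (cbs_card_le q hq).trans (by linarith)
  have h6 : ((q : ℝ) / (Nat.totient q : ℝ)) * ((q.primeFactors.card : ℝ) / L ^ D') ≤
      1 / (2 * L ^ A) := by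
    have h7 : ((q : ℝ) / (Nat.totient q : ℝ)) * ((q.primeFactors.card : ℝ) / L ^ D') ≤
        (2 + 2 * L) * (2 * L / L ^ D') := by
      refine mul_le_mul h4 ?_ (by positivity) (by linarith)
      exact div_le_div_of_nonneg_right h5 hT0.le
    have h8 : L ^ (A + 6) ≤ L ^ D' := pow_le_pow_right₀ hL1 (by omega)
    have h9 : 0 < L ^ (A + 6) := by positivity
    have h10 : (2 + 2 * L) * (2 * L / L ^ D') ≤ (2 + 2 * L) * (2 * L / L ^ (A + 6)) := by
      refine mul_le_mul_of_nonneg_left ?_ (by linarith)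
      exact div_le_div_of_nonneg_left (by linarith) h9 h8
    have h11 : (2 + 2 * L) * (2 * L / L ^ (A + 6)) ≤ 1 / (2 * L ^ A) := by
      rw [mul_div_assoc', div_le_div_iff₀ h9 (by positivity), one_mul, pow_add]
      have h12 : (2 + 2 * L) * (2 * L) * (2 * L ^ A) =
          L ^ A * (2 * ((2 + 2 * L) * (2 * L))) := by ring
      rw [h12]
      refine mul_le_mul_of_nonneg_left ?_ (by positivity)
      have h13 : (16 : ℝ) ≤ L ^ 4 := by
        have := pow_le_pow_left₀ (by norm_num : (0 : ℝ) ≤ 2) hL2 4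
        norm_num at this
        exact this
      have h14 : L ^ 6 = L ^ 4 * L ^ 2 := by ring
      rw [h14]
      nlinarith [mul_le_mul_of_nonneg_right h13 (sq_nonneg L)]
    linarith
  have h7 : |((ArithmeticFunction.moebius r : ℤ) : ℝ) / (Nat.totient r : ℝ)| ≤ 1 := by
    have hμ : |((ArithmeticFunction.moebius r : ℤ) : ℝ)| ≤ 1 := by
      exact_mod_cast ArithmeticFunction.abs_moebius_le_one (n := r)
    rw [abs_div, abs_of_nonneg (by linarith : (0 : ℝ) ≤ Nat.totient r)]
    rw [div_le_one (by linarith)]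
    linarith
  rw [hp2] at hp1
  have h8 : |((ArithmeticFunction.moebius r : ℤ) : ℝ) / (Nat.totient r : ℝ) *
      ((Nat.gcd q (primorial (wX D' X)) : ℝ) /
        (Nat.totient (Nat.gcd q (primorial (wX D' X))) : ℝ)) -
      ((ArithmeticFunction.moebius r : ℤ) : ℝ) / (Nat.totient r : ℝ) *
        ((q : ℝ) / (Nat.totient q : ℝ))| ≤ 1 / (2 * L ^ A) := by
    rw [← mul_sub, abs_mul]
    calc _ ≤ 1 * (1 / (2 * L ^ A)) :=
          mul_le_mul h7 (hp3.trans h6) (abs_nonneg _) zero_le_one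
      _ = _ := one_mul _
  have h9 : 1 / L ^ A = 1 / (2 * L ^ A) + 1 / (2 * L ^ A) := by
    field_simp
    norm_num
  rw [h9]
  refine (abs_sub_le _ _ _).trans (add_le_add (hp1.trans (hp1'.trans hp1'')) h8)

end Pool.MP_dd84fd_nt.EM
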