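import Pool.Agent.Lib.MP_dd84fd_nt.EM.Defs
import Pool.Agent.Lib.MP_dd84fd_nt.T7.FourW
import Pool.Agent.Lib.MP_dd84fd_nt.T7.SepRaw
import Pool.Agent.Lib.MP_dd84fd_nt.L2G.CharOrth
import Pool.Agent.Lib.MP_dd84fd_nt.L2G.DivMom
import Pool.Agent.Lib.MP_dd84fd_nt.DivBound

/-!
# EM-ChI (1.5 h): type I functions against the characters `χ ≠ 1`

Template: `T7/SmoothChar.lean` (`smooth_char`, with its private lemmas `sc_fourB`, `sc_fourA`, `sc_tau`, copy them) and `T7/SvIChar.lean` (dyadic pieces).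
`ch_I1` (no weight, cut off at `t ≤ X`): `(α * 1)(n) e(n(y/r+β))`, `n ≤ t`.  If `t < X^(1-e)`: `char_ms`: `Σ_χ ≤ (t + q) Σ_{n ≤ t} |Σ_{l | n} α_l|² ≤ (t + q) t L^c`, `q ≤ X^(1-th+e)`:
fine.  If `t ≥ X^(1-e)` (then `q ≤ t`): `1 = Σ_i restr ze i` (dyadic, smooth variable in `[P, 2P)`, `P = 2^i`); `sep_raw` with `X := t`, `H = ⌈L^A2⌉`, `a := restr ze i`, `b := α` scaled by
`L^(-C)` (coefficients: `|α| ≤ L^C`, `sep_raw` wants `|b n| ≤ (1+log n) τ(n)^5`), `K := min (⌊ZJ⌋, t/P)` (`b k ≠ 0 → P k ≤ t → k ≤ K`; `α l = 0` for `l > ZJ`).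
Every cell: `Σ_{χ ≠ 1} |A|²|B|² ≤ (Σ |A|⁴)^(1/2) (Σ |B|⁴)^(1/2)`, `four_prog`: `Σ_{χ≠1} |A|⁴ ≤ C τ(q)^4 L^C (q² + q P²)`, `sc_fourB`: `Σ |B|⁴ ≤ (K² + q) K² L^C`.
Product `≤ τ(q)² L^C (q + √q P)(K + √q) K`; with `P K ≤ X` and `K √q ≤ 2 X^(lv) X^((1-th+e)/2) ≤ 2 X^(1-19e)`, `q ≤ X^(1-th+e)`:
`q K² ≤ 4 X^(2-38e)`, `q^(3/2) K ≤ X^(1-th+e) · 2 X^(1-19e)`, `√q P K² ≤ X · 2 X^(1-19e)`, `q P K ≤ X^(2-th+e)`; `τ(q)² ≤ X^(e/2)`: all `≤ X^(2-e)` (`th ≥ 1/8`, `e ≤ 10^(-4)`).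
`ch_I`: partial summation in the weight `γ` (bounded by `L^C`, variation `≤ L^C`): `Σ γ(n) x_n = γ(X) S(X) + Σ_{n<X} (γ(n) - γ(n+1)) S(n)`, Cauchy-Schwarz with the weights `|γ(n+1)-γ(n)|`:
`Σ_χ |..|² ≤ 2 L^(2C) Σ|S(X)|² + 2 L^C Σ_n |γ(n+1)-γ(n)| Σ_χ |S_χ(n)|² ≤ 4 L^(2C) sup_t Σ_χ |S_χ(t)|²`.
-/

set_option autoImplicit false

namespace Pool.MP_dd84fd_nt.EM

open Finset Pool.MP_67663b_nt.Odd Pool.MP_dd84fd_nt.En Pool.MP_dd84fd_nt.E2
open Pool.MP_dd84fd_nt.HX Pool.MP_dd84fd_nt.IX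
open Pool.MP_dd84fd_nt.JX (ZJ DecJ Str wP gP lv)
open Pool.MP_dd84fd_nt.L2G (fz VA VQ MajQ MinorHyp Tc Jc cv av gr Se)
open Pool.MP_dd84fd_nt.L2G (div_mom char_ms cell cell_mono cell_zero restr)
open Pool.MP_dd84fd_nt.T7 (Fz2 ze four_prog sep_raw)

private theorem chi_ev_log (D : ℝ) (E : ℕ) (s : ℝ) (hs : 0 < s) :
    ∃ X0 : ℕ, ∀ X : ℕ, X0 ≤ X → D * Real.log X ^ E ≤ (X : ℝ) ^ s := by
  have h := (isLittleO_log_rpow_rpow_atTop (E : ℝ) hs).bound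
    (show (0 : ℝ) < 1 / (|D| + 1) by positivity)
  have h2 := tendsto_natCast_atTop_atTop (R := ℝ) |>.eventually h
  obtain ⟨N, hN⟩ := Filter.eventually_atTop.mp h2
  refine ⟨N, fun X hX => ?_⟩
  have h3 := hN X hX
  rw [Real.rpow_natCast] at h3
  have h4 : |Real.log X ^ E| ≤ 1 / (|D| + 1) * (X : ℝ) ^ s := by
    have := h3
    rw [Real.norm_eq_abs, Real.norm_eq_abs, abs_of_nonneg (Real.rpow_nonneg (Nat.cast_nonneg X) s)]
      at this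
    exact this
  have hp : 0 < |D| + 1 := by positivity
  have hX0 : (0 : ℝ) ≤ (X : ℝ) ^ s := Real.rpow_nonneg (Nat.cast_nonneg X) s
  calc D * Real.log X ^ E ≤ |D * Real.log X ^ E| := le_abs_self _
    _ = |D| * |Real.log X ^ E| := abs_mul _ _
    _ ≤ |D| * (1 / (|D| + 1) * (X : ℝ) ^ s) := mul_le_mul_of_nonneg_left h4 (abs_nonneg _)
    _ = (|D| / (|D| + 1)) * (X : ℝ) ^ s := by ring
    _ ≤ 1 * (X : ℝ) ^ s := by
        apply mul_le_mul_of_nonneg_right _ hX0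
        rw [div_le_one hp]
        linarith
    _ = (X : ℝ) ^ s := one_mul _

/-- the fourth moment of the second factor -/
private theorem chi_fourB : ∃ C : ℕ, ∀ (q K : ℕ) [NeZero q] (b : ℕ → ℝ) (bc : ℕ → ℂ), 1 ≤ K →
    (∀ n, 1 ≤ n → |b n| ≤ (1 + Real.log n) * (n.divisors.card : ℝ) ^ 5) →
    (∀ k, ‖bc k‖ ≤ |b k|) →
    ∑ χ : DirichletCharacter ℂ q, ‖∑ k ∈ Icc 1 K, bc k * χ k‖ ^ 4 ≤
      ((K : ℝ) ^ 2 + q) * ((K : ℝ) ^ 2 * (1 + 2 * Real.log K) ^ C) := by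
  classical
  obtain ⟨C, hC⟩ := div_mom 22
  refine ⟨4 + C, ?_⟩
  intro q K _ b bc hK hb hbc
  set F : ℕ → Finset (ℕ × ℕ) := fun n =>
    ((Icc 1 K) ×ˢ (Icc 1 K)).filter (fun p : ℕ × ℕ => p.1 * p.2 = n) with hF
  set b2 : ℕ → ℂ := fun n => ∑ p ∈ F n, bc p.1 * bc p.2 with hb2
  have hlogK : 0 ≤ Real.log K := Real.log_natCast_nonneg K
  have hsq : ∀ χ : DirichletCharacter ℂ q, (∑ k ∈ Icc 1 K, bc k * χ k) ^ 2 =
      ∑ n ∈ Ioc 0 (0 + K ^ 2), b2 n * χ n := by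
    intro χ
    rw [sq, Finset.sum_mul_sum, ← Finset.sum_product']
    rw [← Finset.sum_fiberwise_of_maps_to (s := (Icc 1 K) ×ˢ (Icc 1 K)) (t := Ioc 0 (0 + K ^ 2))
      (g := fun p : ℕ × ℕ => p.1 * p.2)]
    · refine Finset.sum_congr rfl fun n _ => ?_
      rw [hb2]
      simp only
      rw [Finset.sum_mul]
      refine Finset.sum_congr rfl fun p hp => ?_
      have hp2 : p.1 * p.2 = n := (Finset.mem_filter.1 hp).2
      rw [← hp2]
      push_cast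
      rw [map_mul]
      ring
    · intro p hp
      rw [Finset.mem_product, Finset.mem_Icc, Finset.mem_Icc] at hp
      rw [Finset.mem_Ioc]
      refine ⟨Nat.mul_pos (by omega) (by omega), ?_⟩
      rw [zero_add, sq]
      exact Nat.mul_le_mul hp.1.2 hp.2.2
  have h4 : ∀ χ : DirichletCharacter ℂ q, ‖∑ k ∈ Icc 1 K, bc k * χ k‖ ^ 4 =
      ‖∑ n ∈ Ioc 0 (0 + K ^ 2), b2 n * χ n‖ ^ 2 := by
    intro χ
    rw [← hsq χ, norm_pow, ← pow_mul]
  rw [Finset.sum_congr rfl fun χ _ => h4 χ]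
  refine (char_ms q 0 (K ^ 2) b2).trans ?_
  push_cast
  refine mul_le_mul_of_nonneg_left ?_ (by positivity)
  -- coefficients
  have hcoef : ∀ n ∈ Ioc 0 (0 + K ^ 2), ‖b2 n‖ ^ 2 ≤
      (1 + 2 * Real.log K) ^ 4 * (n.divisors.card : ℝ) ^ 22 := by
    intro n hn
    rw [Finset.mem_Ioc, zero_add] at hn
    have hn0 : n ≠ 0 := by omega
    have hlogn : Real.log n ≤ 2 * Real.log K := by
      have h1 : Real.log n ≤ Real.log ((K : ℝ) ^ 2) := by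
        refine Real.log_le_log (by exact_mod_cast hn.1) ?_
        exact_mod_cast hn.2
      rw [Real.log_pow] at h1
      exact_mod_cast h1
    have hlogn0 : 0 ≤ Real.log n := Real.log_natCast_nonneg n
    have h1 : ‖b2 n‖ ≤ ∑ p ∈ F n, ((1 + Real.log n) * (n.divisors.card : ℝ) ^ 5) ^ 2 := by
      refine (norm_sum_le _ _).trans (Finset.sum_le_sum fun p hp => ?_)
      rw [hF] at hp
      simp only [Finset.mem_filter, Finset.mem_product, Finset.mem_Icc] at hp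
      obtain ⟨⟨hp1, hp2⟩, hp3⟩ := hp
      have key : ∀ m : ℕ, 1 ≤ m → m ∣ n →
          ‖bc m‖ ≤ (1 + Real.log n) * (n.divisors.card : ℝ) ^ 5 := by
        intro m hm hmn
        refine (hbc m).trans ((hb m hm).trans ?_)
        have e1 : Real.log m ≤ Real.log n :=
          Real.log_le_log (by exact_mod_cast hm)
            (by exact_mod_cast Nat.le_of_dvd (by omega) hmn)
        have e2 : (m.divisors.card : ℝ) ≤ n.divisors.card := by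
          exact_mod_cast Finset.card_le_card (Nat.divisors_subset_of_dvd hn0 hmn)
        have e3 : 0 ≤ Real.log m := Real.log_natCast_nonneg m
        exact mul_le_mul (by linarith) (pow_le_pow_left₀ (by positivity) e2 5) (by positivity)
          (by positivity)
      rw [norm_mul, sq]
      exact mul_le_mul (key p.1 hp1.1 ⟨p.2, hp3.symm⟩)
        (key p.2 hp2.1 ⟨p.1, by rw [mul_comm]; exact hp3.symm⟩) (norm_nonneg _) (by positivity)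
    have h2 : ((F n).card : ℝ) ≤ n.divisors.card := by
      have : (F n).card ≤ n.divisors.card := by
        refine Finset.card_le_card_of_injOn (fun p => p.1) ?_ ?_
        · intro p hp
          rw [Finset.mem_coe, hF] at hp
          simp only [Finset.mem_filter, Finset.mem_product, Finset.mem_Icc] at hp
          rw [Finset.mem_coe, Nat.mem_divisors]
          exact ⟨⟨p.2, hp.2.symm⟩, hn0⟩
        · intro p hp p' hp' hpp
          rw [Finset.mem_coe, hF] at hp hp'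
          simp only [Finset.mem_filter, Finset.mem_product, Finset.mem_Icc] at hp hp'
          have e1 : p.1 = p'.1 := hpp
          have e2 : p.1 * p.2 = p.1 * p'.2 := by rw [hp.2, e1, hp'.2]
          have e3 : p.2 = p'.2 := Nat.eq_of_mul_eq_mul_left (by omega) e2
          exact Prod.ext e1 e3
      exact_mod_cast this
    have h3 : ‖b2 n‖ ≤ (1 + 2 * Real.log K) ^ 2 * (n.divisors.card : ℝ) ^ 11 := by
      refine h1.trans ?_
      rw [Finset.sum_const, nsmul_eq_mul]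
      calc ((F n).card : ℝ) * ((1 + Real.log n) * (n.divisors.card : ℝ) ^ 5) ^ 2
          ≤ (n.divisors.card : ℝ) * ((1 + 2 * Real.log K) * (n.divisors.card : ℝ) ^ 5) ^ 2 := by
            gcongr
        _ = _ := by ring
    calc ‖b2 n‖ ^ 2 ≤ ((1 + 2 * Real.log K) ^ 2 * (n.divisors.card : ℝ) ^ 11) ^ 2 :=
          pow_le_pow_left₀ (norm_nonneg _) h3 2
      _ = _ := by ring
  refine (Finset.sum_le_sum hcoef).trans ?_
  rw [← Finset.mul_sum]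
  have hI : Ioc 0 (0 + K ^ 2) = Icc 1 (K ^ 2) := by
    ext n
    simp only [Finset.mem_Ioc, Finset.mem_Icc]
    omega
  rw [hI]
  have h5 := (hC (K ^ 2) (Nat.one_le_pow _ _ hK)).1
  have h6 : Real.log ((K ^ 2 : ℕ) : ℝ) = 2 * Real.log K := by
    push_cast
    rw [Real.log_pow]
    norm_num
  rw [h6] at h5
  push_cast at h5
  calc (1 + 2 * Real.log K) ^ 4 * ∑ n ∈ Icc 1 (K ^ 2), (n.divisors.card : ℝ) ^ 22
      ≤ (1 + 2 * Real.log K) ^ 4 * ((K : ℝ) ^ 2 * (1 + 2 * Real.log K) ^ C) :=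
        mul_le_mul_of_nonneg_left h5 (by positivity)
    _ = (K : ℝ) ^ 2 * (1 + 2 * Real.log K) ^ (4 + C) := by rw [pow_add]; ring

/-- the fourth moment of the first factor -/
private theorem chi_fourA {C : ℕ} (hC : ∀ (q : ℕ) [NeZero q] (r c M N : ℕ) (g : ℕ → ℝ) (G : ℝ),
    Nat.Coprime r q → 1 ≤ r → 0 ≤ G → MonotoneOn g (Set.Ico M N) →
    (∀ n ∈ Ico M N, 0 ≤ g n ∧ g n ≤ G) →
    ∑ χ ∈ univ.filter (fun χ : DirichletCharacter ℂ q => χ ≠ 1),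
      ‖∑ n ∈ (Ico M N).filter (fun n => n % r = c), (g n : ℂ) * χ n‖ ^ 4 ≤
      C * G ^ 4 * (q.divisors.card : ℝ) ^ 4 * (1 + Real.log q) ^ C *
        ((q : ℝ) ^ 2 + q * ((N - M : ℕ) : ℝ) ^ 2))
    (q : ℕ) [NeZero q] (r c M N P X : ℕ) (a : ArithmeticFunction ℝ) (hrq : Nat.Coprime r q)
    (hr : 1 ≤ r) (hP1 : 1 ≤ P) (hPX : P ≤ X) (hM : P ≤ M)
    (ha : ∀ n, a n ≠ 0 → P ≤ n ∧ n < 2 * P)
    (ha2 : ∀ n, 1 ≤ n → 0 ≤ a n ∧ a n ≤ 1 + Real.log n)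
    (hmon : MonotoneOn (fun n => a n) (Set.Ico P (2 * P)))
    (𝓖 : Finset (DirichletCharacter ℂ q)) (h1 : (1 : DirichletCharacter ℂ q) ∉ 𝓖) :
    ∑ χ ∈ 𝓖, ‖∑ m ∈ (Ico M N).filter (fun m => m % r = c), (a m : ℂ) * χ m‖ ^ 4 ≤
      C * (2 + Real.log X) ^ 4 * (q.divisors.card : ℝ) ^ 4 * (1 + Real.log q) ^ C *
        ((q : ℝ) ^ 2 + q * (P : ℝ) ^ 2) := by
  classical
  have hX1 : 1 ≤ X := hP1.trans hPX
  have hL : 0 ≤ Real.log X := Real.log_nonneg (by exact_mod_cast hX1)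
  have hcut : ∀ χ : DirichletCharacter ℂ q,
      ∑ m ∈ (Ico M N).filter (fun m => m % r = c), (a m : ℂ) * χ m =
      ∑ m ∈ (Ico M (min N (2 * P))).filter (fun m => m % r = c), (a m : ℂ) * χ m := by
    intro χ
    symm
    apply Finset.sum_subset
    · intro m hm
      rw [Finset.mem_filter, Finset.mem_Ico] at hm ⊢
      exact ⟨⟨hm.1.1, hm.1.2.trans_le (min_le_left _ _)⟩, hm.2⟩
    · intro m hm hm'
      rw [Finset.mem_filter, Finset.mem_Ico] at hm hm'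
      have h2 : a m = 0 := by
        by_contra h0
        obtain ⟨-, h3⟩ := ha m h0
        exact hm' ⟨⟨hm.1.1, lt_min hm.1.2 h3⟩, hm.2⟩
      rw [h2]
      simp
  have hsub : ∑ χ ∈ 𝓖, ‖∑ m ∈ (Ico M N).filter (fun m => m % r = c), (a m : ℂ) * χ m‖ ^ 4 ≤
      ∑ χ ∈ univ.filter (fun χ : DirichletCharacter ℂ q => χ ≠ 1),
        ‖∑ m ∈ (Ico M (min N (2 * P))).filter (fun m => m % r = c), (a m : ℂ) * χ m‖ ^ 4 := by
    rw [Finset.sum_congr rfl fun χ _ => by rw [hcut χ]]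
    refine Finset.sum_le_sum_of_subset_of_nonneg ?_ (fun _ _ _ => by positivity)
    intro χ hχ
    rw [Finset.mem_filter]
    refine ⟨Finset.mem_univ _, ?_⟩
    rintro rfl
    exact h1 hχ
  refine hsub.trans ?_
  have hmain := hC q r c M (min N (2 * P)) (fun n => a n) (2 + Real.log X) hrq hr (by linarith)
    (hmon.mono (by
      intro m hm
      exact ⟨hM.trans hm.1, hm.2.trans_le (min_le_right _ _)⟩))
    (by
      intro n hn
      rw [Finset.mem_Ico] at hn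
      have hn1 : 1 ≤ n := hP1.trans (hM.trans hn.1)
      obtain ⟨h3, h4⟩ := ha2 n hn1
      refine ⟨h3, h4.trans ?_⟩
      have h5 : n ≤ 2 * X := by
        have := hn.2.trans_le (min_le_right _ _)
        omega
      have h6 : Real.log n ≤ Real.log (2 * X) :=
        Real.log_le_log (by exact_mod_cast hn1) (by exact_mod_cast h5)
      have hX0 : (X : ℝ) ≠ 0 := by
        have : X ≠ 0 := by omega
        exact_mod_cast this
      rw [Real.log_mul (by norm_num) hX0] at h6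
      have h7 : Real.log 2 ≤ 1 := by
        have := Real.log_two_lt_d9
        linarith
      linarith)
  refine hmain.trans ?_
  have hNM : ((min N (2 * P) - M : ℕ) : ℝ) ≤ P := by
    have : min N (2 * P) - M ≤ P := by
      have := min_le_right N (2 * P)
      omega
    exact_mod_cast this
  have hq1 : (1 : ℝ) ≤ q := by exact_mod_cast Nat.one_le_iff_ne_zero.2 (NeZero.ne q)
  have hlq : 0 ≤ Real.log q := Real.log_nonneg hq1
  refine mul_le_mul_of_nonneg_left ?_ (by positivity)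
  gcongr


private theorem chi_tau (e : ℝ) (he : 0 < e) : ∃ C : ℕ, 1 ≤ C ∧ ∀ q X : ℕ, q ≠ 0 → q ≤ X →
    (q.divisors.card : ℝ) ^ 4 ≤ C * (X : ℝ) ^ e := by
  obtain ⟨k0, hk0⟩ := exists_nat_gt (1 / e)
  obtain ⟨k, hk⟩ : ∃ k : ℕ, k = k0 + 1 := ⟨_, rfl⟩
  have hk1 : 1 ≤ e * k := by
    have h1 : 1 / e ≤ k := by
      rw [hk]
      push_cast
      linarith
    rw [div_le_iff₀ he] at h1
    linarith
  obtain ⟨C, hC1, hC⟩ := Pool.Agent.Lib.MP_dd84fd_nt.DivBound.div_bound (4 * k)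
  refine ⟨C, hC1, fun q X hq hqX => ?_⟩
  have hX1 : (1 : ℝ) ≤ X := by
    have : 1 ≤ X := by omega
    exact_mod_cast this
  have h1 : ((q.divisors.card : ℝ) ^ 4) ^ k ≤ C * X := by
    rw [← pow_mul]
    calc (q.divisors.card : ℝ) ^ (4 * k) ≤ (C : ℝ) * q := by exact_mod_cast hC q hq
      _ ≤ C * X := by
        have : (q : ℝ) ≤ X := by exact_mod_cast hqX
        gcongr
  have hCR : (1 : ℝ) ≤ C := by exact_mod_cast hC1
  have h2 : (C : ℝ) * X ≤ (C * (X : ℝ) ^ e) ^ k := by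
    rw [mul_pow]
    have e1 : (X : ℝ) ≤ ((X : ℝ) ^ e) ^ k := by
      rw [← Real.rpow_natCast, ← Real.rpow_mul (Nat.cast_nonneg X)]
      calc (X : ℝ) = (X : ℝ) ^ (1 : ℝ) := (Real.rpow_one _).symm
        _ ≤ (X : ℝ) ^ (e * k) := Real.rpow_le_rpow_of_exponent_le hX1 hk1
    exact mul_le_mul (le_self_pow₀ hCR (by omega)) e1 (Nat.cast_nonneg X) (by positivity)
  exact le_of_pow_le_pow_left₀ (by omega) (by positivity) (h1.trans h2)

/-- the arithmetic of the main term -/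
private theorem chi_arith (C4 C5 C6 : ℕ) (L X q P K τ th e : ℝ) (hL : 2 ≤ L) (hX : 1 ≤ X)
    (hth : 1 / 8 < th) (he : 0 < e) (he2 : e ≤ 1 / 10000)
    (hq1 : 1 ≤ q) (hq : q ≤ X ^ (1 - th + e)) (hP0 : 0 ≤ P)
    (hK0 : 1 ≤ K) (hPK : P * K ≤ X) (hK : K ≤ 2 * X ^ ((1 + th) / 2 - 20 * e))
    (hτ : τ ^ 4 ≤ C6 * X ^ e)
    (hlq : 0 ≤ Real.log q) (hlqL : Real.log q ≤ L) (hlK : 0 ≤ Real.log K)
    (hlKL : Real.log K ≤ L)
    (hbig : (25 * (C4 : ℝ) * C6 * 2 ^ (C4 + 4) * 3 ^ C5) * L ^ (4 + C4 + C5) ≤ X ^ (36 * e)) :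
    (C4 * (2 + L) ^ 4 * τ ^ 4 * (1 + Real.log q) ^ C4 * (q ^ 2 + q * P ^ 2)) *
      ((K ^ 2 + q) * (K ^ 2 * (1 + 2 * Real.log K) ^ C5)) ≤ (X ^ (2 - e)) ^ 2 := by
  have hX0 : 0 < X := by linarith
  have hpow : ∀ s : ℝ, (X ^ s) ^ 2 = X ^ (2 * s) := by
    intro s
    rw [← Real.rpow_natCast, ← Real.rpow_mul hX0.le]
    norm_num
    ring_nf
  have hqK : q * K ^ 2 ≤ 4 * X ^ (2 - 39 * e) := by
    calc q * K ^ 2 ≤ X ^ (1 - th + e) * (2 * X ^ ((1 + th) / 2 - 20 * e)) ^ 2 := by gcongr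
      _ = 4 * (X ^ (1 - th + e) * X ^ (2 * ((1 + th) / 2 - 20 * e))) := by
          rw [mul_pow, hpow]
          ring
      _ = 4 * X ^ (2 - 39 * e) := by
          rw [← Real.rpow_add hX0]
          ring_nf
  have hq2 : q ^ 2 ≤ X ^ (2 - 39 * e) := by
    calc q ^ 2 ≤ (X ^ (1 - th + e)) ^ 2 := pow_le_pow_left₀ (by linarith) hq 2
      _ = X ^ (2 * (1 - th + e)) := hpow _
      _ ≤ X ^ (2 - 39 * e) := Real.rpow_le_rpow_of_exponent_le hX (by linarith)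
  have hPK2 : (P * K) ^ 2 ≤ X ^ 2 := pow_le_pow_left₀ (by positivity) hPK 2
  have hZ1 : X ^ (2 - 39 * e) ≤ X ^ 2 := by
    rw [← Real.rpow_natCast X 2]
    exact Real.rpow_le_rpow_of_exponent_le hX (by push_cast; linarith)
  have hZ0 : 0 ≤ X ^ (2 - 39 * e) := by positivity
  have hY : X ^ 2 * X ^ (2 - 39 * e) = X ^ (4 - 39 * e) := by
    rw [← Real.rpow_natCast X 2, ← Real.rpow_add hX0]
    push_cast
    ring_nf
  have h2 : (q ^ 2 + q * P ^ 2) * ((K ^ 2 + q) * K ^ 2) ≤ 25 * X ^ (4 - 39 * e) := by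
    calc (q ^ 2 + q * P ^ 2) * ((K ^ 2 + q) * K ^ 2)
        = (q * K ^ 2) * (q * K ^ 2) + q ^ 2 * (q * K ^ 2) + (P * K) ^ 2 * (q * K ^ 2) +
          (P * K) ^ 2 * q ^ 2 := by ring
      _ ≤ (4 * X ^ (2 - 39 * e)) * (4 * X ^ (2 - 39 * e)) +
          X ^ (2 - 39 * e) * (4 * X ^ (2 - 39 * e)) + X ^ 2 * (4 * X ^ (2 - 39 * e)) +
          X ^ 2 * X ^ (2 - 39 * e) := by gcongr
      _ ≤ (4 * X ^ 2) * (4 * X ^ (2 - 39 * e)) +
          X ^ 2 * (4 * X ^ (2 - 39 * e)) + X ^ 2 * (4 * X ^ (2 - 39 * e)) +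
          X ^ 2 * X ^ (2 - 39 * e) := by gcongr
      _ = 25 * (X ^ 2 * X ^ (2 - 39 * e)) := by ring
      _ = 25 * X ^ (4 - 39 * e) := by rw [hY]
  have h3 : (2 + L) ^ 4 * (1 + Real.log q) ^ C4 * (1 + 2 * Real.log K) ^ C5 ≤
      (2 ^ (C4 + 4) * 3 ^ C5) * L ^ (4 + C4 + C5) := by
    calc (2 + L) ^ 4 * (1 + Real.log q) ^ C4 * (1 + 2 * Real.log K) ^ C5
        ≤ (2 * L) ^ 4 * (2 * L) ^ C4 * (3 * L) ^ C5 := by
          gcongr
          · linarith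
          · linarith
          · linarith
      _ = _ := by
          rw [mul_pow, mul_pow, mul_pow, pow_add, pow_add, pow_add]
          ring
  calc (C4 * (2 + L) ^ 4 * τ ^ 4 * (1 + Real.log q) ^ C4 * (q ^ 2 + q * P ^ 2)) *
      ((K ^ 2 + q) * (K ^ 2 * (1 + 2 * Real.log K) ^ C5))
      = C4 * τ ^ 4 * ((2 + L) ^ 4 * (1 + Real.log q) ^ C4 * (1 + 2 * Real.log K) ^ C5) *
        ((q ^ 2 + q * P ^ 2) * ((K ^ 2 + q) * K ^ 2)) := by ring
    _ ≤ C4 * (C6 * X ^ e) * ((2 ^ (C4 + 4) * 3 ^ C5) * L ^ (4 + C4 + C5)) *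
        (25 * X ^ (4 - 39 * e)) := by gcongr
    _ = ((25 * (C4 : ℝ) * C6 * 2 ^ (C4 + 4) * 3 ^ C5) * L ^ (4 + C4 + C5)) *
        (X ^ e * X ^ (4 - 39 * e)) := by ring
    _ ≤ X ^ (36 * e) * (X ^ e * X ^ (4 - 39 * e)) := by gcongr
    _ = (X ^ (2 - e)) ^ 2 := by
          rw [hpow, ← Real.rpow_add hX0, ← Real.rpow_add hX0]
          ring_nf

private theorem chi_ze (i n : ℕ) : 0 ≤ restr ze i n ∧ restr ze i n ≤ 1 := by
  have h0 : ∀ m : ℕ, 0 ≤ ze m ∧ ze m ≤ 1 := by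
    intro m
    unfold ze
    rw [ArithmeticFunction.natCoe_apply, ArithmeticFunction.zeta_apply]
    split_ifs <;> simp
  have h1 : restr ze i n = if 2 ^ i ≤ n ∧ n < 2 ^ (i + 1) then ze n else 0 := rfl
  rw [h1]
  split_ifs
  · exact h0 n
  · exact ⟨le_rfl, zero_le_one⟩

/-- one dyadic piece -/
private theorem chi_piece (A B : ℕ) (th e τ : ℝ) (hA : AdE th e τ) : ∃ X0 : ℕ, ∀ X : ℕ, X0 ≤ X →
    ∀ (q : ℕ) [NeZero q], Qr th e X q → ∀ (r : ℕ) (y : ℤ) (β : ℝ), Pt X q B r y β →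
    ∀ b : ArithmeticFunction ℝ, (∀ n, |b n| ≤ 1) → (∀ l : ℕ, ZJ th e X < l → b l = 0) →
    ∀ 𝓖 : Finset (DirichletCharacter ℂ q), (1 : DirichletCharacter ℂ q) ∉ 𝓖 → ∀ t : ℕ, t ≤ X →
      (X : ℝ) ^ (1 - e) ≤ t → ∀ i : ℕ, 2 ^ i ≤ t →
      ∑ χ ∈ 𝓖, ‖∑ n ∈ Icc 1 t, (((restr ze i * b) n : ℝ) : ℂ) * χ n *
        ee (n * (y / r + β))‖ ^ 2 ≤ X ^ 2 / Real.log X ^ A := by
  classical
  obtain ⟨hth, hth2, he, hτ, heτ⟩ := hA
  have he2 : e ≤ 1 / 10000 := by linarith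
  obtain ⟨C1, hC1⟩ := sep_raw
  obtain ⟨C4, hC4⟩ := four_prog
  obtain ⟨C5, hC5⟩ := chi_fourB
  obtain ⟨C6, hC61, hC6⟩ := chi_tau e he
  obtain ⟨M, hM⟩ : ∃ M : ℕ, M = A + 2 * C1 + 2 := ⟨_, rfl⟩
  obtain ⟨A2, hA2⟩ : ∃ A2 : ℕ, A2 = 2 * (M + B) := ⟨_, rfl⟩
  obtain ⟨X1, hX1⟩ := chi_ev_log (25 * (C4 : ℝ) * C6 * 2 ^ (C4 + 4) * 3 ^ C5) (4 + C4 + C5) (36 * e)
    (by linarith)
  obtain ⟨X2, hX2⟩ := chi_ev_log 400 (2 * (A2 + 1) + 2 * B + A) e he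
  obtain ⟨X3, hX3⟩ := chi_ev_log 1 (A2 + 1 + B) (1 - e) (by linarith)
  obtain ⟨X4, hX4⟩ : ∃ X4 : ℕ, ∀ X : ℕ, X4 ≤ X → 2 ≤ Real.log X := by
    have h := (Real.tendsto_log_atTop.comp (tendsto_natCast_atTop_atTop (R := ℝ))).eventually
      (Filter.eventually_ge_atTop 2)
    exact Filter.eventually_atTop.1 h
  obtain ⟨X5, hX5⟩ := chi_ev_log 2 0 (1 - e) (by linarith)
  refine ⟨X1 + X2 + X3 + X4 + X5 + 2, ?_⟩
  intro X hX q _ hq r y β hpt b hb hbZ 𝓖 h1G t htX htl i hit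
  obtain ⟨hr1, hr, hcop, -, hβ⟩ := hpt
  have hb1 := hX1 X (by omega)
  have hb2 := hX2 X (by omega)
  have hb3 := hX3 X (by omega)
  have hL2 := hX4 X (by omega)
  have hb5 := hX5 X (by omega)
  rw [one_mul] at hb3
  rw [pow_zero, mul_one] at hb5
  obtain ⟨L, hL⟩ : ∃ L : ℝ, L = Real.log X := ⟨_, rfl⟩
  rw [← hL] at hb1 hb2 hb3 hL2 hr hβ ⊢
  have hX2' : 2 ≤ X := by omega
  have hXR : (2 : ℝ) ≤ X := by exact_mod_cast hX2'
  have hXp : (0 : ℝ) < X := by linarith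
  have hX1' : (1 : ℝ) ≤ X := by linarith
  have hL1 : 1 ≤ L := by linarith
  have hLp : 0 < L := by linarith
  have hpw : ∀ {i j : ℕ}, i ≤ j → L ^ i ≤ L ^ j := fun h => pow_le_pow_right₀ hL1 h
  have hq1 : 1 ≤ q := Nat.one_le_iff_ne_zero.2 (NeZero.ne q)
  have ht2 : 2 ≤ t := by
    have h1 : (2 : ℝ) ≤ t := hb5.trans htl
    exact_mod_cast h1
  have htR : (t : ℝ) ≤ X := by exact_mod_cast htX
  have htp : (0 : ℝ) < t := by
    have : (2 : ℝ) ≤ t := by exact_mod_cast ht2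
    linarith
  have hqt : (q : ℝ) ≤ t := by
    refine hq.trans (le_trans ?_ htl)
    exact Real.rpow_le_rpow_of_exponent_le hX1' (by linarith)
  have hqtn : q ≤ t := by exact_mod_cast hqt
  have hqX : (q : ℝ) ≤ X := hqt.trans htR
  have hqXn : q ≤ X := by exact_mod_cast hqX
  obtain ⟨P, hP⟩ : ∃ P : ℕ, P = 2 ^ i := ⟨_, rfl⟩
  have hPpos : 1 ≤ P := by rw [hP]; exact Nat.one_le_two_pow
  have hPt : P ≤ t := by rw [hP]; exact hit
  have hPX : P ≤ X := hPt.trans htX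
  obtain ⟨H, hH⟩ : ∃ H : ℕ, H = ⌈L ^ A2⌉₊ := ⟨_, rfl⟩
  have hLA2 : 1 ≤ L ^ A2 := one_le_pow₀ hL1
  have hHlow : L ^ A2 ≤ H := by rw [hH]; exact Nat.le_ceil _
  have hH1 : 1 ≤ H := by
    have : (1 : ℝ) ≤ H := hLA2.trans hHlow
    exact_mod_cast this
  have hHup : (H : ℝ) ≤ L ^ (A2 + 1) := by
    rw [hH]
    have h1 := (Nat.ceil_lt_add_one (by positivity : 0 ≤ L ^ A2)).le
    rw [pow_succ]
    nlinarith
  have hHt : H ≤ t := by
    have h1 : (H : ℝ) ≤ t := hHup.trans ((hpw (by omega)).trans (hb3.trans htl))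
    exact_mod_cast h1
  have hrt : r ≤ t := by
    have h1 : (r : ℝ) ≤ t := hr.trans ((hpw (by omega)).trans (hb3.trans htl))
    exact_mod_cast h1
  have hlv1 : lv th e ≤ (1 + th) / 2 - 20 * e := min_le_right _ _
  have hlv0 : 0 ≤ lv th e := le_min (by linarith) (by linarith)
  have hZ2 : 2 ≤ ZJ th e X := by
    have : (1 : ℝ) ≤ (X : ℝ) ^ (lv th e) := Real.one_le_rpow hX1' hlv0
    unfold ZJ
    linarith
  have hZup : ZJ th e X ≤ 2 * (X : ℝ) ^ ((1 + th) / 2 - 20 * e) := by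
    have := Real.rpow_le_rpow_of_exponent_le hX1' hlv1
    unfold ZJ
    linarith
  obtain ⟨K, hK⟩ : ∃ K : ℕ, K = min ⌊ZJ th e X⌋₊ (t / P) := ⟨_, rfl⟩
  have hK1 : 1 ≤ K := by
    rw [hK]
    refine le_min (Nat.le_floor (by push_cast; linarith)) ?_
    rw [Nat.one_le_div_iff (by omega)]
    exact hPt
  have hPKt : P * K ≤ t := by
    calc P * K ≤ P * (t / P) := Nat.mul_le_mul_left P (by rw [hK]; exact min_le_right _ _)
      _ ≤ t := Nat.mul_div_le t P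
  have hPKX : (P : ℝ) * K ≤ X := by
    have h1 : P * K ≤ X := hPKt.trans htX
    exact_mod_cast h1
  have hKX : K ≤ X := by
    calc K ≤ P * K := Nat.le_mul_of_pos_left K (by omega)
      _ ≤ X := hPKt.trans htX
  have hKZ : (K : ℝ) ≤ 2 * (X : ℝ) ^ ((1 + th) / 2 - 20 * e) := by
    refine le_trans ?_ hZup
    have h1 : (K : ℝ) ≤ (⌊ZJ th e X⌋₊ : ℝ) := by
      have : K ≤ ⌊ZJ th e X⌋₊ := by rw [hK]; exact min_le_left _ _
      exact_mod_cast this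
    exact h1.trans (Nat.floor_le (by linarith))
  have h15 : ∀ n : ℕ, 1 ≤ n → (1 : ℝ) ≤ (1 + Real.log n) * (n.divisors.card : ℝ) ^ 5 := by
    intro n hn
    have h3 : (1 : ℝ) ≤ n.divisors.card := by
      have : 0 < n.divisors.card := Finset.card_pos.2 ⟨1, by
        rw [Nat.mem_divisors]; exact ⟨one_dvd _, by omega⟩⟩
      exact_mod_cast this
    have h4 : (1 : ℝ) ≤ (n.divisors.card : ℝ) ^ 5 := one_le_pow₀ h3
    have h5 : 0 ≤ Real.log n := Real.log_natCast_nonneg n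
    nlinarith
  obtain ⟨a, hadef⟩ : ∃ a : ArithmeticFunction ℝ, a = restr ze i := ⟨_, rfl⟩
  have ha01 : ∀ n, 0 ≤ a n ∧ a n ≤ 1 := fun n => by rw [hadef]; exact chi_ze i n
  have ha2 : ∀ n, 1 ≤ n → 0 ≤ a n ∧ a n ≤ 1 + Real.log n := by
    intro n _
    refine ⟨(ha01 n).1, (ha01 n).2.trans ?_⟩
    have : 0 ≤ Real.log n := Real.log_natCast_nonneg n
    linarith
  have ha5 : ∀ n, 1 ≤ n → |a n| ≤ (1 + Real.log n) * (n.divisors.card : ℝ) ^ 5 := by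
    intro n hn
    rw [abs_of_nonneg (ha01 n).1]
    exact (ha01 n).2.trans (h15 n hn)
  have hb5' : ∀ n, 1 ≤ n → |b n| ≤ (1 + Real.log n) * (n.divisors.card : ℝ) ^ 5 :=
    fun n hn => (hb n).trans (h15 n hn)
  have hdef : ∀ n, a n = if 2 ^ i ≤ n ∧ n < 2 ^ (i + 1) then ze n else 0 := fun n => by
    rw [hadef]; rfl
  have hasupp : ∀ n, a n ≠ 0 → P ≤ n ∧ n < 2 * P := by
    intro n hn
    by_contra h
    apply hn
    rw [hdef, if_neg]
    rintro ⟨h2, h3⟩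
    apply h
    rw [pow_succ] at h3
    rw [hP]
    exact ⟨h2, by omega⟩
  have hmon : MonotoneOn (fun n => a n) (Set.Ico P (2 * P)) := by
    intro m hm n hn _
    rw [Set.mem_Ico] at hm hn
    have hone : ∀ s : ℕ, P ≤ s → s < 2 * P → a s = 1 := by
      intro s h2 h3
      rw [hdef, if_pos ⟨by rw [← hP]; exact h2, by rw [pow_succ, ← hP]; omega⟩]
      unfold ze
      rw [ArithmeticFunction.natCoe_apply, ArithmeticFunction.zeta_apply, if_neg (by omega),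
        Nat.cast_one]
    show a m ≤ a n
    rw [hone m hm.1 hm.2, hone n hn.1 hn.2]
  obtain ⟨bc, hbc, hmain⟩ := hC1 t q r H P K ht2 hqtn hr1 hrt hH1 hHt hPpos hPt hK1 a b ha5 hb5'
    (fun n hn => by
      obtain ⟨h1, h2⟩ := hasupp n hn
      exact ⟨h1, by omega⟩)
    (fun k hk hPk => by
      rw [hK]
      refine le_min ?_ ?_
      · apply Nat.le_floor
        by_contra hcon
        push Not at hcon
        exact hk (hbZ k hcon)
      · rw [Nat.le_div_iff_mul_le (by omega), mul_comm]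
        exact hPk) y β
  have hmain2 := hmain 𝓖
  rw [← hadef]
  refine hmain2.trans ?_
  -- one pair of a cell and a class
  have hone : ∀ i c : ℕ, ∑ χ ∈ 𝓖,
      ‖∑ m ∈ (Ico (cell P H i) (cell P H (i + 1))).filter (fun m => m % r = c),
          (a m : ℂ) * χ m‖ ^ 2 * ‖∑ k ∈ Icc 1 K, bc i c k * χ k‖ ^ 2 ≤
      (X : ℝ) ^ (2 - e) := by
    intro i c
    have hMc : P ≤ cell P H i := by
      have h1 := cell_mono P H (Nat.zero_le i)
      rw [cell_zero] at h1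
      exact h1
    have hA := chi_fourA (C := C4) (fun q _ => hC4 q) q r c (cell P H i) (cell P H (i + 1)) P X a
      hcop hr1 hPpos hPX hMc hasupp ha2 hmon 𝓖 h1G
    have hB := hC5 q K (fun n => b n) (bc i c) hK1 hb5' (hbc i c)
    have hB2 : ∑ χ ∈ 𝓖, ‖∑ k ∈ Icc 1 K, bc i c k * χ k‖ ^ 4 ≤
        ((K : ℝ) ^ 2 + q) * ((K : ℝ) ^ 2 * (1 + 2 * Real.log K) ^ C5) :=
      (Finset.sum_le_univ_sum_of_nonneg fun χ => by positivity).trans hB
    have hCS := Finset.sum_mul_sq_le_sq_mul_sq 𝓖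
      (fun χ => ‖∑ m ∈ (Ico (cell P H i) (cell P H (i + 1))).filter (fun m => m % r = c),
          (a m : ℂ) * χ m‖ ^ 2) (fun χ => ‖∑ k ∈ Icc 1 K, bc i c k * χ k‖ ^ 2)
    simp only [← pow_mul] at hCS
    norm_num at hCS
    rw [← hL] at hA
    have hlq : 0 ≤ Real.log q := Real.log_natCast_nonneg q
    have hlqL : Real.log q ≤ L := by
      rw [hL]
      exact Real.log_le_log (by exact_mod_cast hq1) hqX
    have hlK : 0 ≤ Real.log K := Real.log_natCast_nonneg K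
    have hlKL : Real.log K ≤ L := by
      rw [hL]
      exact Real.log_le_log (by exact_mod_cast hK1) (by exact_mod_cast hKX)
    have harith := chi_arith C4 C5 C6 L X q P K (q.divisors.card : ℝ) th e hL2 hX1' hth he he2
      (by exact_mod_cast hq1) hq (Nat.cast_nonneg P) (by exact_mod_cast hK1) hPKX hKZ
      (hC6 q X (NeZero.ne q) hqXn) hlq hlqL hlK hlKL hb1
    have hprod := hCS.trans ((mul_le_mul hA hB2 (Finset.sum_nonneg fun _ _ => by positivity)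
      (by positivity)).trans harith)
    exact le_of_pow_le_pow_left₀ (by norm_num) (by positivity) hprod
  have hHp : (0 : ℝ) < H := by linarith
  have hrp : (0 : ℝ) ≤ r := Nat.cast_nonneg r
  have hLA : 0 < L ^ A := by positivity
  have hT1 : 20 * (H : ℝ) * r * ∑ i ∈ range (10 * H), ∑ c ∈ range r, ∑ χ ∈ 𝓖,
      ‖∑ m ∈ (Ico (cell P H i) (cell P H (i + 1))).filter (fun m => m % r = c),
          (a m : ℂ) * χ m‖ ^ 2 * ‖∑ k ∈ Icc 1 K, bc i c k * χ k‖ ^ 2 ≤ X ^ 2 / (2 * L ^ A) := by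
    have h1 : ∑ i ∈ range (10 * H), ∑ c ∈ range r, ∑ χ ∈ 𝓖,
        ‖∑ m ∈ (Ico (cell P H i) (cell P H (i + 1))).filter (fun m => m % r = c),
          (a m : ℂ) * χ m‖ ^ 2 * ‖∑ k ∈ Icc 1 K, bc i c k * χ k‖ ^ 2 ≤
        ∑ _i ∈ range (10 * H), ∑ _c ∈ range r, (X : ℝ) ^ (2 - e) :=
      Finset.sum_le_sum fun i _ => Finset.sum_le_sum fun c _ => hone i c
    rw [Finset.sum_const, Finset.sum_const, Finset.card_range, Finset.card_range, nsmul_eq_mul,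
      nsmul_eq_mul] at h1
    push_cast at h1
    have h2 : (H : ℝ) ^ 2 ≤ L ^ (2 * (A2 + 1)) := by
      calc (H : ℝ) ^ 2 ≤ (L ^ (A2 + 1)) ^ 2 := pow_le_pow_left₀ hHp.le hHup 2
        _ = L ^ (2 * (A2 + 1)) := by rw [← pow_mul, mul_comm]
    have h3 : (r : ℝ) ^ 2 ≤ L ^ (2 * B) := by
      calc (r : ℝ) ^ 2 ≤ (L ^ B) ^ 2 := pow_le_pow_left₀ hrp hr 2
        _ = L ^ (2 * B) := by rw [← pow_mul, mul_comm]
    rw [le_div_iff₀ (by positivity)]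
    calc 20 * (H : ℝ) * r * (∑ i ∈ range (10 * H), ∑ c ∈ range r, ∑ χ ∈ 𝓖,
        ‖∑ m ∈ (Ico (cell P H i) (cell P H (i + 1))).filter (fun m => m % r = c),
          (a m : ℂ) * χ m‖ ^ 2 * ‖∑ k ∈ Icc 1 K, bc i c k * χ k‖ ^ 2) * (2 * L ^ A)
        ≤ 20 * (H : ℝ) * r * (10 * H * (r * (X : ℝ) ^ (2 - e))) * (2 * L ^ A) := by
          gcongr
      _ = 400 * ((H : ℝ) ^ 2 * (r : ℝ) ^ 2 * L ^ A) * (X : ℝ) ^ (2 - e) := by ring
      _ ≤ 400 * (L ^ (2 * (A2 + 1)) * L ^ (2 * B) * L ^ A) * (X : ℝ) ^ (2 - e) := by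
          gcongr
      _ = (400 * L ^ (2 * (A2 + 1) + 2 * B + A)) * (X : ℝ) ^ (2 - e) := by
          rw [pow_add, pow_add]
      _ ≤ (X : ℝ) ^ e * (X : ℝ) ^ (2 - e) := by gcongr
      _ = (X : ℝ) ^ 2 := by
          rw [← Real.rpow_add hXp, ← Real.rpow_natCast (X : ℝ) 2]
          congr 1
          push_cast
          ring
  have hT2 : (|β| * t / H) ^ 2 ≤ 1 / L ^ M := by
    have h1 : |β| * t ≤ L ^ B := by
      rw [le_div_iff₀ hXp] at hβ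
      exact (mul_le_mul_of_nonneg_left htR (abs_nonneg β)).trans hβ
    have h2 : |β| * t / H ≤ 1 / L ^ M := by
      rw [div_le_div_iff₀ hHp (by positivity), one_mul]
      calc |β| * t * L ^ M ≤ L ^ B * L ^ M := mul_le_mul_of_nonneg_right h1 (by positivity)
        _ = L ^ (B + M) := (pow_add _ _ _).symm
        _ ≤ L ^ A2 := hpw (by omega)
        _ ≤ H := hHlow
    have h3 : 0 ≤ |β| * t / H := by positivity
    have h4 : (1 : ℝ) / L ^ M ≤ 1 := by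
      rw [div_le_one (by positivity)]
      exact one_le_pow₀ hL1
    nlinarith
  have hT3 : 1 / Real.sqrt H ≤ 1 / L ^ M := by
    refine one_div_le_one_div_of_le (by positivity) ?_
    apply Real.le_sqrt_of_sq_le
    calc (L ^ M) ^ 2 = L ^ (M * 2) := (pow_mul _ _ _).symm
      _ ≤ L ^ A2 := hpw (by omega)
      _ ≤ H := hHlow
  have hlt : Real.log t ≤ L := by
    rw [hL]
    exact Real.log_le_log htp htR
  have hlt0 : 0 ≤ Real.log t := Real.log_natCast_nonneg t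
  have hT4 : (2 + Real.log t) ^ C1 * ((t : ℝ) ^ 2 * ((|β| * t / H) ^ 2 + 1 / Real.sqrt H)) ≤
      X ^ 2 / (2 * L ^ A) := by
    have hCb : (2 + Real.log t) ^ C1 ≤ L ^ (2 * C1) := by
      rw [pow_mul]
      exact pow_le_pow_left₀ (by positivity) (by nlinarith) _
    have h1 : (t : ℝ) ^ 2 * ((|β| * t / H) ^ 2 + 1 / Real.sqrt H) ≤
        (X : ℝ) ^ 2 * (1 / L ^ M + 1 / L ^ M) :=
      mul_le_mul (pow_le_pow_left₀ htp.le htR 2) (add_le_add hT2 hT3) (by positivity)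
        (by positivity)
    calc (2 + Real.log t) ^ C1 * ((t : ℝ) ^ 2 * ((|β| * t / H) ^ 2 + 1 / Real.sqrt H))
        ≤ L ^ (2 * C1) * ((X : ℝ) ^ 2 * (1 / L ^ M + 1 / L ^ M)) :=
          mul_le_mul hCb h1 (by positivity) (by positivity)
      _ = 2 * (L ^ (2 * C1) * (X : ℝ) ^ 2) / L ^ M := by ring
      _ ≤ X ^ 2 / (2 * L ^ A) := by
          rw [div_le_div_iff₀ (by positivity) (by positivity), hM, pow_add, pow_add]
          have h2 : (4 : ℝ) ≤ L ^ 2 := by nlinarith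
          calc 2 * (L ^ (2 * C1) * (X : ℝ) ^ 2) * (2 * L ^ A)
              = 4 * (X ^ 2 * (L ^ A * L ^ (2 * C1))) := by ring
            _ ≤ L ^ 2 * (X ^ 2 * (L ^ A * L ^ (2 * C1))) :=
                mul_le_mul_of_nonneg_right h2 (by positivity)
            _ = X ^ 2 * (L ^ A * L ^ (2 * C1) * L ^ 2) := by ring
  calc _ ≤ (X : ℝ) ^ 2 / (2 * L ^ A) + X ^ 2 / (2 * L ^ A) := add_le_add hT1 hT4
    _ = X ^ 2 / L ^ A := by
        field_simp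
        norm_num

private theorem chi_restr_sum (f : ArithmeticFunction ℝ) (J m : ℕ) (hm : m < 2 ^ J) :
    ∑ i ∈ range J, restr f i m = f m := by
  rcases Nat.eq_zero_or_pos m with rfl | hm0
  · simp
  · rw [Finset.sum_eq_single (Nat.log 2 m)]
    · have h1 : 2 ^ Nat.log 2 m ≤ m := Nat.pow_log_le_self 2 (by omega)
      have h2 : m < 2 ^ (Nat.log 2 m + 1) := Nat.lt_pow_succ_log_self (by norm_num) m
      exact if_pos ⟨h1, h2⟩
    · intro i _ hi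
      refine if_neg ?_
      rintro ⟨h1, h2⟩
      apply hi
      symm
      rw [Nat.log_eq_iff (Or.inr ⟨by norm_num, by omega⟩)]
      exact ⟨h1, h2⟩
    · intro h
      exfalso
      apply h
      rw [Finset.mem_range]
      exact Nat.log_lt_of_lt_pow (by omega) (by omega)

private theorem chi_conv_sum (f F : ArithmeticFunction ℝ) (J n : ℕ) (hn : n < 2 ^ J) :
    (F * f) n = ∑ i ∈ range J, (restr f i * F) n := by
  rw [mul_comm F f, ArithmeticFunction.mul_apply]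
  simp only [ArithmeticFunction.mul_apply]
  rw [Finset.sum_comm]
  refine Finset.sum_congr rfl fun p hp => ?_
  obtain ⟨h1, h2⟩ := Nat.mem_divisorsAntidiagonal.1 hp
  have h3 : p.1 ≤ n := Nat.divisor_le (Nat.mem_divisors.2 ⟨⟨p.2, h1.symm⟩, h2⟩)
  rw [← Finset.sum_mul, chi_restr_sum f J p.1 (by omega)]

/-- a square of a sum of `J` sums over characters -/
private theorem chi_cauchy {ι : Type*} (G : Finset ι) (J : ℕ) (t : ℕ → ι → ℂ) (E : ℝ)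
    (h : ∀ i < J, ∑ χ ∈ G, ‖t i χ‖ ^ 2 ≤ E) :
    ∑ χ ∈ G, ‖∑ i ∈ range J, t i χ‖ ^ 2 ≤ (J : ℝ) ^ 2 * E := by
  have h1 : ∀ χ ∈ G, ‖∑ i ∈ range J, t i χ‖ ^ 2 ≤ J * ∑ i ∈ range J, ‖t i χ‖ ^ 2 := by
    intro χ _
    calc ‖∑ i ∈ range J, t i χ‖ ^ 2 ≤ (∑ i ∈ range J, ‖t i χ‖) ^ 2 :=
          pow_le_pow_left₀ (norm_nonneg _) (norm_sum_le _ _) 2
      _ ≤ ((range J).card : ℝ) * ∑ i ∈ range J, ‖t i χ‖ ^ 2 := sq_sum_le_card_mul_sum_sq
      _ = J * ∑ i ∈ range J, ‖t i χ‖ ^ 2 := by rw [card_range]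
  calc ∑ χ ∈ G, ‖∑ i ∈ range J, t i χ‖ ^ 2 ≤ ∑ χ ∈ G, J * ∑ i ∈ range J, ‖t i χ‖ ^ 2 :=
        Finset.sum_le_sum h1
    _ = J * ∑ i ∈ range J, ∑ χ ∈ G, ‖t i χ‖ ^ 2 := by
        rw [← Finset.mul_sum, Finset.sum_comm]
    _ ≤ J * ∑ i ∈ range J, E := by
        apply mul_le_mul_of_nonneg_left _ (Nat.cast_nonneg _)
        exact Finset.sum_le_sum fun i hi => h i (Finset.mem_range.1 hi)
    _ = (J : ℝ) ^ 2 * E := by
        rw [Finset.sum_const, card_range, nsmul_eq_mul]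
        ring

/-- short sums -/
private theorem chi_short (A C : ℕ) (th e τ : ℝ) (hA : AdE th e τ) : ∃ X0 : ℕ, ∀ X : ℕ, X0 ≤ X →
    ∀ (q : ℕ) [NeZero q], Qr th e X q → ∀ θ : ℝ,
    ∀ α : ℕ → ℝ, (∀ l, |α l| ≤ (Real.log X) ^ C) →
    ∀ 𝓖 : Finset (DirichletCharacter ℂ q), ∀ t : ℕ, (t : ℝ) ≤ (X : ℝ) ^ (1 - e) →
      ∑ χ ∈ 𝓖, ‖∑ n ∈ Icc 1 t, ((∑ l ∈ n.divisors, α l : ℝ) : ℂ) * χ n *
        ee (n * θ)‖ ^ 2 ≤ X ^ 2 / Real.log X ^ A := by
  classical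
  obtain ⟨hth, hth2, he, hτ, heτ⟩ := hA
  have he2 : e ≤ 1 / 10000 := by linarith
  obtain ⟨C2, hC2⟩ := div_mom 2
  obtain ⟨X1, hX1⟩ := chi_ev_log (2 * 2 ^ C2) (2 * C + C2 + A) (2 * e) (by linarith)
  refine ⟨X1 + 3, fun X hX q _ hq θ α hα 𝓖 t ht => ?_⟩
  have h1 := hX1 X (by omega)
  have hX1' : 1 ≤ X := by omega
  have hX0 : (0 : ℝ) < X := by exact_mod_cast hX1'
  have hXR : (1 : ℝ) ≤ X := by exact_mod_cast hX1'
  obtain ⟨L, hL⟩ : ∃ L : ℝ, L = Real.log X := ⟨_, rfl⟩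
  rw [← hL] at h1 ⊢
  have hL1 : 1 ≤ L := by
    rw [hL, Real.le_log_iff_exp_le hX0]
    have : (3 : ℝ) ≤ X := by
      have : 3 ≤ X := by omega
      exact_mod_cast this
    linarith [Real.exp_one_lt_d9]
  have hL0 : 0 < L := by linarith
  rcases Nat.eq_zero_or_pos t with rfl | ht0
  · simp only [show Icc 1 0 = (∅ : Finset ℕ) from rfl, Finset.sum_empty, norm_zero]
    rw [zero_pow two_ne_zero, Finset.sum_const_zero]
    positivity
  have hlogt0 : 0 ≤ Real.log t := Real.log_natCast_nonneg t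
  have htX : (t : ℝ) ≤ X := by
    refine ht.trans ?_
    calc (X : ℝ) ^ (1 - e) ≤ (X : ℝ) ^ (1 : ℝ) :=
          Real.rpow_le_rpow_of_exponent_le hXR (by linarith)
      _ = X := Real.rpow_one _
  have hlogt : Real.log t ≤ L := by
    rw [hL]
    exact Real.log_le_log (by exact_mod_cast ht0) htX
  have hq2 : (q : ℝ) ≤ (X : ℝ) ^ (1 - e) :=
    hq.trans (Real.rpow_le_rpow_of_exponent_le hXR (by linarith))
  have hI : Icc 1 t = Ioc 0 (0 + t) := by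
    ext n
    simp only [Finset.mem_Ioc, Finset.mem_Icc]
    omega
  have hT : ∀ χ : DirichletCharacter ℂ q,
      ∑ n ∈ Icc 1 t, ((∑ l ∈ n.divisors, α l : ℝ) : ℂ) * χ n * ee (n * θ) =
      ∑ n ∈ Ioc 0 (0 + t), ((∑ l ∈ n.divisors, α l : ℝ) : ℂ) * ee (n * θ) * χ n := by
    intro χ
    rw [hI]
    refine Finset.sum_congr rfl fun n _ => ?_
    ring
  have hsum : ∑ n ∈ Ioc 0 (0 + t), ‖((∑ l ∈ n.divisors, α l : ℝ) : ℂ) * ee (n * θ)‖ ^ 2 ≤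
      L ^ (2 * C) * (t * (1 + Real.log t) ^ C2) := by
    rw [← hI]
    refine le_trans ?_ (mul_le_mul_of_nonneg_left (hC2 t ht0).1 (by positivity))
    rw [Finset.mul_sum]
    refine Finset.sum_le_sum fun n _ => ?_
    rw [norm_mul, norm_ee, mul_one, Complex.norm_real, Real.norm_eq_abs]
    have h2 : |∑ l ∈ n.divisors, α l| ≤ (n.divisors.card : ℝ) * L ^ C := by
      refine (Finset.abs_sum_le_sum_abs _ _).trans ?_
      calc ∑ l ∈ n.divisors, |α l| ≤ ∑ l ∈ n.divisors, L ^ C :=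
            Finset.sum_le_sum fun l _ => by rw [hL]; exact hα l
        _ = (n.divisors.card : ℝ) * L ^ C := by rw [Finset.sum_const, nsmul_eq_mul]
    calc |∑ l ∈ n.divisors, α l| ^ 2 ≤ ((n.divisors.card : ℝ) * L ^ C) ^ 2 :=
          pow_le_pow_left₀ (abs_nonneg _) h2 2
      _ = L ^ (2 * C) * (n.divisors.card : ℝ) ^ 2 := by
          rw [mul_pow, ← pow_mul, mul_comm C 2]
          ring
  simp only [hT]
  calc ∑ χ ∈ 𝓖, ‖∑ n ∈ Ioc 0 (0 + t), ((∑ l ∈ n.divisors, α l : ℝ) : ℂ) * ee (n * θ) * χ n‖ ^ 2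
      ≤ ∑ χ : DirichletCharacter ℂ q,
          ‖∑ n ∈ Ioc 0 (0 + t), ((∑ l ∈ n.divisors, α l : ℝ) : ℂ) * ee (n * θ) * χ n‖ ^ 2 := by
        apply Finset.sum_le_sum_of_subset_of_nonneg (Finset.subset_univ _)
        intro χ _ _
        positivity
    _ ≤ ((t : ℝ) + q) * ∑ n ∈ Ioc 0 (0 + t),
          ‖((∑ l ∈ n.divisors, α l : ℝ) : ℂ) * ee (n * θ)‖ ^ 2 := char_ms q 0 t _
    _ ≤ ((X : ℝ) ^ (1 - e) + (X : ℝ) ^ (1 - e)) *
          (L ^ (2 * C) * ((X : ℝ) ^ (1 - e) * (2 * L) ^ C2)) := by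
        apply mul_le_mul (add_le_add ht hq2) _ (by positivity) (by positivity)
        refine hsum.trans ?_
        gcongr
        linarith
    _ = (2 * 2 ^ C2 * (L ^ (2 * C) * L ^ C2)) * ((X : ℝ) ^ (1 - e) * (X : ℝ) ^ (1 - e)) := by
        rw [mul_pow]
        ring
    _ ≤ X ^ 2 / L ^ A := by
        rw [le_div_iff₀ (by positivity), ← Real.rpow_add hX0]
        calc (2 * 2 ^ C2 * (L ^ (2 * C) * L ^ C2)) * (X : ℝ) ^ (1 - e + (1 - e)) * L ^ A =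
            (2 * 2 ^ C2 * L ^ (2 * C + C2 + A)) * (X : ℝ) ^ (1 - e + (1 - e)) := by
              rw [pow_add, pow_add]
              ring
          _ ≤ (X : ℝ) ^ (2 * e) * (X : ℝ) ^ (1 - e + (1 - e)) := by gcongr
          _ = (X : ℝ) ^ 2 := by
              rw [← Real.rpow_add hX0, ← Real.rpow_natCast]
              congr 1
              push_cast
              ring

/-- without weight, up to `t` -/
theorem ch_I1 (A B C : ℕ) (th e τ : ℝ) (hA : AdE th e τ) : ∃ X0 : ℕ, ∀ X : ℕ, X0 ≤ X →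
    ∀ (q : ℕ) [NeZero q], Qr th e X q → ∀ (r : ℕ) (y : ℤ) (β : ℝ), Pt X q B r y β →
    ∀ α : ℕ → ℝ, (∀ l, |α l| ≤ (Real.log X) ^ C) → (∀ l : ℕ, ZJ th e X < l → α l = 0) →
    ∀ 𝓖 : Finset (DirichletCharacter ℂ q), (1 : DirichletCharacter ℂ q) ∉ 𝓖 → ∀ t : ℕ, t ≤ X →
      ∑ χ ∈ 𝓖, ‖∑ n ∈ Icc 1 t, ((∑ l ∈ n.divisors, α l : ℝ) : ℂ) * χ n *
        ee (n * (y / r + β))‖ ^ 2 ≤ X ^ 2 / Real.log X ^ A := by
  obtain ⟨X1, hX1⟩ := chi_piece (A + 2 * C + 4) B th e τ hA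
  obtain ⟨X2, hX2⟩ := chi_short A C th e τ hA
  refine ⟨X1 + X2 + 100, fun X hX q _ hq r y β hpt α hα hαZ 𝓖 h1G t htX => ?_⟩
  rcases le_total (t : ℝ) ((X : ℝ) ^ (1 - e)) with hts | htl
  · exact hX2 X (by omega) q hq (y / r + β) α hα 𝓖 t hts
  have hX1' : 1 ≤ X := by omega
  have hX0 : (0 : ℝ) < X := by exact_mod_cast hX1'
  have hX100 : (100 : ℝ) ≤ X := by
    have : 100 ≤ X := by omega
    exact_mod_cast this
  have ht0 : 0 < t := by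
    have h1 : (0 : ℝ) < t := lt_of_lt_of_le (by positivity) htl
    exact_mod_cast h1
  have hp := hX1 X (by omega) q hq r y β hpt
  obtain ⟨L, hL⟩ : ∃ L : ℝ, L = Real.log X := ⟨_, rfl⟩
  rw [← hL] at hp ⊢
  have hL3 : 4 ≤ L := by
    rw [hL, Real.le_log_iff_exp_le hX0]
    have h1 : Real.exp 4 = Real.exp 1 ^ 4 := by
      rw [← Real.exp_nat_mul]
      norm_num
    rw [h1]
    have h2 := Real.exp_one_lt_d9
    have h3 : Real.exp 1 ^ 4 ≤ (2.7182818286 : ℝ) ^ 4 :=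
      pow_le_pow_left₀ (Real.exp_pos _).le h2.le 4
    refine h3.trans (le_trans ?_ hX100)
    norm_num
  have hL0 : 0 < L := by linarith
  have hLC : 0 < L ^ C := by positivity
  obtain ⟨J, hJ⟩ : ∃ J : ℕ, J = Nat.log 2 t + 1 := ⟨_, rfl⟩
  have hJt : t < 2 ^ J := by rw [hJ]; exact Nat.lt_pow_succ_log_self (by norm_num) t
  have hJL : (J : ℝ) ≤ L ^ 2 := by
    have h1 : (2 : ℝ) ^ (Nat.log 2 t) ≤ X := by
      have h0 : 2 ^ Nat.log 2 t ≤ X := (Nat.pow_log_le_self 2 (by omega)).trans htX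
      exact_mod_cast h0
    have h2 : (Nat.log 2 t : ℝ) * Real.log 2 ≤ L := by
      rw [hL, ← Real.log_pow]
      exact Real.log_le_log (by positivity) h1
    have h3 := Real.log_two_gt_d9
    have h4 : (Nat.log 2 t : ℝ) ≤ 2 * L := by
      have h5 : (Nat.log 2 t : ℝ) * (1 / 2) ≤ (Nat.log 2 t : ℝ) * Real.log 2 :=
        mul_le_mul_of_nonneg_left (by linarith) (Nat.cast_nonneg _)
      linarith
    rw [hJ]
    push_cast
    nlinarith
  obtain ⟨b, hb⟩ : ∃ b : ArithmeticFunction ℝ,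
      ∀ l, b l = if l = 0 then 0 else α l / L ^ C := by
    refine ⟨⟨fun l => if l = 0 then 0 else α l / L ^ C, if_pos rfl⟩, fun l => rfl⟩
  have hb1 : ∀ n, |b n| ≤ 1 := by
    intro n
    rw [hb]
    split_ifs
    · rw [abs_zero]; exact zero_le_one
    · rw [abs_div, abs_of_pos hLC, div_le_one hLC, hL]
      exact hα n
  have hbZ : ∀ l : ℕ, ZJ th e X < l → b l = 0 := by
    intro l hl
    rw [hb]
    split_ifs
    · rfl
    · rw [hαZ l hl, zero_div]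
  have hsum : ∀ n : ℕ, n ≠ 0 → ∑ l ∈ n.divisors, α l = L ^ C * (b * ze) n := by
    intro n hn
    rw [ArithmeticFunction.mul_apply, Finset.mul_sum]
    rw [← Nat.sum_divisorsAntidiagonal (fun i _ => α i)]
    refine Finset.sum_congr rfl fun p hp => ?_
    obtain ⟨h1, h2⟩ := Nat.mem_divisorsAntidiagonal.1 hp
    have h3 : p.1 ≠ 0 := by
      intro h
      rw [h, zero_mul] at h1
      exact h2 h1.symm
    have h4 : p.2 ≠ 0 := by
      intro h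
      rw [h, mul_zero] at h1
      exact h2 h1.symm
    have h5 : ze p.2 = 1 := by
      unfold ze
      rw [ArithmeticFunction.natCoe_apply, ArithmeticFunction.zeta_apply, if_neg h4, Nat.cast_one]
    rw [h5, hb, if_neg h3, mul_one]
    field_simp
  have hT : ∀ χ : DirichletCharacter ℂ q,
      ∑ n ∈ Icc 1 t, ((∑ l ∈ n.divisors, α l : ℝ) : ℂ) * χ n * ee (n * (y / r + β)) =
      ((L ^ C : ℝ) : ℂ) * ∑ i ∈ range J, ∑ n ∈ Icc 1 t,
        (((restr ze i * b) n : ℝ) : ℂ) * χ n * ee (n * (y / r + β)) := by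
    intro χ
    rw [Finset.sum_comm, Finset.mul_sum]
    refine Finset.sum_congr rfl fun n hn => ?_
    rw [Finset.mem_Icc] at hn
    rw [hsum n (by omega), chi_conv_sum ze b J n (by omega), Complex.ofReal_mul,
      Complex.ofReal_sum, mul_assoc, mul_assoc, Finset.sum_mul]
    simp only [mul_assoc]
  have hE : ∀ i < J, ∑ χ ∈ 𝓖, ‖∑ n ∈ Icc 1 t,
      (((restr ze i * b) n : ℝ) : ℂ) * χ n * ee (n * (y / r + β))‖ ^ 2 ≤
      X ^ 2 / L ^ (A + 2 * C + 4) := by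
    intro i hi
    refine hp b hb1 hbZ 𝓖 h1G t htX htl i ?_
    calc 2 ^ i ≤ 2 ^ Nat.log 2 t := Nat.pow_le_pow_right (by norm_num) (by omega)
      _ ≤ t := Nat.pow_log_le_self 2 (by omega)
  have hfin := chi_cauchy 𝓖 J _ _ hE
  calc ∑ χ ∈ 𝓖, ‖∑ n ∈ Icc 1 t, ((∑ l ∈ n.divisors, α l : ℝ) : ℂ) * χ n *
        ee (n * (y / r + β))‖ ^ 2
      = L ^ (2 * C) * ∑ χ ∈ 𝓖, ‖∑ i ∈ range J, ∑ n ∈ Icc 1 t,
          (((restr ze i * b) n : ℝ) : ℂ) * χ n * ee (n * (y / r + β))‖ ^ 2 := by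
        rw [Finset.mul_sum]
        refine Finset.sum_congr rfl fun χ _ => ?_
        rw [hT χ, norm_mul, mul_pow, Complex.norm_real, Real.norm_eq_abs, abs_of_pos hLC,
          ← pow_mul, mul_comm C 2]
    _ ≤ L ^ (2 * C) * ((J : ℝ) ^ 2 * (X ^ 2 / L ^ (A + 2 * C + 4))) :=
        mul_le_mul_of_nonneg_left hfin (by positivity)
    _ ≤ L ^ (2 * C) * ((L ^ 2) ^ 2 * (X ^ 2 / L ^ (A + 2 * C + 4))) := by gcongr
    _ = X ^ 2 / L ^ A := by
        rw [← pow_mul, pow_add L (A + 2 * C) 4, pow_add L A (2 * C)]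
        field_simp

private theorem chi_abel (γ : ℕ → ℝ) (x : ℕ → ℂ) (X : ℕ) (hX : 1 ≤ X) :
    ∑ n ∈ Icc 1 X, (γ n : ℂ) * x n = (γ X : ℂ) * ∑ n ∈ Icc 1 X, x n -
      ∑ n ∈ Ico 1 X, ((γ (n + 1) - γ n : ℝ) : ℂ) * ∑ m ∈ Icc 1 n, x m := by
  induction X, hX using Nat.le_induction with
  | base => simp
  | succ X hX ih =>
    rw [Finset.sum_Icc_succ_top (by omega), Finset.sum_Icc_succ_top (by omega),
      Finset.sum_Ico_succ_top hX, ih]
    push_cast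
    ring

theorem ch_I (A B C : ℕ) (th e τ : ℝ) (hA : AdE th e τ) : ∃ X0 : ℕ, ∀ X : ℕ, X0 ≤ X →
    ∀ (q : ℕ) [NeZero q], Qr th e X q → ∀ (r : ℕ) (y : ℤ) (β : ℝ), Pt X q B r y β →
    ∀ γ α : ℕ → ℝ, TyI th e X C γ α →
    ∀ 𝓖 : Finset (DirichletCharacter ℂ q), (1 : DirichletCharacter ℂ q) ∉ 𝓖 →
      ∑ χ ∈ 𝓖, ‖Tc X q (fI1 γ α) (y / r + β) χ‖ ^ 2 ≤ X ^ 2 / Real.log X ^ A := by
  obtain ⟨X1, hX1⟩ := ch_I1 (A + 2 * C + 2) B C th e τ hA
  refine ⟨X1 + 10, fun X hX q _ hq r y β hpt γ α hγα 𝓖 h1G => ?_⟩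
  obtain ⟨hγ, hvar, hα, hαZ⟩ := hγα
  have hX1' : 1 ≤ X := by omega
  have hX0 : (0 : ℝ) < X := by exact_mod_cast hX1'
  have hS := hX1 X (by omega) q hq r y β hpt α hα hαZ 𝓖 h1G
  obtain ⟨L, hL⟩ : ∃ L : ℝ, L = Real.log X := ⟨_, rfl⟩
  rw [← hL] at hS hvar ⊢
  have hL2 : 2 ≤ L := by
    rw [hL, Real.le_log_iff_exp_le hX0]
    have h1 : Real.exp 2 = Real.exp 1 ^ 2 := by
      rw [← Real.exp_nat_mul]
      norm_num
    have h10 : (10 : ℝ) ≤ X := by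
      have : 10 ≤ X := by omega
      exact_mod_cast this
    rw [h1]
    have h2 := Real.exp_one_lt_d9
    have h3 : Real.exp 1 ^ 2 ≤ (2.7182818286 : ℝ) ^ 2 :=
      pow_le_pow_left₀ (Real.exp_pos _).le h2.le 2
    refine h3.trans (le_trans ?_ h10)
    norm_num
  have hL0 : 0 < L := by linarith
  obtain ⟨S, hSdef⟩ : ∃ S : ℕ → DirichletCharacter ℂ q → ℂ,
      S = fun (t : ℕ) (χ : DirichletCharacter ℂ q) =>
      ∑ n ∈ Icc 1 t, ((∑ l ∈ n.divisors, α l : ℝ) : ℂ) * χ n * ee (n * (y / r + β)) := ⟨_, rfl⟩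
  obtain ⟨E, hE⟩ : ∃ E : ℝ, E = X ^ 2 / L ^ (A + 2 * C + 2) := ⟨_, rfl⟩
  have hE0 : 0 ≤ E := by rw [hE]; positivity
  have hS2 : ∀ t : ℕ, t ≤ X → ∑ χ ∈ 𝓖, ‖S t χ‖ ^ 2 ≤ E := by
    intro t ht
    rw [hSdef, hE]
    exact hS t ht
  obtain ⟨D, hD⟩ : ∃ D : ℕ → ℝ, D = fun n => |γ (n + 1) - γ n| := ⟨_, rfl⟩
  have hD0 : ∀ n, 0 ≤ D n := fun n => by rw [hD]; exact abs_nonneg _
  have hDs : ∑ n ∈ Ico 1 X, D n ≤ L ^ C := by rw [hD]; exact hvar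
  have hone : ∀ χ ∈ 𝓖, ‖Tc X q (fI1 γ α) (y / r + β) χ‖ ^ 2 ≤
      2 * L ^ (2 * C) * ‖S X χ‖ ^ 2 + 2 * L ^ C * ∑ n ∈ Ico 1 X, D n * ‖S n χ‖ ^ 2 := by
    intro χ _
    have h1 : Tc X q (fI1 γ α) (y / r + β) χ = (γ X : ℂ) * S X χ -
        ∑ n ∈ Ico 1 X, ((γ (n + 1) - γ n : ℝ) : ℂ) * S n χ := by
      rw [hSdef]
      simp only
      rw [← chi_abel γ (fun n => ((∑ l ∈ n.divisors, α l : ℝ) : ℂ) * χ n *
        ee (n * (y / r + β))) X hX1']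
      unfold Tc fI1
      refine Finset.sum_congr rfl fun n _ => ?_
      push_cast
      ring
    have h2 : ‖∑ n ∈ Ico 1 X, ((γ (n + 1) - γ n : ℝ) : ℂ) * S n χ‖ ≤
        ∑ n ∈ Ico 1 X, D n * ‖S n χ‖ := by
      refine (norm_sum_le _ _).trans (Finset.sum_le_sum fun n _ => ?_)
      rw [norm_mul, Complex.norm_real, Real.norm_eq_abs, hD]
    have h3 : (∑ n ∈ Ico 1 X, D n * ‖S n χ‖) ^ 2 ≤
        (∑ n ∈ Ico 1 X, D n) * ∑ n ∈ Ico 1 X, D n * ‖S n χ‖ ^ 2 :=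
      Finset.sum_sq_le_sum_mul_sum_of_sq_le_mul _ (fun n _ => hD0 n)
        (fun n _ => mul_nonneg (hD0 n) (by positivity)) (fun n _ => by
          rw [mul_pow, ← mul_assoc, sq (D n)])
    have h4 : 0 ≤ ∑ n ∈ Ico 1 X, D n * ‖S n χ‖ ^ 2 :=
      Finset.sum_nonneg fun n _ => mul_nonneg (hD0 n) (by positivity)
    have h5 : ‖(γ X : ℂ) * S X χ‖ ≤ L ^ C * ‖S X χ‖ := by
      rw [norm_mul, Complex.norm_real, Real.norm_eq_abs]
      refine mul_le_mul_of_nonneg_right ?_ (norm_nonneg _)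
      rw [hL]
      exact hγ X
    have h6 : ‖Tc X q (fI1 γ α) (y / r + β) χ‖ ≤ L ^ C * ‖S X χ‖ +
        ∑ n ∈ Ico 1 X, D n * ‖S n χ‖ := by
      rw [h1]
      exact (norm_sub_le _ _).trans (add_le_add h5 h2)
    calc ‖Tc X q (fI1 γ α) (y / r + β) χ‖ ^ 2 ≤ (L ^ C * ‖S X χ‖ +
          ∑ n ∈ Ico 1 X, D n * ‖S n χ‖) ^ 2 := pow_le_pow_left₀ (norm_nonneg _) h6 2
      _ ≤ 2 * (L ^ C * ‖S X χ‖) ^ 2 + 2 * (∑ n ∈ Ico 1 X, D n * ‖S n χ‖) ^ 2 := by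
          nlinarith [sq_nonneg (L ^ C * ‖S X χ‖ - ∑ n ∈ Ico 1 X, D n * ‖S n χ‖)]
      _ ≤ 2 * (L ^ C * ‖S X χ‖) ^ 2 +
          2 * (L ^ C * ∑ n ∈ Ico 1 X, D n * ‖S n χ‖ ^ 2) := by
          have := h3.trans (mul_le_mul_of_nonneg_right hDs h4)
          linarith
      _ = 2 * L ^ (2 * C) * ‖S X χ‖ ^ 2 + 2 * L ^ C * ∑ n ∈ Ico 1 X, D n * ‖S n χ‖ ^ 2 := by
          rw [mul_pow, ← pow_mul, mul_comm C 2]
          ring
  have hsw : ∑ χ ∈ 𝓖, ∑ n ∈ Ico 1 X, D n * ‖S n χ‖ ^ 2 ≤ L ^ C * E := by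
    rw [Finset.sum_comm]
    calc ∑ n ∈ Ico 1 X, ∑ χ ∈ 𝓖, D n * ‖S n χ‖ ^ 2 ≤ ∑ n ∈ Ico 1 X, D n * E := by
          refine Finset.sum_le_sum fun n hn => ?_
          rw [Finset.mem_Ico] at hn
          rw [← Finset.mul_sum]
          exact mul_le_mul_of_nonneg_left (hS2 n (by omega)) (hD0 n)
      _ = (∑ n ∈ Ico 1 X, D n) * E := by rw [Finset.sum_mul]
      _ ≤ L ^ C * E := mul_le_mul_of_nonneg_right hDs hE0
  calc ∑ χ ∈ 𝓖, ‖Tc X q (fI1 γ α) (y / r + β) χ‖ ^ 2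
      ≤ ∑ χ ∈ 𝓖, (2 * L ^ (2 * C) * ‖S X χ‖ ^ 2 +
          2 * L ^ C * ∑ n ∈ Ico 1 X, D n * ‖S n χ‖ ^ 2) := Finset.sum_le_sum hone
    _ = 2 * L ^ (2 * C) * ∑ χ ∈ 𝓖, ‖S X χ‖ ^ 2 +
          2 * L ^ C * ∑ χ ∈ 𝓖, ∑ n ∈ Ico 1 X, D n * ‖S n χ‖ ^ 2 := by
        rw [Finset.sum_add_distrib, Finset.mul_sum, Finset.mul_sum]
    _ ≤ 2 * L ^ (2 * C) * E + 2 * L ^ C * (L ^ C * E) := by
        gcongr
        exact hS2 X le_rfl
    _ = 4 * (L ^ (2 * C) * E) := by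
        rw [mul_comm 2 C, pow_mul]
        ring
    _ ≤ L ^ 2 * (L ^ (2 * C) * E) := by
        have h4 : (4 : ℝ) ≤ L ^ 2 := by nlinarith
        exact mul_le_mul_of_nonneg_right h4 (by positivity)
    _ = X ^ 2 / L ^ A := by
        rw [hE, pow_add L (A + 2 * C) 2, pow_add L A (2 * C)]
        field_simp

end Pool.MP_dd84fd_nt.EM
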