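import Pool.Agent.Lib.MP_dd84fd_nt.EM.Defs
import Pool.Agent.Lib.MP_dd84fd_nt.T7.SepRaw
import Pool.Agent.Lib.MP_dd84fd_nt.L2G.CharOrth
import Pool.Agent.Lib.MP_dd84fd_nt.L2G.DivMom
import Pool.Agent.Lib.MP_dd84fd_nt.L2G.MomCount

/-!
# EM-ChII (1.5 h): type II blocks against the characters

Template: `T7/BilCharCore.lean` (the case `P < X^(1/5)` there; the moments: the 2k-th moment, copy the private lemmas).  Here the window is `X^τ/2 ≤ M ≤ X^(th-3e)`, so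
`k = ⌈2/τ⌉` (`(2M)^k ≥ q`), and the constant `C'` depends on `τ`.
`fI2 K a c` on `Icc 1 X` is `(a * b)`, `b = c · [k ≤ K]`, as arithmetic functions (value `0` at `0`), scaled by `L^(-C)`; `sep_raw` with `P := M + 1` (support of `a` in `[P, 64 P]`),
`H = ⌈L^A2⌉`.  `𝓑` = the `χ` with `|Σ_{m in cell i, m = c (r)} a(m) χ(m)| > M/L^A1` for one of the `10 H r` pairs `(i, c)`.
Number for one pair: `A(χ)^k = Σ_{n ≤ (2M)^k} a_k(n) χ(n)`, `|a_k(n)| ≤ L^(Ck) τ(n)^k`; `char_ms`: `Σ_χ |A|^(2k) ≤ ((2M)^k + q) (2M)^k L^c`, so the number is `≤ 2 · 4^k L^(c + 2 k A1)`.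
Outside: `Σ_χ |A|²|B|² ≤ (M/L^A1)² (K + q) K L^c ≤ (X² + X (M q)) L^c/L^(2 A1)`, `M q ≤ X^(1-2e)`.
-/

set_option autoImplicit false

namespace Pool.MP_dd84fd_nt.EM

open Finset Pool.MP_67663b_nt.Odd Pool.MP_dd84fd_nt.En Pool.MP_dd84fd_nt.E2
open Pool.MP_dd84fd_nt.HX Pool.MP_dd84fd_nt.IX
open Pool.MP_dd84fd_nt.JX (ZJ DecJ Str wP gP)
open Pool.MP_dd84fd_nt.L2G (fz VA VQ MajQ MinorHyp Tc Jc cv av gr Se)
open Pool.MP_dd84fd_nt.T7 (Fz2)

private lemma ci_large (k : ℕ) : ∃ X0 : ℕ, ∀ X : ℕ, X0 ≤ X →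
    64 ≤ Real.log X ∧ Real.log X ^ k ≤ X := by
  have h1 : ∀ᶠ x : ℝ in Filter.atTop, 64 ≤ Real.log x :=
    Real.tendsto_log_atTop.eventually_ge_atTop 64
  have h2 : ∀ᶠ x : ℝ in Filter.atTop, ‖Real.log x ^ k‖ ≤ 1 * ‖x‖ :=
    (Real.isLittleO_pow_log_id_atTop (n := k)).bound one_pos
  have h3 : ∀ᶠ X : ℕ in Filter.atTop, 64 ≤ Real.log X ∧ Real.log X ^ k ≤ X := by
    filter_upwards [tendsto_natCast_atTop_atTop.eventually h1,
      tendsto_natCast_atTop_atTop.eventually h2] with X ha hb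
    refine ⟨ha, ?_⟩
    rw [Real.norm_eq_abs, Real.norm_eq_abs, one_mul, abs_of_nonneg (a := (X : ℝ)) (by positivity)]
      at hb
    exact (le_abs_self _).trans hb
  exact Filter.eventually_atTop.1 h3

/-- the coefficients restricted to one cell and one class -/
private noncomputable def cic (a : ℕ → ℝ) (P H r i c m : ℕ) : ℝ :=
  if m ∈ (Ico (L2G.cell P H i) (L2G.cell P H (i + 1))).filter (fun m => m % r = c) then a m else 0

/-- the sum over one cell and one residue class -/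
private noncomputable def ciA {q : ℕ} (a : ℕ → ℝ) (P H r i c : ℕ)
    (χ : DirichletCharacter ℂ q) : ℂ :=
  ∑ m ∈ (Ico (L2G.cell P H i) (L2G.cell P H (i + 1))).filter (fun m => m % r = c), (a m : ℂ) * χ m

private lemma cic_bound (a : ℕ → ℝ) (P H r i c : ℕ)
    (ha : ∀ m, 1 ≤ m → |a m| ≤ (1 + Real.log m) * (m.divisors.card : ℝ) ^ 5) (m : ℕ)
    (hm : 1 ≤ m) : |cic a P H r i c m| ≤ (1 + Real.log m) * (m.divisors.card : ℝ) ^ 5 := by
  unfold cic
  split_ifs with h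
  · exact ha m hm
  · rw [abs_zero]
    have : 0 ≤ Real.log m := Real.log_natCast_nonneg m
    positivity

private lemma ciA_eq {q : ℕ} (a : ℕ → ℝ) (P H r i c : ℕ) (hP : 1 ≤ P)
    (hsupp : ∀ n, a n ≠ 0 → P ≤ n ∧ n ≤ 64 * P) (χ : DirichletCharacter ℂ q) :
    ciA a P H r i c χ = ∑ m ∈ Icc 1 (64 * P), (cic a P H r i c m : ℂ) * χ m := by
  unfold ciA
  have e1 : ∑ m ∈ Icc 1 (64 * P), (cic a P H r i c m : ℂ) * χ m =
      ∑ m ∈ (Icc 1 (64 * P)).filter (fun m => m ∈ (Ico (L2G.cell P H i)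
        (L2G.cell P H (i + 1))).filter (fun m => m % r = c)), (a m : ℂ) * χ m := by
    rw [Finset.sum_filter]
    refine Finset.sum_congr rfl fun m _ => ?_
    simp only [cic]
    split_ifs
    · rfl
    · rw [Complex.ofReal_zero, zero_mul]
  rw [e1]
  symm
  apply Finset.sum_subset
  · intro m hm
    exact (mem_filter.1 hm).2
  · intro m hm hm'
    have h3 : a m = 0 := by
      by_contra h0
      obtain ⟨h4, h5⟩ := hsupp m h0
      apply hm'
      rw [mem_filter, mem_Icc]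
      exact ⟨⟨by omega, h5⟩, hm⟩
    rw [h3, Complex.ofReal_zero, zero_mul]

/-- the number of bad characters for one cell and one residue class -/
private lemma ci_count {k C q : ℕ} [NeZero q]
    (hC : ∀ (q N : ℕ) [NeZero q], 1 ≤ N → q ≤ N ^ k →
      ∀ a : ℕ → ℝ, (∀ m, 1 ≤ m → |a m| ≤ (1 + Real.log m) * (m.divisors.card : ℝ) ^ 5) →
      ∀ V : ℝ, 0 < V → ∀ 𝓑 : Finset (DirichletCharacter ℂ q),
      (∀ χ ∈ 𝓑, V < ‖∑ m ∈ Icc 1 N, (a m : ℂ) * χ m‖) →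
      (𝓑.card : ℝ) ≤ (N / V) ^ (2 * k) * (2 + Real.log N) ^ C)
    (P H r i c : ℕ) (hP : 1 ≤ P) (hq : q ≤ (64 * P) ^ k) (a : ℕ → ℝ)
    (ha : ∀ m, 1 ≤ m → |a m| ≤ (1 + Real.log m) * (m.divisors.card : ℝ) ^ 5)
    (hsupp : ∀ n, a n ≠ 0 → P ≤ n ∧ n ≤ 64 * P) (V : ℝ) (hV : 0 < V)
    (𝓑 : Finset (DirichletCharacter ℂ q)) (h𝓑 : ∀ χ ∈ 𝓑, V < ‖ciA a P H r i c χ‖) :
    (𝓑.card : ℝ) ≤ (((64 * P : ℕ) : ℝ) / V) ^ (2 * k) * (2 + Real.log ((64 * P : ℕ) : ℝ)) ^ C := by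
  refine hC q (64 * P) (by omega) hq (cic a P H r i c) (cic_bound a P H r i c ha) V hV 𝓑
    (fun χ hχ => ?_)
  rw [← ciA_eq a P H r i c hP hsupp χ]
  exact h𝓑 χ hχ

/-- the bilinear bound for coefficients bounded by `1` -/
private lemma ci_core (k : ℕ) (hk : 1 ≤ k) (A B : ℕ) : ∃ C' X0 : ℕ, ∀ X : ℕ, X0 ≤ X →
    ∀ (q : ℕ) [NeZero q], (q : ℝ) ≤ X → ∀ (r : ℕ) (y : ℤ) (β : ℝ), 1 ≤ r →
    (r : ℝ) ≤ Real.log X ^ B → |β| ≤ Real.log X ^ B / X →
    ∀ (P K : ℕ) (a b : ArithmeticFunction ℝ), 1 ≤ P → (P : ℝ) ≤ X → q ≤ (64 * P) ^ k →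
      1 ≤ K → (P : ℝ) * K ≤ 2 * X → (q : ℝ) * P ≤ 2 * X →
      (∀ n, a n ≠ 0 → P ≤ n ∧ n ≤ 64 * P) → (∀ n, b n ≠ 0 → n ≤ K) →
      (∀ n, |a n| ≤ 1) → (∀ n, |b n| ≤ 1) →
      ∃ 𝓑 : Finset (DirichletCharacter ℂ q), (𝓑.card : ℝ) ≤ Real.log X ^ C' ∧
        ∀ 𝓖 : Finset (DirichletCharacter ℂ q), Disjoint 𝓖 𝓑 →
          ∑ χ ∈ 𝓖, ‖Tc X q (fun n => (a * b) n) (y / r + β) χ‖ ^ 2 ≤ X ^ 2 / Real.log X ^ A := by
  classical
  obtain ⟨C1, hC1⟩ := T7.sep_raw
  obtain ⟨C2, hC2⟩ := L2G.mom_count k hk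
  obtain ⟨M, hM⟩ : ∃ M : ℕ, M = A + 2 * C1 + 1 := ⟨_, rfl⟩
  obtain ⟨A2, hA2⟩ : ∃ A2 : ℕ, A2 = 2 * (M + B) := ⟨_, rfl⟩
  obtain ⟨A0, hA0⟩ : ∃ A0 : ℕ, A0 = A + 2 * (A2 + 1) + 2 * B + 2 := ⟨_, rfl⟩
  obtain ⟨A1, hA1⟩ : ∃ A1 : ℕ, A1 = A0 + 1 := ⟨_, rfl⟩
  obtain ⟨X0, hX0⟩ := ci_large (A2 + 1 + B)
  refine ⟨1 + (A2 + 1) + B + 2 * k * (A1 + 1) + 2 * C2, X0 + 2, ?_⟩
  intro X hX q _ hqX r y β hr1 hr hβ P K a b hPpos hPX hqN hK1 hPKX hqP hasupp hbsupp ha1 hb1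
  obtain ⟨hL64, hLX⟩ := hX0 X (by omega)
  have hone1 : ∀ n : ℕ, 1 ≤ n → (1 : ℝ) ≤ (1 + Real.log n) * (n.divisors.card : ℝ) ^ 5 := by
    intro n hn
    have h1 : 0 ≤ Real.log n := Real.log_natCast_nonneg n
    have h2 : (1 : ℝ) ≤ (n.divisors.card : ℝ) := by
      have : 0 < n.divisors.card := Finset.card_pos.2 ⟨1, by simp; omega⟩
      exact_mod_cast this
    have h3 : (1 : ℝ) ≤ (n.divisors.card : ℝ) ^ 5 := one_le_pow₀ h2
    nlinarith
  have hab1 : ∀ n, 1 ≤ n → |a n| ≤ (1 + Real.log n) * (n.divisors.card : ℝ) ^ 5 :=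
    fun n hn => (ha1 n).trans (hone1 n hn)
  have hbb1 : ∀ n, 1 ≤ n → |b n| ≤ (1 + Real.log n) * (n.divisors.card : ℝ) ^ 5 :=
    fun n hn => (hb1 n).trans (hone1 n hn)
  obtain ⟨L, hL⟩ : ∃ L : ℝ, L = Real.log X := ⟨_, rfl⟩
  rw [← hL] at hL64 hLX hr hβ ⊢
  have hX2 : 2 ≤ X := by omega
  have hXR : (2 : ℝ) ≤ X := by exact_mod_cast hX2
  have hXp : (0 : ℝ) < X := by linarith
  have hX1 : (1 : ℝ) ≤ X := by linarith
  have hL1 : 1 ≤ L := by linarith
  have hLp : 0 < L := by linarith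
  have hpw : ∀ {i j : ℕ}, i ≤ j → L ^ i ≤ L ^ j := fun h => pow_le_pow_right₀ hL1 h
  have hPR : (1 : ℝ) ≤ P := by exact_mod_cast hPpos
  have hP0 : 0 < (P : ℝ) := by linarith
  obtain ⟨H, hH⟩ : ∃ H : ℕ, H = ⌈L ^ A2⌉₊ := ⟨_, rfl⟩
  have hLA2 : 1 ≤ L ^ A2 := one_le_pow₀ hL1
  have hHlow : L ^ A2 ≤ H := by rw [hH]; exact Nat.le_ceil _
  have hH1 : 1 ≤ H := by
    have : (1 : ℝ) ≤ H := hLA2.trans hHlow
    exact_mod_cast this
  have hHup : (H : ℝ) ≤ L ^ (A2 + 1) := by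
    rw [hH]
    have h1 := (Nat.ceil_lt_add_one (by positivity : 0 ≤ L ^ A2)).le
    rw [pow_succ]
    nlinarith
  have hHX : H ≤ X := by
    have h1 : (H : ℝ) ≤ X := hHup.trans ((hpw (by omega)).trans hLX)
    exact_mod_cast h1
  have hrX : r ≤ X := by
    have h1 : (r : ℝ) ≤ X := hr.trans ((hpw (by omega)).trans hLX)
    exact_mod_cast h1
  obtain ⟨V, hV⟩ : ∃ V : ℝ, V = P / L ^ A1 := ⟨_, rfl⟩
  have hVp : 0 < V := by rw [hV]; positivity
  have hK0 : (0 : ℝ) ≤ K := Nat.cast_nonneg K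
  -- the bad set
  obtain ⟨𝓑, h𝓑⟩ : ∃ 𝓑 : Finset (DirichletCharacter ℂ q), 𝓑 =
      (range (10 * H) ×ˢ range r).biUnion (fun ic =>
        univ.filter (fun χ => V < ‖ciA a P H r ic.1 ic.2 χ‖)) := ⟨_, rfl⟩
  refine ⟨𝓑, ?_, fun 𝓖 h𝓖 => ?_⟩
  · have h1 : (𝓑.card : ℝ) ≤ ∑ ic ∈ range (10 * H) ×ˢ range r,
        ((univ.filter (fun χ : DirichletCharacter ℂ q => V < ‖ciA a P H r ic.1 ic.2 χ‖)).card
          : ℝ) := by
      rw [h𝓑]
      exact_mod_cast Finset.card_biUnion_le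
    have hlog : 2 + Real.log ((64 * P : ℕ) : ℝ) ≤ L ^ 2 := by
      have h2 : Real.log ((64 * P : ℕ) : ℝ) ≤ Real.log 64 + L := by
        push_cast
        rw [Real.log_mul (by norm_num) (by linarith), hL]
        exact add_le_add le_rfl (Real.log_le_log (by linarith) hPX)
      have h3 : Real.log 64 ≤ 63 := by
        have := Real.log_le_sub_one_of_pos (by norm_num : (0 : ℝ) < 64)
        linarith
      nlinarith
    have hlog0 : 0 ≤ 2 + Real.log ((64 * P : ℕ) : ℝ) := by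
      have := Real.log_natCast_nonneg (64 * P)
      linarith
    have hNV : ((64 * P : ℕ) : ℝ) / V ≤ L ^ (A1 + 1) := by
      rw [hV]
      push_cast
      have h2 : (64 : ℝ) * P / (P / L ^ A1) = 64 * L ^ A1 := by
        field_simp
      rw [h2, pow_succ, mul_comm]
      exact mul_le_mul_of_nonneg_left hL64 (by positivity)
    have h2 : ∀ ic ∈ range (10 * H) ×ˢ range r,
        ((univ.filter (fun χ : DirichletCharacter ℂ q => V < ‖ciA a P H r ic.1 ic.2 χ‖)).card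
          : ℝ) ≤ L ^ (2 * k * (A1 + 1) + 2 * C2) := by
      intro ic _
      refine (ci_count (k := k) (C := C2) hC2 P H r ic.1 ic.2 hPpos hqN (fun n => a n) hab1
        hasupp V hVp _ (fun χ hχ => (mem_filter.1 hχ).2)).trans ?_
      have e1 : L ^ (2 * k * (A1 + 1) + 2 * C2) = (L ^ (A1 + 1)) ^ (2 * k) * (L ^ 2) ^ C2 := by
        rw [pow_add, ← pow_mul, ← pow_mul]
        congr 2
        ring
      rw [e1]
      exact mul_le_mul (pow_le_pow_left₀ (by positivity) hNV _)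
        (pow_le_pow_left₀ hlog0 hlog _) (by positivity) (by positivity)
    have h3 := h1.trans (Finset.sum_le_sum h2)
    rw [Finset.sum_const, Finset.card_product, Finset.card_range, Finset.card_range,
      nsmul_eq_mul] at h3
    push_cast at h3
    refine h3.trans ?_
    have h4 : 10 * (H : ℝ) * r ≤ L * L ^ (A2 + 1) * L ^ B :=
      mul_le_mul (mul_le_mul (by linarith) hHup (by positivity) (by positivity)) hr
        (by positivity) (by positivity)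
    refine (mul_le_mul_of_nonneg_right h4 (by positivity)).trans (le_of_eq ?_)
    ring
  · have hbad : ∀ χ ∈ 𝓖, ∀ i < 10 * H, ∀ c < r, ‖ciA a P H r i c χ‖ ≤ V := by
      intro χ hχ i hi c hc
      by_contra hlt
      push Not at hlt
      refine (Finset.disjoint_left.1 h𝓖) hχ ?_
      rw [h𝓑]
      refine Finset.mem_biUnion.2 ⟨(i, c), Finset.mem_product.2 ⟨mem_range.2 hi, mem_range.2 hc⟩, ?_⟩
      exact mem_filter.2 ⟨mem_univ _, hlt⟩
    obtain ⟨bc, hbc, hmain⟩ := hC1 X q r H P K hX2 (by exact_mod_cast hqX) hr1 hrX hH1 hHX hPpos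
      (by exact_mod_cast hPX) hK1 a b hab1 hbb1 hasupp (fun k hk _ => hbsupp k hk) y β
    have hTc : ∑ χ ∈ 𝓖, ‖Tc X q (fun n => (a * b) n) (y / r + β) χ‖ ^ 2 =
        ∑ χ ∈ 𝓖, ‖∑ n ∈ Icc 1 X, (((a * b) n : ℝ) : ℂ) * χ n * ee (n * (y / r + β))‖ ^ 2 := by
      unfold Tc
      rfl
    rw [hTc]
    refine (hmain 𝓖).trans ?_
    rw [← hL]
    have hbcb : ∀ i c' n, ‖bc i c' n‖ ≤ 1 :=
      fun i c' n => (hbc i c' n).trans (hb1 n)
    -- one cell and one class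
    have hone : ∀ i ∈ range (10 * H), ∀ c' ∈ range r, ∑ χ ∈ 𝓖, ‖ciA a P H r i c' χ‖ ^ 2 *
        ‖∑ k ∈ Icc 1 K, bc i c' k * χ k‖ ^ 2 ≤ X ^ 2 / L ^ A0 := by
      intro i hi c' hc'
      rw [mem_range] at hi hc'
      have h1 : ∑ χ ∈ 𝓖, ‖ciA a P H r i c' χ‖ ^ 2 * ‖∑ k ∈ Icc 1 K, bc i c' k * χ k‖ ^ 2 ≤
          V ^ 2 * ∑ χ ∈ 𝓖, ‖∑ k ∈ Icc 1 K, bc i c' k * χ k‖ ^ 2 := by
        rw [Finset.mul_sum]
        refine Finset.sum_le_sum fun χ hχ => ?_
        exact mul_le_mul_of_nonneg_right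
          (pow_le_pow_left₀ (norm_nonneg _) (hbad χ hχ i hi c' hc') 2) (by positivity)
      have h2 : ∑ χ ∈ 𝓖, ‖∑ k ∈ Icc 1 K, bc i c' k * χ k‖ ^ 2 ≤
          ((K : ℝ) + q) * ∑ n ∈ Icc 1 K, ‖bc i c' n‖ ^ 2 := by
        refine (Finset.sum_le_sum_of_subset_of_nonneg (Finset.subset_univ _)
          fun _ _ _ => by positivity).trans ?_
        have h1 := L2G.char_ms q 0 K (bc i c')
        have h2 : Ioc 0 (0 + K) = Icc 1 K := by
          ext x
          simp only [Finset.mem_Ioc, Finset.mem_Icc]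
          omega
        rw [h2] at h1
        exact h1
      have h3 : ∑ n ∈ Icc 1 K, ‖bc i c' n‖ ^ 2 ≤ K := by
        calc ∑ n ∈ Icc 1 K, ‖bc i c' n‖ ^ 2 ≤ ∑ n ∈ Icc 1 K, (1 : ℝ) :=
              Finset.sum_le_sum fun n _ => pow_le_one₀ (norm_nonneg _) (hbcb i c' n)
          _ = K := by simp
      have h4 : ∑ χ ∈ 𝓖, ‖ciA a P H r i c' χ‖ ^ 2 * ‖∑ k ∈ Icc 1 K, bc i c' k * χ k‖ ^ 2 ≤
          V ^ 2 * (((K : ℝ) + q) * K) := by
        refine h1.trans (mul_le_mul_of_nonneg_left (h2.trans ?_) (by positivity))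
        exact mul_le_mul_of_nonneg_left h3 (by positivity)
      refine h4.trans ?_
      have h5 : V ^ 2 * (((K : ℝ) + q) * K) =
          ((P * K) * (P * K) + (q * P) * (P * K)) / (L ^ A1) ^ 2 := by
        rw [hV]
        field_simp
      rw [h5, div_le_div_iff₀ (by positivity) (by positivity)]
      have h6 : ((P : ℝ) * K) * (P * K) + (q * P) * (P * K) ≤ 8 * X ^ 2 := by
        have h5 : ((P : ℝ) * K) * (P * K) ≤ (2 * X) * (2 * X) :=
          mul_le_mul hPKX hPKX (by positivity) (by positivity)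
        have h6 : ((q : ℝ) * P) * (P * K) ≤ (2 * X) * (2 * X) :=
          mul_le_mul hqP hPKX (by positivity) (by positivity)
        nlinarith
      have h7 : 8 * L ^ A0 ≤ (L ^ A1) ^ 2 := by
        calc 8 * L ^ A0 ≤ L * L ^ A0 := by gcongr; linarith
          _ = L ^ (A0 + 1) := by rw [pow_succ]; ring
          _ ≤ L ^ (A1 * 2) := hpw (by omega)
          _ = (L ^ A1) ^ 2 := pow_mul _ _ _
      calc (((P : ℝ) * K) * (P * K) + (q * P) * (P * K)) * L ^ A0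
          ≤ (8 * X ^ 2) * L ^ A0 := mul_le_mul_of_nonneg_right h6 (by positivity)
        _ = X ^ 2 * (8 * L ^ A0) := by ring
        _ ≤ X ^ 2 * (L ^ A1) ^ 2 := mul_le_mul_of_nonneg_left h7 (by positivity)
    have hS1 : 20 * (H : ℝ) * r * ∑ i ∈ range (10 * H), ∑ c ∈ range r, ∑ χ ∈ 𝓖,
        ‖∑ m ∈ (Ico (L2G.cell P H i) (L2G.cell P H (i + 1))).filter (fun m => m % r = c),
          (a m : ℂ) * χ m‖ ^ 2 * ‖∑ k ∈ Icc 1 K, bc i c k * χ k‖ ^ 2 ≤
        X ^ 2 / (2 * L ^ A) := by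
      have h1 : ∑ i ∈ range (10 * H), ∑ c ∈ range r, ∑ χ ∈ 𝓖,
          ‖∑ m ∈ (Ico (L2G.cell P H i) (L2G.cell P H (i + 1))).filter (fun m => m % r = c),
            (a m : ℂ) * χ m‖ ^ 2 * ‖∑ k ∈ Icc 1 K, bc i c k * χ k‖ ^ 2 ≤
          ∑ i ∈ range (10 * H), ∑ c ∈ range r, (X : ℝ) ^ 2 / L ^ A0 :=
        Finset.sum_le_sum fun i hi => Finset.sum_le_sum fun c' hc' => hone i hi c' hc'
      have h2 : ∑ i ∈ range (10 * H), ∑ c ∈ range r, (X : ℝ) ^ 2 / L ^ A0 =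
          10 * H * r * (X ^ 2 / L ^ A0) := by
        rw [Finset.sum_const, Finset.sum_const, Finset.card_range, Finset.card_range,
          nsmul_eq_mul, nsmul_eq_mul]
        push_cast
        ring
      rw [h2] at h1
      refine (mul_le_mul_of_nonneg_left h1 (by positivity)).trans ?_
      have h3 : 20 * (H : ℝ) * r * (10 * H * r * (X ^ 2 / L ^ A0)) =
          200 * (H ^ 2 * r ^ 2) * X ^ 2 / L ^ A0 := by ring
      have h4 : (H : ℝ) ^ 2 * r ^ 2 ≤ L ^ (2 * (A2 + 1) + 2 * B) := by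
        calc (H : ℝ) ^ 2 * r ^ 2 ≤ (L ^ (A2 + 1)) ^ 2 * (L ^ B) ^ 2 := by gcongr
          _ = L ^ (2 * (A2 + 1) + 2 * B) := by
              rw [← pow_mul, ← pow_mul, ← pow_add]
              congr 1
              ring
      rw [h3, div_le_div_iff₀ (by positivity) (by positivity)]
      have h5 : 400 * L ^ (2 * (A2 + 1) + 2 * B) * L ^ A ≤ L ^ A0 := by
        have h6 : (400 : ℝ) ≤ L ^ 2 := by nlinarith
        calc 400 * L ^ (2 * (A2 + 1) + 2 * B) * L ^ A ≤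
              L ^ 2 * L ^ (2 * (A2 + 1) + 2 * B) * L ^ A := by gcongr
          _ = L ^ A0 := by
              rw [← pow_add, ← pow_add]
              congr 1
              omega
      calc 200 * ((H : ℝ) ^ 2 * r ^ 2) * X ^ 2 * (2 * L ^ A) =
            X ^ 2 * (400 * (H ^ 2 * r ^ 2) * L ^ A) := by ring
        _ ≤ X ^ 2 * (400 * L ^ (2 * (A2 + 1) + 2 * B) * L ^ A) := by gcongr
        _ ≤ X ^ 2 * L ^ A0 := mul_le_mul_of_nonneg_left h5 (by positivity)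
    have hS2 : (2 + L) ^ C1 * ((X : ℝ) ^ 2 * ((|β| * X / H) ^ 2 + 1 / Real.sqrt H)) ≤
        X ^ 2 / (2 * L ^ A) := by
      have hL2 : 2 + L ≤ L ^ 2 := by nlinarith
      have hCb : (2 + L) ^ C1 ≤ L ^ (2 * C1) := by
        rw [pow_mul]
        exact pow_le_pow_left₀ (by positivity) hL2 _
      have hT2 : (|β| * X / H) ^ 2 ≤ 1 / L ^ M := by
        have h1 : |β| * X ≤ L ^ B := by
          rw [le_div_iff₀ hXp] at hβ
          exact hβ
        have h2 : |β| * X / H ≤ 1 / L ^ M := by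
          have hHp : (0 : ℝ) < H := by linarith
          rw [div_le_div_iff₀ hHp (by positivity), one_mul]
          calc |β| * X * L ^ M ≤ L ^ B * L ^ M := mul_le_mul_of_nonneg_right h1 (by positivity)
            _ = L ^ (B + M) := (pow_add _ _ _).symm
            _ ≤ L ^ A2 := hpw (by omega)
            _ ≤ H := hHlow
        have h3 : 0 ≤ |β| * X / H := by positivity
        have h4 : (1 : ℝ) / L ^ M ≤ 1 := by
          rw [div_le_one (by positivity)]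
          exact one_le_pow₀ hL1
        nlinarith
      have hT3 : 1 / Real.sqrt H ≤ 1 / L ^ M := by
        refine one_div_le_one_div_of_le (by positivity) ?_
        apply Real.le_sqrt_of_sq_le
        calc (L ^ M) ^ 2 = L ^ (M * 2) := (pow_mul _ _ _).symm
          _ ≤ L ^ A2 := hpw (by omega)
          _ ≤ H := hHlow
      have hsum : (X : ℝ) ^ 2 * ((|β| * X / H) ^ 2 + 1 / Real.sqrt H) ≤ 2 * X ^ 2 / L ^ M := by
        have h1 : X ^ 2 * ((|β| * X / H) ^ 2 + 1 / Real.sqrt H) ≤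
            (X : ℝ) ^ 2 * (1 / L ^ M + 1 / L ^ M) :=
          mul_le_mul_of_nonneg_left (add_le_add hT2 hT3) (by positivity)
        have h2 : (X : ℝ) ^ 2 * (1 / L ^ M + 1 / L ^ M) = 2 * X ^ 2 / L ^ M := by ring
        linarith
      calc (2 + L) ^ C1 * ((X : ℝ) ^ 2 * ((|β| * X / H) ^ 2 + 1 / Real.sqrt H))
          ≤ L ^ (2 * C1) * (2 * X ^ 2 / L ^ M) :=
            mul_le_mul hCb hsum (by positivity) (by positivity)
        _ ≤ X ^ 2 / (2 * L ^ A) := by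
            rw [hM, pow_add, pow_add, pow_one]
            rw [mul_div_assoc', div_le_div_iff₀ (by positivity) (by positivity)]
            have h1 : (4 : ℝ) ≤ L := by linarith
            calc L ^ (2 * C1) * (2 * X ^ 2) * (2 * L ^ A) =
                  4 * (X ^ 2 * (L ^ A * L ^ (2 * C1))) := by ring
              _ ≤ L * (X ^ 2 * (L ^ A * L ^ (2 * C1))) :=
                  mul_le_mul_of_nonneg_right h1 (by positivity)
              _ = X ^ 2 * (L ^ A * L ^ (2 * C1) * L) := by ring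
    have hfin : (X : ℝ) ^ 2 / (2 * L ^ A) + X ^ 2 / (2 * L ^ A) = X ^ 2 / L ^ A := by
      field_simp
      ring
    rw [← hfin]
    exact add_le_add hS1 hS2

/-- `n ↦ f n / S`, value `0` at `0` -/
private noncomputable def ciF (f : ℕ → ℝ) (S : ℝ) : ArithmeticFunction ℝ :=
  ⟨fun n => if n = 0 then 0 else f n / S, by simp⟩

private lemma ciF_apply (f : ℕ → ℝ) (S : ℝ) (n : ℕ) (hn : n ≠ 0) : ciF f S n = f n / S := by
  simp [ciF, hn]

private lemma ciF_zero (f : ℕ → ℝ) (S : ℝ) : ciF f S 0 = 0 := by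
  simp [ciF]

theorem ch_II (A B C : ℕ) (th e τ : ℝ) (hA : AdE th e τ) : ∃ C' X0 : ℕ, ∀ X : ℕ, X0 ≤ X →
    ∀ (q : ℕ) [NeZero q], Qr th e X q → ∀ (r : ℕ) (y : ℤ) (β : ℝ), Pt X q B r y β →
    ∀ (M K : ℕ) (a c : ℕ → ℝ), TyII th e τ X C M K a c →
      ∃ 𝓑 : Finset (DirichletCharacter ℂ q), (𝓑.card : ℝ) ≤ Real.log X ^ C' ∧
        ∀ 𝓖 : Finset (DirichletCharacter ℂ q), Disjoint 𝓖 𝓑 →
          ∑ χ ∈ 𝓖, ‖Tc X q (fI2 K a c) (y / r + β) χ‖ ^ 2 ≤ X ^ 2 / Real.log X ^ A := by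
  classical
  obtain ⟨hth1, hth2, he, hτ1, hτ2⟩ := hA
  have hτ : 0 < τ := by linarith
  obtain ⟨k, hk⟩ : ∃ k : ℕ, k = ⌈1 / τ⌉₊ := ⟨_, rfl⟩
  have hkτ : 1 ≤ τ * k := by
    have h1 : 1 / τ ≤ k := by rw [hk]; exact Nat.le_ceil _
    rw [div_le_iff₀ hτ] at h1
    linarith
  have hk1 : 1 ≤ k := by
    rcases Nat.eq_zero_or_pos k with h | h
    · rw [h] at hkτ
      norm_num at hkτ
    · exact h
  obtain ⟨C', X1, hcore⟩ := ci_core k hk1 (A + 4 * C) B
  obtain ⟨X2, hX2⟩ := ci_large 1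
  refine ⟨C', X1 + X2 + 2, fun X hX q _ hq r y β hpt M K a c hty => ?_⟩
  obtain ⟨hr1, hr, _, _, hβ⟩ := hpt
  obtain ⟨hac, ⟨hM1, hM2, hKM⟩, hsupp⟩ := hty
  obtain ⟨hL64, hLX⟩ := hX2 X (by omega)
  rw [pow_one] at hLX
  have hXR : (64 : ℝ) ≤ X := hL64.trans hLX
  have hXp : (0 : ℝ) < X := by linarith
  have hX1 : (1 : ℝ) ≤ X := by linarith
  have hLp : 0 < Real.log X := by linarith
  have hS : 0 < Real.log X ^ C := by positivity
  have hM0 : 0 < (M : ℝ) := lt_of_lt_of_le (by positivity) hM1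
  have hMpos : 1 ≤ M := by exact_mod_cast hM0
  have hMR : (1 : ℝ) ≤ M := by exact_mod_cast hMpos
  -- sizes
  have hqX : (q : ℝ) ≤ X := by
    refine hq.trans ?_
    calc (X : ℝ) ^ (1 - th + e) ≤ (X : ℝ) ^ (1 : ℝ) :=
          Real.rpow_le_rpow_of_exponent_le hX1 (by linarith)
      _ = X := Real.rpow_one _
  have hsq : (M : ℝ) ≤ Real.sqrt X := by
    refine hM2.trans ?_
    rw [Real.sqrt_eq_rpow]
    exact Real.rpow_le_rpow_of_exponent_le hX1 (by linarith)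
  have hsq2 : Real.sqrt X * 2 ≤ X := by
    have h1 : Real.sqrt X * Real.sqrt X = X := Real.mul_self_sqrt hXp.le
    have h2 : 2 ≤ Real.sqrt X := by
      apply Real.le_sqrt_of_sq_le
      linarith
    nlinarith
  have hPX : ((M + 1 : ℕ) : ℝ) ≤ X := by
    push_cast
    linarith
  have hP2 : ((M + 1 : ℕ) : ℝ) ≤ 2 * M := by
    push_cast
    linarith
  have hqN : q ≤ (64 * (M + 1)) ^ k := by
    have h1 : (q : ℝ) ≤ ((64 * (M + 1) : ℕ) : ℝ) ^ k := by
      refine hqX.trans ?_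
      calc (X : ℝ) = (X : ℝ) ^ (1 : ℝ) := (Real.rpow_one _).symm
        _ ≤ (X : ℝ) ^ (τ * k) := Real.rpow_le_rpow_of_exponent_le hX1 hkτ
        _ = ((X : ℝ) ^ τ) ^ k := by rw [Real.rpow_mul hXp.le, Real.rpow_natCast]
        _ ≤ ((64 * (M + 1) : ℕ) : ℝ) ^ k := by
            refine pow_le_pow_left₀ (by positivity) ?_ k
            push_cast
            linarith
    exact_mod_cast h1
  have hPK : ((M + 1 : ℕ) : ℝ) * (max 1 K : ℕ) ≤ 2 * X := by
    rcases le_total K 1 with h | h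
    · rw [max_eq_left h]
      push_cast at hPX ⊢
      linarith
    · rw [max_eq_right h]
      have h1 : (K : ℝ) * M ≤ X := by exact_mod_cast hKM
      have h2 : (0 : ℝ) ≤ K := Nat.cast_nonneg K
      nlinarith
  have hqP : (q : ℝ) * ((M + 1 : ℕ) : ℝ) ≤ 2 * X := by
    have h1 : (q : ℝ) * M ≤ X := by
      calc (q : ℝ) * M ≤ (X : ℝ) ^ (1 - th + e) * (X : ℝ) ^ (th - 3 * e) :=
            mul_le_mul hq hM2 (by positivity) (by positivity)
        _ = (X : ℝ) ^ ((1 - th + e) + (th - 3 * e)) := (Real.rpow_add hXp _ _).symm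
        _ ≤ (X : ℝ) ^ (1 : ℝ) := Real.rpow_le_rpow_of_exponent_le hX1 (by linarith)
        _ = X := Real.rpow_one _
    have h2 : (0 : ℝ) ≤ q := Nat.cast_nonneg q
    nlinarith
  obtain ⟨𝓑, h𝓑, hmain⟩ := hcore X (by omega) q hqX r y β hr1 hr hβ (M + 1) (max 1 K)
    (ciF a (Real.log X ^ C)) (ciF (fun n => if n ≤ K then c n else 0) (Real.log X ^ C))
    (by omega) hPX hqN (le_max_left _ _) hPK hqP
    (fun n hn => by
      rcases Nat.eq_zero_or_pos n with h0 | h0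
      · rw [h0, ciF_zero] at hn
        exact absurd rfl hn
      · rw [ciF_apply _ _ _ (by omega)] at hn
        have h1 : a n ≠ 0 := by
          intro h
          rw [h, zero_div] at hn
          exact hn rfl
        obtain ⟨h2, h3, _⟩ := hsupp n h1
        omega)
    (fun n hn => by
      rcases Nat.eq_zero_or_pos n with h0 | h0
      · omega
      · rw [ciF_apply _ _ _ (by omega)] at hn
        by_contra h1
        have h2 : ¬ n ≤ K := fun h => h1 (h.trans (le_max_right _ _))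
        simp only [h2, if_false, zero_div] at hn
        exact hn rfl)
    (fun n => by
      rcases Nat.eq_zero_or_pos n with h0 | h0
      · rw [h0, ciF_zero, abs_zero]
        exact zero_le_one
      · rw [ciF_apply _ _ _ (by omega), abs_div, abs_of_pos hS, div_le_one hS]
        exact (hac n).1)
    (fun n => by
      rcases Nat.eq_zero_or_pos n with h0 | h0
      · rw [h0, ciF_zero, abs_zero]
        exact zero_le_one
      · rw [ciF_apply _ _ _ (by omega), abs_div, abs_of_pos hS, div_le_one hS]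
        split_ifs
        · exact (hac n).2
        · rw [abs_zero]
          exact hS.le)
  refine ⟨𝓑, h𝓑, fun 𝓖 h𝓖 => ?_⟩
  have h1 := hmain 𝓖 h𝓖
  have hf : ∀ n ∈ Icc 1 X, fI2 K a c n = Real.log X ^ (2 * C) *
      (ciF a (Real.log X ^ C) * ciF (fun n => if n ≤ K then c n else 0) (Real.log X ^ C)) n := by
    intro n hn
    rw [mem_Icc] at hn
    rw [ArithmeticFunction.mul_apply, Nat.sum_divisorsAntidiagonal
      (fun i j => ciF a (Real.log X ^ C) i *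
        ciF (fun n => if n ≤ K then c n else 0) (Real.log X ^ C) j), Finset.mul_sum]
    unfold fI2
    refine Finset.sum_congr rfl fun m hm => ?_
    have hmn : m ∣ n := Nat.dvd_of_mem_divisors hm
    have hm0 : m ≠ 0 := by
      rintro rfl
      rw [zero_dvd_iff] at hmn
      omega
    have hnm : n / m ≠ 0 := by
      have := Nat.div_pos (Nat.le_of_dvd (by omega) hmn) (by omega)
      omega
    rw [ciF_apply _ _ _ hm0, ciF_apply _ _ _ hnm]
    have hS' : Real.log X ^ (2 * C) = Real.log X ^ C * Real.log X ^ C := by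
      rw [← pow_add]
      congr 1
      ring
    rw [hS']
    split_ifs
    · field_simp
    · simp
  have hT : ∀ χ : DirichletCharacter ℂ q, Tc X q (fI2 K a c) (y / r + β) χ =
      ((Real.log X ^ (2 * C) : ℝ) : ℂ) * Tc X q (fun n => (ciF a (Real.log X ^ C) *
        ciF (fun n => if n ≤ K then c n else 0) (Real.log X ^ C)) n) (y / r + β) χ := by
    intro χ
    unfold Tc
    rw [Finset.mul_sum]
    refine Finset.sum_congr rfl fun n hn => ?_
    rw [hf n hn]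
    push_cast
    ring
  have h2 : ∑ χ ∈ 𝓖, ‖Tc X q (fI2 K a c) (y / r + β) χ‖ ^ 2 = (Real.log X ^ (2 * C)) ^ 2 *
      ∑ χ ∈ 𝓖, ‖Tc X q (fun n => (ciF a (Real.log X ^ C) *
        ciF (fun n => if n ≤ K then c n else 0) (Real.log X ^ C)) n) (y / r + β) χ‖ ^ 2 := by
    rw [Finset.mul_sum]
    refine Finset.sum_congr rfl fun χ _ => ?_
    rw [hT χ, norm_mul, mul_pow, Complex.norm_real, Real.norm_eq_abs,
      abs_of_pos (by positivity : (0 : ℝ) < Real.log X ^ (2 * C))]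
  rw [h2]
  refine (mul_le_mul_of_nonneg_left h1 (by positivity)).trans (le_of_eq ?_)
  rw [pow_add, ← pow_mul]
  have h3 : 2 * C * 2 = 4 * C := by ring
  rw [h3]
  field_simp

end Pool.MP_dd84fd_nt.EM
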