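import Pool.Agent.Lib.MP_dd84fd_nt.JX.Defs
import Pool.Agent.Lib.MP_dd84fd_nt.T7.Defs

/-!
# Goldbach in every class to every modulus `q ≤ X^(1-th)` (EM67): definitions

Paper: /team-store/EM23_paper.md (helper23).  `th` is slightly larger than `1/7` in the end.  Families
`(ww, gg)` as in JX (`W1`, `DecJ`, `MajI`); `u = uI ww gg X w`, the model is `fI gg X w`, `w = wX D' X`.
-/

set_option autoImplicit false

namespace Pool.MP_dd84fd_nt.EM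

open Finset Pool.MP_67663b_nt.Odd Pool.MP_dd84fd_nt.En Pool.MP_dd84fd_nt.E2
open Pool.MP_dd84fd_nt.HX Pool.MP_dd84fd_nt.IX
open Pool.MP_dd84fd_nt.JX (ZJ DecJ Str wP gP)
open Pool.MP_dd84fd_nt.L2G (fz VA VQ MajQ MinorHyp Tc Jc cv av gr Se)
open Pool.MP_dd84fd_nt.T7 (Fz2)

/-- admissible parameters -/
def AdE (th e τ : ℝ) : Prop := 1 / 8 < th ∧ th ≤ 1 / 2 ∧ 0 < e ∧ τ ≤ 1 / 10 ∧ 1000 * e ≤ τ

/-- moduli `q ≤ X^(1-th+e)` -/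
def Qr (th e : ℝ) (X q : ℕ) : Prop := (q : ℝ) ≤ (X : ℝ) ^ (1 - th + e)

/-- the point `y/r + β` of the major arcs, for the modulus `q` -/
def Pt (X q B r : ℕ) (y : ℤ) (β : ℝ) : Prop :=
  1 ≤ r ∧ (r : ℝ) ≤ Real.log X ^ B ∧ Nat.Coprime r q ∧ IsCoprime y (r : ℤ) ∧
    |β| ≤ Real.log X ^ B / X

/-- `χ` does not factor through a divisor `d ≤ D` of `q` -/
def Big (q : ℕ) (D : ℝ) (χ : DirichletCharacter ℂ q) : Prop :=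
  ∀ d : ℕ, d ∣ q → (d : ℝ) ≤ D → ¬ χ.FactorsThrough d

/-- type I data: weight of bounded variation, coefficients of level `ZJ` -/
def TyI (th e : ℝ) (X C : ℕ) (γ α : ℕ → ℝ) : Prop :=
  (∀ n, |γ n| ≤ (Real.log X) ^ C) ∧ ∑ n ∈ Ico 1 X, |γ (n + 1) - γ n| ≤ (Real.log X) ^ C ∧
    (∀ l, |α l| ≤ (Real.log X) ^ C) ∧ ∀ l : ℕ, ZJ th e X < l → α l = 0

/-- the type I function -/
noncomputable def fI1 (γ α : ℕ → ℝ) (n : ℕ) : ℝ := γ n * ∑ l ∈ n.divisors, α l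

/-- type II block data -/
def TyII (th e τ : ℝ) (X C M K : ℕ) (a c : ℕ → ℝ) : Prop :=
  (∀ n, |a n| ≤ (Real.log X) ^ C ∧ |c n| ≤ (Real.log X) ^ C) ∧
    ((X : ℝ) ^ τ / 2 ≤ M ∧ (M : ℝ) ≤ yB th e X ∧ K * M ≤ X) ∧
    ∀ m, a m ≠ 0 → M < m ∧ m ≤ 2 * M ∧ (m : ℝ) ≤ yB th e X ∧ m * K ≤ X

/-- the type II function -/
noncomputable def fI2 (K : ℕ) (a c : ℕ → ℝ) (n : ℕ) : ℝ :=
  ∑ m ∈ n.divisors, if n / m ≤ K then a m * c (n / m) else 0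

/-- `ww + s gg f1` is structured up to a small error (`JX.StrWJ` for `AdE`) -/
def StrE : Prop := ∀ A : ℕ, ∃ B : ℕ, ∀ K0 C1 C2 : ℕ, ∃ C : ℕ, ∀ th e τ : ℝ, AdE th e τ →
  ∀ ww gg : ℕ → ℕ → ℝ, W1 K0 C1 ww gg → DecJ B C2 th e τ ww → ∀ D' : ℕ, 1 ≤ D' →
  ∃ X0 : ℕ, ∀ X : ℕ, X0 ≤ X → ∀ s : ℝ, |s| ≤ 1 → ∃ u err : ℕ → ℝ, Str C th e τ X u ∧
    (∀ n ∈ Icc 1 X, ww X n + s * fI gg X (wX D' X) n = u n + err n) ∧
    ∑ n ∈ Icc 1 X, err n ^ 2 ≤ X / (Real.log X) ^ A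

/-- the function `ww + s gg f1` -/
noncomputable def fS (ww gg : ℕ → ℕ → ℝ) (s : ℝ) (D' X n : ℕ) : ℝ :=
  ww X n + s * fI gg X (wX D' X) n

/-- the main term of the class sums of the model: `μ(r) / (φ(r) φ(q)) Σ_n gg(n) e(nβ)` -/
noncomputable def E1 (gg : ℕ → ℕ → ℝ) (X q r : ℕ) (β : ℝ) : ℂ :=
  ((((ArithmeticFunction.moebius r : ℤ) : ℝ) / ((Nat.totient r : ℝ) * (Nat.totient q : ℝ)) : ℝ) : ℂ) *
    Se X (gg X) β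

/-- H3: `h` does not correlate with `n ↦ χ(a - n)` for characters of large conductor -/
def H3 (th e : ℝ) (X A B K D1 : ℕ) (h : ℕ → ℝ) : Prop :=
  ∀ (q : ℕ) [NeZero q], Qr th e X q → ∀ (r : ℕ) (y : ℤ) (β : ℝ), Pt X q B r y β →
    ∀ a : ZMod q, (Nat.gcd a.val q : ℝ) ≤ Real.log X ^ K →
    ∀ χ : DirichletCharacter ℂ q, Big q (Real.log X ^ D1) χ →
    ‖∑ b : ZMod q, χ b * fz X q h (y / r + β) (a - b)‖ ≤ X / Real.log X ^ A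

/-- `[(n, q) = 1] χ(a - n) e(n y / r)` -/
noncomputable def FP (q : ℕ) (a : ZMod q) (χ : DirichletCharacter ℂ q) (r : ℕ) (y : ℤ) (n : ℕ) : ℂ :=
  if Nat.Coprime n q then χ (a - n) * ee ((n : ℝ) * ((y : ℝ) / r)) else 0

/-- the data of a point, a class and a character for `FP` -/
def PC (th e : ℝ) (X B K D1 q r : ℕ) (y : ℤ) (a : ZMod q) (χ : DirichletCharacter ℂ q) : Prop :=
  Qr th e X q ∧ 1 ≤ r ∧ (r : ℝ) ≤ Real.log X ^ B ∧ Nat.Coprime r q ∧ IsCoprime y (r : ℤ) ∧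
    (Nat.gcd a.val q : ℝ) ≤ Real.log X ^ K ∧ Big q (Real.log X ^ D1) χ

end Pool.MP_dd84fd_nt.EM
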