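import Pool.Agent.Lib.MP_dd84fd_nt.EM.Defs
import Pool.Agent.Lib.MP_dd84fd_nt.L2G.GaussJac

/-!
# EM67: definitions for the major arcs

`Q = q t`, all primes of `t` divide `q`.  A point of the major arcs is `θ = c/(q t) + φ`, `(c, t) = 1`, `φ = y/r + β`.  `Tw` pushes a function of the classes mod `q t`
forward to the classes mod `q` with the twist `e(x n)`, `PG` is the part of the class sums of `f` which belongs to the characters in `𝓖`.
-/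

set_option autoImplicit false

namespace Pool.MP_dd84fd_nt.EM

open Finset Pool.MP_67663b_nt.Odd Pool.MP_dd84fd_nt.En Pool.MP_dd84fd_nt.E2
open Pool.MP_dd84fd_nt.HX Pool.MP_dd84fd_nt.IX
open Pool.MP_dd84fd_nt.JX (ZJ DecJ Str wP gP)
open Pool.MP_dd84fd_nt.L2G (fz VA VQ MajQ MinorHyp Tc Jc cv av gr Se)
open Pool.MP_dd84fd_nt.T7 (Fz2)

/-- convolution of class functions -/
noncomputable def cq {q : ℕ} [NeZero q] (v w : ZMod q → ℂ) (a : ZMod q) : ℂ :=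
  ∑ b : ZMod q, v b * w (a - b)

/-- the square of the norm -/
noncomputable def nq {q : ℕ} [NeZero q] (v : ZMod q → ℂ) : ℝ := ∑ b : ZMod q, ‖v b‖ ^ 2

/-- push forward from the classes mod `q t` to the classes mod `q`, twisted by `e(x n)` -/
noncomputable def Tw (q t : ℕ) (x : ℝ) (g : ZMod (q * t) → ℂ) (b : ZMod q) : ℂ :=
  ∑ j ∈ range t, ee (x * ((b.val + q * j : ℕ) : ℝ)) * g ((b.val + q * j : ℕ) : ZMod (q * t))

/-- the part of `fz X q f φ` which belongs to the characters in `𝓖` -/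
noncomputable def PG (X q : ℕ) (f : ℕ → ℝ) (φ : ℝ) (𝓖 : Finset (DirichletCharacter ℂ q))
    (b : ZMod q) : ℂ :=
  (1 / (Nat.totient q : ℂ)) * ∑ χ ∈ 𝓖, (χ⁻¹ : DirichletCharacter ℂ q) b * Tc X q f φ χ

/-- `φ = y/r + β` is an admissible point for `t` -/
def PtT (X q B t : ℕ) (φ : ℝ) : Prop :=
  1 ≤ t ∧ (∀ p : ℕ, p.Prime → p ∣ t → p ∣ q) ∧ ∃ (r : ℕ) (y : ℤ) (β : ℝ), 1 ≤ r ∧
    (t : ℝ) * r ≤ Real.log X ^ B ∧ Nat.Coprime r (q * t) ∧ IsCoprime y (r : ℤ) ∧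
    |β| ≤ Real.log X ^ B / (t * r * X) ∧ φ = y / r + β

/-- `θ` lies on a major arc with parameter `t` -/
def AdP (X q B t : ℕ) (θ : ℝ) : Prop :=
  ∃ (c : ℤ) (φ : ℝ), IsCoprime c (t : ℤ) ∧ PtT X q B t φ ∧ θ = (c : ℝ) / (q * t : ℕ) + φ

theorem PtT.pt {X q B t : ℕ} {φ : ℝ} (h : PtT X q B t φ) (hX : 1 ≤ X) (hL : 0 ≤ Real.log X) :
    ∃ (r : ℕ) (y : ℤ) (β : ℝ), Pt X (q * t) B r y β ∧ φ = y / r + β := by
  obtain ⟨h1, h2, r, y, β, h3, h4, h5, h6, h7, h8⟩ := h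
  have ht : (1 : ℝ) ≤ t := by exact_mod_cast h1
  have hr : (1 : ℝ) ≤ r := by exact_mod_cast h3
  have hX' : (1 : ℝ) ≤ X := by exact_mod_cast hX
  refine ⟨r, y, β, ⟨h3, ?_, h5, h6, ?_⟩, h8⟩
  · nlinarith
  · refine h7.trans ?_
    have : (1 : ℝ) ≤ t * r := by nlinarith
    have h9 : (X : ℝ) ≤ t * r * X := by nlinarith
    exact div_le_div_of_nonneg_left (by positivity) (by linarith) h9

end Pool.MP_dd84fd_nt.EM
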