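import Pool.Agent.Lib.MP_dd84fd_nt.EM.ChI
import Pool.Agent.Lib.MP_dd84fd_nt.EM.ChII

/-!
# EM-GoodS (0.6 h): good and bad characters of a structured function

(Replaces EM-Good: the constants there are circular, the error of `StrE` must not enter here.)
`u` on `Icc 1 X` is `Σ_{i<I} fI1 (γ i) (α i) + Σ_{i<I} fI2 (K i) (a i) (c i)`, `I ≤ L^C`.  `𝓑` = union over `i < I` of the sets of `ch_II (A + 2 C + 2) B C`
(card `≤ L^(C + C')`).  For `χ ∉ 𝓑`, `χ ≠ 1`: `‖Tc u χ‖² ≤ 2 I (Σ_i ‖Tc (fI1 ..)‖² + Σ_i ‖Tc (fI2 ..)‖²)`, `ch_I (A + 2 C + 2) B C`, `ch_II`: total `≤ 4 I² X²/L^(A+2C+2) ≤ X²/L^A`.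
-/

set_option autoImplicit false

namespace Pool.MP_dd84fd_nt.EM

open Finset Pool.MP_67663b_nt.Odd Pool.MP_dd84fd_nt.En Pool.MP_dd84fd_nt.E2
open Pool.MP_dd84fd_nt.HX Pool.MP_dd84fd_nt.IX
open Pool.MP_dd84fd_nt.JX (ZJ DecJ Str wP gP)
open Pool.MP_dd84fd_nt.L2G (fz VA VQ MajQ MinorHyp Tc Jc cv av gr Se)
open Pool.MP_dd84fd_nt.T7 (Fz2)

private theorem tc_congr (X q : ℕ) (f g : ℕ → ℝ) (θ : ℝ) (χ : DirichletCharacter ℂ q)
    (h : ∀ n ∈ Icc 1 X, f n = g n) : Tc X q f θ χ = Tc X q g θ χ := by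
  unfold Tc
  exact Finset.sum_congr rfl fun n hn => by rw [h n hn]

private theorem tc_add (X q : ℕ) (f g : ℕ → ℝ) (θ : ℝ) (χ : DirichletCharacter ℂ q) :
    Tc X q (fun n => f n + g n) θ χ = Tc X q f θ χ + Tc X q g θ χ := by
  unfold Tc
  rw [← Finset.sum_add_distrib]
  exact Finset.sum_congr rfl fun n _ => by push_cast; ring

private theorem tc_sum (X q I : ℕ) (f : ℕ → ℕ → ℝ) (θ : ℝ) (χ : DirichletCharacter ℂ q) :
    Tc X q (fun n => ∑ i ∈ range I, f i n) θ χ = ∑ i ∈ range I, Tc X q (f i) θ χ := by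
  unfold Tc
  rw [Finset.sum_comm]
  refine Finset.sum_congr rfl fun n _ => ?_
  push_cast
  rw [Finset.sum_mul, Finset.sum_mul]

private theorem norm_sum_sq (I : ℕ) (z : ℕ → ℂ) :
    ‖∑ i ∈ range I, z i‖ ^ 2 ≤ I * ∑ i ∈ range I, ‖z i‖ ^ 2 := by
  have h1 : ‖∑ i ∈ range I, z i‖ ^ 2 ≤ (∑ i ∈ range I, ‖z i‖) ^ 2 :=
    pow_le_pow_left₀ (norm_nonneg _) (norm_sum_le _ _) 2
  have h2 := sq_sum_le_card_mul_sum_sq (s := range I) (f := fun i => ‖z i‖)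
  rw [Finset.card_range] at h2
  exact h1.trans h2

private theorem two_le_log (X : ℕ) (h : 8 ≤ X) : 2 ≤ Real.log X := by
  have h1 : (8 : ℝ) ≤ X := by exact_mod_cast h
  have h2 : Real.log (8 : ℝ) ≤ Real.log X := Real.log_le_log (by norm_num) h1
  have h3 : Real.log (8 : ℝ) = 3 * Real.log 2 := by
    rw [show (8 : ℝ) = 2 ^ 3 by norm_num, Real.log_pow]
    norm_num
  have h4 := Real.log_two_gt_d9
  linarith


private theorem norm_two_sq (a b : ℂ) : ‖a + b‖ ^ 2 ≤ 2 * (‖a‖ ^ 2 + ‖b‖ ^ 2) := by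
  have h2 : ‖a + b‖ ^ 2 ≤ (‖a‖ + ‖b‖) ^ 2 :=
    pow_le_pow_left₀ (norm_nonneg _) (norm_add_le _ _) 2
  nlinarith [sq_nonneg (‖a‖ - ‖b‖)]

/-- sum of the squares over a set of characters where type I and type II are small -/
private theorem part_good (X q I : ℕ) [NeZero q] (θ : ℝ) (u : ℕ → ℝ) (f g : ℕ → ℕ → ℝ)
    (T : ℝ) (hu : ∀ n ∈ Icc 1 X, u n = ∑ i ∈ range I, f i n + ∑ i ∈ range I, g i n)
    (𝓖 : Finset (DirichletCharacter ℂ q))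
    (hf : ∀ i ∈ range I, ∑ χ ∈ 𝓖, ‖Tc X q (f i) θ χ‖ ^ 2 ≤ T)
    (hg : ∀ i ∈ range I, ∑ χ ∈ 𝓖, ‖Tc X q (g i) θ χ‖ ^ 2 ≤ T) :
    ∑ χ ∈ 𝓖, ‖Tc X q u θ χ‖ ^ 2 ≤ 2 * ((I : ℝ) * (I * T) + I * (I * T)) := by
  have h1 : ∀ χ : DirichletCharacter ℂ q, Tc X q u θ χ =
      ∑ i ∈ range I, Tc X q (f i) θ χ + ∑ i ∈ range I, Tc X q (g i) θ χ := by
    intro χ
    rw [tc_congr X q u (fun n => ∑ i ∈ range I, f i n + ∑ i ∈ range I, g i n) θ χ hu,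
      tc_add X q (fun n => ∑ i ∈ range I, f i n) (fun n => ∑ i ∈ range I, g i n), tc_sum, tc_sum]
  have h2 : ∀ χ : DirichletCharacter ℂ q, ‖Tc X q u θ χ‖ ^ 2 ≤
      2 * ((I : ℝ) * ∑ i ∈ range I, ‖Tc X q (f i) θ χ‖ ^ 2 +
        I * ∑ i ∈ range I, ‖Tc X q (g i) θ χ‖ ^ 2) := by
    intro χ
    rw [h1 χ]
    refine (norm_two_sq _ _).trans ?_
    have h3 := norm_sum_sq I (fun i => Tc X q (f i) θ χ)
    have h4 := norm_sum_sq I (fun i => Tc X q (g i) θ χ)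
    linarith
  refine (Finset.sum_le_sum fun χ _ => h2 χ).trans ?_
  rw [← Finset.mul_sum, Finset.sum_add_distrib, ← Finset.mul_sum,
    ← Finset.mul_sum, Finset.sum_comm, Finset.sum_comm (s := 𝓖) (t := range I)]
  have h5 : ∑ i ∈ range I, ∑ χ ∈ 𝓖, ‖Tc X q (f i) θ χ‖ ^ 2 ≤ I * T := by
    refine (Finset.sum_le_sum hf).trans ?_
    rw [Finset.sum_const, Finset.card_range, nsmul_eq_mul]
  have h6 : ∑ i ∈ range I, ∑ χ ∈ 𝓖, ‖Tc X q (g i) θ χ‖ ^ 2 ≤ I * T := by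
    refine (Finset.sum_le_sum hg).trans ?_
    rw [Finset.sum_const, Finset.card_range, nsmul_eq_mul]
  have hI : (0 : ℝ) ≤ I := Nat.cast_nonneg _
  have h8 := mul_le_mul_of_nonneg_left h5 hI
  have h9 := mul_le_mul_of_nonneg_left h6 hI
  linarith

private theorem arith_fin (L x I S : ℝ) (A C : ℕ) (hL : 2 ≤ L) (hI0 : 0 ≤ I) (hI : I ≤ L ^ C)
    (h2 : S ≤ 2 * (I * (I * (x ^ 2 / L ^ (A + 2 * C + 2))) +
      I * (I * (x ^ 2 / L ^ (A + 2 * C + 2))))) :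
    S ≤ x ^ 2 / L ^ A := by
  have hL0 : 0 < L := by linarith
  have hL1 : 1 ≤ L := by linarith
  set Q : ℝ := L ^ (A + 2) with hQ
  have hQ0 : 0 < Q := by positivity
  have e2 : L ^ (A + 2 * C + 2) = (L ^ C) ^ 2 * Q := by
    rw [hQ, ← pow_mul, ← pow_add]; congr 1; ring
  have hS0 : 0 < L ^ C := by positivity
  have b2 : I * (I * (x ^ 2 / ((L ^ C) ^ 2 * Q))) ≤ x ^ 2 / Q := by
    have c1 : I * (I * (x ^ 2 / ((L ^ C) ^ 2 * Q))) = (I / L ^ C) ^ 2 * (x ^ 2 / Q) := by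
      field_simp
    have c2 : I / L ^ C ≤ 1 := by
      rw [div_le_one hS0]
      exact hI
    have c3 : (I / L ^ C) ^ 2 ≤ 1 := pow_le_one₀ (by positivity) c2
    rw [c1]
    calc (I / L ^ C) ^ 2 * (x ^ 2 / Q) ≤ 1 * (x ^ 2 / Q) :=
          mul_le_mul_of_nonneg_right c3 (by positivity)
      _ = x ^ 2 / Q := one_mul _
  have b4 : 4 * (x ^ 2 / Q) ≤ x ^ 2 / L ^ A := by
    have c1 : Q = L ^ A * L ^ 2 := by rw [hQ, pow_add]
    have c2 : (4 : ℝ) ≤ L ^ 2 := by nlinarith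
    have c3 : 0 < L ^ A := by positivity
    have c4 : 4 * (x ^ 2 / Q) = (4 / L ^ 2) * (x ^ 2 / L ^ A) := by
      rw [c1]; field_simp
    have c5 : 4 / L ^ 2 ≤ 1 := by
      rw [div_le_one (by positivity)]
      linarith
    rw [c4]
    calc (4 / L ^ 2) * (x ^ 2 / L ^ A) ≤ 1 * (x ^ 2 / L ^ A) :=
          mul_le_mul_of_nonneg_right c5 (by positivity)
      _ = x ^ 2 / L ^ A := one_mul _
  rw [e2] at h2
  linarith

theorem good_S (A B C : ℕ) (th e τ : ℝ) (hA : AdE th e τ) : ∃ C' X0 : ℕ, ∀ X : ℕ, X0 ≤ X →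
    ∀ (q : ℕ) [NeZero q], Qr th e X q → ∀ (r : ℕ) (y : ℤ) (β : ℝ), Pt X q B r y β →
    ∀ u : ℕ → ℝ, Str C th e τ X u →
      ∃ 𝓑 : Finset (DirichletCharacter ℂ q), (𝓑.card : ℝ) ≤ Real.log X ^ C' ∧
        ∀ 𝓖 : Finset (DirichletCharacter ℂ q), (1 : DirichletCharacter ℂ q) ∉ 𝓖 → Disjoint 𝓖 𝓑 →
          ∑ χ ∈ 𝓖, ‖Tc X q u (y / r + β) χ‖ ^ 2 ≤ X ^ 2 / Real.log X ^ A := by
  classical
  obtain ⟨C', X2, hII⟩ := ch_II (A + 2 * C + 2) B C th e τ hA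
  obtain ⟨X1, hI⟩ := ch_I (A + 2 * C + 2) B C th e τ hA
  refine ⟨C + C', max 8 (max X1 X2), ?_⟩
  intro X hX q _ hq r y β hP u hu
  have hX8 : 8 ≤ X := le_trans (le_max_left _ _) hX
  have hXa : X1 ≤ X := le_trans (le_trans (le_max_left _ _) (le_max_right _ _)) hX
  have hXb : X2 ≤ X := le_trans (le_trans (le_max_right _ _) (le_max_right _ _)) hX
  have hL2 : 2 ≤ Real.log X := two_le_log X hX8
  have hL0 : 0 < Real.log X := by linarith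
  obtain ⟨I, γ, α, M, K, a, c, hIc, hγ, hα, hα0, hac, hMK, ham, hud⟩ := hu
  have hT1 : ∀ i, TyI th e X C (γ i) (α i) := fun i =>
    ⟨(hγ i).1, (hγ i).2, hα i, hα0 i⟩
  have hT2 : ∀ i, TyII th e τ X C (M i) (K i) (a i) (c i) := fun i =>
    ⟨hac i, hMK i, ham i⟩
  have hII' := fun i => hII X hXb q hq r y β hP (M i) (K i) (a i) (c i) (hT2 i)
  choose 𝓑i h𝓑c h𝓑s using hII'
  refine ⟨(range I).biUnion 𝓑i, ?_, ?_⟩
  · have h1 : (((range I).biUnion 𝓑i).card : ℝ) ≤ ∑ i ∈ range I, ((𝓑i i).card : ℝ) := by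
      exact_mod_cast Finset.card_biUnion_le
    have h2 : ∑ i ∈ range I, ((𝓑i i).card : ℝ) ≤ I * Real.log X ^ C' := by
      refine (Finset.sum_le_sum fun i _ => h𝓑c i).trans ?_
      rw [Finset.sum_const, Finset.card_range, nsmul_eq_mul]
    rw [pow_add]
    refine h1.trans (h2.trans ?_)
    exact mul_le_mul_of_nonneg_right hIc (by positivity)
  · intro 𝓖 h𝓖1 h𝓖2
    refine arith_fin (Real.log X) X I _ A C hL2 (Nat.cast_nonneg _) hIc ?_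
    refine part_good X q I ((y : ℝ) / r + β) u (fun i => fI1 (γ i) (α i))
      (fun i => fI2 (K i) (a i) (c i)) _ ?_ 𝓖 ?_ ?_
    · intro n hn
      have h2 := hud n hn
      unfold fI1 fI2
      rw [← h2]
    · intro i _
      exact hI X hXa q hq r y β hP (γ i) (α i) (hT1 i) 𝓖 h𝓖1
    · intro i hi
      refine h𝓑s i 𝓖 ?_
      rw [Finset.disjoint_left] at h𝓖2 ⊢
      intro χ h1 h2
      exact h𝓖2 h1 (Finset.mem_biUnion.mpr ⟨i, hi, h2⟩)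

end Pool.MP_dd84fd_nt.EM
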