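import Pool.Agent.Lib.MP_dd84fd_nt.EM.CB
import Pool.Agent.Lib.MP_dd84fd_nt.L2G.GaussJac
import Pool.Agent.Lib.MP_dd84fd_nt.L2G.ModelArith

/-!
# EM-H3b (0.7 h): H3 for the model

`fz (fI) θ (a - b) = [a - b unit] E1 + R (a - b)`, `Σ ‖R‖² ≤ X²/(q L^(2A+2))` (`cb (2A + 2)`).  `Σ_b χ(b) [a - b unit] E1 = E1 Jc q a χ 1` (the trivial character is the indicator of the units), and with
`D = ⌊L^D1⌋` `Jc_bound`: `‖Jc‖² √D ≤ 2 gcd(a,q) q² ≤ 2 L^K q²` (`Big`), `D ≥ L^D1/2`; `|E1| ≤ K0 X/φ(q) ≤ K0 X 4 L/q` (`φ(r) ≥ 1`, `totient_lower`): `≤ 4 K0 L X √2 L^(K/2) (L^D1/2)^(-1/4) ≤ X/(2 L^A)` for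
`D1 ≥ 4 A + 2 K + 12`.  `|Σ_b χ(b) R(a - b)| ≤ √q (X²/(q L^(2A+2)))^(1/2) = X/L^(A+1)`.
-/

set_option autoImplicit false

namespace Pool.MP_dd84fd_nt.EM

open Finset Pool.MP_67663b_nt.Odd Pool.MP_dd84fd_nt.En Pool.MP_dd84fd_nt.E2
open Pool.MP_dd84fd_nt.HX Pool.MP_dd84fd_nt.IX
open Pool.MP_dd84fd_nt.JX (ZJ DecJ Str wP gP)
open Pool.MP_dd84fd_nt.L2G (fz VA VQ MajQ MinorHyp Tc Jc cv av gr Se)
open Pool.MP_dd84fd_nt.T7 (Fz2)

private theorem H3b_one (q : ℕ) [NeZero q] (b : ZMod q) [Decidable (IsUnit b)] :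
    (1 : DirichletCharacter ℂ q) b = if IsUnit b then 1 else 0 := by
  split_ifs with h
  · exact MulChar.one_apply h
  · exact MulChar.map_nonunit _ h

private theorem H3b_Se (X K0 : ℕ) (g : ℕ → ℝ) (β : ℝ) (hg : ∀ n, |g n| ≤ K0) :
    ‖Se X g β‖ ≤ K0 * X := by
  unfold Se
  refine (norm_sum_le _ _).trans ?_
  calc ∑ n ∈ Icc 1 X, ‖(g n : ℂ) * ee (n * β)‖ ≤ ∑ n ∈ Icc 1 X, (K0 : ℝ) := by
        refine Finset.sum_le_sum fun n _ => ?_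
        rw [norm_mul, norm_ee, mul_one, Complex.norm_real, Real.norm_eq_abs]
        exact hg n
    _ = K0 * X := by
        rw [Finset.sum_const, Nat.card_Icc, nsmul_eq_mul]
        simp [mul_comm]

private theorem H3b_E1 (gg : ℕ → ℕ → ℝ) (X q r K0 : ℕ) (β : ℝ) (hq : 1 ≤ q) (hr : 1 ≤ r)
    (hg : ∀ n, |gg X n| ≤ K0) :
    ‖E1 gg X q r β‖ * Nat.totient q ≤ K0 * X := by
  have h1 := H3b_Se X K0 (gg X) β hg
  have hφq : (0 : ℝ) < Nat.totient q := by exact_mod_cast Nat.totient_pos.2 hq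
  have hφr : (1 : ℝ) ≤ Nat.totient r := by exact_mod_cast Nat.totient_pos.2 hr
  have hμ : |((ArithmeticFunction.moebius r : ℤ) : ℝ)| ≤ 1 := by
    have := ArithmeticFunction.abs_moebius_le_one (n := r)
    exact_mod_cast this
  unfold E1
  rw [norm_mul, Complex.norm_real, Real.norm_eq_abs, abs_div, abs_mul,
    abs_of_pos hφq, abs_of_pos (by linarith : (0 : ℝ) < Nat.totient r)]
  have h2 : |((ArithmeticFunction.moebius r : ℤ) : ℝ)| / ((Nat.totient r : ℝ) * Nat.totient q) *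
      ‖Se X (gg X) β‖ * Nat.totient q =
      |((ArithmeticFunction.moebius r : ℤ) : ℝ)| / (Nat.totient r : ℝ) * ‖Se X (gg X) β‖ := by
    field_simp
  rw [h2]
  have h3 : |((ArithmeticFunction.moebius r : ℤ) : ℝ)| / (Nat.totient r : ℝ) ≤ 1 := by
    rw [div_le_one (by linarith)]
    linarith
  calc _ ≤ 1 * ‖Se X (gg X) β‖ := mul_le_mul_of_nonneg_right h3 (norm_nonneg _)
    _ ≤ _ := by rw [one_mul]; exact h1

private theorem H3b_cs (q : ℕ) [NeZero q] (χ : DirichletCharacter ℂ q) (R : ZMod q → ℂ)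
    (a : ZMod q) :
    ‖∑ b : ZMod q, χ b * R (a - b)‖ ^ 2 ≤ q * ∑ b : ZMod q, ‖R b‖ ^ 2 := by
  have h1 : ‖∑ b : ZMod q, χ b * R (a - b)‖ ≤ ∑ b : ZMod q, ‖R (a - b)‖ := by
    refine (norm_sum_le _ _).trans (Finset.sum_le_sum fun b _ => ?_)
    rw [norm_mul]
    have := χ.norm_le_one b
    have h2 := norm_nonneg (R (a - b))
    nlinarith
  have h2 : ∑ b : ZMod q, ‖R (a - b)‖ ^ 2 = ∑ b : ZMod q, ‖R b‖ ^ 2 :=
    Fintype.sum_equiv (Equiv.subLeft a) _ _ (fun b => by simp)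
  calc ‖∑ b : ZMod q, χ b * R (a - b)‖ ^ 2 ≤ (∑ b : ZMod q, ‖R (a - b)‖) ^ 2 := by gcongr
    _ ≤ (Finset.univ : Finset (ZMod q)).card * ∑ b : ZMod q, ‖R (a - b)‖ ^ 2 :=
        sq_sum_le_card_mul_sum_sq
    _ = _ := by rw [h2, Finset.card_univ, ZMod.card]

theorem h3_b (A B K K0 C1 : ℕ) : ∃ D00 : ℕ, ∀ D1 : ℕ, D00 ≤ D1 → ∃ D0 : ℕ, ∀ D' : ℕ, D0 ≤ D' →
    ∀ th e τ : ℝ, AdE th e τ → ∀ ww gg : ℕ → ℕ → ℝ, W1 K0 C1 ww gg → ∃ X0 : ℕ, ∀ X : ℕ, X0 ≤ X →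
    H3 th e X A B K D1 (fI gg X (wX D' X)) := by
  classical
  refine ⟨4 * A + 2 * K + 12, fun D1 hD1 => ?_⟩
  obtain ⟨D0, hcb⟩ := cb (2 * A + 2) B K0 C1
  refine ⟨D0, fun D' hD' th e τ had ww gg hW => ?_⟩
  obtain ⟨X1, hX1⟩ := hcb D' hD' th e τ had ww gg hW
  obtain ⟨X2, hX2⟩ := hW
  have hlog : ∀ᶠ X : ℕ in Filter.atTop, (16 * (K0 + 1) : ℝ) ≤ Real.log X :=
    (Real.tendsto_log_atTop.comp tendsto_natCast_atTop_atTop).eventually_ge_atTop _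
  obtain ⟨X3, hX3⟩ := Filter.eventually_atTop.mp hlog
  refine ⟨X1 + X2 + X3 + 2, fun X hX => ?_⟩
  intro q _ hq r y β hpt a hgcd χ hbig
  have hcb' := hX1 X (by omega) q hq r y β hpt
  obtain ⟨hW1, -⟩ := hX2 X (by omega)
  have hL16 := hX3 X (by omega)
  obtain ⟨hr1, -, -, -, -⟩ := hpt
  obtain ⟨hth, hth2, he, hτ, heτ⟩ := had
  obtain ⟨L, hL⟩ : ∃ L : ℝ, L = Real.log X := ⟨_, rfl⟩
  have hK0 : (0 : ℝ) ≤ K0 := Nat.cast_nonneg _
  rw [← hL] at hL16 hcb' hgcd hbig ⊢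
  have hL1 : 16 ≤ L := by nlinarith
  have hLp : 0 < L := by linarith
  have hXR : (2 : ℝ) ≤ X := by
    have : 2 ≤ X := by omega
    exact_mod_cast this
  have hXp : (0 : ℝ) < X := by linarith
  have hq1 : 1 ≤ q := Nat.one_le_iff_ne_zero.2 (NeZero.ne q)
  have hqp : (0 : ℝ) < q := by exact_mod_cast hq1
  have hqX : (q : ℝ) ≤ X := by
    refine hq.trans ?_
    calc (X : ℝ) ^ (1 - th + e) ≤ (X : ℝ) ^ (1 : ℝ) :=
          Real.rpow_le_rpow_of_exponent_le (by linarith) (by linarith)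
      _ = X := Real.rpow_one _
  have hlogq : Real.log q ≤ L := by
    rw [hL]
    exact Real.log_le_log hqp hqX
  have hlogq0 : 0 ≤ Real.log q := Real.log_natCast_nonneg q
  have hφ : (0 : ℝ) < Nat.totient q := by exact_mod_cast Nat.totient_pos.2 hq1
  have htot := L2G.totient_lower q hq1
  -- the bound for `E1`
  have hE := H3b_E1 gg X q r K0 β hq1 hr1 (fun n => (hW1 n).2)
  have hEn : 0 ≤ ‖E1 gg X q r β‖ := norm_nonneg _
  have hE2 : ‖E1 gg X q r β‖ * q ≤ K0 * X * (4 * L) := by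
    calc ‖E1 gg X q r β‖ * q ≤ ‖E1 gg X q r β‖ * (Nat.totient q * (2 + 2 * Real.log q)) :=
          mul_le_mul_of_nonneg_left htot hEn
      _ = ‖E1 gg X q r β‖ * Nat.totient q * (2 + 2 * Real.log q) := by ring
      _ ≤ K0 * X * (4 * L) := by
          refine mul_le_mul hE (by linarith) (by linarith) (by positivity)
  -- the Jacobi sum
  obtain ⟨D, hD⟩ : ∃ D : ℕ, D = ⌊L ^ D1⌋₊ := ⟨_, rfl⟩
  have hLD : 0 ≤ L ^ D1 := by positivity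
  have hDle : (D : ℝ) ≤ L ^ D1 := by
    rw [hD]
    exact Nat.floor_le hLD
  have hDge : L ^ D1 / 2 ≤ D := by
    have h1 : L ^ D1 < D + 1 := by
      rw [hD]
      exact Nat.lt_floor_add_one _
    have h2 : 1 ≤ L ^ D1 := one_le_pow₀ (by linarith)
    have h3 : 2 ≤ L ^ D1 := by
      calc (2 : ℝ) ≤ L ^ 1 := by linarith
        _ ≤ L ^ D1 := pow_le_pow_right₀ (by linarith) (by omega)
    linarith
  have hJ := L2G.Jc_bound q D χ 1 (fun d hd hdD => hbig d hd (le_trans (by exact_mod_cast hdD) hDle)) a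
  have hsq : L ^ (2 * A + K + 6) / 2 ≤ Real.sqrt D := by
    apply Real.le_sqrt_of_sq_le
    refine le_trans ?_ hDge
    have h1 : L ^ (4 * A + 2 * K + 12) ≤ L ^ D1 := pow_le_pow_right₀ (by linarith) hD1
    have h2 : (L ^ (2 * A + K + 6) / 2) ^ 2 = L ^ (4 * A + 2 * K + 12) / 4 := by
      rw [div_pow, ← pow_mul]
      congr 1
      · congr 1
        ring
      · norm_num
    rw [h2]
    have h3 : 0 ≤ L ^ (4 * A + 2 * K + 12) := by positivity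
    linarith
  have hJn : 0 ≤ ‖Jc q a χ 1‖ ^ 2 := by positivity
  have hJ2 : ‖Jc q a χ 1‖ ^ 2 * L ^ (2 * A + 6) ≤ 4 * (q : ℝ) ^ 2 := by
    have h1 : ‖Jc q a χ 1‖ ^ 2 * (L ^ (2 * A + K + 6) / 2) ≤ 2 * L ^ K * (q : ℝ) ^ 2 := by
      refine (mul_le_mul_of_nonneg_left hsq hJn).trans (hJ.trans ?_)
      gcongr
    have h2 : L ^ (2 * A + K + 6) = L ^ (2 * A + 6) * L ^ K := by
      rw [← pow_add]
      congr 1
      ring
    rw [h2] at h1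
    have hLK : 0 < L ^ K := by positivity
    have h3 : (‖Jc q a χ 1‖ ^ 2 * L ^ (2 * A + 6)) * L ^ K ≤ (4 * (q : ℝ) ^ 2) * L ^ K := by
      nlinarith
    exact le_of_mul_le_mul_right h3 hLK
  -- main part
  have hmain : ‖E1 gg X q r β * Jc q a χ 1‖ ≤ X / (2 * L ^ A) := by
    have hpos : 0 ≤ (X : ℝ) / (2 * L ^ A) := by positivity
    apply le_of_sq_le_sq _ hpos
    rw [norm_mul, mul_pow, div_pow, le_div_iff₀ (by positivity)]
    have h1 : (‖E1 gg X q r β‖ * q) ^ 2 ≤ (K0 * X * (4 * L)) ^ 2 := by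
      have : 0 ≤ ‖E1 gg X q r β‖ * q := by positivity
      gcongr
    have h2 : ‖E1 gg X q r β‖ ^ 2 * (‖Jc q a χ 1‖ ^ 2 * L ^ (2 * A + 6)) ≤
        ‖E1 gg X q r β‖ ^ 2 * (4 * (q : ℝ) ^ 2) := mul_le_mul_of_nonneg_left hJ2 (by positivity)
    have h3 : ‖E1 gg X q r β‖ ^ 2 * (‖Jc q a χ 1‖ ^ 2 * L ^ (2 * A + 6)) ≤
        64 * (K0 : ℝ) ^ 2 * X ^ 2 * L ^ 2 := by
      refine h2.trans ?_
      nlinarith
    have h4 : (2 * L ^ A) ^ 2 * L ^ 6 = 4 * L ^ (2 * A + 6) := by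
      rw [mul_pow, ← pow_mul, pow_add]
      ring
    have hL6 : 0 < L ^ 6 := by positivity
    have h5 : 256 * (K0 : ℝ) ^ 2 * L ^ 2 ≤ L ^ 6 := by
      have h6 : (16 * (K0 : ℝ)) ^ 2 ≤ L ^ 2 := by
        have : 16 * (K0 : ℝ) ≤ L := by linarith
        have h0 : 0 ≤ 16 * (K0 : ℝ) := by positivity
        gcongr
      have h7 : (1 : ℝ) ≤ L ^ 2 := one_le_pow₀ (by linarith)
      have h8 : 0 ≤ L ^ 4 := by positivity
      calc 256 * (K0 : ℝ) ^ 2 * L ^ 2 = (16 * (K0 : ℝ)) ^ 2 * L ^ 2 := by ring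
        _ ≤ L ^ 2 * L ^ 2 := by gcongr
        _ = L ^ 4 * 1 := by ring
        _ ≤ L ^ 4 * L ^ 2 := by gcongr
        _ = L ^ 6 := by ring
    have h9 : (‖E1 gg X q r β‖ ^ 2 * ‖Jc q a χ 1‖ ^ 2 * (2 * L ^ A) ^ 2) * L ^ 6 ≤
        (X : ℝ) ^ 2 * L ^ 6 := by
      calc (‖E1 gg X q r β‖ ^ 2 * ‖Jc q a χ 1‖ ^ 2 * (2 * L ^ A) ^ 2) * L ^ 6 =
            ‖E1 gg X q r β‖ ^ 2 * ‖Jc q a χ 1‖ ^ 2 * ((2 * L ^ A) ^ 2 * L ^ 6) := by ring
        _ = 4 * (‖E1 gg X q r β‖ ^ 2 * (‖Jc q a χ 1‖ ^ 2 * L ^ (2 * A + 6))) := by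
            rw [h4]
            ring
        _ ≤ 4 * (64 * (K0 : ℝ) ^ 2 * X ^ 2 * L ^ 2) := by gcongr
        _ = (X : ℝ) ^ 2 * (256 * (K0 : ℝ) ^ 2 * L ^ 2) := by ring
        _ ≤ (X : ℝ) ^ 2 * L ^ 6 := by gcongr
    exact le_of_mul_le_mul_right h9 hL6
  -- the error
  obtain ⟨R, hR⟩ : ∃ R : ZMod q → ℂ, R = fun b => fz X q (fI gg X (wX D' X)) (y / r + β) b -
      (if IsUnit b then E1 gg X q r β else 0) := ⟨_, rfl⟩
  have hRs : ∑ b : ZMod q, ‖R b‖ ^ 2 ≤ X ^ 2 / (q * L ^ (2 * A + 2)) := by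
    rw [hR]
    exact hcb'
  have herr : ‖∑ b : ZMod q, χ b * R (a - b)‖ ≤ X / (2 * L ^ A) := by
    have hpos : 0 ≤ (X : ℝ) / (2 * L ^ A) := by positivity
    apply le_of_sq_le_sq _ hpos
    refine (H3b_cs q χ R a).trans ?_
    calc (q : ℝ) * ∑ b : ZMod q, ‖R b‖ ^ 2 ≤ q * (X ^ 2 / (q * L ^ (2 * A + 2))) := by gcongr
      _ = X ^ 2 / (L ^ 2 * (L ^ A) ^ 2) := by
          have : L ^ (2 * A + 2) = L ^ 2 * (L ^ A) ^ 2 := by
            rw [← pow_mul, ← pow_add]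
            congr 1
            ring
          rw [this]
          field_simp
      _ ≤ X ^ 2 / (2 ^ 2 * (L ^ A) ^ 2) := by
          have : (2 : ℝ) ≤ L := by linarith
          gcongr
      _ = (X / (2 * L ^ A)) ^ 2 := by
          rw [div_pow, mul_pow]
  -- the decomposition
  have hdec : ∑ b : ZMod q, χ b * fz X q (fI gg X (wX D' X)) (y / r + β) (a - b) =
      E1 gg X q r β * Jc q a χ 1 + ∑ b : ZMod q, χ b * R (a - b) := by
    unfold Jc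
    rw [Finset.mul_sum, ← Finset.sum_add_distrib]
    refine Finset.sum_congr rfl fun b _ => ?_
    rw [H3b_one q (a - b), hR]
    simp only
    split_ifs <;> ring
  rw [hdec]
  refine (norm_add_le _ _).trans ?_
  calc _ ≤ (X : ℝ) / (2 * L ^ A) + X / (2 * L ^ A) := add_le_add hmain herr
    _ = X / L ^ A := by
        field_simp
        norm_num

end Pool.MP_dd84fd_nt.EM
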