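import Pool.Agent.Lib.MP_dd84fd_nt.EM.PF1

/-!
# EM-PF2 (0.9 h): H3 for the primes

Let `S = Σ_b χ(b) fz X q (wP X) (y/r + β) (a - b) = Σ_{n ≤ X} wP(n) χ(a - n) e(n y/r) e(n β)` (swap: `b = a - n`).  `wP X n = [n prime, zI X ≤ n]`.
(1) The primes `n | q` are at most `2 L`, so up to `2 L` this is `Σ_n wP(n) FP(n) e(n β)`.
(2) `Σ_{n ≤ t} Λ(n) FP(n)` is `≤ X/L^(A')` for all `t ≤ X` (`pf_vm`, `A' = A + B + 4`); dropping the prime powers costs `≤ Σ_{n ≤ X} Λ(n) [n not prime] ≤ C √X L` (Chebyshev.psi_sub_theta_le_mul_sqrt, see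
`SW.sw_theta`, BVTheta), so `T(t) = Σ_{n ≤ t, n prime} log n FP(n)` is `≤ 2 X/L^(A')`.
(3) partial summation with the weight `e(n β) [n ≥ zI]/log n`: `1/log n ≤ 10/L` there, variation of `1/log n` on `n ≥ 3` is `≤ 1`, of `e(n β)` is `≤ 2π |β| X ≤ 7 L^B`: total `≤ 20 L^B sup |T| + ...`.
-/

set_option autoImplicit false

namespace Pool.MP_dd84fd_nt.EM

open Finset Pool.MP_67663b_nt.Odd Pool.MP_dd84fd_nt.En Pool.MP_dd84fd_nt.E2
open Pool.MP_dd84fd_nt.HX Pool.MP_dd84fd_nt.IX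
open Pool.MP_dd84fd_nt.JX (ZJ DecJ Str wP gP)
open Pool.MP_dd84fd_nt.L2G (fz VA VQ MajQ MinorHyp Tc Jc cv av gr Se)
open Pool.MP_dd84fd_nt.T7 (Fz2)

private theorem p2_parts (c W : ℕ → ℂ) (z : ℕ) (hz : 1 ≤ z) : ∀ X : ℕ, z ≤ X →
    ∑ n ∈ Icc z X, W n * c n = W X * ∑ n ∈ Icc 1 X, c n - W z * ∑ n ∈ Icc 1 (z - 1), c n -
      ∑ n ∈ Ico z X, (W (n + 1) - W n) * ∑ k ∈ Icc 1 n, c k := by
  intro X hX
  induction X, hX using Nat.le_induction with
  | base =>
    rw [Icc_self, sum_singleton, Ico_self, sum_empty]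
    have h1 : ∑ n ∈ Icc 1 z, c n = ∑ n ∈ Icc 1 (z - 1), c n + c z := by
      obtain ⟨k, rfl⟩ : ∃ k, z = k + 1 := ⟨z - 1, by omega⟩
      rw [Finset.sum_Icc_succ_top (by omega), Nat.add_sub_cancel]
    rw [h1]
    ring
  | succ n hn ih =>
    rw [Finset.sum_Icc_succ_top (show z ≤ n + 1 by omega), Finset.sum_Ico_succ_top hn, ih,
      Finset.sum_Icc_succ_top (show 1 ≤ n + 1 by omega)]
    ring

private theorem p2_bound (c W : ℕ → ℂ) (z X : ℕ) (hz : 1 ≤ z) (hX : z ≤ X) (M : ℝ)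
    (hM : ∀ t : ℕ, t ≤ X → ‖∑ n ∈ Icc 1 t, c n‖ ≤ M) :
    ‖∑ n ∈ Icc z X, W n * c n‖ ≤
      M * (‖W X‖ + ‖W z‖ + ∑ n ∈ Ico z X, ‖W (n + 1) - W n‖) := by
  rw [p2_parts c W z hz X hX]
  have h1 : ‖W X * ∑ n ∈ Icc 1 X, c n‖ ≤ M * ‖W X‖ := by
    rw [norm_mul, mul_comm]
    exact mul_le_mul_of_nonneg_right (hM X le_rfl) (norm_nonneg _)
  have h2 : ‖W z * ∑ n ∈ Icc 1 (z - 1), c n‖ ≤ M * ‖W z‖ := by
    rw [norm_mul, mul_comm]
    exact mul_le_mul_of_nonneg_right (hM (z - 1) (by omega)) (norm_nonneg _)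
  have h3 : ‖∑ n ∈ Ico z X, (W (n + 1) - W n) * ∑ k ∈ Icc 1 n, c k‖ ≤
      M * ∑ n ∈ Ico z X, ‖W (n + 1) - W n‖ := by
    refine (norm_sum_le _ _).trans ?_
    rw [mul_sum]
    refine sum_le_sum fun n hn => ?_
    rw [mem_Ico] at hn
    rw [norm_mul, mul_comm]
    exact mul_le_mul_of_nonneg_right (hM n hn.2.le) (norm_nonneg _)
  refine (norm_sub_le _ _).trans ?_
  have h4 := norm_sub_le (W X * ∑ n ∈ Icc 1 X, c n) (W z * ∑ n ∈ Icc 1 (z - 1), c n)
  rw [mul_add, mul_add]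
  linarith

/-- the weight `e(n β) / log n` -/
private noncomputable def p2_W (β : ℝ) (n : ℕ) : ℂ :=
  ee ((n : ℝ) * β) * ((1 / Real.log n : ℝ) : ℂ)

private theorem p2_W_norm (β : ℝ) (n : ℕ) (hn : 1 ≤ n) : ‖p2_W β n‖ = 1 / Real.log n := by
  unfold p2_W
  have h1 : (0 : ℝ) ≤ 1 / Real.log n := by
    have : (0 : ℝ) ≤ Real.log n := Real.log_natCast_nonneg n
    positivity
  rw [norm_mul, norm_ee, one_mul, Complex.norm_real, Real.norm_of_nonneg h1]

private theorem p2_log_mono {a b : ℕ} (ha : 2 ≤ a) (hab : a ≤ b) :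
    0 < Real.log a ∧ Real.log a ≤ Real.log b ∧ 1 / Real.log b ≤ 1 / Real.log a := by
  have h1 : (1 : ℝ) < a := by exact_mod_cast ha
  have h2 : 0 < Real.log a := Real.log_pos h1
  have h3 : Real.log a ≤ Real.log b := Real.log_le_log (by linarith) (by exact_mod_cast hab)
  exact ⟨h2, h3, one_div_le_one_div_of_le h2 h3⟩

private theorem p2_W_sub (β : ℝ) (z n : ℕ) (hz : 2 ≤ z) (hn : z ≤ n) :
    ‖p2_W β (n + 1) - p2_W β n‖ ≤
      (1 / Real.log n - 1 / Real.log ((n + 1 : ℕ) : ℝ)) + 7 * |β| / Real.log z := by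
  obtain ⟨l1, -, l3⟩ := p2_log_mono hz hn
  obtain ⟨m1, -, m3⟩ := p2_log_mono (hz.trans hn) (Nat.le_succ n)
  have e1 : p2_W β (n + 1) - p2_W β n =
      -(ee (((n + 1 : ℕ) : ℝ) * β) * ((1 / Real.log n - 1 / Real.log ((n + 1 : ℕ) : ℝ) : ℝ) : ℂ)) +
      (ee (((n + 1 : ℕ) : ℝ) * β) - ee ((n : ℝ) * β)) * ((1 / Real.log n : ℝ) : ℂ) := by
    unfold p2_W
    push_cast
    ring
  rw [e1]
  refine (norm_add_le _ _).trans ?_
  refine add_le_add ?_ ?_
  · rw [norm_neg, norm_mul, norm_ee, one_mul, Complex.norm_real, Real.norm_of_nonneg]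
    exact sub_nonneg.2 m3
  · rw [norm_mul, Complex.norm_real, Real.norm_of_nonneg (by positivity)]
    have h1 := norm_ee_sub_ee_le (((n + 1 : ℕ) : ℝ) * β) ((n : ℝ) * β)
    have h2 : ((n + 1 : ℕ) : ℝ) * β - (n : ℝ) * β = β := by
      push_cast
      ring
    rw [h2] at h1
    have h3 : 2 * Real.pi * |β| ≤ 7 * |β| := by
      have := Real.pi_lt_d2
      have h4 := abs_nonneg β
      nlinarith
    calc ‖ee (((n + 1 : ℕ) : ℝ) * β) - ee ((n : ℝ) * β)‖ * (1 / Real.log n)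
        ≤ (7 * |β|) * (1 / Real.log z) :=
          mul_le_mul (h1.trans h3) l3 (by positivity) (by positivity)
      _ = 7 * |β| / Real.log z := by ring

private theorem p2_weight (β : ℝ) (z X : ℕ) (hz : 2 ≤ z) (hX : z ≤ X) :
    ‖p2_W β X‖ + ‖p2_W β z‖ + ∑ n ∈ Ico z X, ‖p2_W β (n + 1) - p2_W β n‖ ≤
      (2 + 7 * |β| * X) / Real.log z := by
  have key : ∀ Y : ℕ, z ≤ Y → ∑ n ∈ Ico z Y, ‖p2_W β (n + 1) - p2_W β n‖ ≤
      (1 / Real.log z - 1 / Real.log Y) + 7 * |β| / Real.log z * ((Y : ℝ) - z) := by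
    intro Y hY
    induction Y, hY using Nat.le_induction with
    | base => rw [Ico_self, sum_empty, sub_self, sub_self, mul_zero, add_zero]
    | succ n hn ih =>
      rw [Finset.sum_Ico_succ_top hn]
      have h1 := p2_W_sub β z n hz hn
      have h2 : (7 * |β| / Real.log z) * (((n + 1 : ℕ) : ℝ) - z) =
          7 * |β| / Real.log z * ((n : ℝ) - z) + 7 * |β| / Real.log z := by
        push_cast
        ring
      rw [h2]
      linarith
  have h1 := key X hX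
  obtain ⟨l1, -, -⟩ := p2_log_mono (le_refl 2 |>.trans hz) hX
  rw [p2_W_norm β X (by omega), p2_W_norm β z (by omega)]
  have h2 : 7 * |β| / Real.log z * ((X : ℝ) - z) ≤ 7 * |β| / Real.log z * X := by
    refine mul_le_mul_of_nonneg_left ?_ (by positivity)
    have : (0 : ℝ) ≤ z := Nat.cast_nonneg z
    linarith
  have h3 : (2 + 7 * |β| * X) / Real.log z =
      1 / Real.log z + 1 / Real.log z + 7 * |β| / Real.log z * X := by
    field_simp
    ring
  rw [h3]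
  linarith

private theorem p2_swap (X q : ℕ) [NeZero q] (h : ℕ → ℝ) (θ : ℝ) (a : ZMod q)
    (χ : DirichletCharacter ℂ q) :
    ∑ b : ZMod q, χ b * fz X q h θ (a - b) =
      ∑ n ∈ Icc 1 X, χ (a - n) * ((h n : ℂ) * ee (n * θ)) := by
  unfold L2G.fz
  simp_rw [mul_sum, sum_filter]
  rw [sum_comm]
  refine sum_congr rfl fun n _ => ?_
  rw [Finset.sum_eq_single_of_mem (a - (n : ZMod q)) (mem_univ _)]
  · rw [if_pos (by ring)]
  · intro b _ hb
    rw [if_neg]
    intro h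
    apply hb
    rw [h]
    ring

private theorem p2_card (q : ℕ) (hq : 1 ≤ q) : (q.primeFactors.card : ℝ) ≤ 2 * Real.log q := by
  have h1 : 2 ^ q.primeFactors.card ≤ q := by
    calc 2 ^ q.primeFactors.card = ∏ _p ∈ q.primeFactors, 2 := by rw [prod_const]
      _ ≤ ∏ p ∈ q.primeFactors, p := prod_le_prod (fun _ _ => by norm_num)
          (fun p hp => (Nat.prime_of_mem_primeFactors hp).two_le)
      _ ≤ q := Nat.le_of_dvd hq (Nat.prod_primeFactors_dvd q)
  have h2 : (2 : ℝ) ^ q.primeFactors.card ≤ q := by exact_mod_cast h1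
  have h3 := Real.log_le_log (by positivity) h2
  rw [Real.log_pow] at h3
  have h4 := Real.log_two_gt_d9
  have h5 : (0 : ℝ) ≤ q.primeFactors.card := Nat.cast_nonneg _
  nlinarith

private theorem p2_FP_norm (q : ℕ) (a : ZMod q) (χ : DirichletCharacter ℂ q) (r : ℕ) (y : ℤ)
    (n : ℕ) : ‖FP q a χ r y n‖ ≤ 1 := by
  unfold FP
  split_ifs
  · rw [norm_mul, norm_ee, mul_one]
    exact DirichletCharacter.norm_le_one _ _
  · rw [norm_zero]
    exact zero_le_one

/-- `[n prime] log n FP(n)` -/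
private noncomputable def p2_c (q : ℕ) (a : ZMod q) (χ : DirichletCharacter ℂ q) (r : ℕ) (y : ℤ)
    (n : ℕ) : ℂ :=
  if n.Prime then ((Real.log n : ℝ) : ℂ) * FP q a χ r y n else 0

private theorem p2_T (C : ℝ) (hC : ∀ x : ℝ, Chebyshev.psi x - Chebyshev.theta x ≤ C * Real.sqrt x)
    (hC0 : 0 ≤ C)
    (q : ℕ) (a : ZMod q) (χ : DirichletCharacter ℂ q) (r : ℕ) (y : ℤ) (t X : ℕ) (htX : t ≤ X)
    (M : ℝ) (hM : ‖∑ n ∈ Icc 1 t, (ArithmeticFunction.vonMangoldt n : ℂ) * FP q a χ r y n‖ ≤ M) :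
    ‖∑ n ∈ Icc 1 t, p2_c q a χ r y n‖ ≤ M + C * Real.sqrt X := by
  classical
  have h1 : ∑ n ∈ Icc 1 t, p2_c q a χ r y n =
      ∑ n ∈ Icc 1 t, (ArithmeticFunction.vonMangoldt n : ℂ) * FP q a χ r y n -
      ∑ n ∈ (Icc 1 t).filter (fun n => ¬ n.Prime),
        (ArithmeticFunction.vonMangoldt n : ℂ) * FP q a χ r y n := by
    rw [sum_filter, ← sum_sub_distrib]
    refine sum_congr rfl fun n _ => ?_
    unfold p2_c
    by_cases h : n.Prime
    · rw [if_pos h, if_neg (not_not.2 h), sub_zero, ArithmeticFunction.vonMangoldt_apply_prime h]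
    · rw [if_neg h, if_pos h, sub_self]
  have h2 : ‖∑ n ∈ (Icc 1 t).filter (fun n => ¬ n.Prime),
        (ArithmeticFunction.vonMangoldt n : ℂ) * FP q a χ r y n‖ ≤ C * Real.sqrt X := by
    have h3 := hC t
    rw [Chebyshev.psi_sub_theta_eq_sum_not_prime, Nat.floor_natCast] at h3
    have h4 : C * Real.sqrt t ≤ C * Real.sqrt X :=
      mul_le_mul_of_nonneg_left (Real.sqrt_le_sqrt (by exact_mod_cast htX)) hC0
    refine le_trans ((norm_sum_le _ _).trans ?_) (h3.trans h4)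
    refine le_trans (sum_le_sum (g := fun n => ArithmeticFunction.vonMangoldt n) fun n _ => ?_) ?_
    · rw [norm_mul, Complex.norm_real,
        Real.norm_of_nonneg ArithmeticFunction.vonMangoldt_nonneg]
      have h5 := p2_FP_norm q a χ r y n
      have h6 : 0 ≤ ArithmeticFunction.vonMangoldt n := ArithmeticFunction.vonMangoldt_nonneg
      calc ArithmeticFunction.vonMangoldt n * ‖FP q a χ r y n‖
          ≤ ArithmeticFunction.vonMangoldt n * 1 := mul_le_mul_of_nonneg_left h5 h6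
        _ = ArithmeticFunction.vonMangoldt n := mul_one _
    · apply sum_le_sum_of_subset_of_nonneg
      · intro n hn
        rw [mem_filter, mem_Icc] at hn
        rw [mem_filter, mem_Ioc]
        exact ⟨⟨hn.1.1, hn.1.2⟩, hn.2⟩
      · intro n _ _
        exact ArithmeticFunction.vonMangoldt_nonneg
  rw [h1]
  refine (norm_sub_le _ _).trans ?_
  linarith

theorem h3_P (A B K : ℕ) : ∃ D0 : ℕ, ∀ D1 : ℕ, D0 ≤ D1 → ∀ th e τ : ℝ, AdE th e τ →
    ∃ X0 : ℕ, ∀ X : ℕ, X0 ≤ X → H3 th e X A B K D1 (wP X) := by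
  classical
  obtain ⟨D0, hD0⟩ := pf_vm (A + B) B K
  obtain ⟨C0, hC0⟩ := Chebyshev.psi_sub_theta_le_mul_sqrt
  obtain ⟨C, hC⟩ : ∃ C : ℝ, C = max C0 1 := ⟨_, rfl⟩
  have hC1 : 1 ≤ C := by rw [hC]; exact le_max_right _ _
  have hCC : ∀ x : ℝ, Chebyshev.psi x - Chebyshev.theta x ≤ C * Real.sqrt x := by
    intro x
    refine (hC0 x).trans (mul_le_mul_of_nonneg_right ?_ (Real.sqrt_nonneg _))
    rw [hC]
    exact le_max_left _ _
  have hev1 : ∀ᶠ X : ℕ in Filter.atTop, 360 ≤ Real.log X :=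
    (Real.tendsto_log_atTop.comp tendsto_natCast_atTop_atTop).eventually_ge_atTop _
  have hev2 : ∀ᶠ X : ℕ in Filter.atTop, ‖Real.log X ^ ((A + B : ℕ) : ℝ)‖ ≤
      1 / C * ‖(X : ℝ) ^ (1 / 2 : ℝ)‖ :=
    tendsto_natCast_atTop_atTop.eventually
      ((isLittleO_log_rpow_rpow_atTop ((A + B : ℕ) : ℝ) (by norm_num : (0 : ℝ) < 1 / 2)).bound
        (by positivity))
  have hev3 : ∀ᶠ X : ℕ in Filter.atTop, ‖Real.log X ^ ((A + 1 : ℕ) : ℝ)‖ ≤
      1 / 4 * ‖(X : ℝ) ^ (1 : ℝ)‖ :=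
    tendsto_natCast_atTop_atTop.eventually
      ((isLittleO_log_rpow_rpow_atTop ((A + 1 : ℕ) : ℝ) (by norm_num : (0 : ℝ) < 1)).bound
        (by norm_num))
  obtain ⟨X2, hX2⟩ := Filter.eventually_atTop.1 (hev1.and (hev2.and hev3))
  refine ⟨D0, fun D1 hD1 th e τ hA => ?_⟩
  obtain ⟨X1, hX1⟩ := hD0 D1 hD1 th e τ hA
  refine ⟨max (max X1 X2) 2, fun X hX => ?_⟩
  have hXX1 : X1 ≤ X := ((le_max_left _ _).trans (le_max_left _ _)).trans hX
  have hXX2 : X2 ≤ X := ((le_max_right _ _).trans (le_max_left _ _)).trans hX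
  have hX2' : 2 ≤ X := (le_max_right _ _).trans hX
  obtain ⟨hL, hLX, hLY⟩ := hX2 X hXX2
  have hX0 : (0 : ℝ) < X := by
    have : 0 < X := by omega
    exact_mod_cast this
  have hXr1 : (1 : ℝ) ≤ X := by
    have : 1 ≤ X := by omega
    exact_mod_cast this
  rw [Real.rpow_natCast, Real.norm_of_nonneg (pow_nonneg (by linarith) _),
    Real.norm_of_nonneg (by positivity), ← Real.sqrt_eq_rpow] at hLX
  rw [Real.rpow_natCast, Real.norm_of_nonneg (pow_nonneg (by linarith) _), Real.rpow_one,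
    Real.norm_of_nonneg hX0.le] at hLY
  intro q _ hqr r y β hPt a ha χ hχ
  obtain ⟨hr1, hrB, hrq, hyr, hβ⟩ := hPt
  have hPC : PC th e X B K D1 q r y a χ := ⟨hqr, hr1, hrB, hrq, hyr, ha, hχ⟩
  have hq1 : 1 ≤ q := Nat.one_le_iff_ne_zero.2 (NeZero.ne q)
  have hqX : (q : ℝ) ≤ X := by
    obtain ⟨t1, t2, t3, t4, t5⟩ := hA
    unfold Qr at hqr
    refine hqr.trans ?_
    calc (X : ℝ) ^ (1 - th + e) ≤ (X : ℝ) ^ (1 : ℝ) :=
          Real.rpow_le_rpow_of_exponent_le hXr1 (by linarith)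
      _ = X := Real.rpow_one _
  obtain ⟨L, hLd⟩ : ∃ L : ℝ, L = Real.log X := ⟨_, rfl⟩
  rw [← hLd] at hL hLX hLY hβ ⊢
  have hL0 : 0 < L := by linarith
  -- the sifting level
  obtain ⟨z, hz⟩ : ∃ z : ℕ, z = zI X := ⟨_, rfl⟩
  have hzr : (X : ℝ) ^ (1 / 10 : ℝ) ≤ z := by
    rw [hz]
    unfold IX.zI
    exact Nat.le_ceil _
  have hzL : L / 10 ≤ Real.log z := by
    have h1 := Real.log_le_log (by positivity) hzr
    rw [Real.log_rpow hX0, ← hLd] at h1
    linarith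
  have hz2 : 2 ≤ z := by
    by_contra hcon
    have h1 : z = 0 ∨ z = 1 := by omega
    have h2 : Real.log z = 0 := by
      rcases h1 with h1 | h1
      · rw [h1, Nat.cast_zero, Real.log_zero]
      · rw [h1, Nat.cast_one, Real.log_one]
    rw [h2] at hzL
    linarith
  have hzX : z ≤ X := by
    rw [hz]
    unfold IX.zI
    rw [Nat.ceil_le]
    calc (X : ℝ) ^ (1 / 10 : ℝ) ≤ (X : ℝ) ^ (1 : ℝ) :=
          Real.rpow_le_rpow_of_exponent_le hXr1 (by norm_num)
      _ = X := Real.rpow_one _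
  -- the two parts
  rw [p2_swap]
  have hsplit : ∑ n ∈ Icc 1 X, χ (a - n) * ((wP X n : ℂ) * ee (n * (y / r + β))) =
      ∑ n ∈ Icc z X, p2_W β n * p2_c q a χ r y n +
      ∑ n ∈ (Icc 1 X).filter (fun n => n.Prime ∧ z ≤ n ∧ ¬ Nat.Coprime n q),
        χ (a - n) * ee (n * (y / r + β)) := by
    have h1 : ∑ n ∈ Icc z X, p2_W β n * p2_c q a χ r y n =
        ∑ n ∈ Icc 1 X, if z ≤ n then p2_W β n * p2_c q a χ r y n else 0 := by
      rw [← sum_filter]
      refine sum_congr ?_ fun _ _ => rfl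
      ext n
      rw [mem_filter, mem_Icc, mem_Icc]
      omega
    rw [h1, sum_filter, ← sum_add_distrib]
    refine sum_congr rfl fun n _ => ?_
    unfold JX.wP p2_W p2_c FP
    rw [← hz]
    by_cases h2 : n.Prime
    · by_cases h3 : z ≤ n
      · rw [if_pos ⟨h2, h3⟩, if_pos h3, if_pos h2]
        by_cases h4 : Nat.Coprime n q
        · rw [if_pos h4, if_neg (fun h => h.2.2 h4), add_zero]
          have h5 : ((n : ℝ) * (y / r + β)) = (n : ℝ) * ((y : ℝ) / r) + (n : ℝ) * β := by ring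
          rw [h5, ee_add]
          have h6 : Real.log n ≠ 0 :=
            (lt_of_lt_of_le (p2_log_mono hz2 h3).1 (p2_log_mono hz2 h3).2.1).ne'
          have h7 : ((1 / Real.log n : ℝ) : ℂ) * ((Real.log n : ℝ) : ℂ) = 1 := by
            rw [← Complex.ofReal_mul, one_div_mul_cancel h6, Complex.ofReal_one]
          calc χ (a - n) * (((1 : ℝ) : ℂ) * (ee ((n : ℝ) * ((y : ℝ) / r)) * ee ((n : ℝ) * β)))
              = ee ((n : ℝ) * β) * 1 * (χ (a - n) * ee ((n : ℝ) * ((y : ℝ) / r))) := by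
                push_cast
                ring
            _ = ee ((n : ℝ) * β) * (((1 / Real.log n : ℝ) : ℂ) * ((Real.log n : ℝ) : ℂ)) *
                (χ (a - n) * ee ((n : ℝ) * ((y : ℝ) / r))) := by rw [h7]
            _ = _ := by ring
        · rw [if_neg h4, if_pos ⟨h2, h3, h4⟩, mul_zero, mul_zero, zero_add]
          push_cast
          ring
      · rw [if_neg (fun h => h3 h.2), if_neg h3, if_neg (fun h => h3 h.2.1)]
        push_cast
        ring
    · rw [if_neg (fun h => h2 h.1), if_neg h2, mul_zero, ite_self, if_neg (fun h => h2 h.1)]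
      push_cast
      ring
  rw [hsplit]
  -- the primes dividing q
  have hsmall : ‖∑ n ∈ (Icc 1 X).filter (fun n => n.Prime ∧ z ≤ n ∧ ¬ Nat.Coprime n q),
        χ (a - n) * ee (n * (y / r + β))‖ ≤ 2 * L := by
    refine (norm_sum_le _ _).trans ?_
    have h1 : ∀ n ∈ (Icc 1 X).filter (fun n => n.Prime ∧ z ≤ n ∧ ¬ Nat.Coprime n q),
        ‖χ (a - n) * ee (n * (y / r + β))‖ ≤ 1 := by
      intro n _
      rw [norm_mul, norm_ee, mul_one]
      exact DirichletCharacter.norm_le_one _ _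
    refine (sum_le_card_nsmul _ _ _ h1).trans ?_
    rw [nsmul_eq_mul, mul_one]
    have h2 : ((Icc 1 X).filter (fun n => n.Prime ∧ z ≤ n ∧ ¬ Nat.Coprime n q)).card ≤
        q.primeFactors.card := by
      refine card_le_card ?_
      intro n hn
      rw [mem_filter] at hn
      obtain ⟨-, h3, -, h4⟩ := hn
      rw [Nat.mem_primeFactors]
      refine ⟨h3, ?_, by omega⟩
      by_contra h5
      exact h4 ((Nat.Prime.coprime_iff_not_dvd h3).2 h5)
    have h3 : (((Icc 1 X).filter (fun n => n.Prime ∧ z ≤ n ∧ ¬ Nat.Coprime n q)).card : ℝ) ≤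
        q.primeFactors.card := by exact_mod_cast h2
    refine h3.trans ((p2_card q hq1).trans ?_)
    have h4 : Real.log q ≤ L := by
      rw [hLd]
      exact Real.log_le_log (by exact_mod_cast hq1) hqX
    linarith
  -- the main part
  have hM : ∀ t : ℕ, t ≤ X → ‖∑ n ∈ Icc 1 t, p2_c q a χ r y n‖ ≤ 2 * (X / L ^ (A + B)) := by
    intro t ht
    have h1 := hX1 X hXX1 q r y a χ hPC t ht
    rw [← hLd] at h1
    have h2 := p2_T C hCC (by linarith) q a χ r y t X ht _ h1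
    refine h2.trans ?_
    have h3 : C * Real.sqrt X ≤ X / L ^ (A + B) := by
      rw [le_div_iff₀ (by positivity)]
      have h4 : Real.sqrt X * Real.sqrt X = X := Real.mul_self_sqrt hX0.le
      have h5 : 0 ≤ C * Real.sqrt X := by positivity
      calc C * Real.sqrt X * L ^ (A + B) ≤ C * Real.sqrt X * (1 / C * Real.sqrt X) :=
            mul_le_mul_of_nonneg_left hLX h5
        _ = Real.sqrt X * Real.sqrt X := by
            field_simp
        _ = X := h4
    linarith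
  have hmain := p2_bound (p2_c q a χ r y) (p2_W β) z X (by omega) hzX _ hM
  have hW := p2_weight β z X hz2 hzX
  have hβX : |β| * X ≤ L ^ B := by
    rw [le_div_iff₀ hX0] at hβ
    exact hβ
  have hLB : 1 ≤ L ^ B := one_le_pow₀ (by linarith)
  have hW2 : (2 + 7 * |β| * X) / Real.log z ≤ 90 * L ^ B / L := by
    have hz0 : 0 < Real.log z := by linarith
    rw [div_le_div_iff₀ hz0 hL0]
    have h1 : 2 + 7 * |β| * X ≤ 9 * L ^ B := by nlinarith
    have h2 : (2 + 7 * |β| * X) * L ≤ 9 * L ^ B * L := mul_le_mul_of_nonneg_right h1 hL0.le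
    have h3 : 9 * L ^ B * L ≤ 90 * L ^ B * Real.log z := by
      have : 0 ≤ L ^ B := by positivity
      nlinarith
    linarith
  have hY0 : 0 ≤ X / L ^ A := by positivity
  have h7 : 2 * (X / L ^ (A + B)) * (90 * L ^ B / L) = 180 * (X / L ^ A) / L := by
    rw [pow_add]
    have h8 : L ^ B ≠ 0 := by positivity
    have h9 : L ^ A ≠ 0 := by positivity
    field_simp
    ring
  have h8 : 180 * (X / L ^ A) / L ≤ 1 / 2 * (X / L ^ A) := by
    rw [div_le_iff₀ hL0]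
    nlinarith
  have h9 : 2 * L ≤ 1 / 2 * (X / L ^ A) := by
    have h10 : 4 * L ≤ X / L ^ A := by
      rw [le_div_iff₀ (by positivity)]
      have : 4 * L * L ^ A = 4 * L ^ (A + 1) := by ring
      rw [this]
      linarith
    linarith
  have h10 : ‖∑ n ∈ Icc z X, p2_W β n * p2_c q a χ r y n‖ ≤ 1 / 2 * (X / L ^ A) := by
    refine hmain.trans ?_
    refine (mul_le_mul_of_nonneg_left (hW.trans hW2) (by positivity)).trans ?_
    rw [h7]
    exact h8
  refine (norm_add_le _ _).trans ?_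
  linarith

end Pool.MP_dd84fd_nt.EM
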