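import Pool.Agent.Lib.MP_dd84fd_nt.EM.Defs2
import Pool.Agent.Lib.MP_dd84fd_nt.T7.Fz2Basic
import Pool.Agent.Lib.MP_dd84fd_nt.T7.Fz2Split
import Pool.Agent.Lib.MP_dd84fd_nt.L2G.BadAlg

/-!
# EM-TwA (0.8 h): elementary facts on `Tw`, `cq`, `nq`, `PG`

`b.val + q j`, `j < t`, are the residues mod `q t` above `b` (see the private lemmas of `L2G/ClassSplit`, `T7/Fz2Split`).
`Tw_fz`: `n ≤ X`, `n = b (q)`, split by `n mod q t`; `e(n (c/(qt) + φ)) = e(c (n mod qt)/(qt)) e(n φ)`.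
`Tw_cq`: the pairs `(x, y)` of classes mod `q t` with `x + y = a'` above `a`; `e(c x/(qt)) e(c y/(qt)) = e(c a'/(qt))`.
`Tw_nq`: Cauchy-Schwarz over `j < t`.  `cq_le`: Cauchy-Schwarz (`ba_cs`).  `PG_sq`: `L2G.ba_part_sq`.  `PG_le`: all characters, `PG ... univ` is the part of
`fz` on the units (`L2G.fz_char`; `χ⁻¹ b = 0` for non-units).  `fz_add`: clear.
-/

set_option autoImplicit false

namespace Pool.MP_dd84fd_nt.EM

open Finset Pool.MP_67663b_nt.Odd Pool.MP_dd84fd_nt.En Pool.MP_dd84fd_nt.E2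
open Pool.MP_dd84fd_nt.HX Pool.MP_dd84fd_nt.IX
open Pool.MP_dd84fd_nt.JX (ZJ DecJ Str wP gP)
open Pool.MP_dd84fd_nt.L2G (fz VA VQ MajQ MinorHyp Tc Jc cv av gr Se)
open Pool.MP_dd84fd_nt.T7 (Fz2)

private theorem TwA_lt (q t : ℕ) [NeZero q] [NeZero t] (b : ZMod q) (j : ℕ) (hj : j < t) :
    b.val + q * j < q * t := by
  have h1 := ZMod.val_lt b
  calc b.val + q * j < q + q * j := by omega
    _ = q * (j + 1) := by ring
    _ ≤ q * t := Nat.mul_le_mul_left q hj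

/-- `Tw` as a sum over the classes above `b` -/
private theorem TwA_eq (q t : ℕ) [NeZero q] [NeZero t] (x : ℝ) (g : ZMod (q * t) → ℂ)
    (b : ZMod q) :
    Tw q t x g b = ∑ a' ∈ univ.filter (fun a' : ZMod (q * t) => ((a'.val : ℕ) : ZMod q) = b),
      ee (x * (a'.val : ℝ)) * g a' := by
  have hq : 0 < q := Nat.pos_of_ne_zero (NeZero.ne q)
  unfold Tw
  refine Finset.sum_bij' (fun j _ => ((b.val + q * j : ℕ) : ZMod (q * t)))
    (fun a' _ => a'.val / q) ?_ ?_ ?_ ?_ ?_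
  · intro j hj
    rw [Finset.mem_filter]
    refine ⟨Finset.mem_univ _, ?_⟩
    rw [ZMod.val_natCast_of_lt (TwA_lt q t b j (Finset.mem_range.mp hj))]
    push_cast
    simp
  · intro a' _
    rw [Finset.mem_range]
    exact Nat.div_lt_of_lt_mul (ZMod.val_lt a')
  · intro j hj
    show (((b.val + q * j : ℕ) : ZMod (q * t)).val) / q = j
    rw [ZMod.val_natCast_of_lt (TwA_lt q t b j (Finset.mem_range.mp hj)),
      Nat.add_mul_div_left _ _ hq, Nat.div_eq_of_lt (ZMod.val_lt b), zero_add]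
  · intro a' ha'
    rw [Finset.mem_filter] at ha'
    show ((b.val + q * (a'.val / q) : ℕ) : ZMod (q * t)) = a'
    have h2 : a'.val % q = b.val := by
      rw [← ha'.2, ZMod.val_natCast]
    rw [← h2, Nat.mod_add_div]
    exact ZMod.natCast_zmod_val a'
  · intro j hj
    show ee (x * ((b.val + q * j : ℕ) : ℝ)) * g ((b.val + q * j : ℕ) : ZMod (q * t)) =
      ee (x * ((((b.val + q * j : ℕ) : ZMod (q * t)).val : ℕ) : ℝ)) *
        g ((b.val + q * j : ℕ) : ZMod (q * t))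
    rw [ZMod.val_natCast_of_lt (TwA_lt q t b j (Finset.mem_range.mp hj))]

private theorem TwA_val (q t n : ℕ) :
    (((n : ZMod (q * t)).val : ℕ) : ZMod q) = (n : ZMod q) := by
  rw [ZMod.val_natCast, ZMod.natCast_eq_natCast_iff]
  exact (Nat.mod_modEq n (q * t)).of_dvd (Dvd.intro t rfl)

/-- the phase `e(n c / m)` depends only on `n mod m` -/
private theorem TwA_phase (m : ℕ) [NeZero m] (n : ℕ) (c : ℤ) (φ : ℝ) :
    ee ((n : ℝ) * ((c : ℝ) / (m : ℕ) + φ)) =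
      ee (((c : ℝ) / (m : ℕ)) * ((n : ZMod m).val : ℝ)) * ee ((n : ℝ) * φ) := by
  rw [ZMod.val_natCast]
  have hm : (m : ℝ) ≠ 0 := by exact_mod_cast NeZero.ne m
  have h1 : (n : ℝ) = ((n % m : ℕ) : ℝ) + (m : ℝ) * ((n / m : ℕ) : ℝ) := by
    exact_mod_cast (Nat.mod_add_div n m).symm
  rw [← ee_add]
  generalize n % m = u at h1 ⊢
  generalize n / m = v at h1 ⊢
  have h2 : (n : ℝ) * ((c : ℝ) / (m : ℕ) + φ) =
      ((c : ℝ) / (m : ℕ)) * (u : ℝ) + n * φ + (((v : ℤ) * c : ℤ) : ℝ) := by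
    rw [mul_add, h1]
    push_cast
    field_simp
    ring
  rw [h2, ee_add_int]

private theorem TwA_vadd (q t : ℕ) [NeZero q] [NeZero t] (x y : ZMod (q * t)) :
    (((x + y).val : ℕ) : ZMod q) = ((x.val : ℕ) : ZMod q) + ((y.val : ℕ) : ZMod q) := by
  have h : x + y = ((x.val + y.val : ℕ) : ZMod (q * t)) := by
    push_cast
    rw [ZMod.natCast_zmod_val, ZMod.natCast_zmod_val]
  rw [h, TwA_val]
  push_cast
  rfl

private theorem TwA_eadd (m : ℕ) [NeZero m] (c : ℤ) (x y : ZMod m) :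
    ee (((c : ℝ) / (m : ℕ)) * ((x + y).val : ℝ)) =
      ee (((c : ℝ) / (m : ℕ)) * (x.val : ℝ)) * ee (((c : ℝ) / (m : ℕ)) * (y.val : ℝ)) := by
  have h := TwA_phase m (x.val + y.val) c 0
  have h1 : ((x.val + y.val : ℕ) : ZMod m) = x + y := by
    push_cast
    rw [ZMod.natCast_zmod_val, ZMod.natCast_zmod_val]
  rw [h1, mul_zero, ee_zero, mul_one, add_zero] at h
  rw [← h, ← ee_add]
  congr 1
  push_cast
  ring

theorem Tw_add (q t : ℕ) (x : ℝ) (g h : ZMod (q * t) → ℂ) (b : ZMod q) :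
    Tw q t x (fun z => g z + h z) b = Tw q t x g b + Tw q t x h b := by
  unfold Tw
  rw [← Finset.sum_add_distrib]
  exact Finset.sum_congr rfl fun j _ => by ring

theorem Tw_fz (X q t : ℕ) [NeZero q] [NeZero t] (f : ℕ → ℝ) (φ : ℝ) (c : ℤ) (b : ZMod q) :
    Tw q t ((c : ℝ) / (q * t : ℕ)) (fz X (q * t) f φ) b =
      fz X q f ((c : ℝ) / (q * t : ℕ) + φ) b := by
  rw [TwA_eq]
  have hmaps : ∀ n ∈ (Icc 1 X).filter (fun n : ℕ => (n : ZMod q) = b),
      (n : ZMod (q * t)) ∈ univ.filter (fun a' : ZMod (q * t) => ((a'.val : ℕ) : ZMod q) = b) := by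
    intro n hn
    rw [Finset.mem_filter] at hn ⊢
    exact ⟨Finset.mem_univ _, (TwA_val q t n).trans hn.2⟩
  symm
  unfold fz
  rw [← Finset.sum_fiberwise_of_maps_to hmaps]
  refine Finset.sum_congr rfl fun a' ha' => ?_
  rw [Finset.mem_filter] at ha'
  have hset : ((Icc 1 X).filter (fun n : ℕ => (n : ZMod q) = b)).filter
      (fun n : ℕ => (n : ZMod (q * t)) = a') =
      (Icc 1 X).filter (fun n : ℕ => (n : ZMod (q * t)) = a') := by
    ext n
    simp only [Finset.mem_filter]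
    constructor
    · rintro ⟨⟨h1, _⟩, h3⟩
      exact ⟨h1, h3⟩
    · rintro ⟨h1, h3⟩
      refine ⟨⟨h1, ?_⟩, h3⟩
      rw [← TwA_val q t n, h3]
      exact ha'.2
  rw [hset, Finset.mul_sum]
  refine Finset.sum_congr rfl fun n hn => ?_
  rw [Finset.mem_filter] at hn
  rw [TwA_phase (q * t) n c φ, hn.2]
  ring

theorem Tw_cq (q t : ℕ) [NeZero q] [NeZero t] (c : ℤ) (g h : ZMod (q * t) → ℂ) (a : ZMod q) :
    cq (Tw q t ((c : ℝ) / (q * t : ℕ)) g) (Tw q t ((c : ℝ) / (q * t : ℕ)) h) a =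
      Tw q t ((c : ℝ) / (q * t : ℕ)) (cq g h) a := by
  have hL : cq (Tw q t ((c : ℝ) / (q * t : ℕ)) g) (Tw q t ((c : ℝ) / (q * t : ℕ)) h) a =
      ∑ x : ZMod (q * t), ∑ y : ZMod (q * t),
        if ((x.val : ℕ) : ZMod q) + ((y.val : ℕ) : ZMod q) = a then
          (ee (((c : ℝ) / (q * t : ℕ)) * (x.val : ℝ)) * g x) *
            (ee (((c : ℝ) / (q * t : ℕ)) * (y.val : ℝ)) * h y) else 0 := by
    unfold cq
    have h1 : ∀ b : ZMod q, Tw q t ((c : ℝ) / (q * t : ℕ)) g b *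
        Tw q t ((c : ℝ) / (q * t : ℕ)) h (a - b) =
        ∑ x : ZMod (q * t), if ((x.val : ℕ) : ZMod q) = b then ∑ y : ZMod (q * t),
          (if ((x.val : ℕ) : ZMod q) + ((y.val : ℕ) : ZMod q) = a then
          (ee (((c : ℝ) / (q * t : ℕ)) * (x.val : ℝ)) * g x) *
            (ee (((c : ℝ) / (q * t : ℕ)) * (y.val : ℝ)) * h y) else 0) else 0 := by
      intro b
      rw [TwA_eq, TwA_eq, Finset.sum_filter, Finset.sum_filter, Finset.sum_mul_sum]
      refine Finset.sum_congr rfl fun x _ => ?_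
      by_cases hx : ((x.val : ℕ) : ZMod q) = b
      · simp only [if_pos hx]
        refine Finset.sum_congr rfl fun y _ => ?_
        by_cases hy : ((y.val : ℕ) : ZMod q) = a - b
        · rw [if_pos hy, if_pos (by rw [hx, hy]; ring)]
        · rw [if_neg hy, if_neg (fun h3 => hy (by rw [← h3, hx]; ring)), mul_zero]
      · simp only [if_neg hx, zero_mul, Finset.sum_const_zero]
    rw [Finset.sum_congr rfl fun b _ => h1 b, Finset.sum_comm]
    refine Finset.sum_congr rfl fun x _ => ?_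
    rw [Finset.sum_ite_eq]
    simp
  have hR : Tw q t ((c : ℝ) / (q * t : ℕ)) (cq g h) a =
      ∑ x : ZMod (q * t), ∑ y : ZMod (q * t),
        if ((x.val : ℕ) : ZMod q) + ((y.val : ℕ) : ZMod q) = a then
          (ee (((c : ℝ) / (q * t : ℕ)) * (x.val : ℝ)) * g x) *
            (ee (((c : ℝ) / (q * t : ℕ)) * (y.val : ℝ)) * h y) else 0 := by
    rw [TwA_eq, Finset.sum_filter]
    unfold cq
    have h2 : ∀ z : ZMod (q * t), (if ((z.val : ℕ) : ZMod q) = a then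
        ee (((c : ℝ) / (q * t : ℕ)) * (z.val : ℝ)) * ∑ x : ZMod (q * t), g x * h (z - x) else 0) =
        ∑ x : ZMod (q * t), (fun w : ZMod (q * t) =>
          if ((x.val : ℕ) : ZMod q) + ((w.val : ℕ) : ZMod q) = a then
          (ee (((c : ℝ) / (q * t : ℕ)) * (x.val : ℝ)) * g x) *
            (ee (((c : ℝ) / (q * t : ℕ)) * (w.val : ℝ)) * h w) else 0) (z - x) := by
      intro z
      have h3 : ∀ x : ZMod (q * t), ((z.val : ℕ) : ZMod q) =
          ((x.val : ℕ) : ZMod q) + (((z - x).val : ℕ) : ZMod q) := by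
        intro x
        rw [← TwA_vadd, add_sub_cancel]
      have h4 : ∀ x : ZMod (q * t), ee (((c : ℝ) / (q * t : ℕ)) * (z.val : ℝ)) =
          ee (((c : ℝ) / (q * t : ℕ)) * (x.val : ℝ)) *
            ee (((c : ℝ) / (q * t : ℕ)) * ((z - x).val : ℝ)) := by
        intro x
        rw [← TwA_eadd, add_sub_cancel]
      by_cases hz : ((z.val : ℕ) : ZMod q) = a
      · rw [if_pos hz, Finset.mul_sum]
        refine Finset.sum_congr rfl fun x _ => ?_
        show _ = if ((x.val : ℕ) : ZMod q) + (((z - x).val : ℕ) : ZMod q) = a then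
          (ee (((c : ℝ) / (q * t : ℕ)) * (x.val : ℝ)) * g x) *
            (ee (((c : ℝ) / (q * t : ℕ)) * ((z - x).val : ℝ)) * h (z - x)) else 0
        rw [if_pos ((h3 x).symm.trans hz), h4 x]
        ring
      · rw [if_neg hz]
        symm
        refine Finset.sum_eq_zero fun x _ => ?_
        show (if ((x.val : ℕ) : ZMod q) + (((z - x).val : ℕ) : ZMod q) = a then
          (ee (((c : ℝ) / (q * t : ℕ)) * (x.val : ℝ)) * g x) *
            (ee (((c : ℝ) / (q * t : ℕ)) * ((z - x).val : ℝ)) * h (z - x)) else 0) = 0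
        rw [if_neg (fun h5 => hz ((h3 x).trans h5))]
    rw [Finset.sum_congr rfl fun z _ => h2 z, Finset.sum_comm]
    refine Finset.sum_congr rfl fun x _ => ?_
    exact Fintype.sum_equiv (Equiv.subRight x) _ _ (fun z => rfl)
  rw [hL, hR]

theorem Tw_nq (q t : ℕ) [NeZero q] [NeZero t] (x : ℝ) (g : ZMod (q * t) → ℂ) :
    nq (Tw q t x g) ≤ t * nq g := by
  unfold nq
  have h1 : ∀ b : ZMod q, ‖Tw q t x g b‖ ^ 2 ≤
      t * ∑ a' ∈ univ.filter (fun a' : ZMod (q * t) => ((a'.val : ℕ) : ZMod q) = b),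
        ‖g a'‖ ^ 2 := by
    intro b
    rw [TwA_eq]
    have h2 := norm_sum_le (univ.filter (fun a' : ZMod (q * t) => ((a'.val : ℕ) : ZMod q) = b))
      (fun a' => ee (x * (a'.val : ℝ)) * g a')
    have h3 : ∀ a' : ZMod (q * t), ‖ee (x * (a'.val : ℝ)) * g a'‖ = ‖g a'‖ := by
      intro a'
      rw [norm_mul, norm_ee, one_mul]
    rw [Finset.sum_congr rfl fun a' _ => h3 a'] at h2
    refine (pow_le_pow_left₀ (norm_nonneg _) h2 2).trans ?_
    have h4 := sq_sum_le_card_mul_sum_sq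
      (s := univ.filter (fun a' : ZMod (q * t) => ((a'.val : ℕ) : ZMod q) = b))
      (f := fun a' => ‖g a'‖)
    rw [L2G.split_card q t b] at h4
    exact h4
  refine (Finset.sum_le_sum fun b _ => h1 b).trans (le_of_eq ?_)
  rw [← Finset.mul_sum, Finset.sum_fiberwise]

theorem cq_le {q : ℕ} [NeZero q] (v w : ZMod q → ℂ) (a : ZMod q) :
    ‖cq v w a‖ ^ 2 ≤ nq v * nq w := by
  have h := L2G.ba_cs q v w a
  have h0 : 0 ≤ (∑ b : ZMod q, ‖v b‖ ^ 2) * ∑ b : ZMod q, ‖w b‖ ^ 2 :=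
    mul_nonneg (Finset.sum_nonneg fun _ _ => by positivity)
      (Finset.sum_nonneg fun _ _ => by positivity)
  have h2 := pow_le_pow_left₀ (norm_nonneg _) h 2
  rw [Real.sq_sqrt h0] at h2
  exact h2

theorem PG_sq (X q : ℕ) [NeZero q] (f : ℕ → ℝ) (φ : ℝ) (𝓖 : Finset (DirichletCharacter ℂ q)) :
    nq (PG X q f φ 𝓖) = (∑ χ ∈ 𝓖, ‖Tc X q f φ χ‖ ^ 2) / (Nat.totient q : ℝ) := by
  classical
  have h := L2G.ba_part_sq X q f φ (fun χ => χ ∈ 𝓖)
  have h1 : ∀ b : ZMod q, L2G.ba_part X q f φ (fun χ => χ ∈ 𝓖) b = PG X q f φ 𝓖 b := by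
    intro b
    unfold L2G.ba_part PG
    congr 1
    have h2 : ∀ χ : DirichletCharacter ℂ q, (χ⁻¹ : DirichletCharacter ℂ q) b *
        (if χ ∈ 𝓖 then Tc X q f φ χ else 0) =
        if χ ∈ 𝓖 then (χ⁻¹ : DirichletCharacter ℂ q) b * Tc X q f φ χ else 0 := by
      intro χ
      split_ifs
      · rfl
      · rw [mul_zero]
    rw [Finset.sum_congr rfl fun χ _ => h2 χ, ← Finset.sum_filter]
    congr 1
    ext χ
    simp
  unfold nq
  rw [← Finset.sum_congr rfl fun b _ => congrArg (fun z : ℂ => ‖z‖ ^ 2) (h1 b), h]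
  congr 2
  ext χ
  simp

theorem PG_univ (X q : ℕ) [NeZero q] (f : ℕ → ℝ) (φ : ℝ) (b : ZMod q) [Decidable (IsUnit b)] :
    PG X q f φ univ b = if IsUnit b then fz X q f φ b else 0 := by
  split_ifs with hb
  · rw [L2G.fz_char X q f φ b hb]
    rfl
  · unfold PG
    rw [Finset.sum_eq_zero, mul_zero]
    intro χ _
    rw [MulChar.map_nonunit _ hb, zero_mul]

theorem PG_le (X q : ℕ) [NeZero q] (f : ℕ → ℝ) (φ : ℝ) (𝓖 : Finset (DirichletCharacter ℂ q)) :
    nq (PG X q f φ 𝓖) ≤ VA X q f φ := by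
  classical
  have h1 : nq (PG X q f φ 𝓖) ≤ nq (PG X q f φ univ) := by
    rw [PG_sq, PG_sq]
    refine div_le_div_of_nonneg_right ?_ (Nat.cast_nonneg _)
    exact Finset.sum_le_sum_of_subset_of_nonneg (Finset.subset_univ _)
      fun χ _ _ => sq_nonneg _
  refine h1.trans ?_
  unfold nq VA
  refine Finset.sum_le_sum fun b _ => ?_
  rw [PG_univ]
  split_ifs
  · exact le_rfl
  · have h2 := sq_nonneg ‖fz X q f φ b‖
    rw [norm_zero, zero_pow two_ne_zero]
    exact h2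

theorem PG_add (X q : ℕ) (f g h : ℕ → ℝ) (hf : ∀ n ∈ Icc 1 X, f n = g n + h n) (φ : ℝ)
    (𝓖 : Finset (DirichletCharacter ℂ q)) (b : ZMod q) :
    PG X q f φ 𝓖 b = PG X q g φ 𝓖 b + PG X q h φ 𝓖 b := by
  have h1 : ∀ χ : DirichletCharacter ℂ q, Tc X q f φ χ = Tc X q g φ χ + Tc X q h φ χ := by
    intro χ
    unfold Tc
    rw [← Finset.sum_add_distrib]
    refine Finset.sum_congr rfl fun n hn => ?_
    rw [hf n hn]
    push_cast
    ring
  unfold PG
  rw [← mul_add, ← Finset.sum_add_distrib]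
  congr 1
  refine Finset.sum_congr rfl fun χ _ => ?_
  rw [h1 χ]
  ring

end Pool.MP_dd84fd_nt.EM
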