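import Pool.Agent.Lib.MP_dd84fd_nt.EM.BVM
import Pool.Agent.Lib.MP_dd84fd_nt.EM.CB
import Pool.Agent.Lib.MP_dd84fd_nt.EM.TwA
import Pool.Agent.Lib.MP_dd84fd_nt.EM.RepA
import Pool.Agent.Lib.MP_dd84fd_nt.EM.MiU
import Pool.Agent.Lib.MP_dd84fd_nt.L2G.ClassSplit
import Pool.Agent.Lib.MP_dd84fd_nt.L2G.Avg
import Pool.Agent.Lib.MP_dd84fd_nt.L2G.ArcQ
import Pool.Agent.Lib.MP_dd84fd_nt.L2G.ClassAlg
import Pool.Agent.Lib.MP_dd84fd_nt.L2G.ModelArith
import Pool.Agent.Lib.MP_dd84fd_nt.T7.Fz2Basic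
import Pool.Agent.Lib.MP_dd84fd_nt.T7.Fz2Split
import Pool.Agent.Lib.MP_dd84fd_nt.E2.FBound
import Pool.Agent.Lib.MP_dd84fd_nt.JX.JF1

/-!
# EM-X2 (1.2 h): `(P - p) * b`

`v = uI wP gP X w`, `b = fI gg X w`, `w = wX D' X`.
`x2_maj`: `θ ∈ MajQ`: `adp_ex`: `θ = c/(q t) + φ`, `Q = q t` (`PtT.pt`, `Qr th e X Q`).  `Fz2 X q v b θ a = cq (fz v θ) (fz b θ) a = Tw (cq (fz_Q v φ) (fz_Q b φ)) a` (`Tw_fz`, `Tw_cq`), a sum of `t` terms; for `a'` above `a`: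
`cq (fz_Q v) (fz_Q b) a' = Σ_x fz_Q v (x) [a' - x unit] E1 + Σ_x fz_Q v (x) R (a' - x)`, `Σ ‖R‖² ≤ X²/(Q L^(A₁))` (`cb A₁`).  The first is `E1 Σ_{n ≤ X, a' - n unit mod Q} v(n) e(n φ)`, `|E1| ≤ K0 X/φ(Q) ≤ 4 K0 X L/Q` and
`bvm (A + B + 4) B (K + B)` (`gcd(a',Q) ≤ gcd(a,q) t`, `split_gcd`).  The second `≤ (VA X Q v φ)^(1/2) (X²/(Q L^A₁))^(1/2) ≤ (2 X² L⁴/Q)^(1/2) (..)^(1/2)`, `A₁ = 2A + 2B + 8`.  Times `t ≤ L^B`.
`l2_X`: `mi_B (A + 6)` gives `B`; minor arcs: `‖Fz2‖² ≤ VA v VA b ≤ VA v X²/(q L^(A+6))`, `av VA v = Σ v² ≤ X L⁴`; major arcs: `x2_maj (A + B + 2)` squared times `16 q L^(2B)/X`.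
`W1` for `(wP, gP)`: `JX.w1P`; `|v n| ≤ 1 + L ≤ L²`.
-/

set_option autoImplicit false

namespace Pool.MP_dd84fd_nt.EM

open Finset Pool.MP_67663b_nt.Odd Pool.MP_dd84fd_nt.En Pool.MP_dd84fd_nt.E2
open Pool.MP_dd84fd_nt.HX Pool.MP_dd84fd_nt.IX
open Pool.MP_dd84fd_nt.JX (ZJ DecJ Str wP gP)
open Pool.MP_dd84fd_nt.L2G (fz VA VQ MajQ MinorHyp Tc Jc cv av gr Se)
open Pool.MP_dd84fd_nt.T7 (Fz2)

private theorem x2_VA_nonneg (X q : ℕ) [NeZero q] (f : ℕ → ℝ) (θ : ℝ) : 0 ≤ VA X q f θ :=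
  sum_nonneg fun b _ => by positivity

private theorem x2_log (c : ℝ) : ∃ X0 : ℕ, ∀ X : ℕ, X0 ≤ X → c ≤ Real.log X := by
  have hev : ∀ᶠ X : ℕ in Filter.atTop, c ≤ Real.log X :=
    (Real.tendsto_log_atTop.comp tendsto_natCast_atTop_atTop).eventually_ge_atTop c
  exact Filter.eventually_atTop.1 hev

private theorem x2_pow (B : ℕ) (e : ℝ) (he : 0 < e) : ∃ X0 : ℕ, ∀ X : ℕ, X0 ≤ X →
    Real.log (X : ℝ) ^ B ≤ (X : ℝ) ^ e := by
  have hevB : ∀ᶠ X : ℕ in Filter.atTop, Real.log (X : ℝ) ^ B ≤ (X : ℝ) ^ e := by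
    have h := (isLittleO_log_rpow_rpow_atTop (B : ℝ) he).bound one_pos
    have h2 := tendsto_natCast_atTop_atTop.eventually (α := ℕ) (β := ℝ) h
    filter_upwards [h2, Filter.eventually_ge_atTop 1] with X hX hX1
    have hX1r : (1 : ℝ) ≤ (X : ℝ) := by exact_mod_cast hX1
    have hl : 0 ≤ Real.log (X : ℝ) := Real.log_nonneg hX1r
    rw [Real.norm_of_nonneg (Real.rpow_nonneg hl _),
      Real.norm_of_nonneg (Real.rpow_nonneg (by linarith) _), one_mul, Real.rpow_natCast] at hX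
    exact hX
  exact Filter.eventually_atTop.1 hevB

/-- `|v n| ≤ L²` -/
private theorem x2_v (D' : ℕ) : ∃ X0 : ℕ, ∀ X : ℕ, X0 ≤ X → ∀ n : ℕ,
    |uI wP gP X (wX D' X) n| ≤ Real.log X ^ 2 := by
  obtain ⟨X1, h1⟩ := f1_le D'
  obtain ⟨X2, h2⟩ := x2_log 3
  refine ⟨max X1 X2, fun X hX n => ?_⟩
  have hL := h2 X ((le_max_right _ _).trans hX)
  have hw : ((wX D' X : ℕ) : ℝ) ≤ Real.log X ^ D' := by
    unfold wX
    exact Nat.floor_le (by positivity)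
  have hf := (h1 X ((le_max_left _ _).trans hX) (wX D' X) hw).2 n
  have hf0 := f1_nonneg (wX D' X) n
  have hg := Pool.MP_dd84fd_nt.JX.gP_abs X n
  have hwP : 0 ≤ wP X n ∧ wP X n ≤ 1 := by
    unfold wP
    split_ifs <;> norm_num
  have h3 : gP X n * f1 (wX D' X) n ≤ 2 * Real.log X :=
    mul_le_mul hg.2 hf hf0 (by norm_num)
  have h4 : 0 ≤ gP X n * f1 (wX D' X) n := mul_nonneg hg.1 hf0
  unfold uI fI
  rw [abs_le]
  constructor <;> nlinarith [hwP.1, hwP.2]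

private theorem x2_sum {X : ℕ} {v : ℕ → ℝ} {L : ℝ} (h : ∀ n, |v n| ≤ L ^ 2) :
    ∑ n ∈ Icc 1 X, v n ^ 2 ≤ X * L ^ 4 := by
  calc ∑ n ∈ Icc 1 X, v n ^ 2 ≤ ∑ n ∈ Icc 1 X, L ^ 4 := by
        refine Finset.sum_le_sum fun n _ => ?_
        have h1 := pow_le_pow_left₀ (abs_nonneg _) (h n) 2
        rw [sq_abs] at h1
        calc v n ^ 2 ≤ (L ^ 2) ^ 2 := h1
          _ = L ^ 4 := by ring
    _ = X * L ^ 4 := by
        rw [Finset.sum_const, Nat.card_Icc, nsmul_eq_mul]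
        simp

open Classical in
private theorem x2_one (X Q : ℕ) [NeZero Q] (v b : ℕ → ℝ) (φ : ℝ) (E : ℂ) (a' : ZMod Q)
    {S V R1 : ℝ}
    (hS : ‖∑ n ∈ (Icc 1 X).filter (fun n : ℕ => IsUnit (a' - (n : ZMod Q))),
      (v n : ℂ) * ee (n * φ)‖ ≤ S) (hV : VA X Q v φ ≤ V)
    (hR : ∑ x : ZMod Q, ‖fz X Q b φ x - (if IsUnit x then E else 0)‖ ^ 2 ≤ R1) :
    ‖Fz2 X Q v b φ a'‖ ≤ ‖E‖ * S + Real.sqrt (V * R1) := by
  have h1 : Fz2 X Q v b φ a' =
      E * ∑ n ∈ (Icc 1 X).filter (fun n : ℕ => IsUnit (a' - (n : ZMod Q))),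
        (v n : ℂ) * ee (n * φ) + ∑ x : ZMod Q, fz X Q v φ x *
        (fz X Q b φ (a' - x) - (if IsUnit (a' - x) then E else 0)) := by
    rw [T7.Fz2_eq]
    have h2 : ∑ n ∈ (Icc 1 X).filter (fun n : ℕ => IsUnit (a' - (n : ZMod Q))),
        (v n : ℂ) * ee (n * φ) =
        ∑ x : ZMod Q, if IsUnit (a' - x) then fz X Q v φ x else 0 := by
      rw [← Finset.sum_fiberwise ((Icc 1 X).filter (fun n : ℕ => IsUnit (a' - (n : ZMod Q))))
        (fun n : ℕ => (n : ZMod Q))]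
      refine Finset.sum_congr rfl fun x _ => ?_
      split_ifs with hx
      · unfold fz
        refine Finset.sum_congr ?_ fun _ _ => rfl
        ext n
        simp only [mem_filter]
        constructor
        · rintro ⟨⟨h3, _⟩, h5⟩
          exact ⟨h3, h5⟩
        · rintro ⟨h3, h5⟩
          exact ⟨⟨h3, by rw [h5]; exact hx⟩, h5⟩
      · refine Finset.sum_eq_zero fun n hn => ?_
        rw [mem_filter, mem_filter] at hn
        rw [hn.2] at hn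
        exact absurd hn.1.2 hx
    rw [h2, Finset.mul_sum, ← Finset.sum_add_distrib]
    refine Finset.sum_congr rfl fun x _ => ?_
    split_ifs <;> ring
  have h3 : ∑ x : ZMod Q, ‖fz X Q b φ (a' - x) - (if IsUnit (a' - x) then E else 0)‖ ^ 2 =
      ∑ x : ZMod Q, ‖fz X Q b φ x - (if IsUnit x then E else 0)‖ ^ 2 :=
    Fintype.sum_equiv (Equiv.subLeft a') _ _ fun x => rfl
  have h4 : ‖∑ x : ZMod Q, fz X Q v φ x *
      (fz X Q b φ (a' - x) - (if IsUnit (a' - x) then E else 0))‖ ≤ Real.sqrt (V * R1) := by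
    refine Real.le_sqrt_of_sq_le ?_
    calc ‖∑ x : ZMod Q, fz X Q v φ x *
          (fz X Q b φ (a' - x) - (if IsUnit (a' - x) then E else 0))‖ ^ 2
        ≤ (∑ x : ZMod Q, ‖fz X Q v φ x‖ *
          ‖fz X Q b φ (a' - x) - (if IsUnit (a' - x) then E else 0)‖) ^ 2 := by
          refine pow_le_pow_left₀ (norm_nonneg _) ?_ 2
          refine (norm_sum_le _ _).trans (le_of_eq ?_)
          exact Finset.sum_congr rfl fun b _ => norm_mul _ _
      _ ≤ (∑ x : ZMod Q, ‖fz X Q v φ x‖ ^ 2) *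
          ∑ x : ZMod Q, ‖fz X Q b φ (a' - x) - (if IsUnit (a' - x) then E else 0)‖ ^ 2 :=
          Finset.sum_mul_sq_le_sq_mul_sq univ _ _
      _ ≤ V * R1 := by
          rw [h3]
          exact mul_le_mul hV hR (Finset.sum_nonneg fun _ _ => by positivity)
            ((x2_VA_nonneg X Q v φ).trans hV)
  rw [h1]
  refine (norm_add_le _ _).trans (add_le_add ?_ h4)
  rw [norm_mul]
  exact mul_le_mul_of_nonneg_left hS (norm_nonneg _)

private theorem x2_Se {X : ℕ} {g : ℕ → ℝ} {K0 : ℝ} (h : ∀ n, |g n| ≤ K0) (β : ℝ) :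
    ‖Se X g β‖ ≤ K0 * X := by
  unfold Se
  calc ‖∑ n ∈ Icc 1 X, (g n : ℂ) * ee (n * β)‖ ≤ ∑ n ∈ Icc 1 X, K0 := by
        refine (norm_sum_le _ _).trans (Finset.sum_le_sum fun n _ => ?_)
        rw [norm_mul, norm_ee, mul_one, Complex.norm_real, Real.norm_eq_abs]
        exact h n
    _ = K0 * X := by
        rw [Finset.sum_const, Nat.card_Icc, nsmul_eq_mul]
        simp [mul_comm]

private theorem x2_E1 {X Q r : ℕ} {gg : ℕ → ℕ → ℝ} {K0 : ℝ} (hK : 0 ≤ K0)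
    (h : ∀ n, |gg X n| ≤ K0) (β : ℝ) (hr : 1 ≤ r) (hQ : 1 ≤ Q) (hQX : Q ≤ X)
    (hL : 1 ≤ Real.log X) :
    ‖E1 gg X Q r β‖ ≤ 4 * K0 * X * Real.log X / Q := by
  have h1 := x2_Se (X := X) (g := gg X) h β
  have hQ0 : (0 : ℝ) < Q := by exact_mod_cast hQ
  have hX0 : (0 : ℝ) ≤ X := Nat.cast_nonneg X
  have h2 := L2G.totient_lower Q hQ
  have h3 : Real.log (Q : ℝ) ≤ Real.log X := Real.log_le_log hQ0 (by exact_mod_cast hQX)
  have ht : (0 : ℝ) < Nat.totient Q := by exact_mod_cast Nat.totient_pos.2 hQ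
  have hr0 : (1 : ℝ) ≤ Nat.totient r := by exact_mod_cast Nat.totient_pos.2 hr
  have h4 : (Q : ℝ) ≤ Nat.totient Q * (4 * Real.log X) :=
    h2.trans (mul_le_mul_of_nonneg_left (by linarith) ht.le)
  have hmu : |(((ArithmeticFunction.moebius r : ℤ) : ℝ))| ≤ 1 := by
    have := ArithmeticFunction.abs_moebius_le_one (n := r)
    exact_mod_cast this
  have h5 : |((ArithmeticFunction.moebius r : ℤ) : ℝ) /
      ((Nat.totient r : ℝ) * (Nat.totient Q : ℝ))| ≤ 4 * Real.log X / Q := by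
    rw [abs_div, abs_of_pos (a := (Nat.totient r : ℝ) * (Nat.totient Q : ℝ)) (by positivity),
      div_le_div_iff₀ (by positivity) hQ0]
    calc |((ArithmeticFunction.moebius r : ℤ) : ℝ)| * Q ≤ 1 * (Nat.totient Q * (4 * Real.log X)) :=
          mul_le_mul hmu h4 hQ0.le zero_le_one
      _ ≤ 4 * Real.log X * ((Nat.totient r : ℝ) * (Nat.totient Q : ℝ)) := by
          have h6 : 0 ≤ (Nat.totient Q : ℝ) * (4 * Real.log X) := by positivity
          nlinarith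
  unfold E1
  rw [norm_mul, Complex.norm_real, Real.norm_eq_abs]
  calc _ ≤ (4 * Real.log X / Q) * (K0 * X) :=
        mul_le_mul h5 h1 (norm_nonneg _) (by positivity)
    _ = 4 * K0 * X * Real.log X / Q := by ring

private theorem x2_num {L X Q K0 : ℝ} (A : ℕ) (hL : 8 ≤ L) (hK : 8 * K0 ≤ L) (hX : 0 < X)
    (hQ : 0 < Q) (hK0 : 0 ≤ K0) :
    4 * K0 * X * L / Q * (X / L ^ (A + 3)) +
      Real.sqrt (2 * X ^ 2 * L ^ 4 / Q * (X ^ 2 / (Q * L ^ (2 * A + 5)))) ≤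
      X ^ 2 / (Q * L ^ A) := by
  have hL0 : 0 < L := by linarith
  have h1 : 4 * K0 * X * L / Q * (X / L ^ (A + 3)) ≤ 1 / 2 * (X ^ 2 / (Q * L ^ A)) := by
    have e1 : 4 * K0 * X * L / Q * (X / L ^ (A + 3)) =
        (4 * K0 / L ^ 2) * (X ^ 2 / (Q * L ^ A)) := by
      rw [pow_add]
      field_simp
    rw [e1]
    refine mul_le_mul_of_nonneg_right ?_ (by positivity)
    rw [div_le_iff₀ (by positivity)]
    nlinarith
  have h2 : Real.sqrt (2 * X ^ 2 * L ^ 4 / Q * (X ^ 2 / (Q * L ^ (2 * A + 5)))) ≤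
      1 / 2 * (X ^ 2 / (Q * L ^ A)) := by
    refine Real.sqrt_le_iff.2 ⟨by positivity, ?_⟩
    have e2 : 2 * X ^ 2 * L ^ 4 / Q * (X ^ 2 / (Q * L ^ (2 * A + 5))) =
        (2 / L) * (X ^ 2 / (Q * L ^ A)) ^ 2 := by
      have : L ^ (2 * A + 5) = L ^ A * L ^ A * L ^ 5 := by ring
      rw [this]
      field_simp
    have e3 : (1 / 2 * (X ^ 2 / (Q * L ^ A))) ^ 2 = (1 / 4) * (X ^ 2 / (Q * L ^ A)) ^ 2 := by ring
    rw [e2, e3]
    refine mul_le_mul_of_nonneg_right ?_ (by positivity)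
    rw [div_le_iff₀ hL0]
    linarith
  linarith

theorem x2_maj (A B K K0 C1 : ℕ) : ∃ D0 : ℕ, ∀ D' : ℕ, D0 ≤ D' → ∀ th e τ : ℝ, AdE th e τ →
    ∀ ww gg : ℕ → ℕ → ℝ, W1 K0 C1 ww gg → ∃ X0 : ℕ, ∀ X : ℕ, X0 ≤ X →
    ∀ (q : ℕ) [NeZero q], (q : ℝ) ≤ (X : ℝ) ^ (1 - th) → ∀ θ ∈ MajQ X q B, ∀ a : ZMod q,
    (Nat.gcd a.val q : ℝ) ≤ Real.log X ^ K →
    ‖Fz2 X q (uI wP gP X (wX D' X)) (fI gg X (wX D' X)) θ a‖ ≤
      X ^ 2 / (q * Real.log X ^ A) := by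
  obtain ⟨D1, hD1⟩ := bvm (A + 3) B (K + B)
  obtain ⟨D2, hD2⟩ := cb (2 * A + 5) B K0 C1
  refine ⟨max D1 D2, fun D' hD' th e τ hAd ww gg hW => ?_⟩
  obtain ⟨X1, hX1⟩ := hD1 D' ((le_max_left _ _).trans hD')
  obtain ⟨X2, hX2⟩ := hD2 D' ((le_max_right _ _).trans hD') th e τ hAd ww gg hW
  obtain ⟨X3, hX3⟩ := hW
  obtain ⟨X4, hX4⟩ := x2_v D'
  obtain ⟨X5, hX5⟩ := x2_log (8 + 8 * (K0 : ℝ))
  obtain ⟨X6, hX6⟩ := x2_pow B e hAd.2.2.1
  refine ⟨max (max (max X1 X2) (max X3 X4)) (max (max X5 X6) 3), ?_⟩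
  intro X hX q _ hq θ hθ a ha
  have g1 : X1 ≤ X := (le_max_left _ _).trans ((le_max_left _ _).trans ((le_max_left _ _).trans hX))
  have g2 : X2 ≤ X :=
    (le_max_right _ _).trans ((le_max_left _ _).trans ((le_max_left _ _).trans hX))
  have g3 : X3 ≤ X :=
    (le_max_left _ _).trans ((le_max_right _ _).trans ((le_max_left _ _).trans hX))
  have g4 : X4 ≤ X :=
    (le_max_right _ _).trans ((le_max_right _ _).trans ((le_max_left _ _).trans hX))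
  have g5 : X5 ≤ X :=
    (le_max_left _ _).trans ((le_max_left _ _).trans ((le_max_right _ _).trans hX))
  have g6 : X6 ≤ X :=
    (le_max_right _ _).trans ((le_max_left _ _).trans ((le_max_right _ _).trans hX))
  have g7 : 3 ≤ X := (le_max_right _ _).trans ((le_max_right _ _).trans hX)
  have hL := hX5 X g5
  have hLe := hX6 X g6
  have hK0 : (0 : ℝ) ≤ K0 := Nat.cast_nonneg _
  have hL8 : 8 ≤ Real.log X := by linarith
  have hXr : (3 : ℝ) ≤ X := by exact_mod_cast g7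
  have hXp : (0 : ℝ) < X := by linarith
  have hq1 : 1 ≤ q := NeZero.one_le
  have hq0 : (0 : ℝ) < q := by exact_mod_cast hq1
  obtain ⟨t, c, φ, hct, hPt, hθe⟩ := adp_ex X q B (by omega) hq1 θ hθ
  obtain ⟨r, y, β, hpt, hφ⟩ := hPt.pt (by omega) (by linarith)
  obtain ⟨ht1, _, r', _, _, hr'1, htr', _, _, _, _⟩ := hPt
  have ht1r : (1 : ℝ) ≤ t := by exact_mod_cast ht1
  have htL : (t : ℝ) ≤ Real.log X ^ B := by
    have h1 : (1 : ℝ) ≤ r' := by exact_mod_cast hr'1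
    nlinarith
  haveI : NeZero t := ⟨by omega⟩
  have hQ1 : 1 ≤ q * t := Nat.mul_pos hq1 ht1
  have hQ0 : (0 : ℝ) < ((q * t : ℕ) : ℝ) := by exact_mod_cast hQ1
  obtain ⟨e1, e2, e3, e4, e5⟩ := hAd
  have hQr : Qr th e X (q * t) := by
    unfold Qr
    push_cast
    calc (q : ℝ) * t ≤ (X : ℝ) ^ (1 - th) * (X : ℝ) ^ e :=
          mul_le_mul hq (htL.trans hLe) (by linarith) (by positivity)
      _ = (X : ℝ) ^ (1 - th + e) := (Real.rpow_add hXp _ _).symm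
  have hQX : q * t ≤ X := by
    have h1 : ((q * t : ℕ) : ℝ) ≤ X := by
      refine hQr.trans ?_
      calc (X : ℝ) ^ (1 - th + e) ≤ (X : ℝ) ^ (1 : ℝ) :=
            Real.rpow_le_rpow_of_exponent_le (by linarith) (by linarith)
        _ = X := Real.rpow_one _
    exact_mod_cast h1
  have hgg : ∀ n, |gg X n| ≤ K0 := fun n => ((hX3 X g3).1 n).2
  have hE := x2_E1 (Q := q * t) (r := r) hK0 hgg β hpt.1 hQ1 hQX (by linarith)
  have hv := hX4 X g4
  have hV : VA X (q * t) (uI wP gP X (wX D' X)) φ ≤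
      2 * (X : ℝ) ^ 2 * Real.log X ^ 4 / ((q * t : ℕ) : ℝ) := by
    refine (L2G.VA_trivial X (q * t) _ φ).trans ?_
    have h1 := x2_sum (X := X) hv
    have h2 : (X : ℝ) / ((q * t : ℕ) : ℝ) + 1 ≤ 2 * X / ((q * t : ℕ) : ℝ) := by
      have h3 : (1 : ℝ) ≤ X / ((q * t : ℕ) : ℝ) := by
        rw [one_le_div hQ0]
        exact_mod_cast hQX
      have h4 : 2 * (X : ℝ) / ((q * t : ℕ) : ℝ) = X / ((q * t : ℕ) : ℝ) + X / ((q * t : ℕ) : ℝ) := by
        ring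
      linarith
    calc _ ≤ (2 * X / ((q * t : ℕ) : ℝ)) * (X * Real.log X ^ 4) :=
          mul_le_mul h2 h1 (Finset.sum_nonneg fun _ _ => sq_nonneg _) (by positivity)
      _ = _ := by ring
  have hR := hX2 X g2 (q * t) hQr r y β hpt
  rw [← hφ] at hR
  rw [hθe]
  have hsp := T7.Fz2_split X q t (uI wP gP X (wX D' X)) (fI gg X (wX D' X)) (fun _ => 0)
    (fun _ => 0) φ c a
  have hz : ∀ (m : ℕ) (x : ℝ) (z : ZMod m), Fz2 X m (fun _ => 0) (fun _ => 0) x z = 0 := by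
    intro m x z
    unfold T7.Fz2 L2G.cv
    simp
  simp only [hz, sub_zero] at hsp
  refine hsp.trans ?_
  calc _ ≤ ∑ a' ∈ univ.filter (fun a' : ZMod (q * t) => ((a'.val : ℕ) : ZMod q) = a),
        X ^ 2 / (((q * t : ℕ) : ℝ) * Real.log X ^ A) := by
        refine Finset.sum_le_sum fun a' ha' => ?_
        rw [Finset.mem_filter] at ha'
        have hgcd := L2G.split_gcd q t a a' ha'.2
        have hgcd2 : (Nat.gcd a'.val (q * t) : ℝ) ≤ Real.log X ^ (K + B) := by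
          have h1 : ((Nat.gcd a'.val (q * t) : ℕ) : ℝ) ≤ ((Nat.gcd a.val q * t : ℕ) : ℝ) := by
            exact_mod_cast hgcd
          refine h1.trans ?_
          push_cast
          rw [pow_add]
          exact mul_le_mul ha htL (by linarith) (by positivity)
        have hS := hX1 X g1 (q * t) hQX r y β hpt a' hgcd2
        rw [← hφ] at hS
        refine (x2_one X (q * t) (uI wP gP X (wX D' X)) (fI gg X (wX D' X)) φ
          (E1 gg X (q * t) r β) a' hS hV hR).trans ?_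
        refine le_trans ?_ (x2_num (K0 := K0) A hL8 (by linarith) hXp hQ0 hK0)
        refine add_le_add ?_ le_rfl
        exact mul_le_mul_of_nonneg_right hE (by positivity)
    _ = X ^ 2 / (q * Real.log X ^ A) := by
        rw [Finset.sum_const, L2G.split_card, nsmul_eq_mul]
        have ht0 : (t : ℝ) ≠ 0 := by linarith
        have hLA : Real.log X ^ A ≠ 0 := pow_ne_zero _ (by linarith)
        push_cast
        field_simp

theorem l2_X (hS : StrE) (A K K0 C1 : ℕ) : ∃ D0 : ℕ, ∀ D' : ℕ, D0 ≤ D' → ∀ th e τ : ℝ,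
    AdE th e τ → ∀ ww gg : ℕ → ℕ → ℝ, W1 K0 C1 ww gg → ∃ X0 : ℕ, ∀ X : ℕ, X0 ≤ X →
    ∀ (q : ℕ) [NeZero q], (q : ℝ) ≤ (X : ℝ) ^ (1 - th) → ∀ a : ZMod q,
    (Nat.gcd a.val q : ℝ) ≤ Real.log X ^ K →
    av (gr X) (fun θ => ‖Fz2 X q (uI wP gP X (wX D' X))
      (fI gg X (wX D' X)) θ a‖ ^ 2) ≤ X ^ 3 / (q * Real.log X ^ A) := by
  obtain ⟨B, hB⟩ := mi_B hS (A + 6) K0 C1
  obtain ⟨D1, hD1⟩ := hB B le_rfl
  obtain ⟨D2, hD2⟩ := x2_maj (A + B + 2) B K K0 C1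
  refine ⟨max D1 D2, fun D' hD' th e τ hAd ww gg hW => ?_⟩
  obtain ⟨X1, hX1⟩ := hD1 D' ((le_max_left _ _).trans hD') th e τ hAd ww gg hW
  obtain ⟨X2, hX2⟩ := hD2 D' ((le_max_right _ _).trans hD') th e τ hAd ww gg hW
  obtain ⟨X4, hX4⟩ := x2_v D'
  obtain ⟨X5, hX5⟩ := x2_log 8
  obtain ⟨X6, hX6⟩ := x2_pow B th (by linarith [hAd.1])
  refine ⟨max (max X1 X2) (max (max X4 X5) (max X6 3)), ?_⟩
  intro X hX q _ hq a ha
  have g1 : X1 ≤ X := (le_max_left _ _).trans ((le_max_left _ _).trans hX)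
  have g2 : X2 ≤ X := (le_max_right _ _).trans ((le_max_left _ _).trans hX)
  have g4 : X4 ≤ X :=
    (le_max_left _ _).trans ((le_max_left _ _).trans ((le_max_right _ _).trans hX))
  have g5 : X5 ≤ X :=
    (le_max_right _ _).trans ((le_max_left _ _).trans ((le_max_right _ _).trans hX))
  have g6 : X6 ≤ X :=
    (le_max_left _ _).trans ((le_max_right _ _).trans ((le_max_right _ _).trans hX))
  have g7 : 3 ≤ X :=
    (le_max_right _ _).trans ((le_max_right _ _).trans ((le_max_right _ _).trans hX))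
  have hL8 := hX5 X g5
  have hLB := hX6 X g6
  have hv := hX4 X g4
  have hXr : (3 : ℝ) ≤ X := by exact_mod_cast g7
  have hXp : (0 : ℝ) < X := by linarith
  have hq1 : 1 ≤ q := NeZero.one_le
  have hq0 : (0 : ℝ) < q := by exact_mod_cast hq1
  have hqB : (q : ℝ) * Real.log X ^ B ≤ X := by
    calc (q : ℝ) * Real.log X ^ B ≤ (X : ℝ) ^ (1 - th) * (X : ℝ) ^ th :=
          mul_le_mul hq hLB (by positivity) (by positivity)
      _ = X := by
          rw [← Real.rpow_add hXp]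
          norm_num
  have hQr : Qr th e X q :=
    hq.trans (Real.rpow_le_rpow_of_exponent_le (by linarith) (by linarith [hAd.2.2.1]))
  have hmeas := L2G.major_measure X q B g7 hq1
  set L : ℝ := Real.log X with hLdef
  set v : ℕ → ℝ := uI wP gP X (wX D' X) with hvdef
  set b : ℕ → ℝ := fI gg X (wX D' X) with hbdef
  set M1 : ℝ := (X ^ 2 / (q * L ^ (A + B + 2))) ^ 2 with hM1
  set M0 : ℝ := X ^ 2 / (q * L ^ (A + 6)) with hM0
  have hL0 : 0 < L := by linarith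
  have hM10 : 0 ≤ M1 := by positivity
  have hM00 : 0 ≤ M0 := by positivity
  have hpt : ∀ θ : ℝ, ‖Fz2 X q v b θ a‖ ^ 2 ≤
      M1 * (MajQ X q B).indicator (fun _ => 1) θ + M0 * VA X q v θ := by
    intro θ
    have hv1 := x2_VA_nonneg X q v θ
    by_cases h : θ ∈ MajQ X q B
    · rw [Set.indicator_of_mem h, mul_one]
      have h1 := hX2 X g2 q hq θ h a ha
      have h2 : ‖Fz2 X q v b θ a‖ ^ 2 ≤ M1 := pow_le_pow_left₀ (norm_nonneg _) h1 2
      have h3 : 0 ≤ M0 * VA X q v θ := mul_nonneg hM00 hv1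
      linarith
    · rw [Set.indicator_of_notMem h, mul_zero, zero_add]
      obtain ⟨r, c, hrc⟩ := L2G.minor_hyp X q B g7 hq1 hqB θ h
      have h1 := hX1 X g1 q hQr θ r c hrc
      have h3 := T7.Fz2_sq X q v b θ a
      have h5 : VA X q v θ * VA X q b θ ≤ VA X q v θ * M0 := mul_le_mul_of_nonneg_left h1 hv1
      linarith
  refine (L2G.av_mono hpt).trans ?_
  rw [L2G.av_add, L2G.av_mul_left, L2G.av_mul_left, L2G.av_VA]
  have hsum := x2_sum (X := X) hv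
  calc M1 * av (gr X) ((MajQ X q B).indicator fun _ => 1) + M0 * ∑ n ∈ Icc 1 X, v n ^ 2
      ≤ M1 * (16 * q * L ^ (2 * B) / X) + M0 * (X * L ^ 4) :=
        add_le_add (mul_le_mul_of_nonneg_left hmeas hM10) (mul_le_mul_of_nonneg_left hsum hM00)
    _ = X ^ 3 / (q * L ^ A) * (16 / L ^ (A + 4) + 1 / L ^ 2) := by
        rw [hM1, hM0]
        have e1 : L ^ (A + B + 2) = L ^ A * L ^ B * L ^ 2 := by ring
        have e2 : L ^ (2 * B) = L ^ B * L ^ B := by ring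
        have e3 : L ^ (A + 6) = L ^ A * L ^ 6 := by ring
        have e4 : L ^ (A + 4) = L ^ A * L ^ 4 := by ring
        rw [e1, e2, e3, e4]
        field_simp
    _ ≤ X ^ 3 / (q * L ^ A) * 1 := by
        refine mul_le_mul_of_nonneg_left ?_ (by positivity)
        have h1 : (16 : ℝ) / L ^ (A + 4) ≤ 1 / 2 := by
          rw [div_le_iff₀ (by positivity)]
          have : (8 : ℝ) ^ 4 ≤ L ^ (A + 4) := by
            calc (8 : ℝ) ^ 4 ≤ L ^ 4 := pow_le_pow_left₀ (by norm_num) hL8 4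
              _ ≤ L ^ (A + 4) := pow_le_pow_right₀ (by linarith) (by omega)
          linarith
        have h2 : (1 : ℝ) / L ^ 2 ≤ 1 / 2 := by
          rw [div_le_div_iff₀ (by positivity) (by norm_num)]
          nlinarith
        linarith
    _ = X ^ 3 / (q * L ^ A) := mul_one _

end Pool.MP_dd84fd_nt.EM
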