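import Pool.Agent.Lib.MP_dd84fd_nt.EM.AvH
import Pool.Agent.Lib.MP_dd84fd_nt.EM.H3b
import Pool.Agent.Lib.MP_dd84fd_nt.EM.PF2
import Pool.Agent.Lib.MP_dd84fd_nt.EM.X2

/-!
# EM-L2B (1.2 h): the two mean squares in a class

`w = wX D' X`, `b = fI gg X w`, `u = uI ww gg X w` (`ww X n = u n + b n`), `p = fI gP X w`, `v = uI wP gP X w` (`wP X n = v n + p n`).
`Fz2` is bilinear and symmetric (`T7.Fz2_eq`; `fz` is linear in `f`; private lemmas), and `T7.Fz2_pars` turns the sums into `av (gr X) ‖Fz2 .. - Fz2 ..‖²`.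
`l2_BB`: `Fz2 ww ww - Fz2 b b = Fz2 u u + 2 Fz2 b u`, `‖.‖² ≤ 2 ‖Fz2 u u‖² + 8 ‖Fz2 b u‖²`: `l2_U (A + 4)`, `l2_H (A + 4)` with `h = b` (`|b n| ≤ K0 L ≤ L²`, `f1_le`), `H3` from `h3_b A' B (K + B) K0 C1`.
`l2_PB`: `Fz2 wP ww - Fz2 p b = Fz2 wP u + Fz2 v b`: `l2_H (A + 2)` with `h = wP X` (`|wP| ≤ 1`), `H3` from `h3_P A' B (K + B)`, and `l2_X (A + 2)`.
Order: `Bd = ` max of the two (three) `Bd`; the hypothesis `DecJ Bd` for the larger `Bd` implies the smaller (error `X/L^Bd`); `C' , B` from `l2_H`; then `A'`, then `D1` from `h3_b`/`h3_P`; then `D0` = max; `X0` = max.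
-/

set_option autoImplicit false

namespace Pool.MP_dd84fd_nt.EM

open Finset Pool.MP_67663b_nt.Odd Pool.MP_dd84fd_nt.En Pool.MP_dd84fd_nt.E2
open Pool.MP_dd84fd_nt.HX Pool.MP_dd84fd_nt.IX
open Pool.MP_dd84fd_nt.JX (ZJ DecJ Str wP gP)
open Pool.MP_dd84fd_nt.L2G (fz VA VQ MajQ MinorHyp Tc Jc cv av gr Se)
open Pool.MP_dd84fd_nt.T7 (Fz2)

private theorem l2b_log (c : ℝ) : ∃ X0 : ℕ, ∀ X : ℕ, X0 ≤ X → c ≤ Real.log X := by
  have h := (Real.tendsto_log_atTop.comp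
    (tendsto_natCast_atTop_atTop (R := ℝ))).eventually_ge_atTop c
  obtain ⟨N, hN⟩ := Filter.eventually_atTop.1 h
  exact ⟨N, fun X hX => hN X hX⟩

private theorem l2b_dec {B B' C2 : ℕ} {th e τ : ℝ} {ww : ℕ → ℕ → ℝ} (hB : B' ≤ B)
    (h : DecJ B C2 th e τ ww) : DecJ B' C2 th e τ ww := by
  obtain ⟨X0, hX0⟩ := h
  obtain ⟨X1, hX1⟩ := l2b_log 1
  refine ⟨max X0 X1, fun X hX => ?_⟩
  obtain ⟨I, γ, α, M, K, a, c, err, h1, h2, h3, h4, h5, h6, h7, h8, h9⟩ := hX0 X (by omega)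
  refine ⟨I, γ, α, M, K, a, c, err, h1, h2, h3, h4, h5, h6, h7, h8, h9.trans ?_⟩
  have hL := hX1 X (by omega)
  have hX' : (0 : ℝ) ≤ X := by positivity
  exact div_le_div_of_nonneg_left hX' (by positivity) (pow_le_pow_right₀ hL hB)

private theorem l2b_add (X : ℕ) (f f' g : ℕ → ℝ) (n : ℕ) :
    cv X (fun m => f m + f' m) g n = cv X f g n + cv X f' g n := by
  unfold cv
  rw [← sum_add_distrib]
  refine sum_congr rfl fun m _ => ?_
  rw [← sum_add_distrib]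
  refine sum_congr rfl fun k _ => ?_
  split_ifs
  · ring
  · ring

private theorem l2b_comm (X : ℕ) (f g : ℕ → ℝ) (n : ℕ) : cv X f g n = cv X g f n := by
  unfold cv
  rw [sum_comm]
  refine sum_congr rfl fun m _ => sum_congr rfl fun k _ => ?_
  rw [add_comm k m, mul_comm]

private theorem l2b_pars (X q : ℕ) [NeZero q] (f g : ℕ → ℝ) (a : ZMod q) :
    ∑ n ∈ (range (2 * X + 1)).filter (fun n : ℕ => (n : ZMod q) = a), cv X f g n ^ 2 =
      av (gr X) (fun θ => ‖Fz2 X q f g θ a‖ ^ 2) := by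
  have h0 : ∀ n, cv X (fun _ => (0 : ℝ)) (fun _ => (0 : ℝ)) n = 0 := by
    intro n
    unfold cv
    simp
  have h1 : ∀ θ : ℝ, Fz2 X q (fun _ => (0 : ℝ)) (fun _ => (0 : ℝ)) θ a = 0 := by
    intro θ
    unfold Fz2
    simp [h0]
  have h := T7.Fz2_pars X q f g (fun _ => 0) (fun _ => 0) a
  simp only [h0, h1, sub_zero] at h
  exact h

private theorem l2b_two (X q : ℕ) [NeZero q] (a : ZMod q) (F f1' g1 f2 g2 : ℕ → ℝ) (c S1 S2 : ℝ)
    (hF : ∀ n, F n = cv X f1' g1 n + c * cv X f2 g2 n)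
    (h1 : av (gr X) (fun θ => ‖Fz2 X q f1' g1 θ a‖ ^ 2) ≤ S1)
    (h2 : av (gr X) (fun θ => ‖Fz2 X q f2 g2 θ a‖ ^ 2) ≤ S2) :
    ∑ n ∈ (range (2 * X + 1)).filter (fun n : ℕ => (n : ZMod q) = a), F n ^ 2 ≤
      2 * S1 + 2 * c ^ 2 * S2 := by
  rw [← l2b_pars] at h1 h2
  calc ∑ n ∈ (range (2 * X + 1)).filter (fun n : ℕ => (n : ZMod q) = a), F n ^ 2
      ≤ ∑ n ∈ (range (2 * X + 1)).filter (fun n : ℕ => (n : ZMod q) = a),
          (2 * cv X f1' g1 n ^ 2 + 2 * c ^ 2 * cv X f2 g2 n ^ 2) := by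
        refine sum_le_sum fun n _ => ?_
        rw [hF]
        nlinarith [sq_nonneg (cv X f1' g1 n - c * cv X f2 g2 n)]
    _ = 2 * ∑ n ∈ (range (2 * X + 1)).filter (fun n : ℕ => (n : ZMod q) = a), cv X f1' g1 n ^ 2 +
          2 * c ^ 2 *
            ∑ n ∈ (range (2 * X + 1)).filter (fun n : ℕ => (n : ZMod q) = a), cv X f2 g2 n ^ 2 := by
        rw [sum_add_distrib, mul_sum, mul_sum]
    _ ≤ 2 * S1 + 2 * c ^ 2 * S2 := by
        have := mul_le_mul_of_nonneg_left h2 (by positivity : (0 : ℝ) ≤ 2 * c ^ 2)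
        linarith

private theorem l2b_b (K0 C1 D' : ℕ) (ww gg : ℕ → ℕ → ℝ) (hW : W1 K0 C1 ww gg) :
    ∃ X0 : ℕ, ∀ X : ℕ, X0 ≤ X → ∀ n, |fI gg X (wX D' X) n| ≤ Real.log X ^ 2 := by
  obtain ⟨X1, hX1⟩ := hW
  obtain ⟨X2, hX2⟩ := f1_le D'
  obtain ⟨X3, hX3⟩ := l2b_log (K0 + 1)
  refine ⟨max (max X1 X2) X3, fun X hX n => ?_⟩
  have e1 : X1 ≤ X := by omega
  have e2 : X2 ≤ X := by omega
  have e3 : X3 ≤ X := by omega
  have hL := hX3 X e3
  have hK : (0 : ℝ) ≤ K0 := by positivity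
  have hL1 : 1 ≤ Real.log X := by linarith
  have hwle : ((wX D' X : ℕ) : ℝ) ≤ Real.log X ^ D' := by
    unfold wX
    exact Nat.floor_le (by positivity)
  obtain ⟨hf1, hf2⟩ := hX2 X e2 (wX D' X) hwle
  obtain ⟨hb, -⟩ := hX1 X e1
  have h2 : |fI gg X (wX D' X) n| ≤ K0 * Real.log X := by
    unfold fI
    rw [abs_mul, abs_of_nonneg (f1_nonneg _ _)]
    exact mul_le_mul (hb n).2 (hf2 n) (f1_nonneg _ _) hK
  nlinarith

theorem l2_BB (hS : StrE) (A : ℕ) : ∃ Bd : ℕ, ∀ K0 C1 C2 K : ℕ, ∀ th e τ : ℝ, AdE th e τ →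
    ∀ ww gg : ℕ → ℕ → ℝ, W1 K0 C1 ww gg → DecJ Bd C2 th e τ ww → MajI ww gg →
    ∃ D0 : ℕ, ∀ D' : ℕ, D0 ≤ D' → ∃ X0 : ℕ, ∀ X : ℕ, X0 ≤ X →
    ∀ (q : ℕ) [NeZero q], (q : ℝ) ≤ (X : ℝ) ^ (1 - th) → ∀ a : ZMod q,
    (Nat.gcd a.val q : ℝ) ≤ Real.log X ^ K →
    ∑ n ∈ (range (2 * X + 1)).filter (fun n : ℕ => (n : ZMod q) = a),
      (cv X (ww X) (ww X) n - cv X (fI gg X (wX D' X)) (fI gg X (wX D' X)) n) ^ 2 ≤
      X ^ 3 / (q * Real.log X ^ A) := by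
  classical
  obtain ⟨Bd1, hBd1⟩ := l2_U hS (A + 4)
  obtain ⟨Bd2, hBd2⟩ := l2_H hS (A + 4)
  refine ⟨max Bd1 Bd2, fun K0 C1 C2 K th e τ hAd ww gg hW hDec hM => ?_⟩
  obtain ⟨B, hB⟩ := hBd2 K0 C1 C2 K
  obtain ⟨A', hA'⟩ := hB th e τ hAd ww gg hW (l2b_dec (le_max_right _ _) hDec) hM
  obtain ⟨D00, hD00⟩ := h3_b A' B (K + B) K0 C1
  obtain ⟨Da, hDa⟩ := hD00 D00 le_rfl
  obtain ⟨Db, hDb⟩ := hA' D00
  obtain ⟨Dc, hDc⟩ := hBd1 K0 C1 C2 K th e τ hAd ww gg hW (l2b_dec (le_max_left _ _) hDec) hM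
  refine ⟨max Da (max Db Dc), fun D' hD' => ?_⟩
  obtain ⟨X1, hX1⟩ := hDa D' (by omega) th e τ hAd ww gg hW
  obtain ⟨X2, hX2⟩ := hDb D' (by omega)
  obtain ⟨X3, hX3⟩ := hDc D' (by omega)
  obtain ⟨X4, hX4⟩ := l2b_b K0 C1 D' ww gg hW
  obtain ⟨X5, hX5⟩ := l2b_log 2
  refine ⟨max (max X1 X2) (max (max X3 X4) (max X5 1)), fun X hX q _ hq a ha => ?_⟩
  have g1 : X1 ≤ X := by omega
  have g2 : X2 ≤ X := by omega
  have g3 : X3 ≤ X := by omega
  have g4 : X4 ≤ X := by omega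
  have g5 : X5 ≤ X := by omega
  have hL := hX5 X g5
  have k1 := hX3 X g3 q hq a ha
  have k2 := hX2 X g2 (fI gg X (wX D' X)) (fun n _ => hX4 X g4 n) (hX1 X g1) q hq a ha
  have hww : ww X = fun m => uI ww gg X (wX D' X) m + fI gg X (wX D' X) m := by
    funext m
    unfold uI
    ring
  have key := l2b_two X q a
    (fun n => cv X (ww X) (ww X) n - cv X (fI gg X (wX D' X)) (fI gg X (wX D' X)) n)
    (uI ww gg X (wX D' X)) (uI ww gg X (wX D' X)) (fI gg X (wX D' X)) (uI ww gg X (wX D' X)) 2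
    _ _ (fun n => by
      have e1 : cv X (ww X) (ww X) n = cv X (uI ww gg X (wX D' X)) (ww X) n +
          cv X (fI gg X (wX D' X)) (ww X) n := by
        conv_lhs => rw [show cv X (ww X) (ww X) n =
          cv X (fun m => uI ww gg X (wX D' X) m + fI gg X (wX D' X) m) (ww X) n by rw [← hww]]
        exact l2b_add _ _ _ _ _
      have e2 : ∀ f : ℕ → ℝ, cv X f (ww X) n = cv X f (uI ww gg X (wX D' X)) n +
          cv X f (fI gg X (wX D' X)) n := by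
        intro f
        rw [l2b_comm X f (ww X), l2b_comm X f (uI ww gg X (wX D' X)),
          l2b_comm X f (fI gg X (wX D' X))]
        conv_lhs => rw [show cv X (ww X) f n =
          cv X (fun m => uI ww gg X (wX D' X) m + fI gg X (wX D' X) m) f n by rw [← hww]]
        exact l2b_add _ _ _ _ _
      show cv X (ww X) (ww X) n - cv X (fI gg X (wX D' X)) (fI gg X (wX D' X)) n = _
      rw [e1, e2, e2, l2b_comm X (uI ww gg X (wX D' X)) (fI gg X (wX D' X))]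
      ring) k1 k2
  refine key.trans ?_
  have hX0 : (0 : ℝ) < X := by
    have : 0 < X := by omega
    exact_mod_cast this
  have hq1 : 1 ≤ q := NeZero.one_le
  have hq0 : (0 : ℝ) < q := by exact_mod_cast hq1
  have hL0 : 0 < Real.log X := by linarith
  have e3 : 2 * ((X : ℝ) ^ 3 / (q * Real.log X ^ (A + 4))) +
      2 * 2 ^ 2 * (X ^ 3 / (q * Real.log X ^ (A + 4))) =
      X ^ 3 / (q * Real.log X ^ A) * (10 / Real.log X ^ 4) := by
    rw [pow_add]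
    field_simp
    ring
  rw [e3]
  have h0 : (0 : ℝ) ≤ X ^ 3 / (q * Real.log X ^ A) := by positivity
  have h1 : 10 / Real.log X ^ 4 ≤ 1 := by
    rw [div_le_one (by positivity)]
    have := pow_le_pow_left₀ (by norm_num : (0 : ℝ) ≤ 2) hL 4
    norm_num at this
    linarith
  calc X ^ 3 / (q * Real.log X ^ A) * (10 / Real.log X ^ 4)
      ≤ X ^ 3 / (q * Real.log X ^ A) * 1 := mul_le_mul_of_nonneg_left h1 h0
    _ = _ := mul_one _

theorem l2_PB (hS : StrE) (A : ℕ) : ∃ Bd : ℕ, ∀ K0 C1 C2 K : ℕ, ∀ th e τ : ℝ, AdE th e τ →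
    ∀ ww gg : ℕ → ℕ → ℝ, W1 K0 C1 ww gg → DecJ Bd C2 th e τ ww → MajI ww gg →
    ∃ D0 : ℕ, ∀ D' : ℕ, D0 ≤ D' → ∃ X0 : ℕ, ∀ X : ℕ, X0 ≤ X →
    ∀ (q : ℕ) [NeZero q], (q : ℝ) ≤ (X : ℝ) ^ (1 - th) → ∀ a : ZMod q,
    (Nat.gcd a.val q : ℝ) ≤ Real.log X ^ K →
    ∑ n ∈ (range (2 * X + 1)).filter (fun n : ℕ => (n : ZMod q) = a),
      (cv X (wP X) (ww X) n - cv X (fI gP X (wX D' X)) (fI gg X (wX D' X)) n) ^ 2 ≤
      X ^ 3 / (q * Real.log X ^ A) := by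
  classical
  obtain ⟨Bd, hBd⟩ := l2_H hS (A + 2)
  refine ⟨Bd, fun K0 C1 C2 K th e τ hAd ww gg hW hDec hM => ?_⟩
  obtain ⟨B, hB⟩ := hBd K0 C1 C2 K
  obtain ⟨A', hA'⟩ := hB th e τ hAd ww gg hW hDec hM
  obtain ⟨D00, hD00⟩ := h3_P A' B (K + B)
  obtain ⟨X1, hX1⟩ := hD00 D00 le_rfl th e τ hAd
  obtain ⟨Db, hDb⟩ := hA' D00
  obtain ⟨Dc, hDc⟩ := l2_X hS (A + 2) K K0 C1
  refine ⟨max Db Dc, fun D' hD' => ?_⟩
  obtain ⟨X2, hX2⟩ := hDb D' (by omega)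
  obtain ⟨X3, hX3⟩ := hDc D' (by omega) th e τ hAd ww gg hW
  obtain ⟨X5, hX5⟩ := l2b_log 2
  refine ⟨max (max X1 X2) (max X3 (max X5 1)), fun X hX q _ hq a ha => ?_⟩
  have g1 : X1 ≤ X := by omega
  have g2 : X2 ≤ X := by omega
  have g3 : X3 ≤ X := by omega
  have g5 : X5 ≤ X := by omega
  have hL := hX5 X g5
  have k1 := hX2 X g2 (wP X) (fun n _ => by
    have h1 : |wP X n| ≤ 1 := by
      unfold wP
      split_ifs <;> norm_num
    nlinarith) (hX1 X g1) q hq a ha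
  have k2 := hX3 X g3 q hq a ha
  have hww : ww X = fun m => uI ww gg X (wX D' X) m + fI gg X (wX D' X) m := by
    funext m
    unfold uI
    ring
  have hwP : wP X = fun m => uI wP gP X (wX D' X) m + fI gP X (wX D' X) m := by
    funext m
    unfold uI
    ring
  have key := l2b_two X q a
    (fun n => cv X (wP X) (ww X) n - cv X (fI gP X (wX D' X)) (fI gg X (wX D' X)) n)
    (wP X) (uI ww gg X (wX D' X)) (uI wP gP X (wX D' X)) (fI gg X (wX D' X)) 1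
    _ _ (fun n => by
      have e1 : ∀ g : ℕ → ℝ, cv X (wP X) g n = cv X (uI wP gP X (wX D' X)) g n +
          cv X (fI gP X (wX D' X)) g n := by
        intro g
        conv_lhs => rw [show cv X (wP X) g n =
          cv X (fun m => uI wP gP X (wX D' X) m + fI gP X (wX D' X) m) g n by rw [← hwP]]
        exact l2b_add _ _ _ _ _
      have e2 : ∀ f : ℕ → ℝ, cv X f (ww X) n = cv X f (uI ww gg X (wX D' X)) n +
          cv X f (fI gg X (wX D' X)) n := by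
        intro f
        rw [l2b_comm X f (ww X), l2b_comm X f (uI ww gg X (wX D' X)),
          l2b_comm X f (fI gg X (wX D' X))]
        conv_lhs => rw [show cv X (ww X) f n =
          cv X (fun m => uI ww gg X (wX D' X) m + fI gg X (wX D' X) m) f n by rw [← hww]]
        exact l2b_add _ _ _ _ _
      show cv X (wP X) (ww X) n - cv X (fI gP X (wX D' X)) (fI gg X (wX D' X)) n = _
      have e3 := e1 (fI gg X (wX D' X))
      rw [e2]
      linarith) k1 k2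
  refine key.trans ?_
  have hX0 : (0 : ℝ) < X := by
    have : 0 < X := by omega
    exact_mod_cast this
  have hq1 : 1 ≤ q := NeZero.one_le
  have hq0 : (0 : ℝ) < q := by exact_mod_cast hq1
  have hL0 : 0 < Real.log X := by linarith
  have e3 : 2 * ((X : ℝ) ^ 3 / (q * Real.log X ^ (A + 2))) +
      2 * 1 ^ 2 * (X ^ 3 / (q * Real.log X ^ (A + 2))) =
      X ^ 3 / (q * Real.log X ^ A) * (4 / Real.log X ^ 2) := by
    rw [pow_add]
    field_simp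
    ring
  rw [e3]
  have h0 : (0 : ℝ) ≤ X ^ 3 / (q * Real.log X ^ A) := by positivity
  have h1 : 4 / Real.log X ^ 2 ≤ 1 := by
    rw [div_le_one (by positivity)]
    nlinarith
  calc X ^ 3 / (q * Real.log X ^ A) * (4 / Real.log X ^ 2)
      ≤ X ^ 3 / (q * Real.log X ^ A) * 1 := mul_le_mul_of_nonneg_left h1 h0
    _ = _ := mul_one _

end Pool.MP_dd84fd_nt.EM
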