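import Pool.Agent.Lib.MP_dd84fd_nt.EM.FinE
import Pool.Agent.Lib.MP_dd84fd_nt.MX.Main
import Pool.Agent.Lib.MP_dd84fd_nt.JX.GStrW

/-!
# Goldbach in every class to every modulus `q ≤ X^(6/7 - ε)`: the theorem
-/

set_option autoImplicit false

namespace Pool.MP_dd84fd_nt.EM

open Finset Pool.MP_67663b_nt.Odd Pool.MP_dd84fd_nt.En Pool.MP_dd84fd_nt.E2
open Pool.MP_dd84fd_nt.HX Pool.MP_dd84fd_nt.IX
open Pool.MP_dd84fd_nt.MX (BadM)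

theorem strE : StrE := by
  intro A
  obtain ⟨B, hB⟩ := JX.strWJ A
  refine ⟨B, fun K0 C1 C2 => ?_⟩
  obtain ⟨C, hC⟩ := hB K0 C1 C2
  exact ⟨C, fun th e τ hA => hC th e τ hA⟩

theorem adE_of {th e τ : ℝ} (h : MX.AdmM th e τ) : AdE th e τ := by
  obtain ⟨h1, h2, h3, h4, h5, h6⟩ := h
  exact ⟨by linarith, by linarith, h3, by linarith, h4⟩

open Classical in
theorem em_67 (ε₀ : ℝ) (hε₀ : 0 < ε₀) (A : ℕ) : ∃ B : ℕ, ∀ K : ℕ,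
    ∃ X0 : ℕ, ∀ X : ℕ, X0 ≤ X → ∀ (N : ℕ) [NeZero N], N = 3 * X →
    ∀ q : ℕ, 1 ≤ q → (q : ℝ) ≤ (X : ℝ) ^ (6 / 7 - ε₀) → ∀ a : ℕ,
    (Nat.gcd a q : ℝ) ≤ Real.log X ^ K → ∀ ξ : ℕ → ℝ, (∀ n, 0 ≤ ξ n) →
    (∀ n, ξ n ≠ 0 → n ≡ a [MOD q]) → ∑ n ∈ Icc 1 X, ξ n ≤ 1 →
    ((Pool.MP_dd84fd_nt.LS.spec N X ξ (1 / (Real.log X) ^ B)).card : ℝ) ≤
      q * (Real.log X) ^ K →
    ∑ n ∈ (Icc 1 X).filter (fun n => Even n ∧ BadM (1 / 40) 2 n), ξ n ≤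
      1 / Real.log X ^ A := by
  obtain ⟨hi, h1, h2, hM⟩ := MX.majSet (fun _ _ _ h => h.adm) (1 / 40) 2 (1 + 9869 / 10000)
    (by norm_num) (by norm_num) (by norm_num) MX.num1
  have h := em_fin strE (1 / 7) hi (1 / 40) 2 MX.AdmM MX.bmT hM (fun _ _ _ h => adE_of h)
    (by norm_num) h1 ε₀ hε₀ A
  have he : (1 : ℝ) - 1 / 7 - ε₀ = 6 / 7 - ε₀ := by ring
  rw [he] at h
  exact h

end Pool.MP_dd84fd_nt.EM
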