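import Pool.Agent.Lib.MP_dd84fd_nt.EM.Defs
import Pool.Agent.Lib.MP_dd84fd_nt.L2G.MinSum

/-!
# EM-MiA (0.7 h): the spacing lemma

`mn = L2G.mn` is even, `1`-periodic, `0 ≤ mn M x ≤ M`, `mn M x ≤ 1/(2 nrm x)`.
Proof. `m = round (N x)`, `s = N x - m`, `|s| ≤ 1/2`.  The points `x + j/N = (m + j + s)/N`, `j < N`; as `m + j` runs over a complete
residue system mod `N` and `y ↦ mn M ((y + s)/N)` is `N`-periodic on the integers, the sum is
`Σ_{i < N} mn M ((i + s)/N)^2`.  Term `i = 0`: `nrm (s/N) = |s|/N` and `mn M (s/N) = N mn (M/N) s = N mn (M/N) (N x)`.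
Terms `1 ≤ i < N`: with `k = min i (N-i)`, `nrm ((i+s)/N) ≥ (k - 1/2)/N ≥ k/(2N)`, so `mn ≤ min (M, N/k)`.  Every `k ≥ 1` occurs at most
twice: the rest is `≤ 2 Σ_{k=1}^{N} min(M, N/k)^2 ≤ 8 M N`: if `M ≥ N` use `Σ 1/k² ≤ 2`; if `M < N` use `M²` for `k ≤ N/M` (at most `N/M`
terms, together `≤ M N`) and `N²/k²` for `k > N/M =: T > 1` (`Σ_{k > T} 1/k² ≤ 1/T + 1/T² ≤ 2/T`, together `≤ 2 M N`).
-/

set_option autoImplicit false

namespace Pool.MP_dd84fd_nt.EM

open Finset Pool.MP_67663b_nt.Odd Pool.MP_dd84fd_nt.En Pool.MP_dd84fd_nt.E2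
open Pool.MP_dd84fd_nt.HX Pool.MP_dd84fd_nt.IX
open Pool.MP_dd84fd_nt.JX (ZJ DecJ Str wP gP)
open Pool.MP_dd84fd_nt.L2G (fz VA VQ MajQ MinorHyp Tc Jc cv av gr Se)
open Pool.MP_dd84fd_nt.T7 (Fz2)

private theorem mia_nrm_nonneg (y : ℝ) : 0 ≤ L2G.nrm y := abs_nonneg _

private theorem mia_nrm_eq (y : ℝ) (h : |y| ≤ 1 / 2) : L2G.nrm y = |y| := by
  unfold L2G.nrm
  apply le_antisymm
  · simpa using round_le y 0
  · by_cases h0 : round y = 0
    · rw [h0]
      simp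
    · have h1 : (1 : ℝ) ≤ |((round y : ℤ) : ℝ)| := by
        exact_mod_cast Int.one_le_abs h0
      have h2 := abs_sub_abs_le_abs_sub ((round y : ℤ) : ℝ) y
      rw [abs_sub_comm] at h2
      linarith

private theorem mia_nrm_ge (y : ℝ) : min y (1 - y) ≤ L2G.nrm y := by
  unfold L2G.nrm
  rcases le_or_gt (round y) 0 with h | h
  · have h1 : ((round y : ℤ) : ℝ) ≤ 0 := by exact_mod_cast h
    exact (min_le_left _ _).trans ((by linarith : y ≤ y - (round y : ℝ)).trans (le_abs_self _))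
  · have h1 : (1 : ℝ) ≤ ((round y : ℤ) : ℝ) := by exact_mod_cast h
    exact (min_le_right _ _).trans
      ((by linarith : 1 - y ≤ -(y - (round y : ℝ))).trans (neg_le_abs _))

private theorem mia_mn_le (M y c : ℝ) (hc : 0 < c) (h : c ≤ 2 * L2G.nrm y) :
    L2G.mn M y ≤ 1 / c := by
  unfold L2G.mn
  split_ifs with h1
  · rw [le_div_iff₀ hc]
    rcases le_or_gt M 0 with hM | hM
    · nlinarith
    · nlinarith
  · exact one_div_le_one_div_of_le hc h

private theorem mia_per (M y : ℝ) : L2G.mn M (y + 1) = L2G.mn M y := by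
  unfold L2G.mn L2G.nrm
  rw [round_add_one]
  push_cast
  rw [add_sub_add_right_eq_sub]

private theorem mia_shift (f : ℤ → ℝ) (N : ℕ) (hf : ∀ i, f (i + N) = f i) (m : ℤ) :
    ∑ j ∈ range N, f (m + j) = ∑ j ∈ range N, f j := by
  have step : ∀ m : ℤ, ∑ j ∈ range N, f (m + 1 + j) = ∑ j ∈ range N, f (m + j) := by
    intro m
    have h1 := Finset.sum_range_succ (fun j : ℕ => f (m + j)) N
    have h2 := Finset.sum_range_succ' (fun j : ℕ => f (m + j)) N
    have h3 : ∀ j : ℕ, f (m + ((j + 1 : ℕ) : ℤ)) = f (m + 1 + j) := by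
      intro j
      congr 1
      push_cast
      ring
    simp only [h3] at h2
    have h4 : f (m + (N : ℤ)) = f m := hf m
    have h5 : f (m + ((0 : ℕ) : ℤ)) = f m := by simp
    rw [h5] at h2
    rw [h4] at h1
    linarith
  induction m with
  | zero => simp
  | succ i ih => rw [step, ih]
  | pred i ih =>
    rw [← ih, ← step]
    simp

private theorem mia_sum (M R : ℝ) (hM : 0 < M) (hR : 0 < R) (n : ℕ) :
    ∑ i ∈ range n, (min M (R / ((i : ℝ) + 1))) ^ 2 ≤ 4 * M * R * ((n * M) / (n * M + R)) := by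
  induction n with
  | zero => simp
  | succ n ih =>
    rw [Finset.sum_range_succ]
    have hn : (0 : ℝ) ≤ n := Nat.cast_nonneg n
    set μ := min M (R / ((n : ℝ) + 1)) with hμ
    have h0 : 0 ≤ μ := le_min hM.le (by positivity)
    have h1 : μ ≤ M := min_le_left _ _
    have h2 : μ * ((n : ℝ) + 1) ≤ R := by
      have : μ ≤ R / ((n : ℝ) + 1) := min_le_right _ _
      rwa [le_div_iff₀ (by positivity)] at this
    have d1 : 0 < (n : ℝ) * M + R := by positivity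
    have d2 : 0 < ((n : ℝ) + 1) * M + R := by positivity
    have h3 : μ * (((n : ℝ) + 1) * M + R) ≤ 2 * M * R := by nlinarith
    have h4 : μ * ((n : ℝ) * M + R) ≤ 2 * M * R := by nlinarith
    have h5 : μ ^ 2 * ((((n : ℝ) + 1) * M + R) * ((n : ℝ) * M + R)) ≤ 4 * M ^ 2 * R ^ 2 := by
      have h6 : (μ * (((n : ℝ) + 1) * M + R)) * (μ * ((n : ℝ) * M + R)) ≤
          (2 * M * R) * (2 * M * R) :=
        mul_le_mul h3 h4 (by positivity) (by positivity)
      nlinarith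
    have h7 : μ ^ 2 ≤ 4 * M ^ 2 * R ^ 2 / ((((n : ℝ) + 1) * M + R) * ((n : ℝ) * M + R)) := by
      rw [le_div_iff₀ (by positivity)]
      exact h5
    have h8 : 4 * M * R * ((n * M) / (n * M + R)) +
        4 * M ^ 2 * R ^ 2 / ((((n : ℝ) + 1) * M + R) * ((n : ℝ) * M + R)) =
        4 * M * R * ((((n + 1 : ℕ) : ℝ) * M) / (((n + 1 : ℕ) : ℝ) * M + R)) := by
      push_cast
      field_simp
      ring
    linarith

private theorem mia_sum' (M R : ℝ) (hM : 0 < M) (hR : 0 < R) (n : ℕ) :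
    ∑ i ∈ range n, (min M (R / ((i : ℝ) + 1))) ^ 2 ≤ 4 * M * R := by
  refine (mia_sum M R hM hR n).trans ?_
  have h1 : ((n : ℝ) * M) / (n * M + R) ≤ 1 := by
    rw [div_le_one (by positivity)]
    linarith
  have h2 : 0 ≤ 4 * M * R := by positivity
  nlinarith

theorem spacing (N : ℕ) (hN : 1 ≤ N) (M x : ℝ) (hM : 0 < M) :
    ∑ j ∈ range N, (L2G.mn M (x + (j : ℝ) / N)) ^ 2 ≤
      ((N : ℝ) * L2G.mn (M / N) (N * x)) ^ 2 + 8 * M * N := by
  have hN0 : (0 : ℝ) < N := by exact_mod_cast hN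
  set m : ℤ := round ((N : ℝ) * x) with hm
  set s : ℝ := (N : ℝ) * x - m with hs
  have hsa : |s| ≤ 1 / 2 := abs_sub_round _
  have hnx : L2G.nrm ((N : ℝ) * x) = |s| := rfl
  set f : ℤ → ℝ := fun i => (L2G.mn M (((i : ℝ) + s) / N)) ^ 2 with hf
  have hper : ∀ i, f (i + N) = f i := by
    intro i
    simp only [hf]
    have : (((i + (N : ℤ) : ℤ) : ℝ) + s) / N = ((i : ℝ) + s) / N + 1 := by
      push_cast
      field_simp
      ring
    rw [this, mia_per]
  have h1 : ∑ j ∈ range N, (L2G.mn M (x + (j : ℝ) / N)) ^ 2 = ∑ j ∈ range N, f (m + j) := by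
    refine Finset.sum_congr rfl fun j _ => ?_
    simp only [hf]
    congr 2
    rw [hs]
    push_cast
    field_simp
    ring
  rw [h1, mia_shift f N hper m]
  obtain ⟨n, rfl⟩ : ∃ n, N = n + 1 := ⟨N - 1, by omega⟩
  rw [Finset.sum_range_succ']
  have hz : f ((0 : ℕ) : ℤ) = (((n + 1 : ℕ) : ℝ) * L2G.mn (M / ((n + 1 : ℕ) : ℝ)) (((n + 1 : ℕ) : ℝ) * x)) ^ 2 := by
    simp only [hf]
    congr 1
    have e0 : ((((0 : ℕ) : ℤ) : ℝ) + s) / ((n + 1 : ℕ) : ℝ) = s / ((n + 1 : ℕ) : ℝ) := by simp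
    rw [e0]
    have hN1 : (1 : ℝ) ≤ ((n + 1 : ℕ) : ℝ) := by exact_mod_cast hN
    have e1 : |s / ((n + 1 : ℕ) : ℝ)| = |s| / ((n + 1 : ℕ) : ℝ) := by
      rw [abs_div, abs_of_pos hN0]
    have e2 : L2G.nrm (s / ((n + 1 : ℕ) : ℝ)) = |s| / ((n + 1 : ℕ) : ℝ) := by
      rw [mia_nrm_eq _ (by
        rw [e1]
        exact (div_le_self (abs_nonneg _) hN1).trans hsa), e1]
    unfold L2G.mn
    rw [e2, hnx]
    have e3 : 2 * (|s| / ((n + 1 : ℕ) : ℝ)) * M = 2 * |s| * (M / ((n + 1 : ℕ) : ℝ)) := by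
      field_simp
    rw [e3]
    split_ifs with h
    · field_simp
    · push Not at h
      have hs0 : 0 < |s| := by
        rcases (abs_nonneg s).eq_or_lt with h0 | h0
        · rw [← h0] at h
          simp at h
          linarith
        · exact h0
      field_simp
  rw [hz]
  have hterm : ∀ i ∈ range n, f ((i + 1 : ℕ) : ℤ) ≤
      (min M (((n + 1 : ℕ) : ℝ) / ((i : ℝ) + 1))) ^ 2 +
      (min M (((n + 1 : ℕ) : ℝ) / (((n - 1 - i : ℕ) : ℝ) + 1))) ^ 2 := by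
    intro i hi
    rw [Finset.mem_range] at hi
    have hs1 := (abs_le.mp hsa).1
    have hs2 := (abs_le.mp hsa).2
    have hi0 : (0 : ℝ) ≤ i := Nat.cast_nonneg i
    have hk : ((n - 1 - i : ℕ) : ℝ) + 1 = (n : ℝ) - i := by
      have : n - 1 - i + 1 = n - i := by omega
      have h' : (((n - 1 - i) + 1 : ℕ) : ℝ) = ((n - i : ℕ) : ℝ) := by rw [this]
      rw [Nat.cast_sub hi.le] at h'
      push_cast at h'
      exact h'
    have hni : (1 : ℝ) ≤ (n : ℝ) - i := by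
      have : (i : ℝ) + 1 ≤ n := by exact_mod_cast hi
      linarith
    rw [hk]
    simp only [hf]
    set y : ℝ := ((((i + 1 : ℕ) : ℤ) : ℝ) + s) / ((n + 1 : ℕ) : ℝ) with hy
    have hM0 : L2G.mn M y ≤ M := L2G.mn_le M y hM.le
    have hMn : 0 ≤ L2G.mn M y := L2G.mn_nonneg M y hM.le
    have hyN : y * ((n + 1 : ℕ) : ℝ) = (i : ℝ) + 1 + s := by
      rw [hy]
      push_cast
      field_simp
    have hcastN : ((n + 1 : ℕ) : ℝ) = (n : ℝ) + 1 := by push_cast; ring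
    have hnr := mia_nrm_ge y
    rcases le_total y (1 - y) with hc | hc
    · rw [min_eq_left hc] at hnr
      have h2 : L2G.mn M y ≤ ((n + 1 : ℕ) : ℝ) / ((i : ℝ) + 1) := by
        have h3 : ((i : ℝ) + 1) / ((n + 1 : ℕ) : ℝ) ≤ 2 * L2G.nrm y := by
          rw [div_le_iff₀ hN0]
          nlinarith
        have h4 := mia_mn_le M y _ (by positivity) h3
        rwa [one_div_div] at h4
      have h5 : L2G.mn M y ≤ min M (((n + 1 : ℕ) : ℝ) / ((i : ℝ) + 1)) := le_min hM0 h2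
      have h6 := pow_le_pow_left₀ hMn h5 2
      have h7 := sq_nonneg (min M (((n + 1 : ℕ) : ℝ) / ((n : ℝ) - i)))
      linarith
    · rw [min_eq_right hc] at hnr
      have h2 : L2G.mn M y ≤ ((n + 1 : ℕ) : ℝ) / ((n : ℝ) - i) := by
        have h3 : ((n : ℝ) - i) / ((n + 1 : ℕ) : ℝ) ≤ 2 * L2G.nrm y := by
          rw [div_le_iff₀ hN0]
          nlinarith
        have h4 := mia_mn_le M y _ (by positivity) h3
        rwa [one_div_div] at h4
      have h5 : L2G.mn M y ≤ min M (((n + 1 : ℕ) : ℝ) / ((n : ℝ) - i)) := le_min hM0 h2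
      have h6 := pow_le_pow_left₀ hMn h5 2
      have h7 := sq_nonneg (min M (((n + 1 : ℕ) : ℝ) / ((i : ℝ) + 1)))
      linarith
  have hsum := Finset.sum_le_sum hterm
  rw [Finset.sum_add_distrib,
    Finset.sum_range_reflect (fun i : ℕ => (min M (((n + 1 : ℕ) : ℝ) / ((i : ℝ) + 1))) ^ 2) n]
    at hsum
  have hfin := mia_sum' M ((n + 1 : ℕ) : ℝ) hM hN0 n
  linarith

end Pool.MP_dd84fd_nt.EM
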