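import Pool.Agent.Lib.MP_dd84fd_nt.EM.MiA
import Pool.Agent.Lib.MP_dd84fd_nt.GX.Den

/-!
# EM-MiB (1.3 h): mean square of `1/ht` over the points `θ + j/q`, `θ` minor for `q`

`ht X α = max (d, X nrm (d α))`, `d = qd X α` the least `d ≥ 1` with `nrm (d α) ≤ 1/(⌊√X⌋+1)` (GX/Defs; that it exists and is `≤ √X + 1` is
Dirichlet, see the lemmas on `qd` in GX, grep `qd_`).  Write `D = ⌊√X⌋ + 1`.
(1) For `α` with `d = qd X α`, `a = round (d α)` one has `(1/ht X α)^2 ≤ 4/(d X)^2 * (mn X (α - a/d))^2`, because `1/ht ≤ min (1/d, 1/(X d |α - a/d|))`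
and `mn X y ≥ min (X, 1/|y|)/2`.  `mn` is `1`-periodic, so `a` can be replaced by its residue in `range d`.
(2) Hence the sum is `≤ (4/X²) Σ_{d=1}^{D} d^{-2} Σ_{a<d} Σ_{j<q} mn X (θ + j/q - a/d)^2`, and by `spacing` (N = q)
`Σ_j ≤ (q mn (X/q) (q θ - q a/d))^2 + 8 X q`.  The second terms give `≤ 32 q (1 + log D)/X`: fine, `q ≤ X^(1-ε)`.
(3) `g = gcd(d,q)`, `d = g d'`, `q = g q'`: `q a/d = q' a/d'` and `a ↦ q' a mod d'` hits every class of `range d'` exactly `g` times for `a < d`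
(`gcd(q',d') = 1`).  So `Σ_{a<d} mn (X/q) (qθ - q a/d)^2 = g Σ_{c<d'} mn (X/q) (qθ - c/d')^2`, and by `spacing` (N = d', use `-c` instead of `c`: periodicity)
this is `≤ g ((d' mn (X/(q d')) (d' q θ))^2 + 8 (X/q) d')`.
The second terms: `(4/X²) Σ_d d^{-2} q² g 8 (X/q) d' = 32 (q/X) Σ 1/d`: fine.
(4) First terms: `(4/X²) Σ_{g | q} Σ_{d' ≤ D} (g d')^{-2} q² g (d' mn (X/(q d')) (d' q θ))^2 = 4 Σ_{g|q} (1/g) Σ_{d'} d'^{-2} (q d'/X)^2 mn(X/(q d'))(d' q θ)^2`.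
Put `G(d') = ((q d'/X) mn (X/(q d')) (d' q θ))^2 ≤ 1`.  `Σ_{g|q} 1/g ≤ 1 + log q`.  For `d' > T = L^B`: `Σ d'^{-2} ≤ 2/T`.
For `d' ≤ T < r`: `c/r` reduced, so `nrm (d' c/r) ≥ 1/r`, and `nrm (d' q θ) ≥ 1/r - d' q L^B/(r X) ≥ 1/(2r)` (`d' q L^B ≤ q L^(2B) ≤ X/2`), so
`mn ≤ r ≤ X/(q L^B)` and `G(d') ≤ (d'/L^B)^2`: `Σ_{d' ≤ T} d'^{-2} G ≤ T/L^(2B) = L^(-B)`.
Total `≤ X^(-ε/2) + 12 (1 + L) L^(-B) ≤ L^(-A)` for `B ≥ A + 3`.
-/

set_option autoImplicit false

namespace Pool.MP_dd84fd_nt.EM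

open Finset Pool.MP_67663b_nt.Odd Pool.MP_dd84fd_nt.En Pool.MP_dd84fd_nt.E2
open Pool.MP_dd84fd_nt.HX Pool.MP_dd84fd_nt.IX
open Pool.MP_dd84fd_nt.JX (ZJ DecJ Str wP gP)
open Pool.MP_dd84fd_nt.L2G (fz VA VQ MajQ MinorHyp Tc Jc cv av gr Se)
open Pool.MP_dd84fd_nt.T7 (Fz2)

private theorem mib_nrm_int (y : ℝ) (k : ℤ) : L2G.nrm (y + k) = L2G.nrm y := by
  unfold L2G.nrm
  rw [round_add_intCast]
  push_cast
  rw [add_sub_add_right_eq_sub]

private theorem mib_mn_int (M y : ℝ) (k : ℤ) : L2G.mn M (y + k) = L2G.mn M y := by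
  unfold L2G.mn
  rw [mib_nrm_int]

private theorem mib_nrm_eq (y : ℝ) (h : |y| ≤ 1 / 2) : L2G.nrm y = |y| := by
  unfold L2G.nrm
  apply le_antisymm
  · simpa using round_le y 0
  · by_cases h0 : round y = 0
    · rw [h0]
      simp
    · have h1 : (1 : ℝ) ≤ |((round y : ℤ) : ℝ)| := by
        exact_mod_cast Int.one_le_abs h0
      have h2 := abs_sub_abs_le_abs_sub ((round y : ℤ) : ℝ) y
      rw [abs_sub_comm] at h2
      linarith

private theorem mib_mn_le (M y c : ℝ) (hc : 0 < c) (h : c ≤ 2 * L2G.nrm y) :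
    L2G.mn M y ≤ 1 / c := by
  unfold L2G.mn
  split_ifs with h1
  · rw [le_div_iff₀ hc]
    rcases le_or_gt M 0 with hM | hM
    · nlinarith
    · nlinarith
  · exact one_div_le_one_div_of_le hc h

private theorem mib_ht (X : ℕ) (hX : 1 ≤ X) (α : ℝ) :
    (1 / GX.ht X α) ^ 2 ≤ 4 / ((GX.qd X α : ℝ) * X) ^ 2 *
      (L2G.mn X (α - (round ((GX.qd X α : ℝ) * α) : ℤ) / (GX.qd X α : ℝ))) ^ 2 := by
  obtain ⟨h1, -, -, -⟩ := GX.qd_spec X hX α
  set d := GX.qd X α with hd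
  set a : ℤ := round ((d : ℝ) * α) with ha
  have hX0 : (0 : ℝ) < X := by exact_mod_cast hX
  have hd0 : (1 : ℝ) ≤ d := by exact_mod_cast h1
  have hdp : (0 : ℝ) < d := by linarith
  have hh : (d : ℝ) ≤ GX.ht X α := le_max_left _ _
  have hh2 : (X : ℝ) * L2G.nrm ((d : ℝ) * α) ≤ GX.ht X α := le_max_right _ _
  have hhp : 0 < GX.ht X α := lt_of_lt_of_le hdp hh
  have e1 : L2G.nrm ((d : ℝ) * α) = d * |α - a / d| := by
    unfold L2G.nrm
    rw [← ha]
    have : (d : ℝ) * α - a = d * (α - a / d) := by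
      field_simp
    rw [this, abs_mul, abs_of_pos hdp]
  have e2 : L2G.nrm ((d : ℝ) * α) ≤ 1 / 2 := abs_sub_round _
  have e3 : |α - a / d| ≤ 1 / 2 := by
    rw [e1] at e2
    have := abs_nonneg (α - a / d)
    nlinarith
  have key : 1 / GX.ht X α ≤ 2 / ((d : ℝ) * X) * L2G.mn X (α - a / d) := by
    unfold L2G.mn
    rw [mib_nrm_eq _ e3]
    split_ifs with h
    · have : 2 / ((d : ℝ) * X) * X = 2 / d := by field_simp
      rw [this, div_le_div_iff₀ hhp hdp]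
      linarith
    · push Not at h
      have hy : 0 < |α - a / d| := by
        rcases (abs_nonneg (α - a / d)).eq_or_lt with h0 | h0
        · rw [← h0] at h
          simp at h
          linarith
        · exact h0
      have : 2 / ((d : ℝ) * X) * (1 / (2 * |α - a / d|)) = 1 / (X * (d * |α - a / d|)) := by
        field_simp
      rw [this]
      apply one_div_le_one_div_of_le (by positivity)
      rw [← e1]
      exact hh2
  have hl : 0 ≤ 1 / GX.ht X α := by positivity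
  calc (1 / GX.ht X α) ^ 2 ≤ (2 / ((d : ℝ) * X) * L2G.mn X (α - a / d)) ^ 2 :=
        pow_le_pow_left₀ hl key 2
    _ = _ := by ring

private theorem mib_point (X : ℕ) (hX : 1 ≤ X) (α : ℝ) :
    (1 / GX.ht X α) ^ 2 ≤ ∑ d ∈ Icc 1 (Nat.sqrt X), 4 / ((d : ℝ) * X) ^ 2 *
      ∑ a ∈ range d, (L2G.mn X (α - (a : ℝ) / d)) ^ 2 := by
  obtain ⟨h1, h2, -, -⟩ := GX.qd_spec X hX α
  refine (mib_ht X hX α).trans ?_
  set d := GX.qd X α with hd
  set b : ℤ := round ((d : ℝ) * α) with hb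
  have hdp : (0 : ℝ) < d := by exact_mod_cast h1
  have hdz : (0 : ℤ) < d := by exact_mod_cast h1
  have hmem : d ∈ Icc 1 (Nat.sqrt X) := Finset.mem_Icc.2 ⟨h1, h2⟩
  have hnn : ∀ d ∈ Icc 1 (Nat.sqrt X), 0 ≤ 4 / ((d : ℝ) * X) ^ 2 *
      ∑ a ∈ range d, (L2G.mn X (α - (a : ℝ) / d)) ^ 2 := fun d _ => by positivity
  refine le_trans ?_ (Finset.single_le_sum hnn hmem)
  apply mul_le_mul_of_nonneg_left _ (by positivity)
  obtain ⟨a, ha⟩ : ∃ a : ℕ, (a : ℤ) = b % d := ⟨(b % d).toNat, by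
    have := Int.emod_nonneg b hdz.ne'
    omega⟩
  have hlt : a < d := by
    have := Int.emod_lt_of_pos b hdz
    omega
  have hbe : b = a + d * (b / d) := by
    rw [ha]
    exact (Int.emod_add_mul_ediv b d).symm
  have hval : L2G.mn X (α - (b : ℝ) / d) = L2G.mn X (α - (a : ℝ) / d) := by
    have h3 : α - (a : ℝ) / d = α - (b : ℝ) / d + ((b / d : ℤ) : ℝ) := by
      have h4 : (b : ℝ) = a + d * ((b / d : ℤ) : ℝ) := by exact_mod_cast hbe
      rw [h4]
      field_simp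
      ring
    rw [h3, mib_mn_int]
  rw [hval]
  exact Finset.single_le_sum (f := fun a : ℕ => (L2G.mn X (α - (a : ℝ) / d)) ^ 2)
    (fun a _ => by positivity) (Finset.mem_range.2 hlt)

private theorem mib_unit (f : ℤ → ℝ) (N : ℕ) (hN : 1 ≤ N) (hf : ∀ i j : ℤ, f (i + N * j) = f i)
    (u : ℤ) (hu : IsCoprime (N : ℤ) u) :
    ∑ a ∈ range N, f (u * a) = ∑ c ∈ range N, f c := by
  have : NeZero N := ⟨by omega⟩
  have hNz : (0 : ℤ) < N := by exact_mod_cast hN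
  set f' : ZMod N → ℝ := fun z => f (z.val : ℤ) with hf'
  have h1 : ∀ k : ℤ, f k = f' (k : ZMod N) := by
    intro k
    simp only [hf']
    rw [ZMod.val_intCast]
    conv_lhs => rw [← Int.emod_add_mul_ediv k N]
    exact hf _ _
  have h2 : ∀ g : ZMod N → ℝ, ∑ a ∈ range N, g (a : ZMod N) = ∑ z : ZMod N, g z := by
    intro g
    refine Finset.sum_nbij' (fun a => (a : ZMod N)) (fun z => z.val) ?_ ?_ ?_ ?_ ?_
    · intro a _
      exact Finset.mem_univ _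
    · intro z _
      exact Finset.mem_range.2 (ZMod.val_lt z)
    · intro a ha
      exact ZMod.val_cast_of_lt (Finset.mem_range.1 ha)
    · intro z _
      exact ZMod.natCast_zmod_val z
    · intro a _
      rfl
  have h3 : ∑ a ∈ range N, f (u * a) = ∑ z : ZMod N, f' ((u : ZMod N) * z) := by
    rw [← h2 (fun z => f' ((u : ZMod N) * z))]
    refine Finset.sum_congr rfl fun a _ => ?_
    rw [h1]
    push_cast
    rfl
  have h4 : ∑ c ∈ range N, f c = ∑ z : ZMod N, f' z := by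
    rw [← h2 f']
    refine Finset.sum_congr rfl fun a _ => ?_
    rw [h1]
    push_cast
    rfl
  rw [h3, h4]
  obtain ⟨v, hv⟩ := (ZMod.coe_int_isUnit_iff_isCoprime u N).2 hu
  rw [← hv]
  exact Equiv.sum_comp (Units.mulLeft v) f'

private theorem mib_block (f : ℤ → ℝ) (N g : ℕ) (hf : ∀ i j : ℤ, f (i + N * j) = f i) (u : ℤ) :
    ∑ a ∈ range (g * N), f (u * a) = g * ∑ a ∈ range N, f (u * a) := by
  induction g with
  | zero => simp
  | succ g ih =>
    rw [Nat.add_mul, one_mul, Finset.sum_range_add, ih]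
    have : ∀ x ∈ range N, f (u * ((g * N + x : ℕ) : ℤ)) = f (u * x) := by
      intro x _
      have e : u * ((g * N + x : ℕ) : ℤ) = u * x + N * (u * g) := by
        push_cast
        ring
      rw [e, hf]
    rw [Finset.sum_congr rfl this]
    push_cast
    ring

private theorem mib_gcd (F : ℝ → ℝ) (hF : ∀ (y : ℝ) (k : ℤ), F (y + k) = F y) (q d : ℕ)
    (hd : 1 ≤ d) :
    ∑ a ∈ range d, F (-((q : ℝ) * ((a : ℝ) / d))) =
      (Nat.gcd d q : ℝ) * ∑ c ∈ range (d / Nat.gcd d q), F ((c : ℝ) / (d / Nat.gcd d q : ℕ)) := by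
  set g := Nat.gcd d q with hg
  have hg1 : 0 < g := Nat.gcd_pos_of_pos_left _ hd
  obtain ⟨d', hd'⟩ : g ∣ d := Nat.gcd_dvd_left _ _
  obtain ⟨q', hq'⟩ : g ∣ q := Nat.gcd_dvd_right _ _
  have hdd : d / g = d' := by
    rw [hd']
    exact Nat.mul_div_cancel_left _ hg1
  rw [hdd]
  have hd'1 : 1 ≤ d' := by
    rcases Nat.eq_zero_or_pos d' with h | h
    · rw [h] at hd'
      omega
    · exact h
  have hcop : Nat.Coprime d' q' := by
    have h1 := Nat.coprime_div_gcd_div_gcd (m := d) (n := q) hg1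
    rw [← hg, hdd, show q / g = q' from by
      conv_lhs => rw [hq']
      exact Nat.mul_div_cancel_left _ hg1] at h1
    exact h1
  have hd'0 : (0 : ℝ) < d' := by exact_mod_cast hd'1
  have hg0 : (0 : ℝ) < g := by exact_mod_cast hg1
  set f : ℤ → ℝ := fun k => F ((k : ℝ) / d') with hf
  have hper : ∀ i j : ℤ, f (i + d' * j) = f i := by
    intro i j
    simp only [hf]
    have : ((i + d' * j : ℤ) : ℝ) / d' = (i : ℝ) / d' + (j : ℤ) := by
      push_cast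
      field_simp
    rw [this, hF]
  have h1 : ∀ a ∈ range d, F (-((q : ℝ) * ((a : ℝ) / d))) = f (-(q' : ℤ) * a) := by
    intro a _
    simp only [hf]
    congr 1
    have e1 : (q : ℝ) = g * q' := by exact_mod_cast hq'
    have e2 : (d : ℝ) = g * d' := by exact_mod_cast hd'
    rw [e1, e2]
    push_cast
    field_simp
  rw [Finset.sum_congr rfl h1]
  conv_lhs => rw [hd']
  rw [mib_block f d' g hper, mib_unit f d' hd'1 hper]
  · simp only [hf]
    push_cast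
    rfl
  · have : IsCoprime (d' : ℤ) (q' : ℤ) := Nat.isCoprime_iff_coprime.2 hcop
    exact this.neg_right

private theorem mib_tail (T : ℝ) (hT : 1 ≤ T) (s : ℕ) :
    ∑ e ∈ (Icc 1 s).filter (fun e : ℕ => T < e), 1 / (e : ℝ) ^ 2 ≤ 2 / T := by
  set k := ⌊T⌋₊ with hk
  have hk1 : 1 ≤ k := Nat.le_floor (by simpa using hT)
  have hTk : T < (k : ℝ) + 1 := Nat.lt_floor_add_one T
  have hk0 : (0 : ℝ) < k := by exact_mod_cast hk1
  have hk1' : (1 : ℝ) ≤ k := by exact_mod_cast hk1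
  have hsub : (Icc 1 s).filter (fun e : ℕ => T < e) ⊆ Ioc k (max k s) := by
    intro e he
    rw [Finset.mem_filter, Finset.mem_Icc] at he
    rw [Finset.mem_Ioc]
    refine ⟨?_, le_max_of_le_right he.1.2⟩
    have h1 : (k : ℝ) ≤ T := Nat.floor_le (by linarith)
    exact_mod_cast lt_of_le_of_lt h1 he.2
  refine (Finset.sum_le_sum_of_subset_of_nonneg hsub fun _ _ _ => by positivity).trans ?_
  have h2 := sum_Ioc_inv_sq_le_sub (α := ℝ) (k := k) (n := max k s) (by omega) (le_max_left _ _)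
  have h3 : ∑ e ∈ Ioc k (max k s), 1 / (e : ℝ) ^ 2 = ∑ i ∈ Ioc k (max k s), ((i : ℝ) ^ 2)⁻¹ :=
    Finset.sum_congr rfl fun _ _ => one_div _
  rw [h3]
  refine h2.trans ?_
  have h4 : (0 : ℝ) ≤ ((max k s : ℕ) : ℝ)⁻¹ := by positivity
  have h5 : (k : ℝ)⁻¹ ≤ 2 / T := by
    rw [inv_eq_one_div, div_le_div_iff₀ hk0 (by linarith)]
    linarith
  linarith

private theorem mib_harm (n : ℕ) : ∑ e ∈ Icc 1 n, 1 / (e : ℝ) ≤ 1 + Real.log n := by
  have h := harmonic_le_one_add_log n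
  rw [harmonic_eq_sum_Icc] at h
  push_cast at h
  simpa only [one_div] using h

private theorem mib_pair (q s : ℕ) (hq : 1 ≤ q) (G : ℕ → ℝ) (hG : ∀ e, 0 ≤ G e) :
    ∑ d ∈ Icc 1 s, 1 / (Nat.gcd d q : ℝ) * G (d / Nat.gcd d q) ≤
      (∑ g ∈ Icc 1 q, 1 / (g : ℝ)) * ∑ e ∈ Icc 1 s, G e := by
  rw [Finset.sum_mul_sum, ← Finset.sum_product']
  have hinj : Set.InjOn (fun d : ℕ => ((Nat.gcd d q, d / Nat.gcd d q) : ℕ × ℕ)) (Icc 1 s) := by
    intro d1 h1 d2 h2 h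
    simp only [Prod.mk.injEq] at h
    have e1 := Nat.mul_div_cancel' (Nat.gcd_dvd_left d1 q)
    have e2 := Nat.mul_div_cancel' (Nat.gcd_dvd_left d2 q)
    calc d1 = Nat.gcd d1 q * (d1 / Nat.gcd d1 q) := e1.symm
      _ = Nat.gcd d2 q * (d2 / Nat.gcd d2 q) := by rw [h.2, h.1]
      _ = d2 := e2
  have himg : (Icc 1 s).image (fun d : ℕ => ((Nat.gcd d q, d / Nat.gcd d q) : ℕ × ℕ)) ⊆
      Icc 1 q ×ˢ Icc 1 s := by
    intro p hp
    rw [Finset.mem_image] at hp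
    obtain ⟨d, hd, rfl⟩ := hp
    rw [Finset.mem_Icc] at hd
    rw [Finset.mem_product, Finset.mem_Icc, Finset.mem_Icc]
    have hg : 0 < Nat.gcd d q := Nat.gcd_pos_of_pos_left _ hd.1
    refine ⟨⟨hg, Nat.gcd_le_right _ hq⟩, ?_, (Nat.div_le_self _ _).trans hd.2⟩
    exact Nat.div_pos (Nat.gcd_le_left _ hd.1) hg
  have h1 := Finset.sum_le_sum_of_subset_of_nonneg (f := fun p : ℕ × ℕ => 1 / (p.1 : ℝ) * G p.2)
    himg (fun p _ _ => mul_nonneg (by positivity) (hG _))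
  rw [Finset.sum_image hinj] at h1
  exact h1

private theorem mib_log (k : ℕ) (ε : ℝ) (hε : 0 < ε) (C : ℝ) (hC : 0 < C) :
    ∃ X0 : ℕ, ∀ X : ℕ, X0 ≤ X → C * Real.log X ^ k ≤ (X : ℝ) ^ ε := by
  have h1 := (isLittleO_log_rpow_rpow_atTop (k : ℝ) hε).bound (c := 1 / C) (by positivity)
  have h2 := tendsto_natCast_atTop_atTop (R := ℝ) |>.eventually h1
  obtain ⟨N, hN⟩ := Filter.eventually_atTop.1 h2
  refine ⟨max N 1, fun X hX => ?_⟩
  have h3 := hN X (le_of_max_le_left hX)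
  have hX1 : (1 : ℝ) ≤ X := by exact_mod_cast le_of_max_le_right hX
  have hL : 0 ≤ Real.log X := Real.log_nonneg hX1
  rw [Real.norm_of_nonneg (by positivity), Real.norm_of_nonneg (by positivity),
    Real.rpow_natCast] at h3
  rw [div_mul_eq_mul_div, one_mul, le_div_iff₀ hC] at h3
  linarith

/-- the bound for one denominator `d` -/
private theorem mib_one (X q : ℕ) (hX : 1 ≤ X) (hq : 1 ≤ q) (θ : ℝ) (d : ℕ) (hd : 1 ≤ d) :
    ∑ j ∈ range q, 4 / ((d : ℝ) * X) ^ 2 *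
      ∑ a ∈ range d, (L2G.mn X (θ + (j : ℝ) / q - (a : ℝ) / d)) ^ 2 ≤
    4 * (1 / (Nat.gcd d q : ℝ) * (1 / ((d / Nat.gcd d q : ℕ) : ℝ) ^ 2 *
      ((q : ℝ) * (d / Nat.gcd d q : ℕ) / X *
        L2G.mn ((X : ℝ) / q / (d / Nat.gcd d q : ℕ)) ((d / Nat.gcd d q : ℕ) * (q * θ))) ^ 2)) +
      64 * (q / X) * (1 / (d : ℝ)) := by
  have hX0 : (0 : ℝ) < X := by exact_mod_cast hX
  have hq0 : (0 : ℝ) < q := by exact_mod_cast hq
  have hd0 : (0 : ℝ) < d := by exact_mod_cast hd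
  set g := Nat.gcd d q with hg
  have hg1 : 0 < g := Nat.gcd_pos_of_pos_left _ hd
  obtain ⟨d', hd'⟩ : g ∣ d := Nat.gcd_dvd_left _ _
  have hdd : d / g = d' := by
    conv_lhs => rw [hd']
    exact Nat.mul_div_cancel_left _ hg1
  have hd'1 : 1 ≤ d' := by
    rcases Nat.eq_zero_or_pos d' with h | h
    · rw [h] at hd'
      omega
    · exact h
  have hd'0 : (0 : ℝ) < d' := by exact_mod_cast hd'1
  have hg0 : (0 : ℝ) < g := by exact_mod_cast hg1
  have hdr : (d : ℝ) = g * d' := by exact_mod_cast hd'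
  rw [hdd]
  -- the sum over j
  have h1 : ∀ a ∈ range d, ∑ j ∈ range q, (L2G.mn X (θ + (j : ℝ) / q - (a : ℝ) / d)) ^ 2 ≤
      (q : ℝ) ^ 2 * (L2G.mn ((X : ℝ) / q) (q * θ + -((q : ℝ) * ((a : ℝ) / d)))) ^ 2 + 8 * X * q := by
    intro a _
    have h := spacing q hq X (θ - (a : ℝ) / d) hX0
    have e1 : ∀ j : ℕ, θ + (j : ℝ) / q - (a : ℝ) / d = θ - (a : ℝ) / d + (j : ℝ) / q := by
      intro j
      ring
    simp only [e1]
    have e2 : (q : ℝ) * (θ - (a : ℝ) / d) = q * θ + -((q : ℝ) * ((a : ℝ) / d)) := by ring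
    rw [e2, mul_pow] at h
    exact h
  -- the sum over a
  set F : ℝ → ℝ := fun y => (L2G.mn ((X : ℝ) / q) (q * θ + y)) ^ 2 with hF
  have hFper : ∀ (y : ℝ) (k : ℤ), F (y + k) = F y := by
    intro y k
    simp only [hF]
    rw [← add_assoc, mib_mn_int]
  have h2 := mib_gcd F hFper q d hd
  rw [← hg, hdd] at h2
  have h3 : ∑ c ∈ range d', F ((c : ℝ) / d') ≤
      ((d' : ℝ) * L2G.mn ((X : ℝ) / q / d') (d' * (q * θ))) ^ 2 + 8 * ((X : ℝ) / q) * d' :=
    spacing d' hd'1 ((X : ℝ) / q) (q * θ) (by positivity)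
  have h4 : ∑ a ∈ range d, ∑ j ∈ range q, (L2G.mn X (θ + (j : ℝ) / q - (a : ℝ) / d)) ^ 2 ≤
      (q : ℝ) ^ 2 * (g * (((d' : ℝ) * L2G.mn ((X : ℝ) / q / d') (d' * (q * θ))) ^ 2 +
        8 * ((X : ℝ) / q) * d')) + d * (8 * X * q) := by
    refine (Finset.sum_le_sum h1).trans ?_
    rw [Finset.sum_add_distrib, ← Finset.mul_sum, Finset.sum_const, Finset.card_range,
      nsmul_eq_mul]
    have h5 : ∑ a ∈ range d, (L2G.mn ((X : ℝ) / q) (q * θ + -((q : ℝ) * ((a : ℝ) / d)))) ^ 2 =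
        g * ∑ c ∈ range d', F ((c : ℝ) / d') := h2
    rw [h5]
    have h6 := mul_le_mul_of_nonneg_left h3 hg0.le
    have h7 := mul_le_mul_of_nonneg_left h6 (by positivity : (0 : ℝ) ≤ (q : ℝ) ^ 2)
    linarith
  rw [← Finset.mul_sum, Finset.sum_comm]
  refine (mul_le_mul_of_nonneg_left h4 (by positivity)).trans (le_of_eq ?_)
  rw [hdr]
  field_simp
  ring

theorem mi_ht (A : ℕ) : ∃ B0 : ℕ, ∀ B : ℕ, B0 ≤ B → ∀ ε : ℝ, 0 < ε → ∃ X0 : ℕ, ∀ X : ℕ, X0 ≤ X →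
    ∀ q : ℕ, 1 ≤ q → (q : ℝ) ≤ (X : ℝ) ^ (1 - ε) → ∀ (θ : ℝ) (r : ℕ) (c : ℤ),
    MinorHyp X q B θ r c →
    ∑ j ∈ range q, (1 / GX.ht X (θ + (j : ℝ) / q)) ^ 2 ≤ 1 / Real.log X ^ A := by
  refine ⟨A + 3, fun B hB ε hε => ?_⟩
  obtain ⟨X1, hX1⟩ := mib_log (2 * B) ε hε 2 two_pos
  obtain ⟨X2, hX2⟩ := mib_log (A + 1) ε hε 256 (by norm_num)
  obtain ⟨X3, hX3⟩ := mib_log 0 ε hε 1 one_pos
  refine ⟨max (max X1 X2) (max X3 3000), fun X hX q hq hqX θ r c hmin => ?_⟩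
  have hXa : X1 ≤ X := (le_max_left _ _).trans ((le_max_left _ _).trans hX)
  have hXb : X2 ≤ X := (le_max_right _ _).trans ((le_max_left _ _).trans hX)
  have hXc : X3 ≤ X := (le_max_left _ _).trans ((le_max_right _ _).trans hX)
  have hXd : 3000 ≤ X := (le_max_right _ _).trans ((le_max_right _ _).trans hX)
  have hXone : 1 ≤ X := by omega
  have hX0 : (0 : ℝ) < X := by exact_mod_cast hXone
  have hq0 : (0 : ℝ) < q := by exact_mod_cast hq
  set L := Real.log X with hL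
  have hL8 : 8 ≤ L := by
    rw [hL, Real.le_log_iff_exp_le hX0]
    have h1 : Real.exp 8 ≤ 3000 := by
      have h2 := Real.exp_one_lt_d9
      have h3 : Real.exp 8 = (Real.exp 1) ^ 8 := by
        rw [← Real.exp_nat_mul]
        norm_num
      rw [h3]
      calc (Real.exp 1) ^ 8 ≤ (2.7182818286 : ℝ) ^ 8 :=
            pow_le_pow_left₀ (Real.exp_pos 1).le h2.le 8
        _ ≤ 3000 := by norm_num
    have h2 : (3000 : ℝ) ≤ X := by exact_mod_cast hXd
    linarith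
  have hL0 : 0 < L := by linarith
  have hL1 : 1 ≤ L := by linarith
  set T := L ^ B with hT
  have hT1 : 1 ≤ T := one_le_pow₀ hL1
  have hT0 : 0 < T := by linarith
  obtain ⟨hr1, hr2, hcr, happ⟩ := hmin
  rw [← hL, ← hT] at hr1 hr2 happ
  have hr0 : (0 : ℝ) < r := by linarith
  -- q and X
  have hXe : (X : ℝ) ^ (1 - ε) * (X : ℝ) ^ ε = X := by
    rw [← Real.rpow_add hX0]
    simp
  have hqe : (q : ℝ) * (X : ℝ) ^ ε ≤ X := by
    calc (q : ℝ) * (X : ℝ) ^ ε ≤ (X : ℝ) ^ (1 - ε) * (X : ℝ) ^ ε :=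
          mul_le_mul_of_nonneg_right hqX (by positivity)
      _ = X := hXe
  have hqX' : (q : ℝ) ≤ X := by
    have h1 := hX3 X hXc
    simp at h1
    have h2 : (q : ℝ) * 1 ≤ q * (X : ℝ) ^ ε := mul_le_mul_of_nonneg_left h1 hq0.le
    linarith
  have hqT : 2 * (q : ℝ) * T ^ 2 ≤ X := by
    have h1 := hX1 X hXa
    rw [← hL] at h1
    have h2 : T ^ 2 = L ^ (2 * B) := by rw [hT, ← pow_mul, mul_comm]
    calc 2 * (q : ℝ) * T ^ 2 = q * (2 * L ^ (2 * B)) := by rw [h2]; ring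
      _ ≤ q * (X : ℝ) ^ ε := mul_le_mul_of_nonneg_left h1 hq0.le
      _ ≤ X := hqe
  have hqA : 256 * ((q : ℝ) / X) * L ^ (A + 1) ≤ 1 := by
    have h1 := hX2 X hXb
    rw [← hL] at h1
    have h2 : (q : ℝ) * (256 * L ^ (A + 1)) ≤ X :=
      (mul_le_mul_of_nonneg_left h1 hq0.le).trans hqe
    have h3 : 256 * ((q : ℝ) / X) * L ^ (A + 1) = q * (256 * L ^ (A + 1)) / X := by ring
    rw [h3, div_le_one hX0]
    exact h2
  -- the function G
  set G : ℕ → ℝ := fun e => ((q : ℝ) * e / X *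
    L2G.mn ((X : ℝ) / q / e) (e * (q * θ))) ^ 2 with hG
  set s := Nat.sqrt X with hs
  have hG1 : ∀ e ∈ Icc 1 s, G e ≤ 1 := by
    intro e he
    have he1 : (1 : ℝ) ≤ e := by exact_mod_cast (Finset.mem_Icc.1 he).1
    have he0 : (0 : ℝ) < e := by linarith
    have h0 := L2G.mn_nonneg ((X : ℝ) / q / e) (e * (q * θ)) (by positivity)
    have h1 := L2G.mn_le ((X : ℝ) / q / e) (e * (q * θ)) (by positivity)
    simp only [hG]
    apply pow_le_one₀ (by positivity)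
    calc (q : ℝ) * e / X * L2G.mn ((X : ℝ) / q / e) (e * (q * θ)) ≤
          (q : ℝ) * e / X * ((X : ℝ) / q / e) := mul_le_mul_of_nonneg_left h1 (by positivity)
      _ = 1 := by field_simp
  have hG2 : ∀ e ∈ Icc 1 s, (e : ℝ) ≤ T → G e ≤ ((e : ℝ) / T) ^ 2 := by
    intro e he heT
    have hen := (Finset.mem_Icc.1 he).1
    have he1 : (1 : ℝ) ≤ e := by exact_mod_cast hen
    have he0 : (0 : ℝ) < e := by linarith
    have h0 := L2G.mn_nonneg ((X : ℝ) / q / e) (e * (q * θ)) (by positivity)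
    -- distance
    have hd1 : 1 / (r : ℝ) ≤ |(e : ℝ) * (c / r) - (round ((e : ℝ) * (q * θ)) : ℤ)| := by
      set m : ℤ := round ((e : ℝ) * (q * θ)) with hm
      have e1 : (e : ℝ) * (c / r) - m = ((e * c - m * r : ℤ) : ℝ) / r := by
        push_cast
        field_simp
      rw [e1, abs_div, abs_of_pos hr0]
      apply div_le_div_of_nonneg_right _ hr0.le
      have hne : (e * c - m * r : ℤ) ≠ 0 := by
        intro h
        have h1 : (r : ℤ) ∣ e * c := ⟨m, by linarith⟩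
        have h2 : (r : ℤ) ∣ e := by
          have := hcr.symm
          exact this.dvd_of_dvd_mul_right h1
        have h3 : (r : ℤ) ≤ e := Int.le_of_dvd (by exact_mod_cast hen) h2
        have h4 : (r : ℝ) ≤ e := by exact_mod_cast h3
        linarith
      exact_mod_cast Int.one_le_abs hne
    have hd2 : |(e : ℝ) * (q * θ) - e * (c / r)| ≤ 1 / (2 * r) := by
      have e1 : (e : ℝ) * (q * θ) - e * (c / r) = e * (q * θ - c / r) := by ring
      rw [e1, abs_mul, abs_of_pos he0]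
      calc (e : ℝ) * |q * θ - c / r| ≤ T * (q * T / (r * X)) := by
            apply mul_le_mul heT happ (abs_nonneg _) hT0.le
        _ = (2 * q * T ^ 2) / (2 * r * X) := by
            field_simp
        _ ≤ X / (2 * r * X) := by
            apply div_le_div_of_nonneg_right hqT (by positivity)
        _ = 1 / (2 * r) := by field_simp
    have hn : 1 / (r : ℝ) ≤ 2 * L2G.nrm ((e : ℝ) * (q * θ)) := by
      unfold L2G.nrm
      have h1 : |(e : ℝ) * (c / r) - (round ((e : ℝ) * (q * θ)) : ℤ)| ≤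
          |(e : ℝ) * (q * θ) - (round ((e : ℝ) * (q * θ)) : ℤ)| +
          |(e : ℝ) * (q * θ) - e * (c / r)| := by
        have h2 := abs_sub_abs_le_abs_sub
          ((e : ℝ) * (c / r) - (round ((e : ℝ) * (q * θ)) : ℤ))
          ((e : ℝ) * (q * θ) - (round ((e : ℝ) * (q * θ)) : ℤ))
        have h3 : (e : ℝ) * (c / r) - (round ((e : ℝ) * (q * θ)) : ℤ) -
            ((e : ℝ) * (q * θ) - (round ((e : ℝ) * (q * θ)) : ℤ)) =
            -((e : ℝ) * (q * θ) - e * (c / r)) := by ring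
        rw [h3, abs_neg] at h2
        linarith
      have h2 : 1 / (2 * (r : ℝ)) = 1 / r / 2 := by
        field_simp
      rw [h2] at hd2
      linarith
    have hmn : L2G.mn ((X : ℝ) / q / e) (e * (q * θ)) ≤ r := by
      have := mib_mn_le ((X : ℝ) / q / e) (e * (q * θ)) (1 / r) (by positivity) hn
      rwa [one_div_one_div] at this
    simp only [hG]
    apply pow_le_pow_left₀ (by positivity)
    calc (q : ℝ) * e / X * L2G.mn ((X : ℝ) / q / e) (e * (q * θ)) ≤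
          (q : ℝ) * e / X * (X / (q * T)) :=
          mul_le_mul_of_nonneg_left (hmn.trans hr2) (by positivity)
      _ = e / T := by field_simp
  -- the sum of G e / e ^ 2
  have hsumG : ∑ e ∈ Icc 1 s, 1 / (e : ℝ) ^ 2 * G e ≤ 3 / T := by
    rw [← Finset.sum_filter_add_sum_filter_not (Icc 1 s) (fun e : ℕ => T < e)]
    have h1 : ∑ e ∈ (Icc 1 s).filter (fun e : ℕ => T < e), 1 / (e : ℝ) ^ 2 * G e ≤ 2 / T := by
      refine le_trans (Finset.sum_le_sum fun e he => ?_) (mib_tail T hT1 s)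
      have h2 := hG1 e (Finset.mem_filter.1 he).1
      have h3 : (0 : ℝ) ≤ 1 / (e : ℝ) ^ 2 := by positivity
      nlinarith
    have h2 : ∑ e ∈ (Icc 1 s).filter (fun e : ℕ => ¬ T < e), 1 / (e : ℝ) ^ 2 * G e ≤ 1 / T := by
      have h3 : ∀ e ∈ (Icc 1 s).filter (fun e : ℕ => ¬ T < e), 1 / (e : ℝ) ^ 2 * G e ≤
          1 / T ^ 2 := by
        intro e he
        rw [Finset.mem_filter, not_lt] at he
        have he1 : (1 : ℝ) ≤ e := by exact_mod_cast (Finset.mem_Icc.1 he.1).1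
        have he0 : (0 : ℝ) < e := by linarith
        have h4 := hG2 e he.1 he.2
        calc 1 / (e : ℝ) ^ 2 * G e ≤ 1 / (e : ℝ) ^ 2 * ((e : ℝ) / T) ^ 2 :=
              mul_le_mul_of_nonneg_left h4 (by positivity)
          _ = 1 / T ^ 2 := by field_simp
      refine (Finset.sum_le_sum h3).trans ?_
      rw [Finset.sum_const, nsmul_eq_mul]
      have h4 : (((Icc 1 s).filter (fun e : ℕ => ¬ T < e)).card : ℝ) ≤ T := by
        have h5 : (Icc 1 s).filter (fun e : ℕ => ¬ T < e) ⊆ Icc 1 ⌊T⌋₊ := by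
          intro e he
          rw [Finset.mem_filter, not_lt, Finset.mem_Icc] at he
          rw [Finset.mem_Icc]
          exact ⟨he.1.1, Nat.le_floor he.2⟩
        have h6 := Finset.card_le_card h5
        rw [Nat.card_Icc] at h6
        have h7 : (((Icc 1 s).filter (fun e : ℕ => ¬ T < e)).card : ℝ) ≤ (⌊T⌋₊ : ℝ) := by
          exact_mod_cast (by omega : ((Icc 1 s).filter (fun e : ℕ => ¬ T < e)).card ≤ ⌊T⌋₊)
        exact h7.trans (Nat.floor_le hT0.le)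
      calc _ ≤ T * (1 / T ^ 2) := mul_le_mul_of_nonneg_right h4 (by positivity)
        _ = 1 / T := by field_simp
    have h3 : (3 : ℝ) / T = 2 / T + 1 / T := by ring
    rw [h3]
    exact add_le_add h1 h2
  -- assembling
  have hpt : ∑ j ∈ range q, (1 / GX.ht X (θ + (j : ℝ) / q)) ^ 2 ≤
      ∑ d ∈ Icc 1 s, ∑ j ∈ range q, 4 / ((d : ℝ) * X) ^ 2 *
        ∑ a ∈ range d, (L2G.mn X (θ + (j : ℝ) / q - (a : ℝ) / d)) ^ 2 := by
    rw [Finset.sum_comm]
    exact Finset.sum_le_sum fun j _ => mib_point X hXone (θ + (j : ℝ) / q)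
  refine hpt.trans ?_
  refine (Finset.sum_le_sum fun d hd =>
    mib_one X q hXone hq θ d (Finset.mem_Icc.1 hd).1).trans ?_
  rw [Finset.sum_add_distrib, ← Finset.mul_sum, ← Finset.mul_sum]
  have hA1 := mib_pair q s hq (fun e => 1 / (e : ℝ) ^ 2 * G e) (fun e => by positivity)
  have hA2 : ∑ d ∈ Icc 1 s, 1 / (d : ℝ) ≤ 2 * L := by
    refine (mib_harm s).trans ?_
    have h1 : Real.log s ≤ L := by
      rcases Nat.eq_zero_or_pos s with h | h
      · rw [h]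
        simp
        exact hL0.le
      · apply Real.log_le_log (by exact_mod_cast h)
        exact_mod_cast Nat.sqrt_le_self X
    linarith
  have hA3 : ∑ g ∈ Icc 1 q, 1 / (g : ℝ) ≤ 2 * L := by
    refine (mib_harm q).trans ?_
    have h1 : Real.log q ≤ L := Real.log_le_log hq0 hqX'
    linarith
  have hS0 : 0 ≤ ∑ e ∈ Icc 1 s, 1 / (e : ℝ) ^ 2 * G e := Finset.sum_nonneg fun e _ => by positivity
  have hB1 : ∑ d ∈ Icc 1 s, 1 / (Nat.gcd d q : ℝ) * (1 / ((d / Nat.gcd d q : ℕ) : ℝ) ^ 2 *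
      G (d / Nat.gcd d q)) ≤ 2 * L * (3 / T) := by
    refine hA1.trans ?_
    exact mul_le_mul hA3 hsumG hS0 (by positivity)
  have hB2 : 64 * ((q : ℝ) / X) * ∑ d ∈ Icc 1 s, 1 / (d : ℝ) ≤ 64 * ((q : ℝ) / X) * (2 * L) :=
    mul_le_mul_of_nonneg_left hA2 (by positivity)
  have hTA : L ^ (A + 3) ≤ T := pow_le_pow_right₀ hL1 hB
  have hLA : 0 < L ^ A := by positivity
  have hC1 : 4 * (2 * L * (3 / T)) ≤ 1 / 2 * (1 / L ^ A) := by
    have h1 : 4 * (2 * L * (3 / T)) = 24 * L / T := by ring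
    rw [h1, div_le_iff₀ hT0]
    have h2 : 1 / 2 * (1 / L ^ A) * L ^ (A + 3) ≤ 1 / 2 * (1 / L ^ A) * T :=
      mul_le_mul_of_nonneg_left hTA (by positivity)
    have h3 : 1 / 2 * (1 / L ^ A) * L ^ (A + 3) = 1 / 2 * L ^ 3 := by
      rw [pow_add]
      field_simp
    rw [h3] at h2
    nlinarith [mul_pos hL0 hL0]
  have hC2 : 64 * ((q : ℝ) / X) * (2 * L) ≤ 1 / 2 * (1 / L ^ A) := by
    have h1 : 1 / 2 * (1 / L ^ A) = 1 / (2 * L ^ A) := by field_simp
    rw [h1, le_div_iff₀ (by positivity)]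
    have h2 : 64 * ((q : ℝ) / X) * (2 * L) * (2 * L ^ A) = 256 * ((q : ℝ) / X) * L ^ (A + 1) := by
      rw [pow_succ]
      ring
    rw [h2]
    exact hqA
  have hB1' := mul_le_mul_of_nonneg_left hB1 (by norm_num : (0 : ℝ) ≤ 4)
  have hgoal : 1 / L ^ A = 1 / 2 * (1 / L ^ A) + 1 / 2 * (1 / L ^ A) := by ring
  rw [hgoal]
  refine add_le_add ?_ (hB2.trans hC2)
  exact hB1'.trans hC1

end Pool.MP_dd84fd_nt.EM
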