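import Pool.Agent.Lib.MP_dd84fd_nt.EM.MiB
import Pool.Agent.Lib.MP_dd84fd_nt.IX.GrBV
import Pool.Agent.Lib.MP_dd84fd_nt.L2G.ClassAlg

/-!
# EM-MiC (0.8 h): type I functions on the minor arcs

(1) `VA_pars`: orthogonality mod `q`: `fz X q f θ b = (1/q) Σ_{j<q} e(-j b/q) Σ_{n ≤ X} f(n) e(n(θ + j/q))` (with `b.val`), so by Parseval on `ZMod q`
`VA X q f θ = (1/q) Σ_{j<q} ‖ES X f (θ + j/q)‖²` (`ES` is the exponential sum of `bv_type1`, `HX`/`IX`).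
(2) `bv_type1` (IX/GrBV) with `T = T' = L^C`, `R = ⌊ZJ⌋`: `‖ES‖ ≤ C' L^(2C) (X/ht + R) L`, so `‖ES‖² ≤ 2 C'^2 L^(4C+2) (X² (1/ht)^2 + R²)`.
(3) `mi_ht` with `ε = th - e` and exponent `A + 4C + 4`; `R² q/q`: `R² ≤ 4 X^(2 lv)`, `lv ≤ (1+th)/2 - 20 e` (`JX.lv` is a minimum), and
`q R² ≤ 4 X^(1-th+e) X^(1+th-40e) = 4 X^(2-39e)`.
Edge: `bv_type1` wants `R ≤ X`: `lv ≤ 1 - 20e + ...`; indeed `lv ≤ (1+th)/2 - 20 e ≤ 3/4`.
-/

set_option autoImplicit false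

namespace Pool.MP_dd84fd_nt.EM

open Finset Pool.MP_67663b_nt.Odd Pool.MP_dd84fd_nt.En Pool.MP_dd84fd_nt.E2
open Pool.MP_dd84fd_nt.HX Pool.MP_dd84fd_nt.IX
open Pool.MP_dd84fd_nt.JX (ZJ DecJ Str wP gP)
open Pool.MP_dd84fd_nt.L2G (fz VA VQ MajQ MinorHyp Tc Jc cv av gr Se)
open Pool.MP_dd84fd_nt.T7 (Fz2)

private theorem MiC_sum_range (q : ℕ) [NeZero q] (g : ZMod q → ℝ) :
    ∑ b : ZMod q, g b = ∑ n ∈ range q, g (n : ZMod q) := by
  symm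
  refine Finset.sum_bij (fun n _ => (n : ZMod q)) (fun _ _ => Finset.mem_univ _) ?_ ?_
    (fun _ _ => rfl)
  · intro n hn m hm h
    rw [Finset.mem_range] at hn hm
    rw [ZMod.natCast_eq_natCast_iff'] at h
    rwa [Nat.mod_eq_of_lt hn, Nat.mod_eq_of_lt hm] at h
  · intro b _
    exact ⟨b.val, Finset.mem_range.2 (ZMod.val_lt b), ZMod.natCast_zmod_val b⟩

private theorem MiC_ee_mod (q : ℕ) [NeZero q] (m n j : ℕ) (h : (m : ZMod q) = (n : ZMod q)) :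
    ee ((m : ℝ) * ((j : ℝ) / q)) = ee ((n : ℝ) * ((j : ℝ) / q)) := by
  have hq : (q : ℝ) ≠ 0 := by exact_mod_cast NeZero.ne q
  have h1 : ((m : ℤ) : ZMod q) = ((n : ℤ) : ZMod q) := by exact_mod_cast h
  rw [ZMod.intCast_eq_intCast_iff_dvd_sub] at h1
  obtain ⟨k, hk⟩ := h1
  have h2 : (m : ℝ) = n - q * k := by
    have h3 : (m : ℤ) = n - q * k := by linarith
    exact_mod_cast congrArg (fun z : ℤ => (z : ℝ)) h3
  have h4 : (m : ℝ) * ((j : ℝ) / q) = (n : ℝ) * ((j : ℝ) / q) + ((-(k * j) : ℤ) : ℝ) := by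
    rw [h2]
    push_cast
    field_simp
    ring
  rw [h4, ee_add_int]

private theorem MiC_Se (X q : ℕ) [NeZero q] (f : ℕ → ℝ) (θ : ℝ) (j : ℕ) :
    Se X f (θ + (j : ℝ) / q) =
      ∑ n ∈ range q, fz X q f θ (n : ZMod q) * ee ((n : ℝ) * ((j : ℝ) / q)) := by
  unfold fz Se
  have h1 : ∀ n ∈ range q, (∑ m ∈ (Icc 1 X).filter (fun m : ℕ => (m : ZMod q) = (n : ZMod q)),
      (f m : ℂ) * ee (m * θ)) * ee ((n : ℝ) * ((j : ℝ) / q)) =
      ∑ m ∈ Icc 1 X, if n = m % q then (f m : ℂ) * ee (m * (θ + (j : ℝ) / q)) else 0 := by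
    intro n hn
    rw [Finset.mem_range] at hn
    rw [Finset.sum_mul, Finset.sum_filter]
    refine Finset.sum_congr rfl fun m _ => ?_
    by_cases h : (m : ZMod q) = (n : ZMod q)
    · have h' : n = m % q := by
        rw [ZMod.natCast_eq_natCast_iff'] at h
        rw [h, Nat.mod_eq_of_lt hn]
      rw [if_pos h, if_pos h', mul_assoc, ← MiC_ee_mod q m n j h, ← ee_add]
      congr 2
      ring
    · have h' : ¬ n = m % q := by
        intro h2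
        apply h
        rw [h2, ZMod.natCast_mod]
      rw [if_neg h, if_neg h']
  rw [Finset.sum_congr rfl h1, Finset.sum_comm]
  refine Finset.sum_congr rfl fun m _ => ?_
  rw [Finset.sum_ite_eq', if_pos]
  exact Finset.mem_range.2 (Nat.mod_lt _ (Nat.pos_of_ne_zero (NeZero.ne q)))

theorem VA_pars (X q : ℕ) [NeZero q] (f : ℕ → ℝ) (θ : ℝ) :
    VA X q f θ = (1 / (q : ℝ)) * ∑ j ∈ range q, ‖Se X f (θ + (j : ℝ) / q)‖ ^ 2 := by
  have h := Pool.MP_dd84fd_nt.L2G.parseval (N := q) (range q) (fun n hn => Finset.mem_range.1 hn)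
    (fun n => fz X q f θ (n : ZMod q))
  unfold av at h
  unfold VA
  rw [MiC_sum_range q (fun b => ‖fz X q f θ b‖ ^ 2), ← h, div_eq_inv_mul, one_div]
  congr 1
  refine Finset.sum_congr rfl fun j _ => ?_
  rw [MiC_Se]

private theorem MiC_logpow (c : ℝ) (n : ℕ) (d : ℝ) (hd : 0 < d) :
    ∃ X0 : ℕ, ∀ X : ℕ, X0 ≤ X → c * Real.log X ^ n ≤ (X : ℝ) ^ d := by
  have h1 : (fun x : ℝ => Real.log x ^ (n : ℝ)) =o[Filter.atTop] fun x : ℝ => x ^ d :=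
    isLittleO_log_rpow_rpow_atTop (n : ℝ) hd
  have h2 := (h1.bound (c := 1 / (|c| + 1)) (by positivity))
  have h3 := (tendsto_natCast_atTop_atTop (R := ℝ)).eventually h2
  obtain ⟨X1, hX1⟩ := Filter.eventually_atTop.1 h3
  refine ⟨max X1 1, fun X hX => ?_⟩
  have h4 := hX1 X (le_trans (le_max_left _ _) hX)
  have hX' : (1 : ℝ) ≤ X := by exact_mod_cast le_trans (le_max_right _ _) hX
  have hL : 0 ≤ Real.log X := Real.log_nonneg hX'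
  rw [Real.rpow_natCast, Real.norm_of_nonneg (by positivity), Real.norm_of_nonneg (by positivity)]
    at h4
  have h5 : c * Real.log X ^ n ≤ |c| * Real.log X ^ n :=
    mul_le_mul_of_nonneg_right (le_abs_self c) (by positivity)
  have h6 : |c| * Real.log X ^ n ≤ |c| * (1 / (|c| + 1) * (X : ℝ) ^ d) :=
    mul_le_mul_of_nonneg_left h4 (abs_nonneg c)
  have h7 : |c| * (1 / (|c| + 1) * (X : ℝ) ^ d) = (|c| / (|c| + 1)) * (X : ℝ) ^ d := by ring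
  have h8 : |c| / (|c| + 1) ≤ 1 := by
    rw [div_le_one (by positivity)]
    linarith
  have h9 : (|c| / (|c| + 1)) * (X : ℝ) ^ d ≤ 1 * (X : ℝ) ^ d :=
    mul_le_mul_of_nonneg_right h8 (by positivity)
  linarith

theorem mi_TI (A C : ℕ) : ∃ B0 : ℕ, ∀ B : ℕ, B0 ≤ B → ∀ th e τ : ℝ, AdE th e τ →
    ∃ X0 : ℕ, ∀ X : ℕ, X0 ≤ X → ∀ (q : ℕ) [NeZero q], Qr th e X q → ∀ (θ : ℝ) (r : ℕ) (c : ℤ),
    MinorHyp X q B θ r c → ∀ γ α : ℕ → ℝ, TyI th e X C γ α →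
    VA X q (fI1 γ α) θ ≤ X ^ 2 / (q * Real.log X ^ A) := by
  obtain ⟨B0, hB0⟩ := mi_ht (A + 4 * C + 4)
  obtain ⟨K, hK, X1, hX1⟩ := bv_type1
  refine ⟨B0, fun B hB th e τ hA => ?_⟩
  obtain ⟨hth, hth2, he, hτ, heτ⟩ := hA
  obtain ⟨X2, hX2⟩ := hB0 B hB (th - e) (by linarith)
  obtain ⟨X3, hX3⟩ := MiC_logpow 2 0 (1 / 4) (by norm_num)
  obtain ⟨X4, hX4⟩ := MiC_logpow (16 * K ^ 2) (A + 4 * C + 2) (39 * e) (by linarith)
  obtain ⟨X5, hX5⟩ : ∃ X5 : ℕ, ∀ X : ℕ, X5 ≤ X → 4 * K ^ 2 + 1 ≤ Real.log X := by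
    have h := (Real.tendsto_log_atTop.comp (tendsto_natCast_atTop_atTop (R := ℝ))).eventually_ge_atTop
      (4 * K ^ 2 + 1)
    obtain ⟨N, hN⟩ := Filter.eventually_atTop.1 h
    exact ⟨N, fun X hX => hN X hX⟩
  refine ⟨max (max X1 X2) (max (max X3 X4) (max X5 3)), fun X hX q _ hq θ r c hm γ α hT => ?_⟩
  have hXX1 : X1 ≤ X := le_trans (le_trans (le_max_left _ _) (le_max_left _ _)) hX
  have hXX2 : X2 ≤ X := le_trans (le_trans (le_max_right _ _) (le_max_left _ _)) hX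
  have hXX3 : X3 ≤ X :=
    le_trans (le_trans (le_trans (le_max_left _ _) (le_max_left _ _)) (le_max_right _ _)) hX
  have hXX4 : X4 ≤ X :=
    le_trans (le_trans (le_trans (le_max_right _ _) (le_max_left _ _)) (le_max_right _ _)) hX
  have hXX5 : X5 ≤ X :=
    le_trans (le_trans (le_trans (le_max_left _ _) (le_max_right _ _)) (le_max_right _ _)) hX
  have hXX6 : 3 ≤ X :=
    le_trans (le_trans (le_trans (le_max_right _ _) (le_max_right _ _)) (le_max_right _ _)) hX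
  have hXr : (3 : ℝ) ≤ X := by exact_mod_cast hXX6
  have hX0 : (0 : ℝ) < X := by linarith
  have hX1' : (1 : ℝ) ≤ X := by linarith
  have hq1 : 1 ≤ q := Nat.one_le_iff_ne_zero.2 (NeZero.ne q)
  have hq0 : (0 : ℝ) < q := by exact_mod_cast hq1
  obtain ⟨hγ, hγv, hα, hα0⟩ := hT
  set L : ℝ := Real.log X with hL
  have hL1 : 4 * K ^ 2 + 1 ≤ L := hX5 X hXX5
  have hLpos : 1 ≤ L := by nlinarith [sq_nonneg K]
  have hL0 : 0 < L := by linarith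
  set R : ℕ := ⌊ZJ th e X⌋₊ with hR
  have hZ0 : 0 ≤ ZJ th e X := by
    unfold ZJ
    positivity
  have hRZ : (R : ℝ) ≤ ZJ th e X := Nat.floor_le hZ0
  have hlv : JX.lv th e ≤ (1 + th) / 2 - 20 * e := min_le_right _ _
  have hRX : R ≤ X := by
    have h1 : ZJ th e X ≤ X := by
      unfold ZJ
      have h2 := hX3 X hXX3
      rw [pow_zero, mul_one] at h2
      have h3 : (X : ℝ) ^ (JX.lv th e) ≤ (X : ℝ) ^ (3 / 4 : ℝ) :=
        Real.rpow_le_rpow_of_exponent_le hX1' (by linarith)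
      calc 2 * (X : ℝ) ^ (JX.lv th e) ≤ (X : ℝ) ^ (1 / 4 : ℝ) * (X : ℝ) ^ (3 / 4 : ℝ) :=
            mul_le_mul h2 h3 (by positivity) (by positivity)
        _ = X := by
            rw [← Real.rpow_add hX0]
            norm_num
    exact_mod_cast hRZ.trans h1
  have hα0' : ∀ l, R < l → α l = 0 := by
    intro l hl
    refine hα0 l ?_
    exact (Nat.floor_lt hZ0).1 hl
  have hES : ∀ j : ℕ, ‖Se X (fI1 γ α) (θ + (j : ℝ) / q)‖ ^ 2 ≤
      2 * K ^ 2 * L ^ (4 * C + 2) *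
        ((X : ℝ) ^ 2 * (1 / GX.ht X (θ + (j : ℝ) / q)) ^ 2 + (R : ℝ) ^ 2) := by
    intro j
    have h1 := hX1 X hXX1 γ α (L ^ C) (L ^ C) R hRX hγ hγv hα hα0' (θ + (j : ℝ) / q)
    have h2 : Se X (fI1 γ α) (θ + (j : ℝ) / q) =
        ES X (fun n => γ n * ∑ l ∈ n.divisors, α l) (θ + (j : ℝ) / q) := rfl
    rw [← h2] at h1
    have h3 := pow_le_pow_left₀ (norm_nonneg _) h1 2
    refine h3.trans ?_
    set t : ℝ := GX.ht X (θ + (j : ℝ) / q) with ht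
    have h4 : (K * L ^ C * L ^ C * ((X : ℝ) / t + R) * L) ^ 2 =
        K ^ 2 * L ^ (4 * C + 2) * ((X : ℝ) * (1 / t) + R) ^ 2 := by
      rw [pow_add, pow_mul]
      have h5 : (L ^ 4) ^ C = (L ^ C) ^ 4 := by
        rw [← pow_mul, ← pow_mul, mul_comm]
      rw [h5]
      ring
    have h6 : (K * L ^ C * L ^ C * ((X : ℝ) / GX.ht X (θ + (j : ℝ) / q) + R) * Real.log X) ^ 2 =
        K ^ 2 * L ^ (4 * C + 2) * ((X : ℝ) * (1 / t) + R) ^ 2 := h4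
    rw [h6]
    have h7 : ((X : ℝ) * (1 / t) + R) ^ 2 ≤ 2 * ((X : ℝ) ^ 2 * (1 / t) ^ 2 + (R : ℝ) ^ 2) := by
      nlinarith [sq_nonneg ((X : ℝ) * (1 / t) - R)]
    calc K ^ 2 * L ^ (4 * C + 2) * ((X : ℝ) * (1 / t) + R) ^ 2
        ≤ K ^ 2 * L ^ (4 * C + 2) * (2 * ((X : ℝ) ^ 2 * (1 / t) ^ 2 + (R : ℝ) ^ 2)) :=
          mul_le_mul_of_nonneg_left h7 (by positivity)
      _ = _ := by ring
  have hsum := hX2 X hXX2 q hq1 (by
    have h1 := hq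
    unfold Qr at h1
    have h2 : 1 - (th - e) = 1 - th + e := by ring
    rw [h2]
    exact h1) θ r c hm
  have hqR : (q : ℝ) * (R : ℝ) ^ 2 ≤ 4 * (X : ℝ) ^ (2 - 39 * e) := by
    have h1 : (R : ℝ) ^ 2 ≤ (ZJ th e X) ^ 2 := pow_le_pow_left₀ (by positivity) hRZ 2
    have h2 : (ZJ th e X) ^ 2 ≤ 4 * (X : ℝ) ^ (1 + th - 40 * e) := by
      unfold ZJ
      rw [mul_pow, ← Real.rpow_natCast ((X : ℝ) ^ (JX.lv th e)) 2, ← Real.rpow_mul hX0.le]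
      have h3 : (X : ℝ) ^ (JX.lv th e * ((2 : ℕ) : ℝ)) ≤ (X : ℝ) ^ (1 + th - 40 * e) := by
        refine Real.rpow_le_rpow_of_exponent_le hX1' ?_
        push_cast
        linarith
      linarith
    have h4 : (q : ℝ) ≤ (X : ℝ) ^ (1 - th + e) := hq
    calc (q : ℝ) * (R : ℝ) ^ 2 ≤ (X : ℝ) ^ (1 - th + e) * (4 * (X : ℝ) ^ (1 + th - 40 * e)) :=
          mul_le_mul h4 (h1.trans h2) (by positivity) (by positivity)
      _ = 4 * ((X : ℝ) ^ (1 - th + e) * (X : ℝ) ^ (1 + th - 40 * e)) := by ring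
      _ = 4 * (X : ℝ) ^ (2 - 39 * e) := by
          rw [← Real.rpow_add hX0]
          congr 2
          ring
  have hX2p : (X : ℝ) ^ (2 - 39 * e) * (X : ℝ) ^ (39 * e) = (X : ℝ) ^ 2 := by
    rw [← Real.rpow_add hX0]
    have : 2 - 39 * e + 39 * e = ((2 : ℕ) : ℝ) := by
      push_cast
      ring
    rw [this, Real.rpow_natCast]
  have h4x := hX4 X hXX4
  rw [VA_pars]
  have hS : ∑ j ∈ range q, ‖Se X (fI1 γ α) (θ + (j : ℝ) / q)‖ ^ 2 ≤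
      2 * K ^ 2 * L ^ (4 * C + 2) * ((X : ℝ) ^ 2 * (1 / L ^ (A + 4 * C + 4)) +
        4 * (X : ℝ) ^ (2 - 39 * e)) := by
    calc ∑ j ∈ range q, ‖Se X (fI1 γ α) (θ + (j : ℝ) / q)‖ ^ 2
        ≤ ∑ j ∈ range q, 2 * K ^ 2 * L ^ (4 * C + 2) *
          ((X : ℝ) ^ 2 * (1 / GX.ht X (θ + (j : ℝ) / q)) ^ 2 + (R : ℝ) ^ 2) :=
          Finset.sum_le_sum fun j _ => hES j
      _ = 2 * K ^ 2 * L ^ (4 * C + 2) * ((X : ℝ) ^ 2 *
          (∑ j ∈ range q, (1 / GX.ht X (θ + (j : ℝ) / q)) ^ 2) + q * (R : ℝ) ^ 2) := by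
          rw [← Finset.mul_sum, Finset.sum_add_distrib, ← Finset.mul_sum, Finset.sum_const,
            Finset.card_range, nsmul_eq_mul]
      _ ≤ _ := by
          refine mul_le_mul_of_nonneg_left ?_ (by positivity)
          refine add_le_add ?_ hqR
          exact mul_le_mul_of_nonneg_left hsum (by positivity)
  have hfin : 2 * K ^ 2 * L ^ (4 * C + 2) * ((X : ℝ) ^ 2 * (1 / L ^ (A + 4 * C + 4)) +
        4 * (X : ℝ) ^ (2 - 39 * e)) ≤ (X : ℝ) ^ 2 / L ^ A := by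
    have hLA : 0 < L ^ A := by positivity
    rw [le_div_iff₀ hLA]
    have h5 : 2 * K ^ 2 * L ^ (4 * C + 2) * ((X : ℝ) ^ 2 * (1 / L ^ (A + 4 * C + 4)) +
        4 * (X : ℝ) ^ (2 - 39 * e)) * L ^ A =
        (2 * K ^ 2 / L ^ 2) * (X : ℝ) ^ 2 +
        (8 * K ^ 2 * L ^ (A + 4 * C + 2)) * (X : ℝ) ^ (2 - 39 * e) := by
      have hL' : L ≠ 0 := hL0.ne'
      rw [show A + 4 * C + 4 = A + (4 * C + 2) + 2 by ring,
        show A + 4 * C + 2 = A + (4 * C + 2) by ring]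
      rw [pow_add, pow_add]
      field_simp
      ring
    rw [h5]
    have h6 : 2 * K ^ 2 / L ^ 2 ≤ 1 / 2 := by
      rw [div_le_iff₀ (by positivity)]
      nlinarith [sq_nonneg K]
    have h7 : (8 * K ^ 2 * L ^ (A + 4 * C + 2)) * (X : ℝ) ^ (2 - 39 * e) ≤
        1 / 2 * (X : ℝ) ^ 2 := by
      have h8 : 8 * K ^ 2 * L ^ (A + 4 * C + 2) ≤ 1 / 2 * (X : ℝ) ^ (39 * e) := by linarith
      calc (8 * K ^ 2 * L ^ (A + 4 * C + 2)) * (X : ℝ) ^ (2 - 39 * e)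
          ≤ (1 / 2 * (X : ℝ) ^ (39 * e)) * (X : ℝ) ^ (2 - 39 * e) :=
            mul_le_mul_of_nonneg_right h8 (by positivity)
        _ = 1 / 2 * (X : ℝ) ^ 2 := by
            rw [← hX2p]
            ring
    have h9 : (2 * K ^ 2 / L ^ 2) * (X : ℝ) ^ 2 ≤ 1 / 2 * (X : ℝ) ^ 2 :=
      mul_le_mul_of_nonneg_right h6 (by positivity)
    linarith
  calc (1 / (q : ℝ)) * ∑ j ∈ range q, ‖Se X (fI1 γ α) (θ + (j : ℝ) / q)‖ ^ 2
      ≤ (1 / (q : ℝ)) * ((X : ℝ) ^ 2 / L ^ A) :=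
        mul_le_mul_of_nonneg_left (hS.trans hfin) (by positivity)
    _ = (X : ℝ) ^ 2 / (q * L ^ A) := by
        field_simp

end Pool.MP_dd84fd_nt.EM
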