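import Pool.Agent.Lib.MP_dd84fd_nt.EM.NC

/-!
# EM-Sm (0.8 h): characters of small conductor

`χ` factors through `d | q`, `d ≤ L^D1`: `χ n = χ₀(n mod d)` for `n` coprime to `q`, `χ₀` mod `d`, and `0` otherwise.  By `nc_l1` (A + 1) the condition `(n, q) = 1` can be dropped from
`Σ_n u(n) χ₀(n) e(nθ)` (`|χ₀| ≤ 1`), error `≤ X/L^(A+1)`.  Then `χ₀(n) = Σ_{j mod d} c_j e(j n/d)`, `|c_j| ≤ 1` (finite Fourier expansion of a function of period `d`, `c_j = (1/d) Σ_x χ₀(x) e(-jx/d)`),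
so the sum is `≤ Σ_{j<d} ‖WI ww gg (-1) w X (j/d + y/r + β)‖`.  `j/d + y/r + β` has height `Ht (L^(D1 + 2B + 1)) X`: reduced fraction of `j/d + y/r` with denominator `q' ≤ d r`, `q'(1 + X|β|) ≤ L^(D1+B)(1 + L^B)`.
`MajI` with exponent `A + D1 + 1` and `B := D1 + 2B + 1`.  The case `χ = 1`: `d = 1`.
`uI ww gg X w n = ww X n - fI gg X w n`, `WI .. (-1)` has `ww + (-1) * fI`; `fS .. (-1)`.
-/

set_option autoImplicit false

namespace Pool.MP_dd84fd_nt.EM

open Finset Pool.MP_67663b_nt.Odd Pool.MP_dd84fd_nt.En Pool.MP_dd84fd_nt.E2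
open Pool.MP_dd84fd_nt.HX Pool.MP_dd84fd_nt.IX
open Pool.MP_dd84fd_nt.JX (ZJ DecJ Str wP gP)
open Pool.MP_dd84fd_nt.L2G (fz VA VQ MajQ MinorHyp Tc Jc cv av gr Se)
open Pool.MP_dd84fd_nt.T7 (Fz2)

/-- finite Fourier expansion -/
private theorem sm_exp (d : ℕ) [NeZero d] (φ : ZMod d → ℂ) (hφ : ∀ x, ‖φ x‖ ≤ 1) :
    ∃ c : ZMod d → ℂ, (∀ j, ‖c j‖ ≤ 1) ∧
      ∀ n : ℕ, φ n = ∑ j : ZMod d, c j * ee ((n : ℝ) * ((j.val : ℝ) / d)) := by
  have hd : (0 : ℝ) < d := by exact_mod_cast Nat.pos_of_ne_zero (NeZero.ne d)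
  refine ⟨fun j => (d : ℂ)⁻¹ * ZMod.dft φ j, ?_, ?_⟩
  · intro j
    have h1 : ‖ZMod.dft φ j‖ ≤ d := by
      rw [ZMod.dft_apply]
      refine (norm_sum_le _ _).trans ?_
      have h2 : ∀ i : ZMod d, ‖ZMod.stdAddChar (-(i * j)) • φ i‖ ≤ 1 := by
        intro i
        rw [norm_smul, ZMod.stdAddChar_apply, Circle.norm_coe, one_mul]
        exact hφ i
      calc ∑ i : ZMod d, ‖ZMod.stdAddChar (-(i * j)) • φ i‖ ≤ ∑ _i : ZMod d, (1 : ℝ) :=
            sum_le_sum fun i _ => h2 i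
        _ = d := by simp
    rw [norm_mul, norm_inv, Complex.norm_natCast, inv_mul_le_iff₀ hd, mul_one]
    exact h1
  · intro n
    have h2 : ZMod.dft.symm (ZMod.dft φ) (n : ZMod d) = φ n := by
      rw [LinearEquiv.symm_apply_apply]
    rw [ZMod.invDFT_apply] at h2
    rw [← h2, smul_eq_mul, mul_sum]
    refine sum_congr rfl fun j _ => ?_
    have h3 : ZMod.stdAddChar (j * (n : ZMod d)) = ee ((n : ℝ) * ((j.val : ℝ) / d)) := by
      have h4 : j * (n : ZMod d) = (((j.val : ℤ) * n : ℤ) : ZMod d) := by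
        push_cast
        rw [ZMod.natCast_zmod_val]
      rw [h4, ZMod.stdAddChar_coe]
      unfold ee
      congr 1
      push_cast
      ring
    rw [h3, smul_eq_mul]
    ring

/-- the height of the shifted points -/
private theorem sm_ht (d r : ℕ) (hd : 1 ≤ d) (hr : 1 ≤ r) (j y : ℤ) (L X β : ℝ) (B D1 : ℕ)
    (hL : 2 ≤ L) (hX : 0 < X) (hdL : (d : ℝ) ≤ L ^ D1) (hrL : (r : ℝ) ≤ L ^ B)
    (hβ : |β| ≤ L ^ B / X) : Ht (L ^ (D1 + 2 * B + 1)) X ((j : ℝ) / d + ((y : ℝ) / r + β)) := by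
  have hd0 : (d : ℝ) ≠ 0 := by
    have : (0 : ℝ) < d := by exact_mod_cast hd
    exact this.ne'
  have hr0 : (r : ℝ) ≠ 0 := by
    have : (0 : ℝ) < r := by exact_mod_cast hr
    exact this.ne'
  let Q : ℚ := ((j * r + y * d : ℤ) : ℚ) / ((d * r : ℤ) : ℚ)
  have hQ : (Q : ℝ) = (j : ℝ) / d + (y : ℝ) / r := by
    simp only [Q]
    push_cast
    field_simp
  have hden : (Q.den : ℤ) ∣ (d * r : ℤ) := by
    have h1 : Q = Rat.divInt (j * r + y * d) (d * r) := by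
      rw [Rat.divInt_eq_div]
    rw [h1]
    exact Rat.den_dvd _ _
  have hden2 : (Q.den : ℝ) ≤ L ^ D1 * L ^ B := by
    have h1 : Q.den ∣ d * r := by
      have h2 : (Q.den : ℤ) ∣ ((d * r : ℕ) : ℤ) := by
        push_cast
        exact hden
      exact_mod_cast h2
    have h3 : Q.den ≤ d * r := Nat.le_of_dvd (Nat.mul_pos hd hr) h1
    have h4 : (Q.den : ℝ) ≤ (d : ℝ) * r := by exact_mod_cast h3
    refine h4.trans ?_
    exact mul_le_mul hdL hrL (Nat.cast_nonneg r) (by positivity)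
  refine ⟨Q.den, Q.num, Q.pos, ?_, ?_⟩
  · have h1 := Q.reduced
    exact h1
  · have h1 : (Q.num : ℝ) / (Q.den : ℝ) = (j : ℝ) / d + (y : ℝ) / r := by
      rw [← hQ]
      exact (Rat.cast_def Q).symm
    have h2 : (j : ℝ) / d + ((y : ℝ) / r + β) - (Q.num : ℝ) / (Q.den : ℝ) = β := by
      rw [h1]
      ring
    rw [h2]
    have h3 : X * |β| ≤ L ^ B := by
      calc X * |β| ≤ X * (L ^ B / X) := mul_le_mul_of_nonneg_left hβ hX.le
        _ = L ^ B := by field_simp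
    have hLB : (1 : ℝ) ≤ L ^ B := one_le_pow₀ (by linarith)
    have h4 : 1 + X * |β| ≤ L ^ (B + 1) := by
      rw [pow_succ]
      nlinarith
    calc (Q.den : ℝ) * (1 + X * |β|) ≤ L ^ D1 * L ^ B * L ^ (B + 1) :=
          mul_le_mul hden2 h4 (by positivity) (by positivity)
      _ = L ^ (D1 + 2 * B + 1) := by ring

theorem sm_char (A B D1 K0 C1 : ℕ) (ww gg : ℕ → ℕ → ℝ) (hW : W1 K0 C1 ww gg)
    (hM : MajI ww gg) : ∃ D0 : ℕ, ∀ D' : ℕ, D0 ≤ D' → ∃ X0 : ℕ, ∀ X : ℕ, X0 ≤ X →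
    ∀ (q : ℕ) [NeZero q], q ≤ X → ∀ (r : ℕ) (y : ℤ) (β : ℝ), Pt X q B r y β →
    ∀ (χ : DirichletCharacter ℂ q) (d : ℕ), d ∣ q → (d : ℝ) ≤ Real.log X ^ D1 →
    χ.FactorsThrough d →
    ‖Tc X q (uI ww gg X (wX D' X)) (y / r + β) χ‖ ≤ X / Real.log X ^ A := by
  classical
  obtain ⟨Da, hDa⟩ := nc_l1 (A + 1) K0 C1
  obtain ⟨Db, hDb⟩ := hM (A + D1 + 1) (D1 + 2 * B + 1)
  refine ⟨max Da Db, fun D' hD' => ?_⟩
  obtain ⟨Xa, hXa⟩ := hDa D' (le_trans (le_max_left _ _) hD') ww gg hW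
  obtain ⟨Xb, hXb⟩ := hDb D' (le_trans (le_max_right _ _) hD')
  refine ⟨max (max Xa Xb) 8, fun X hX q _ hq r y β hP χ d hdq hdL hχ => ?_⟩
  have hXa' : Xa ≤ X := le_trans (le_trans (le_max_left _ _) (le_max_left _ _)) hX
  have hXb' : Xb ≤ X := le_trans (le_trans (le_max_right _ _) (le_max_left _ _)) hX
  have hX8 : 8 ≤ X := le_trans (le_max_right _ _) hX
  have hX0 : (0 : ℝ) < X := by
    have : (8 : ℝ) ≤ X := by exact_mod_cast hX8
    linarith
  have hL : (2 : ℝ) ≤ Real.log X := by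
    have h1 : Real.log 8 ≤ Real.log X :=
      Real.log_le_log (by norm_num) (by exact_mod_cast hX8)
    have h2 : Real.log 8 = 3 * Real.log 2 := by
      rw [show (8 : ℝ) = 2 ^ 3 by norm_num, Real.log_pow]
      norm_num
    have h3 := Real.log_two_gt_d9
    linarith
  have hq0 : 0 < q := Nat.pos_of_ne_zero (NeZero.ne q)
  have hd1 : 1 ≤ d := Nat.pos_of_dvd_of_pos hdq hq0
  have : NeZero d := ⟨by omega⟩
  obtain ⟨hdq', χ₀, hχ₀⟩ := hχ
  obtain ⟨hr1, hrL, _, _, hβ⟩ := hP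
  have hval : ∀ n : ℕ, χ (n : ZMod q) = if Nat.Coprime n q then χ₀ (n : ZMod d) else 0 := by
    intro n
    split_ifs with hn
    · have h1 := DirichletCharacter.changeLevel_eq_cast_of_dvd χ₀ hdq (ZMod.unitOfCoprime n hn)
      rw [ZMod.coe_unitOfCoprime, ZMod.cast_natCast hdq] at h1
      rw [hχ₀]
      exact h1
    · exact MulChar.map_nonunit χ fun h => hn ((ZMod.isUnit_iff_coprime n q).mp h)
  obtain ⟨c, hc1, hc2⟩ := sm_exp d (fun x => χ₀ x) (fun x => DirichletCharacter.norm_le_one χ₀ x)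
  have hfS : ∀ n, fS ww gg (-1) D' X n = uI ww gg X (wX D' X) n := by
    intro n
    unfold fS uI
    ring
  -- splitting
  have hsplit : Tc X q (uI ww gg X (wX D' X)) (y / r + β) χ =
      ∑ n ∈ Icc 1 X, ((uI ww gg X (wX D' X) n : ℝ) : ℂ) * χ₀ (n : ZMod d) *
        ee ((n : ℝ) * (y / r + β)) -
      ∑ n ∈ (Icc 1 X).filter (fun n => ¬ Nat.Coprime n q),
        ((uI ww gg X (wX D' X) n : ℝ) : ℂ) * χ₀ (n : ZMod d) * ee ((n : ℝ) * (y / r + β)) := by
    rw [Finset.sum_filter, ← Finset.sum_sub_distrib]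
    unfold Tc
    refine sum_congr rfl fun n _ => ?_
    rw [hval n]
    by_cases hn : Nat.Coprime n q
    · rw [if_pos hn, if_neg (not_not.mpr hn), sub_zero]
    · rw [if_neg hn, if_pos hn, mul_zero, zero_mul, sub_self]
  have hnee : ∀ x : ℝ, ‖ee x‖ = 1 := by
    intro x
    unfold ee
    rw [show (2 * (Real.pi : ℂ) * (x : ℂ) * Complex.I) = ((2 * Real.pi * x : ℝ) : ℂ) * Complex.I by
      push_cast; ring]
    exact Complex.norm_exp_ofReal_mul_I _
  have hsecond : ‖∑ n ∈ (Icc 1 X).filter (fun n => ¬ Nat.Coprime n q),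
      ((uI ww gg X (wX D' X) n : ℝ) : ℂ) * χ₀ (n : ZMod d) * ee ((n : ℝ) * (y / r + β))‖ ≤
      X / Real.log X ^ (A + 1) := by
    refine (norm_sum_le _ _).trans ?_
    refine le_trans (sum_le_sum fun n _ => ?_) (hXa X hXa' (-1) (by norm_num) q hq0 hq)
    rw [norm_mul, norm_mul, hnee, mul_one, hfS, Complex.norm_real, Real.norm_eq_abs]
    exact mul_le_of_le_one_right (abs_nonneg _) (DirichletCharacter.norm_le_one χ₀ _)
  have hfirst : ‖∑ n ∈ Icc 1 X, ((uI ww gg X (wX D' X) n : ℝ) : ℂ) * χ₀ (n : ZMod d) *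
      ee ((n : ℝ) * (y / r + β))‖ ≤ X / Real.log X ^ (A + 1) := by
    have h1 : ∑ n ∈ Icc 1 X, ((uI ww gg X (wX D' X) n : ℝ) : ℂ) * χ₀ (n : ZMod d) *
        ee ((n : ℝ) * (y / r + β)) =
        ∑ j : ZMod d, c j * WI ww gg (-1) (wX D' X) X ((j.val : ℝ) / d + (y / r + β)) := by
      unfold WI
      simp_rw [mul_sum]
      rw [sum_comm]
      refine sum_congr rfl fun n _ => ?_
      rw [hc2 n, mul_sum, sum_mul]
      refine sum_congr rfl fun j _ => ?_
      have h3 : ee ((n : ℝ) * ((j.val : ℝ) / d + (y / r + β))) =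
          ee ((n : ℝ) * ((j.val : ℝ) / d)) * ee ((n : ℝ) * (y / r + β)) := by
        rw [mul_add, ee_add]
      rw [h3]
      have h2 : ww X n + (-1) * fI gg X (wX D' X) n = uI ww gg X (wX D' X) n := by
        unfold uI
        ring
      rw [h2]
      ring
    rw [h1]
    refine (norm_sum_le _ _).trans ?_
    have h2 : ∀ j : ZMod d, ‖c j * WI ww gg (-1) (wX D' X) X ((j.val : ℝ) / d + (y / r + β))‖ ≤
        X / Real.log X ^ (A + D1 + 1) := by
      intro j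
      rw [norm_mul]
      have h3 := hXb X hXb' ((j.val : ℝ) / d + (y / r + β))
        (by
          have h4 := sm_ht d r hd1 hr1 (j.val : ℤ) y (Real.log X) X β B D1 hL hX0 hdL hrL hβ
          rwa [Int.cast_natCast] at h4)
      exact le_trans (mul_le_of_le_one_left (norm_nonneg _) (hc1 j)) h3
    refine (sum_le_sum fun j _ => h2 j).trans ?_
    rw [sum_const, card_univ, ZMod.card, nsmul_eq_mul]
    have hLp : 0 < Real.log X := by linarith
    have h5 : Real.log X ^ (A + D1 + 1) = Real.log X ^ D1 * Real.log X ^ (A + 1) := by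
      rw [← pow_add]
      congr 1
      omega
    rw [h5, ← div_div, ← mul_div_assoc]
    refine div_le_div_of_nonneg_right ?_ (by positivity)
    rw [← mul_div_assoc, div_le_iff₀ (by positivity), mul_comm (X : ℝ)]
    exact mul_le_mul_of_nonneg_right hdL hX0.le
  rw [hsplit]
  refine (norm_sub_le _ _).trans ?_
  have hLp : 0 < Real.log X := by linarith
  have h6 : (X : ℝ) / Real.log X ^ (A + 1) + X / Real.log X ^ (A + 1) ≤ X / Real.log X ^ A := by
    rw [pow_succ, ← add_div, div_le_div_iff₀ (by positivity) (by positivity)]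
    have h7 : 0 < Real.log X ^ A := by positivity
    have h8 : 0 < (X : ℝ) * Real.log X ^ A := by positivity
    nlinarith
  linarith

end Pool.MP_dd84fd_nt.EM
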