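import Pool.Agent.Lib.MP_dd84fd_nt.EM.TwA
import Pool.Agent.Lib.MP_dd84fd_nt.EM.GoodS
import Pool.Agent.Lib.MP_dd84fd_nt.EM.Sm

/-!
# EM-MjD (1.2 h): the class sums of `u` at a point of the major arcs

`small_card`: a character mod `q` that factors through `d` is determined by a character mod `d`; `Σ_{d ≤ D} φ(d) ≤ D²` (if `D < 1` the set is empty or use `D ≥ 1`).
`mj_dec`: `𝓢` = characters which factor through some `d | q`, `d ≤ L^D1` (contains `1`), `𝓑₀` from `good_S (A + 3) B C`, `𝓑 = 𝓑₀ \ 𝓢` (so all of `𝓑` are `Big`), `𝓖` = the complement of `𝓢 ∪ 𝓑`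
(disjoint from `𝓑₀`, `1 ∉ 𝓖`).  With `w = uI ww gg X (wX D' X)`, `φ = y/r + β`:
`fz w b = [b not a unit] fz w b + PG w univ b` (`PG_univ`), `PG w univ = PG w 𝓢 + PG w 𝓑 + PG w 𝓖`, `PG w 𝓖 = PG us 𝓖 + PG err 𝓖` (`PG_add`).
`Z = [non-unit] fz w + PG w 𝓢 + PG us 𝓖`, `nq Z ≤ 3 (...)`:
`nc_fam (A + 2)` for `fS ww gg (-1) D' X = w`;
`nq (PG w 𝓢) = (Σ_{χ ∈ 𝓢} ‖Tc w χ‖²)/φ(q) ≤ L^(2 D1) (X/L^(A''))²/φ(q)` by `sm_char (A'')`, `A'' = A + D1 + 3`, `q/φ(q) ≤ 2 + 2 log q ≤ 4 L` (`L2G.totient_lower`);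
`nq (PG us 𝓖) ≤ X²/(φ(q) L^(A+3))`.
`C'` comes from `good_S` (it does not depend on `D1`), `D0` from `nc_fam` and `sm_char`.
-/

set_option autoImplicit false

namespace Pool.MP_dd84fd_nt.EM

open Finset Pool.MP_67663b_nt.Odd Pool.MP_dd84fd_nt.En Pool.MP_dd84fd_nt.E2
open Pool.MP_dd84fd_nt.HX Pool.MP_dd84fd_nt.IX
open Pool.MP_dd84fd_nt.JX (ZJ DecJ Str wP gP)
open Pool.MP_dd84fd_nt.L2G (fz VA VQ MajQ MinorHyp Tc Jc cv av gr Se)
open Pool.MP_dd84fd_nt.T7 (Fz2)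

private theorem mjd_factors_card (q d : ℕ) [NeZero q] (hd0 : 1 ≤ d)
    [DecidablePred (fun χ : DirichletCharacter ℂ q => χ.FactorsThrough d)] :
    (univ.filter (fun χ : DirichletCharacter ℂ q => χ.FactorsThrough d)).card ≤ d := by
  classical
  have : NeZero d := ⟨by omega⟩
  by_cases hd : d ∣ q
  · have hsub : univ.filter (fun χ : DirichletCharacter ℂ q => χ.FactorsThrough d) ⊆
        (univ : Finset (DirichletCharacter ℂ d)).image (DirichletCharacter.changeLevel hd) := by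
      intro χ hχ
      have h1 := (Finset.mem_filter.mp hχ).2
      rw [Finset.mem_image]
      exact ⟨h1.χ₀, Finset.mem_univ _, h1.eq_changeLevel.symm⟩
    refine (Finset.card_le_card hsub).trans (Finset.card_image_le.trans ?_)
    rw [Finset.card_univ, ← Nat.card_eq_fintype_card,
      DirichletCharacter.card_eq_totient_of_hasEnoughRootsOfUnity]
    exact Nat.totient_le d
  · have h0 : univ.filter (fun χ : DirichletCharacter ℂ q => χ.FactorsThrough d) = ∅ := by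
      rw [Finset.filter_eq_empty_iff]
      intro χ _ h1
      exact hd h1.dvd
    rw [h0, Finset.card_empty]
    exact Nat.zero_le _

open Classical in
theorem small_card (q : ℕ) [NeZero q] (D : ℝ) (hD : 1 ≤ D) :
    ((univ.filter (fun χ : DirichletCharacter ℂ q =>
      ∃ d : ℕ, d ∣ q ∧ (d : ℝ) ≤ D ∧ χ.FactorsThrough d)).card : ℝ) ≤ D ^ 2 := by
  have hD0 : (0 : ℝ) ≤ D := by linarith
  have hq0 : 0 < q := Nat.pos_of_ne_zero (NeZero.ne q)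
  have hsub : univ.filter (fun χ : DirichletCharacter ℂ q =>
      ∃ d : ℕ, d ∣ q ∧ (d : ℝ) ≤ D ∧ χ.FactorsThrough d) ⊆
      (Icc 1 ⌊D⌋₊).biUnion
        (fun d => univ.filter (fun χ : DirichletCharacter ℂ q => χ.FactorsThrough d)) := by
    intro χ hχ
    obtain ⟨d, h1, h2, h3⟩ := (Finset.mem_filter.mp hχ).2
    rw [Finset.mem_biUnion]
    refine ⟨d, ?_, Finset.mem_filter.mpr ⟨Finset.mem_univ _, h3⟩⟩
    rw [Finset.mem_Icc]
    exact ⟨Nat.pos_of_dvd_of_pos h1 hq0, Nat.le_floor h2⟩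
  have h1 : (univ.filter (fun χ : DirichletCharacter ℂ q =>
      ∃ d : ℕ, d ∣ q ∧ (d : ℝ) ≤ D ∧ χ.FactorsThrough d)).card ≤ ⌊D⌋₊ * ⌊D⌋₊ := by
    refine (Finset.card_le_card hsub).trans (Finset.card_biUnion_le.trans ?_)
    calc ∑ d ∈ Icc 1 ⌊D⌋₊,
          (univ.filter (fun χ : DirichletCharacter ℂ q => χ.FactorsThrough d)).card
        ≤ ∑ _d ∈ Icc 1 ⌊D⌋₊, ⌊D⌋₊ := by
          refine Finset.sum_le_sum fun d hd => ?_
          rw [Finset.mem_Icc] at hd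
          exact (mjd_factors_card q d hd.1).trans hd.2
      _ = ⌊D⌋₊ * ⌊D⌋₊ := by rw [Finset.sum_const, Nat.card_Icc, smul_eq_mul, Nat.add_sub_cancel]
  have h2 : ((univ.filter (fun χ : DirichletCharacter ℂ q =>
      ∃ d : ℕ, d ∣ q ∧ (d : ℝ) ≤ D ∧ χ.FactorsThrough d)).card : ℝ) ≤ (⌊D⌋₊ : ℝ) * ⌊D⌋₊ := by
    exact_mod_cast h1
  refine h2.trans ?_
  have h3 : (⌊D⌋₊ : ℝ) ≤ D := Nat.floor_le hD0
  rw [pow_two]
  exact mul_le_mul h3 h3 (Nat.cast_nonneg _) hD0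

private theorem mjd_nq_three {q : ℕ} [NeZero q] (u v w : ZMod q → ℂ) :
    nq (fun b => u b + v b + w b) ≤ 3 * (nq u + nq v + nq w) := by
  unfold nq
  rw [← Finset.sum_add_distrib, ← Finset.sum_add_distrib, Finset.mul_sum]
  refine Finset.sum_le_sum fun b _ => ?_
  have h1 : ‖u b + v b + w b‖ ≤ ‖u b‖ + ‖v b‖ + ‖w b‖ :=
    (norm_add_le _ _).trans (add_le_add (norm_add_le _ _) le_rfl)
  have h2 : ‖u b + v b + w b‖ ^ 2 ≤ (‖u b‖ + ‖v b‖ + ‖w b‖) ^ 2 :=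
    pow_le_pow_left₀ (norm_nonneg _) h1 2
  nlinarith [sq_nonneg (‖u b‖ - ‖v b‖), sq_nonneg (‖u b‖ - ‖w b‖),
    sq_nonneg (‖v b‖ - ‖w b‖)]

private theorem mjd_num (x q p L S1 S2 S3 : ℝ) (A D1 : ℕ) (hq : 0 < q) (hp : 0 < p) (hL : 6 ≤ L)
    (hqp : q ≤ p * (2 + 2 * L)) (h1 : S1 ≤ x ^ 2 / (q * L ^ (A + 2)))
    (h2 : S2 ≤ (L ^ D1) ^ 2 * (x / L ^ (A + D1 + 3)) ^ 2) (h3 : S3 ≤ x ^ 2 / L ^ (A + 3)) :
    3 * (S1 + S2 / p + S3 / p) ≤ x ^ 2 / (q * L ^ A) := by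
  have hL0 : 0 < L := by linarith
  have hL1 : 1 ≤ L := by linarith
  have hx : 0 ≤ x ^ 2 := by positivity
  have h2' : S2 ≤ x ^ 2 / L ^ (A + 3) := by
    refine h2.trans ?_
    have e1 : L ^ (A + D1 + 3) = L ^ D1 * L ^ (A + 3) := by
      rw [← pow_add]; congr 1; ring
    have e2 : (L ^ D1) ^ 2 * (x / (L ^ D1 * L ^ (A + 3))) ^ 2 =
        x ^ 2 / L ^ (A + 3) * (1 / L ^ (A + 3)) := by
      field_simp
    rw [e1, e2]
    have e3 : 1 / L ^ (A + 3) ≤ 1 := by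
      rw [div_le_one (by positivity)]
      exact one_le_pow₀ hL1
    calc x ^ 2 / L ^ (A + 3) * (1 / L ^ (A + 3)) ≤ x ^ 2 / L ^ (A + 3) * 1 :=
          mul_le_mul_of_nonneg_left e3 (by positivity)
      _ = _ := mul_one _
  have key : ∀ S : ℝ, S ≤ x ^ 2 / L ^ (A + 3) → S / p ≤ 3 * (x ^ 2 / (q * L ^ (A + 2))) := by
    intro S hS
    have c1 : S / p ≤ x ^ 2 / L ^ (A + 3) / p := div_le_div_of_nonneg_right hS hp.le
    have c2 : 1 / p ≤ 3 * L / q := by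
      rw [div_le_div_iff₀ hp hq]
      nlinarith
    calc S / p ≤ x ^ 2 / L ^ (A + 3) / p := c1
      _ = x ^ 2 / L ^ (A + 3) * (1 / p) := by ring
      _ ≤ x ^ 2 / L ^ (A + 3) * (3 * L / q) := mul_le_mul_of_nonneg_left c2 (by positivity)
      _ = 3 * (x ^ 2 / (q * L ^ (A + 2))) := by
          field_simp
          ring
  have k2 := key S2 h2'
  have k3 := key S3 h3
  have e4 : 21 * (x ^ 2 / (q * L ^ (A + 2))) ≤ x ^ 2 / (q * L ^ A) := by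
    have c1 : 21 * (x ^ 2 / (q * L ^ (A + 2))) = x ^ 2 / (q * L ^ A) * (21 / L ^ 2) := by
      field_simp
      ring
    have c2 : 21 / L ^ 2 ≤ 1 := by
      rw [div_le_one (by positivity)]
      nlinarith
    rw [c1]
    calc x ^ 2 / (q * L ^ A) * (21 / L ^ 2) ≤ x ^ 2 / (q * L ^ A) * 1 :=
          mul_le_mul_of_nonneg_left c2 (by positivity)
      _ = _ := mul_one _
  linarith

theorem mj_dec (A B C K0 C1 : ℕ) (th e τ : ℝ) (hA : AdE th e τ) (ww gg : ℕ → ℕ → ℝ)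
    (hW : W1 K0 C1 ww gg) (hM : MajI ww gg) : ∃ C' : ℕ, ∀ D1 : ℕ, ∃ D0 : ℕ, ∀ D' : ℕ, D0 ≤ D' →
    ∃ X0 : ℕ, ∀ X : ℕ, X0 ≤ X → ∀ us err : ℕ → ℝ, Str C th e τ X us →
    (∀ n ∈ Icc 1 X, uI ww gg X (wX D' X) n = us n + err n) →
    ∀ (q : ℕ) [NeZero q], Qr th e X q → ∀ (r : ℕ) (y : ℤ) (β : ℝ), Pt X q B r y β →
    ∃ (𝓑 𝓖 : Finset (DirichletCharacter ℂ q)) (Z : ZMod q → ℂ),
      (𝓑.card : ℝ) ≤ Real.log X ^ C' ∧ (∀ χ ∈ 𝓑, Big q (Real.log X ^ D1) χ) ∧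
      nq Z ≤ X ^ 2 / (q * Real.log X ^ A) ∧
      ∀ b, fz X q (uI ww gg X (wX D' X)) (y / r + β) b = Z b +
        PG X q (uI ww gg X (wX D' X)) (y / r + β) 𝓑 b + PG X q err (y / r + β) 𝓖 b := by
  classical
  obtain ⟨C', Xg, hg⟩ := good_S (A + 3) B C th e τ hA
  refine ⟨C', fun D1 => ?_⟩
  obtain ⟨Dn, hDn⟩ := nc_fam (A + 2) K0 C1
  obtain ⟨Ds, hDs⟩ := sm_char (A + D1 + 3) B D1 K0 C1 ww gg hW hM
  refine ⟨max Dn Ds, fun D' hD' => ?_⟩
  obtain ⟨X1, hX1⟩ := hDn D' ((le_max_left _ _).trans hD') ww gg hW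
  obtain ⟨X2, hX2⟩ := hDs D' ((le_max_right _ _).trans hD')
  have hlog : ∀ᶠ X : ℕ in Filter.atTop, (6 : ℝ) ≤ Real.log X :=
    (Real.tendsto_log_atTop.comp tendsto_natCast_atTop_atTop).eventually_ge_atTop 6
  obtain ⟨X3, hX3⟩ := Filter.eventually_atTop.mp hlog
  refine ⟨max (max Xg X1) (max X2 (max X3 1)), fun X hX us err hus hue q _ hq r y β hPt => ?_⟩
  have hXg : Xg ≤ X := (le_max_left _ _).trans ((le_max_left _ _).trans hX)
  have hXX1 : X1 ≤ X := (le_max_right _ _).trans ((le_max_left _ _).trans hX)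
  have hXX2 : X2 ≤ X := (le_max_left _ _).trans ((le_max_right _ _).trans hX)
  have hXX3 : X3 ≤ X :=
    (le_max_left _ _).trans ((le_max_right _ _).trans ((le_max_right _ _).trans hX))
  have hXX4 : 1 ≤ X :=
    (le_max_right _ _).trans ((le_max_right _ _).trans ((le_max_right _ _).trans hX))
  have hq0 : 0 < q := Nat.pos_of_ne_zero (NeZero.ne q)
  have hq1 : (0 : ℝ) < q := by exact_mod_cast hq0
  have hp0 : (0 : ℝ) < (Nat.totient q : ℝ) := by exact_mod_cast Nat.totient_pos.mpr hq0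
  have hX1r : (1 : ℝ) ≤ X := by exact_mod_cast hXX4
  have hqX : q ≤ X := by
    have h1 : (q : ℝ) ≤ (X : ℝ) ^ (1 - th + e) := hq
    have h2 : (X : ℝ) ^ (1 - th + e) ≤ (X : ℝ) ^ (1 : ℝ) := by
      refine Real.rpow_le_rpow_of_exponent_le hX1r ?_
      obtain ⟨h3, h4, h5, h6, h7⟩ := hA
      linarith
    rw [Real.rpow_one] at h2
    exact_mod_cast h1.trans h2
  have hL : 6 ≤ Real.log (X : ℝ) := hX3 X hXX3
  have hL1 : 1 ≤ Real.log (X : ℝ) := by linarith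
  have hqp : (q : ℝ) ≤ (Nat.totient q : ℝ) * (2 + 2 * Real.log X) := by
    refine (L2G.totient_lower q hq0).trans ?_
    refine mul_le_mul_of_nonneg_left ?_ hp0.le
    have h1 : Real.log q ≤ Real.log X := Real.log_le_log hq1 (by exact_mod_cast hqX)
    linarith
  have hfun : fS ww gg (-1) D' X = uI ww gg X (wX D' X) := by
    funext n
    unfold fS uI
    ring
  obtain ⟨W, hWd⟩ : ∃ W : ℕ → ℝ, W = uI ww gg X (wX D' X) := ⟨_, rfl⟩
  obtain ⟨φ, hφ⟩ : ∃ φ : ℝ, φ = (y : ℝ) / r + β := ⟨_, rfl⟩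
  obtain ⟨𝓑₀, hB1, hB2⟩ := hg X hXg q hq r y β hPt us hus
  have hT := hX1 X hXX1 (-1) (by norm_num) q hqX (y / r + β)
  rw [hfun] at hT
  have hS := hX2 X hXX2 q hqX r y β hPt
  rw [← hφ] at hB2
  rw [← hWd, ← hφ] at hT hS
  rw [← hWd] at hue
  rw [← hWd, ← hφ]
  -- the characters of small conductor
  obtain ⟨𝓢, h𝓢⟩ : ∃ 𝓢 : Finset (DirichletCharacter ℂ q),
      𝓢 = univ.filter (fun χ : DirichletCharacter ℂ q =>
        ∃ d : ℕ, d ∣ q ∧ (d : ℝ) ≤ Real.log X ^ D1 ∧ χ.FactorsThrough d) := ⟨_, rfl⟩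
  have hScard : (𝓢.card : ℝ) ≤ (Real.log X ^ D1) ^ 2 := by
    have h1 := small_card q (Real.log X ^ D1) (one_le_pow₀ hL1)
    rw [h𝓢]
    exact h1
  have hSum : ∑ χ ∈ 𝓢, ‖Tc X q W φ χ‖ ^ 2 ≤
      (Real.log X ^ D1) ^ 2 * (X / Real.log X ^ (A + D1 + 3)) ^ 2 := by
    have h1 : ∀ χ ∈ 𝓢, ‖Tc X q W φ χ‖ ^ 2 ≤ (X / Real.log X ^ (A + D1 + 3)) ^ 2 := by
      intro χ hχ
      rw [h𝓢] at hχ
      obtain ⟨d, hd, hdL, hdf⟩ := (Finset.mem_filter.mp hχ).2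
      exact pow_le_pow_left₀ (norm_nonneg _) (hS χ d hd hdL hdf) 2
    refine (Finset.sum_le_sum h1).trans ?_
    rw [Finset.sum_const, nsmul_eq_mul]
    exact mul_le_mul_of_nonneg_right hScard (by positivity)
  have h1S : (1 : DirichletCharacter ℂ q) ∈ 𝓢 := by
    rw [h𝓢, Finset.mem_filter]
    refine ⟨Finset.mem_univ _, 1, one_dvd _, ?_, ?_⟩
    · rw [Nat.cast_one]
      exact one_le_pow₀ hL1
    · exact (DirichletCharacter.factorsThrough_one_iff _).mpr rfl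
  obtain ⟨𝓑, h𝓑⟩ : ∃ 𝓑 : Finset (DirichletCharacter ℂ q),
      𝓑 = 𝓑₀.filter (fun χ => χ ∉ 𝓢) := ⟨_, rfl⟩
  obtain ⟨𝓖, h𝓖⟩ : ∃ 𝓖 : Finset (DirichletCharacter ℂ q),
      𝓖 = univ.filter (fun χ => χ ∉ 𝓢 ∧ χ ∉ 𝓑₀) := ⟨_, rfl⟩
  have hG1 : (1 : DirichletCharacter ℂ q) ∉ 𝓖 := by
    rw [h𝓖, Finset.mem_filter]
    rintro ⟨-, h1, -⟩
    exact h1 h1S
  have hG2 : Disjoint 𝓖 𝓑₀ := by
    rw [Finset.disjoint_left]
    intro χ h1 h2
    rw [h𝓖] at h1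
    exact (Finset.mem_filter.mp h1).2.2 h2
  have hG := hB2 𝓖 hG1 hG2
  refine ⟨𝓑, 𝓖, fun b => (if IsUnit b then 0 else fz X q W φ b) + PG X q W φ 𝓢 b +
    PG X q us φ 𝓖 b, ?_, ?_, ?_, ?_⟩
  · refine le_trans ?_ hB1
    rw [h𝓑]
    exact_mod_cast Finset.card_filter_le _ _
  · intro χ hχ
    rw [h𝓑] at hχ
    have h1 := (Finset.mem_filter.mp hχ).2
    intro d hd hdL hdf
    apply h1
    rw [h𝓢, Finset.mem_filter]
    exact ⟨Finset.mem_univ _, d, hd, hdL, hdf⟩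
  · refine (mjd_nq_three _ _ _).trans ?_
    rw [PG_sq, PG_sq]
    have h0 : nq (fun b : ZMod q => if IsUnit b then 0 else fz X q W φ b) ≤
        X ^ 2 / (q * Real.log X ^ (A + 2)) := by
      refine le_trans (le_of_eq ?_) hT
      unfold nq
      rw [Finset.sum_filter]
      refine Finset.sum_congr rfl fun b _ => ?_
      beta_reduce
      by_cases hb : IsUnit b
      · rw [if_pos hb, if_neg (not_not.mpr hb), norm_zero]
        norm_num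
      · rw [if_neg hb, if_pos hb]
    exact mjd_num X q (Nat.totient q) (Real.log X) _ _ _ A D1 hq1 hp0 hL hqp h0 hSum hG
  · intro b
    have h1 := PG_univ X q W φ b
    have h2 : PG X q W φ univ b = PG X q W φ 𝓢 b + PG X q W φ 𝓑 b + PG X q W φ 𝓖 b := by
      unfold PG
      rw [← mul_add, ← mul_add]
      congr 1
      have e1 : (univ : Finset (DirichletCharacter ℂ q)) = (𝓢 ∪ 𝓑) ∪ 𝓖 := by
        ext χ
        rw [h𝓑, h𝓖]
        simp only [Finset.mem_univ, Finset.mem_union, Finset.mem_filter, true_and, true_iff]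
        tauto
      have d1 : Disjoint 𝓢 𝓑 := by
        rw [Finset.disjoint_left]
        intro χ h1 h2
        rw [h𝓑] at h2
        exact (Finset.mem_filter.mp h2).2 h1
      have d2 : Disjoint (𝓢 ∪ 𝓑) 𝓖 := by
        rw [Finset.disjoint_left]
        intro χ h1 h2
        rw [h𝓖] at h2
        have h3 := (Finset.mem_filter.mp h2).2
        rcases Finset.mem_union.mp h1 with h4 | h4
        · exact h3.1 h4
        · rw [h𝓑] at h4
          exact h3.2 (Finset.mem_filter.mp h4).1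
      rw [e1, Finset.sum_union d2, Finset.sum_union d1]
    have h3 := PG_add X q W us err hue φ 𝓖 b
    beta_reduce
    by_cases hb : IsUnit b
    · rw [if_pos hb] at h1
      rw [if_pos hb, ← h1, h2, h3]
      ring
    · rw [if_neg hb] at h1
      rw [if_neg hb]
      have h4 : PG X q W φ 𝓢 b + PG X q W φ 𝓑 b + PG X q W φ 𝓖 b = 0 := by rw [← h2, h1]
      rw [h3] at h4
      linear_combination -h4

end Pool.MP_dd84fd_nt.EM
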