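import Pool.Agent.Lib.MP_dd84fd_nt.EM.TwA
import Pool.Agent.Lib.MP_dd84fd_nt.L2G.BadAlg

/-!
# EM-PrA (0.8 h): pairs of class functions, algebra

`x = c/(q t)`, `T = Tw q t x`.
`pr_hu`: `T (Z + P + E) = T Z + T P + T E`; `cq (T h) (T P) a = T (cq h P) a` (`Tw_cq`) is a sum of `t` terms `ee * cq h P a'` with `a'` above `a`, so `≤ t S`.  The other two: `cq_le`, `Tw_nq`.
`‖x + y + z‖² ≤ 3 (...)`.
`pr_uu`: `U = Z + P + E`, `cq (T U) (T U) = cq (T P) (T P) + cq (T P) (T Z + T E) + cq (T Z + T E) (T U)` (bilinear; `cq` of `T P` with `T Z + T E` on the right; the last one is `cq ε (T U)`,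
check: `cq (v + ε) (v + ε) = cq v v + cq v ε + cq ε (v + ε)`).
`nq (T Z + T E) ≤ 2 t nq Z + 2 nq (T E)`, `nq (T P) ≤ t nq P`, `nq (T U) = nq (T U)`.
`PG_cq`: `cq (PG f 𝓑) (PG g 𝓑') a = φ(q)⁻² Σ_χ Σ_ψ Tc f χ Tc g ψ Jc a χ⁻¹ ψ⁻¹` (compare `L2G.ba_main`).
`PG_hq`: `cq h (PG f 𝓑) a = φ(q)⁻¹ Σ_{χ ∈ 𝓑} Tc f χ Σ_b χ⁻¹ b h (a - b)` (substitute `b ↦ a - b`).
-/

set_option autoImplicit false

namespace Pool.MP_dd84fd_nt.EM

open Finset Pool.MP_67663b_nt.Odd Pool.MP_dd84fd_nt.En Pool.MP_dd84fd_nt.E2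
open Pool.MP_dd84fd_nt.HX Pool.MP_dd84fd_nt.IX
open Pool.MP_dd84fd_nt.JX (ZJ DecJ Str wP gP)
open Pool.MP_dd84fd_nt.L2G (fz VA VQ MajQ MinorHyp Tc Jc cv av gr Se)
open Pool.MP_dd84fd_nt.T7 (Fz2)

private theorem PrA_cq_add {q : ℕ} [NeZero q] (v w w' : ZMod q → ℂ) (a : ZMod q) :
    cq v (fun b => w b + w' b) a = cq v w a + cq v w' a := by
  unfold cq
  rw [← Finset.sum_add_distrib]
  exact Finset.sum_congr rfl fun b _ => by ring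

private theorem PrA_add_cq {q : ℕ} [NeZero q] (v v' w : ZMod q → ℂ) (a : ZMod q) :
    cq (fun b => v b + v' b) w a = cq v w a + cq v' w a := by
  unfold cq
  rw [← Finset.sum_add_distrib]
  exact Finset.sum_congr rfl fun b _ => by ring

private theorem PrA_nq_nonneg {q : ℕ} [NeZero q] (v : ZMod q → ℂ) : 0 ≤ nq v :=
  Finset.sum_nonneg fun _ _ => sq_nonneg _

private theorem PrA_nq_add {q : ℕ} [NeZero q] (v w : ZMod q → ℂ) :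
    nq (fun b => v b + w b) ≤ 2 * nq v + 2 * nq w := by
  unfold nq
  rw [Finset.mul_sum, Finset.mul_sum, ← Finset.sum_add_distrib]
  refine Finset.sum_le_sum fun b _ => ?_
  have h1 := norm_add_le (v b) (w b)
  have h2 := norm_nonneg (v b + w b)
  nlinarith [sq_nonneg (‖v b‖ - ‖w b‖), norm_nonneg (v b), norm_nonneg (w b)]

private theorem PrA_three (x y z : ℂ) :
    ‖x + y + z‖ ^ 2 ≤ 3 * (‖x‖ ^ 2 + ‖y‖ ^ 2 + ‖z‖ ^ 2) := by
  have h1 : ‖x + y + z‖ ≤ ‖x‖ + ‖y‖ + ‖z‖ := norm_add₃_le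
  have h2 := pow_le_pow_left₀ (norm_nonneg _) h1 2
  nlinarith [sq_nonneg (‖x‖ - ‖y‖), sq_nonneg (‖x‖ - ‖z‖), sq_nonneg (‖y‖ - ‖z‖)]

private theorem PrA_Tw_le (q t : ℕ) [NeZero q] [NeZero t] (x : ℝ) (g : ZMod (q * t) → ℂ)
    (a : ZMod q) (S : ℝ)
    (hS : ∀ a' : ZMod (q * t), ((a'.val : ℕ) : ZMod q) = a → ‖g a'‖ ≤ S) :
    ‖Tw q t x g a‖ ≤ t * S := by
  unfold Tw
  refine (norm_sum_le _ _).trans ?_
  have h1 : ∀ j ∈ range t, ‖ee (x * ((a.val + q * j : ℕ) : ℝ)) *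
      g ((a.val + q * j : ℕ) : ZMod (q * t))‖ ≤ S := by
    intro j hj
    rw [norm_mul, norm_ee, one_mul]
    apply hS
    rw [ZMod.val_natCast]
    have h2 : (a.val + q * j) % (q * t) ≡ a.val + q * j [MOD q] :=
      (Nat.mod_modEq _ (q * t)).of_dvd (Dvd.intro t rfl)
    rw [(ZMod.natCast_eq_natCast_iff _ _ q).mpr h2]
    push_cast
    rw [ZMod.natCast_zmod_val]
    simp
  refine (Finset.sum_le_sum h1).trans ?_
  simp

theorem pr_hu (q t : ℕ) [NeZero q] [NeZero t] (c : ℤ) (h Z P E : ZMod (q * t) → ℂ) (a : ZMod q)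
    (S : ℝ) (hS : ∀ a' : ZMod (q * t), ((a'.val : ℕ) : ZMod q) = a → ‖cq h P a'‖ ≤ S) :
    ‖cq (Tw q t ((c : ℝ) / (q * t : ℕ)) h)
        (Tw q t ((c : ℝ) / (q * t : ℕ)) (fun b => Z b + P b + E b)) a‖ ^ 2 ≤
      3 * (t * S) ^ 2 + 3 * nq (Tw q t ((c : ℝ) / (q * t : ℕ)) h) *
        (t * nq Z + nq (Tw q t ((c : ℝ) / (q * t : ℕ)) E)) := by
  set x : ℝ := (c : ℝ) / (q * t : ℕ) with hx
  have h1 : Tw q t x (fun b => Z b + P b + E b) =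
      fun b => (fun b' => Tw q t x Z b' + Tw q t x P b') b + Tw q t x E b := by
    funext b
    rw [Tw_add q t x (fun b => Z b + P b) E b, Tw_add q t x Z P b]
  rw [h1, PrA_cq_add, PrA_cq_add]
  refine (PrA_three _ _ _).trans ?_
  have hZ : ‖cq (Tw q t x h) (Tw q t x Z) a‖ ^ 2 ≤ nq (Tw q t x h) * (t * nq Z) :=
    (cq_le _ _ a).trans (mul_le_mul_of_nonneg_left (Tw_nq q t x Z) (PrA_nq_nonneg _))
  have hE : ‖cq (Tw q t x h) (Tw q t x E) a‖ ^ 2 ≤ nq (Tw q t x h) * nq (Tw q t x E) :=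
    cq_le _ _ a
  have hP : ‖cq (Tw q t x h) (Tw q t x P) a‖ ^ 2 ≤ (t * S) ^ 2 := by
    rw [hx, Tw_cq]
    exact pow_le_pow_left₀ (norm_nonneg _) (PrA_Tw_le q t _ _ a S hS) 2
  nlinarith

theorem pr_uu (q t : ℕ) [NeZero q] [NeZero t] (c : ℤ) (Z P E : ZMod (q * t) → ℂ) (a : ZMod q)
    (S : ℝ) (hS : ∀ a' : ZMod (q * t), ((a'.val : ℕ) : ZMod q) = a → ‖cq P P a'‖ ≤ S) :
    ‖cq (Tw q t ((c : ℝ) / (q * t : ℕ)) (fun b => Z b + P b + E b))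
        (Tw q t ((c : ℝ) / (q * t : ℕ)) (fun b => Z b + P b + E b)) a‖ ^ 2 ≤
      3 * (t * S) ^ 2 + 6 * (t * nq P +
        nq (Tw q t ((c : ℝ) / (q * t : ℕ)) (fun b => Z b + P b + E b))) *
        (t * nq Z + nq (Tw q t ((c : ℝ) / (q * t : ℕ)) E)) := by
  set x : ℝ := (c : ℝ) / (q * t : ℕ) with hx
  set U : ZMod (q * t) → ℂ := fun b => Z b + P b + E b with hU
  set ε : ZMod q → ℂ := fun b => Tw q t x Z b + Tw q t x E b with hε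
  have h1 : Tw q t x U = fun b => Tw q t x P b + ε b := by
    funext b
    rw [hU, hε, Tw_add q t x (fun b => Z b + P b) E b, Tw_add q t x Z P b]
    ring
  have h2 : cq (Tw q t x U) (Tw q t x U) a =
      cq (Tw q t x P) (Tw q t x P) a + cq (Tw q t x P) ε a + cq ε (Tw q t x U) a := by
    calc cq (Tw q t x U) (Tw q t x U) a
        = cq (fun b => Tw q t x P b + ε b) (Tw q t x U) a := by rw [h1]
      _ = cq (Tw q t x P) (Tw q t x U) a + cq ε (Tw q t x U) a := PrA_add_cq _ _ _ a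
      _ = cq (Tw q t x P) (fun b => Tw q t x P b + ε b) a + cq ε (Tw q t x U) a := by rw [h1]
      _ = _ := by rw [PrA_cq_add]
  rw [h2]
  refine (PrA_three _ _ _).trans ?_
  have hP : ‖cq (Tw q t x P) (Tw q t x P) a‖ ^ 2 ≤ (t * S) ^ 2 := by
    rw [hx, Tw_cq]
    exact pow_le_pow_left₀ (norm_nonneg _) (PrA_Tw_le q t _ _ a S hS) 2
  have hεn : nq ε ≤ 2 * (t * nq Z + nq (Tw q t x E)) := by
    refine (PrA_nq_add _ _).trans ?_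
    have := Tw_nq q t x Z
    linarith
  have hPn := Tw_nq q t x P
  have h3 : ‖cq (Tw q t x P) ε a‖ ^ 2 ≤ (t * nq P) * (2 * (t * nq Z + nq (Tw q t x E))) :=
    (cq_le _ _ a).trans (mul_le_mul hPn hεn (PrA_nq_nonneg _)
      ((PrA_nq_nonneg _).trans hPn))
  have h4 : ‖cq ε (Tw q t x U) a‖ ^ 2 ≤
      (2 * (t * nq Z + nq (Tw q t x E))) * nq (Tw q t x U) :=
    (cq_le _ _ a).trans (mul_le_mul_of_nonneg_right hεn (PrA_nq_nonneg _))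
  nlinarith

theorem PG_cq (X q : ℕ) [NeZero q] (f g : ℕ → ℝ) (φ : ℝ)
    (𝓑 𝓑' : Finset (DirichletCharacter ℂ q)) (a : ZMod q) :
    cq (PG X q f φ 𝓑) (PG X q g φ 𝓑') a = (1 / (Nat.totient q : ℂ) ^ 2) *
      ∑ χ ∈ 𝓑, ∑ ψ ∈ 𝓑', Tc X q f φ χ * Tc X q g φ ψ *
        Jc q a (χ⁻¹ : DirichletCharacter ℂ q) (ψ⁻¹ : DirichletCharacter ℂ q) := by
  unfold cq PG Jc
  have h1 : ∀ b : ZMod q, (1 / (Nat.totient q : ℂ)) *
      (∑ χ ∈ 𝓑, (χ⁻¹ : DirichletCharacter ℂ q) b * Tc X q f φ χ) *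
      ((1 / (Nat.totient q : ℂ)) * ∑ χ ∈ 𝓑', (χ⁻¹ : DirichletCharacter ℂ q) (a - b) *
        Tc X q g φ χ) = (1 / (Nat.totient q : ℂ) ^ 2) *
      ∑ χ ∈ 𝓑, ∑ ψ ∈ 𝓑', Tc X q f φ χ * Tc X q g φ ψ *
        ((χ⁻¹ : DirichletCharacter ℂ q) b * (ψ⁻¹ : DirichletCharacter ℂ q) (a - b)) := by
    intro b
    have h2 : (1 / (Nat.totient q : ℂ)) *
        (∑ χ ∈ 𝓑, (χ⁻¹ : DirichletCharacter ℂ q) b * Tc X q f φ χ) *
        ((1 / (Nat.totient q : ℂ)) * ∑ χ ∈ 𝓑', (χ⁻¹ : DirichletCharacter ℂ q) (a - b) *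
          Tc X q g φ χ) = (1 / (Nat.totient q : ℂ) ^ 2) *
        ((∑ χ ∈ 𝓑, (χ⁻¹ : DirichletCharacter ℂ q) b * Tc X q f φ χ) *
        (∑ χ ∈ 𝓑', (χ⁻¹ : DirichletCharacter ℂ q) (a - b) * Tc X q g φ χ)) := by
      ring
    rw [h2, Finset.sum_mul_sum]
    congr 1
    refine Finset.sum_congr rfl fun χ _ => Finset.sum_congr rfl fun ψ _ => ?_
    ring
  rw [Finset.sum_congr rfl fun b _ => h1 b, ← Finset.mul_sum, Finset.sum_comm]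
  congr 1
  refine Finset.sum_congr rfl fun χ _ => ?_
  rw [Finset.sum_comm]
  refine Finset.sum_congr rfl fun ψ _ => ?_
  rw [Finset.mul_sum]

theorem PG_hq (X q : ℕ) [NeZero q] (f : ℕ → ℝ) (φ : ℝ) (h : ZMod q → ℂ)
    (𝓑 : Finset (DirichletCharacter ℂ q)) (a : ZMod q) :
    cq h (PG X q f φ 𝓑) a = (1 / (Nat.totient q : ℂ)) *
      ∑ χ ∈ 𝓑, Tc X q f φ χ * ∑ b : ZMod q, (χ⁻¹ : DirichletCharacter ℂ q) b * h (a - b) := by
  have h0 : cq h (PG X q f φ 𝓑) a = ∑ b : ZMod q, h (a - b) * PG X q f φ 𝓑 b := by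
    unfold cq
    refine Fintype.sum_equiv (Equiv.subLeft a) _ _ (fun b => ?_)
    rw [Equiv.subLeft_apply, sub_sub_cancel]
  rw [h0]
  unfold PG
  have h1 : ∀ b : ZMod q, h (a - b) * ((1 / (Nat.totient q : ℂ)) *
      ∑ χ ∈ 𝓑, (χ⁻¹ : DirichletCharacter ℂ q) b * Tc X q f φ χ) =
      (1 / (Nat.totient q : ℂ)) * ∑ χ ∈ 𝓑, Tc X q f φ χ *
        ((χ⁻¹ : DirichletCharacter ℂ q) b * h (a - b)) := by
    intro b
    have h2 : h (a - b) * ((1 / (Nat.totient q : ℂ)) *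
        ∑ χ ∈ 𝓑, (χ⁻¹ : DirichletCharacter ℂ q) b * Tc X q f φ χ) =
        (1 / (Nat.totient q : ℂ)) * (h (a - b) *
          ∑ χ ∈ 𝓑, (χ⁻¹ : DirichletCharacter ℂ q) b * Tc X q f φ χ) := by
      ring
    rw [h2, Finset.mul_sum]
    congr 1
    refine Finset.sum_congr rfl fun χ _ => ?_
    ring
  rw [Finset.sum_congr rfl fun b _ => h1 b, ← Finset.mul_sum, Finset.sum_comm]
  congr 1
  refine Finset.sum_congr rfl fun χ _ => ?_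
  rw [Finset.mul_sum]

end Pool.MP_dd84fd_nt.EM
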