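import Pool.Agent.Lib.MP_dd84fd_nt.EM.MjD
import Pool.Agent.Lib.MP_dd84fd_nt.EM.PrA
import Pool.Agent.Lib.MP_dd84fd_nt.EM.NC
import Pool.Agent.Lib.MP_dd84fd_nt.L2G.ClassSplit

/-!
# EM-MjH (1.2 h): `Fz2 h u` on the major arcs

Write `w = uI ww gg X (wX D' X)`, `L = log X`.  For `X` large `|w n| ≤ L²` on `Icc 1 X` (`W1`, `f1_le`).  `mj_dec (A + 2B + 6) B C ...` gives `C'`; `A' = A + C' + 2B + 8` in `mj_H`.
Given `q ≤ X^(1-th)`; for `t`, `φ` with `PtT X q B t φ`: `PtT.pt` gives `(r, y, β)` with `Pt X (q t) B r y β`, and `q t ≤ X^(1-th) L^B ≤ X^(1-th+e)`: `Qr th e X (q t)`.  `mj_dec` at `(q t, r, y, β)` gives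
`𝓑, 𝓖, Z`; let `𝓖 t φ` be this `𝓖` (by choice; `∅` if `PtT` fails; the choice depends on `t, φ` only).  For `θ = c/(q t) + φ`:
`Fz2 X q h w θ a = cq (fz X q h θ) (fz X q w θ) a` (`T7.Fz2_eq`), `fz X q h θ = Tw (fz X (q t) h φ)` (`Tw_fz`), same for `w`; `pr_hu` with `P = PG w 𝓑`, `E = PG err 𝓖`.
`S`: `PG_hq`: `≤ φ(qt)⁻¹ L^C' (X L²) X/L^(A')` (`|Tc w| ≤ Σ |w| ≤ X L²`; `H3` for `χ⁻¹`, which is `Big` as well; the class `a'` above `a` has `gcd(a', q t) ≤ gcd(a,q) t ≤ L^(K+B)`, `split_gcd`);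
`1/φ(qt) ≤ 4 L/(q t)`.  So `3 (t S)² ≤ X⁴/(2 q² L^A)`.
`nq (Tw (fz h)) = VA X q h θ ≤ (X/q + 1) Σ h² ≤ 2 X² L⁴/q` (`VA_trivial`), so the second term is `≤ 6 X² L⁴/q (t X²/(q t L^(A+2B+6)) + nq (Tw E))`.
`mj_U`: the same with `pr_uu`; `S` from `PG_cq`: `‖Jc a' χ⁻¹ ψ⁻¹‖² √D ≤ 2 gcd(a',Q) Q²` (`Jc_bound`, `D = ⌊L^D1⌋`), so `S ≤ φ(Q)⁻² L^(2C') (X L²)² √2 L^((K+B)/2) Q (L^D1/2)^(-1/4)`: `D0 = 4 (A + 2C' + K + 3B + 12)` (first `∃ D0`);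
`nq P ≤ VA X Q w φ ≤ 2 X² L⁴/Q` (`PG_le`), `nq (Tw U) = VA X q w θ`.
-/

set_option autoImplicit false

namespace Pool.MP_dd84fd_nt.EM

open Finset Pool.MP_67663b_nt.Odd Pool.MP_dd84fd_nt.En Pool.MP_dd84fd_nt.E2
open Pool.MP_dd84fd_nt.HX Pool.MP_dd84fd_nt.IX
open Pool.MP_dd84fd_nt.JX (ZJ DecJ Str wP gP)
open Pool.MP_dd84fd_nt.L2G (fz VA VQ MajQ MinorHyp Tc Jc cv av gr Se)
open Pool.MP_dd84fd_nt.T7 (Fz2)

/-- constants for large `X` -/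
private theorem mjh_pre (B K0 C1 D' : ℕ) (th e τ : ℝ) (hA : AdE th e τ) (ww gg : ℕ → ℕ → ℝ)
    (hW : W1 K0 C1 ww gg) : ∃ X0 : ℕ, ∀ X : ℕ, X0 ≤ X → 1 ≤ X ∧ 24 ≤ Real.log X ∧
      (∀ n, |uI ww gg X (wX D' X) n| ≤ Real.log X ^ 2) ∧
      (∀ q t : ℕ, (q : ℝ) ≤ (X : ℝ) ^ (1 - th) → (t : ℝ) ≤ Real.log X ^ B →
        Qr th e X (q * t)) ∧
      (∀ q : ℕ, Qr th e X q → q ≤ X) ∧ ∀ q : ℕ, (q : ℝ) ≤ (X : ℝ) ^ (1 - th) → q ≤ X := by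
  obtain ⟨h1, h2, he, h3, h4⟩ := hA
  obtain ⟨X1, hX1⟩ := hW
  obtain ⟨X2, hX2⟩ := f1_le D'
  have hev1 : ∀ᶠ X : ℕ in Filter.atTop, max 24 (2 * K0 : ℝ) ≤ Real.log X :=
    (Real.tendsto_log_atTop.comp tendsto_natCast_atTop_atTop).eventually
      (Filter.eventually_ge_atTop (max 24 (2 * K0 : ℝ)))
  have hlit : (fun x : ℝ => Real.log x ^ (B : ℝ)) =o[Filter.atTop] fun x => x ^ e :=
    isLittleO_log_rpow_rpow_atTop (B : ℝ) he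
  have hev2 : ∀ᶠ X : ℕ in Filter.atTop, Real.log X ^ B ≤ (X : ℝ) ^ e := by
    have h1 : ∀ᶠ x : ℝ in Filter.atTop, Real.log x ^ B ≤ x ^ e := by
      filter_upwards [hlit.bound (show (0 : ℝ) < 1 by norm_num),
        Filter.eventually_ge_atTop (1 : ℝ)] with x hx hx1
      rw [Real.rpow_natCast, Real.norm_of_nonneg (by have := Real.log_nonneg hx1; positivity),
        Real.norm_of_nonneg (by positivity), one_mul] at hx
      exact hx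
    exact tendsto_natCast_atTop_atTop.eventually h1
  obtain ⟨X3, hX3⟩ := Filter.eventually_atTop.1 hev1
  obtain ⟨X4, hX4⟩ := Filter.eventually_atTop.1 hev2
  refine ⟨max (max X1 X2) (max (max X3 X4) 1), fun X hX => ?_⟩
  have e1 : X1 ≤ X := by omega
  have e2 : X2 ≤ X := by omega
  have e3 : X3 ≤ X := by omega
  have e4 : X4 ≤ X := by omega
  have e5 : 1 ≤ X := by omega
  have hL := hX3 X e3
  have hL1 : 24 ≤ Real.log X := (le_max_left _ _).trans hL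
  have hLM : 2 * K0 ≤ Real.log X := (le_max_right _ _).trans hL
  have hwle : ((wX D' X : ℕ) : ℝ) ≤ Real.log X ^ D' := by
    unfold wX
    exact Nat.floor_le (by positivity)
  obtain ⟨hf1, hf2⟩ := hX2 X e2 (wX D' X) hwle
  obtain ⟨hb, -⟩ := hX1 X e1
  have hK : (0 : ℝ) ≤ K0 := by positivity
  have hXR : (1 : ℝ) ≤ X := by exact_mod_cast e5
  have hXp : (0 : ℝ) < X := by linarith
  refine ⟨e5, hL1, ?_, ?_, ?_, ?_⟩
  · intro n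
    unfold uI fI
    have h5 := (hb n).1
    have h6 := (hb n).2
    have h7 : rg (zI X) n ≤ 1 := by
      unfold rg
      split_ifs <;> norm_num
    have h8 : |ww X n| ≤ K0 := h5.trans (by nlinarith)
    have h9 : |gg X n * f1 (wX D' X) n| ≤ K0 * Real.log X := by
      rw [abs_mul, abs_of_nonneg (f1_nonneg _ _)]
      exact mul_le_mul h6 (hf2 n) (f1_nonneg _ _) hK
    have h10 := abs_sub (ww X n) (gg X n * f1 (wX D' X) n)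
    nlinarith
  · intro q t hq ht
    unfold Qr
    push_cast
    have h5 := hX4 X e4
    have h6 : (X : ℝ) ^ (1 - th + e) = (X : ℝ) ^ (1 - th) * (X : ℝ) ^ e :=
      Real.rpow_add hXp _ _
    rw [h6]
    exact mul_le_mul hq (ht.trans h5) (Nat.cast_nonneg t) (by positivity)
  · intro q hq
    unfold Qr at hq
    have h5 : (X : ℝ) ^ (1 - th + e) ≤ (X : ℝ) ^ (1 : ℝ) :=
      Real.rpow_le_rpow_of_exponent_le hXR (by linarith)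
    rw [Real.rpow_one] at h5
    exact_mod_cast hq.trans h5
  · intro q hq
    have h5 : (X : ℝ) ^ (1 - th) ≤ (X : ℝ) ^ (1 : ℝ) :=
      Real.rpow_le_rpow_of_exponent_le hXR (by linarith)
    rw [Real.rpow_one] at h5
    exact_mod_cast hq.trans h5

private theorem mjh_phi (X Q : ℕ) (hQ : 1 ≤ Q) (hQX : Q ≤ X) (hL : 1 ≤ Real.log X) :
    1 / (Nat.totient Q : ℝ) ≤ 4 * Real.log X / Q := by
  have h1 := Pool.MP_dd84fd_nt.L2G.totient_lower Q hQ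
  have h2 : (0 : ℝ) < Nat.totient Q := by exact_mod_cast Nat.totient_pos.mpr hQ
  have h3 : (0 : ℝ) < Q := by exact_mod_cast hQ
  have h4 : Real.log Q ≤ Real.log X := Real.log_le_log h3 (by exact_mod_cast hQX)
  rw [div_le_div_iff₀ h2 h3]
  nlinarith

private theorem mjh_Tc (X Q : ℕ) (f : ℕ → ℝ) (φ : ℝ) (χ : DirichletCharacter ℂ Q) (M : ℝ)
    (hf : ∀ n ∈ Icc 1 X, |f n| ≤ M) : ‖Tc X Q f φ χ‖ ≤ X * M := by
  unfold Tc
  refine (norm_sum_le _ _).trans ?_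
  have h1 : ∀ n ∈ Icc 1 X, ‖(f n : ℂ) * χ n * ee (n * φ)‖ ≤ M := by
    intro n hn
    rw [norm_mul, norm_mul, norm_ee, mul_one, Complex.norm_real, Real.norm_eq_abs]
    have h2 := DirichletCharacter.norm_le_one χ (n : ZMod Q)
    have h3 := hf n hn
    have h4 := abs_nonneg (f n)
    have h5 := norm_nonneg (χ (n : ZMod Q))
    nlinarith
  have h2 := Finset.sum_le_card_nsmul (Icc 1 X) _ _ h1
  rw [Nat.card_Icc, nsmul_eq_mul] at h2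
  simpa using h2

private theorem mjh_VA (X q : ℕ) [NeZero q] (hqX : q ≤ X) (f : ℕ → ℝ) (θ : ℝ)
    (hf : ∀ n ∈ Icc 1 X, |f n| ≤ Real.log X ^ 2) :
    VA X q f θ ≤ 2 * X ^ 2 * Real.log X ^ 4 / q := by
  have hq : 0 < q := NeZero.pos q
  have hq' : (0 : ℝ) < q := by exact_mod_cast hq
  have hqX' : (q : ℝ) ≤ X := by exact_mod_cast hqX
  refine (Pool.MP_dd84fd_nt.L2G.VA_trivial X q f θ).trans ?_
  have h1 : ∑ n ∈ Icc 1 X, f n ^ 2 ≤ X * Real.log X ^ 4 := by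
    have h2 : ∀ n ∈ Icc 1 X, f n ^ 2 ≤ Real.log X ^ 4 := by
      intro n hn
      have h3 := hf n hn
      have h4 := abs_nonneg (f n)
      rw [← sq_abs]
      calc |f n| ^ 2 ≤ (Real.log X ^ 2) ^ 2 := pow_le_pow_left₀ h4 h3 2
        _ = Real.log X ^ 4 := by ring
    have h3 := Finset.sum_le_card_nsmul (Icc 1 X) _ _ h2
    rw [Nat.card_Icc, nsmul_eq_mul] at h3
    simpa using h3
  have h2 : (X : ℝ) / q + 1 ≤ 2 * X / q := by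
    rw [div_add_one hq'.ne', div_le_div_iff_of_pos_right hq']
    linarith
  calc ((X : ℝ) / q + 1) * ∑ n ∈ Icc 1 X, f n ^ 2 ≤ (2 * X / q) * (X * Real.log X ^ 4) :=
        mul_le_mul h2 h1 (Finset.sum_nonneg fun _ _ => sq_nonneg _) (by positivity)
    _ = 2 * X ^ 2 * Real.log X ^ 4 / q := by ring

private theorem mjh_nq (X q t : ℕ) [NeZero q] [NeZero t] (f : ℕ → ℝ) (φ : ℝ) (c : ℤ) :
    nq (Tw q t ((c : ℝ) / (q * t : ℕ)) (fz X (q * t) f φ)) =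
      VA X q f ((c : ℝ) / (q * t : ℕ) + φ) := by
  unfold nq VA
  refine Finset.sum_congr rfl fun b _ => ?_
  rw [Tw_fz]

private theorem mjh_big (q : ℕ) (D : ℝ) (χ : DirichletCharacter ℂ q) (h : Big q D χ) :
    Big q D χ⁻¹ := by
  intro d hd hdD hf
  refine h d hd hdD ?_
  obtain ⟨h1, χ₀, h2⟩ := hf
  refine ⟨h1, χ₀⁻¹, ?_⟩
  rw [map_inv, ← h2, inv_inv]

/-- the choice of the sets -/
private theorem mjh_ch (A B C K0 C1 : ℕ) (th e τ : ℝ) (hA : AdE th e τ) (ww gg : ℕ → ℕ → ℝ)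
    (hW : W1 K0 C1 ww gg) (hM : MajI ww gg) : ∃ C' : ℕ, ∀ D1 : ℕ, ∃ D0 : ℕ, ∀ D' : ℕ, D0 ≤ D' →
    ∃ X0 : ℕ, ∀ X : ℕ, X0 ≤ X → (1 ≤ X ∧ 24 ≤ Real.log X ∧
      (∀ n, |uI ww gg X (wX D' X) n| ≤ Real.log X ^ 2) ∧
      (∀ q t : ℕ, (q : ℝ) ≤ (X : ℝ) ^ (1 - th) → (t : ℝ) ≤ Real.log X ^ B →
        Qr th e X (q * t)) ∧
      (∀ q : ℕ, Qr th e X q → q ≤ X) ∧ ∀ q : ℕ, (q : ℝ) ≤ (X : ℝ) ^ (1 - th) → q ≤ X) ∧
    ∀ us err : ℕ → ℝ, Str C th e τ X us →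
    (∀ n ∈ Icc 1 X, uI ww gg X (wX D' X) n = us n + err n) →
    ∀ (q : ℕ) [NeZero q], (q : ℝ) ≤ (X : ℝ) ^ (1 - th) →
    ∃ 𝓖 : (t : ℕ) → ℝ → Finset (DirichletCharacter ℂ (q * t)),
      ∀ (t : ℕ) [NeZero t] (φ : ℝ), PtT X q B t φ →
      (∃ (r : ℕ) (y : ℤ) (β : ℝ), Pt X (q * t) B r y β ∧ φ = y / r + β) ∧
      (t : ℝ) ≤ Real.log X ^ B ∧ Qr th e X (q * t) ∧
      ∃ (𝓑 : Finset (DirichletCharacter ℂ (q * t))) (Z : ZMod (q * t) → ℂ),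
      (𝓑.card : ℝ) ≤ Real.log X ^ C' ∧ (∀ χ ∈ 𝓑, Big (q * t) (Real.log X ^ D1) χ) ∧
      nq Z ≤ X ^ 2 / ((q * t : ℕ) * Real.log X ^ A) ∧
      fz X (q * t) (uI ww gg X (wX D' X)) φ = fun b => Z b +
        PG X (q * t) (uI ww gg X (wX D' X)) φ 𝓑 b + PG X (q * t) err φ (𝓖 t φ) b := by
  classical
  obtain ⟨C', hC'⟩ := mj_dec A B C K0 C1 th e τ hA ww gg hW hM
  refine ⟨C', fun D1 => ?_⟩
  obtain ⟨D0, hD0⟩ := hC' D1
  refine ⟨D0, fun D' hD' => ?_⟩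
  obtain ⟨X1, hX1⟩ := hD0 D' hD'
  obtain ⟨X2, hX2⟩ := mjh_pre B K0 C1 D' th e τ hA ww gg hW
  refine ⟨max X1 X2, fun X hX => ?_⟩
  have e1 : X1 ≤ X := by omega
  have e2 : X2 ≤ X := by omega
  have hpre := hX2 X e2
  refine ⟨hpre, ?_⟩
  obtain ⟨g1, g2, g3, g4, g5, g6⟩ := hpre
  intro us err hs he q hqn hq
  have key : ∀ (t : ℕ) (φ : ℝ), ∃ 𝓖 : Finset (DirichletCharacter ℂ (q * t)),
      ∀ [NeZero t], PtT X q B t φ →
      (∃ (r : ℕ) (y : ℤ) (β : ℝ), Pt X (q * t) B r y β ∧ φ = y / r + β) ∧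
      (t : ℝ) ≤ Real.log X ^ B ∧ Qr th e X (q * t) ∧
      ∃ (𝓑 : Finset (DirichletCharacter ℂ (q * t))) (Z : ZMod (q * t) → ℂ),
      (𝓑.card : ℝ) ≤ Real.log X ^ C' ∧ (∀ χ ∈ 𝓑, Big (q * t) (Real.log X ^ D1) χ) ∧
      nq Z ≤ X ^ 2 / ((q * t : ℕ) * Real.log X ^ A) ∧
      fz X (q * t) (uI ww gg X (wX D' X)) φ = fun b => Z b +
        PG X (q * t) (uI ww gg X (wX D' X)) φ 𝓑 b + PG X (q * t) err φ 𝓖 b := by
    intro t φ
    by_cases hP : PtT X q B t φ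
    · have ht1 : 1 ≤ t := hP.1
      have : NeZero t := ⟨by omega⟩
      have hL0 : (0 : ℝ) ≤ Real.log X := by linarith
      obtain ⟨r, y, β, hp, hφ⟩ := hP.pt g1 hL0
      have htB : (t : ℝ) ≤ Real.log X ^ B := by
        obtain ⟨_, _, r', y', β', h3, h4, _⟩ := hP
        have : (1 : ℝ) ≤ r' := by exact_mod_cast h3
        have ht : (1 : ℝ) ≤ t := by exact_mod_cast ht1
        nlinarith
      have hQ := g4 q t hq htB
      obtain ⟨𝓑, 𝓖, Z, k1, k2, k3, k4⟩ := hX1 X e1 us err hs he (q * t) hQ r y β hp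
      refine ⟨𝓖, fun _ => ⟨⟨r, y, β, hp, hφ⟩, htB, hQ, 𝓑, Z, k1, k2, k3, ?_⟩⟩
      funext b
      rw [hφ]
      exact k4 b
    · exact ⟨∅, fun h => absurd h hP⟩
  choose 𝓖 h𝓖 using key
  exact ⟨𝓖, fun t _ φ hP => h𝓖 t φ hP⟩

private theorem mjh_sum (L : ℝ) (C' : ℕ) {q : ℕ} (𝓑 : Finset (DirichletCharacter ℂ q))
    (F : DirichletCharacter ℂ q → ℂ) (M : ℝ) (hM : 0 ≤ M) (hc : (𝓑.card : ℝ) ≤ L ^ C')
    (hF : ∀ χ ∈ 𝓑, ‖F χ‖ ≤ M) : ‖∑ χ ∈ 𝓑, F χ‖ ≤ L ^ C' * M := by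
  refine (norm_sum_le _ _).trans ?_
  have h2 := Finset.sum_le_card_nsmul 𝓑 _ _ hF
  rw [nsmul_eq_mul] at h2
  exact h2.trans (mul_le_mul_of_nonneg_right hc hM)

private theorem mjh_a1 (X q t L : ℝ) (hX : 0 < X) (hq : 0 < q) (ht : 0 < t) (hL : 24 ≤ L)
    (A B C' : ℕ) : 3 * (t * (4 * L / (q * t) *
      (L ^ C' * (X * L ^ 2 * (X / L ^ (A + C' + 2 * B + 8)))))) ^ 2 ≤
      X ^ 4 / (q ^ 2 * L ^ A) / 2 := by
  have hL0 : 0 < L := by linarith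
  have hL1 : 1 ≤ L := by linarith
  have e1 : L ^ (A + C' + 2 * B + 8) = L ^ C' * L ^ 3 * L ^ (A + 2 * B + 5) := by
    rw [← pow_add, ← pow_add]
    congr 1
    ring
  have e2 : t * (4 * L / (q * t) *
      (L ^ C' * (X * L ^ 2 * (X / L ^ (A + C' + 2 * B + 8))))) =
      4 * X ^ 2 / (q * L ^ (A + 2 * B + 5)) := by
    rw [e1]
    field_simp
  have e3 : (L ^ (A + 2 * B + 5)) ^ 2 = L ^ A * (L ^ (A + 4 * B) * L ^ 10) := by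
    rw [← pow_mul, ← pow_add, ← pow_add]
    congr 1
    ring
  rw [e2, div_pow, mul_pow q, e3]
  have h3 : (1 : ℝ) ≤ L ^ (A + 4 * B) := one_le_pow₀ hL1
  have h4 : (96 : ℝ) ≤ L ^ 10 := by
    calc (96 : ℝ) ≤ 24 ^ 10 := by norm_num
      _ ≤ L ^ 10 := pow_le_pow_left₀ (by norm_num) hL 10
  have h5 : (96 : ℝ) ≤ L ^ (A + 4 * B) * L ^ 10 := by
    calc (96 : ℝ) = 1 * 96 := by norm_num
      _ ≤ L ^ (A + 4 * B) * L ^ 10 := mul_le_mul h3 h4 (by norm_num) (by positivity)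
  calc 3 * ((4 * X ^ 2) ^ 2 / (q ^ 2 * (L ^ A * (L ^ (A + 4 * B) * L ^ 10)))) =
        48 * (X ^ 4 / (q ^ 2 * L ^ A)) / (L ^ (A + 4 * B) * L ^ 10) := by
        field_simp
        ring
    _ ≤ 48 * (X ^ 4 / (q ^ 2 * L ^ A)) / 96 :=
        div_le_div_of_nonneg_left (by positivity) (by norm_num) h5
    _ = X ^ 4 / (q ^ 2 * L ^ A) / 2 := by ring

private theorem mjh_a2 (X q t L V N E : ℝ) (hX : 0 < X) (hq : 0 < q) (ht : 0 < t) (hL : 24 ≤ L)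
    (A B : ℕ) (hV0 : 0 ≤ V) (hV : V ≤ 4 * X ^ 2 * L ^ 4 / q) (hN0 : 0 ≤ N)
    (hN : N ≤ X ^ 2 / (q * t * L ^ (A + 2 * B + 6))) (hE : 0 ≤ E) :
    6 * V * (t * N + E) ≤ X ^ 4 / (q ^ 2 * L ^ A) / 2 + X ^ 2 * L ^ 4 / q * 24 * E := by
  have hL0 : 0 < L := by linarith
  have hL1 : 1 ≤ L := by linarith
  have h1 : t * N ≤ X ^ 2 / (q * L ^ (A + 2 * B + 6)) := by
    refine (mul_le_mul_of_nonneg_left hN ht.le).trans (le_of_eq ?_)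
    field_simp
  have h2 : 6 * V * (t * N + E) ≤
      6 * (4 * X ^ 2 * L ^ 4 / q) * (X ^ 2 / (q * L ^ (A + 2 * B + 6)) + E) :=
    mul_le_mul (by linarith) (by linarith) (by positivity) (by positivity)
  refine h2.trans ?_
  rw [mul_add]
  refine add_le_add ?_ (le_of_eq ?_)
  · have h3 : L ^ (A + 2 * B + 6) = L ^ A * (L ^ (2 * B) * L ^ 2) * L ^ 4 := by
      rw [← pow_add, ← pow_add, ← pow_add]
      congr 1
    have h5 : (1 : ℝ) ≤ L ^ (2 * B) := one_le_pow₀ hL1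
    have h6 : (48 : ℝ) ≤ L ^ (2 * B) * L ^ 2 := by
      calc (48 : ℝ) ≤ 1 * 24 ^ 2 := by norm_num
        _ ≤ L ^ (2 * B) * L ^ 2 :=
          mul_le_mul h5 (pow_le_pow_left₀ (by norm_num) hL 2) (by norm_num) (by positivity)
    calc 6 * (4 * X ^ 2 * L ^ 4 / q) * (X ^ 2 / (q * L ^ (A + 2 * B + 6))) =
          24 * (X ^ 4 / (q ^ 2 * L ^ A)) / (L ^ (2 * B) * L ^ 2) := by
          rw [h3]
          field_simp
          ring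
      _ ≤ 24 * (X ^ 4 / (q ^ 2 * L ^ A)) / 48 :=
          div_le_div_of_nonneg_left (by positivity) (by norm_num) h6
      _ = X ^ 4 / (q ^ 2 * L ^ A) / 2 := by ring
  · ring

private theorem mjh_a3 (X q t L : ℝ) (hX : 0 < X) (hq : 0 < q) (ht : 0 < t) (hL : 24 ≤ L)
    (A B C' K m : ℕ) (hm : m = A + 2 * C' + K + 3 * B + 12) :
    3 * (t * ((4 * L / (q * t)) ^ 2 * (L ^ C' * (L ^ C' *
          (X * L ^ 2 * (X * L ^ 2) * (2 * L ^ (K + B) * (q * t) / L ^ m)))))) ^ 2 ≤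
      X ^ 4 / (q ^ 2 * L ^ A) / 2 := by
  have hL0 : 0 < L := by linarith
  have hL1 : 1 ≤ L := by linarith
  have e1 : L ^ m = L ^ C' * L ^ C' * L ^ (K + B) * L ^ 6 * L ^ (A + 2 * B + 6) := by
    rw [← pow_add, ← pow_add, ← pow_add, ← pow_add, hm]
    congr 1
    ring
  have e2 : t * ((4 * L / (q * t)) ^ 2 * (L ^ C' * (L ^ C' *
          (X * L ^ 2 * (X * L ^ 2) * (2 * L ^ (K + B) * (q * t) / L ^ m))))) =
      32 * X ^ 2 / (q * L ^ (A + 2 * B + 6)) := by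
    rw [e1]
    field_simp
    ring
  have e3 : (L ^ (A + 2 * B + 6)) ^ 2 = L ^ A * (L ^ (A + 4 * B) * L ^ 12) := by
    rw [← pow_mul, ← pow_add, ← pow_add]
    congr 1
    ring
  rw [e2, div_pow, mul_pow q, e3]
  have h3 : (1 : ℝ) ≤ L ^ (A + 4 * B) := one_le_pow₀ hL1
  have h4 : (6144 : ℝ) ≤ L ^ 12 := by
    calc (6144 : ℝ) ≤ 24 ^ 12 := by norm_num
      _ ≤ L ^ 12 := pow_le_pow_left₀ (by norm_num) hL 12
  have h5 : (6144 : ℝ) ≤ L ^ (A + 4 * B) * L ^ 12 := by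
    calc (6144 : ℝ) = 1 * 6144 := by norm_num
      _ ≤ L ^ (A + 4 * B) * L ^ 12 := mul_le_mul h3 h4 (by norm_num) (by positivity)
  calc 3 * ((32 * X ^ 2) ^ 2 / (q ^ 2 * (L ^ A * (L ^ (A + 4 * B) * L ^ 12)))) =
        3072 * (X ^ 4 / (q ^ 2 * L ^ A)) / (L ^ (A + 4 * B) * L ^ 12) := by
        field_simp
        ring
    _ ≤ 3072 * (X ^ 4 / (q ^ 2 * L ^ A)) / 6144 :=
        div_le_div_of_nonneg_left (by positivity) (by norm_num) h5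
    _ = X ^ 4 / (q ^ 2 * L ^ A) / 2 := by ring

theorem mj_H (A B K C K0 C1 : ℕ) (th e τ : ℝ) (hA : AdE th e τ) (ww gg : ℕ → ℕ → ℝ)
    (hW : W1 K0 C1 ww gg) (hM : MajI ww gg) : ∃ A' : ℕ, ∀ D1 : ℕ, ∃ D0 : ℕ, ∀ D' : ℕ, D0 ≤ D' →
    ∃ X0 : ℕ, ∀ X : ℕ, X0 ≤ X → ∀ us err : ℕ → ℝ, Str C th e τ X us →
    (∀ n ∈ Icc 1 X, uI ww gg X (wX D' X) n = us n + err n) → ∀ h : ℕ → ℝ,
    (∀ n ∈ Icc 1 X, |h n| ≤ Real.log X ^ 2) → H3 th e X A' B (K + B) D1 h →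
    ∀ (q : ℕ) [NeZero q], (q : ℝ) ≤ (X : ℝ) ^ (1 - th) →
    ∃ 𝓖 : (t : ℕ) → ℝ → Finset (DirichletCharacter ℂ (q * t)),
      ∀ (θ : ℝ) (t : ℕ) (c : ℤ) (φ : ℝ), PtT X q B t φ → IsCoprime c (t : ℤ) →
      θ = (c : ℝ) / (q * t : ℕ) + φ → ∀ a : ZMod q, (Nat.gcd a.val q : ℝ) ≤ Real.log X ^ K →
      ‖Fz2 X q h (uI ww gg X (wX D' X)) θ a‖ ^ 2 ≤ X ^ 4 / (q ^ 2 * Real.log X ^ A) +
        X ^ 2 * Real.log X ^ 5 / q *
          nq (Tw q t ((c : ℝ) / (q * t : ℕ)) (PG X (q * t) err φ (𝓖 t φ))) := by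
  classical
  obtain ⟨C', hC'⟩ := mjh_ch (A + 2 * B + 6) B C K0 C1 th e τ hA ww gg hW hM
  refine ⟨A + C' + 2 * B + 8, fun D1 => ?_⟩
  obtain ⟨D0, hD0⟩ := hC' D1
  refine ⟨D0, fun D' hD' => ?_⟩
  obtain ⟨X0, hX0⟩ := hD0 D' hD'
  refine ⟨X0, fun X hX us err hs he h hh hH q hqn hq => ?_⟩
  obtain ⟨⟨g1, g2, g3, g4, g5, g6⟩, hX1⟩ := hX0 X hX
  obtain ⟨𝓖, h𝓖⟩ := hX1 us err hs he q hq
  refine ⟨𝓖, fun θ t c φ hP _ hθ a ha => ?_⟩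
  have ht1 : 1 ≤ t := hP.1
  have : NeZero t := ⟨by omega⟩
  obtain ⟨⟨r, y, β, hp, hφ⟩, htB, hQ, 𝓑, Z, k1, k2, k3, k4⟩ := h𝓖 t φ hP
  set w := uI ww gg X (wX D' X) with hw
  set L := Real.log X with hL
  have hQX := g5 _ hQ
  have hqX := g6 _ hq
  have hL1 : (1 : ℝ) ≤ L := by linarith
  have hL0 : (0 : ℝ) < L := by linarith
  have hXp : (0 : ℝ) < X := by exact_mod_cast g1
  have hq0 : 0 < q := NeZero.pos q
  have hq' : (0 : ℝ) < q := by exact_mod_cast hq0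
  have ht' : (0 : ℝ) < t := by exact_mod_cast ht1
  have hQ0 : 0 < q * t := Nat.mul_pos hq0 ht1
  have hphi := mjh_phi X (q * t) hQ0 hQX hL1
  rw [← hL] at hphi
  -- the bound `S`
  have hS : ∀ a' : ZMod (q * t), ((a'.val : ℕ) : ZMod q) = a →
      ‖cq (fz X (q * t) h φ) (PG X (q * t) w φ 𝓑) a'‖ ≤
        4 * L / (q * t : ℕ) * (L ^ C' * (X * L ^ 2 * (X / L ^ (A + C' + 2 * B + 8)))) := by
    intro a' ha'
    rw [PG_hq, norm_mul]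
    have h1 : ‖(1 / (Nat.totient (q * t) : ℂ))‖ ≤ 4 * L / (q * t : ℕ) := by
      rw [norm_div, norm_one, Complex.norm_natCast]
      exact hphi
    refine mul_le_mul h1 ?_ (norm_nonneg _) (by positivity)
    refine mjh_sum L C' 𝓑 _ _ (by positivity) k1 fun χ hχ => ?_
    rw [norm_mul]
    refine mul_le_mul (mjh_Tc X (q * t) w φ χ (L ^ 2) fun n _ => g3 n) ?_ (norm_nonneg _)
      (by positivity)
    have h2 : (Nat.gcd a'.val (q * t) : ℝ) ≤ L ^ (K + B) := by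
      have h3 := Pool.MP_dd84fd_nt.L2G.split_gcd q t a a' ha'
      have h4 : (Nat.gcd a'.val (q * t) : ℝ) ≤ Nat.gcd a.val q * t := by exact_mod_cast h3
      rw [pow_add]
      exact h4.trans (mul_le_mul ha htB ht'.le (by positivity))
    have h3 := hH (q * t) hQ r y β hp a' h2 χ⁻¹ (mjh_big _ _ _ (k2 χ hχ))
    rw [← hφ] at h3
    exact h3
  have hmain := pr_hu q t c (fz X (q * t) h φ) Z (PG X (q * t) w φ 𝓑)
    (PG X (q * t) err φ (𝓖 t φ)) a _ hS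
  have hk4 : (fun b => Z b + PG X (q * t) w φ 𝓑 b + PG X (q * t) err φ (𝓖 t φ) b) =
      fz X (q * t) w φ := k4.symm
  rw [hk4, mjh_nq] at hmain
  have hTh : ∀ f : ℕ → ℝ, Tw q t ((c : ℝ) / (q * t : ℕ)) (fz X (q * t) f φ) = fz X q f θ := by
    intro f
    funext b
    rw [Tw_fz, ← hθ]
  rw [hTh h, hTh w, ← hθ] at hmain
  have hFz : Fz2 X q h w θ a = cq (fz X q h θ) (fz X q w θ) a := by
    rw [Pool.MP_dd84fd_nt.T7.Fz2_eq]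
    rfl
  rw [hFz]
  refine hmain.trans ?_
  have hVA := mjh_VA X q hqX h θ hh
  rw [← hL] at hVA
  set E := nq (Tw q t ((c : ℝ) / (q * t : ℕ)) (PG X (q * t) err φ (𝓖 t φ))) with hE
  have hE0 : 0 ≤ E := Finset.sum_nonneg fun _ _ => sq_nonneg _
  have hV0 : 0 ≤ VA X q h θ := Finset.sum_nonneg fun _ _ => sq_nonneg _
  have hZ0 : 0 ≤ nq Z := Finset.sum_nonneg fun _ _ => sq_nonneg _
  have hcast : ((q * t : ℕ) : ℝ) = (q : ℝ) * t := by push_cast; rfl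
  -- first term
  have t1 : 3 * (t * (4 * L / (q * t : ℕ) *
      (L ^ C' * (X * L ^ 2 * (X / L ^ (A + C' + 2 * B + 8)))))) ^ 2 ≤
      X ^ 4 / (q ^ 2 * L ^ A) / 2 := by
    rw [hcast]
    exact mjh_a1 X q t L hXp hq' ht' g2 A B C'
  -- second term
  have t2 : 3 * VA X q h θ * (t * nq Z + E) ≤
      X ^ 4 / (q ^ 2 * L ^ A) / 2 + X ^ 2 * L ^ 5 / q * E := by
    rw [hcast] at k3
    have hVA' : VA X q h θ ≤ 4 * X ^ 2 * L ^ 4 / q := by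
      refine hVA.trans ?_
      have h1 : (0 : ℝ) ≤ X ^ 2 * L ^ 4 := by positivity
      exact div_le_div_of_nonneg_right (by linarith) hq'.le
    have h1 := mjh_a2 X q t L _ _ E hXp hq' ht' g2 A B hV0 hVA' hZ0 k3 hE0
    have h2 : (0 : ℝ) ≤ VA X q h θ * (t * nq Z + E) := by positivity
    have h3 : (X : ℝ) ^ 2 * L ^ 4 / q * 24 * E ≤ X ^ 2 * L ^ 5 / q * E := by
      refine mul_le_mul_of_nonneg_right ?_ hE0
      rw [show (X : ℝ) ^ 2 * L ^ 5 / q = X ^ 2 * L ^ 4 / q * L by ring]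
      exact mul_le_mul_of_nonneg_left g2 (by positivity)
    nlinarith
  calc _ ≤ X ^ 4 / (q ^ 2 * L ^ A) / 2 + (X ^ 4 / (q ^ 2 * L ^ A) / 2 + X ^ 2 * L ^ 5 / q * E) :=
        add_le_add t1 t2
    _ = _ := by ring

theorem mj_U (A B K C K0 C1 : ℕ) (th e τ : ℝ) (hA : AdE th e τ) (ww gg : ℕ → ℕ → ℝ)
    (hW : W1 K0 C1 ww gg) (hM : MajI ww gg) : ∃ D0 : ℕ, ∀ D' : ℕ, D0 ≤ D' →
    ∃ X0 : ℕ, ∀ X : ℕ, X0 ≤ X → ∀ us err : ℕ → ℝ, Str C th e τ X us →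
    (∀ n ∈ Icc 1 X, uI ww gg X (wX D' X) n = us n + err n) →
    ∀ (q : ℕ) [NeZero q], (q : ℝ) ≤ (X : ℝ) ^ (1 - th) →
    ∃ 𝓖 : (t : ℕ) → ℝ → Finset (DirichletCharacter ℂ (q * t)),
      ∀ (θ : ℝ) (t : ℕ) (c : ℤ) (φ : ℝ), PtT X q B t φ → IsCoprime c (t : ℤ) →
      θ = (c : ℝ) / (q * t : ℕ) + φ → ∀ a : ZMod q, (Nat.gcd a.val q : ℝ) ≤ Real.log X ^ K →
      ‖Fz2 X q (uI ww gg X (wX D' X)) (uI ww gg X (wX D' X)) θ a‖ ^ 2 ≤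
        X ^ 4 / (q ^ 2 * Real.log X ^ A) + X ^ 2 * Real.log X ^ 6 / q *
          nq (Tw q t ((c : ℝ) / (q * t : ℕ)) (PG X (q * t) err φ (𝓖 t φ))) := by
  classical
  obtain ⟨C', hC'⟩ := mjh_ch (A + 2 * B + 6) B C K0 C1 th e τ hA ww gg hW hM
  obtain ⟨m, hm⟩ : ∃ m : ℕ, m = A + 2 * C' + K + 3 * B + 12 := ⟨_, rfl⟩
  obtain ⟨D0, hD0⟩ := hC' (4 * m)
  refine ⟨D0, fun D' hD' => ?_⟩
  obtain ⟨X0, hX0⟩ := hD0 D' hD'
  refine ⟨X0, fun X hX us err hs he q hqn hq => ?_⟩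
  obtain ⟨⟨g1, g2, g3, g4, g5, g6⟩, hX1⟩ := hX0 X hX
  obtain ⟨𝓖, h𝓖⟩ := hX1 us err hs he q hq
  refine ⟨𝓖, fun θ t c φ hP _ hθ a ha => ?_⟩
  have ht1 : 1 ≤ t := hP.1
  have : NeZero t := ⟨by omega⟩
  obtain ⟨-, htB, hQ, 𝓑, Z, k1, k2, k3, k4⟩ := h𝓖 t φ hP
  set w := uI ww gg X (wX D' X) with hw
  set L := Real.log X with hL
  have hQX := g5 _ hQ
  have hqX := g6 _ hq
  have hL1 : (1 : ℝ) ≤ L := by linarith
  have hL0 : (0 : ℝ) < L := by linarith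
  have hXp : (0 : ℝ) < X := by exact_mod_cast g1
  have hq0 : 0 < q := NeZero.pos q
  have hq' : (0 : ℝ) < q := by exact_mod_cast hq0
  have ht' : (0 : ℝ) < t := by exact_mod_cast ht1
  have hQ0 : 0 < q * t := Nat.mul_pos hq0 ht1
  have hQ' : (0 : ℝ) < (q * t : ℕ) := by exact_mod_cast hQ0
  have hphi := mjh_phi X (q * t) hQ0 hQX hL1
  rw [← hL] at hphi
  -- the Jacobi sums
  have hJ : ∀ a' : ZMod (q * t), ((a'.val : ℕ) : ZMod q) = a → ∀ χ ∈ 𝓑,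
      ∀ ψ : DirichletCharacter ℂ (q * t),
      ‖Jc (q * t) a' χ⁻¹ ψ‖ ≤ 2 * L ^ (K + B) * (q * t : ℕ) / L ^ m := by
    intro a' ha' χ hχ ψ
    have h2 : (Nat.gcd a'.val (q * t) : ℝ) ≤ L ^ (K + B) := by
      have h3 := Pool.MP_dd84fd_nt.L2G.split_gcd q t a a' ha'
      have h4 : (Nat.gcd a'.val (q * t) : ℝ) ≤ Nat.gcd a.val q * t := by exact_mod_cast h3
      rw [pow_add]
      exact h4.trans (mul_le_mul ha htB ht'.le (by positivity))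
    have h5 : ∀ d : ℕ, d ∣ q * t → d ≤ ⌊L ^ (4 * m)⌋₊ →
        ¬ (χ⁻¹ : DirichletCharacter ℂ (q * t)).FactorsThrough d := by
      intro d hd hdD
      refine mjh_big _ _ _ (k2 χ hχ) d hd ?_
      exact (Nat.le_floor_iff (by positivity)).1 hdD
    have h6 := Pool.MP_dd84fd_nt.L2G.Jc_bound (q * t) ⌊L ^ (4 * m)⌋₊ χ⁻¹ ψ h5 a'
    have h7 : L ^ (2 * m) / 2 ≤ Real.sqrt (⌊L ^ (4 * m)⌋₊ : ℕ) := by
      apply Real.le_sqrt_of_sq_le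
      have h8 := (Nat.lt_floor_add_one (L ^ (4 * m))).le
      have h9 : (1 : ℝ) ≤ L ^ (4 * m) := one_le_pow₀ hL1
      have h10 : (1 : ℝ) ≤ (⌊L ^ (4 * m)⌋₊ : ℕ) := by
        exact_mod_cast (Nat.le_floor_iff (by positivity)).2 (by simpa using h9)
      have h11 : (L ^ (2 * m) / 2) ^ 2 = L ^ (4 * m) / 4 := by
        rw [div_pow, ← pow_mul]
        norm_num
        ring_nf
      rw [h11]
      linarith
    have h12 : (0 : ℝ) < L ^ (2 * m) / 2 := by positivity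
    refine abs_le_of_sq_le_sq' ?_ (by positivity) |>.2
    have h13 : ‖Jc (q * t) a' χ⁻¹ ψ‖ ^ 2 * (L ^ (2 * m) / 2) ≤
        2 * L ^ (K + B) * ((q * t : ℕ) : ℝ) ^ 2 := by
      calc ‖Jc (q * t) a' χ⁻¹ ψ‖ ^ 2 * (L ^ (2 * m) / 2) ≤
            ‖Jc (q * t) a' χ⁻¹ ψ‖ ^ 2 * Real.sqrt (⌊L ^ (4 * m)⌋₊ : ℕ) :=
            mul_le_mul_of_nonneg_left h7 (sq_nonneg _)
        _ ≤ 2 * Nat.gcd a'.val (q * t) * ((q * t : ℕ) : ℝ) ^ 2 := h6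
        _ ≤ 2 * L ^ (K + B) * ((q * t : ℕ) : ℝ) ^ 2 := by
            refine mul_le_mul_of_nonneg_right ?_ (by positivity)
            exact mul_le_mul_of_nonneg_left h2 (by norm_num)
    have h14 : ‖Jc (q * t) a' χ⁻¹ ψ‖ ^ 2 ≤
        2 * L ^ (K + B) * ((q * t : ℕ) : ℝ) ^ 2 / (L ^ (2 * m) / 2) := by
      rw [le_div_iff₀ h12]
      exact h13
    refine h14.trans ?_
    have h15 : (1 : ℝ) ≤ L ^ (K + B) := one_le_pow₀ hL1
    have h16 : 2 * L ^ (K + B) * ((q * t : ℕ) : ℝ) ^ 2 / (L ^ (2 * m) / 2) =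
        4 * ((q * t : ℕ) : ℝ) ^ 2 / L ^ (2 * m) * L ^ (K + B) := by
      field_simp
      ring
    have h17 : (2 * L ^ (K + B) * (q * t : ℕ) / L ^ m) ^ 2 =
        4 * ((q * t : ℕ) : ℝ) ^ 2 / L ^ (2 * m) * (L ^ (K + B) * L ^ (K + B)) := by
      rw [pow_mul' L 2 m]
      field_simp
      ring
    rw [h16, h17]
    refine mul_le_mul_of_nonneg_left ?_ (by positivity)
    nlinarith
  -- the bound `S`
  have hS : ∀ a' : ZMod (q * t), ((a'.val : ℕ) : ZMod q) = a →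
      ‖cq (PG X (q * t) w φ 𝓑) (PG X (q * t) w φ 𝓑) a'‖ ≤
        (4 * L / (q * t : ℕ)) ^ 2 * (L ^ C' * (L ^ C' *
          (X * L ^ 2 * (X * L ^ 2) * (2 * L ^ (K + B) * (q * t : ℕ) / L ^ m)))) := by
    intro a' ha'
    rw [PG_cq, norm_mul]
    have h1 : ‖(1 / (Nat.totient (q * t) : ℂ) ^ 2)‖ ≤ (4 * L / (q * t : ℕ)) ^ 2 := by
      rw [norm_div, norm_one, norm_pow, Complex.norm_natCast]
      have h2 := pow_le_pow_left₀ (by positivity) hphi 2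
      rw [div_pow, one_pow] at h2
      exact h2
    refine mul_le_mul h1 ?_ (norm_nonneg _) (by positivity)
    refine mjh_sum L C' 𝓑 _ _ (by positivity) k1 fun χ hχ => ?_
    refine mjh_sum L C' 𝓑 _ _ (by positivity) k1 fun ψ hψ => ?_
    rw [norm_mul, norm_mul]
    have h2 := mjh_Tc X (q * t) w φ χ (L ^ 2) fun n _ => g3 n
    have h3 := mjh_Tc X (q * t) w φ ψ (L ^ 2) fun n _ => g3 n
    exact mul_le_mul (mul_le_mul h2 h3 (norm_nonneg _) (by positivity)) (hJ a' ha' χ hχ _)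
      (norm_nonneg _) (by positivity)
  have hmain := pr_uu q t c Z (PG X (q * t) w φ 𝓑)
    (PG X (q * t) err φ (𝓖 t φ)) a _ hS
  have hk4 : (fun b => Z b + PG X (q * t) w φ 𝓑 b + PG X (q * t) err φ (𝓖 t φ) b) =
      fz X (q * t) w φ := k4.symm
  rw [hk4, mjh_nq] at hmain
  have hTh : ∀ f : ℕ → ℝ, Tw q t ((c : ℝ) / (q * t : ℕ)) (fz X (q * t) f φ) = fz X q f θ := by
    intro f
    funext b
    rw [Tw_fz, ← hθ]
  rw [hTh w, ← hθ] at hmain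
  have hFz : Fz2 X q w w θ a = cq (fz X q w θ) (fz X q w θ) a := by
    rw [Pool.MP_dd84fd_nt.T7.Fz2_eq]
    rfl
  rw [hFz]
  refine hmain.trans ?_
  have hVA := mjh_VA X q hqX w θ fun n _ => g3 n
  have hVA2 := mjh_VA X (q * t) hQX w φ fun n _ => g3 n
  rw [← hL] at hVA hVA2
  set E := nq (Tw q t ((c : ℝ) / (q * t : ℕ)) (PG X (q * t) err φ (𝓖 t φ))) with hE
  have hE0 : 0 ≤ E := Finset.sum_nonneg fun _ _ => sq_nonneg _
  have hV0 : 0 ≤ VA X q w θ := Finset.sum_nonneg fun _ _ => sq_nonneg _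
  have hP0 : 0 ≤ nq (PG X (q * t) w φ 𝓑) := Finset.sum_nonneg fun _ _ => sq_nonneg _
  have hPle : t * nq (PG X (q * t) w φ 𝓑) ≤ 2 * X ^ 2 * L ^ 4 / q := by
    have h1 := (PG_le X (q * t) w φ 𝓑).trans hVA2
    have h2 := mul_le_mul_of_nonneg_left h1 ht'.le
    refine h2.trans (le_of_eq ?_)
    push_cast
    field_simp
  have hZ0 : 0 ≤ nq Z := Finset.sum_nonneg fun _ _ => sq_nonneg _
  have hcast : ((q * t : ℕ) : ℝ) = (q : ℝ) * t := by push_cast; rfl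
  -- first term
  have t1 : 3 * (t * ((4 * L / (q * t : ℕ)) ^ 2 * (L ^ C' * (L ^ C' *
          (X * L ^ 2 * (X * L ^ 2) * (2 * L ^ (K + B) * (q * t : ℕ) / L ^ m)))))) ^ 2 ≤
      X ^ 4 / (q ^ 2 * L ^ A) / 2 := by
    rw [hcast]
    exact mjh_a3 X q t L hXp hq' ht' g2 A B C' K m hm
  -- second term
  have t2 : 6 * (t * nq (PG X (q * t) w φ 𝓑) + VA X q w θ) * (t * nq Z + E) ≤
      X ^ 4 / (q ^ 2 * L ^ A) / 2 + X ^ 2 * L ^ 6 / q * E := by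
    rw [hcast] at k3
    have hV' : t * nq (PG X (q * t) w φ 𝓑) + VA X q w θ ≤ 4 * X ^ 2 * L ^ 4 / q := by
      have h3 : 4 * (X : ℝ) ^ 2 * L ^ 4 / q = 2 * X ^ 2 * L ^ 4 / q + 2 * X ^ 2 * L ^ 4 / q := by
        ring
      linarith
    have h1 := mjh_a2 X q t L _ _ E hXp hq' ht' g2 A B (by positivity) hV' hZ0 k3 hE0
    have h3 : (X : ℝ) ^ 2 * L ^ 4 / q * 24 * E ≤ X ^ 2 * L ^ 6 / q * E := by
      refine mul_le_mul_of_nonneg_right ?_ hE0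
      rw [show (X : ℝ) ^ 2 * L ^ 6 / q = X ^ 2 * L ^ 4 / q * L ^ 2 by ring]
      exact mul_le_mul_of_nonneg_left (by nlinarith) (by positivity)
    linarith
  calc _ ≤ X ^ 4 / (q ^ 2 * L ^ A) / 2 + (X ^ 4 / (q ^ 2 * L ^ A) / 2 + X ^ 2 * L ^ 6 / q * E) :=
        add_le_add t1 t2
    _ = _ := by ring

end Pool.MP_dd84fd_nt.EM
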