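import Pool.Agent.Lib.MP_dd84fd_nt.EM.Defs
import Pool.Agent.Lib.MP_dd84fd_nt.HX.GrMod

/-!
# EM-Mod (0.8 h): the model as a short divisor sum

Copy of `HX.model_coef` (`HX/GrMod.lean`, private lemmas `grMod_tail`, `grMod_count` and the Rankin bound of E2) with the level `X^δ` in place of `X^(1/4)` and the coefficients explicit:
`f1 w n = c_w Σ_{d | n, d | P} μ(d)`, `P = primorial w`, `c_w = P/φ(P) ≤ L`; the tail `d > X^δ`.  Every squarefree divisor `d > X^δ` of `P` that divides `n` is composed of primes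
`≤ w ≤ L^D'`: Rankin: `Σ_{d | P, d > X^δ} 1/d ≤ X^(-δ/(2D')) Π_{p ≤ w} (1 + p^(-1 + 1/(2D'))) ≤ X^(-η)`; in mean square
`Σ_{n ≤ X} (Σ_{d | n, d | P, d > X^δ} 1)² ≤ Σ_{n ≤ X} τ(n) Σ_{d | n, ...} 1` and Cauchy-Schwarz with `Σ τ²` (as in `model_coef`).
-/

set_option autoImplicit false

namespace Pool.MP_dd84fd_nt.EM

open Finset Pool.MP_67663b_nt.Odd Pool.MP_dd84fd_nt.En Pool.MP_dd84fd_nt.E2
open Pool.MP_dd84fd_nt.HX Pool.MP_dd84fd_nt.IX
open Pool.MP_dd84fd_nt.JX (ZJ DecJ Str wP gP)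
open Pool.MP_dd84fd_nt.L2G (fz VA VQ MajQ MinorHyp Tc Jc cv av gr Se)
open Pool.MP_dd84fd_nt.T7 (Fz2)

/-- the sum over the multiples of `d` -/
private theorem emod_mult (d t : ℕ) (hd : 0 < d) (g : ℕ → ℂ) :
    ∑ n ∈ (Icc 1 t).filter (fun n => d ∣ n), g n = ∑ k ∈ Icc 1 (t / d), g (d * k) := by
  symm
  refine sum_bij (fun k _ => d * k) ?_ ?_ ?_ ?_
  · intro k hk
    rw [mem_Icc] at hk
    rw [mem_filter, mem_Icc]
    refine ⟨⟨Nat.mul_pos hd hk.1, ?_⟩, dvd_mul_right d k⟩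
    calc d * k ≤ d * (t / d) := Nat.mul_le_mul_left d hk.2
      _ ≤ t := Nat.mul_div_le t d
  · intro k _ k' _ h
    exact Nat.eq_of_mul_eq_mul_left hd h
  · intro n hn
    rw [mem_filter, mem_Icc] at hn
    obtain ⟨k, rfl⟩ := hn.2
    refine ⟨k, ?_, rfl⟩
    rw [mem_Icc]
    constructor
    · exact Nat.pos_of_mul_pos_left hn.1.1
    · rw [Nat.le_div_iff_mul_le hd, mul_comm]
      exact hn.1.2
  · intro k _
    rfl

/-- `f1` as a divisor sum -/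
private theorem emod_f1 (w n : ℕ) (hn : 0 < n) :
    f1 w n = (primorial w : ℝ) / (Nat.totient (primorial w) : ℝ) *
      ∑ d ∈ (primorial w).divisors.filter (fun d => d ∣ n),
        ((ArithmeticFunction.moebius d : ℤ) : ℝ) := by
  have hP : 0 < primorial w := primorial_pos w
  set P := primorial w with hPdef
  have h2 : ∑ d ∈ P.divisors.filter (fun d => d ∣ n), ((ArithmeticFunction.moebius d : ℤ) : ℝ) =
      ((∑ d ∈ (Nat.gcd n P).divisors, ArithmeticFunction.moebius d : ℤ) : ℝ) := by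
    push_cast
    refine sum_congr ?_ fun _ _ => rfl
    ext d
    rw [mem_filter, Nat.mem_divisors, Nat.mem_divisors]
    constructor
    · rintro ⟨⟨h3, _⟩, h4⟩
      exact ⟨Nat.dvd_gcd h4 h3, Nat.gcd_ne_zero_left hn.ne'⟩
    · rintro ⟨h3, _⟩
      exact ⟨⟨h3.trans (Nat.gcd_dvd_right n P), hP.ne'⟩, h3.trans (Nat.gcd_dvd_left n P)⟩
  have h3 : (∑ d ∈ (Nat.gcd n P).divisors, ArithmeticFunction.moebius d : ℤ) =
      if Nat.gcd n P = 1 then 1 else 0 := by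
    rw [← ArithmeticFunction.coe_mul_zeta_apply, ArithmeticFunction.moebius_mul_coe_zeta,
      ArithmeticFunction.one_apply]
  rw [h2, h3]
  unfold f1
  by_cases hc : Nat.Coprime n P
  · rw [if_pos hc, if_pos hc]
    push_cast
    ring
  · rw [if_neg hc, if_neg hc]
    push_cast
    ring

private theorem emod_wX (D' X : ℕ) (hL : 0 ≤ Real.log X) :
    ((wX D' X : ℕ) : ℝ) ≤ (Real.log X) ^ D' := by
  unfold wX
  exact Nat.floor_le (pow_nonneg hL D')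

/-- the tail of the divisors of the primorial -/
private theorem emod_tail (D' : ℕ) (hD : 1 ≤ D') (δ : ℝ) (hδ : 0 < δ) :
    ∃ X0 : ℕ, ∀ X : ℕ, X0 ≤ X → ∀ w : ℕ, (w : ℝ) ≤ (Real.log X) ^ D' →
    ∑ d ∈ (primorial w).divisors.filter (fun d : ℕ => (X : ℝ) ^ δ < (d : ℝ)), 1 / (d : ℝ) ≤
      (X : ℝ) ^ (-(3 * (δ / (8 * (D' : ℝ))))) := by
  have hDR : (1 : ℝ) ≤ (D' : ℝ) := by exact_mod_cast hD
  obtain ⟨XR, hXR⟩ := rankin D' hD (ε := δ / (8 * (D' : ℝ))) (by positivity)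
  refine ⟨max XR 1, fun X hX w hw => ?_⟩
  have hX1 : 1 ≤ X := (le_max_right _ _).trans hX
  have hX1R : (1 : ℝ) ≤ X := by exact_mod_cast hX1
  have hX0 : (0 : ℝ) < X := by linarith
  refine (hXR X ((le_max_left _ _).trans hX) w hw _ (Real.one_le_rpow hX1R hδ.le)).1.trans ?_
  rw [← Real.rpow_mul hX0.le, ← Real.rpow_add hX0]
  apply le_of_eq
  congr 1
  field_simp
  ring

/-- the number of `n ≤ X` with a divisor in `DD` -/
private theorem emod_count (X : ℕ) (DD : Finset ℕ) (hDD : ∀ d ∈ DD, 0 < d) :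
    ((((Icc 1 X).filter (fun n => ∃ d ∈ DD, d ∣ n)).card : ℕ) : ℝ) ≤
      X * ∑ d ∈ DD, 1 / (d : ℝ) := by
  have h1 : ((Icc 1 X).filter (fun n => ∃ d ∈ DD, d ∣ n)).card ≤
      ∑ d ∈ DD, ((Icc 1 X).filter (fun n => d ∣ n)).card := by
    have h2 : (Icc 1 X).filter (fun n => ∃ d ∈ DD, d ∣ n) ⊆
        DD.biUnion (fun d => (Icc 1 X).filter (fun n => d ∣ n)) := by
      intro n hn
      rw [mem_filter] at hn
      obtain ⟨hn1, d, hd, hdn⟩ := hn
      rw [mem_biUnion]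
      exact ⟨d, hd, mem_filter.2 ⟨hn1, hdn⟩⟩
    exact (card_le_card h2).trans card_biUnion_le
  have h3 : ∀ d ∈ DD, ((((Icc 1 X).filter (fun n => d ∣ n)).card : ℕ) : ℝ) ≤ X * (1 / (d : ℝ)) := by
    intro d hd
    have h4 : ((Icc 1 X).filter (fun n => d ∣ n)).card = X / d := by
      have h5 := emod_mult d X (hDD d hd) (fun _ => 1)
      rw [Finset.sum_const, Finset.sum_const, Nat.card_Icc] at h5
      simp only [nsmul_eq_mul, mul_one, Nat.add_sub_cancel] at h5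
      exact_mod_cast h5
    rw [h4, mul_one_div]
    exact Nat.cast_div_le
  calc ((((Icc 1 X).filter (fun n => ∃ d ∈ DD, d ∣ n)).card : ℕ) : ℝ)
      ≤ ((∑ d ∈ DD, ((Icc 1 X).filter (fun n => d ∣ n)).card : ℕ) : ℝ) := by exact_mod_cast h1
    _ = ∑ d ∈ DD, ((((Icc 1 X).filter (fun n => d ∣ n)).card : ℕ) : ℝ) := by push_cast; rfl
    _ ≤ ∑ d ∈ DD, X * (1 / (d : ℝ)) := Finset.sum_le_sum h3
    _ = X * ∑ d ∈ DD, 1 / (d : ℝ) := by rw [Finset.mul_sum]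

/-- the coefficients of the truncated model -/
noncomputable def vM (δ : ℝ) (w X d : ℕ) : ℝ :=
  if d ∣ primorial w ∧ (d : ℝ) ≤ (X : ℝ) ^ δ then
    (primorial w : ℝ) / (Nat.totient (primorial w) : ℝ) *
      ((ArithmeticFunction.moebius d : ℤ) : ℝ) else 0

theorem vM_approx (D' : ℕ) (hD : 1 ≤ D') (δ : ℝ) (hδ : 0 < δ) : ∃ η : ℝ, 0 < η ∧ ∃ X0 : ℕ,
    ∀ X : ℕ, X0 ≤ X →
    ∑ n ∈ Icc 1 X, (f1 (wX D' X) n - ∑ d ∈ n.divisors, vM δ (wX D' X) X d) ^ 2 ≤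
        (X : ℝ) ^ (1 - η) ∧
      (primorial (wX D' X) : ℝ) / (Nat.totient (primorial (wX D' X)) : ℝ) *
        ∑ d ∈ (primorial (wX D' X)).divisors.filter (fun d : ℕ => (X : ℝ) ^ δ < (d : ℝ)),
          1 / (d : ℝ) ≤ (X : ℝ) ^ (-η) := by
  classical
  have hDR : (1 : ℝ) ≤ (D' : ℝ) := by exact_mod_cast hD
  obtain ⟨η, hη⟩ : ∃ η : ℝ, η = δ / (8 * (D' : ℝ)) := ⟨_, rfl⟩
  have hη0 : 0 < η := by rw [hη]; positivity
  obtain ⟨C0, hC0⟩ := L2G.div_mom 4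
  obtain ⟨X1, hX1⟩ := f1_le D'
  obtain ⟨X2, hX2⟩ := emod_tail D' hD δ hδ
  obtain ⟨X3, hX3⟩ := MP_log_large 1
  obtain ⟨X4, hX4⟩ := MP_log_pow (2 ^ C0) (4 + C0) (ε := η) hη0
  rw [← hη] at hX2
  refine ⟨η, hη0, max (max X1 X2) (max (max X3 X4) 1), fun X hX => ?_⟩
  simp only [max_le_iff] at hX
  obtain ⟨⟨hX1', hX2'⟩, ⟨hX3', hX4'⟩, hXone⟩ := hX
  have hX0 : (0 : ℝ) < X := by exact_mod_cast hXone
  obtain ⟨L, hL⟩ : ∃ L, Real.log X = L := ⟨_, rfl⟩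
  have hL1 : 1 ≤ L := by rw [← hL]; exact hX3 X hX3'
  have hL0 : 0 < L := by linarith
  obtain ⟨w, hw⟩ : ∃ w, wX D' X = w := ⟨_, rfl⟩
  have hwL : (w : ℝ) ≤ (Real.log X) ^ D' := by
    rw [← hw]
    exact emod_wX D' X (by rw [hL]; exact hL0.le)
  rw [hw]
  obtain ⟨hPφ, -⟩ := hX1 X hX1' w hwL
  have htail := hX2 X hX2' w hwL
  have hLL := hX4 X hX4'
  rw [hL] at hPφ hLL
  have hv0 : ∀ d, vM δ w X d = if d ∣ primorial w ∧ (d : ℝ) ≤ (X : ℝ) ^ δ then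
    (primorial w : ℝ) / (Nat.totient (primorial w) : ℝ) *
      ((ArithmeticFunction.moebius d : ℤ) : ℝ) else 0 := fun d => rfl
  have hPpos : 0 < primorial w := primorial_pos w
  have hf1 := fun n hn => emod_f1 w n hn
  obtain ⟨P, hP⟩ : ∃ P, primorial w = P := ⟨_, rfl⟩
  rw [hP] at hPφ htail hf1 hPpos
  simp only [hP] at hv0
  rw [hP]
  obtain ⟨R, hR⟩ : ∃ R : ℝ, (P : ℝ) / (Nat.totient P : ℝ) = R := ⟨_, rfl⟩
  rw [hR] at hPφ hf1
  simp only [hR] at hv0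
  rw [hR]
  have hR0 : 0 ≤ R := by rw [← hR]; positivity
  have hmu : ∀ d : ℕ, |((ArithmeticFunction.moebius d : ℤ) : ℝ)| ≤ 1 := fun d => by
    exact_mod_cast ArithmeticFunction.abs_moebius_le_one
  obtain ⟨z, hz⟩ : ∃ z : ℝ, (X : ℝ) ^ δ = z := ⟨_, rfl⟩
  rw [hz] at htail ⊢
  simp only [hz] at hv0
  obtain ⟨DD, hDD⟩ : ∃ DD, DD = P.divisors.filter (fun d : ℕ => z < (d : ℝ)) := ⟨_, rfl⟩
  rw [← hDD] at htail ⊢
  have h2C : (1 : ℝ) ≤ 2 ^ C0 := one_le_pow₀ (by norm_num)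
  constructor
  swap
  · have h1 : L ≤ (X : ℝ) ^ η := by
      refine le_trans ?_ hLL
      have h3 : L ^ 1 ≤ L ^ (4 + C0) := pow_le_pow_right₀ hL1 (by omega)
      rw [pow_one] at h3
      have h4 : 0 ≤ L ^ (4 + C0) := by positivity
      nlinarith
    calc R * ∑ d ∈ DD, 1 / (d : ℝ) ≤ (X : ℝ) ^ η * (X : ℝ) ^ (-(3 * η)) :=
          mul_le_mul (hPφ.trans h1) htail (Finset.sum_nonneg fun _ _ => by positivity)
            (Real.rpow_nonneg hX0.le _)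
      _ = (X : ℝ) ^ (-(2 * η)) := by
          rw [← Real.rpow_add hX0]
          congr 1
          ring
      _ ≤ (X : ℝ) ^ (-η) :=
          Real.rpow_le_rpow_of_exponent_le (by exact_mod_cast hXone) (by linarith)
  -- the difference
  have hdiff : ∀ n ∈ Icc 1 X, f1 w n - ∑ d ∈ n.divisors, vM δ w X d =
      R * ∑ d ∈ DD.filter (fun d => d ∣ n), ((ArithmeticFunction.moebius d : ℤ) : ℝ) := by
    intro n hn
    have hn1 : 0 < n := (mem_Icc.1 hn).1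
    have hv : ∑ d ∈ n.divisors, vM δ w X d = R * ∑ d ∈ P.divisors.filter
        (fun d : ℕ => (d : ℝ) ≤ z ∧ d ∣ n), ((ArithmeticFunction.moebius d : ℤ) : ℝ) := by
      rw [Finset.sum_congr rfl fun d _ => hv0 d, ← Finset.sum_filter, Finset.mul_sum]
      refine Finset.sum_congr ?_ fun _ _ => rfl
      ext d
      simp only [mem_filter, Nat.mem_divisors]
      constructor
      · rintro ⟨⟨h1, _⟩, h2, h3⟩
        exact ⟨⟨h2, hPpos.ne'⟩, h3, h1⟩
      · rintro ⟨h2, h3, h1⟩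
        exact ⟨⟨h1, hn1.ne'⟩, h2.1, h3⟩
    have h5 : ∑ d ∈ P.divisors.filter (fun d => d ∣ n), ((ArithmeticFunction.moebius d : ℤ) : ℝ) =
        ∑ d ∈ P.divisors.filter (fun d : ℕ => (d : ℝ) ≤ z ∧ d ∣ n),
          ((ArithmeticFunction.moebius d : ℤ) : ℝ) +
        ∑ d ∈ DD.filter (fun d => d ∣ n), ((ArithmeticFunction.moebius d : ℤ) : ℝ) := by
      rw [← Finset.sum_filter_add_sum_filter_not (P.divisors.filter (fun d => d ∣ n))
        (fun d : ℕ => (d : ℝ) ≤ z)]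
      congr 1
      · refine Finset.sum_congr ?_ fun _ _ => rfl
        ext d
        simp only [mem_filter]
        tauto
      · refine Finset.sum_congr ?_ fun _ _ => rfl
        ext d
        rw [hDD]
        simp only [mem_filter, not_le]
        tauto
    rw [hf1 n hn1, h5, hv]
    ring
  have hDDpos : ∀ d ∈ DD, 0 < d := fun d hd => by
    rw [hDD] at hd
    exact Nat.pos_of_mem_divisors (Finset.mem_filter.1 hd).1
  have he : ∀ n ∈ Icc 1 X, (f1 w n - ∑ d ∈ n.divisors, vM δ w X d) ^ 2 ≤ L ^ 2 *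
      ((n.divisors.card : ℝ) ^ 2 * (if ∃ d ∈ DD, d ∣ n then 1 else 0)) := by
    intro n hn
    have hn1 : 0 < n := (mem_Icc.1 hn).1
    rw [hdiff n hn]
    split_ifs with hex
    · have h1 : |∑ d ∈ DD.filter (fun d => d ∣ n),
          ((ArithmeticFunction.moebius d : ℤ) : ℝ)| ≤ n.divisors.card := by
        calc |∑ d ∈ DD.filter (fun d => d ∣ n), ((ArithmeticFunction.moebius d : ℤ) : ℝ)|
            ≤ ∑ d ∈ DD.filter (fun d => d ∣ n), |((ArithmeticFunction.moebius d : ℤ) : ℝ)| :=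
              Finset.abs_sum_le_sum_abs _ _
          _ ≤ ∑ d ∈ DD.filter (fun d => d ∣ n), (1 : ℝ) := Finset.sum_le_sum fun d _ => hmu d
          _ = ((DD.filter (fun d => d ∣ n)).card : ℝ) := by simp
          _ ≤ n.divisors.card := by
              have : DD.filter (fun d => d ∣ n) ⊆ n.divisors := by
                intro d hd
                rw [Nat.mem_divisors]
                exact ⟨(mem_filter.1 hd).2, hn1.ne'⟩
              exact_mod_cast card_le_card this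
      rw [mul_pow, mul_one, ← sq_abs (∑ d ∈ DD.filter (fun d => d ∣ n),
        ((ArithmeticFunction.moebius d : ℤ) : ℝ))]
      exact mul_le_mul (pow_le_pow_left₀ hR0 hPφ 2) (pow_le_pow_left₀ (abs_nonneg _) h1 2)
        (sq_nonneg _) (sq_nonneg _)
    · have h1 : DD.filter (fun d => d ∣ n) = ∅ := by
        rw [Finset.filter_eq_empty_iff]
        intro d hd hdn
        exact hex ⟨d, hd, hdn⟩
      rw [h1]
      simp
  have hS : ∑ n ∈ Icc 1 X, (f1 w n - ∑ d ∈ n.divisors, vM δ w X d) ^ 2 ≤ L ^ 2 *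
      ∑ n ∈ Icc 1 X, ((n.divisors.card : ℝ) ^ 2 * (if ∃ d ∈ DD, d ∣ n then 1 else 0)) := by
    rw [Finset.mul_sum]
    exact Finset.sum_le_sum he
  refine hS.trans ?_
  obtain ⟨S, hSdef⟩ : ∃ S, S = ∑ n ∈ Icc 1 X, ((n.divisors.card : ℝ) ^ 2 *
    (if ∃ d ∈ DD, d ∣ n then (1 : ℝ) else 0)) := ⟨_, rfl⟩
  rw [← hSdef]
  have hS0 : 0 ≤ S := by
    rw [hSdef]
    exact Finset.sum_nonneg fun n _ => by
      split_ifs <;> positivity
  have hcs : S ^ 2 ≤ (∑ n ∈ Icc 1 X, ((n.divisors.card : ℝ) ^ 2) ^ 2) *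
      ∑ n ∈ Icc 1 X, (if ∃ d ∈ DD, d ∣ n then (1 : ℝ) else 0) ^ 2 := by
    rw [hSdef]
    exact Finset.sum_mul_sq_le_sq_mul_sq _ _ _
  have hA : ∑ n ∈ Icc 1 X, ((n.divisors.card : ℝ) ^ 2) ^ 2 ≤ X * (1 + L) ^ C0 := by
    rw [← hL]
    refine le_trans (le_of_eq ?_) (hC0 X hXone).1
    refine Finset.sum_congr rfl fun n _ => ?_
    rw [← pow_mul]
  have hB : ∑ n ∈ Icc 1 X, (if ∃ d ∈ DD, d ∣ n then (1 : ℝ) else 0) ^ 2 ≤
      X * (X : ℝ) ^ (-(3 * η)) := by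
    have h1 : ∑ n ∈ Icc 1 X, (if ∃ d ∈ DD, d ∣ n then (1 : ℝ) else 0) ^ 2 =
        ((((Icc 1 X).filter (fun n => ∃ d ∈ DD, d ∣ n)).card : ℕ) : ℝ) := by
      rw [Finset.card_filter]
      push_cast
      refine Finset.sum_congr rfl fun n _ => ?_
      split_ifs <;> norm_num
    rw [h1]
    exact (emod_count X DD hDDpos).trans (mul_le_mul_of_nonneg_left htail hX0.le)
  have hB0 : 0 ≤ ∑ n ∈ Icc 1 X, (if ∃ d ∈ DD, d ∣ n then (1 : ℝ) else 0) ^ 2 :=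
    Finset.sum_nonneg fun n _ => sq_nonneg _
  have h1L : (1 + L) ^ C0 ≤ 2 ^ C0 * L ^ C0 := by
    rw [← mul_pow]
    exact pow_le_pow_left₀ (by positivity) (by linarith) C0
  have hsq : (L ^ 2 * S) ^ 2 ≤ ((X : ℝ) ^ (1 - η)) ^ 2 := by
    have e1 : ((X : ℝ) ^ (1 - η)) ^ 2 = X * X * ((X : ℝ) ^ η * (X : ℝ) ^ (-(3 * η))) := by
      rw [← Real.rpow_natCast, ← Real.rpow_mul hX0.le, ← Real.rpow_add hX0]
      have e2 : (X : ℝ) * X = (X : ℝ) ^ (2 : ℝ) := by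
        rw [show (2 : ℝ) = ((2 : ℕ) : ℝ) by norm_num, Real.rpow_natCast]
        ring
      rw [e2, ← Real.rpow_add hX0]
      congr 1
      push_cast
      ring
    rw [e1]
    calc (L ^ 2 * S) ^ 2 = L ^ 4 * S ^ 2 := by ring
      _ ≤ L ^ 4 * ((X * (1 + L) ^ C0) * (X * (X : ℝ) ^ (-(3 * η)))) := by
          apply mul_le_mul_of_nonneg_left _ (by positivity)
          exact hcs.trans (mul_le_mul hA hB hB0 (by positivity))
      _ = X * X * ((L ^ 4 * (1 + L) ^ C0) * (X : ℝ) ^ (-(3 * η))) := by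
          ring
      _ ≤ X * X * ((X : ℝ) ^ η * (X : ℝ) ^ (-(3 * η))) := by
          apply mul_le_mul_of_nonneg_left _ (by positivity)
          apply mul_le_mul_of_nonneg_right _ (Real.rpow_nonneg hX0.le _)
          refine le_trans ?_ hLL
          calc L ^ 4 * (1 + L) ^ C0 ≤ L ^ 4 * (2 ^ C0 * L ^ C0) :=
                mul_le_mul_of_nonneg_left h1L (by positivity)
            _ = 2 ^ C0 * L ^ (4 + C0) := by rw [pow_add]; ring
  exact (sq_le_sq₀ (mul_nonneg (sq_nonneg L) hS0) (Real.rpow_nonneg hX0.le _)).1 hsq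

end Pool.MP_dd84fd_nt.EM
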