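import Pool.Agent.Lib.MP_dd84fd_nt.EM.PJ
import Pool.Agent.Lib.MP_dd84fd_nt.EM.Defs
import Pool.Agent.Lib.MP_dd84fd_nt.DivBound

/-!
# EM-PT2 (1.4 h): `χ(a - n)`, type II

`χ` mod `q` is induced by the primitive `χ*` mod `d = cond χ`, `d | q`, `d > L^D1` (`Big`; `χ` factors through its conductor).  For `(m k, q) = 1`:
`χ(a - m k) = χ*(a - m k) [(a - m k, q) = 1] = Σ_{e | q squarefree, (e,d) = 1} μ(e) [e | a - m k] χ*(a - m k)` (if `p | e`, `p | d` then `χ*(a - m k) = 0`).  Split `m` and `k` into classes mod `r`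
(`r²` pairs, `r ≤ L^B`): `e(m k y/r)` is constant.  Each piece is a sum `S_e` of `bil_cong_Ioc` (coefficients `α m [(m,q) = 1][m = i (r)]` etc., supported on integers coprime to `d e`):
`‖S_e‖² ≤ g d (M/(d e) + 1)(N/(d e) + 1) ‖α‖² ‖β‖²`, `g = gcd(a, d) ≤ gcd(a,q) ≤ L^K`, `‖α‖² ≤ M L^(2C)`, `‖β‖² ≤ N L^C`.  Square root (`M N ≤ 2X`, `M, N ≥ X^(th/9)`, `d ≤ q ≤ X^(1-th+e)`):
`≤ L^(K/2 + 3C/2) (M N/(√d e) + √(M N (M + N)) + √(d M N))` `≤ L^(..) (2 X/(e L^(D1/2)) + 4 X^(1 - th/18) + 2 X^(1 - (th - e)/2))`.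
Number of `e | q`: `≤ X^(th/100)` (`DivBound`), `Σ_{e | q} 1/e ≤ 1 + log q ≤ 2 L`.  Total over the `r²` pairs: `D0 = 2A + K + 3C + 4B + 8`.
-/

set_option autoImplicit false

namespace Pool.MP_dd84fd_nt.EM

open Finset Pool.MP_67663b_nt.Odd Pool.MP_dd84fd_nt.En Pool.MP_dd84fd_nt.E2
open Pool.MP_dd84fd_nt.HX Pool.MP_dd84fd_nt.IX
open Pool.MP_dd84fd_nt.JX (ZJ DecJ Str wP gP)
open Pool.MP_dd84fd_nt.L2G (fz VA VQ MajQ MinorHyp Tc Jc cv av gr Se)
open Pool.MP_dd84fd_nt.T7 (Fz2)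

private theorem PT2_mu (n : ℕ) :
    ∑ e ∈ n.divisors, ((ArithmeticFunction.moebius e : ℤ) : ℂ) = if n = 1 then 1 else 0 := by
  have h := congrArg (fun f : ArithmeticFunction ℂ => f n)
    (ArithmeticFunction.coe_moebius_mul_coe_zeta (R := ℂ))
  simp only [ArithmeticFunction.coe_mul_zeta_apply, ArithmeticFunction.one_apply,
    ArithmeticFunction.intCoe_apply] at h
  exact h

/-- a character by its primitive character -/
private theorem PT2_pt (q : ℕ) [NeZero q] (χ : DirichletCharacter ℂ q) (c : ZMod q) :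
    χ c = ∑ e ∈ q.divisors.filter (fun e => Nat.Coprime χ.conductor e),
      ((ArithmeticFunction.moebius e : ℤ) : ℂ) *
        (if (c.cast : ZMod e) = 0 then χ.primitiveCharacter (c.cast : ZMod χ.conductor) else 0) := by
  classical
  obtain ⟨d, hd⟩ : ∃ d, d = χ.conductor := ⟨_, rfl⟩
  have hdq : χ.conductor ∣ q := χ.conductor_dvd_level
  have hq : q ≠ 0 := NeZero.ne q
  have hcv : c = ((c.val : ℕ) : ZMod q) := (ZMod.natCast_zmod_val c).symm
  have hcu : ∀ e : ℕ, e ∣ q → ((c.cast : ZMod e) = ((c.val : ℕ) : ZMod e)) := by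
    intro e he
    rw [ZMod.natCast_val]
  by_cases hu : IsUnit (c.cast : ZMod χ.conductor)
  · have hcop : Nat.Coprime c.val χ.conductor := by
      rw [hcu _ hdq, ZMod.isUnit_iff_coprime] at hu
      exact hu
    have h1 : ∑ e ∈ q.divisors.filter (fun e => Nat.Coprime χ.conductor e),
        ((ArithmeticFunction.moebius e : ℤ) : ℂ) *
        (if (c.cast : ZMod e) = 0 then χ.primitiveCharacter (c.cast : ZMod χ.conductor) else 0) =
        (∑ e ∈ (Nat.gcd c.val q).divisors, ((ArithmeticFunction.moebius e : ℤ) : ℂ)) *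
          χ.primitiveCharacter (c.cast : ZMod χ.conductor) := by
      rw [Finset.sum_mul]
      have hsub : (Nat.gcd c.val q).divisors ⊆
          q.divisors.filter (fun e => Nat.Coprime χ.conductor e) := by
        intro e he
        have he1 := Nat.dvd_of_mem_divisors he
        rw [Finset.mem_filter, Nat.mem_divisors]
        refine ⟨⟨he1.trans (Nat.gcd_dvd_right _ _), hq⟩, ?_⟩
        exact (Nat.Coprime.coprime_dvd_left (he1.trans (Nat.gcd_dvd_left _ _)) hcop).symm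
      rw [← Finset.sum_subset hsub]
      · refine Finset.sum_congr rfl fun e he => ?_
        have he1 := Nat.dvd_of_mem_divisors he
        have he2 : e ∣ q := he1.trans (Nat.gcd_dvd_right _ _)
        have he3 : (c.cast : ZMod e) = 0 := by
          rw [hcu e he2, ZMod.natCast_eq_zero_iff]
          exact he1.trans (Nat.gcd_dvd_left _ _)
        rw [if_pos he3]
      · intro e he hne
        rw [Finset.mem_filter, Nat.mem_divisors] at he
        have he3 : ¬ (c.cast : ZMod e) = 0 := by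
          rw [hcu e he.1.1, ZMod.natCast_eq_zero_iff]
          intro h
          exact hne (Nat.mem_divisors.mpr ⟨Nat.dvd_gcd h he.1.1, Nat.gcd_ne_zero_right hq⟩)
        rw [if_neg he3, mul_zero]
    rw [h1, PT2_mu]
    by_cases hcq : IsUnit c
    · obtain ⟨u, rfl⟩ := hcq
      have h2 : Nat.gcd (u : ZMod q).val q = 1 := ZMod.val_coe_unit_coprime u
      rw [if_pos h2, one_mul]
      conv_lhs => rw [← DirichletCharacter.changeLevel_primitiveCharacter χ]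
      rw [DirichletCharacter.changeLevel_eq_cast_of_dvd]
    · rw [MulChar.map_nonunit _ hcq, if_neg, zero_mul]
      intro h2
      apply hcq
      rw [hcv, ZMod.isUnit_iff_coprime]
      exact h2
  · have hcq : ¬ IsUnit c := by
      intro h
      apply hu
      rw [hcu _ hdq, ZMod.isUnit_iff_coprime]
      rw [hcv, ZMod.isUnit_iff_coprime] at h
      exact Nat.Coprime.coprime_dvd_right hdq h
    rw [MulChar.map_nonunit _ hcq, MulChar.map_nonunit _ hu]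
    simp

private theorem PT2_sum (q : ℕ) [NeZero q] (χ : DirichletCharacter ℂ q) (a : ZMod q)
    (M0 M N0 N : ℕ) (α β : ℕ → ℂ)
    (hα : ∀ m, ¬ Nat.Coprime m q → α m = 0) (hβ : ∀ k, ¬ Nat.Coprime k q → β k = 0) :
    ‖∑ m ∈ Ioc M0 (M0 + M), ∑ k ∈ Ioc N0 (N0 + N),
      α m * β k * χ (a - (m : ZMod q) * (k : ZMod q))‖ ≤
      ∑ e ∈ q.divisors, Real.sqrt ((Nat.gcd a.val q : ℝ) * χ.conductor *
        (((M : ℝ) / ((χ.conductor : ℝ) * e) + 1) * ∑ m ∈ Ioc M0 (M0 + M), ‖α m‖ ^ 2) *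
        (((N : ℝ) / ((χ.conductor : ℝ) * e) + 1) * ∑ k ∈ Ioc N0 (N0 + N), ‖β k‖ ^ 2)) := by
  classical
  have hdq : χ.conductor ∣ q := χ.conductor_dvd_level
  have hq : q ≠ 0 := NeZero.ne q
  have hd0 : χ.conductor ≠ 0 := fun h => hq (Nat.eq_zero_of_zero_dvd (h ▸ hdq))
  have : NeZero χ.conductor := ⟨hd0⟩
  have h1 : ∑ m ∈ Ioc M0 (M0 + M), ∑ k ∈ Ioc N0 (N0 + N),
      α m * β k * χ (a - (m : ZMod q) * (k : ZMod q)) =
      ∑ e ∈ q.divisors.filter (fun e => Nat.Coprime χ.conductor e),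
        ((ArithmeticFunction.moebius e : ℤ) : ℂ) *
        ∑ m ∈ Ioc M0 (M0 + M), ∑ k ∈ (Ioc N0 (N0 + N)).filter
          (fun k : ℕ => (m : ZMod e) * (k : ZMod e) = (a.cast : ZMod e)),
          α m * β k * χ.primitiveCharacter ((a.cast : ZMod χ.conductor) -
            (m : ZMod χ.conductor) * (k : ZMod χ.conductor)) := by
    simp_rw [Finset.mul_sum]
    conv_rhs => rw [Finset.sum_comm]
    refine Finset.sum_congr rfl fun m _ => ?_
    have g0 : ∀ e ∈ q.divisors.filter (fun e => Nat.Coprime χ.conductor e),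
        ∑ k ∈ (Ioc N0 (N0 + N)).filter
          (fun k : ℕ => (m : ZMod e) * (k : ZMod e) = (a.cast : ZMod e)),
          ((ArithmeticFunction.moebius e : ℤ) : ℂ) * (α m * β k *
            χ.primitiveCharacter ((a.cast : ZMod χ.conductor) -
            (m : ZMod χ.conductor) * (k : ZMod χ.conductor))) =
        ∑ k ∈ Ioc N0 (N0 + N), if (m : ZMod e) * (k : ZMod e) = (a.cast : ZMod e) then
          ((ArithmeticFunction.moebius e : ℤ) : ℂ) * (α m * β k *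
            χ.primitiveCharacter ((a.cast : ZMod χ.conductor) -
            (m : ZMod χ.conductor) * (k : ZMod χ.conductor))) else 0 := by
      intro e _
      rw [Finset.sum_filter]
    rw [Finset.sum_congr rfl g0, Finset.sum_comm]
    refine Finset.sum_congr rfl fun k _ => ?_
    rw [PT2_pt q χ, Finset.mul_sum]
    refine Finset.sum_congr rfl fun e he => ?_
    rw [Finset.mem_filter, Nat.mem_divisors] at he
    have g1 : ∀ f : ℕ, f ∣ q → (((a - (m : ZMod q) * (k : ZMod q)).cast : ZMod f) =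
        (a.cast : ZMod f) - (m : ZMod f) * (k : ZMod f)) := by
      intro f hf
      rw [ZMod.cast_sub hf, ZMod.cast_mul hf, ZMod.cast_natCast hf, ZMod.cast_natCast hf]
    rw [g1 e he.1.1, g1 _ hdq]
    by_cases h : (m : ZMod e) * (k : ZMod e) = (a.cast : ZMod e)
    · rw [if_pos h, if_pos (sub_eq_zero.mpr h.symm)]
      ring
    · rw [if_neg h, if_neg (fun h' => h (sub_eq_zero.mp h').symm)]
      ring
  rw [h1]
  refine (norm_sum_le _ _).trans ?_
  refine (Finset.sum_le_sum fun e he => ?_).trans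
    (Finset.sum_le_sum_of_subset_of_nonneg (Finset.filter_subset _ _)
      fun _ _ _ => Real.sqrt_nonneg _)
  rw [Finset.mem_filter, Nat.mem_divisors] at he
  have he0 : e ≠ 0 := fun h => hq (Nat.eq_zero_of_zero_dvd (h ▸ he.1.1))
  have : NeZero e := ⟨he0⟩
  have hde : χ.conductor * e ∣ q := Nat.Coprime.mul_dvd_of_dvd_of_dvd he.2 hdq he.1.1
  have h2 := bil_cong_Ioc χ.conductor e he.2 χ.primitiveCharacter
    χ.primitiveCharacter_isPrimitive (a.cast : ZMod χ.conductor) (a.cast : ZMod e)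
    M0 M N0 N α β (fun m hm => hα m fun h => hm (Nat.Coprime.coprime_dvd_right hde h))
    (fun m hm => hβ m fun h => hm (Nat.Coprime.coprime_dvd_right hde h))
  rw [norm_mul]
  have h3 : ‖((ArithmeticFunction.moebius e : ℤ) : ℂ)‖ ≤ 1 := by
    rw [Complex.norm_intCast]
    exact_mod_cast ArithmeticFunction.abs_moebius_le_one
  refine (mul_le_of_le_one_left (norm_nonneg _) h3).trans ?_
  refine Real.le_sqrt_of_sq_le (h2.trans ?_)
  have h4 : (Nat.gcd (a.cast : ZMod χ.conductor).val χ.conductor : ℝ) ≤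
      (Nat.gcd a.val q : ℝ) := by
    have h5 : (a.cast : ZMod χ.conductor).val = a.val % χ.conductor := by
      rw [← ZMod.natCast_val, ZMod.val_natCast]
    rw [h5]
    have h6 : Nat.gcd (a.val % χ.conductor) χ.conductor = Nat.gcd a.val χ.conductor := by
      rw [← Nat.gcd_rec, Nat.gcd_comm]
    rw [h6]
    exact_mod_cast Nat.le_of_dvd (Nat.pos_of_ne_zero (Nat.gcd_ne_zero_right hq))
      (Nat.gcd_dvd_gcd_of_dvd_right _ hdq)
  have h7 : ∀ (S : Finset ℕ) (f : ℕ → ℂ), 0 ≤ ∑ m ∈ S, ‖f m‖ ^ 2 :=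
    fun S f => Finset.sum_nonneg fun _ _ => by positivity
  have h8 := h7 (Ioc M0 (M0 + M)) α
  have h9 := h7 (Ioc N0 (N0 + N)) β
  gcongr

private theorem PT2_ee (r : ℕ) (hr : 1 ≤ r) (y : ℤ) (m k : ℕ) :
    ee (((m * k : ℕ) : ℝ) * ((y : ℝ) / r)) =
      ee ((((m % r) * (k % r) : ℕ) : ℝ) * ((y : ℝ) / r)) := by
  have hr0 : (r : ℝ) ≠ 0 := by
    have : (1 : ℝ) ≤ r := by exact_mod_cast hr
    linarith
  obtain ⟨t, h1⟩ : ∃ t : ℕ, m * k = (m % r) * (k % r) + r * t := by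
    refine ⟨(m / r) * k + (m % r) * (k / r), ?_⟩
    have e1 := Nat.mod_add_div m r
    have e2 := Nat.mod_add_div k r
    calc m * k = (m % r + r * (m / r)) * k := by rw [e1]
      _ = (m % r) * k + r * ((m / r) * k) := by ring
      _ = (m % r) * (k % r + r * (k / r)) + r * ((m / r) * k) := by rw [e2]
      _ = _ := by ring
  have h2 : ((m * k : ℕ) : ℝ) * ((y : ℝ) / r) = (((m % r) * (k % r) : ℕ) : ℝ) * ((y : ℝ) / r) +
      ((((t : ℕ) : ℤ) * y : ℤ) : ℝ) := by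
    rw [h1]
    push_cast
    field_simp
  rw [h2, ee_add_int]

private theorem PT2_split (q : ℕ) [NeZero q] (χ : DirichletCharacter ℂ q) (a : ZMod q)
    (r : ℕ) (hr : 1 ≤ r) (y : ℤ) (S T : Finset ℕ) (α β : ℕ → ℂ) :
    ∑ m ∈ S, ∑ k ∈ T, α m * β k * FP q a χ r y (m * k) =
      ∑ i ∈ range r, ∑ j ∈ range r, ee (((i * j : ℕ) : ℝ) * ((y : ℝ) / r)) *
        ∑ m ∈ S, ∑ k ∈ T, (if m % r = i ∧ Nat.Coprime m q then α m else 0) *
          (if k % r = j ∧ Nat.Coprime k q then β k else 0) *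
            χ (a - (m : ZMod q) * (k : ZMod q)) := by
  classical
  have h1 : ∀ i ∈ range r, ∀ j ∈ range r, ee (((i * j : ℕ) : ℝ) * ((y : ℝ) / r)) *
        ∑ m ∈ S, ∑ k ∈ T, (if m % r = i ∧ Nat.Coprime m q then α m else 0) *
          (if k % r = j ∧ Nat.Coprime k q then β k else 0) *
            χ (a - (m : ZMod q) * (k : ZMod q)) =
      ∑ m ∈ S, ∑ k ∈ T, ee (((i * j : ℕ) : ℝ) * ((y : ℝ) / r)) *
        ((if m % r = i ∧ Nat.Coprime m q then α m else 0) *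
          (if k % r = j ∧ Nat.Coprime k q then β k else 0) *
            χ (a - (m : ZMod q) * (k : ZMod q))) := by
    intro i _ j _
    rw [Finset.mul_sum]
    refine Finset.sum_congr rfl fun m _ => ?_
    rw [Finset.mul_sum]
  have h2 : ∑ i ∈ range r, ∑ j ∈ range r, ee (((i * j : ℕ) : ℝ) * ((y : ℝ) / r)) *
        ∑ m ∈ S, ∑ k ∈ T, (if m % r = i ∧ Nat.Coprime m q then α m else 0) *
          (if k % r = j ∧ Nat.Coprime k q then β k else 0) *
            χ (a - (m : ZMod q) * (k : ZMod q)) =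
      ∑ m ∈ S, ∑ k ∈ T, ∑ i ∈ range r, ∑ j ∈ range r,
        ee (((i * j : ℕ) : ℝ) * ((y : ℝ) / r)) *
        ((if m % r = i ∧ Nat.Coprime m q then α m else 0) *
          (if k % r = j ∧ Nat.Coprime k q then β k else 0) *
            χ (a - (m : ZMod q) * (k : ZMod q))) := by
    rw [Finset.sum_congr rfl fun i hi => Finset.sum_congr rfl fun j hj => h1 i hi j hj]
    rw [Finset.sum_congr rfl fun i _ => Finset.sum_comm, Finset.sum_comm]
    refine Finset.sum_congr rfl fun m _ => ?_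
    rw [Finset.sum_congr rfl fun i _ => Finset.sum_comm, Finset.sum_comm]
  rw [h2]
  refine Finset.sum_congr rfl fun m _ => Finset.sum_congr rfl fun k _ => ?_
  rw [Finset.sum_eq_single (m % r), Finset.sum_eq_single (k % r)]
  · unfold FP
    by_cases hm : Nat.Coprime m q
    · by_cases hk : Nat.Coprime k q
      · rw [if_pos (Nat.Coprime.mul_left hm hk), if_pos ⟨rfl, hm⟩, if_pos ⟨rfl, hk⟩,
          ← PT2_ee r hr y m k]
        push_cast
        ring
      · rw [if_neg (fun h => hk (Nat.Coprime.coprime_mul_left h)),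
          if_neg (c := k % r = k % r ∧ Nat.Coprime k q) (fun h => hk h.2)]
        ring
    · rw [if_neg (fun h => hm (Nat.Coprime.coprime_mul_right h)),
        if_neg (c := m % r = m % r ∧ Nat.Coprime m q) (fun h => hm h.2)]
      ring
  · intro j _ hj
    rw [if_neg (c := k % r = j ∧ Nat.Coprime k q) (fun h => hj h.1.symm)]
    ring
  · intro h
    exact absurd (Finset.mem_range.mpr (Nat.mod_lt _ hr)) h
  · intro i _ hi
    refine Finset.sum_eq_zero fun j _ => ?_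
    rw [if_neg (c := m % r = i ∧ Nat.Coprime m q) (fun h => hi h.1.symm)]
    ring
  · intro h
    exact absurd (Finset.mem_range.mpr (Nat.mod_lt _ hr)) h

private theorem PT2_tot (q : ℕ) [NeZero q] (χ : DirichletCharacter ℂ q) (a : ZMod q)
    (r : ℕ) (hr : 1 ≤ r) (y : ℤ) (M0 M N0 N : ℕ) (α β : ℕ → ℂ) :
    ‖∑ m ∈ Ioc M0 (M0 + M), ∑ k ∈ Ioc N0 (N0 + N), α m * β k * FP q a χ r y (m * k)‖ ≤
      (r : ℝ) ^ 2 * ∑ e ∈ q.divisors, Real.sqrt ((Nat.gcd a.val q : ℝ) * χ.conductor *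
        (((M : ℝ) / ((χ.conductor : ℝ) * e) + 1) * ∑ m ∈ Ioc M0 (M0 + M), ‖α m‖ ^ 2) *
        (((N : ℝ) / ((χ.conductor : ℝ) * e) + 1) * ∑ k ∈ Ioc N0 (N0 + N), ‖β k‖ ^ 2)) := by
  classical
  rw [PT2_split q χ a r hr y]
  obtain ⟨Z, hZ⟩ : ∃ Z : ℝ, Z = ∑ e ∈ q.divisors, Real.sqrt ((Nat.gcd a.val q : ℝ) *
        χ.conductor *
        (((M : ℝ) / ((χ.conductor : ℝ) * e) + 1) * ∑ m ∈ Ioc M0 (M0 + M), ‖α m‖ ^ 2) *
        (((N : ℝ) / ((χ.conductor : ℝ) * e) + 1) * ∑ k ∈ Ioc N0 (N0 + N), ‖β k‖ ^ 2)) := ⟨_, rfl⟩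
  rw [← hZ]
  have hsub : ∀ (S : Finset ℕ) (f : ℕ → ℂ) (i : ℕ),
      ∑ m ∈ S, ‖(if m % r = i ∧ Nat.Coprime m q then f m else 0)‖ ^ 2 ≤ ∑ m ∈ S, ‖f m‖ ^ 2 := by
    intro S f i
    refine Finset.sum_le_sum fun m _ => ?_
    split_ifs
    · exact le_rfl
    · rw [norm_zero, zero_pow two_ne_zero]
      exact sq_nonneg _
  have hnn : ∀ (S : Finset ℕ) (f : ℕ → ℂ), 0 ≤ ∑ m ∈ S, ‖f m‖ ^ 2 :=
    fun S f => Finset.sum_nonneg fun _ _ => by positivity
  have h1 : ∀ i ∈ range r, ∀ j ∈ range r, ‖ee (((i * j : ℕ) : ℝ) * ((y : ℝ) / r)) *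
        ∑ m ∈ Ioc M0 (M0 + M), ∑ k ∈ Ioc N0 (N0 + N),
          (if m % r = i ∧ Nat.Coprime m q then α m else 0) *
          (if k % r = j ∧ Nat.Coprime k q then β k else 0) *
            χ (a - (m : ZMod q) * (k : ZMod q))‖ ≤ Z := by
    intro i _ j _
    rw [norm_mul, norm_ee, one_mul]
    refine (PT2_sum q χ a M0 M N0 N _ _ ?_ ?_).trans ?_
    · intro m hm
      exact if_neg fun h => hm h.2
    · intro k hk
      exact if_neg fun h => hk h.2
    · rw [hZ]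
      refine Finset.sum_le_sum fun e _ => Real.sqrt_le_sqrt ?_
      have g1 := hsub (Ioc M0 (M0 + M)) α i
      have g2 := hsub (Ioc N0 (N0 + N)) β j
      have g3 := hnn (Ioc M0 (M0 + M)) α
      have g4 := hnn (Ioc N0 (N0 + N)) β
      gcongr
  refine (norm_sum_le _ _).trans ?_
  calc ∑ i ∈ range r, ‖∑ j ∈ range r, ee (((i * j : ℕ) : ℝ) * ((y : ℝ) / r)) *
        ∑ m ∈ Ioc M0 (M0 + M), ∑ k ∈ Ioc N0 (N0 + N),
          (if m % r = i ∧ Nat.Coprime m q then α m else 0) *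
          (if k % r = j ∧ Nat.Coprime k q then β k else 0) *
            χ (a - (m : ZMod q) * (k : ZMod q))‖
      ≤ ∑ i ∈ range r, ∑ j ∈ range r, Z :=
        Finset.sum_le_sum fun i hi => (norm_sum_le _ _).trans
          (Finset.sum_le_sum fun j hj => h1 i hi j hj)
    _ = (r : ℝ) ^ 2 * Z := by
        rw [Finset.sum_const, Finset.sum_const, Finset.card_range]
        simp only [nsmul_eq_mul]
        ring

private theorem PT2_sq (G d e M N P Q SA SB : ℝ) (hG : 0 ≤ G) (hd : 0 < d) (he : 1 ≤ e)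
    (hM : 0 ≤ M) (hN : 0 ≤ N) (hP : 0 ≤ P) (hQ : 0 ≤ Q)
    (hA : SA ≤ M * P) (hB : SB ≤ N * Q) (_hA0 : 0 ≤ SA) (hB0 : 0 ≤ SB) :
    Real.sqrt (G * d * ((M / (d * e) + 1) * SA) * ((N / (d * e) + 1) * SB)) ≤
      Real.sqrt (G * P * Q) * (M * N / Real.sqrt d * (1 / e) +
        (Real.sqrt (M * N * (M + N)) + Real.sqrt (d * M * N))) := by
  have he0 : 0 < e := by linarith
  have hs : 0 < Real.sqrt d := Real.sqrt_pos.mpr hd
  refine Real.sqrt_le_iff.mpr ⟨by positivity, ?_⟩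
  rw [mul_pow, Real.sq_sqrt (by positivity)]
  obtain ⟨x, hx⟩ : ∃ x, x = M * N / Real.sqrt d * (1 / e) := ⟨_, rfl⟩
  obtain ⟨y, hy⟩ : ∃ y, y = Real.sqrt (M * N * (M + N)) := ⟨_, rfl⟩
  obtain ⟨z, hz⟩ : ∃ z, z = Real.sqrt (d * M * N) := ⟨_, rfl⟩
  have hx0 : 0 ≤ x := by rw [hx]; positivity
  have hy0 : 0 ≤ y := by rw [hy]; positivity
  have hz0 : 0 ≤ z := by rw [hz]; positivity
  have hx2 : x ^ 2 = (M * N) ^ 2 / (d * e ^ 2) := by
    rw [hx, mul_pow, div_pow, Real.sq_sqrt hd.le]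
    field_simp
  have hy2 : y ^ 2 = M * N * (M + N) := by rw [hy, Real.sq_sqrt (by positivity)]
  have hz2 : z ^ 2 = d * M * N := by rw [hz, Real.sq_sqrt (by positivity)]
  rw [← hx, ← hy, ← hz]
  have h1 : G * d * ((M / (d * e) + 1) * SA) * ((N / (d * e) + 1) * SB) ≤
      G * d * ((M / (d * e) + 1) * (M * P)) * ((N / (d * e) + 1) * (N * Q)) := by
    gcongr
  refine h1.trans ?_
  have h2 : G * d * ((M / (d * e) + 1) * (M * P)) * ((N / (d * e) + 1) * (N * Q)) =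
      G * P * Q * ((M * N) ^ 2 / (d * e ^ 2) + M * N * (M + N) / e + d * M * N) := by
    field_simp
    ring
  rw [h2]
  refine mul_le_mul_of_nonneg_left ?_ (by positivity)
  have h3 : M * N * (M + N) / e ≤ M * N * (M + N) := div_le_self (by positivity) he
  nlinarith [mul_nonneg hx0 hy0, mul_nonneg hx0 hz0, mul_nonneg hy0 hz0]

private theorem PT2_harm (q : ℕ) : ∑ e ∈ q.divisors, (1 : ℝ) / e ≤ 1 + Real.log q := by
  have h1 : ∑ e ∈ q.divisors, (1 : ℝ) / e ≤ ∑ e ∈ Icc 1 q, (1 : ℝ) / e := by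
    refine Finset.sum_le_sum_of_subset_of_nonneg (fun e he => ?_) fun _ _ _ => by positivity
    rw [Finset.mem_Icc]
    exact ⟨Nat.pos_of_mem_divisors he, Nat.divisor_le he⟩
  refine h1.trans ?_
  have h2 := harmonic_le_one_add_log q
  rw [harmonic_eq_sum_Icc] at h2
  push_cast at h2
  simpa [one_div] using h2

private theorem PT2_log_pow (C : ℝ) (K : ℕ) {ε : ℝ} (hε : 0 < ε) : ∃ X0 : ℕ, ∀ X : ℕ, X0 ≤ X →
    C * (Real.log X) ^ K ≤ (X : ℝ) ^ ε := by
  have h1 := (isLittleO_log_rpow_rpow_atTop (K : ℝ) hε).bound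
    (show (0 : ℝ) < 1 / (|C| + 1) by positivity)
  have h2 := tendsto_natCast_atTop_atTop (R := ℝ) |>.eventually h1
  obtain ⟨X0, hX0⟩ := Filter.eventually_atTop.mp h2
  refine ⟨max X0 1, fun X hX => ?_⟩
  have h3 := hX0 X ((le_max_left _ _).trans hX)
  have hX1 : (1 : ℝ) ≤ X := by exact_mod_cast (le_max_right _ _).trans hX
  have hl : 0 ≤ Real.log X := Real.log_nonneg hX1
  rw [Real.norm_of_nonneg (by positivity), Real.norm_of_nonneg (by positivity),
    Real.rpow_natCast] at h3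
  have h4 : C * (Real.log X) ^ K ≤ (|C| + 1) * (Real.log X) ^ K := by
    apply mul_le_mul_of_nonneg_right _ (by positivity)
    linarith [le_abs_self C]
  refine h4.trans ?_
  have h5 : (|C| + 1) * (Real.log X) ^ K ≤ (|C| + 1) * (1 / (|C| + 1) * (X : ℝ) ^ ε) :=
    mul_le_mul_of_nonneg_left h3 (by positivity)
  refine h5.trans (le_of_eq ?_)
  have : |C| + 1 ≠ 0 := by positivity
  field_simp

private theorem PT2_tau (Cd k : ℕ) (hC : 1 ≤ Cd) (hk : 0 < k)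
    (h : ∀ m : ℕ, m ≠ 0 → m.divisors.card ^ k ≤ Cd * m) (q : ℕ) (hq : q ≠ 0) (x : ℝ)
    (hx : (q : ℝ) ≤ x) : (q.divisors.card : ℝ) ≤ Cd * x ^ (1 / (k : ℝ)) := by
  have h1 : ((q.divisors.card : ℝ)) ^ k ≤ Cd * q := by exact_mod_cast h q hq
  have hC1 : (1 : ℝ) ≤ Cd := by exact_mod_cast hC
  have hk1 : (1 : ℝ) ≤ k := by exact_mod_cast hk
  have hx0 : 0 ≤ x := (Nat.cast_nonneg q).trans hx
  have h2 : (q.divisors.card : ℝ) = (((q.divisors.card : ℝ)) ^ k) ^ (1 / (k : ℝ)) := by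
    have h3 : (k : ℝ) * (1 / (k : ℝ)) = 1 := by field_simp
    rw [← Real.rpow_natCast, ← Real.rpow_mul (Nat.cast_nonneg _), h3, Real.rpow_one]
  rw [h2]
  calc (((q.divisors.card : ℝ)) ^ k) ^ (1 / (k : ℝ)) ≤ ((Cd : ℝ) * x) ^ (1 / (k : ℝ)) :=
        Real.rpow_le_rpow (pow_nonneg (Nat.cast_nonneg _) _)
          (h1.trans (mul_le_mul_of_nonneg_left hx (by linarith))) (by positivity)
    _ = (Cd : ℝ) ^ (1 / (k : ℝ)) * x ^ (1 / (k : ℝ)) := Real.mul_rpow (by linarith) hx0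
    _ ≤ Cd * x ^ (1 / (k : ℝ)) := by
        refine mul_le_mul_of_nonneg_right ?_ (Real.rpow_nonneg hx0 _)
        calc (Cd : ℝ) ^ (1 / (k : ℝ)) ≤ (Cd : ℝ) ^ (1 : ℝ) :=
              Real.rpow_le_rpow_of_exponent_le hC1 ((div_le_one (by linarith)).mpr hk1)
          _ = Cd := Real.rpow_one _

/-- the bound before the comparison of powers -/
private theorem PT2_all (q : ℕ) [NeZero q] (χ : DirichletCharacter ℂ q) (a : ZMod q)
    (r : ℕ) (hr : 1 ≤ r) (y : ℤ) (M N : ℕ) (α β : ℕ → ℂ) (P Q : ℝ) (hP : 0 ≤ P) (hQ : 0 ≤ Q)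
    (hα : ∑ m ∈ Ioc M (M + M), ‖α m‖ ^ 2 ≤ M * P) (hβ : ∑ k ∈ Ioc 0 (0 + N), ‖β k‖ ^ 2 ≤ N * Q) :
    ‖∑ m ∈ Ioc M (M + M), ∑ k ∈ Ioc 0 (0 + N), α m * β k * FP q a χ r y (m * k)‖ ≤
      (r : ℝ) ^ 2 * (Real.sqrt ((Nat.gcd a.val q : ℝ) * P * Q) *
        ((M * N : ℝ) / Real.sqrt χ.conductor * (1 + Real.log q) + (q.divisors.card : ℝ) *
        (Real.sqrt ((M : ℝ) * N * (M + N)) + Real.sqrt ((χ.conductor : ℝ) * M * N)))) := by
  have hdq : χ.conductor ∣ q := χ.conductor_dvd_level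
  have hq : q ≠ 0 := NeZero.ne q
  have hd0 : 0 < χ.conductor := Nat.pos_of_ne_zero fun h => hq (Nat.eq_zero_of_zero_dvd (h ▸ hdq))
  have hd : (0 : ℝ) < χ.conductor := by exact_mod_cast hd0
  refine (PT2_tot q χ a r hr y M M 0 N α β).trans ?_
  refine mul_le_mul_of_nonneg_left ?_ (by positivity)
  calc ∑ e ∈ q.divisors, Real.sqrt ((Nat.gcd a.val q : ℝ) * χ.conductor *
        (((M : ℝ) / ((χ.conductor : ℝ) * e) + 1) * ∑ m ∈ Ioc M (M + M), ‖α m‖ ^ 2) *
        (((N : ℝ) / ((χ.conductor : ℝ) * e) + 1) * ∑ k ∈ Ioc 0 (0 + N), ‖β k‖ ^ 2))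
      ≤ ∑ e ∈ q.divisors, Real.sqrt ((Nat.gcd a.val q : ℝ) * P * Q) *
        ((M : ℝ) * N / Real.sqrt χ.conductor * (1 / (e : ℝ)) +
        (Real.sqrt ((M : ℝ) * N * (M + N)) + Real.sqrt ((χ.conductor : ℝ) * M * N))) := by
        refine Finset.sum_le_sum fun e he => ?_
        have he1 : (1 : ℝ) ≤ e := by exact_mod_cast Nat.pos_of_mem_divisors he
        exact PT2_sq _ _ _ _ _ P Q _ _ (Nat.cast_nonneg _) hd he1 (Nat.cast_nonneg _)
          (Nat.cast_nonneg _) hP hQ hα hβ (Finset.sum_nonneg fun _ _ => by positivity)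
          (Finset.sum_nonneg fun _ _ => by positivity)
    _ = Real.sqrt ((Nat.gcd a.val q : ℝ) * P * Q) *
        ((M * N : ℝ) / Real.sqrt χ.conductor * (∑ e ∈ q.divisors, (1 : ℝ) / e) +
        (q.divisors.card : ℝ) *
        (Real.sqrt ((M : ℝ) * N * (M + N)) + Real.sqrt ((χ.conductor : ℝ) * M * N))) := by
        rw [← Finset.mul_sum, Finset.sum_add_distrib, ← Finset.mul_sum, Finset.sum_const,
          nsmul_eq_mul]
    _ ≤ _ := by
        have h1 := PT2_harm q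
        gcongr

private theorem PT2_num (A B K C : ℕ) (th e x L M N d W lq tau r Cd : ℝ)
    (hth : 1 / 8 < th) (_hth2 : th ≤ 1 / 2) (he : e ≤ 1 / 10000) (hx : 1 ≤ x) (hL : 4 ≤ L)
    (hr0 : 0 ≤ r) (hr : r ≤ L ^ B) (hW0 : 0 ≤ W) (hW : W ≤ L ^ (K + 3 * C))
    (hWd : W * L ^ (A + 2 * B + 4) ≤ Real.sqrt d) (hd0 : 0 < d) (hd : d ≤ x ^ (1 - th + e))
    (hMN : M * N ≤ 2 * x) (hM : x ^ (th / 9) ≤ M) (hN : x ^ (th / 9) ≤ N)
    (hlq0 : 0 ≤ 1 + lq) (hlq : 1 + lq ≤ 2 * L) (ht0 : 0 ≤ tau) (ht : tau ≤ Cd * x ^ (1 / 200 : ℝ))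
    (hCd : 0 ≤ Cd) (hX : 20 * Cd * L ^ (A + 2 * B + K + 3 * C) ≤ x ^ (7 / 3600 : ℝ)) :
    r ^ 2 * (W * (M * N / Real.sqrt d * (1 + lq) +
      tau * (Real.sqrt (M * N * (M + N)) + Real.sqrt (d * M * N)))) ≤ x / L ^ A := by
  have hx0 : 0 < x := by linarith
  have hL0 : 0 < L := by linarith
  obtain ⟨s, hs⟩ : ∃ s, s = Real.sqrt d := ⟨_, rfl⟩
  have hs0 : 0 < s := by rw [hs]; exact Real.sqrt_pos.mpr hd0
  obtain ⟨w, hw⟩ : ∃ w, w = x ^ (1 / 144 : ℝ) := ⟨_, rfl⟩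
  have hw0 : 0 < w := by rw [hw]; exact Real.rpow_pos_of_pos hx0 _
  have hw2 : w ^ 2 = x ^ (1 / 72 : ℝ) := by
    rw [hw, ← Real.rpow_natCast, ← Real.rpow_mul hx0.le]
    norm_num
  have hw3 : w ^ 2 ≤ x ^ (th / 9) := by
    rw [hw2]
    exact Real.rpow_le_rpow_of_exponent_le hx (by linarith)
  have hM0 : 0 < M := lt_of_lt_of_le (Real.rpow_pos_of_pos hx0 _) hM
  have hN0 : 0 < N := lt_of_lt_of_le (Real.rpow_pos_of_pos hx0 _) hN
  have hr2 : r ^ 2 ≤ L ^ (2 * B) := by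
    rw [mul_comm 2 B, pow_mul]
    exact pow_le_pow_left₀ hr0 hr 2
  -- the first term
  have h1 : r ^ 2 * (W * (M * N / s * (1 + lq))) ≤ x / L ^ A / 4 := by
    have g1 : W / s ≤ 1 / L ^ (A + 2 * B + 4) := by
      rw [div_le_div_iff₀ hs0 (by positivity), one_mul, hs]
      exact hWd
    have g2 : r ^ 2 * (W * (M * N / s * (1 + lq))) = r ^ 2 * (W / s) * (M * N) * (1 + lq) := by
      ring
    have g3 : r ^ 2 * (W / s) * (M * N) * (1 + lq) ≤
        L ^ (2 * B) * (1 / L ^ (A + 2 * B + 4)) * (2 * x) * (2 * L) := by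
      gcongr
    have g4 : L ^ (2 * B) * (1 / L ^ (A + 2 * B + 4)) * (2 * x) * (2 * L) =
        x / L ^ A * (4 / L ^ 3) := by
      rw [show A + 2 * B + 4 = 2 * B + (A + (3 + 1)) by ring, pow_add, pow_add, pow_add, pow_one]
      field_simp
      ring
    have g5 : 4 / L ^ 3 ≤ 1 / 4 := by
      rw [div_le_div_iff₀ (by positivity) (by norm_num)]
      have : (4 : ℝ) ^ 3 ≤ L ^ 3 := pow_le_pow_left₀ (by norm_num) hL 3
      linarith
    rw [g2]
    refine g3.trans ?_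
    rw [g4]
    have g6 : 0 ≤ x / L ^ A := by positivity
    nlinarith
  -- the roots
  have h2 : Real.sqrt (M * N * (M + N)) ≤ 3 * x / w := by
    refine Real.sqrt_le_iff.mpr ⟨by positivity, ?_⟩
    have g1 : M * w ^ 2 ≤ 2 * x := by
      calc M * w ^ 2 ≤ M * N := mul_le_mul_of_nonneg_left (hw3.trans hN) hM0.le
        _ ≤ _ := hMN
    have g2 : N * w ^ 2 ≤ 2 * x := by
      calc N * w ^ 2 ≤ N * M := mul_le_mul_of_nonneg_left (hw3.trans hM) hN0.le
        _ = M * N := mul_comm _ _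
        _ ≤ _ := hMN
    rw [div_pow, le_div_iff₀ (by positivity)]
    calc M * N * (M + N) * w ^ 2 = (M * N) * (M * w ^ 2 + N * w ^ 2) := by ring
      _ ≤ (2 * x) * (2 * x + 2 * x) := by gcongr
      _ ≤ (3 * x) ^ 2 := by nlinarith [sq_nonneg x]
  have h3 : Real.sqrt (d * M * N) ≤ 2 * x / w := by
    refine Real.sqrt_le_iff.mpr ⟨by positivity, ?_⟩
    have g1 : d * w ^ 2 ≤ x := by
      calc d * w ^ 2 ≤ x ^ (1 - th + e) * x ^ (1 / 72 : ℝ) := by
            rw [hw2]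
            exact mul_le_mul_of_nonneg_right hd (Real.rpow_nonneg hx0.le _)
        _ = x ^ (1 - th + e + 1 / 72) := (Real.rpow_add hx0 _ _).symm
        _ ≤ x ^ (1 : ℝ) := Real.rpow_le_rpow_of_exponent_le hx (by linarith)
        _ = x := Real.rpow_one x
    rw [div_pow, le_div_iff₀ (by positivity)]
    calc d * M * N * w ^ 2 = (M * N) * (d * w ^ 2) := by ring
      _ ≤ (2 * x) * x := by gcongr
      _ ≤ (2 * x) ^ 2 := by nlinarith [sq_nonneg x]
  have h4 : r ^ 2 * (W * (tau * (Real.sqrt (M * N * (M + N)) + Real.sqrt (d * M * N)))) ≤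
      x / L ^ A / 4 := by
    have g1 : r ^ 2 * (W * (tau * (Real.sqrt (M * N * (M + N)) + Real.sqrt (d * M * N)))) ≤
        L ^ (2 * B) * (L ^ (K + 3 * C) * ((Cd * x ^ (1 / 200 : ℝ)) * (3 * x / w + 2 * x / w))) := by
      gcongr
    have g2 : 20 * Cd * L ^ (A + 2 * B + K + 3 * C) * x ^ (1 / 200 : ℝ) ≤ w := by
      calc 20 * Cd * L ^ (A + 2 * B + K + 3 * C) * x ^ (1 / 200 : ℝ) ≤
            x ^ (7 / 3600 : ℝ) * x ^ (1 / 200 : ℝ) :=
            mul_le_mul_of_nonneg_right hX (Real.rpow_nonneg hx0.le _)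
        _ = x ^ (7 / 3600 + 1 / 200 : ℝ) := (Real.rpow_add hx0 _ _).symm
        _ = w := by
            rw [hw]
            norm_num
    refine g1.trans ?_
    have g3 : L ^ (2 * B) * (L ^ (K + 3 * C) * ((Cd * x ^ (1 / 200 : ℝ)) *
        (3 * x / w + 2 * x / w))) =
        (20 * Cd * L ^ (A + 2 * B + K + 3 * C) * x ^ (1 / 200 : ℝ)) * (x / (4 * L ^ A * w)) := by
      rw [show A + 2 * B + K + 3 * C = A + (2 * B + (K + 3 * C)) by ring, pow_add L A,
        pow_add L (2 * B) (K + 3 * C)]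
      field_simp
      ring
    rw [g3]
    calc (20 * Cd * L ^ (A + 2 * B + K + 3 * C) * x ^ (1 / 200 : ℝ)) * (x / (4 * L ^ A * w)) ≤
          w * (x / (4 * L ^ A * w)) := mul_le_mul_of_nonneg_right g2 (by positivity)
      _ = x / L ^ A / 4 := by
          field_simp
  have h5 : r ^ 2 * (W * (M * N / s * (1 + lq) +
      tau * (Real.sqrt (M * N * (M + N)) + Real.sqrt (d * M * N)))) =
      r ^ 2 * (W * (M * N / s * (1 + lq))) +
      r ^ 2 * (W * (tau * (Real.sqrt (M * N * (M + N)) + Real.sqrt (d * M * N)))) := by ring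
  rw [← hs, h5]
  have g6 : 0 ≤ x / L ^ A := by positivity
  linarith

theorem pt_II (A B K C : ℕ) : ∃ D0 : ℕ, ∀ D1 : ℕ, D0 ≤ D1 → ∀ th e τ : ℝ, AdE th e τ →
    ∃ X0 : ℕ, ∀ X : ℕ, X0 ≤ X →
    ∀ (q : ℕ) [NeZero q] (r : ℕ) (y : ℤ) (a : ZMod q) (χ : DirichletCharacter ℂ q),
    PC th e X B K D1 q r y a χ → ∀ M N : ℕ, (X : ℝ) ^ (th / 9) ≤ M → (X : ℝ) ^ (th / 9) ≤ N →
    M * N ≤ 2 * X → ∀ α β : ℕ → ℂ, (∀ m, ‖α m‖ ≤ Real.log X ^ C) →
    ∑ k ∈ Icc 1 N, ‖β k‖ ^ 2 ≤ N * Real.log X ^ C →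
    ‖∑ m ∈ Ioc M (2 * M), ∑ k ∈ Icc 1 N, α m * β k * FP q a χ r y (m * k)‖ ≤
      X / Real.log X ^ A := by
  refine ⟨2 * A + K + 3 * C + 4 * B + 8, fun D1 hD1 th e τ had => ?_⟩
  obtain ⟨had1, had2, had3, had4, had5⟩ := had
  obtain ⟨Cd, hCd1, hCd⟩ := Pool.Agent.Lib.MP_dd84fd_nt.DivBound.div_bound 200
  obtain ⟨X1, hX1⟩ := PT2_log_pow (20 * Cd) (A + 2 * B + K + 3 * C)
    (show (0 : ℝ) < 7 / 3600 by norm_num)
  refine ⟨max X1 (max 1 ⌈Real.exp 4⌉₊), fun X hX q _ r y a χ hPC M N hM hN hMN α β hα hβ => ?_⟩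
  obtain ⟨hqr, hr1, hr2, hrq, hyr, hga, hbig⟩ := hPC
  have hXX1 : X1 ≤ X := (le_max_left _ _).trans hX
  have hX1' : 1 ≤ X := (le_max_left _ _).trans ((le_max_right _ _).trans hX)
  have hXe : ⌈Real.exp 4⌉₊ ≤ X := (le_max_right _ _).trans ((le_max_right _ _).trans hX)
  have hx1 : (1 : ℝ) ≤ X := by exact_mod_cast hX1'
  have hx0 : (0 : ℝ) < X := by linarith
  have hL : 4 ≤ Real.log X := by
    rw [Real.le_log_iff_exp_le hx0]
    exact (Nat.le_ceil _).trans (by exact_mod_cast hXe)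
  have hL1 : 1 ≤ Real.log X := by linarith
  have hL0 : 0 ≤ Real.log X := by linarith
  have hdq : χ.conductor ∣ q := χ.conductor_dvd_level
  have hq : q ≠ 0 := NeZero.ne q
  have hq0 : 0 < q := Nat.pos_of_ne_zero hq
  have hd0 : 0 < χ.conductor := Nat.pos_of_ne_zero fun h => hq (Nat.eq_zero_of_zero_dvd (h ▸ hdq))
  have hd : (0 : ℝ) < χ.conductor := by exact_mod_cast hd0
  have hdD : Real.log X ^ D1 < χ.conductor := by
    by_contra h
    push Not at h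
    exact hbig _ hdq h χ.factorsThrough_conductor
  have hdqr : (χ.conductor : ℝ) ≤ (X : ℝ) ^ (1 - th + e) :=
    (by exact_mod_cast Nat.le_of_dvd hq0 hdq : (χ.conductor : ℝ) ≤ q).trans hqr
  have he : e ≤ 1 / 10000 := by linarith
  have hqX : (q : ℝ) ≤ X := by
    calc (q : ℝ) ≤ (X : ℝ) ^ (1 - th + e) := hqr
      _ ≤ (X : ℝ) ^ (1 : ℝ) := Real.rpow_le_rpow_of_exponent_le hx1 (by linarith)
      _ = X := Real.rpow_one _
  have hP : (0 : ℝ) ≤ Real.log X ^ (2 * C) := by positivity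
  have hQ : (0 : ℝ) ≤ Real.log X ^ C := by positivity
  have hα2 : ∑ m ∈ Ioc M (M + M), ‖α m‖ ^ 2 ≤ M * Real.log X ^ (2 * C) := by
    calc ∑ m ∈ Ioc M (M + M), ‖α m‖ ^ 2 ≤ ∑ m ∈ Ioc M (M + M), Real.log X ^ (2 * C) := by
          refine Finset.sum_le_sum fun m _ => ?_
          rw [mul_comm 2 C, pow_mul]
          exact pow_le_pow_left₀ (norm_nonneg _) (hα m) 2
      _ = M * Real.log X ^ (2 * C) := by
          rw [Finset.sum_const, nsmul_eq_mul, Nat.card_Ioc, Nat.add_sub_cancel]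
  have hI : Ioc 0 (0 + N) = Icc 1 N := by
    ext n
    rw [Finset.mem_Ioc, Finset.mem_Icc]
    omega
  have hβ2 : ∑ k ∈ Ioc 0 (0 + N), ‖β k‖ ^ 2 ≤ N * Real.log X ^ C := by
    rw [hI]
    exact hβ
  have hmain := PT2_all q χ a r hr1 y M N α β _ _ hP hQ hα2 hβ2
  rw [hI, ← two_mul] at hmain
  refine hmain.trans ?_
  obtain ⟨W, hW⟩ : ∃ W, W = Real.sqrt ((Nat.gcd a.val q : ℝ) * Real.log X ^ (2 * C) *
    Real.log X ^ C) := ⟨_, rfl⟩
  rw [← hW]
  have hZ : (Nat.gcd a.val q : ℝ) * Real.log X ^ (2 * C) * Real.log X ^ C ≤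
      Real.log X ^ (K + 3 * C) := by
    calc (Nat.gcd a.val q : ℝ) * Real.log X ^ (2 * C) * Real.log X ^ C ≤
        Real.log X ^ K * Real.log X ^ (2 * C) * Real.log X ^ C := by gcongr
      _ = Real.log X ^ (K + 3 * C) := by
          rw [← pow_add, ← pow_add]
          congr 1
          ring
  have hW0 : 0 ≤ W := by rw [hW]; exact Real.sqrt_nonneg _
  have hW1 : W ≤ Real.log X ^ (K + 3 * C) := by
    rw [hW]
    have h1 : (1 : ℝ) ≤ Real.log X ^ (K + 3 * C) := one_le_pow₀ hL1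
    refine Real.sqrt_le_iff.mpr ⟨by positivity, hZ.trans ?_⟩
    nlinarith
  have hWd : W * Real.log X ^ (A + 2 * B + 4) ≤ Real.sqrt χ.conductor := by
    refine Real.le_sqrt_of_sq_le ?_
    rw [mul_pow, hW, Real.sq_sqrt (by positivity)]
    calc (Nat.gcd a.val q : ℝ) * Real.log X ^ (2 * C) * Real.log X ^ C *
          (Real.log X ^ (A + 2 * B + 4)) ^ 2 ≤
          Real.log X ^ (K + 3 * C) * (Real.log X ^ (A + 2 * B + 4)) ^ 2 :=
          mul_le_mul_of_nonneg_right hZ (by positivity)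
      _ = Real.log X ^ (2 * A + K + 3 * C + 4 * B + 8) := by
          rw [← pow_mul, ← pow_add]
          congr 1
          ring
      _ ≤ Real.log X ^ D1 := pow_le_pow_right₀ hL1 hD1
      _ ≤ χ.conductor := hdD.le
  have hlq1 : Real.log q ≤ Real.log X := Real.log_le_log (by exact_mod_cast hq0) hqX
  have hlq0 : 0 ≤ Real.log q := Real.log_nonneg (by exact_mod_cast hq0)
  have htau := PT2_tau Cd 200 hCd1 (by norm_num) hCd q hq X hqX
  have h200 : (1 / ((200 : ℕ) : ℝ)) = (1 / 200 : ℝ) := by norm_num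
  rw [h200] at htau
  exact PT2_num A B K C th e X (Real.log X) M N χ.conductor W (Real.log q)
    (q.divisors.card : ℝ) r Cd had1 had2 he hx1 hL (Nat.cast_nonneg _) hr2 hW0 hW1 hWd hd hdqr
    (by exact_mod_cast hMN) hM hN (by linarith) (by linarith) (Nat.cast_nonneg _) htau
    (Nat.cast_nonneg _) (hX1 X hXX1)

end Pool.MP_dd84fd_nt.EM
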