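import Pool.Agent.Lib.MP_dd84fd_nt.EM.PT1
import Pool.Agent.Lib.MP_dd84fd_nt.EM.PT2
import Pool.Agent.Lib.BV.Vaughan
import Pool.Agent.Lib.BV.Sep
import Pool.Agent.Lib.BV.DivMom

/-!
# EM-PF1 (1.3 h): `Σ_{n ≤ t} Λ(n) FP(n)` by Vaughan's identity

If `t ≤ X/L^(A+2)`: trivial (`Λ(n) ≤ log n`, `|FP| ≤ 1`).  Otherwise `Pool.BV.vaughan` with `U = ⌊X^(th/8)⌋`, `X := t`, `F = FP q a χ r y`:
(0) `n ≤ U`: `≤ U L`.
(1) type I: `Σ_{l ≤ U²} |c1 U l| |Σ_{k ≤ t/l} FP(l k)|`, `c1_bound`: `|c1| ≤ log l ≤ L`; `pt_I (A + 4)`: `U² ≤ X^(th/4)`: `≤ L Σ_{l ≤ U²} X/(l L^(A+4)) ≤ X L (1 + L)/L^(A+4)`.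
(2) `Σ_{d ≤ U} Σ_{k ≤ t/d} log k FP(d k)`: partial summation in `k`: `≤ 2 L max_{s ≤ t/d} |Σ_{k ≤ s} FP(d k)|`, again `pt_I (A + 4)`.
(3) type II: `m ∈ (U, t]`, `k ∈ (U, t/m]`, coefficients `Λ(m)`, `c2 U k`, `|c2 U k| ≤ τ(k)`.  Dyadic `m ∈ (M, 2M]`, `M = 2^i U`, `N = ⌊t/M⌋` (if `N ≤ U` there are no terms): at most `2 L` values of `M`.
`k ≤ t/m` is separated by `Pool.BV.sep N`: `[k ≤ t/m] = Σ_{h < N} D (t/m) h E h k`, `‖D (t/m) h‖ ≤ F h`, `Σ F h ≤ 2 + log N`, `‖E‖ ≤ 1`; so the block is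
`Σ_h F h · |Σ_{m ∈ (M,2M]} Σ_{k ≤ N} α_h(m) β_h(k) FP(m k)|`, `α_h(m) = Λ(m) D (t/m) h/F h [m ≤ t]` (`‖.‖ ≤ L`; `0` if `F h = 0`), `β_h(k) = c2 U k E h k [k > U]`, `Σ_{k ≤ N} τ(k)² ≤ N L^C` (div_mom).
`pt_II (A + 4) B K C` with `C` from `Σ τ²` (`M ≥ U ≥ X^(th/9)`, `N ≥ U`, `M N ≤ t ≤ X`).
-/

set_option autoImplicit false

namespace Pool.MP_dd84fd_nt.EM

open Finset Pool.MP_67663b_nt.Odd Pool.MP_dd84fd_nt.En Pool.MP_dd84fd_nt.E2
open Pool.MP_dd84fd_nt.HX Pool.MP_dd84fd_nt.IX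
open Pool.MP_dd84fd_nt.JX (ZJ DecJ Str wP gP)
open Pool.MP_dd84fd_nt.L2G (fz VA VQ MajQ MinorHyp Tc Jc cv av gr Se)
open Pool.MP_dd84fd_nt.T7 (Fz2)

private theorem fp_norm (q : ℕ) [NeZero q] (a : ZMod q) (χ : DirichletCharacter ℂ q) (r : ℕ)
    (y : ℤ) (n : ℕ) : ‖FP q a χ r y n‖ ≤ 1 := by
  unfold FP
  split_ifs
  · rw [norm_mul, norm_ee, mul_one]
    exact DirichletCharacter.norm_le_one χ _
  · simp

private theorem pf_abel (a : ℕ → ℂ) (B : ℝ) (m : ℕ)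
    (h : ∀ l ≤ m, ‖∑ k ∈ Icc 1 l, a k‖ ≤ B) :
    ‖∑ k ∈ Icc 1 m, ((Real.log k : ℝ) : ℂ) * a k‖ ≤ 2 * Real.log m * B := by
  have key : ∀ l ≤ m, ‖∑ k ∈ Icc 1 l, ((Real.log k : ℝ) : ℂ) * a k -
      ((Real.log l : ℝ) : ℂ) * ∑ k ∈ Icc 1 l, a k‖ ≤ Real.log l * B := by
    intro l
    induction l with
    | zero => intro _; simp
    | succ l ih =>
      intro hl
      have h1 := ih (by omega)
      have hlog : Real.log (l : ℝ) ≤ Real.log ((l + 1 : ℕ) : ℝ) := by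
        rcases Nat.eq_zero_or_pos l with rfl | hp
        · simp
        · exact Real.log_le_log (by exact_mod_cast hp) (by push_cast; linarith)
      have h2 := h l (by omega)
      have e1 : ∑ k ∈ Icc 1 (l + 1), ((Real.log k : ℝ) : ℂ) * a k -
          ((Real.log ((l + 1 : ℕ) : ℝ) : ℝ) : ℂ) * ∑ k ∈ Icc 1 (l + 1), a k =
          (∑ k ∈ Icc 1 l, ((Real.log k : ℝ) : ℂ) * a k -
            ((Real.log l : ℝ) : ℂ) * ∑ k ∈ Icc 1 l, a k) -
          ((Real.log ((l + 1 : ℕ) : ℝ) - Real.log l : ℝ) : ℂ) * ∑ k ∈ Icc 1 l, a k := by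
        rw [Finset.sum_Icc_succ_top (by omega), Finset.sum_Icc_succ_top (by omega)]
        push_cast
        ring
      rw [e1]
      refine (norm_sub_le _ _).trans ?_
      rw [norm_mul, Complex.norm_real, Real.norm_eq_abs, abs_of_nonneg (by linarith)]
      have h3 : (Real.log ((l + 1 : ℕ) : ℝ) - Real.log l) * ‖∑ k ∈ Icc 1 l, a k‖ ≤
          (Real.log ((l + 1 : ℕ) : ℝ) - Real.log l) * B :=
        mul_le_mul_of_nonneg_left h2 (by linarith)
      linarith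
  have h1 := key m le_rfl
  have h2 := h m le_rfl
  have h3 : 0 ≤ Real.log (m : ℝ) := Real.log_natCast_nonneg m
  have e : ∑ k ∈ Icc 1 m, ((Real.log k : ℝ) : ℂ) * a k =
      (∑ k ∈ Icc 1 m, ((Real.log k : ℝ) : ℂ) * a k -
        ((Real.log m : ℝ) : ℂ) * ∑ k ∈ Icc 1 m, a k) +
      ((Real.log m : ℝ) : ℂ) * ∑ k ∈ Icc 1 m, a k := by ring
  rw [e]
  refine (norm_add_le _ _).trans ?_
  rw [norm_mul, Complex.norm_real, Real.norm_eq_abs, abs_of_nonneg h3]
  have h4 : Real.log (m : ℝ) * ‖∑ k ∈ Icc 1 m, a k‖ ≤ Real.log (m : ℝ) * B :=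
    mul_le_mul_of_nonneg_left h2 h3
  linarith

private theorem pf_sum_inv (N : ℕ) : ∑ l ∈ Icc 1 N, (1 : ℝ) / l ≤ 1 + Real.log N := by
  have h := harmonic_le_one_add_log N
  have e : ((harmonic N : ℚ) : ℝ) = ∑ l ∈ Icc 1 N, (1 : ℝ) / l := by
    rw [harmonic_eq_sum_Icc]
    push_cast
    exact sum_congr rfl fun l _ => (one_div _).symm
  rw [e] at h
  exact h

/-- the first term -/
private theorem pf_first (X U t : ℕ) (F : ℕ → ℂ) (hX : 3 ≤ X) (hF : ∀ n, ‖F n‖ ≤ 1)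
    (ht : t ≤ X) :
    ‖∑ n ∈ Icc 1 (min U t), (ArithmeticFunction.vonMangoldt n : ℂ) * F n‖ ≤
      U * Real.log X := by
  have hL : 0 ≤ Real.log X := Real.log_nonneg (by exact_mod_cast (by omega : 1 ≤ X))
  calc ‖∑ n ∈ Icc 1 (min U t), (ArithmeticFunction.vonMangoldt n : ℂ) * F n‖
      ≤ ∑ n ∈ Icc 1 (min U t), ‖(ArithmeticFunction.vonMangoldt n : ℂ) * F n‖ := norm_sum_le _ _
    _ ≤ ∑ _n ∈ Icc 1 (min U t), Real.log X := by
        refine sum_le_sum fun n hn => ?_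
        rw [mem_Icc] at hn
        have h1 : n ≤ X := (hn.2.trans (min_le_right _ _)).trans ht
        rw [norm_mul, Complex.norm_real,
          Real.norm_of_nonneg ArithmeticFunction.vonMangoldt_nonneg]
        have h2 : (ArithmeticFunction.vonMangoldt n : ℝ) ≤ Real.log X := by
          refine ArithmeticFunction.vonMangoldt_le_log.trans (Real.log_le_log ?_ ?_)
          · exact_mod_cast hn.1
          · exact_mod_cast h1
        calc (ArithmeticFunction.vonMangoldt n : ℝ) * ‖F n‖ ≤ Real.log X * 1 :=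
              mul_le_mul h2 (hF n) (norm_nonneg _) hL
          _ = Real.log X := mul_one _
    _ = ((min U t : ℕ) : ℝ) * Real.log X := by
        rw [sum_const, Nat.card_Icc, Nat.add_sub_cancel, nsmul_eq_mul]
    _ ≤ U * Real.log X := by
        apply mul_le_mul_of_nonneg_right _ hL
        exact_mod_cast min_le_left _ _

/-- the two sums of type I -/
private theorem pf_typeI (X U t : ℕ) (F : ℕ → ℂ) (P : ℝ) (hX : 3 ≤ X) (hU : 1 ≤ U)
    (hUX : U ^ 2 ≤ X) (ht : t ≤ X)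
    (hP : 0 ≤ P) (h : ∀ l s : ℕ, 1 ≤ l → l ≤ U ^ 2 → s * l ≤ X →
      ‖∑ k ∈ Icc 1 s, F (l * k)‖ ≤ P / l) :
    ‖∑ l ∈ Icc 1 (U ^ 2), ∑ k ∈ Icc 1 (t / l), (Pool.BV.c1 U l : ℂ) * F (l * k)‖ ≤
      Real.log X * (1 + Real.log X) * P ∧
    ‖∑ d ∈ Icc 1 U, ∑ k ∈ Icc 1 (t / d),
      (((ArithmeticFunction.moebius d : ℤ) : ℂ)) * ((Real.log k : ℝ) : ℂ) * F (d * k)‖ ≤
      2 * Real.log X * (1 + Real.log X) * P := by
  have hL : 0 ≤ Real.log X := Real.log_nonneg (by exact_mod_cast (by omega : 1 ≤ X))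
  have hUU : U ≤ U ^ 2 := by nlinarith
  have hlog : ∀ n : ℕ, n ≤ X → Real.log n ≤ Real.log X := by
    intro n hn
    rcases Nat.eq_zero_or_pos n with rfl | h0
    · simpa using hL
    · exact Real.log_le_log (by exact_mod_cast h0) (by exact_mod_cast hn)
  have hsum : ∀ N : ℕ, N ≤ X → ∑ l ∈ Icc 1 N, P / l ≤ (1 + Real.log X) * P := by
    intro N hN
    have h1 := pf_sum_inv N
    have h2 : ∑ l ∈ Icc 1 N, P / l = P * ∑ l ∈ Icc 1 N, (1 : ℝ) / l := by
      rw [mul_sum]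
      exact sum_congr rfl fun l _ => by ring
    rw [h2, mul_comm (1 + Real.log (X : ℝ)) P]
    exact mul_le_mul_of_nonneg_left (h1.trans (by linarith [hlog N hN])) hP
  constructor
  · refine (norm_sum_le _ _).trans ?_
    have h1 : ∀ l ∈ Icc 1 (U ^ 2), ‖∑ k ∈ Icc 1 (t / l), (Pool.BV.c1 U l : ℂ) * F (l * k)‖ ≤
        Real.log X * (P / l) := by
      intro l hl
      rw [mem_Icc] at hl
      rw [← mul_sum, norm_mul, Complex.norm_real, Real.norm_eq_abs]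
      refine mul_le_mul ((Pool.BV.c1_bound U l).trans (hlog l (hl.2.trans hUX)))
        (h l (t / l) hl.1 hl.2 ((Nat.div_mul_le_self t l).trans ht)) (norm_nonneg _) hL
    refine (sum_le_sum h1).trans ?_
    rw [← mul_sum, mul_assoc]
    exact mul_le_mul_of_nonneg_left (hsum _ hUX) hL
  · refine (norm_sum_le _ _).trans ?_
    have h1 : ∀ d ∈ Icc 1 U, ‖∑ k ∈ Icc 1 (t / d),
        (((ArithmeticFunction.moebius d : ℤ) : ℂ)) * ((Real.log k : ℝ) : ℂ) * F (d * k)‖ ≤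
        2 * Real.log X * (P / d) := by
      intro d hd
      rw [mem_Icc] at hd
      have hmu : ‖((ArithmeticFunction.moebius d : ℤ) : ℂ)‖ ≤ 1 := by
        have h5 : |ArithmeticFunction.moebius d| ≤ 1 := ArithmeticFunction.abs_moebius_le_one
        rw [Complex.norm_intCast]
        exact_mod_cast h5
      have e : ∑ k ∈ Icc 1 (t / d),
          (((ArithmeticFunction.moebius d : ℤ) : ℂ)) * ((Real.log k : ℝ) : ℂ) * F (d * k) =
          ((ArithmeticFunction.moebius d : ℤ) : ℂ) *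
            ∑ k ∈ Icc 1 (t / d), ((Real.log k : ℝ) : ℂ) * F (d * k) := by
        rw [mul_sum]
        exact sum_congr rfl fun k _ => mul_assoc _ _ _
      rw [e, norm_mul]
      have h2 := pf_abel (fun k => F (d * k)) (P / d) (t / d) (fun s hs => by
        refine h d s hd.1 (hd.2.trans hUU) ?_
        exact (Nat.mul_le_mul_right d hs).trans ((Nat.div_mul_le_self t d).trans ht))
      have h3 : 2 * Real.log ((t / d : ℕ) : ℝ) * (P / d) ≤ 2 * Real.log X * (P / d) := by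
        have h4 := hlog (t / d) ((Nat.div_le_self t d).trans ht)
        have h5 : 0 ≤ P / (d : ℝ) := by positivity
        exact mul_le_mul_of_nonneg_right (by linarith) h5
      calc ‖((ArithmeticFunction.moebius d : ℤ) : ℂ)‖ *
            ‖∑ k ∈ Icc 1 (t / d), ((Real.log k : ℝ) : ℂ) * F (d * k)‖
          ≤ 1 * (2 * Real.log X * (P / d)) :=
            mul_le_mul hmu (h2.trans h3) (norm_nonneg _) zero_le_one
        _ = _ := one_mul _
    refine (sum_le_sum h1).trans ?_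
    rw [← mul_sum, mul_assoc (2 * Real.log (X : ℝ))]
    exact mul_le_mul_of_nonneg_left (hsum _ (hUU.trans hUX)) (by positivity)

private theorem sum_dyadic (N : ℕ) (f : ℕ → ℂ) :
    ∑ i ∈ range N, ∑ m ∈ Ioc (2 ^ i) (2 ^ (i + 1)), f m = ∑ m ∈ Ioc 1 (2 ^ N), f m := by
  induction N with
  | zero => simp
  | succ n ih =>
    rw [sum_range_succ, ih]
    exact sum_Ioc_consecutive f Nat.one_le_two_pow (Nat.pow_le_pow_right (by norm_num) (Nat.le_succ n))

/-- one dyadic block -/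
private theorem pf_block (X U t C C2 M : ℕ) (F : ℕ → ℂ) (P : ℝ) (hX : 8 ≤ X) (hM : 1 ≤ M)
    (ht : t ≤ X) (hC : 2 * C2 + 1 ≤ C) (hP : 0 ≤ P)
    (hdm : ∀ N : ℕ, 1 ≤ N → ∑ n ∈ Icc 1 N, (n.divisors.card : ℝ) ^ 2 ≤
      N * (1 + Real.log N) ^ C2)
    (h : ∀ N : ℕ, U < N → M * N ≤ X → ∀ α β : ℕ → ℂ, (∀ m, ‖α m‖ ≤ Real.log X ^ C) →
      ∑ k ∈ Icc 1 N, ‖β k‖ ^ 2 ≤ N * Real.log X ^ C →
      ‖∑ m ∈ Ioc M (2 * M), ∑ k ∈ Icc 1 N, α m * β k * F (m * k)‖ ≤ P) :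
    ‖∑ m ∈ (Ioc M (2 * M)).filter (fun m => U < m ∧ m ≤ t), ∑ k ∈ Ioc U (t / m),
      (ArithmeticFunction.vonMangoldt m : ℂ) * (Pool.BV.c2 U k : ℂ) * F (m * k)‖ ≤
      (2 + Real.log X) * P := by
  have hL2 : 2 ≤ Real.log X := by
    have h1 : Real.log 8 ≤ Real.log X := Real.log_le_log (by norm_num) (by exact_mod_cast hX)
    have h2 : Real.log 8 = 3 * Real.log 2 := by
      rw [show (8 : ℝ) = 2 ^ 3 by norm_num, Real.log_pow]
      norm_num
    have h3 := Real.log_two_gt_d9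
    linarith
  have hL1 : 1 ≤ Real.log X := by linarith
  have hL0 : 0 < Real.log X := by linarith
  set N := t / M with hN
  by_cases hNU : U < N
  swap
  · rw [sum_eq_zero, norm_zero]
    · positivity
    · intro m hm
      rw [mem_filter, mem_Ioc] at hm
      rw [Ioc_eq_empty, sum_empty]
      have h1 : t / m ≤ t / M := Nat.div_le_div_left hm.1.1.le hM
      omega
  have hN1 : 1 ≤ N := by omega
  have hMN : M * N ≤ X := (Nat.mul_div_le t M).trans ht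
  have hNX : N ≤ X := (Nat.div_le_self t M).trans ht
  obtain ⟨Fh, D, E, hF0, hFs, hD, hE, hDE⟩ := Pool.BV.sep N hN1
  have hlogN : Real.log N ≤ Real.log X :=
    Real.log_le_log (by exact_mod_cast hN1) (by exact_mod_cast hNX)
  -- coefficients
  set al : ℕ → ℕ → ℂ := fun h m => if M < m ∧ U < m ∧ m ≤ t then
    (ArithmeticFunction.vonMangoldt m : ℂ) * (D (t / m) h / (Fh h : ℂ)) else 0 with hal
  set be : ℕ → ℕ → ℂ := fun h k => if U < k then (Pool.BV.c2 U k : ℂ) * E h k else 0 with hbe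
  have hal1 : ∀ h ∈ range N, ∀ m, ‖al h m‖ ≤ Real.log X ^ C := by
    intro h hh m
    simp only [hal]
    split_ifs with h1
    · have h2 : t / m ≤ N := Nat.div_le_div_left h1.1.le hM
      have h3 := hD (t / m) h2 h hh
      have h4 : ‖D (t / m) h / (Fh h : ℂ)‖ ≤ 1 := by
        rw [norm_div, Complex.norm_real, Real.norm_of_nonneg (hF0 h)]
        exact div_le_one_of_le₀ h3 (hF0 h)
      rw [norm_mul, Complex.norm_real,
        Real.norm_of_nonneg ArithmeticFunction.vonMangoldt_nonneg]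
      have h5 : (ArithmeticFunction.vonMangoldt m : ℝ) ≤ Real.log X := by
        refine ArithmeticFunction.vonMangoldt_le_log.trans (Real.log_le_log ?_ ?_)
        · exact_mod_cast (by omega : 0 < m)
        · exact_mod_cast h1.2.2.trans ht
      calc (ArithmeticFunction.vonMangoldt m : ℝ) * ‖D (t / m) h / (Fh h : ℂ)‖
          ≤ Real.log X * 1 := mul_le_mul h5 h4 (norm_nonneg _) hL0.le
        _ = Real.log X ^ 1 := by ring
        _ ≤ Real.log X ^ C := pow_le_pow_right₀ hL1 (by omega)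
    · rw [norm_zero]
      positivity
  have hbe1 : ∀ h, ∑ k ∈ Icc 1 N, ‖be h k‖ ^ 2 ≤ N * Real.log X ^ C := by
    intro h
    have h1 : ∑ k ∈ Icc 1 N, ‖be h k‖ ^ 2 ≤ ∑ k ∈ Icc 1 N, (k.divisors.card : ℝ) ^ 2 := by
      refine sum_le_sum fun k _ => ?_
      refine pow_le_pow_left₀ (norm_nonneg _) ?_ 2
      simp only [hbe]
      split_ifs with h2
      · rw [norm_mul, Complex.norm_real, Real.norm_eq_abs]
        calc |Pool.BV.c2 U k| * ‖E h k‖ ≤ (k.divisors.card : ℝ) * 1 :=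
              mul_le_mul (Pool.BV.c2_bound U k) (hE h k) (norm_nonneg _) (Nat.cast_nonneg _)
          _ = _ := mul_one _
      · rw [norm_zero]
        exact Nat.cast_nonneg _
    refine h1.trans ((hdm N hN1).trans ?_)
    refine mul_le_mul_of_nonneg_left ?_ (Nat.cast_nonneg _)
    have h3 : 0 ≤ Real.log (N : ℝ) := Real.log_natCast_nonneg N
    calc (1 + Real.log (N : ℝ)) ^ C2 ≤ (Real.log X ^ 2) ^ C2 := by
          refine pow_le_pow_left₀ (by linarith) ?_ C2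
          nlinarith
      _ = Real.log X ^ (2 * C2) := by rw [← pow_mul]
      _ ≤ Real.log X ^ C := pow_le_pow_right₀ hL1 (by omega)
  -- the identity
  have hid : ∑ m ∈ (Ioc M (2 * M)).filter (fun m => U < m ∧ m ≤ t), ∑ k ∈ Ioc U (t / m),
      (ArithmeticFunction.vonMangoldt m : ℂ) * (Pool.BV.c2 U k : ℂ) * F (m * k) =
      ∑ h ∈ range N, (Fh h : ℂ) *
        ∑ m ∈ Ioc M (2 * M), ∑ k ∈ Icc 1 N, al h m * be h k * F (m * k) := by
    have h1 : ∑ h ∈ range N, (Fh h : ℂ) *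
        ∑ m ∈ Ioc M (2 * M), ∑ k ∈ Icc 1 N, al h m * be h k * F (m * k) =
        ∑ m ∈ Ioc M (2 * M), ∑ k ∈ Icc 1 N, ∑ h ∈ range N,
          (Fh h : ℂ) * (al h m * be h k * F (m * k)) := by
      simp_rw [mul_sum]
      rw [sum_comm]
      refine sum_congr rfl fun m _ => ?_
      rw [sum_comm]
    rw [h1, sum_filter]
    refine sum_congr rfl fun m hm => ?_
    rw [mem_Ioc] at hm
    by_cases h2 : U < m ∧ m ≤ t
    · rw [if_pos h2]
      have hm0 : 0 < m := by omega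
      have h3 : t / m ≤ N := Nat.div_le_div_left hm.1.le hM
      have h4 : ∀ k ∈ Icc 1 N, ∑ h ∈ range N, (Fh h : ℂ) * (al h m * be h k * F (m * k)) =
          if U < k ∧ k ≤ t / m then
            (ArithmeticFunction.vonMangoldt m : ℂ) * (Pool.BV.c2 U k : ℂ) * F (m * k) else 0 := by
        intro k hk
        by_cases h5 : U < k
        · have h6 : ∀ h ∈ range N, (Fh h : ℂ) * (al h m * be h k * F (m * k)) =
              ((ArithmeticFunction.vonMangoldt m : ℂ) * (Pool.BV.c2 U k : ℂ) * F (m * k)) *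
                (D (t / m) h * E h k) := by
            intro h hh
            simp only [hal, hbe]
            rw [if_pos ⟨hm.1, h2.1, h2.2⟩, if_pos h5]
            by_cases h7 : Fh h = 0
            · have h8 := hD (t / m) h3 h hh
              rw [h7] at h8
              have h9 : D (t / m) h = 0 := norm_le_zero_iff.1 h8
              rw [h9, h7]
              simp
            · have h8 : (Fh h : ℂ) ≠ 0 := by exact_mod_cast h7
              field_simp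
          rw [sum_congr rfl h6, ← mul_sum, hDE (t / m) h3 k hk]
          by_cases h7 : k ≤ t / m
          · rw [if_pos h7, if_pos ⟨h5, h7⟩, mul_one]
          · rw [if_neg h7, if_neg (fun h8 => h7 h8.2), mul_zero]
        · rw [if_neg (fun h8 => h5 h8.1)]
          refine sum_eq_zero fun h _ => ?_
          simp only [hbe]
          rw [if_neg h5]
          ring
      rw [sum_congr rfl h4, ← sum_filter]
      refine sum_congr ?_ fun _ _ => rfl
      ext k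
      rw [mem_Ioc, mem_filter, mem_Icc]
      constructor
      · rintro ⟨h5, h6⟩
        exact ⟨⟨by omega, by omega⟩, h5, h6⟩
      · rintro ⟨_, h5⟩
        exact h5
    · rw [if_neg h2]
      symm
      refine sum_eq_zero fun k _ => sum_eq_zero fun h _ => ?_
      simp only [hal]
      rw [if_neg (fun h3 => h2 h3.2)]
      ring
  rw [hid]
  refine (norm_sum_le _ _).trans ?_
  have h1 : ∀ i ∈ range N, ‖(Fh i : ℂ) *
      ∑ m ∈ Ioc M (2 * M), ∑ k ∈ Icc 1 N, al i m * be i k * F (m * k)‖ ≤ Fh i * P := by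
    intro i hi
    rw [norm_mul, Complex.norm_real, Real.norm_of_nonneg (hF0 i)]
    exact mul_le_mul_of_nonneg_left
      (h N hNU hMN (al i) (be i) (hal1 i hi) (hbe1 i)) (hF0 i)
  refine (sum_le_sum h1).trans ?_
  rw [← sum_mul]
  exact mul_le_mul_of_nonneg_right (hFs.trans (by linarith)) hP

/-- the sum of type II -/
private theorem pf_typeII (X U t C C2 : ℕ) (F : ℕ → ℂ) (P : ℝ) (hX : 8 ≤ X) (hU : 1 ≤ U)
    (ht : t ≤ X) (hC : 2 * C2 + 1 ≤ C) (hP : 0 ≤ P)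
    (hdm : ∀ N : ℕ, 1 ≤ N → ∑ n ∈ Icc 1 N, (n.divisors.card : ℝ) ^ 2 ≤
      N * (1 + Real.log N) ^ C2)
    (h : ∀ M N : ℕ, U < 2 * M → U < N → M * N ≤ X → ∀ α β : ℕ → ℂ,
      (∀ m, ‖α m‖ ≤ Real.log X ^ C) →
      ∑ k ∈ Icc 1 N, ‖β k‖ ^ 2 ≤ N * Real.log X ^ C →
      ‖∑ m ∈ Ioc M (2 * M), ∑ k ∈ Icc 1 N, α m * β k * F (m * k)‖ ≤ P) :
    ‖∑ m ∈ Ioc U t, ∑ k ∈ Ioc U (t / m),
      (ArithmeticFunction.vonMangoldt m : ℂ) * (Pool.BV.c2 U k : ℂ) * F (m * k)‖ ≤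
      3 * Real.log X * ((2 + Real.log X) * P) := by
  have hL1 : 1 ≤ Real.log X := by
    have h1 : Real.log 8 ≤ Real.log X := Real.log_le_log (by norm_num) (by exact_mod_cast hX)
    have h2 : Real.log 8 = 3 * Real.log 2 := by
      rw [show (8 : ℝ) = 2 ^ 3 by norm_num, Real.log_pow]
      norm_num
    have h3 := Real.log_two_gt_d9
    linarith
  set J := Nat.log 2 X + 1 with hJ
  have hXJ : X < 2 ^ J := Nat.lt_pow_succ_log_self (by norm_num) X
  set f : ℕ → ℂ := fun m => if U < m ∧ m ≤ t then ∑ k ∈ Ioc U (t / m),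
      (ArithmeticFunction.vonMangoldt m : ℂ) * (Pool.BV.c2 U k : ℂ) * F (m * k) else 0 with hf
  have e1 : ∑ m ∈ Ioc U t, ∑ k ∈ Ioc U (t / m),
      (ArithmeticFunction.vonMangoldt m : ℂ) * (Pool.BV.c2 U k : ℂ) * F (m * k) =
      ∑ m ∈ Ioc 1 (2 ^ J), f m := by
    simp only [hf]
    rw [← sum_filter]
    refine sum_congr ?_ fun _ _ => rfl
    ext m
    rw [mem_Ioc, mem_filter, mem_Ioc]
    constructor
    · rintro ⟨h1, h2⟩
      exact ⟨⟨by omega, by omega⟩, h1, h2⟩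
    · rintro ⟨_, h1⟩
      exact h1
  rw [e1, ← sum_dyadic J f]
  refine (norm_sum_le _ _).trans ?_
  have h1 : ∀ i ∈ range J, ‖∑ m ∈ Ioc (2 ^ i) (2 ^ (i + 1)), f m‖ ≤ (2 + Real.log X) * P := by
    intro i _
    have h2 : (2 : ℕ) ^ (i + 1) = 2 * 2 ^ i := by ring
    rw [h2]
    simp only [hf]
    rw [← sum_filter]
    by_cases h3 : U < 2 * 2 ^ i
    · exact pf_block X U t C C2 (2 ^ i) F P hX Nat.one_le_two_pow ht hC hP hdm
        (fun N h4 h5 α β h6 h7 => h (2 ^ i) N h3 h4 h5 α β h6 h7)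
    · rw [filter_eq_empty_iff.2, sum_empty, norm_zero]
      · have : 0 ≤ 2 + Real.log X := by linarith
        positivity
      · intro m hm h4
        rw [mem_Ioc] at hm
        omega
  refine (sum_le_sum h1).trans ?_
  rw [sum_const, card_range, nsmul_eq_mul]
  have h4 : (J : ℝ) ≤ 3 * Real.log X := by
    have h5 : ((Nat.log 2 X : ℕ) : ℝ) * Real.log 2 ≤ Real.log X := by
      rw [← Real.log_pow]
      apply Real.log_le_log (by positivity)
      exact_mod_cast Nat.pow_log_le_self 2 (by omega)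
    have h6 := Real.log_two_gt_d9
    have h7 : (J : ℝ) = (Nat.log 2 X : ℕ) + 1 := by
      rw [hJ]
      push_cast
      ring
    rw [h7]
    have h8 : (0 : ℝ) ≤ ((Nat.log 2 X : ℕ) : ℝ) := Nat.cast_nonneg _
    nlinarith
  have h5 : 0 ≤ 2 + Real.log X := by linarith
  exact mul_le_mul_of_nonneg_right h4 (by positivity)

private theorem pf_large (A : ℕ) (th : ℝ) (hth : 1 / 8 < th) :
    ∃ X0 : ℕ, ∀ X : ℕ, X0 ≤ X → 8 ≤ X ∧ 100 ≤ Real.log X ∧
      100 * Real.log X ^ (A + 1) ≤ (X : ℝ) ^ (1 / 4 : ℝ) ∧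
      2 * (X : ℝ) ^ (th / 9) ≤ (X : ℝ) ^ (th / 8) := by
  have h1 : ∀ᶠ x : ℝ in Filter.atTop, 100 ≤ Real.log x :=
    Real.tendsto_log_atTop.eventually_ge_atTop 100
  have h2 : ∀ᶠ x : ℝ in Filter.atTop, 100 * Real.log x ^ (A + 1) ≤ x ^ (1 / 4 : ℝ) := by
    have h3 := (isLittleO_log_rpow_rpow_atTop ((A + 1 : ℕ) : ℝ) (show (0 : ℝ) < 1 / 4 by norm_num)).bound
      (show (0 : ℝ) < 1 / 100 by norm_num)
    filter_upwards [h3, h1, Filter.eventually_ge_atTop (1 : ℝ)] with x hx hx1 hx2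
    rw [Real.norm_eq_abs, Real.norm_eq_abs, abs_of_nonneg (Real.rpow_nonneg (by linarith) _),
      abs_of_nonneg (Real.rpow_nonneg (by linarith) _), Real.rpow_natCast] at hx
    linarith
  have h3 : ∀ᶠ x : ℝ in Filter.atTop, 2 * x ^ (th / 9) ≤ x ^ (th / 8) := by
    have h4 : ∀ᶠ x : ℝ in Filter.atTop, 2 ≤ x ^ (th / 72) :=
      (tendsto_rpow_atTop (by linarith : (0 : ℝ) < th / 72)).eventually_ge_atTop 2
    filter_upwards [h4, Filter.eventually_ge_atTop (1 : ℝ)] with x hx hx2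
    have h5 : x ^ (th / 8) = x ^ (th / 72) * x ^ (th / 9) := by
      rw [← Real.rpow_add (by linarith)]
      congr 1
      ring
    rw [h5]
    exact mul_le_mul_of_nonneg_right hx (Real.rpow_nonneg (by linarith) _)
  have h4 := (h1.and (h2.and h3)).and (Filter.eventually_ge_atTop (8 : ℝ))
  obtain ⟨x0, hx0⟩ := Filter.eventually_atTop.1 h4
  refine ⟨⌈x0⌉₊, fun X hX => ?_⟩
  have h5 : x0 ≤ (X : ℝ) := (Nat.le_ceil x0).trans (by exact_mod_cast hX)
  obtain ⟨⟨h6, h7, h8⟩, h9⟩ := hx0 X h5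
  exact ⟨by exact_mod_cast h9, h6, h7, h8⟩

theorem pf_vm (A B K : ℕ) : ∃ D0 : ℕ, ∀ D1 : ℕ, D0 ≤ D1 → ∀ th e τ : ℝ, AdE th e τ →
    ∃ X0 : ℕ, ∀ X : ℕ, X0 ≤ X →
    ∀ (q : ℕ) [NeZero q] (r : ℕ) (y : ℤ) (a : ZMod q) (χ : DirichletCharacter ℂ q),
    PC th e X B K D1 q r y a χ → ∀ t : ℕ, t ≤ X →
    ‖∑ n ∈ Icc 1 t, (ArithmeticFunction.vonMangoldt n : ℂ) * FP q a χ r y n‖ ≤
      X / Real.log X ^ A := by
  obtain ⟨C2, hdm⟩ := Pool.BV.div_mom 2
  obtain ⟨D0, hI⟩ := pt_I (A + 4) B K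
  obtain ⟨D0', hII⟩ := pt_II (A + 4) B K (2 * C2 + 1)
  refine ⟨max D0 D0', fun D1 hD1 th e τ hA => ?_⟩
  obtain ⟨X1, hI⟩ := hI D1 ((le_max_left _ _).trans hD1) th e τ hA
  obtain ⟨X2, hII⟩ := hII D1 ((le_max_right _ _).trans hD1) th e τ hA
  obtain ⟨hth, hth2, _⟩ := hA
  obtain ⟨X3, hX3⟩ := pf_large A th hth
  refine ⟨max X1 (max X2 X3), fun X hX q _ r y a χ hPC t ht => ?_⟩
  have hXI := hI X ((le_max_left _ _).trans hX) q r y a χ hPC
  have hXII := hII X (((le_max_left _ _).trans (le_max_right _ _)).trans hX) q r y a χ hPC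
  obtain ⟨hX8, hL, hlog, hpow⟩ := hX3 X (((le_max_right _ _).trans (le_max_right _ _)).trans hX)
  have hX1 : (1 : ℝ) ≤ X := by exact_mod_cast (by omega : 1 ≤ X)
  have hX0 : (0 : ℝ) < X := by linarith
  have hL0 : 0 < Real.log X := by linarith
  set U : ℕ := ⌊(X : ℝ) ^ (th / 8)⌋₊ with hU
  have hUle : (U : ℝ) ≤ (X : ℝ) ^ (th / 8) := Nat.floor_le (Real.rpow_nonneg hX0.le _)
  have hUlt : (X : ℝ) ^ (th / 8) < (U : ℝ) + 1 := Nat.lt_floor_add_one _
  have hU1 : 1 ≤ U := by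
    rw [hU, Nat.one_le_floor_iff]
    exact Real.one_le_rpow hX1 (by linarith)
  have hU2 : ((U ^ 2 : ℕ) : ℝ) ≤ (X : ℝ) ^ (th / 4) := by
    have h1 : (X : ℝ) ^ (th / 8) * (X : ℝ) ^ (th / 8) = (X : ℝ) ^ (th / 4) := by
      rw [← Real.rpow_add hX0]
      congr 1
      ring
    push_cast
    rw [pow_two, ← h1]
    exact mul_le_mul hUle hUle (Nat.cast_nonneg _) (Real.rpow_nonneg hX0.le _)
  have hUX : U ^ 2 ≤ X := by
    have h1 : (X : ℝ) ^ (th / 4) ≤ (X : ℝ) ^ (1 : ℝ) :=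
      Real.rpow_le_rpow_of_exponent_le hX1 (by linarith)
    rw [Real.rpow_one] at h1
    exact_mod_cast hU2.trans h1
  set P : ℝ := X / Real.log X ^ (A + 4) with hP
  have hP0 : 0 ≤ P := by positivity
  have b1 := pf_first X U t (FP q a χ r y) (by omega) (fp_norm q a χ r y) ht
  obtain ⟨b2, b3⟩ := pf_typeI X U t (FP q a χ r y) P (by omega) hU1 hUX ht hP0
    (fun l s h1 h2 h3 => by
      have h4 : (l : ℝ) ≤ (X : ℝ) ^ (th / 4) :=
        (show (l : ℝ) ≤ ((U ^ 2 : ℕ) : ℝ) by exact_mod_cast h2).trans hU2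
      refine (hXI l s h1 h4 h3).trans (le_of_eq ?_)
      rw [hP, div_div, mul_comm])
  have hmono : (X : ℝ) ^ (th / 9) ≤ (X : ℝ) ^ (th / 8) :=
    Real.rpow_le_rpow_of_exponent_le hX1 (by linarith)
  have b4 := pf_typeII X U t (2 * C2 + 1) C2 (FP q a χ r y) P hX8 hU1 ht le_rfl hP0
    (fun N hN => (hdm N hN).1)
    (fun M N h1 h2 h3 α β h4 h5 => by
      have h6 : ((U : ℝ) + 1) ≤ 2 * M := by exact_mod_cast h1
      have h7 : ((U : ℝ) + 1) ≤ N := by exact_mod_cast h2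
      exact hXII M N (by linarith) (by linarith) (by omega) α β h4 h5)
  rw [Pool.BV.vaughan U t hU1 (FP q a χ r y)]
  refine (norm_add_le _ _).trans ?_
  refine (add_le_add ((norm_add_le _ _).trans (add_le_add (norm_sub_le _ _) le_rfl)) le_rfl).trans ?_
  have hPe : P * Real.log X ^ 4 = X / Real.log X ^ A := by
    rw [hP, pow_add]
    field_simp
  have hL4 : Real.log X * (1 + Real.log X) * P + 2 * Real.log X * (1 + Real.log X) * P +
      3 * Real.log X * ((2 + Real.log X) * P) ≤ (1 / 2) * (P * Real.log X ^ 4) := by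
    have h1 : Real.log X * (1 + Real.log X) + 2 * Real.log X * (1 + Real.log X) +
        3 * Real.log X * (2 + Real.log X) ≤ (1 / 2) * Real.log X ^ 4 := by
      have h2 : 0 ≤ Real.log X ^ 2 := by positivity
      have h3 : 100 ^ 2 * Real.log X ^ 2 ≤ Real.log X ^ 4 := by
        have h4 : (100 : ℝ) ^ 2 ≤ Real.log X ^ 2 := pow_le_pow_left₀ (by norm_num) hL 2
        calc 100 ^ 2 * Real.log X ^ 2 ≤ Real.log X ^ 2 * Real.log X ^ 2 :=
              mul_le_mul_of_nonneg_right h4 h2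
          _ = Real.log X ^ 4 := by ring
      nlinarith
    calc Real.log X * (1 + Real.log X) * P + 2 * Real.log X * (1 + Real.log X) * P +
        3 * Real.log X * ((2 + Real.log X) * P) =
        (Real.log X * (1 + Real.log X) + 2 * Real.log X * (1 + Real.log X) +
        3 * Real.log X * (2 + Real.log X)) * P := by ring
      _ ≤ ((1 / 2) * Real.log X ^ 4) * P := mul_le_mul_of_nonneg_right h1 hP0
      _ = _ := by ring
  have hfirst : (U : ℝ) * Real.log X ≤ (1 / 2) * (X / Real.log X ^ A) := by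
    have h1 : (U : ℝ) ≤ (X : ℝ) ^ (1 / 4 : ℝ) :=
      hUle.trans (Real.rpow_le_rpow_of_exponent_le hX1 (by linarith))
    have h2 : (X : ℝ) ^ (1 / 4 : ℝ) * (X : ℝ) ^ (1 / 4 : ℝ) ≤ X := by
      rw [← Real.rpow_add hX0]
      calc (X : ℝ) ^ (1 / 4 + 1 / 4 : ℝ) ≤ (X : ℝ) ^ (1 : ℝ) :=
            Real.rpow_le_rpow_of_exponent_le hX1 (by norm_num)
        _ = X := Real.rpow_one _
    have h3 : 0 ≤ (X : ℝ) ^ (1 / 4 : ℝ) := Real.rpow_nonneg hX0.le _
    have h4 : 0 < Real.log X ^ A := by positivity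
    rw [← mul_div_assoc, le_div_iff₀ h4]
    have h5 : (U : ℝ) * Real.log X * Real.log X ^ A = U * Real.log X ^ (A + 1) := by ring
    rw [h5]
    have h6 : 0 ≤ Real.log X ^ (A + 1) := by positivity
    have h7 : (U : ℝ) * Real.log X ^ (A + 1) ≤ (X : ℝ) ^ (1 / 4 : ℝ) * Real.log X ^ (A + 1) :=
      mul_le_mul_of_nonneg_right h1 h6
    have h8 : (X : ℝ) ^ (1 / 4 : ℝ) * (100 * Real.log X ^ (A + 1)) ≤
        (X : ℝ) ^ (1 / 4 : ℝ) * (X : ℝ) ^ (1 / 4 : ℝ) := mul_le_mul_of_nonneg_left hlog h3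
    have h9 : 0 ≤ (X : ℝ) ^ (1 / 4 : ℝ) * Real.log X ^ (A + 1) := mul_nonneg h3 h6
    linarith
  rw [hPe] at hL4
  linarith

end Pool.MP_dd84fd_nt.EM
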