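import Pool.Agent.Lib.MP_dd84fd_nt.L2G.CharOrth

/-!
# Jacobi sums of a primitive character and bilinear forms with the kernel `χ (a - x z)`
-/

set_option autoImplicit false

namespace Pool.MP_dd84fd_nt.EM

open Finset Pool.MP_67663b_nt.Odd Pool.MP_dd84fd_nt.L2G

private theorem PJ_expand (q : ℕ) [NeZero q] (f : ZMod q → ℂ) (S : Finset (ZMod q)) :
    ((∑ h ∈ S, ‖∑ b : ZMod q, f b * ZMod.stdAddChar (h * b)‖ ^ 2 : ℝ) : ℂ) =
      ∑ b : ZMod q, ∑ c : ZMod q, f b * (starRingEnd ℂ) (f c) *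
        ∑ h ∈ S, (ZMod.stdAddChar (h * (b - c)) : ℂ) := by
  push_cast
  have h1 : ∀ h ∈ S, ((‖∑ b : ZMod q, f b * ZMod.stdAddChar (h * b)‖ : ℂ)) ^ 2 =
      ∑ b : ZMod q, ∑ c : ZMod q, f b * (starRingEnd ℂ) (f c) *
        (ZMod.stdAddChar (h * (b - c)) : ℂ) := by
    intro h _
    rw [← Complex.mul_conj', map_sum, Finset.sum_mul_sum]
    refine Finset.sum_congr rfl fun b _ => Finset.sum_congr rfl fun c _ => ?_
    rw [map_mul (starRingEnd ℂ), ← AddChar.map_neg_eq_conj, mul_sub, sub_eq_add_neg,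
      AddChar.map_add_eq_mul]
    ring
  rw [Finset.sum_congr rfl h1, Finset.sum_comm]
  refine Finset.sum_congr rfl fun b _ => ?_
  rw [Finset.sum_comm]
  refine Finset.sum_congr rfl fun c _ => ?_
  rw [Finset.mul_sum]

private theorem PJ_parseval (q : ℕ) [NeZero q] (f : ZMod q → ℂ) :
    ∑ h : ZMod q, ‖∑ b : ZMod q, f b * ZMod.stdAddChar (h * b)‖ ^ 2 =
      (q : ℝ) * ∑ b : ZMod q, ‖f b‖ ^ 2 := by
  have h := PJ_expand q f univ
  have h2 : (∑ b : ZMod q, ∑ c : ZMod q, f b * (starRingEnd ℂ) (f c) *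
        ∑ h : ZMod q, (ZMod.stdAddChar (h * (b - c)) : ℂ)) =
      (((q : ℝ) * ∑ b : ZMod q, ‖f b‖ ^ 2 : ℝ) : ℂ) := by
    push_cast
    rw [Finset.mul_sum]
    refine Finset.sum_congr rfl fun b _ => ?_
    rw [Finset.sum_eq_single b]
    · rw [sub_self]
      simp only [mul_zero, AddChar.map_zero_eq_one, Finset.sum_const, Finset.card_univ,
        ZMod.card, nsmul_eq_mul, mul_one]
      rw [← Complex.mul_conj']
      ring
    · intro c _ hc
      rw [AddChar.sum_mulShift (b - c) (ZMod.isPrimitive_stdAddChar q),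
        if_neg (sub_ne_zero.mpr (Ne.symm hc))]
      simp
    · intro hb
      exact absurd (mem_univ b) hb
  rw [h2] at h
  exact_mod_cast h

private theorem PJ_card_units (q : ℕ) [NeZero q] :
    (univ.filter (fun b : ZMod q => IsUnit b)).card ≤ Nat.totient q := by
  classical
  have h1 : (univ.filter (fun b : ZMod q => IsUnit b)) ⊆
      Finset.image (fun u : (ZMod q)ˣ => (u : ZMod q)) (Finset.univ : Finset (ZMod q)ˣ) := by
    intro b hb
    rw [Finset.mem_filter] at hb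
    obtain ⟨u, hu⟩ := hb.2
    rw [Finset.mem_image]
    exact ⟨u, mem_univ u, hu⟩
  refine (Finset.card_le_card h1).trans (Finset.card_image_le.trans ?_)
  rw [Finset.card_univ, ZMod.card_units_eq_totient]

private theorem PJ_norm_sum (q : ℕ) [NeZero q] (χ : DirichletCharacter ℂ q) :
    ∑ b : ZMod q, ‖χ b‖ ≤ (Nat.totient q : ℝ) := by
  have h1 : ∑ b : ZMod q, ‖χ b‖ = ∑ b ∈ univ.filter (fun b : ZMod q => IsUnit b), ‖χ b‖ := by
    rw [Finset.sum_filter]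
    refine Finset.sum_congr rfl fun b _ => ?_
    split_ifs with h
    · rfl
    · rw [χ.map_nonunit h, norm_zero]
  rw [h1]
  calc _ ≤ ∑ b ∈ univ.filter (fun b : ZMod q => IsUnit b), (1 : ℝ) :=
        Finset.sum_le_sum fun b _ => χ.norm_le_one b
    _ = ((univ.filter (fun b : ZMod q => IsUnit b)).card : ℝ) := by simp
    _ ≤ _ := by exact_mod_cast PJ_card_units q

private theorem PJ_norm_sq_sum (q : ℕ) [NeZero q] (χ : DirichletCharacter ℂ q) :
    ∑ b : ZMod q, ‖χ b‖ ^ 2 ≤ (Nat.totient q : ℝ) := by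
  refine le_trans (Finset.sum_le_sum fun b _ => ?_) (PJ_norm_sum q χ)
  have h1 := χ.norm_le_one b
  have h2 := norm_nonneg (χ b)
  nlinarith

/-- the number of `x` with `x * a = 0` is at most `gcd(a, q)` -/
private theorem PJ_ann (q : ℕ) [NeZero q] (a : ZMod q) :
    (univ.filter (fun x : ZMod q => x * a = 0)).card ≤ Nat.gcd a.val q := by
  classical
  have hg : 0 < Nat.gcd a.val q := Nat.gcd_pos_of_pos_right _ (NeZero.pos q)
  refine le_trans (Finset.card_le_card ?_)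
    (IsAddCyclic.card_nsmul_eq_zero_le (α := ZMod q) (n := Nat.gcd a.val q) hg)
  intro x hx
  rw [Finset.mem_filter] at hx ⊢
  refine ⟨mem_univ x, ?_⟩
  have hb := Nat.gcd_eq_gcd_ab a.val q
  have hc : ((Nat.gcd a.val q : ℕ) : ZMod q) = a * ((Nat.gcdA a.val q : ℤ) : ZMod q) := by
    have h1 : ((Nat.gcd a.val q : ℤ) : ZMod q) =
        (((a.val : ℤ) * Nat.gcdA a.val q + (q : ℤ) * Nat.gcdB a.val q : ℤ) : ZMod q) := by
      rw [hb]
    push_cast at h1
    rw [ZMod.natCast_self, zero_mul, add_zero, ZMod.natCast_zmod_val] at h1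
    exact h1
  rw [nsmul_eq_mul, hc]
  calc a * ((Nat.gcdA a.val q : ℤ) : ZMod q) * x
      = ((Nat.gcdA a.val q : ℤ) : ZMod q) * (x * a) := by ring
    _ = 0 := by rw [hx.2, mul_zero]

private theorem PJ_fib (q : ℕ) [NeZero q] (a a' : ZMod q) :
    (univ.filter (fun u : (ZMod q)ˣ => (u : ZMod q) * a = a')).card ≤ Nat.gcd a.val q := by
  classical
  rcases (univ.filter (fun u : (ZMod q)ˣ => (u : ZMod q) * a = a')).eq_empty_or_nonempty with h | h
  · rw [h]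
    simp
  · obtain ⟨u0, hu0⟩ := h
    rw [Finset.mem_filter] at hu0
    refine le_trans (Finset.card_le_card_of_injOn (fun u => (u : ZMod q) - u0) ?_ ?_)
      (PJ_ann q a)
    · intro u hu
      rw [Finset.mem_coe, Finset.mem_filter] at hu
      rw [Finset.mem_coe, Finset.mem_filter]
      refine ⟨mem_univ _, ?_⟩
      simp only
      rw [sub_mul, hu.2, hu0.2, sub_self]
    · intro u _ v _ huv
      simp only at huv
      exact Units.ext (sub_left_injective huv)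

/-- averaging over the units -/
private theorem PJ_avg (q : ℕ) [NeZero q] (F : ZMod q → ℝ) (a : ZMod q)
    (S : Finset (ZMod q)) (hF : ∀ b, 0 ≤ F b) (hu : ∀ u : (ZMod q)ˣ, F (u * a) = F a)
    (hS : ∀ u : (ZMod q)ˣ, (u : ZMod q) * a ∈ S) :
    (Nat.totient q : ℝ) * F a ≤ (Nat.gcd a.val q : ℝ) * ∑ b ∈ S, F b := by
  classical
  have h1 : (Nat.totient q : ℝ) * F a = ∑ u : (ZMod q)ˣ, F (u * a) := by
    rw [Finset.sum_congr rfl fun u _ => hu u, Finset.sum_const, Finset.card_univ,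
      ZMod.card_units_eq_totient, nsmul_eq_mul]
  rw [h1, ← Finset.sum_fiberwise_of_maps_to (s := univ) (t := S)
    (g := fun u : (ZMod q)ˣ => (u : ZMod q) * a) (fun u _ => hS u), Finset.mul_sum]
  refine Finset.sum_le_sum fun b _ => ?_
  rw [Finset.sum_congr rfl (g := fun _ => F b)
    (fun u hu' => by rw [(Finset.mem_filter.mp hu').2]), Finset.sum_const, nsmul_eq_mul]
  exact mul_le_mul_of_nonneg_right (by exact_mod_cast PJ_fib q a b) (hF b)

private noncomputable def PJ_t (q : ℕ) [NeZero q] (χ : DirichletCharacter ℂ q) (h : ZMod q) : ℂ :=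
  ∑ b : ZMod q, χ b * ZMod.stdAddChar (h * b)

private theorem PJ_t_unit (q : ℕ) [NeZero q] (χ : DirichletCharacter ℂ q) (h : ZMod q)
    (u : (ZMod q)ˣ) : χ u * PJ_t q χ (u * h) = PJ_t q χ h := by
  unfold PJ_t
  rw [Finset.mul_sum]
  refine Fintype.sum_equiv (Units.mulLeft u) _ _ fun b => ?_
  have h1 : (u : ZMod q) * h * b = h * (Units.mulLeft u b) := by
    rw [Units.mulLeft_apply]
    ring
  rw [h1, Units.mulLeft_apply, map_mul χ]
  ring

private theorem PJ_norm_unit (q : ℕ) [NeZero q] (χ : DirichletCharacter ℂ q)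
    (u : (ZMod q)ˣ) : ‖χ (u : ZMod q)‖ = 1 := by
  exact χ.unit_norm_eq_one u

private theorem PJ_t_norm (q : ℕ) [NeZero q] (χ : DirichletCharacter ℂ q) (h : ZMod q)
    (u : (ZMod q)ˣ) : ‖PJ_t q χ (u * h)‖ = ‖PJ_t q χ h‖ := by
  rw [← PJ_t_unit q χ h u, norm_mul, PJ_norm_unit, one_mul]

private theorem PJ_J_norm (q : ℕ) [NeZero q] (χ ψ : DirichletCharacter ℂ q) (a : ZMod q)
    (u : (ZMod q)ˣ) : ‖Jc q (u * a) χ ψ‖ = ‖Jc q a χ ψ‖ := by
  have h1 : Jc q (u * a) χ ψ = χ u * ψ u * Jc q a χ ψ := by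
    unfold Jc
    rw [Finset.mul_sum]
    symm
    refine Fintype.sum_equiv (Units.mulLeft u) _ _ fun b => ?_
    rw [Units.mulLeft_apply, ← mul_sub, map_mul, map_mul]
    ring
  rw [h1, norm_mul, norm_mul, PJ_norm_unit, PJ_norm_unit, one_mul, one_mul]

private theorem PJ_conv (q : ℕ) [NeZero q] (χ ψ : DirichletCharacter ℂ q) (h : ZMod q) :
    ∑ a : ZMod q, Jc q a χ ψ * ZMod.stdAddChar (h * a) = PJ_t q χ h * PJ_t q ψ h := by
  unfold Jc PJ_t
  simp only [Finset.sum_mul]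
  rw [Finset.sum_comm]
  refine Finset.sum_congr rfl fun b _ => ?_
  rw [Finset.mul_sum]
  refine Fintype.sum_equiv (Equiv.subRight b) _ _ fun a => ?_
  rw [Equiv.subRight_apply]
  have h2 : h * a = h * b + h * (a - b) := by ring
  rw [h2, AddChar.map_add_eq_mul]
  ring

private theorem PJ_sumJ (q : ℕ) [NeZero q] (χ ψ : DirichletCharacter ℂ q) :
    (q : ℝ) * ∑ a : ZMod q, ‖Jc q a χ ψ‖ ^ 2 =
      ∑ h : ZMod q, ‖PJ_t q χ h‖ ^ 2 * ‖PJ_t q ψ h‖ ^ 2 := by
  rw [← PJ_parseval q (fun a => Jc q a χ ψ)]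
  refine Finset.sum_congr rfl fun h _ => ?_
  rw [PJ_conv, norm_mul, mul_pow]

private theorem PJ_sumS (q : ℕ) [NeZero q] (χ : DirichletCharacter ℂ q) (m g : ℕ)
    (hmg : g * m = q) :
    ∑ h ∈ univ.filter (fun h : ZMod q => m • h = 0), ‖PJ_t q χ h‖ ^ 2 ≤
      (q : ℝ) * Nat.totient q := by
  classical
  have hm : 0 < m := Nat.pos_of_ne_zero (by
    rintro rfl
    rw [mul_zero] at hmg
    exact NeZero.ne q hmg.symm)
  have hg : 0 < g := Nat.pos_of_ne_zero (by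
    rintro rfl
    rw [zero_mul] at hmg
    exact NeZero.ne q hmg.symm)
  obtain ⟨S, hSdef⟩ : ∃ S : Finset (ZMod q), S = univ.filter (fun h : ZMod q => m • h = 0) :=
    ⟨_, rfl⟩
  rw [← hSdef]
  have hScard : S.card ≤ m := by
    rw [hSdef]
    exact IsAddCyclic.card_nsmul_eq_zero_le (α := ZMod q) hm
  have hgS : m • (g : ZMod q) = 0 := by
    rw [nsmul_eq_mul, ← Nat.cast_mul, mul_comm, hmg, ZMod.natCast_self]
  have hsum : ∀ x : ZMod q, (g : ZMod q) * x ≠ 0 →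
      ∑ h ∈ S, (ZMod.stdAddChar (h * x) : ℂ) = 0 := by
    intro x hx
    have h1 : ∑ h ∈ S, (ZMod.stdAddChar (h * x) : ℂ) =
        (ZMod.stdAddChar ((g : ZMod q) * x) : ℂ) * ∑ h ∈ S, (ZMod.stdAddChar (h * x) : ℂ) := by
      rw [Finset.mul_sum]
      refine Finset.sum_bij (fun h _ => h - g) ?_ ?_ ?_ ?_
      · intro h hh
        rw [hSdef, Finset.mem_filter] at hh ⊢
        exact ⟨mem_univ _, by rw [smul_sub, hh.2, hgS, sub_zero]⟩
      · intro h1 _ h2 _ he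
        exact sub_left_injective he
      · intro h hh
        refine ⟨h + g, ?_, by ring⟩
        rw [hSdef, Finset.mem_filter] at hh ⊢
        exact ⟨mem_univ _, by rw [smul_add, hh.2, hgS, add_zero]⟩
      · intro h _
        rw [← AddChar.map_add_eq_mul]
        congr 1
        ring
    have h2 : (ZMod.stdAddChar ((g : ZMod q) * x) : ℂ) ≠ 1 := by
      intro h3
      apply hx
      rw [← (ZMod.stdAddChar (N := q)).map_zero_eq_one] at h3
      exact ZMod.injective_stdAddChar h3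
    have h3 : (1 - (ZMod.stdAddChar ((g : ZMod q) * x) : ℂ)) *
        ∑ h ∈ S, (ZMod.stdAddChar (h * x) : ℂ) = 0 := by
      rw [sub_mul, one_mul, ← h1, sub_self]
    rcases mul_eq_zero.mp h3 with h4 | h4
    · exact absurd (sub_eq_zero.mp h4).symm h2
    · exact h4
  have hE := PJ_expand q (fun b => χ b) S
  have hle : ∑ h ∈ S, ‖PJ_t q χ h‖ ^ 2 ≤
      ∑ b : ZMod q, ∑ c : ZMod q, ‖χ b‖ * (if (g : ℕ) • (b - c) = 0 then (m : ℝ) else 0) := by
    have h0 : 0 ≤ ∑ h ∈ S, ‖PJ_t q χ h‖ ^ 2 :=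
      Finset.sum_nonneg fun h _ => by positivity
    have h1 : ∑ h ∈ S, ‖PJ_t q χ h‖ ^ 2 =
        ‖((∑ h ∈ S, ‖PJ_t q χ h‖ ^ 2 : ℝ) : ℂ)‖ := by
      rw [Complex.norm_real, Real.norm_of_nonneg h0]
    rw [h1]
    unfold PJ_t
    rw [hE]
    refine (norm_sum_le _ _).trans (Finset.sum_le_sum fun b _ => ?_)
    refine (norm_sum_le _ _).trans (Finset.sum_le_sum fun c _ => ?_)
    rw [norm_mul, norm_mul, RCLike.norm_conj]
    have h5 : ‖∑ h ∈ S, (ZMod.stdAddChar (h * (b - c)) : ℂ)‖ ≤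
        (if (g : ℕ) • (b - c) = 0 then (m : ℝ) else 0) := by
      split_ifs with h6
      · refine (norm_sum_le _ _).trans ?_
        calc _ = ∑ h ∈ S, (1 : ℝ) := Finset.sum_congr rfl fun h _ => AddChar.norm_apply _ _
          _ = (S.card : ℝ) := by simp
          _ ≤ m := by exact_mod_cast hScard
      · rw [hsum (b - c) (by rwa [← nsmul_eq_mul]), norm_zero]
    have h6 := χ.norm_le_one c
    have h7 := norm_nonneg (χ c)
    have h8 := norm_nonneg (χ b)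
    calc ‖χ b‖ * ‖χ c‖ * ‖∑ h ∈ S, (ZMod.stdAddChar (h * (b - c)) : ℂ)‖
        ≤ ‖χ b‖ * 1 * (if (g : ℕ) • (b - c) = 0 then (m : ℝ) else 0) := by
          gcongr
      _ = _ := by ring
  refine hle.trans ?_
  have h9 : ∀ b : ZMod q, ∑ c : ZMod q, ‖χ b‖ * (if (g : ℕ) • (b - c) = 0 then (m : ℝ) else 0) ≤
      ‖χ b‖ * q := by
    intro b
    rw [← Finset.mul_sum]
    refine mul_le_mul_of_nonneg_left ?_ (norm_nonneg _)
    rw [← Finset.sum_filter, Finset.sum_const, nsmul_eq_mul]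
    have h10 : (univ.filter (fun c : ZMod q => (g : ℕ) • (b - c) = 0)).card ≤ g := by
      refine le_trans (Finset.card_le_card_of_injOn (fun c => b - c) ?_ ?_)
        (IsAddCyclic.card_nsmul_eq_zero_le (α := ZMod q) hg)
      · intro c hc
        rw [Finset.mem_coe, Finset.mem_filter] at hc
        rw [Finset.mem_coe, Finset.mem_filter]
        exact ⟨mem_univ _, hc.2⟩
      · intro c _ d _ hcd
        exact sub_right_injective hcd
    calc ((univ.filter (fun c : ZMod q => (g : ℕ) • (b - c) = 0)).card : ℝ) * m ≤ (g : ℝ) * m := by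
          gcongr
      _ = q := by exact_mod_cast hmg
  refine (Finset.sum_le_sum fun b _ => h9 b).trans ?_
  rw [← Finset.sum_mul, mul_comm]
  exact mul_le_mul_of_nonneg_left (PJ_norm_sum q χ) (Nat.cast_nonneg q)

/-- Gauss sums of a primitive character -/
private theorem PJ_t_prim (q : ℕ) [NeZero q] (χ : DirichletCharacter ℂ q)
    (hχ : χ.IsPrimitive) (h : ZMod q) : ‖PJ_t q χ h‖ ^ 2 ≤ (q : ℝ) := by
  classical
  have hq : 0 < q := NeZero.pos q
  obtain ⟨g, hgdef⟩ : ∃ g, g = Nat.gcd h.val q := ⟨_, rfl⟩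
  have hg : 0 < g := by
    rw [hgdef]
    exact Nat.gcd_pos_of_pos_right _ hq
  obtain ⟨m, hmg⟩ : g ∣ q := by
    rw [hgdef]
    exact Nat.gcd_dvd_right _ _
  obtain ⟨h', hh'⟩ : g ∣ h.val := by
    rw [hgdef]
    exact Nat.gcd_dvd_left _ _
  have hheq : h = (g : ZMod q) * (h' : ZMod q) := by
    rw [← Nat.cast_mul, ← hh', ZMod.natCast_zmod_val]
  have hmh : m • h = 0 := by
    rw [nsmul_eq_mul, hheq, ← mul_assoc, ← Nat.cast_mul, mul_comm m g, ← hmg, ZMod.natCast_self,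
      zero_mul]
  rcases Nat.lt_or_ge m q with hmD | hmD
  · -- the sum vanishes
    have hmq : m ∣ q := ⟨g, by rw [hmg]; ring⟩
    have h1 : ¬ χ.FactorsThrough m := by
      intro hf
      have h2 : χ.conductor ≤ m := Nat.sInf_le hf
      have h3 : χ.conductor = q := hχ
      omega
    rw [DirichletCharacter.factorsThrough_iff_ker_unitsMap hmq] at h1
    obtain ⟨u, hu1, hu2⟩ := SetLike.not_le_iff_exists.mp h1
    rw [MonoidHom.mem_ker] at hu1 hu2
    have hu3 : χ (u : ZMod q) ≠ 1 := by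
      intro hc
      apply hu2
      refine Units.ext ?_
      rw [MulChar.coe_toUnitHom, hc, Units.val_one]
    have hu4 : (u : ZMod q) * h = h := by
      have h5 : (ZMod.castHom hmq (ZMod m)) ((u : ZMod q) - 1) = 0 := by
        rw [map_sub, map_one]
        have h6 := congrArg Units.val hu1
        rw [ZMod.unitsMap_def, Units.coe_map, Units.val_one] at h6
        exact sub_eq_zero.mpr h6
      obtain ⟨x, hx⟩ : ∃ x : ZMod q, x = (u : ZMod q) - 1 := ⟨_, rfl⟩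
      rw [← hx] at h5
      have h6 : m ∣ x.val := by
        rw [ZMod.castHom_apply, ZMod.cast_eq_val] at h5
        exact (ZMod.natCast_eq_zero_iff _ _).mp h5
      obtain ⟨k, hk⟩ := h6
      have h7 : x = (m : ZMod q) * (k : ZMod q) := by
        rw [← Nat.cast_mul, ← hk, ZMod.natCast_zmod_val]
      have h8 : x * h = 0 := by
        rw [h7]
        calc (m : ZMod q) * (k : ZMod q) * h = (k : ZMod q) * (m • h) := by
              rw [nsmul_eq_mul]
              ring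
          _ = 0 := by rw [hmh, mul_zero]
      rw [hx, sub_mul, one_mul, sub_eq_zero] at h8
      exact h8
    have h9 := PJ_t_unit q χ h u
    rw [hu4] at h9
    have h10 : (χ (u : ZMod q) - 1) * PJ_t q χ h = 0 := by
      rw [sub_mul, h9, one_mul, sub_self]
    have h11 : PJ_t q χ h = 0 := by
      rcases mul_eq_zero.mp h10 with h12 | h12
      · exact absurd (sub_eq_zero.mp h12) hu3
      · exact h12
    rw [h11, norm_zero]
    simp only [ne_eq, OfNat.ofNat_ne_zero, not_false_eq_true, zero_pow]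
    positivity
  · have hg1 : g = 1 := by
      have hm0 : 0 < m := lt_of_lt_of_le hq hmD
      by_contra hne
      have h2 : 2 ≤ g := by omega
      have h3 : 2 * m ≤ g * m := Nat.mul_le_mul_right _ h2
      omega
    have h1 := PJ_avg q (fun x => ‖PJ_t q χ x‖ ^ 2) h univ (fun b => by positivity)
      (fun u => by simp only [PJ_t_norm]) (fun u => mem_univ _)
    rw [← hgdef, hg1, Nat.cast_one, one_mul] at h1
    have h2 : ∑ x : ZMod q, ‖PJ_t q χ x‖ ^ 2 ≤ (q : ℝ) * Nat.totient q := by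
      have h3 := PJ_parseval q (fun b => χ b)
      unfold PJ_t
      rw [h3]
      exact mul_le_mul_of_nonneg_left (PJ_norm_sq_sum q χ) (Nat.cast_nonneg q)
    have hphi : (0 : ℝ) < Nat.totient q := by exact_mod_cast Nat.totient_pos.mpr hq
    have h3 : (Nat.totient q : ℝ) * ‖PJ_t q χ h‖ ^ 2 ≤ (Nat.totient q : ℝ) * q :=
      h1.trans (h2.trans (le_of_eq (mul_comm _ _)))
    exact le_of_mul_le_mul_left h3 hphi

/-- Jacobi sums of a primitive character with any character -/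
theorem Jc_prim (q : ℕ) [NeZero q] (ψ χ : DirichletCharacter ℂ q) (hχ : χ.IsPrimitive)
    (a : ZMod q) : ‖Jc q a ψ χ‖ ^ 2 ≤ (Nat.gcd a.val q : ℝ) * q := by
  have hq : 0 < q := NeZero.pos q
  have hq' : (0 : ℝ) < q := by exact_mod_cast hq
  have hphi : (0 : ℝ) < Nat.totient q := by exact_mod_cast Nat.totient_pos.mpr hq
  have h1 := PJ_avg q (fun x => ‖Jc q x ψ χ‖ ^ 2) a univ (fun b => by positivity)
    (fun u => by simp only [PJ_J_norm]) (fun u => mem_univ _)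
  have h2 := PJ_sumJ q ψ χ
  have h3 : ∑ h : ZMod q, ‖PJ_t q ψ h‖ ^ 2 * ‖PJ_t q χ h‖ ^ 2 ≤ (q : ℝ) * (q * Nat.totient q) := by
    calc _ ≤ ∑ h : ZMod q, ‖PJ_t q ψ h‖ ^ 2 * q := by
          refine Finset.sum_le_sum fun h _ => ?_
          exact mul_le_mul_of_nonneg_left (PJ_t_prim q χ hχ h) (by positivity)
      _ = q * ∑ h : ZMod q, ‖PJ_t q ψ h‖ ^ 2 := by rw [← Finset.sum_mul, mul_comm]
      _ ≤ q * (q * Nat.totient q) := by
          gcongr
          unfold PJ_t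
          rw [PJ_parseval q (fun b => ψ b)]
          gcongr
          exact PJ_norm_sq_sum q ψ
  rw [← h2] at h3
  have h5 : ∑ b : ZMod q, ‖Jc q b ψ χ‖ ^ 2 ≤ q * Nat.totient q := le_of_mul_le_mul_left h3 hq'
  have h7 : (Nat.totient q : ℝ) * ‖Jc q a ψ χ‖ ^ 2 ≤
      (Nat.totient q : ℝ) * ((Nat.gcd a.val q : ℝ) * q) := by
    calc (Nat.totient q : ℝ) * ‖Jc q a ψ χ‖ ^ 2
        ≤ (Nat.gcd a.val q : ℝ) * ∑ b : ZMod q, ‖Jc q b ψ χ‖ ^ 2 := h1
      _ ≤ (Nat.gcd a.val q : ℝ) * (q * Nat.totient q) := by gcongr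
      _ = _ := by ring
  exact le_of_mul_le_mul_left h7 hphi

theorem Jc_swap (q : ℕ) [NeZero q] (χ ψ : DirichletCharacter ℂ q) (a : ZMod q) :
    Jc q a χ ψ = Jc q a ψ χ := by
  unfold Jc
  refine Fintype.sum_equiv (Equiv.subLeft a) _ _ fun b => ?_
  rw [Equiv.subLeft_apply, sub_sub_cancel, mul_comm]

/-- Jacobi sums of a primitive character with any character -/
theorem Jc_prim' (q : ℕ) [NeZero q] (χ ψ : DirichletCharacter ℂ q) (hχ : χ.IsPrimitive)
    (a : ZMod q) : ‖Jc q a χ ψ‖ ^ 2 ≤ (q : ℝ) * Nat.gcd a.val q := by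
  rw [Jc_swap, mul_comm]
  exact Jc_prim q ψ χ hχ a

/-- expansion of a function of a unit -/
private theorem PJ_mult (q : ℕ) [NeZero q] (f : ZMod q → ℂ) (c : ZMod q) (hc : IsUnit c) :
    (Nat.totient q : ℂ) * f c =
      ∑ ψ : DirichletCharacter ℂ q, (∑ n : ZMod q, ψ n * f n) * ψ c⁻¹ := by
  classical
  simp only [Finset.sum_mul]
  rw [Finset.sum_comm]
  have h1 : ∀ n ∈ (univ : Finset (ZMod q)), ∑ ψ : DirichletCharacter ℂ q, ψ n * f n * ψ c⁻¹ =
      if c = n then (Nat.totient q : ℂ) * f n else 0 := by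
    intro n _
    have h2 := DirichletCharacter.sum_char_inv_mul_char_eq ℂ hc n
    have h3 : ∑ ψ : DirichletCharacter ℂ q, ψ n * f n * ψ c⁻¹ =
        (∑ ψ : DirichletCharacter ℂ q, ψ c⁻¹ * ψ n) * f n := by
      rw [Finset.sum_mul]
      exact Finset.sum_congr rfl fun ψ _ => by ring
    rw [h3, h2]
    split_ifs <;> ring
  rw [Finset.sum_congr rfl h1, Finset.sum_ite_eq univ c, if_pos (mem_univ _)]

private theorem PJ_inv (q : ℕ) [NeZero q] (α : ZMod q → ℂ)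
    (hα : ∀ x, ¬ IsUnit x → α x = 0) :
    ∑ ψ : DirichletCharacter ℂ q, ‖∑ x : ZMod q, α x * ψ x⁻¹‖ ^ 2 =
      (Nat.totient q : ℝ) * ∑ x : ZMod q, ‖α x‖ ^ 2 := by
  classical
  have h1 : ∀ ψ : DirichletCharacter ℂ q, ∑ x : ZMod q, α x * ψ x⁻¹ =
      ∑ x : ZMod q, α x * (ψ⁻¹ : DirichletCharacter ℂ q) x := by
    intro ψ
    refine Finset.sum_congr rfl fun x _ => ?_
    by_cases hx : IsUnit x
    · rw [co_inv_apply q ψ x hx]
    · rw [hα x hx, zero_mul, zero_mul]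
  rw [Finset.sum_congr rfl fun ψ _ => by rw [h1 ψ]]
  rw [Fintype.sum_equiv (Equiv.inv (DirichletCharacter ℂ q))
    (fun ψ => ‖∑ x : ZMod q, α x * (ψ⁻¹ : DirichletCharacter ℂ q) x‖ ^ 2)
    (fun ψ => ‖∑ x : ZMod q, α x * ψ x‖ ^ 2) fun ψ => rfl]
  rw [co_parseval_zmod]
  congr 1
  rw [Finset.sum_filter]
  refine Finset.sum_congr rfl fun x _ => ?_
  split_ifs with hx
  · rfl
  · rw [hα x hx, norm_zero]
    simp

/-- a bilinear form with a kernel which is a function of the product -/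
theorem bil_mult (q : ℕ) [NeZero q] (f α β : ZMod q → ℂ) (T : ℝ)
    (hα : ∀ x, ¬ IsUnit x → α x = 0) (hβ : ∀ x, ¬ IsUnit x → β x = 0)
    (hT : ∀ ψ : DirichletCharacter ℂ q, ‖∑ n : ZMod q, ψ n * f n‖ ^ 2 ≤ T) :
    ‖∑ x : ZMod q, ∑ z : ZMod q, α x * β z * f (x * z)‖ ^ 2 ≤
      T * (∑ x : ZMod q, ‖α x‖ ^ 2) * ∑ z : ZMod q, ‖β z‖ ^ 2 := by
  classical
  have hq : 0 < q := NeZero.pos q
  have hphi : (0 : ℝ) < Nat.totient q := by exact_mod_cast Nat.totient_pos.mpr hq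
  have hT0 : 0 ≤ T := (by positivity : (0 : ℝ) ≤ _).trans (hT 1)
  obtain ⟨S, hS⟩ : ∃ S, S = ∑ x : ZMod q, ∑ z : ZMod q, α x * β z * f (x * z) := ⟨_, rfl⟩
  obtain ⟨A, hA⟩ : ∃ A : DirichletCharacter ℂ q → ℂ, A = fun ψ => ∑ x : ZMod q, α x * ψ x⁻¹ :=
    ⟨_, rfl⟩
  obtain ⟨B, hB⟩ : ∃ B : DirichletCharacter ℂ q → ℂ, B = fun ψ => ∑ x : ZMod q, β x * ψ x⁻¹ :=
    ⟨_, rfl⟩
  obtain ⟨F, hF⟩ : ∃ F : DirichletCharacter ℂ q → ℂ, F = fun ψ => ∑ n : ZMod q, ψ n * f n :=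
    ⟨_, rfl⟩
  have h1 : (Nat.totient q : ℂ) * S = ∑ ψ : DirichletCharacter ℂ q, F ψ * (A ψ * B ψ) := by
    have h2 : ∀ ψ : DirichletCharacter ℂ q, F ψ * (A ψ * B ψ) =
        ∑ x : ZMod q, ∑ z : ZMod q, α x * β z * (F ψ * (ψ x⁻¹ * ψ z⁻¹)) := by
      intro ψ
      rw [hA, hB]
      simp only
      rw [Finset.sum_mul_sum, Finset.mul_sum]
      refine Finset.sum_congr rfl fun x _ => ?_
      rw [Finset.mul_sum]
      exact Finset.sum_congr rfl fun z _ => by ring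
    rw [Finset.sum_congr rfl fun ψ _ => h2 ψ, Finset.sum_comm, hS, Finset.mul_sum]
    refine Finset.sum_congr rfl fun x _ => ?_
    rw [Finset.sum_comm, Finset.mul_sum]
    refine Finset.sum_congr rfl fun z _ => ?_
    rw [← Finset.mul_sum]
    by_cases hx : IsUnit x
    · by_cases hz : IsUnit z
      · have h3 := PJ_mult q f (x * z) (hx.mul hz)
        have h4 : ∀ ψ : DirichletCharacter ℂ q, ψ (x * z)⁻¹ = ψ x⁻¹ * ψ z⁻¹ := by
          intro ψ
          rw [co_char_inv_unit q ψ _ (hx.mul hz), map_mul, mul_inv, co_char_inv_unit q ψ _ hx,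
            co_char_inv_unit q ψ _ hz]
        rw [Finset.sum_congr rfl fun ψ _ => by rw [h4 ψ]] at h3
        rw [hF]
        simp only
        rw [← h3]
        ring
      · rw [hβ z hz]
        ring
    · rw [hα x hx]
      ring
  have hAs : ∑ ψ : DirichletCharacter ℂ q, ‖A ψ‖ ^ 2 = (Nat.totient q : ℝ) * ∑ x : ZMod q, ‖α x‖ ^ 2 := by
    rw [hA]
    exact PJ_inv q α hα
  have hBs : ∑ ψ : DirichletCharacter ℂ q, ‖B ψ‖ ^ 2 = (Nat.totient q : ℝ) * ∑ x : ZMod q, ‖β x‖ ^ 2 := by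
    rw [hB]
    exact PJ_inv q β hβ
  have h5 : ‖(Nat.totient q : ℂ) * S‖ ≤ Real.sqrt T * ∑ ψ : DirichletCharacter ℂ q, ‖A ψ‖ * ‖B ψ‖ := by
    rw [h1, Finset.mul_sum]
    refine (norm_sum_le _ _).trans (Finset.sum_le_sum fun ψ _ => ?_)
    rw [norm_mul, norm_mul]
    refine mul_le_mul_of_nonneg_right ?_ (by positivity)
    rw [← Real.sqrt_sq (norm_nonneg (F ψ))]
    refine Real.sqrt_le_sqrt ?_
    rw [hF]
    exact hT ψ
  have h6 : (∑ ψ : DirichletCharacter ℂ q, ‖A ψ‖ * ‖B ψ‖) ^ 2 ≤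
      (∑ ψ : DirichletCharacter ℂ q, ‖A ψ‖ ^ 2) * ∑ ψ : DirichletCharacter ℂ q, ‖B ψ‖ ^ 2 :=
    Finset.sum_mul_sq_le_sq_mul_sq _ _ _
  have h7 : ((Nat.totient q : ℝ) * ‖S‖) ^ 2 ≤
      T * (((Nat.totient q : ℝ) * ∑ x : ZMod q, ‖α x‖ ^ 2) *
        ((Nat.totient q : ℝ) * ∑ x : ZMod q, ‖β x‖ ^ 2)) := by
    have h8 : (Nat.totient q : ℝ) * ‖S‖ = ‖(Nat.totient q : ℂ) * S‖ := by
      rw [norm_mul, Complex.norm_natCast]
    rw [h8, ← hAs, ← hBs]
    calc ‖(Nat.totient q : ℂ) * S‖ ^ 2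
        ≤ (Real.sqrt T * ∑ ψ : DirichletCharacter ℂ q, ‖A ψ‖ * ‖B ψ‖) ^ 2 :=
          pow_le_pow_left₀ (norm_nonneg _) h5 2
      _ = T * (∑ ψ : DirichletCharacter ℂ q, ‖A ψ‖ * ‖B ψ‖) ^ 2 := by
          rw [mul_pow, Real.sq_sqrt hT0]
      _ ≤ _ := mul_le_mul_of_nonneg_left h6 hT0
  rw [← hS]
  have h9 : (Nat.totient q : ℝ) ^ 2 * ‖S‖ ^ 2 ≤ (Nat.totient q : ℝ) ^ 2 *
      (T * (∑ x : ZMod q, ‖α x‖ ^ 2) * ∑ z : ZMod q, ‖β z‖ ^ 2) := by
    calc (Nat.totient q : ℝ) ^ 2 * ‖S‖ ^ 2 = ((Nat.totient q : ℝ) * ‖S‖) ^ 2 := by ring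
      _ ≤ _ := h7
      _ = _ := by ring
  exact le_of_mul_le_mul_left h9 (by positivity)

/-- bilinear forms with the kernel `χ (a - x z)`, `χ` primitive, over the units -/
theorem bil_shift (q : ℕ) [NeZero q] (χ : DirichletCharacter ℂ q) (hχ : χ.IsPrimitive)
    (a : ZMod q) (α β : ZMod q → ℂ)
    (hα : ∀ x, ¬ IsUnit x → α x = 0) (hβ : ∀ x, ¬ IsUnit x → β x = 0) :
    ‖∑ x : ZMod q, ∑ z : ZMod q, α x * β z * χ (a - x * z)‖ ^ 2 ≤
      (Nat.gcd a.val q : ℝ) * q * (∑ x : ZMod q, ‖α x‖ ^ 2) * ∑ z : ZMod q, ‖β z‖ ^ 2 :=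
  bil_mult q (fun n => χ (a - n)) α β _ hα hβ fun ψ => Jc_prim q ψ χ hχ a

/-- grouping in classes -/
private theorem PJ_group (q : ℕ) [NeZero q] (S T : Finset ℕ) (α β : ℕ → ℂ) (f : ZMod q → ℂ) :
    ∑ m ∈ S, ∑ k ∈ T, α m * β k * f ((m : ZMod q) * (k : ZMod q)) =
      ∑ x : ZMod q, ∑ z : ZMod q, (∑ m ∈ S.filter (fun m : ℕ => (m : ZMod q) = x), α m) *
        (∑ k ∈ T.filter (fun k : ℕ => (k : ZMod q) = z), β k) * f (x * z) := by
  classical
  rw [← Finset.sum_fiberwise S (fun m : ℕ => (m : ZMod q))]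
  refine Finset.sum_congr rfl fun x _ => ?_
  have h1 : ∀ m ∈ S.filter (fun m : ℕ => (m : ZMod q) = x),
      ∑ k ∈ T, α m * β k * f ((m : ZMod q) * (k : ZMod q)) =
      ∑ z : ZMod q, α m * ((∑ k ∈ T.filter (fun k : ℕ => (k : ZMod q) = z), β k) * f (x * z)) := by
    intro m hm
    rw [← Finset.sum_fiberwise T (fun k : ℕ => (k : ZMod q))]
    refine Finset.sum_congr rfl fun z _ => ?_
    rw [Finset.sum_mul, Finset.mul_sum]
    refine Finset.sum_congr rfl fun k hk => ?_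
    rw [(Finset.mem_filter.mp hm).2, (Finset.mem_filter.mp hk).2]
    ring
  rw [Finset.sum_congr rfl h1, Finset.sum_comm]
  refine Finset.sum_congr rfl fun z _ => ?_
  rw [← Finset.sum_mul]
  ring

private theorem PJ_cls (q : ℕ) [NeZero q] (S : Finset ℕ) (α : ℕ → ℂ) (c : ℝ)
    (hc : ∀ x : ZMod q, ((S.filter (fun m : ℕ => (m : ZMod q) = x)).card : ℝ) ≤ c) :
    ∑ x : ZMod q, ‖∑ m ∈ S.filter (fun m : ℕ => (m : ZMod q) = x), α m‖ ^ 2 ≤
      c * ∑ m ∈ S, ‖α m‖ ^ 2 := by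
  classical
  rw [← Finset.sum_fiberwise S (fun m : ℕ => (m : ZMod q)), Finset.mul_sum]
  refine Finset.sum_le_sum fun x _ => ?_
  have h2 : ‖∑ n ∈ S.filter (fun n : ℕ => (n : ZMod q) = x), α n‖ ^ 2 ≤
      (∑ n ∈ S.filter (fun n : ℕ => (n : ZMod q) = x), ‖α n‖) ^ 2 :=
    pow_le_pow_left₀ (norm_nonneg _) (norm_sum_le _ _) 2
  have h3 := sq_sum_le_card_mul_sum_sq
    (s := S.filter (fun n : ℕ => (n : ZMod q) = x)) (f := fun n => ‖α n‖)
  refine h2.trans (h3.trans ?_)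
  exact mul_le_mul_of_nonneg_right (hc x) (Finset.sum_nonneg fun _ _ => by positivity)

/-- bilinear sums with the kernel `χ (a - m k)`, `χ` primitive -/
theorem bil_nat (q : ℕ) [NeZero q] (χ : DirichletCharacter ℂ q) (hχ : χ.IsPrimitive)
    (a : ZMod q) (S T : Finset ℕ) (α β : ℕ → ℂ) (cS cT : ℝ)
    (hα : ∀ m ∈ S, ¬ IsUnit (m : ZMod q) → α m = 0)
    (hβ : ∀ k ∈ T, ¬ IsUnit (k : ZMod q) → β k = 0)
    (hS : ∀ x : ZMod q, ((S.filter (fun m : ℕ => (m : ZMod q) = x)).card : ℝ) ≤ cS)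
    (hT : ∀ x : ZMod q, ((T.filter (fun m : ℕ => (m : ZMod q) = x)).card : ℝ) ≤ cT) :
    ‖∑ m ∈ S, ∑ k ∈ T, α m * β k * χ (a - (m : ZMod q) * (k : ZMod q))‖ ^ 2 ≤
      (Nat.gcd a.val q : ℝ) * q * (cS * ∑ m ∈ S, ‖α m‖ ^ 2) * (cT * ∑ k ∈ T, ‖β k‖ ^ 2) := by
  classical
  rw [PJ_group q S T α β (fun n => χ (a - n))]
  have hz : ∀ (S : Finset ℕ) (α : ℕ → ℂ), (∀ m ∈ S, ¬ IsUnit (m : ZMod q) → α m = 0) →
      ∀ x : ZMod q, ¬ IsUnit x → ∑ m ∈ S.filter (fun m : ℕ => (m : ZMod q) = x), α m = 0 := by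
    intro S α h x hx
    refine Finset.sum_eq_zero fun m hm => ?_
    rw [Finset.mem_filter] at hm
    exact h m hm.1 (by rw [hm.2]; exact hx)
  refine (bil_shift q χ hχ a _ _ (hz S α hα) (hz T β hβ)).trans ?_
  have h1 := PJ_cls q S α cS hS
  have h2 := PJ_cls q T β cT hT
  have h3 : 0 ≤ cT * ∑ k ∈ T, ‖β k‖ ^ 2 :=
    (Finset.sum_nonneg fun _ _ => by positivity).trans h2
  have h4 : 0 ≤ cS * ∑ m ∈ S, ‖α m‖ ^ 2 :=
    (Finset.sum_nonneg fun _ _ => by positivity).trans h1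
  refine mul_le_mul ?_ h2 (Finset.sum_nonneg fun _ _ => by positivity) (by positivity)
  exact mul_le_mul_of_nonneg_left h1 (by positivity)

/-- the elements of a set of naturals in a class mod `d` and a class mod `e` -/
private theorem PJ_crt (d e : ℕ) [NeZero d] [NeZero e] (hde : Nat.Coprime d e) (S : Finset ℕ)
    (c : ℝ) (hc0 : 0 ≤ c)
    (hc : ∀ x : ZMod (d * e), ((S.filter (fun m : ℕ => (m : ZMod (d * e)) = x)).card : ℝ) ≤ c)
    (x : ZMod d) (P : ℕ → Prop) [DecidablePred P]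
    (hP : ∀ m n : ℕ, P m → P n → (m : ZMod e) = (n : ZMod e)) :
    (((S.filter P).filter (fun m : ℕ => (m : ZMod d) = x)).card : ℝ) ≤ c := by
  classical
  have : NeZero (d * e) := ⟨Nat.mul_ne_zero (NeZero.ne d) (NeZero.ne e)⟩
  rcases ((S.filter P).filter (fun m : ℕ => (m : ZMod d) = x)).eq_empty_or_nonempty with h | h
  · rw [h, Finset.card_empty, Nat.cast_zero]
    exact hc0
  · obtain ⟨m0, hm0⟩ := h
    rw [Finset.mem_filter, Finset.mem_filter] at hm0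
    obtain ⟨⟨h1, h2⟩, h3⟩ := hm0
    refine le_trans ?_ (hc (m0 : ZMod (d * e)))
    have h4 : (S.filter P).filter (fun m : ℕ => (m : ZMod d) = x) ⊆
        S.filter (fun m : ℕ => (m : ZMod (d * e)) = (m0 : ZMod (d * e))) := by
      intro m hm
      rw [Finset.mem_filter, Finset.mem_filter] at hm
      obtain ⟨⟨g1, g2⟩, g3⟩ := hm
      rw [Finset.mem_filter]
      refine ⟨g1, ?_⟩
      rw [ZMod.natCast_eq_natCast_iff]
      refine (Nat.modEq_and_modEq_iff_modEq_mul hde).mp ⟨?_, ?_⟩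
      · rw [← ZMod.natCast_eq_natCast_iff, g3, h3]
      · rw [← ZMod.natCast_eq_natCast_iff]
        exact hP m m0 g2 h2
    exact_mod_cast Finset.card_le_card h4

/-- bilinear sums with the kernel `χ (a - m k)`, `χ` primitive mod `d`, over the pairs with
`m k` in a class mod `e` -/
theorem bil_cong (d e : ℕ) [NeZero d] [NeZero e] (hde : Nat.Coprime d e)
    (χ : DirichletCharacter ℂ d) (hχ : χ.IsPrimitive) (a : ZMod d) (b : ZMod e)
    (S T : Finset ℕ) (α β : ℕ → ℂ) (cS cT : ℝ)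
    (hα : ∀ m ∈ S, ¬ (IsUnit (m : ZMod d) ∧ IsUnit (m : ZMod e)) → α m = 0)
    (hβ : ∀ k ∈ T, ¬ (IsUnit (k : ZMod d) ∧ IsUnit (k : ZMod e)) → β k = 0)
    (hS0 : 0 ≤ cS) (hT0 : 0 ≤ cT)
    (hS : ∀ x : ZMod (d * e), ((S.filter (fun m : ℕ => (m : ZMod (d * e)) = x)).card : ℝ) ≤ cS)
    (hT : ∀ x : ZMod (d * e), ((T.filter (fun m : ℕ => (m : ZMod (d * e)) = x)).card : ℝ) ≤ cT) :
    ‖∑ m ∈ S, ∑ k ∈ T.filter (fun k : ℕ => (m : ZMod e) * (k : ZMod e) = b),
      α m * β k * χ (a - (m : ZMod d) * (k : ZMod d))‖ ^ 2 ≤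
      (Nat.gcd a.val d : ℝ) * d * (cS * ∑ m ∈ S, ‖α m‖ ^ 2) * (cT * ∑ k ∈ T, ‖β k‖ ^ 2) := by
  classical
  obtain ⟨G, hG⟩ : ∃ G : ℝ, G = (Nat.gcd a.val d : ℝ) * d := ⟨_, rfl⟩
  have hG0 : 0 ≤ G := by rw [hG]; positivity
  obtain ⟨A, hA⟩ : ∃ A : ZMod e → ℝ, A = fun i =>
    ∑ m ∈ S.filter (fun m : ℕ => (m : ZMod e) = i), ‖α m‖ ^ 2 := ⟨_, rfl⟩
  obtain ⟨B, hB⟩ : ∃ B : ZMod e → ℝ, B = fun i => if IsUnit i then
    ∑ k ∈ T.filter (fun k : ℕ => i * (k : ZMod e) = b), ‖β k‖ ^ 2 else 0 := ⟨_, rfl⟩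
  have hA0 : ∀ i, 0 ≤ A i := by
    intro i
    rw [hA]
    exact Finset.sum_nonneg fun _ _ => by positivity
  have hB0 : ∀ i, 0 ≤ B i := by
    intro i
    rw [hB]
    simp only
    split_ifs
    · exact Finset.sum_nonneg fun _ _ => by positivity
    · exact le_rfl
  have hAs : ∑ i : ZMod e, A i = ∑ m ∈ S, ‖α m‖ ^ 2 := by
    rw [hA]
    exact Finset.sum_fiberwise S (fun m : ℕ => (m : ZMod e)) _
  have hBs : ∑ i : ZMod e, B i ≤ ∑ k ∈ T, ‖β k‖ ^ 2 := by
    have h1 : ∀ i : ZMod e, B i = ∑ k ∈ T,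
        if IsUnit i ∧ i * (k : ZMod e) = b then ‖β k‖ ^ 2 else 0 := by
      intro i
      rw [hB]
      simp only
      split_ifs with hi
      · rw [Finset.sum_filter]
        refine Finset.sum_congr rfl fun k _ => ?_
        simp only [hi, true_and]
      · symm
        refine Finset.sum_eq_zero fun k _ => ?_
        rw [if_neg fun h => hi h.1]
    rw [Finset.sum_congr rfl fun i _ => h1 i, Finset.sum_comm]
    refine Finset.sum_le_sum fun k hk => ?_
    rw [← Finset.sum_filter, Finset.sum_const, nsmul_eq_mul]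
    by_cases hu : IsUnit (k : ZMod e)
    · have h2 : (univ.filter (fun i : ZMod e => IsUnit i ∧ i * (k : ZMod e) = b)).card ≤ 1 := by
        rw [Finset.card_le_one]
        intro i hi j hj
        rw [Finset.mem_filter] at hi hj
        have h3 : i * (k : ZMod e) = j * (k : ZMod e) := by rw [hi.2.2, hj.2.2]
        exact hu.mul_right_cancel h3
      calc ((univ.filter (fun i : ZMod e => IsUnit i ∧ i * (k : ZMod e) = b)).card : ℝ) * ‖β k‖ ^ 2
          ≤ 1 * ‖β k‖ ^ 2 := by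
            gcongr
            exact_mod_cast h2
        _ = ‖β k‖ ^ 2 := one_mul _
    · rw [hβ k hk fun h => hu h.2, norm_zero]
      simp
  -- one class
  have hone : ∀ i : ZMod e, ‖∑ m ∈ S.filter (fun m : ℕ => (m : ZMod e) = i),
      ∑ k ∈ T.filter (fun k : ℕ => (m : ZMod e) * (k : ZMod e) = b),
      α m * β k * χ (a - (m : ZMod d) * (k : ZMod d))‖ ≤
      Real.sqrt (G * cS * cT) * (Real.sqrt (A i) * Real.sqrt (B i)) := by
    intro i
    have h1 : ∑ m ∈ S.filter (fun m : ℕ => (m : ZMod e) = i),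
        ∑ k ∈ T.filter (fun k : ℕ => (m : ZMod e) * (k : ZMod e) = b),
        α m * β k * χ (a - (m : ZMod d) * (k : ZMod d)) =
        ∑ m ∈ S.filter (fun m : ℕ => (m : ZMod e) = i),
        ∑ k ∈ T.filter (fun k : ℕ => i * (k : ZMod e) = b),
        α m * β k * χ (a - (m : ZMod d) * (k : ZMod d)) := by
      refine Finset.sum_congr rfl fun m hm => ?_
      rw [(Finset.mem_filter.mp hm).2]
    rw [h1]
    by_cases hi : IsUnit i
    · have hBi : B i = ∑ k ∈ T.filter (fun k : ℕ => i * (k : ZMod e) = b), ‖β k‖ ^ 2 := by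
        rw [hB]
        simp only
        rw [if_pos hi]
      have h2 := bil_nat d χ hχ a (S.filter (fun m : ℕ => (m : ZMod e) = i))
        (T.filter (fun k : ℕ => i * (k : ZMod e) = b)) α β cS cT
        (fun m hm hu => hα m (Finset.mem_filter.mp hm).1 fun h => hu h.1)
        (fun k hk hu => hβ k (Finset.mem_filter.mp hk).1 fun h => hu h.1)
        (fun x => PJ_crt d e hde S cS hS0 hS x _ fun m n hm hn => hm.trans hn.symm)
        (fun x => PJ_crt d e hde T cT hT0 hT x _ fun m n hm hn =>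
          hi.mul_left_cancel (hm.trans hn.symm))
      rw [← hBi, ← hG] at h2
      have hAi : ∑ m ∈ S.filter (fun m : ℕ => (m : ZMod e) = i), ‖α m‖ ^ 2 = A i := by
        rw [hA]
      rw [hAi] at h2
      rw [← Real.sqrt_mul (hA0 i), ← Real.sqrt_mul (by positivity)]
      refine Real.le_sqrt_of_sq_le (h2.trans (le_of_eq ?_))
      ring
    · rw [Finset.sum_eq_zero, norm_zero]
      · positivity
      · intro m hm
        rw [Finset.mem_filter] at hm
        refine Finset.sum_eq_zero fun k _ => ?_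
        rw [hα m hm.1 fun h => hi (by rw [← hm.2]; exact h.2)]
        ring
  rw [← Finset.sum_fiberwise S (fun m : ℕ => (m : ZMod e))]
  have h3 : ‖∑ i : ZMod e, ∑ m ∈ S.filter (fun m : ℕ => (m : ZMod e) = i),
      ∑ k ∈ T.filter (fun k : ℕ => (m : ZMod e) * (k : ZMod e) = b),
      α m * β k * χ (a - (m : ZMod d) * (k : ZMod d))‖ ≤
      Real.sqrt (G * cS * cT) * ∑ i : ZMod e, Real.sqrt (A i) * Real.sqrt (B i) := by
    rw [Finset.mul_sum]
    exact (norm_sum_le _ _).trans (Finset.sum_le_sum fun i _ => hone i)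
  have h4 : (∑ i : ZMod e, Real.sqrt (A i) * Real.sqrt (B i)) ^ 2 ≤
      (∑ m ∈ S, ‖α m‖ ^ 2) * ∑ k ∈ T, ‖β k‖ ^ 2 := by
    calc _ ≤ (∑ i : ZMod e, Real.sqrt (A i) ^ 2) * ∑ i : ZMod e, Real.sqrt (B i) ^ 2 :=
          Finset.sum_mul_sq_le_sq_mul_sq _ _ _
      _ = (∑ i : ZMod e, A i) * ∑ i : ZMod e, B i := by
          rw [Finset.sum_congr rfl fun i _ => Real.sq_sqrt (hA0 i),
            Finset.sum_congr rfl fun i _ => Real.sq_sqrt (hB0 i)]
      _ ≤ (∑ m ∈ S, ‖α m‖ ^ 2) * ∑ k ∈ T, ‖β k‖ ^ 2 := by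
          rw [hAs]
          exact mul_le_mul_of_nonneg_left hBs (Finset.sum_nonneg fun _ _ => by positivity)
  have hGc : 0 ≤ G * cS * cT := by positivity
  calc _ ≤ (Real.sqrt (G * cS * cT) * ∑ i : ZMod e, Real.sqrt (A i) * Real.sqrt (B i)) ^ 2 :=
        pow_le_pow_left₀ (norm_nonneg _) h3 2
    _ = (G * cS * cT) * (∑ i : ZMod e, Real.sqrt (A i) * Real.sqrt (B i)) ^ 2 := by
        rw [mul_pow, Real.sq_sqrt hGc]
    _ ≤ (G * cS * cT) * ((∑ m ∈ S, ‖α m‖ ^ 2) * ∑ k ∈ T, ‖β k‖ ^ 2) :=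
        mul_le_mul_of_nonneg_left h4 hGc
    _ = _ := by
        rw [hG]
        ring

/-- the same over intervals -/
theorem bil_cong_Ioc (d e : ℕ) [NeZero d] [NeZero e] (hde : Nat.Coprime d e)
    (χ : DirichletCharacter ℂ d) (hχ : χ.IsPrimitive) (a : ZMod d) (b : ZMod e)
    (M0 M N0 N : ℕ) (α β : ℕ → ℂ)
    (hα : ∀ m, ¬ Nat.Coprime m (d * e) → α m = 0)
    (hβ : ∀ k, ¬ Nat.Coprime k (d * e) → β k = 0) :
    ‖∑ m ∈ Ioc M0 (M0 + M), ∑ k ∈ (Ioc N0 (N0 + N)).filter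
        (fun k : ℕ => (m : ZMod e) * (k : ZMod e) = b),
      α m * β k * χ (a - (m : ZMod d) * (k : ZMod d))‖ ^ 2 ≤
      (Nat.gcd a.val d : ℝ) * d *
        (((M : ℝ) / ((d : ℝ) * e) + 1) * ∑ m ∈ Ioc M0 (M0 + M), ‖α m‖ ^ 2) *
        (((N : ℝ) / ((d : ℝ) * e) + 1) * ∑ k ∈ Ioc N0 (N0 + N), ‖β k‖ ^ 2) := by
  have : NeZero (d * e) := ⟨Nat.mul_ne_zero (NeZero.ne d) (NeZero.ne e)⟩
  have hu : ∀ m : ℕ, ¬ (IsUnit (m : ZMod d) ∧ IsUnit (m : ZMod e)) → ¬ Nat.Coprime m (d * e) := by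
    intro m h hc
    apply h
    rw [ZMod.isUnit_iff_coprime, ZMod.isUnit_iff_coprime]
    exact ⟨Nat.Coprime.coprime_mul_right_right hc, Nat.Coprime.coprime_mul_left_right hc⟩
  refine bil_cong d e hde χ hχ a b _ _ α β _ _ (fun m _ h => hα m (hu m h))
    (fun k _ h => hβ k (hu k h)) (by positivity) (by positivity) ?_ ?_
  · intro x
    have h := co_card (d * e) M0 M x
    push_cast at h
    exact h
  · intro x
    have h := co_card (d * e) N0 N x
    push_cast at h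
    exact h

end Pool.MP_dd84fd_nt.EM
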