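import Pool.Agent.Lib.MP_dd84fd_nt.EM.Defs
import Pool.Agent.Lib.MP_dd84fd_nt.L2G.GaussJac

/-!
# EM-PT1 (1 h): `χ(a - n)` along multiples of a small `l` (type I)

`FP q a χ r y n = [(n,q) = 1] χ(a - n) e(n y/r)`.  If `(l, q) > 1` every term is `0`.  Let `(l, q) = 1`.  `k ↦ FP (l k)` has period `q r` (`(r, q) = 1`).  By CRT the complete sum over
`k mod q r` is `(Σ_{x mod q unit} χ(a - l x)) (Σ_{z mod r} e(l (..) y/r))`, of absolute value `≤ r |Σ_{x unit} χ(a - l x)| = r |Jc q a χ 1|` (substitute `x ↦ l x`; `1` is the trivial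
character, `Jc q a χ 1 = Σ_b χ(b) 1(a - b) = Σ_{b'} 1(b') χ(a - b')`).  `L2G.Jc_bound` with `D = ⌊L^D1⌋` (`Big`): `‖Jc‖² √D ≤ 2 gcd(a,q) q² ≤ 2 L^K q²`.
The number of complete periods in `[1, t]` is `≤ t/(q r)`, the rest has `≤ q r` terms: `‖Σ‖ ≤ t √2 L^(K/2) D^(-1/4) + q r`.  `t ≤ X/l`; `D ≥ L^D1/2`: with `D1 = 4 A + 2 K + 8` the first term
is `≤ X/(2 l L^A)`; `q r l ≤ X^(1-th+e) L^B X^(th/4) ≤ X/(2 L^A)`.
-/

set_option autoImplicit false

namespace Pool.MP_dd84fd_nt.EM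

open Finset Pool.MP_67663b_nt.Odd Pool.MP_dd84fd_nt.En Pool.MP_dd84fd_nt.E2
open Pool.MP_dd84fd_nt.HX Pool.MP_dd84fd_nt.IX
open Pool.MP_dd84fd_nt.JX (ZJ DecJ Str wP gP)
open Pool.MP_dd84fd_nt.L2G (fz VA VQ MajQ MinorHyp Tc Jc cv av gr Se)
open Pool.MP_dd84fd_nt.T7 (Fz2)

private theorem PT1_period (g : ℕ → ℂ) (N : ℕ) (hN : 0 < N) (hg : ∀ n, ‖g n‖ ≤ 1)
    (hp : ∀ n, g (n + N) = g n) (n : ℕ) :
    ‖∑ k ∈ range n, g k‖ ≤ (n : ℝ) / N * ‖∑ k ∈ range N, g k‖ + N := by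
  have hN' : (0 : ℝ) < N := by exact_mod_cast hN
  induction n using Nat.strong_induction_on with
  | _ n ih =>
    by_cases h : n < N
    · have h1 : ‖∑ k ∈ range n, g k‖ ≤ n := by
        calc ‖∑ k ∈ range n, g k‖ ≤ ∑ k ∈ range n, ‖g k‖ := norm_sum_le _ _
          _ ≤ ∑ k ∈ range n, (1 : ℝ) := Finset.sum_le_sum fun k _ => hg k
          _ = n := by simp
      have h2 : (n : ℝ) ≤ N := by exact_mod_cast h.le
      have h3 : (0 : ℝ) ≤ (n : ℝ) / N * ‖∑ k ∈ range N, g k‖ := by positivity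
      linarith
    · push Not at h
      obtain ⟨m, rfl⟩ := Nat.exists_eq_add_of_le h
      have h1 : ∑ k ∈ range (N + m), g k = ∑ k ∈ range N, g k + ∑ k ∈ range m, g k := by
        rw [Finset.sum_range_add]
        congr 1
        refine Finset.sum_congr rfl fun k _ => ?_
        rw [add_comm, hp]
      have h2 := ih m (by omega)
      rw [h1]
      have h3 := norm_add_le (∑ k ∈ range N, g k) (∑ k ∈ range m, g k)
      have h4 : ((N + m : ℕ) : ℝ) / N * ‖∑ k ∈ range N, g k‖ =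
          ‖∑ k ∈ range N, g k‖ + (m : ℝ) / N * ‖∑ k ∈ range N, g k‖ := by
        push_cast
        field_simp
      rw [h4]
      linarith

private theorem PT1_split (f : ℕ → ℂ) (q r : ℕ) :
    ∑ k ∈ range (q * r), f k = ∑ j ∈ range r, ∑ i ∈ range q, f (j + r * i) := by
  rw [Finset.sum_comm]
  induction q with
  | zero => simp
  | succ q ih =>
    rw [Nat.succ_mul, Finset.sum_range_add, ih, Finset.sum_range_succ]
    congr 1
    refine Finset.sum_congr rfl fun j _ => ?_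
    congr 1
    ring

private theorem PT1_bij (q : ℕ) [NeZero q] (F : ZMod q → ℂ) (u v : ℕ) (hu : Nat.Coprime u q) :
    ∑ i ∈ range q, F ((v : ZMod q) + (u : ZMod q) * (i : ZMod q)) = ∑ x : ZMod q, F x := by
  have h1 : ∑ i ∈ range q, F ((v : ZMod q) + (u : ZMod q) * (i : ZMod q)) =
      ∑ i : ZMod q, F ((v : ZMod q) + (u : ZMod q) * i) := by
    refine Finset.sum_bij (fun i _ => (i : ZMod q)) (fun i _ => mem_univ _) ?_ ?_ ?_
    · intro i hi j hj h
      rw [ZMod.natCast_eq_natCast_iff] at h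
      exact Nat.ModEq.eq_of_lt_of_lt h (mem_range.mp hi) (mem_range.mp hj)
    · intro b _
      exact ⟨b.val, mem_range.mpr (ZMod.val_lt b), ZMod.natCast_zmod_val b⟩
    · intro i _
      rfl
  rw [h1]
  have hu' : IsUnit (u : ZMod q) := (ZMod.isUnit_iff_coprime u q).mpr hu
  obtain ⟨w, hw⟩ := hu'
  rw [← hw]
  refine Fintype.sum_bijective (fun i : ZMod q => (v : ZMod q) + (w : ZMod q) * i) ?_ _ _
    (fun i => rfl)
  constructor
  · intro i j h
    have h2 : (w : ZMod q) * i = (w : ZMod q) * j := by simpa using h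
    exact w.isUnit.mul_left_cancel h2
  · intro b
    refine ⟨(↑w⁻¹ : ZMod q) * (b - v), ?_⟩
    simp only
    rw [← mul_assoc, Units.mul_inv, one_mul]
    ring

/-- the function mod `q` -/
private noncomputable def PT1_F (q : ℕ) (a : ZMod q) (χ : DirichletCharacter ℂ q) (x : ZMod q) : ℂ :=
  (1 : DirichletCharacter ℂ q) x * χ (a - x)

private theorem PT1_FP (q : ℕ) [NeZero q] (a : ZMod q) (χ : DirichletCharacter ℂ q) (r : ℕ)
    (y : ℤ) (n : ℕ) : FP q a χ r y n = PT1_F q a χ n * ee ((n : ℝ) * ((y : ℝ) / r)) := by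
  unfold FP PT1_F
  split_ifs with h
  · rw [MulChar.one_apply ((ZMod.isUnit_iff_coprime n q).mpr h), one_mul]
  · rw [MulChar.map_nonunit _ (fun h' => h ((ZMod.isUnit_iff_coprime n q).mp h')), zero_mul,
      zero_mul]

private theorem PT1_Jc (q : ℕ) [NeZero q] (a : ZMod q) (χ : DirichletCharacter ℂ q) :
    ∑ x : ZMod q, PT1_F q a χ x = Jc q a χ 1 := by
  unfold Jc PT1_F
  refine Fintype.sum_bijective (fun x : ZMod q => a - x) ?_ _ _ (fun x => ?_)
  · constructor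
    · intro x y h
      exact sub_right_injective h
    · intro b
      exact ⟨a - b, by simp⟩
  · rw [sub_sub_cancel, mul_comm]

private theorem PT1_norm (q : ℕ) [NeZero q] (a : ZMod q) (χ : DirichletCharacter ℂ q) (r : ℕ)
    (y : ℤ) (n : ℕ) : ‖FP q a χ r y n‖ ≤ 1 := by
  unfold FP
  split_ifs
  · rw [norm_mul, norm_ee, mul_one]
    exact χ.norm_le_one _
  · simp

private theorem PT1_ee (l q r j i : ℕ) (y : ℤ) (hr : 0 < r) :
    ee (((l * (j + r * i) : ℕ) : ℝ) * ((y : ℝ) / r)) = ee (((l * j : ℕ) : ℝ) * ((y : ℝ) / r)) := by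
  have hr' : (r : ℝ) ≠ 0 := by exact_mod_cast hr.ne'
  have h : ((l * (j + r * i) : ℕ) : ℝ) * ((y : ℝ) / r) =
      ((l * j : ℕ) : ℝ) * ((y : ℝ) / r) + ((l * i * y : ℤ) : ℝ) := by
    push_cast
    field_simp
  rw [h, ee_add_int]

private theorem PT1_core (q : ℕ) [NeZero q] (a : ZMod q) (χ : DirichletCharacter ℂ q) (r : ℕ)
    (hr : 0 < r) (y : ℤ) (hrq : Nat.Coprime r q) (l : ℕ) (hl : Nat.Coprime l q) (t : ℕ) :
    ‖∑ k ∈ Icc 1 t, FP q a χ r y (l * k)‖ ≤ (t : ℝ) / q * ‖Jc q a χ 1‖ + q * r := by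
  have hq : 0 < q := NeZero.pos q
  have hq' : (0 : ℝ) < q := by exact_mod_cast hq
  have hr' : (0 : ℝ) < r := by exact_mod_cast hr
  have hper : ∀ k, FP q a χ r y (l * (k + q * r)) = FP q a χ r y (l * k) := by
    intro k
    rw [PT1_FP, PT1_FP]
    have h1 : ((l * (k + q * r) : ℕ) : ZMod q) = ((l * k : ℕ) : ZMod q) := by
      push_cast
      simp
    have h2 := PT1_ee l q r k q y hr
    rw [h1, mul_comm q r, h2]
  have h0 : ∑ k ∈ Icc 1 t, FP q a χ r y (l * k) = ∑ k ∈ range t, FP q a χ r y (l * (k + 1)) := by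
    rw [← Finset.sum_image (s := range t) (g := fun k => k + 1) (f := fun k => FP q a χ r y (l * k))
      (by intro x _ y _ h; simpa using h)]
    congr 1
    ext k
    simp only [mem_Icc, mem_image, mem_range]
    constructor
    · rintro ⟨h1, h2⟩
      exact ⟨k - 1, by omega, by omega⟩
    · rintro ⟨m, h1, rfl⟩
      omega
  have hNpos : 0 < q * r := Nat.mul_pos hq hr
  have h1 := PT1_period (fun k => FP q a χ r y (l * (k + 1))) (q * r) hNpos
    (fun n => PT1_norm q a χ r y _) (fun n => by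
      have := hper (n + 1)
      rw [show n + q * r + 1 = n + 1 + q * r by ring]
      exact this) t
  have h2 : ∑ k ∈ range (q * r), FP q a χ r y (l * (k + 1)) =
      ∑ k ∈ range (q * r), FP q a χ r y (l * k) := by
    have e1 := Finset.sum_range_succ (fun k => FP q a χ r y (l * k)) (q * r)
    have e2 := Finset.sum_range_succ' (fun k => FP q a χ r y (l * k)) (q * r)
    have e3 := hper 0
    rw [zero_add] at e3
    rw [e1, e3] at e2
    have e4 : l * 0 = 0 := by ring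
    exact (add_right_cancel e2).symm
  have h3 : ∑ k ∈ range (q * r), FP q a χ r y (l * k) =
      (∑ j ∈ range r, ee (((l * j : ℕ) : ℝ) * ((y : ℝ) / r))) * Jc q a χ 1 := by
    rw [PT1_split, Finset.sum_mul]
    refine Finset.sum_congr rfl fun j _ => ?_
    rw [← PT1_Jc, ← PT1_bij q (PT1_F q a χ) (l * r) (l * j) (Nat.Coprime.mul_left hl hrq),
      Finset.mul_sum]
    refine Finset.sum_congr rfl fun i _ => ?_
    rw [PT1_FP, PT1_ee l q r j i y hr, mul_comm]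
    congr 2
    push_cast
    ring
  have h4 : ‖∑ k ∈ range (q * r), FP q a χ r y (l * (k + 1))‖ ≤ r * ‖Jc q a χ 1‖ := by
    rw [h2, h3, norm_mul]
    gcongr
    calc _ ≤ ∑ j ∈ range r, ‖ee (((l * j : ℕ) : ℝ) * ((y : ℝ) / r))‖ := norm_sum_le _ _
      _ = ∑ j ∈ range r, (1 : ℝ) := Finset.sum_congr rfl fun j _ => norm_ee _
      _ = r := by simp
  rw [h0]
  refine h1.trans ?_
  have h5 : (t : ℝ) / ((q * r : ℕ) : ℝ) * ‖∑ k ∈ range (q * r), FP q a χ r y (l * (k + 1))‖ ≤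
      (t : ℝ) / ((q * r : ℕ) : ℝ) * (r * ‖Jc q a χ 1‖) := by gcongr
  have h6 : (t : ℝ) / ((q * r : ℕ) : ℝ) * (r * ‖Jc q a χ 1‖) = (t : ℝ) / q * ‖Jc q a χ 1‖ := by
    push_cast
    field_simp
  rw [h6] at h5
  have h7 : ((q * r : ℕ) : ℝ) = (q : ℝ) * r := by push_cast; ring
  rw [h7] at h5 ⊢
  linarith

private theorem PT1_log (M : ℕ) (c : ℝ) (hc : 0 < c) : ∃ X0 : ℕ, ∀ X : ℕ, X0 ≤ X →
    2 * Real.log X ^ M ≤ (X : ℝ) ^ c := by
  have h1 : (fun x : ℝ => Real.log x ^ (M : ℝ)) =o[Filter.atTop] fun x => x ^ c :=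
    isLittleO_log_rpow_rpow_atTop (M : ℝ) hc
  have h2 := h1.bound (c := 1 / 2) (by norm_num)
  have h3 := (tendsto_natCast_atTop_atTop (R := ℝ)).eventually h2
  obtain ⟨X0, hX0⟩ := Filter.eventually_atTop.mp h3
  refine ⟨max X0 1, fun X hX => ?_⟩
  have h4 := hX0 X (le_trans (le_max_left _ _) hX)
  have hX1 : (1 : ℝ) ≤ X := by exact_mod_cast le_trans (le_max_right _ _) hX
  have hlog : 0 ≤ Real.log X := Real.log_nonneg hX1
  rw [Real.norm_of_nonneg (by positivity), Real.norm_of_nonneg (by positivity),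
    Real.rpow_natCast] at h4
  linarith

theorem pt_I (A B K : ℕ) : ∃ D0 : ℕ, ∀ D1 : ℕ, D0 ≤ D1 → ∀ th e τ : ℝ, AdE th e τ →
    ∃ X0 : ℕ, ∀ X : ℕ, X0 ≤ X →
    ∀ (q : ℕ) [NeZero q] (r : ℕ) (y : ℤ) (a : ZMod q) (χ : DirichletCharacter ℂ q),
    PC th e X B K D1 q r y a χ → ∀ l t : ℕ, 1 ≤ l → (l : ℝ) ≤ (X : ℝ) ^ (th / 4) → t * l ≤ X →
    ‖∑ k ∈ Icc 1 t, FP q a χ r y (l * k)‖ ≤ X / (l * Real.log X ^ A) := by
  refine ⟨2 * K + 4 * A + 1, fun D1 hD1 th e τ hAd => ?_⟩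
  obtain ⟨hth1, hth2, he, hτ, heτ⟩ := hAd
  have he2 : e ≤ 1 / 10000 := by linarith
  obtain ⟨X1, hX1⟩ := PT1_log (A + B) (9 / 100) (by norm_num)
  have hlogt := (Real.tendsto_log_atTop.comp (tendsto_natCast_atTop_atTop (R := ℝ)))
  obtain ⟨X2, hX2⟩ := Filter.eventually_atTop.mp (hlogt.eventually_ge_atTop 128)
  refine ⟨max (max X1 X2) 1, ?_⟩
  intro X hX q _ r y a χ hPC l t hl1 hlX htl
  obtain ⟨hQ, hr1, hrB, hrq, hyr, hgcd, hBig⟩ := hPC
  have hXX1 : X1 ≤ X := le_trans (le_trans (le_max_left _ _) (le_max_left _ _)) hX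
  have hXX2 : X2 ≤ X := le_trans (le_trans (le_max_right _ _) (le_max_left _ _)) hX
  have hX1' : (1 : ℝ) ≤ X := by exact_mod_cast le_trans (le_max_right _ _) hX
  have hX0' : (0 : ℝ) < X := by linarith
  set L := Real.log X with hLdef
  have hL : 128 ≤ L := hX2 X hXX2
  have hL1 : 1 ≤ L := by linarith
  have hL0 : 0 < L := by linarith
  have hl0 : (0 : ℝ) < l := by exact_mod_cast hl1
  have hq : 0 < q := NeZero.pos q
  have hq' : (0 : ℝ) < q := by exact_mod_cast hq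
  have hpos : (0 : ℝ) ≤ X / (l * L ^ A) := by positivity
  by_cases hlq : Nat.Coprime l q
  swap
  · have h0 : ∑ k ∈ Icc 1 t, FP q a χ r y (l * k) = 0 := by
      refine Finset.sum_eq_zero fun k _ => ?_
      unfold FP
      rw [if_neg]
      intro h
      exact hlq (Nat.Coprime.coprime_mul_right h)
    rw [h0, norm_zero]
    exact hpos
  have hcore := PT1_core q a χ r hr1 y hrq l hlq t
  -- the Jacobi sum
  set D : ℕ := ⌊L ^ D1⌋₊ with hD
  have hLD : 0 ≤ L ^ D1 := by positivity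
  have hDle : (D : ℝ) ≤ L ^ D1 := Nat.floor_le hLD
  have hJ := Pool.MP_dd84fd_nt.L2G.Jc_bound q D χ 1 (fun d hd hdD =>
    hBig d hd (le_trans (by exact_mod_cast hdD) hDle)) a
  have hDge : 64 * L ^ (2 * K + 4 * A) ≤ (D : ℝ) := by
    have h1 : L ^ D1 < (D : ℝ) + 1 := Nat.lt_floor_add_one _
    have h2 : L ^ (2 * K + 4 * A + 1) ≤ L ^ D1 := pow_le_pow_right₀ hL1 hD1
    have h3 : (1 : ℝ) ≤ L ^ (2 * K + 4 * A) := one_le_pow₀ hL1
    have h4 : 128 * L ^ (2 * K + 4 * A) ≤ L ^ (2 * K + 4 * A + 1) := by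
      rw [pow_succ, mul_comm]
      gcongr
    linarith
  have hsq : 8 * L ^ (K + 2 * A) ≤ Real.sqrt D := by
    apply Real.le_sqrt_of_sq_le
    calc (8 * L ^ (K + 2 * A)) ^ 2 = 64 * L ^ (2 * K + 4 * A) := by ring
      _ ≤ D := hDge
  have hJ2 : ‖Jc q a χ 1‖ * (2 * L ^ A) ≤ q := by
    have h1 : ‖Jc q a χ 1‖ ^ 2 * (8 * L ^ (K + 2 * A)) ≤ 2 * L ^ K * (q : ℝ) ^ 2 := by
      calc _ ≤ ‖Jc q a χ 1‖ ^ 2 * Real.sqrt D := by gcongr
        _ ≤ 2 * Nat.gcd a.val q * (q : ℝ) ^ 2 := hJ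
        _ ≤ 2 * L ^ K * (q : ℝ) ^ 2 := by gcongr
    have h2 : (2 * L ^ K) * (‖Jc q a χ 1‖ * (2 * L ^ A)) ^ 2 ≤ (2 * L ^ K) * (q : ℝ) ^ 2 := by
      calc _ = ‖Jc q a χ 1‖ ^ 2 * (8 * L ^ (K + 2 * A)) := by ring
        _ ≤ _ := h1
    have h3 := le_of_mul_le_mul_left h2 (by positivity)
    exact le_of_sq_le_sq h3 hq'.le
  -- first term
  have hT1 : (t : ℝ) / q * ‖Jc q a χ 1‖ ≤ X / (2 * (l * L ^ A)) := by
    rw [le_div_iff₀ (by positivity)]
    have h1 : (t : ℝ) * l ≤ X := by exact_mod_cast htl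
    calc (t : ℝ) / q * ‖Jc q a χ 1‖ * (2 * (l * L ^ A))
        = (t * l) * (‖Jc q a χ 1‖ * (2 * L ^ A)) / q := by ring
      _ ≤ (t * l) * q / q := by gcongr
      _ = t * l := by field_simp
      _ ≤ X := h1
  -- second term
  have hT2 : (q : ℝ) * r ≤ X / (2 * (l * L ^ A)) := by
    rw [le_div_iff₀ (by positivity)]
    have h1 := hX1 X hXX1
    rw [← hLdef] at h1
    calc (q : ℝ) * r * (2 * (l * L ^ A)) = q * l * (2 * (r * L ^ A)) := by ring
      _ ≤ (X : ℝ) ^ (1 - th + e) * (X : ℝ) ^ (th / 4) * (2 * (L ^ B * L ^ A)) := by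
          unfold Qr at hQ
          gcongr
      _ = (X : ℝ) ^ (1 - th + e + th / 4) * (2 * L ^ (A + B)) := by
          rw [Real.rpow_add hX0' (1 - th + e) (th / 4), pow_add]
          ring
      _ ≤ (X : ℝ) ^ (1 - th + e + th / 4) * (X : ℝ) ^ (9 / 100 : ℝ) := by gcongr
      _ = (X : ℝ) ^ (1 - th + e + th / 4 + 9 / 100) := by rw [← Real.rpow_add hX0']
      _ ≤ (X : ℝ) ^ (1 : ℝ) := by
          apply Real.rpow_le_rpow_of_exponent_le hX1'
          linarith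
      _ = X := Real.rpow_one _
  calc _ ≤ (t : ℝ) / q * ‖Jc q a χ 1‖ + q * r := hcore
    _ ≤ X / (2 * (l * L ^ A)) + X / (2 * (l * L ^ A)) := add_le_add hT1 hT2
    _ = X / (l * L ^ A) := by field_simp; ring

end Pool.MP_dd84fd_nt.EM
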