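import Pool.Agent.Lib.MP_dd84fd_nt.EM.TwA

/-!
# EM-TwB (1.2 h): projections to characters do not increase the mass on the arcs with parameter `t`

`Q = q t`.  For a class function `g` mod `Q` put `Φ(g) = Σ_{c mod Q, (c,t)=1} nq (Tw q t (c/Q) g)`, a positive semidefinite quadratic form.
(1) invariance: for a unit `u` mod `Q` and `(U g)(b) = g(u b)`: `Tw (c/Q) (U g) b₀ = Σ_{b' above b₀} e(c b'/Q) g(u b') = Σ_{b'' above u b₀} e(c u⁻¹ b''/Q) g(b'') = Tw (c u⁻¹ mod Q) g (u b₀)`,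
and `c ↦ c u⁻¹` permutes the classes mod `Q` coprime to `t`, `b₀ ↦ u b₀` permutes the classes mod `q`.  So `Φ(U g) = Φ(g)`.
(2) for `g = Σ_{χ ∈ S} a_χ χ⁻¹`: `U g = Σ a_χ χ⁻¹(u) χ⁻¹`; expand the form and average over the units `u`: the cross terms carry `Σ_u χ⁻¹(u) ψ(u) = 0` for `χ ≠ ψ`, so
`Φ(g) = Σ_{χ ∈ S} |a_χ|² Φ(χ⁻¹)`, which is monotone in `S`.  (`PG X Q f φ S` is of this form, `a_χ = Tc X Q f φ χ/φ(Q)`.)
(3) `PG X Q f φ univ = fz` on the units, `0` elsewhere (`PG_univ`), and as all primes of `t` divide `q`, `b'` is a unit mod `Q` iff `b₀` is a unit mod `q`: so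
`Tw (c/Q) (PG univ) b₀` is `Tw (c/Q) (fz) b₀` for units `b₀` and `0` otherwise.
-/

set_option autoImplicit false

namespace Pool.MP_dd84fd_nt.EM

open Finset Pool.MP_67663b_nt.Odd Pool.MP_dd84fd_nt.En Pool.MP_dd84fd_nt.E2
open Pool.MP_dd84fd_nt.HX Pool.MP_dd84fd_nt.IX
open Pool.MP_dd84fd_nt.JX (ZJ DecJ Str wP gP)
open Pool.MP_dd84fd_nt.L2G (fz VA VQ MajQ MinorHyp Tc Jc cv av gr Se)
open Pool.MP_dd84fd_nt.T7 (Fz2)

private noncomputable def tt (q t : ℕ) [NeZero q] [NeZero t] (g : ZMod (q * t) → ℂ)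
    (c : ZMod (q * t)) (b : ZMod q) : ℂ :=
  ∑ z : ZMod (q * t), if ZMod.castHom (dvd_mul_right q t) (ZMod q) z = b then
    ZMod.stdAddChar (c * z) * g z else 0

private theorem tb_ee (Q : ℕ) [NeZero Q] (c n : ℕ) :
    ee ((c : ℝ) / (Q : ℕ) * (n : ℝ)) = ZMod.stdAddChar ((c : ZMod Q) * (n : ZMod Q)) := by
  have h := ZMod.stdAddChar_coe (N := Q) ((c * n : ℕ) : ℤ)
  have e : (((c * n : ℕ) : ℤ) : ZMod Q) = (c : ZMod Q) * (n : ZMod Q) := by push_cast; ring
  rw [← e, h]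
  unfold ee
  congr 1
  push_cast
  ring

private theorem tw_eq (q t : ℕ) [NeZero q] [NeZero t] (c : ℕ) (g : ZMod (q * t) → ℂ) (b : ZMod q) :
    Tw q t ((c : ℝ) / (q * t : ℕ)) g b = tt q t g (c : ZMod (q * t)) b := by
  have hq : 0 < q := Nat.pos_of_ne_zero (NeZero.ne q)
  have ht : 0 < t := Nat.pos_of_ne_zero (NeZero.ne t)
  unfold Tw tt
  rw [← Finset.sum_filter]
  refine Finset.sum_bij' (fun j _ => ((b.val + q * j : ℕ) : ZMod (q * t))) (fun z _ => z.val / q)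
    ?_ ?_ ?_ ?_ ?_
  · intro j hj
    simp only [Finset.mem_filter, Finset.mem_univ, true_and]
    rw [map_natCast]
    push_cast
    simp
  · intro z hz
    rw [Finset.mem_range]
    have h1 := ZMod.val_lt z
    exact Nat.div_lt_of_lt_mul h1
  · intro j hj
    rw [Finset.mem_range] at hj
    have hb := ZMod.val_lt b
    have h1 : b.val + q * j < q * t := by
      calc b.val + q * j < q + q * j := by omega
        _ = q * (j + 1) := by ring
        _ ≤ q * t := Nat.mul_le_mul_left q hj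
    rw [ZMod.val_natCast, Nat.mod_eq_of_lt h1, Nat.add_mul_div_left _ _ hq, Nat.div_eq_of_lt hb, zero_add]
  · intro z hz
    simp only [Finset.mem_filter, Finset.mem_univ, true_and] at hz
    have h1 : b.val = z.val % q := by
      rw [← hz, ← ZMod.natCast_zmod_val z, map_natCast, ZMod.val_natCast, ZMod.natCast_zmod_val]
    rw [h1, Nat.mod_add_div]
    exact ZMod.natCast_zmod_val z
  · intro j hj
    rw [tb_ee]

/-- `z ↦ u z` -/
private theorem tt_unit (q t : ℕ) [NeZero q] [NeZero t] (u : (ZMod (q * t))ˣ)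
    (χ : DirichletCharacter ℂ (q * t)) (c : ZMod (q * t)) (b : ZMod q) :
    tt q t (fun z => χ z) (c * (u⁻¹ : (ZMod (q * t))ˣ))
      (ZMod.castHom (dvd_mul_right q t) (ZMod q) (u : ZMod (q * t)) * b) =
      χ (u : ZMod (q * t)) * tt q t (fun z => χ z) c b := by
  unfold tt
  rw [Finset.mul_sum]
  refine Finset.sum_bij' (fun z _ => (u⁻¹ : (ZMod (q * t))ˣ) * z) (fun z _ => (u : ZMod (q * t)) * z)
    ?_ ?_ ?_ ?_ ?_
  · intro z _; exact Finset.mem_univ _
  · intro z _; exact Finset.mem_univ _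
  · intro z _; simp
  · intro z _; simp
  · intro z _
    set φ := ZMod.castHom (dvd_mul_right q t) (ZMod q) with hφ
    have hu : φ (u : ZMod (q * t)) * φ ((u⁻¹ : (ZMod (q * t))ˣ) : ZMod (q * t)) = 1 := by
      rw [← map_mul, Units.mul_inv, map_one]
    have hiff : φ z = φ (u : ZMod (q * t)) * b ↔
        φ (((u⁻¹ : (ZMod (q * t))ˣ) : ZMod (q * t)) * z) = b := by
      rw [map_mul]
      constructor
      · intro h
        rw [h, ← mul_assoc, mul_comm (φ _) (φ _), hu, one_mul]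
      · intro h
        rw [← h, ← mul_assoc, hu, one_mul]
    by_cases h : φ z = φ (u : ZMod (q * t)) * b
    · rw [if_pos h, if_pos (hiff.1 h)]
      have e1 : χ z = χ (u : ZMod (q * t)) * χ (((u⁻¹ : (ZMod (q * t))ˣ) : ZMod (q * t)) * z) := by
        rw [← map_mul, ← mul_assoc, Units.mul_inv, one_mul]
      change ZMod.stdAddChar (c * ((u⁻¹ : (ZMod (q * t))ˣ) : ZMod (q * t)) * z) * χ z =
        χ (u : ZMod (q * t)) * (ZMod.stdAddChar (c * (((u⁻¹ : (ZMod (q * t))ˣ) : ZMod (q * t)) * z)) *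
          χ (((u⁻¹ : (ZMod (q * t))ˣ) : ZMod (q * t)) * z))
      rw [e1, mul_assoc c]
      ring
    · rw [if_neg h, if_neg (fun h' => h (hiff.2 h')), mul_zero]

/-- the classes `c` coprime to `t` -/
private noncomputable def cs (q t : ℕ) [NeZero q] [NeZero t] : Finset (ZMod (q * t)) :=
  open Classical in univ.filter (fun c => IsUnit (ZMod.castHom (dvd_mul_left t q) (ZMod t) c))

private theorem cs_sum (q t : ℕ) [NeZero q] [NeZero t] (F : ZMod (q * t) → ℝ) :
    ∑ c ∈ (range (q * t)).filter (fun c => Nat.Coprime c t), F (c : ZMod (q * t)) =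
      ∑ c ∈ cs q t, F c := by
  classical
  have hiff : ∀ n : ℕ, IsUnit (ZMod.castHom (dvd_mul_left t q) (ZMod t) (n : ZMod (q * t))) ↔
      Nat.Coprime n t := by
    intro n
    rw [map_natCast, ZMod.isUnit_iff_coprime]
  refine Finset.sum_bij' (fun c _ => (c : ZMod (q * t))) (fun c _ => c.val) ?_ ?_ ?_ ?_ ?_
  · intro c hc
    rw [Finset.mem_filter] at hc
    unfold cs
    simp only [Finset.mem_filter, Finset.mem_univ, true_and]
    exact (hiff c).2 hc.2
  · intro c hc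
    unfold cs at hc
    simp only [Finset.mem_filter, Finset.mem_univ, true_and] at hc
    rw [Finset.mem_filter, Finset.mem_range]
    refine ⟨ZMod.val_lt c, ?_⟩
    rw [← hiff, ZMod.natCast_zmod_val]
    exact hc
  · intro c hc
    rw [Finset.mem_filter, Finset.mem_range] at hc
    rw [ZMod.val_natCast, Nat.mod_eq_of_lt hc.1]
  · intro c hc
    exact ZMod.natCast_zmod_val c
  · intro c hc
    rfl

private theorem cs_unit (q t : ℕ) [NeZero q] [NeZero t] (u : (ZMod (q * t))ˣ) (F : ZMod (q * t) → ZMod q → ℂ) :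
    ∑ c ∈ cs q t, ∑ b : ZMod q, F (c * (u⁻¹ : (ZMod (q * t))ˣ))
      (ZMod.castHom (dvd_mul_right q t) (ZMod q) (u : ZMod (q * t)) * b) =
      ∑ c ∈ cs q t, ∑ b : ZMod q, F c b := by
  classical
  have h1 : ∀ c, ∑ b : ZMod q, F c
      (ZMod.castHom (dvd_mul_right q t) (ZMod q) (u : ZMod (q * t)) * b) = ∑ b : ZMod q, F c b := by
    intro c
    set φ := ZMod.castHom (dvd_mul_right q t) (ZMod q) with hφ
    have hu : φ (u : ZMod (q * t)) * φ ((u⁻¹ : (ZMod (q * t))ˣ) : ZMod (q * t)) = 1 := by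
      rw [← map_mul, Units.mul_inv, map_one]
    refine Finset.sum_bij' (fun b _ => φ (u : ZMod (q * t)) * b)
      (fun b _ => φ ((u⁻¹ : (ZMod (q * t))ˣ) : ZMod (q * t)) * b) ?_ ?_ ?_ ?_ ?_
    · intro z _; exact Finset.mem_univ _
    · intro z _; exact Finset.mem_univ _
    · intro z _
      rw [← mul_assoc, mul_comm (φ _) (φ _), hu, one_mul]
    · intro z _
      rw [← mul_assoc, hu, one_mul]
    · intro z _
      rfl
  simp only [h1]
  have hU : ∀ v : (ZMod (q * t))ˣ, IsUnit (ZMod.castHom (dvd_mul_left t q) (ZMod t) (v : ZMod (q * t))) :=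
    fun v => v.isUnit.map _
  refine Finset.sum_bij' (fun c _ => c * ((u⁻¹ : (ZMod (q * t))ˣ) : ZMod (q * t)))
    (fun c _ => c * (u : ZMod (q * t))) ?_ ?_ ?_ ?_ ?_
  · intro c hc
    unfold cs at hc ⊢
    simp only [Finset.mem_filter, Finset.mem_univ, true_and] at hc ⊢
    rw [map_mul]
    exact hc.mul (hU _)
  · intro c hc
    unfold cs at hc ⊢
    simp only [Finset.mem_filter, Finset.mem_univ, true_and] at hc ⊢
    rw [map_mul]
    exact hc.mul (hU _)
  · intro c _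
    simp [mul_assoc]
  · intro c _
    simp [mul_assoc]
  · intro c _
    rfl

/-- orthogonality of different characters -/
private theorem tb_orth (q t : ℕ) [NeZero q] [NeZero t] (χ ψ : DirichletCharacter ℂ (q * t)) (h : χ ≠ ψ) :
    ∑ c ∈ cs q t, ∑ b : ZMod q, tt q t (fun z => χ z) c b *
      (starRingEnd ℂ) (tt q t (fun z => ψ z) c b) = 0 := by
  classical
  set S := ∑ c ∈ cs q t, ∑ b : ZMod q, tt q t (fun z => χ z) c b *
      (starRingEnd ℂ) (tt q t (fun z => ψ z) c b) with hS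
  obtain ⟨u, hu⟩ : ∃ u : (ZMod (q * t))ˣ, χ (u : ZMod (q * t)) ≠ ψ (u : ZMod (q * t)) := by
    by_contra hc
    push Not at hc
    exact h (MulChar.ext hc)
  have e1 : χ (u : ZMod (q * t)) * (starRingEnd ℂ) (ψ (u : ZMod (q * t))) * S = S := by
    have h1 := cs_unit q t u (fun c b => tt q t (fun z => χ z) c b *
      (starRingEnd ℂ) (tt q t (fun z => ψ z) c b))
    rw [← hS] at h1
    refine Eq.trans ?_ h1
    rw [hS, Finset.mul_sum]
    refine Finset.sum_congr rfl fun c _ => ?_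
    rw [Finset.mul_sum]
    refine Finset.sum_congr rfl fun b _ => ?_
    rw [tt_unit, tt_unit, map_mul]
    ring
  have hn : ‖ψ (u : ZMod (q * t))‖ = 1 := DirichletCharacter.unit_norm_eq_one ψ u
  have hne : χ (u : ZMod (q * t)) * (starRingEnd ℂ) (ψ (u : ZMod (q * t))) ≠ 1 := by
    intro h1
    apply hu
    have h2 : (starRingEnd ℂ) (ψ (u : ZMod (q * t))) * ψ (u : ZMod (q * t)) = 1 := by
      rw [mul_comm, Complex.mul_conj, Complex.normSq_eq_norm_sq, hn]
      norm_num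
    calc χ (u : ZMod (q * t)) = χ (u : ZMod (q * t)) *
          ((starRingEnd ℂ) (ψ (u : ZMod (q * t))) * ψ (u : ZMod (q * t))) := by rw [h2, mul_one]
      _ = ψ (u : ZMod (q * t)) := by rw [← mul_assoc, h1, one_mul]
  have h3 : (χ (u : ZMod (q * t)) * (starRingEnd ℂ) (ψ (u : ZMod (q * t))) - 1) * S = 0 := by
    rw [sub_mul, e1, one_mul, sub_self]
  rcases mul_eq_zero.1 h3 with h4 | h4
  · exact absurd (sub_eq_zero.1 h4) hne
  · exact h4

/-- Pythagoras -/
private theorem tb_pyth {ι κ : Type*} [DecidableEq κ] (I : Finset ι) (S : Finset κ) (a : κ → ℂ)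
    (T : κ → ι → ℂ) (h : ∀ χ ∈ S, ∀ ψ ∈ S, χ ≠ ψ → ∑ i ∈ I, T χ i * (starRingEnd ℂ) (T ψ i) = 0) :
    ∑ i ∈ I, ‖∑ χ ∈ S, a χ * T χ i‖ ^ 2 = ∑ χ ∈ S, ‖a χ‖ ^ 2 * ∑ i ∈ I, ‖T χ i‖ ^ 2 := by
  have hsq : ∀ z : ℂ, ((‖z‖ ^ 2 : ℝ) : ℂ) = z * (starRingEnd ℂ) z := by
    intro z
    rw [Complex.mul_conj, Complex.normSq_eq_norm_sq]
  have key : ((∑ i ∈ I, ‖∑ χ ∈ S, a χ * T χ i‖ ^ 2 : ℝ) : ℂ) =
      ((∑ χ ∈ S, ‖a χ‖ ^ 2 * ∑ i ∈ I, ‖T χ i‖ ^ 2 : ℝ) : ℂ) := by
    rw [Complex.ofReal_sum, Complex.ofReal_sum]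
    calc ∑ i ∈ I, ((‖∑ χ ∈ S, a χ * T χ i‖ ^ 2 : ℝ) : ℂ)
        = ∑ i ∈ I, ∑ χ ∈ S, ∑ ψ ∈ S, (a χ * (starRingEnd ℂ) (a ψ)) *
            (T χ i * (starRingEnd ℂ) (T ψ i)) := by
          refine Finset.sum_congr rfl fun i _ => ?_
          rw [hsq, map_sum, Finset.sum_mul_sum]
          refine Finset.sum_congr rfl fun χ _ => Finset.sum_congr rfl fun ψ _ => ?_
          rw [map_mul]
          ring
      _ = ∑ χ ∈ S, ∑ ψ ∈ S, (a χ * (starRingEnd ℂ) (a ψ)) *
            ∑ i ∈ I, (T χ i * (starRingEnd ℂ) (T ψ i)) := by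
          rw [Finset.sum_comm]
          refine Finset.sum_congr rfl fun χ _ => ?_
          rw [Finset.sum_comm]
          refine Finset.sum_congr rfl fun ψ _ => ?_
          rw [Finset.mul_sum]
      _ = ∑ χ ∈ S, (a χ * (starRingEnd ℂ) (a χ)) * ∑ i ∈ I, (T χ i * (starRingEnd ℂ) (T χ i)) := by
          refine Finset.sum_congr rfl fun χ hχ => ?_
          refine Finset.sum_eq_single_of_mem χ hχ fun ψ hψ hne => ?_
          rw [h χ hχ ψ hψ (Ne.symm hne), mul_zero]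
      _ = _ := by
          refine Finset.sum_congr rfl fun χ _ => ?_
          rw [Complex.ofReal_mul, Complex.ofReal_sum, hsq]
          congr 1
          exact Finset.sum_congr rfl fun i _ => (hsq _).symm
  exact_mod_cast key

private theorem tt_PG (X q t : ℕ) [NeZero q] [NeZero t] (f : ℕ → ℝ) (φ : ℝ)
    (𝓖 : Finset (DirichletCharacter ℂ (q * t))) (c : ZMod (q * t)) (b : ZMod q) :
    tt q t (PG X (q * t) f φ 𝓖) c b =
      ∑ χ ∈ 𝓖, (1 / (Nat.totient (q * t) : ℂ) * Tc X (q * t) f φ χ) *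
        tt q t (fun z => (χ⁻¹ : DirichletCharacter ℂ (q * t)) z) c b := by
  unfold tt PG
  simp_rw [Finset.mul_sum]
  rw [Finset.sum_comm]
  refine Finset.sum_congr rfl fun z _ => ?_
  split_ifs with h
  · refine Finset.sum_congr rfl fun χ _ => ?_
    ring
  · simp

private theorem tb_mass (X q t : ℕ) [NeZero q] [NeZero t] (f : ℕ → ℝ) (φ : ℝ)
    (𝓖 : Finset (DirichletCharacter ℂ (q * t))) :
    ∑ c ∈ cs q t, nq (tt q t (PG X (q * t) f φ 𝓖) c) =
      ∑ χ ∈ 𝓖, ‖1 / (Nat.totient (q * t) : ℂ) * Tc X (q * t) f φ χ‖ ^ 2 *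
        ∑ i ∈ cs q t ×ˢ (univ : Finset (ZMod q)),
          ‖tt q t (fun z => (χ⁻¹ : DirichletCharacter ℂ (q * t)) z) i.1 i.2‖ ^ 2 := by
  classical
  rw [← tb_pyth (cs q t ×ˢ (univ : Finset (ZMod q))) 𝓖
    (fun χ => 1 / (Nat.totient (q * t) : ℂ) * Tc X (q * t) f φ χ)
    (fun χ i => tt q t (fun z => (χ⁻¹ : DirichletCharacter ℂ (q * t)) z) i.1 i.2)]
  · rw [Finset.sum_product]
    refine Finset.sum_congr rfl fun c _ => ?_
    unfold nq
    refine Finset.sum_congr rfl fun b _ => ?_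
    rw [tt_PG]
  · intro χ _ ψ _ hne
    rw [Finset.sum_product]
    exact tb_orth q t χ⁻¹ ψ⁻¹ (fun h => hne (inv_injective h))

private theorem tb_univ (X q t : ℕ) [NeZero q] [NeZero t] (ht : ∀ p : ℕ, p.Prime → p ∣ t → p ∣ q)
    (f : ℕ → ℝ) (φ : ℝ) (x : ℝ) :
    nq (Tw q t x (PG X (q * t) f φ univ)) ≤ nq (Tw q t x (fz X (q * t) f φ)) := by
  classical
  unfold nq
  refine Finset.sum_le_sum fun b _ => ?_
  have hu : ∀ j : ℕ, IsUnit ((b.val + q * j : ℕ) : ZMod (q * t)) ↔ Nat.Coprime b.val q := by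
    intro j
    rw [ZMod.isUnit_iff_coprime]
    constructor
    · intro h
      have h1 := Nat.Coprime.coprime_dvd_right (dvd_mul_right q t) h
      have h2 : Nat.gcd (b.val + q * j) q = Nat.gcd b.val q := by
        simp
      unfold Nat.Coprime at h1 ⊢
      rw [← h2]
      exact h1
    · intro h
      have h2 : Nat.Coprime (b.val + q * j) q := by
        unfold Nat.Coprime at h ⊢
        simpa using h
      refine Nat.Coprime.mul_right h2 ?_
      rw [Nat.coprime_iff_gcd_eq_one] at h2 ⊢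
      by_contra hne
      obtain ⟨p, hp, hpd⟩ := Nat.exists_prime_and_dvd hne
      have h3 : p ∣ q := ht p hp (hpd.trans (Nat.gcd_dvd_right _ _))
      have h4 : p ∣ Nat.gcd (b.val + q * j) q := Nat.dvd_gcd (hpd.trans (Nat.gcd_dvd_left _ _)) h3
      rw [h2] at h4
      exact hp.one_lt.ne' (Nat.dvd_one.1 h4)
  by_cases hb : Nat.Coprime b.val q
  · refine le_of_eq ?_
    congr 2
    unfold Tw
    refine Finset.sum_congr rfl fun j _ => ?_
    rw [PG_univ, if_pos ((hu j).2 hb)]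
  · have h0 : Tw q t x (PG X (q * t) f φ univ) b = 0 := by
      unfold Tw
      refine Finset.sum_eq_zero fun j _ => ?_
      rw [PG_univ, if_neg (fun h => hb ((hu j).1 h)), mul_zero]
    rw [h0, norm_zero, zero_pow two_ne_zero]
    exact sq_nonneg _

theorem Tw_proj (X q t : ℕ) [NeZero q] [NeZero t] (ht : ∀ p : ℕ, p.Prime → p ∣ t → p ∣ q)
    (f : ℕ → ℝ) (φ : ℝ) (𝓖 : Finset (DirichletCharacter ℂ (q * t))) :
    ∑ c ∈ (range (q * t)).filter (fun c => Nat.Coprime c t),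
        nq (Tw q t ((c : ℝ) / (q * t : ℕ)) (PG X (q * t) f φ 𝓖)) ≤
      ∑ c ∈ (range (q * t)).filter (fun c => Nat.Coprime c t),
        nq (Tw q t ((c : ℝ) / (q * t : ℕ)) (fz X (q * t) f φ)) := by
  have e1 : ∀ g : ZMod (q * t) → ℂ, ∑ c ∈ (range (q * t)).filter (fun c => Nat.Coprime c t),
      nq (Tw q t ((c : ℝ) / (q * t : ℕ)) g) = ∑ c ∈ cs q t, nq (tt q t g c) := by
    intro g
    rw [← cs_sum q t (fun c => nq (tt q t g c))]
    refine Finset.sum_congr rfl fun c _ => ?_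
    unfold nq
    refine Finset.sum_congr rfl fun b _ => ?_
    rw [tw_eq]
  have h1 : ∑ c ∈ (range (q * t)).filter (fun c => Nat.Coprime c t),
      nq (Tw q t ((c : ℝ) / (q * t : ℕ)) (PG X (q * t) f φ 𝓖)) ≤
      ∑ c ∈ (range (q * t)).filter (fun c => Nat.Coprime c t),
        nq (Tw q t ((c : ℝ) / (q * t : ℕ)) (PG X (q * t) f φ univ)) := by
    rw [e1, e1, tb_mass, tb_mass]
    refine Finset.sum_le_sum_of_subset_of_nonneg (Finset.subset_univ _) fun χ _ _ => ?_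
    positivity
  exact h1.trans (Finset.sum_le_sum fun c _ => tb_univ X q t ht f φ _)

end Pool.MP_dd84fd_nt.EM
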