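import Pool.Agent.Lib.MP_5349b0_nt.SZ2.A7WeylInv

/-!
# From random integers with small large spectrum to the values `a + q m ^ k`

If a property `F` of the integers `n ≤ X` has probability at most `(log X) ^ (-A)` for every random
integer in a residue class modulo `q ≤ X ^ (6/7 - ε₀)` whose large spectrum has measure at most
`q (log X) ^ K / X`, then at most `M / (log M) ^ A` of the `m ∈ [M, 2 M)` are such that
`a + q m ^ k` has the property `F`, for all `q ≤ M ^ (6 k - ε)` and all `a ≤ q M ^ k` with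
`(a, q) ≤ (log M) ^ L`.  The large spectrum is bounded by the inverse theorem for Weyl sums.
-/

set_option autoImplicit false

namespace Pool.MP_dd84fd_nt.EM

open Finset MeasureTheory Pool.Agent.Lib.MP_5349b0_nt.SZ2

/-- `{θ ∈ [0, 1] : ‖n θ‖ ≤ η}` has measure at most `4 η` -/
theorem vol_near (n : ℕ) (hn : 1 ≤ n) (η : ℝ) (hη : 0 ≤ η) :
    volume {θ : ℝ | 0 ≤ θ ∧ θ ≤ 1 ∧ dZ (n * θ) ≤ η} ≤ ENNReal.ofReal (4 * η) := by
  have hn0 : (0 : ℝ) < n := by exact_mod_cast hn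
  have hn1 : (1 : ℝ) ≤ n := by exact_mod_cast hn
  have hsub : {θ : ℝ | 0 ≤ θ ∧ θ ≤ 1 ∧ dZ (n * θ) ≤ η} ⊆
      ⋃ j ∈ Finset.range (n + 1), Set.Icc (((j : ℝ) - η) / n) (((j : ℝ) + η) / n) := by
    rintro θ ⟨h0, h1, h2⟩
    have hr0 : 0 ≤ round ((n : ℝ) * θ) := by
      rw [round_eq]
      apply Int.floor_nonneg.2
      positivity
    have hr1 : round ((n : ℝ) * θ) ≤ n := by
      rw [round_eq]
      have : ((n : ℝ) * θ + 1 / 2) < ((n : ℤ) + 1 : ℤ) := by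
        push_cast
        nlinarith
      have h3 := Int.floor_lt.2 this
      omega
    obtain ⟨j, hj⟩ := Int.eq_ofNat_of_zero_le hr0
    have hjn : j < n + 1 := by omega
    simp only [Set.mem_iUnion]
    refine ⟨j, Finset.mem_range.2 hjn, ?_⟩
    unfold dZ at h2
    rw [hj] at h2
    rw [abs_le] at h2
    push_cast at h2
    rw [Set.mem_Icc, div_le_iff₀ hn0, le_div_iff₀ hn0]
    constructor <;> linarith [h2.1, h2.2]
  calc volume {θ : ℝ | 0 ≤ θ ∧ θ ≤ 1 ∧ dZ (n * θ) ≤ η}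
      ≤ volume (⋃ j ∈ Finset.range (n + 1), Set.Icc (((j : ℝ) - η) / n) (((j : ℝ) + η) / n)) :=
        measure_mono hsub
    _ ≤ ∑ j ∈ Finset.range (n + 1), volume (Set.Icc (((j : ℝ) - η) / n) (((j : ℝ) + η) / n)) :=
        measure_biUnion_finset_le _ _
    _ = ∑ j ∈ Finset.range (n + 1), ENNReal.ofReal (2 * η / n) := by
        refine Finset.sum_congr rfl fun j _ => ?_
        rw [Real.volume_Icc]
        congr 1
        ring
    _ = ENNReal.ofReal ((n + 1) * (2 * η / n)) := by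
        rw [Finset.sum_const, Finset.card_range, nsmul_eq_mul,
          ENNReal.ofReal_mul (by positivity)]
        congr 1
        rw [ENNReal.ofReal_add (by positivity) (by norm_num)]
        simp
    _ ≤ ENNReal.ofReal (4 * η) := by
        apply ENNReal.ofReal_le_ofReal
        rw [mul_div_assoc']
        rw [div_le_iff₀ hn0]
        nlinarith

/-- the large spectrum of the law of `a + q m ^ k` -/
theorem vol_spec {C : ℕ} {k M q : ℕ} {δ : ℝ} (hM : 1 ≤ M) (hq : 1 ≤ q) (hδ : 0 < δ)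
    (h : ∀ φ : ℝ, δ * M ≤ ‖∑ n ∈ Ico (M : ℤ) (2 * M), e (φ * (n : ℝ) ^ k)‖ →
      ∃ b : ℕ, 1 ≤ b ∧ (b : ℝ) ≤ C / δ ^ C ∧ dZ (b * φ) ≤ C / δ ^ C / (M : ℝ) ^ k) :
    volume {θ : ℝ | 0 ≤ θ ∧ θ ≤ 1 ∧
      δ * M ≤ ‖∑ n ∈ Ico (M : ℤ) (2 * M), e ((q * θ) * (n : ℝ) ^ k)‖} ≤
        ENNReal.ofReal (4 * (C / δ ^ C) ^ 2 / (M : ℝ) ^ k) := by
  obtain ⟨Q, hQ⟩ : ∃ Q : ℝ, Q = C / δ ^ C := ⟨_, rfl⟩
  have hQ0 : 0 ≤ Q := by rw [hQ]; positivity
  have hM0 : (0 : ℝ) < M := by exact_mod_cast hM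
  rw [← hQ]
  have hsub : {θ : ℝ | 0 ≤ θ ∧ θ ≤ 1 ∧
      δ * M ≤ ‖∑ n ∈ Ico (M : ℤ) (2 * M), e ((q * θ) * (n : ℝ) ^ k)‖} ⊆
      ⋃ b ∈ Finset.Icc 1 ⌊Q⌋₊, {θ : ℝ | 0 ≤ θ ∧ θ ≤ 1 ∧
        dZ (((b * q : ℕ) : ℝ) * θ) ≤ Q / (M : ℝ) ^ k} := by
    rintro θ ⟨h0, h1, h2⟩
    obtain ⟨b, hb1, hb2, hb3⟩ := h _ h2
    rw [← hQ] at hb2 hb3
    simp only [Set.mem_iUnion]
    refine ⟨b, Finset.mem_Icc.2 ⟨hb1, Nat.le_floor hb2⟩, h0, h1, ?_⟩
    have h3 : ((b * q : ℕ) : ℝ) * θ = b * (q * θ) := by push_cast; ring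
    rw [h3]
    exact hb3
  calc _ ≤ volume (⋃ b ∈ Finset.Icc 1 ⌊Q⌋₊, {θ : ℝ | 0 ≤ θ ∧ θ ≤ 1 ∧
        dZ (((b * q : ℕ) : ℝ) * θ) ≤ Q / (M : ℝ) ^ k}) := measure_mono hsub
    _ ≤ ∑ b ∈ Finset.Icc 1 ⌊Q⌋₊, volume {θ : ℝ | 0 ≤ θ ∧ θ ≤ 1 ∧
        dZ (((b * q : ℕ) : ℝ) * θ) ≤ Q / (M : ℝ) ^ k} := measure_biUnion_finset_le _ _
    _ ≤ ∑ b ∈ Finset.Icc 1 ⌊Q⌋₊, ENNReal.ofReal (4 * (Q / (M : ℝ) ^ k)) := by
        refine Finset.sum_le_sum fun b hb => ?_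
        refine vol_near (b * q) ?_ _ (by positivity)
        have := (Finset.mem_Icc.1 hb).1
        exact Nat.mul_pos this hq
    _ = ENNReal.ofReal (⌊Q⌋₊ * (4 * (Q / (M : ℝ) ^ k))) := by
        rw [Finset.sum_const, Nat.card_Icc, nsmul_eq_mul,
          ENNReal.ofReal_mul (by positivity)]
        simp
    _ ≤ ENNReal.ofReal (4 * Q ^ 2 / (M : ℝ) ^ k) := by
        apply ENNReal.ofReal_le_ofReal
        have h4 : (⌊Q⌋₊ : ℝ) ≤ Q := Nat.floor_le hQ0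
        calc (⌊Q⌋₊ : ℝ) * (4 * (Q / (M : ℝ) ^ k)) ≤ Q * (4 * (Q / (M : ℝ) ^ k)) :=
              mul_le_mul_of_nonneg_right h4 (by positivity)
          _ = 4 * Q ^ 2 / (M : ℝ) ^ k := by ring

/-- the law of `a + q m ^ k`, `m` uniform in `[M, 2 M)` -/
noncomputable def law (a q k M : ℕ) (n : ℕ) : ℝ :=
  (((Ico M (2 * M)).filter (fun m => a + q * m ^ k = n)).card : ℝ) / M

theorem law_nonneg (a q k M n : ℕ) : 0 ≤ law a q k M n := by unfold law; positivity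

theorem law_mem {a q k M n : ℕ} (h : law a q k M n ≠ 0) : n ≡ a [MOD q] := by
  unfold law at h
  have h1 : ((Ico M (2 * M)).filter (fun m => a + q * m ^ k = n)).Nonempty := by
    rw [← Finset.card_pos]
    by_contra hc
    have : ((Ico M (2 * M)).filter (fun m => a + q * m ^ k = n)).card = 0 := by omega
    rw [this] at h
    simp at h
  obtain ⟨m, hm⟩ := h1
  rw [Finset.mem_filter] at hm
  rw [← hm.2]
  exact (Nat.modEq_iff_dvd' (by omega)).2 (by simp) |>.symm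

theorem sum_law {E : Type*} [Semiring E] [Module ℝ E] [IsScalarTower ℝ E E] (a q k M X : ℕ)
    (hX : ∀ m ∈ Ico M (2 * M), a + q * m ^ k ∈ Icc 1 X) (f : ℕ → E) :
    ∑ n ∈ Icc 1 X, law a q k M n • f n = (1 / (M : ℝ)) • ∑ m ∈ Ico M (2 * M), f (a + q * m ^ k) := by
  have h1 : ∀ n ∈ Icc 1 X, law a q k M n • f n = (1 / (M : ℝ)) •
      ∑ m ∈ (Ico M (2 * M)).filter (fun m => a + q * m ^ k = n), f (a + q * m ^ k) := by
    intro n _
    unfold law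
    have h2 : ∑ m ∈ (Ico M (2 * M)).filter (fun m => a + q * m ^ k = n), f (a + q * m ^ k) =
        (((Ico M (2 * M)).filter (fun m => a + q * m ^ k = n)).card : ℝ) • f n := by
      rw [Finset.sum_congr rfl (fun m hm => by rw [(Finset.mem_filter.1 hm).2] :
        ∀ m ∈ (Ico M (2 * M)).filter (fun m => a + q * m ^ k = n), f (a + q * m ^ k) = f n),
        Finset.sum_const, ← Nat.cast_smul_eq_nsmul ℝ]
    rw [h2, smul_smul]
    congr 1
    ring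
  rw [Finset.sum_congr rfl h1, ← Finset.smul_sum]
  congr 1
  exact Finset.sum_fiberwise_of_maps_to hX _

theorem sum_Ico_int (M : ℕ) (f : ℤ → ℂ) :
    ∑ n ∈ Ico (M : ℤ) (2 * M), f n = ∑ m ∈ Ico M (2 * M), f (m : ℤ) := by
  have h : Ico (M : ℤ) (2 * M) = (Ico M (2 * M)).image (fun m : ℕ => (m : ℤ)) := by
    ext x
    simp only [Finset.mem_Ico, Finset.mem_image]
    constructor
    · rintro ⟨h1, h2⟩
      refine ⟨x.toNat, ⟨by omega, by omega⟩, by omega⟩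
    · rintro ⟨m, ⟨h1, h2⟩, rfl⟩
      constructor <;> omega
  rw [h, Finset.sum_image (fun a _ b _ hab => by exact_mod_cast hab)]

/-- the Fourier transform of the law of `a + q m ^ k` is a Weyl sum -/
theorem norm_hat (a q k M X : ℕ) (hM : 1 ≤ M)
    (hX : ∀ m ∈ Ico M (2 * M), a + q * m ^ k ∈ Icc 1 X) (θ : ℝ) :
    ‖∑ n ∈ Icc 1 X, (law a q k M n : ℂ) * Complex.exp (2 * Real.pi * (n * θ : ℝ) * Complex.I)‖ * M =
      ‖∑ n ∈ Ico (M : ℤ) (2 * M), e ((q * θ) * (n : ℝ) ^ k)‖ := by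
  have hM0 : (0 : ℝ) < M := by exact_mod_cast hM
  have h1 : ∑ n ∈ Icc 1 X, (law a q k M n : ℂ) *
      Complex.exp (2 * Real.pi * (n * θ : ℝ) * Complex.I) =
      ∑ n ∈ Icc 1 X, law a q k M n • Complex.exp (2 * Real.pi * (n * θ : ℝ) * Complex.I) :=
    Finset.sum_congr rfl fun n _ => by rw [Complex.real_smul]
  rw [h1, sum_law a q k M X hX, sum_Ico_int]
  have h2 : ∑ m ∈ Ico M (2 * M), Complex.exp (2 * Real.pi * (((a + q * m ^ k : ℕ) : ℝ) * θ : ℝ) *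
      Complex.I) = e (a * θ) * ∑ m ∈ Ico M (2 * M), e ((q * θ) * (((m : ℤ) : ℝ)) ^ k) := by
    rw [Finset.mul_sum]
    refine Finset.sum_congr rfl fun m _ => ?_
    unfold e
    rw [← Complex.exp_add]
    congr 1
    push_cast
    ring
  have h3 : ‖e (a * θ)‖ = 1 := by
    unfold e
    have : (2 * (Real.pi : ℂ) * ((a * θ : ℝ) : ℂ) * Complex.I) =
        ((2 * Real.pi * (a * θ) : ℝ) : ℂ) * Complex.I := by push_cast; ring
    rw [this, Complex.norm_exp_ofReal_mul_I]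
  rw [h2, norm_smul, norm_mul, h3, one_mul, Real.norm_eq_abs, abs_of_pos (by positivity)]
  field_simp

open Classical in
/-- **almost all even values of `a + q m ^ k`, uniformly in `q ≤ M ^ (6 k - ε)`** -/
theorem values (F : ℕ → Prop)
    (H : ∀ ε₀ : ℝ, 0 < ε₀ → ∀ A : ℕ, ∃ B : ℕ, ∀ K : ℕ, ∃ X₀ : ℕ, ∀ X : ℕ, X₀ ≤ X →
      ∀ q : ℕ, 1 ≤ q → (q : ℝ) ≤ (X : ℝ) ^ (6 / 7 - ε₀) →
      ∀ a : ℕ, (Nat.gcd a q : ℝ) ≤ Real.log X ^ K →
      ∀ ξ : ℕ → ℝ, (∀ n, 0 ≤ ξ n) → (∀ n, ξ n ≠ 0 → n ≡ a [MOD q]) → ∑ n ∈ Icc 1 X, ξ n = 1 →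
      volume {θ : ℝ | 0 ≤ θ ∧ θ ≤ 1 ∧ 1 / Real.log X ^ B <
        ‖∑ n ∈ Icc 1 X, (ξ n : ℂ) * Complex.exp (2 * Real.pi * (n * θ : ℝ) * Complex.I)‖} ≤
        ENNReal.ofReal (q * Real.log X ^ K / X) →
      ∑ n ∈ (Icc 1 X).filter (fun n : ℕ => Even n ∧ F n), ξ n ≤ 1 / Real.log X ^ A)
    (k : ℕ) (hk : 1 ≤ k) (ε : ℝ) (hε : 0 < ε) (A L : ℕ) :
    ∃ M₀ : ℕ, ∀ M : ℕ, M₀ ≤ M → ∀ q : ℕ, 1 ≤ q → (q : ℝ) ≤ (M : ℝ) ^ (6 * k - ε) →
      ∀ a : ℕ, a ≤ q * M ^ k → (Nat.gcd a q : ℝ) ≤ Real.log M ^ L →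
      (((Ico M (2 * M)).filter (fun m => Even (a + q * m ^ k) ∧ F (a + q * m ^ k))).card : ℝ) ≤
        M / Real.log M ^ A := by
  have hk0 : (0 : ℝ) < k := by exact_mod_cast hk
  obtain ⟨ε₀, hε₀⟩ : ∃ ε₀ : ℝ, ε₀ = min (ε / (49 * k)) (1 / 14) := ⟨_, rfl⟩
  have hε0 : 0 < ε₀ := by rw [hε₀]; exact lt_min (by positivity) (by norm_num)
  have hε1 : 49 * k * ε₀ ≤ ε := by
    have h1 : ε₀ ≤ ε / (49 * k) := by rw [hε₀]; exact min_le_left _ _
    rw [le_div_iff₀ (by positivity)] at h1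
    linarith
  have hε2 : ε₀ ≤ 1 / 14 := by rw [hε₀]; exact min_le_right _ _
  obtain ⟨B, hB⟩ := H ε₀ hε0 A
  obtain ⟨C, hC1, hC⟩ := weylInv k hk
  obtain ⟨X₀, hX₀⟩ := hB (2 * B * C + 1 + L)
  -- largeness of `M`
  have hlogT : Filter.Tendsto (fun M : ℕ => Real.log (M : ℝ)) Filter.atTop Filter.atTop :=
    Real.tendsto_log_atTop.comp tendsto_natCast_atTop_atTop
  have hev1 : ∀ᶠ M : ℕ in Filter.atTop,
      (C : ℝ) * ((8 * k + 1) * Real.log M) ^ (B * C) ≤ M := by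
    have h1 : (fun x : ℝ => Real.log x ^ (B * C)) =o[Filter.atTop] id :=
      Real.isLittleO_pow_log_id_atTop
    have h2 := h1.bound (c := 1 / ((C : ℝ) * (8 * k + 1) ^ (B * C)))
      (by have : (0 : ℝ) < C := by exact_mod_cast hC1
          positivity)
    have h3 := tendsto_natCast_atTop_atTop.eventually h2
    filter_upwards [h3, hlogT.eventually_ge_atTop 0] with M hM hM0
    have hC0 : (0 : ℝ) < C := by exact_mod_cast hC1
    rw [Real.norm_eq_abs, abs_of_nonneg (pow_nonneg hM0 _), id, Real.norm_eq_abs,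
      abs_of_nonneg (Nat.cast_nonneg M), one_div, inv_mul_eq_div, le_div_iff₀ (by positivity)] at hM
    rw [mul_pow]
    linarith
  obtain ⟨M₁, hM₁⟩ := Filter.eventually_atTop.1 (hev1.and
    (hlogT.eventually_ge_atTop ((2 : ℝ) ^ (k + 3) * C ^ 2 + 1)))
  refine ⟨max (max M₁ X₀) 2, fun M hM q hq hqM a ha hgcd => ?_⟩
  simp only [max_le_iff] at hM
  obtain ⟨⟨hM1, hMX⟩, hM2⟩ := hM
  obtain ⟨hb1, hb2⟩ := hM₁ M hM1
  have hMr : (2 : ℝ) ≤ M := by exact_mod_cast hM2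
  have hM0 : (0 : ℝ) < M := by linarith
  have hqr : (1 : ℝ) ≤ q := by exact_mod_cast hq
  have hC1r : (1 : ℝ) ≤ C := by exact_mod_cast hC1
  -- the range `X`
  obtain ⟨X, hX⟩ : ∃ X : ℕ, X = a + q * (2 * M) ^ k := ⟨_, rfl⟩
  have hMk : 1 ≤ M ^ k := Nat.one_le_pow _ _ (by omega)
  have hMle : M ≤ M ^ k := by
    calc M = M ^ 1 := (pow_one M).symm
      _ ≤ M ^ k := Nat.pow_le_pow_right (by omega) hk
  have hqMX : q * M ^ k ≤ X := by
    rw [hX]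
    have : M ^ k ≤ (2 * M) ^ k := Nat.pow_le_pow_left (by omega) k
    nlinarith
  have hMX' : M ≤ X := by
    have : M ^ k ≤ q * M ^ k := Nat.le_mul_of_pos_left _ hq
    omega
  have hXle : X ≤ 2 ^ (k + 1) * (q * M ^ k) := by
    rw [hX, mul_pow, pow_succ]
    have : 1 ≤ 2 ^ k := Nat.one_le_two_pow
    nlinarith
  have hXr : (X : ℝ) ≤ 2 ^ (k + 1) * (q * (M : ℝ) ^ k) := by exact_mod_cast hXle
  have hqMXr : (q : ℝ) * (M : ℝ) ^ k ≤ X := by exact_mod_cast hqMX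
  have hMXr : (M : ℝ) ≤ X := by exact_mod_cast hMX'
  have hX0 : (0 : ℝ) < X := by linarith
  have hlM : (2 : ℝ) ^ (k + 3) * C ^ 2 + 1 ≤ Real.log M := hb2
  have hlMX : Real.log M ≤ Real.log X := Real.log_le_log hM0 hMXr
  have hlM1 : 1 ≤ Real.log M := by
    have : (0 : ℝ) ≤ (2 : ℝ) ^ (k + 3) * C ^ 2 := by positivity
    linarith
  have hlX1 : 1 ≤ Real.log X := hlM1.trans hlMX
  have hlX : Real.log X ≤ (8 * k + 1) * Real.log M := by
    have h1 : (q : ℝ) ≤ (M : ℝ) ^ (6 * (k : ℝ)) :=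
      hqM.trans (Real.rpow_le_rpow_of_exponent_le (by linarith) (by linarith))
    have h2 : (2 : ℝ) ^ (k + 1) ≤ (M : ℝ) ^ ((k : ℝ) + 1) := by
      rw [show ((k : ℝ) + 1) = ((k + 1 : ℕ) : ℝ) by push_cast; ring, Real.rpow_natCast]
      exact pow_le_pow_left₀ (by norm_num) hMr _
    have h3 : (X : ℝ) ≤ (M : ℝ) ^ (8 * (k : ℝ) + 1) := by
      calc (X : ℝ) ≤ 2 ^ (k + 1) * (q * (M : ℝ) ^ k) := hXr
        _ ≤ (M : ℝ) ^ ((k : ℝ) + 1) * ((M : ℝ) ^ (6 * (k : ℝ)) * (M : ℝ) ^ (k : ℝ)) := by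
            rw [Real.rpow_natCast M k]
            apply mul_le_mul h2 _ (by positivity) (by positivity)
            exact mul_le_mul_of_nonneg_right h1 (by positivity)
        _ = (M : ℝ) ^ (8 * (k : ℝ) + 1) := by
            rw [← Real.rpow_add hM0, ← Real.rpow_add hM0]
            congr 1
            ring
    calc Real.log X ≤ Real.log ((M : ℝ) ^ (8 * (k : ℝ) + 1)) := Real.log_le_log hX0 h3
      _ = (8 * k + 1) * Real.log M := Real.log_rpow hM0 _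
  have hmaps : ∀ m ∈ Ico M (2 * M), a + q * m ^ k ∈ Icc 1 X := by
    intro m hm
    rw [Finset.mem_Ico] at hm
    rw [Finset.mem_Icc, hX]
    constructor
    · have h1 : 1 ≤ m ^ k := Nat.one_le_pow _ _ (by omega)
      have h2 : 1 ≤ q * m ^ k := Nat.mul_pos hq h1
      omega
    · have h1 : m ^ k ≤ (2 * M) ^ k := Nat.pow_le_pow_left (by omega) k
      have h2 := Nat.mul_le_mul_left q h1
      omega
  -- the modulus
  have hqX : (q : ℝ) ≤ (X : ℝ) ^ (6 / 7 - ε₀) := by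
    have h1 : (q : ℝ) ^ (1 / 7 + ε₀) ≤ (M : ℝ) ^ (k * (6 / 7 - ε₀)) := by
      calc (q : ℝ) ^ (1 / 7 + ε₀) ≤ ((M : ℝ) ^ (6 * k - ε)) ^ (1 / 7 + ε₀) :=
            Real.rpow_le_rpow (by linarith) hqM (by linarith)
        _ = (M : ℝ) ^ ((6 * k - ε) * (1 / 7 + ε₀)) := by rw [← Real.rpow_mul hM0.le]
        _ ≤ (M : ℝ) ^ (k * (6 / 7 - ε₀)) := by
            refine Real.rpow_le_rpow_of_exponent_le (by linarith) ?_
            nlinarith [mul_pos hε hε0]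
    have h2 : (q : ℝ) = (q : ℝ) ^ (1 / 7 + ε₀) * (q : ℝ) ^ (6 / 7 - ε₀) := by
      rw [← Real.rpow_add (by linarith)]
      norm_num
    have h3 : ((M : ℝ) ^ k) ^ (6 / 7 - ε₀) = (M : ℝ) ^ (k * (6 / 7 - ε₀)) := by
      rw [← Real.rpow_natCast M k, ← Real.rpow_mul hM0.le]
    calc (q : ℝ) = (q : ℝ) ^ (1 / 7 + ε₀) * (q : ℝ) ^ (6 / 7 - ε₀) := h2
      _ ≤ (M : ℝ) ^ (k * (6 / 7 - ε₀)) * (q : ℝ) ^ (6 / 7 - ε₀) :=
          mul_le_mul_of_nonneg_right h1 (Real.rpow_nonneg (by linarith) _)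
      _ = (q * (M : ℝ) ^ k) ^ (6 / 7 - ε₀) := by
          rw [Real.mul_rpow (by linarith) (by positivity), h3]
          ring
      _ ≤ (X : ℝ) ^ (6 / 7 - ε₀) := Real.rpow_le_rpow (by positivity) hqMXr (by linarith)
  have hgcd' : (Nat.gcd a q : ℝ) ≤ Real.log X ^ (2 * B * C + 1 + L) := by
    calc (Nat.gcd a q : ℝ) ≤ Real.log M ^ L := hgcd
      _ ≤ Real.log X ^ L := pow_le_pow_left₀ (by linarith) hlMX L
      _ ≤ Real.log X ^ (2 * B * C + 1 + L) := pow_le_pow_right₀ hlX1 (by omega)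
  -- the total mass
  have hone : ∑ n ∈ Icc 1 X, law a q k M n = 1 := by
    have h1 := sum_law a q k M X hmaps (fun _ => (1 : ℝ))
    simp only [smul_eq_mul, mul_one, Finset.sum_const, Nat.card_Ico, nsmul_eq_mul] at h1
    rw [h1]
    have h2 : 2 * M - M = M := by omega
    rw [h2]
    field_simp
  -- the large spectrum
  obtain ⟨δ, hδ⟩ : ∃ δ : ℝ, δ = 1 / Real.log X ^ B := ⟨_, rfl⟩
  have hδ0 : 0 < δ := by rw [hδ]; positivity
  have hδ1 : δ ≤ 1 := by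
    rw [hδ, div_le_one (by positivity)]
    exact one_le_pow₀ hlX1
  have hQ : (C : ℝ) / δ ^ C = C * Real.log X ^ (B * C) := by
    rw [hδ, div_pow, one_pow, ← pow_mul, div_div_eq_mul_div, div_one]
  have hCM : (C : ℝ) / δ ^ C ≤ M := by
    rw [hQ]
    refine le_trans ?_ hb1
    exact mul_le_mul_of_nonneg_left (pow_le_pow_left₀ (by linarith) hlX _) (by positivity)
  have hvol : volume {θ : ℝ | 0 ≤ θ ∧ θ ≤ 1 ∧ 1 / Real.log X ^ B <
      ‖∑ n ∈ Icc 1 X, (law a q k M n : ℂ) *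
        Complex.exp (2 * Real.pi * (n * θ : ℝ) * Complex.I)‖} ≤
      ENNReal.ofReal (q * Real.log X ^ (2 * B * C + 1 + L) / X) := by
    have hs : {θ : ℝ | 0 ≤ θ ∧ θ ≤ 1 ∧ 1 / Real.log X ^ B <
      ‖∑ n ∈ Icc 1 X, (law a q k M n : ℂ) *
        Complex.exp (2 * Real.pi * (n * θ : ℝ) * Complex.I)‖} ⊆
        {θ : ℝ | 0 ≤ θ ∧ θ ≤ 1 ∧
          δ * M ≤ ‖∑ n ∈ Ico (M : ℤ) (2 * M), e ((q * θ) * (n : ℝ) ^ k)‖} := by
      rintro θ ⟨h0, h1, h2⟩
      refine ⟨h0, h1, ?_⟩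
      rw [← norm_hat a q k M X (by omega) hmaps θ]
      rw [← hδ] at h2
      exact mul_le_mul_of_nonneg_right h2.le hM0.le
    refine (measure_mono hs).trans ((vol_spec (C := C) (by omega) hq hδ0
      (fun φ hφ => hC M φ δ hδ0 hδ1 hCM hφ)).trans ?_)
    apply ENNReal.ofReal_le_ofReal
    rw [hQ, div_le_div_iff₀ (by positivity) hX0]
    have hP : (0 : ℝ) < Real.log X ^ (2 * B * C) := by positivity
    have e1 : ((C : ℝ) * Real.log X ^ (B * C)) ^ 2 = C ^ 2 * Real.log X ^ (2 * B * C) := by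
      rw [mul_pow, ← pow_mul]
      congr 2
      ring
    have e2 : Real.log X ^ (2 * B * C + 1 + L) =
        Real.log X ^ (2 * B * C) * (Real.log X * Real.log X ^ L) := by
      rw [pow_add, pow_add, pow_one]
      ring
    have e3 : (2 : ℝ) ^ (k + 3) = 4 * 2 ^ (k + 1) := by
      rw [show k + 3 = (k + 1) + 2 by ring, pow_add]
      ring
    have h5 : (2 : ℝ) ^ (k + 3) * C ^ 2 ≤ Real.log X * Real.log X ^ L := by
      have h6 : (1 : ℝ) ≤ Real.log X ^ L := one_le_pow₀ hlX1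
      nlinarith
    rw [e1, e2]
    calc 4 * ((C : ℝ) ^ 2 * Real.log X ^ (2 * B * C)) * X
        ≤ 4 * ((C : ℝ) ^ 2 * Real.log X ^ (2 * B * C)) * (2 ^ (k + 1) * (q * (M : ℝ) ^ k)) :=
          mul_le_mul_of_nonneg_left hXr (by positivity)
      _ = (2 ^ (k + 3) * C ^ 2) * (Real.log X ^ (2 * B * C) * (q * (M : ℝ) ^ k)) := by
          rw [e3]; ring
      _ ≤ (Real.log X * Real.log X ^ L) * (Real.log X ^ (2 * B * C) * (q * (M : ℝ) ^ k)) :=
          mul_le_mul_of_nonneg_right h5 (by positivity)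
      _ = _ := by ring
  have hfin := hX₀ X (hMX.trans hMX') q hq hqX a hgcd' (law a q k M) (law_nonneg a q k M)
    (fun n hn => law_mem hn) hone hvol
  -- conclusion
  have hcard : ∑ n ∈ (Icc 1 X).filter (fun n : ℕ => Even n ∧ F n), law a q k M n =
      (1 / (M : ℝ)) *
        (((Ico M (2 * M)).filter (fun m => Even (a + q * m ^ k) ∧ F (a + q * m ^ k))).card : ℝ) := by
    have h1 := sum_law a q k M X hmaps (fun n => if Even n ∧ F n then (1 : ℝ) else 0)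
    simp only [smul_eq_mul, mul_ite, mul_one, mul_zero] at h1
    rw [Finset.sum_filter, h1]
    congr 1
    rw [Finset.sum_ite, Finset.sum_const_zero, add_zero, Finset.sum_const, nsmul_eq_mul, mul_one]
  rw [hcard, one_div, inv_mul_le_iff₀ hM0] at hfin
  refine hfin.trans ?_
  rw [mul_one_div]
  exact div_le_div_of_nonneg_left hM0.le (by positivity) (pow_le_pow_left₀ (by linarith) hlMX A)

end Pool.MP_dd84fd_nt.EM
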